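import Pool.Agent.P.MP_8fdf05_gt.BarrierWin

open Set Filter Topology

namespace Pool.Agent.P.MP_8fdf05_gt

open Sm

namespace Barrier

variable {m : ℕ} {r1 : ℝ}

/-- The lens function stays negative at r = r1 for a short time. -/
theorem O3H (hm : 2 ≤ m) (hr1 : r1 ∈ Ioo (0 : ℝ) (1 / 10)) {τ a L : ℝ} (hτ0 : 0 < τ)
    (ha : 0 < a) (hL : 0 < L) :
    ∃ σ > 0, σ ≤ τ ∧ ∀ (T Q0 : ℝ) (R : Red m T), R.Good r1 Q0 → (∀ x : (D1 T).S, x.1.1 ≤ τ →
      |ev x R.r - r1| ≤ r1 / 4 → a ≤ ev x R.p) → (∀ x : (D1 T).S, x.1.1 ≤ τ →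
      |ev x R.r - r1| ≤ r1 / 8 → |ev x (xi R)| ≤ L) → ∀ x : (D1 T).S, x.1.1 ≤ σ →
      ev x R.r = r1 → ev x (Hh R) < 0 := by
  have h0 := hr1.1
  set Λ : ℝ := 8 / r1 ^ 3 + 8 / r1 ^ 3 * a⁻¹ + L with hΛ
  obtain ⟨C1, hC1, hC'⟩ := bd8 (fun t X B _ _ _ _ _ => Hf t X B) (by unfold Hf; fun_prop) Λ
  set K : ℝ := (C1 + 1 / 30) / (r1 / 8) ^ 2 with hK
  obtain ⟨C, hC0, hC⟩ := bd8 (fun t X B Bi s n ri p => 2 * (n * ri ^ 2) *
    Phi m t X B Bi ((s + r1) * (2 * K * s) / 2) + 2 * K * (s * (m * n * ri) + p))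
    (by unfold Phi Mf N0 N1; fun_prop) Λ
  obtain ⟨σ, hσ0, hσ, hσ1, hσ2⟩ := small_time m hC0 (ε := 1 / 60) (by positivity) hτ0
  refine ⟨σ, hσ0, hσ, fun T Q0 R hG hp hz x hx h => ?_⟩
  have l1 : 8 / r1 ^ 3 ≤ Λ := by
    have : 0 < 8 / r1 ^ 3 * a⁻¹ := by positivity
    linarith
  have bds : ∀ x : (D1 T).S, x.1.1 ≤ σ → |ev x R.r - r1| ≤ r1 / 8 → |ev x (TT R)| ≤ Λ ∧
      |ev x (XX R)| ≤ Λ ∧ |ev x (BB R)| ≤ Λ ∧ |(ev x (BB R))⁻¹| ≤ Λ := fun x hx h => by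
    obtain ⟨-, b0, -, -, -, -, -, -, -, b1⟩ := win R hG hm hr1 x (h.trans (by linarith))
    have hq := q_pos R x
    have hW := W_pos R x
    have hp0 := p_pos R x
    have hr := r_pos R x
    have l2 : 0 < 8 / r1 ^ 3 * a⁻¹ := by positivity
    refine ⟨(TT_abs R x).trans (by linarith), ?_, ?_, ?_⟩
    · rw [v_XX, abs_mul, abs_of_pos hr]
      have := mul_le_of_le_one_left (abs_nonneg (ev x (xi R))) (r_lt R hG (by omega) x).le
      have := hz x (hx.trans hσ) h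
      linarith
    · rw [v_BB, div_eq_mul_inv, abs_mul, abs_of_pos (inv_pos.2 hp0)]
      have := mul_le_mul b1 (inv_anti₀ ha (hp x (hx.trans hσ) (h.trans (by linarith))))
        (inv_pos.2 hp0).le (by positivity)
      linarith
    · rw [abs_of_pos (inv_pos.2 (BB_pos R x)), v_BB, inv_div]
      refine le_trans ?_ (b0.trans l1)
      rw [div_le_iff₀ (by positivity)]
      exact (G1 R hG hm x).le
  have hΛ0 : |(0 : ℝ)| ≤ Λ := by rw [abs_zero]; positivity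
  have := short R hG hr1 (ρ := r1 / 8) (by positivity) (by linarith) hσ1 (Hh R) (u0 := -1 / 30)
    (K := K) (C := C) (δ := 1 / 60) (by positivity) (by positivity) hC0.le
    (fun x h0 h => init_lens R hG hr1.1 x h0 (h.trans (by linarith)))
    (fun x hx h => by
      obtain ⟨b1, b2, b3, -⟩ := bds x hx h
      have e : K * (r1 / 8) ^ 2 = C1 + 1 / 30 := by rw [hK]; field_simp
      have := hC' _ _ _ 0 0 0 0 0 b1 b2 b3 hΛ0 hΛ0 hΛ0 hΛ0 hΛ0
      rw [v_Hh, e]; linarith)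
    (fun x hx h hd => by
      obtain ⟨b1, b2, b3, b4⟩ := bds x hx h
      obtain ⟨-, -, -, -, b5, b6, b7, -, -, b8⟩ := win R hG hm hr1 x (h.trans (by linarith))
      have h1 := hC _ _ _ _ _ _ _ _ b1 b2 b3 b4 (b6.trans l1) (b8.trans l1) (b7.trans l1)
        (b5.trans l1)
      have h2 := v_box_H R x
      rw [hd, div_eq_mul_inv _ (ev x R.r ^ 2), ← inv_pow] at h2
      rw [sub_add_cancel] at h1
      linarith) x hx (by rw [h, sub_self, abs_zero]; positivity)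
  have h1 : C * x.1.1 ≤ C * σ := by gcongr
  rw [h, sub_self] at this
  linarith

lemma far {T Q0 : ℝ} (R : Red m T) (hG : R.Good r1 Q0) (x : (D1 T).S) (h0 : x.1.1 = 0)
    (hQ0 : 0 ≤ Q0) (h1 : Q0 ≤ ev x R.r) (h2 : ev x R.r ≤ 2 * r1) :
    77 / 50 * ev x R.r ≤ ev x R.W := by
  have h3 := hG.cone x h0 h2
  have hq := q_pos R x
  have hr := r_pos R x
  have h4 := pow_le_pow_left₀ hQ0 h1 2
  have h5 : 77 / 50 * ev x R.q ≤ ev x R.r :=
    abs_le_of_sq_le_sq' (by nlinarith) hr.le |>.2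
  rw [ev_W, le_div_iff₀ hq]
  nlinarith

/-- W stays above (3/2) r at r = r1 for a short time. -/
theorem O3W (hm : 2 ≤ m) (hr1 : r1 ∈ Ioo (0 : ℝ) (1 / 10)) {τ a : ℝ} (hτ0 : 0 < τ) (ha : 0 < a) :
    ∃ σ > 0, σ ≤ τ ∧ ∀ (T Q0 : ℝ) (R : Red m T), R.Good r1 Q0 → 0 ≤ Q0 → Q0 ≤ r1 / 2 →
      (∀ x : (D1 T).S, x.1.1 ≤ τ → |ev x R.r - r1| ≤ r1 / 4 → a ≤ ev x R.p) →
      ∀ x : (D1 T).S, x.1.1 ≤ σ → ev x R.r = r1 → 3 / 2 * ev x R.r < ev x R.W := by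
  have h0 := hr1.1
  set K : ℝ := (2 + r1 / 40) / (r1 / 4) ^ 2 with hK
  obtain ⟨C, hC0, hC⟩ := bd8 (fun q W p s ri qi Wi pi => p * (3 / 2 - 2 * K * s) ^ 2 * Wi +
    W ^ 2 * (pi * qi) + 2 * m + 2 * K * (s * (m * (q + W) * ri) + p)) (by fun_prop)
    (8 / r1 ^ 3 + a⁻¹)
  obtain ⟨σ, hσ0, hσ, hσ1, hσ2⟩ := small_time m hC0 (ε := r1 / 80) (by positivity) hτ0
  refine ⟨σ, hσ0, hσ, fun T Q0 R hG hQ0 hQ hp x hx h => ?_⟩
  have e : ∀ x : (D1 T).S, ev x ((3 / 2 : ℝ) • R.r - R.W) = 3 / 2 * ev x R.r - ev x R.W :=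
    fun x => by simp
  have := short R hG hr1 (ρ := r1 / 4) (by positivity) (by linarith) hσ1
    ((3 / 2 : ℝ) • R.r - R.W) (u0 := -(r1 / 40))
    (K := K) (C := C) (δ := r1 / 80) (by positivity) (by positivity) hC0.le
    (fun x h0 h => by
      have h1 := abs_le.1 h
      have := far R hG x h0 hQ0 (by linarith [h1.1]) (by linarith [h1.2])
      rw [e]; linarith [h1.1])
    (fun x hx h => by
      have e1 : K * (r1 / 4) ^ 2 = 2 + r1 / 40 := by rw [hK]; field_simp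
      have := W_pos R x
      have := r_lt R hG (by omega) x
      rw [e, e1]; linarith)
    (fun x hx h hd => by
      obtain ⟨-, b0, b1, b2, b3, b4, b5, b6, b7, -⟩ := win R hG hm hr1 x (h.trans (by linarith))
      have hq := q_pos R x
      have hW := W_pos R x
      have hp0 := p_pos R x
      have hr := r_pos R x
      have ia : 0 < a⁻¹ := inv_pos.2 ha
      have b8 : |(ev x R.p)⁻¹| ≤ a⁻¹ := by
        rw [abs_of_pos (inv_pos.2 hp0)]; exact inv_anti₀ ha (hp x (hx.trans hσ) h)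
      have h1 := hC _ _ _ _ _ _ _ _ (b1.trans (by linarith)) (b2.trans (by linarith))
        (b3.trans (by linarith)) (b4.trans (by linarith)) (b5.trans (by linarith))
        (b6.trans (by linarith)) (b7.trans (by linarith)) (b8.trans (by linarith))
      simp only [map_sub, map_smul, Derivation.map_smul, d_r, map_one, smul_eq_mul, v_box_r,
        v_box_W] at hd ⊢
      have h2 : ev x (R.d R.W) = 3 / 2 - 2 * K * (ev x R.r - r1) := by linarith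
      have h3 : 0 ≤ m * (ev x R.q + ev x R.W) / ev x R.r := by positivity
      have h4 : 0 ≤ ev x R.p * ev x R.W / ev x R.r ^ 2 := by positivity
      have h5 : 0 ≤ ev x R.q / ev x R.p := by positivity
      rw [h2, div_eq_mul_inv _ (ev x R.W), div_eq_mul_inv _ (ev x R.p * ev x R.q), _root_.mul_inv]
      linarith) x hx (by rw [h, sub_self, abs_zero]; positivity)
  have h1 : C * x.1.1 ≤ C * σ := by gcongr
  rw [e, h, sub_self] at this
  rw [h]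
  linarith

/-- The lens is preserved on r ≤ r1. -/
theorem lens {T Q0 σ : ℝ} (R : Red m T) (hG : R.Good r1 Q0) (hr1 : r1 ∈ Ioo (0 : ℝ) (1 / 10))
    (hm : 2 ≤ m)
    (hσ : (4 + 2 * (m : ℝ)) * σ ≤ 1 / 4)
    (hb : ∀ x : (D1 T).S, x.1.1 ≤ σ → ev x R.r = r1 → ev x (Hh R) < 0) :
    ∀ x : (D1 T).S, x.1.1 ≤ σ → ev x R.r ≤ r1 → ev x (Hh R) < 0 := by
  have ea : ∀ x : (D1 T).S, ev x (r1 • 1 - R.r) = r1 - ev x R.r := fun x => by simp
  have c1 := cE R (Icc (1 / 2) 1)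
  have c2 := cE R (Icc 0 (1 / 2))
  have c3 := cQ R (Icc 0 (1 / 2))
  have c4 := cA R (Icc 0 (1 / 2))
  have c5 := cB R (Icc 0 (1 / 2))
  have c6 := cK R (Icc 0 (1 / 2))
  have c7 : ContinuousOn (Qy R) (Ico 0 T ×ˢ Icc 0 (1 / 2)) :=
    (cQy R).mono (prod_mono subset_rfl (subset_univ _))
  intro x hx h
  refine mp R (r1 • 1 - R.r) (Hh R) σ
    (fun x => Hf ((R.Q x - x.2 ^ 2 * R.B x) / (R.Q x + x.2 ^ 2 * R.B x))
      (x.2 * R.E x * Qy R x / ((1 - x.2 ^ 2) * R.K x * R.Q x) - 1)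
      ((R.Q x + x.2 ^ 2 * R.B x) / ((1 - x.2 ^ 2) ^ 2 * R.A x)))
    (fun x => r1 - x.2 * R.E x) ?_ (by fun_prop) (fun t ht _ => ?_) (fun t ht h => ?_)
    (fun x _ _ h => ?_) (fun x _ h _ => by rwa [ea, R.eE] at h) (fun x h0 h => ?_)
    (fun x h0 h => hb x h0 (by rw [ea] at h; linarith)) (fun x _ _ h0 h1 => ?_) x hx
    (by rw [ea]; linarith)
  · have pos : ∀ x ∈ Ico 0 T ×ˢ Icc (0 : ℝ) (1 / 2), 0 < R.Q x ∧ 0 < R.A x ∧ 0 < R.B x ∧
        0 < R.K x ∧ 0 < 1 - x.2 ^ 2 := fun x hx => by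
      obtain ⟨h1, h2, h3, -, h4⟩ := R.pos x.1 hx.1 x.2 ⟨hx.2.1, hx.2.2.trans (by norm_num)⟩
      exact ⟨h1, h2, h3, h4, by nlinarith [hx.2.1, hx.2.2]⟩
    have d1 : ContinuousOn (fun x => (R.Q x - x.2 ^ 2 * R.B x) / (R.Q x + x.2 ^ 2 * R.B x))
        (Ico 0 T ×ˢ Icc 0 (1 / 2)) := ContinuousOn.div (by fun_prop) (by fun_prop) fun x hx => by
      obtain ⟨h1, h2, h3, h4, h5⟩ := pos x hx
      positivity
    have d2 : ContinuousOn (fun x => x.2 * R.E x * Qy R x / ((1 - x.2 ^ 2) * R.K x * R.Q x))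
        (Ico 0 T ×ˢ Icc 0 (1 / 2)) := ContinuousOn.div (by fun_prop) (by fun_prop) fun x hx => by
      obtain ⟨h1, h2, h3, h4, h5⟩ := pos x hx
      positivity
    have d3 : ContinuousOn (fun x => (R.Q x + x.2 ^ 2 * R.B x) / ((1 - x.2 ^ 2) ^ 2 * R.A x))
        (Ico 0 T ×ˢ Icc 0 (1 / 2)) := ContinuousOn.div (by fun_prop) (by fun_prop) fun x hx => by
      obtain ⟨h1, h2, h3, h4, h5⟩ := pos x hx
      positivity
    unfold Hf
    exact ((((d2.sub continuousOn_const).add (continuousOn_const.mul d1)).pow 2).add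
      (continuousOn_const.mul ((d3.sub continuousOn_const).pow 2))).sub continuousOn_const
  · have := (R.pos t ht 0 ⟨le_rfl, zero_le_one⟩).1
    simp [Hf, R.b0 t ht, this.ne']
    norm_num
  · have h1 : (4 + 2 * (m : ℝ)) * t ≤ (4 + 2 * m) * σ := by gcongr
    simp only [E_top R hG.top ht]
    linarith [hr1.2]
  · have e : ev x (XX R) = x.1.2 * R.E x * Qy R x / ((1 - x.1.2 ^ 2) * R.K x * R.Q x) - 1 := by
      obtain ⟨h1, -, -, h2, h3⟩ := hx_pos R x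
      have h4 := ysq_pos x
      have h5 := y_pos x
      simp only [XX, xi, d_apply, map_mul, map_sub, ev_qi, ev_ri, ev_ryi, e_Qy, R.eK, R.eQ, R.eE]
      field_simp
    rwa [v_Hh, e, v_TT, v_BB, R.eQ, R.eB, R.eA] at h
  · rw [← HH_eq]
    rw [ea] at h
    linarith [hG.lens x h0 (by linarith [hr1.1])]
  · have h2 := v_box_H R x
    have hq := q_pos R x
    have hW := W_pos R x
    have hr := r_pos R x
    rw [h1, mul_zero, zero_div] at h2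
    rw [v_Hh] at h0
    exact h2.trans_lt (mul_neg_of_pos_of_neg (by positivity)
      (lens_alg (by exact_mod_cast hm) (TT_abs R x) h0 (one_le_BB R hG hm x)))

lemma F_poly {τ B ψ u m : ℝ} (h0 : 0 < τ) (h1 : τ ≤ 9 / 4) (hB : 1 ≤ B) (hB' : B ≤ 48 / 25)
    (hψ : 0 ≤ ψ) (hψ' : ψ ≤ 1 / 200) (hu : u ≤ 1) (hm : 2 ≤ m) :
    (1 + τ) * (1 - 2 * (4 / 9 * τ - ψ) ^ 2 + 4 / 9 * τ + ψ) - B ^ 2 * (1 - τ) -
      m * B * (2 * τ - (4 / 9 * τ - ψ) * (1 + τ)) + 1 / 100 * u * B * τ < 0 := by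
  have a1 : 0 ≤ (m - 2) * B * (2 * τ - (4 / 9 * τ - ψ) * (1 + τ)) :=
    mul_nonneg (mul_nonneg (by linarith) (by linarith)) (by nlinarith [mul_nonneg hψ h0.le])
  have a2 : 0 ≤ (1 - u) * B * τ := mul_nonneg (mul_nonneg (by linarith) (by linarith)) h0.le
  have a3 : 0 ≤ (1 + τ) * ψ * (2 * B - 1 + 2 * ψ) :=
    mul_nonneg (mul_nonneg (by linarith) hψ) (by linarith)
  have a4 : 0 ≤ τ * ((1 / 200 - ψ) * (1 + τ)) :=
    mul_nonneg h0.le (mul_nonneg (by linarith) (by linarith))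
  have a5 : (1 + τ) * (1 + 4 / 9 * τ - 2 * (4 / 9 * τ) ^ 2) - B ^ 2 * (1 - τ) -
      2 * B * τ * (2 - 4 / 9 - 4 / 9 * τ) + 1 / 100 * B * τ + 16 / 9 * τ * (1 + τ) / 200 < 0 := by
    have b1 : 0 ≤ (B - 1) * (48 / 25 - B) := mul_nonneg (by linarith) (by linarith)
    have c1 : 32 / 81 * τ ^ 2 - (76 / 81 + 2 / 225) * τ + (2 / 3 - 1 / 100 - 2 / 225) > 0 := by
      nlinarith [sq_nonneg (τ - 6 / 5)]
    rcases le_total τ 1 with h | h
    · have b2 : 0 ≤ (B ^ 2 - 1) * (1 - τ) := mul_nonneg (by nlinarith) (by linarith)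
      have b3 : 0 ≤ (B - 1) * τ * (2 * (2 - 4 / 9 - 4 / 9 * τ) - 1 / 100) :=
        mul_nonneg (mul_nonneg (by linarith) h0.le) (by linarith)
      nlinarith [mul_pos h0 c1]
    · have b2 := mul_nonneg b1 (sub_nonneg.2 h)
      have c2 : (1 + τ) * (1 + 4 / 9 * τ - 2 * (4 / 9 * τ) ^ 2) - (48 / 25) ^ 2 * (1 - τ) -
          2 * (48 / 25) * τ * (2 - 4 / 9 - 4 / 9 * τ) + 1 / 100 * (48 / 25) * τ +
          16 / 9 * τ * (1 + τ) / 200 < 0 := by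
        nlinarith [mul_nonneg (sub_nonneg.2 h) (sub_nonneg.2 h1),
          mul_nonneg (sq_nonneg (τ - 9 / 4)) (sub_nonneg.2 h),
          mul_nonneg (sq_nonneg (τ - 1)) (sub_nonneg.2 h1), sq_nonneg (τ - 2)]
      have b3 := mul_nonneg (sub_nonneg.2 hB) (neg_nonneg.2 c2.le)
      have b4 := mul_nonneg (sub_nonneg.2 hB') (mul_pos h0 c1).le
      rcases hB.eq_or_lt with rfl | hB1
      · nlinarith [mul_pos h0 c1]
      · have b5 := mul_pos (sub_pos.2 hB1) (neg_pos.2 c2)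
        nlinarith
  nlinarith

lemma F_real {q W p r q1 m Q δ : ℝ} (hq : 0 < q) (hW : 0 < W) (hp : 0 < p) (hr : 0 < r)
    (hs : r ^ 2 = q * W) (g0 : p ≤ q + W) (g1 : (q + W) / p ≤ 48 / 25) (hm : 2 ≤ m)
    (hQ : Q ≤ q) (hc : 4 / 9 * r ^ 2 ≤ q ^ 2) (hδ : 0 ≤ δ) (hδ' : δ ≤ q ^ 2 / 100)
    (h1 : 2 * q * q1 - 4 / 9 * (2 * r) + δ * r⁻¹ = 0) :
    2 * q * (-(p * q1 ^ 2 / q) + p * q / r ^ 2 - q ^ 2 / (p * W) + W / p - 2 * m) -
      2 * p * q1 ^ 2 - 4 / 9 * (2 * r * -(m * (q + W) / r) - 2 * p) + 2 * Q / 100 +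
      δ * (p / r ^ 2 - m * (q + W) / r ^ 2) < 0 := by
  have h := F_poly (τ := W / q) (B := (q + W) / p) (ψ := δ / (2 * q ^ 2)) (u := Q / q) (m := m)
    (by positivity) (by rw [div_le_iff₀ hq]; nlinarith) (by rwa [one_le_div hp]) g1
    (by positivity) (by rw [div_le_iff₀ (by positivity)]; linarith) (by rwa [div_le_one hq]) hm
  have e1 : q1 ^ 2 = (4 / 9 * (q * W) - δ / 2) ^ 2 / (q * W * q ^ 2) := by
    have : q1 = (4 / 9 * r ^ 2 - δ / 2) / (r * q) := by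
      field_simp
      field_simp at h1
      linarith
    rw [this, div_pow, mul_pow, hs]
  have e2 : 2 * r * -(m * (q + W) / r) = -(2 * m * (q + W)) := by field_simp
  rw [e1, e2, hs]
  refine Eq.trans_lt ?_ (mul_neg_of_pos_of_neg (a := 2 * q ^ 2 * p / ((q + W) * W))
    (by positivity) h)
  field_simp
  ring

/-- The logarithm of r. -/
noncomputable def lg {T : ℝ} (R : Red m T) : Sm (D1 T) :=
  Sm.mk (fun x => Real.log (R.r.fn x)) (R.r.smooth.log fun x hx => by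
    rw [fn_apply _ hx]; exact (r_pos R _).ne')

lemma ev_lg {T : ℝ} (R : Red m T) (x : (D1 T).S) : ev x (lg R) = Real.log (ev x R.r) := by
  rw [lg, ev_mk, ev_eq]

lemma der_lg {T : ℝ} (R : Red m T) (v : ℝ × ℝ) : der v (lg R) = R.ri * der v R.r := by
  ext x
  have h := (R.r.hasF x.2).log (by rw [← ev_eq]; exact (r_pos R x).ne')
  rw [ev_der_of v (lg R) x h (fun y => by rw [ev_lg, ev_eq]), map_mul, ev_ri, ev_der, ev_eq]
  simp

lemma d_lg {T : ℝ} (R : Red m T) : R.d (lg R) = R.ri := by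
  rw [d_apply, der_lg, mul_left_comm, ← d_apply, d_r, mul_one]

lemma v_box_lg {T : ℝ} (R : Red m T) (x : (D1 T).S) : ev x (box R (lg R)) =
    ev x R.p / ev x R.r ^ 2 - m * (ev x R.q + ev x R.W) / ev x R.r ^ 2 := by
  have hr := r_pos R x
  simp only [box_apply, Dt_apply, d_lg, d_ri, der_lg, map_sub, map_mul, map_neg, map_pow, ev_ri,
    ev_NN]
  field_simp
  ring

/-- The collapsing barrier. -/
theorem fall {T Q0 σ δ : ℝ} (R : Red m T) (hG : R.Good r1 Q0) (hr1 : r1 ∈ Ioo (0 : ℝ) (1 / 10))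
    (hm : 2 ≤ m) (hσ : (4 + 2 * (m : ℝ)) * σ ≤ 1 / 4) (hQ : σ < Q0) (hδ : 0 < δ)
    (hδ' : δ ≤ ((Q0 - σ) / 100) ^ 2 / 100)
    (hl : ∀ x : (D1 T).S, x.1.1 ≤ σ → ev x R.r ≤ r1 → ev x (Hh R) < 0)
    (hb : ∀ x : (D1 T).S, x.1.1 ≤ σ → ev x R.r = r1 → 3 / 2 * ev x R.r < ev x R.W) :
    ∀ x : (D1 T).S, x.1.1 ≤ σ → ev x R.r ≤ r1 → ev x R.q ^ 2 - 4 / 9 * ev x R.r ^ 2 -
      ((Q0 - x.1.1) / 100) ^ 2 + δ * Real.log (ev x R.r) < 0 := by
  have ea : ∀ x : (D1 T).S, ev x (r1 • 1 - R.r) = r1 - ev x R.r := fun x => by simp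
  have e : ∀ x : (D1 T).S, ev x (R.q ^ 2 - (4 / 9 : ℝ) • R.r ^ 2 -
      ((1 / 100 : ℝ) • (Q0 • 1 - tt T)) ^ 2 + δ • lg R) = ev x R.q ^ 2 - 4 / 9 * ev x R.r ^ 2 -
      ((Q0 - x.1.1) / 100) ^ 2 + δ * Real.log (ev x R.r) := fun x => by
    simp [ev_lg, div_eq_inv_mul]
  have hlg : ∀ x : (D1 T).S, δ * Real.log (ev x R.r) ≤ 0 := fun x =>
    mul_nonpos_of_nonneg_of_nonpos hδ.le
      (Real.log_nonpos (r_pos R x).le (r_lt R hG (by omega) x).le)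
  have c1 := cE R (Icc (1 / 2) 1)
  have c2 := cE R (Icc 0 (1 / 2))
  have c3 := cQ R (Icc 0 (1 / 2))
  intro x hx h
  have hQ0 : 0 < Q0 := (x.2.1.1.trans hx).trans_lt hQ
  rw [← e]
  exact mp R (r1 • 1 - R.r) _ σ
    (fun x => x.2 * R.E x - Real.exp (-(R.Q x ^ 2 / δ))) (fun x => r1 - x.2 * R.E x)
    (by fun_prop) (by fun_prop)
    (fun t ht h => by simpa using Real.exp_pos _)
    (fun t ht h => by
      have h1 : (4 + 2 * (m : ℝ)) * t ≤ (4 + 2 * m) * σ := by gcongr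
      simp only [E_top R hG.top ht]
      linarith [hr1.2])
    (fun x _ _ h => by
      rw [e] at h
      rw [← R.eE, ← R.eQ, sub_nonneg, ← Real.le_log_iff_exp_le (r_pos R x), neg_le,
        le_div_iff₀ hδ]
      nlinarith [sq_nonneg (ev x R.r), sq_nonneg ((Q0 - x.1.1) / 100)])
    (fun x _ h _ => by rwa [ea, R.eE] at h)
    (fun x h0 h => by
      rw [ea] at h
      have h1 := hG.cone x h0 (by linarith [hr1.1])
      have h2 := hlg x
      rw [e, h0]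
      nlinarith [sq_nonneg (ev x R.r), mul_pos hQ0 hQ0])
    (fun x h0 h => by
      rw [ea] at h
      have h1 := hb x h0 (by linarith)
      have h2 := hlg x
      have hq := q_pos R x
      have hr := r_pos R x
      rw [ev_W, lt_div_iff₀ hq] at h1
      have h3 : 3 / 2 * ev x R.q < ev x R.r := by nlinarith
      rw [e]
      nlinarith [sq_nonneg ((Q0 - x.1.1) / 100)])
    (fun x hx h h0 h1 => by
      rw [ea] at h
      have h2 := hl x hx (by linarith)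
      rw [v_Hh] at h2
      obtain ⟨-, h3, -⟩ := Hf_bounds (TT_abs R x) h2.le
      rw [v_BB] at h3
      rw [e] at h0
      have h4 := hlg x
      have hq := q_pos R x
      have h5 : ((Q0 - σ) / 100) ^ 2 ≤ ((Q0 - x.1.1) / 100) ^ 2 :=
        pow_le_pow_left₀ (by linarith) (by linarith) 2
      have h6 : ((Q0 - x.1.1) / 100) ^ 2 ≤ ev x R.q ^ 2 := by nlinarith [sq_nonneg (ev x R.r)]
      simp only [map_sub, map_add, map_smul, Derivation.map_smul, d_pow2, box_pow2, d_r, d_one,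
        d_tt, d_lg, box_one, box_tt, map_one, map_zero, map_mul (ev x), map_ofNat, map_pow (ev x),
        smul_eq_mul, smul_zero, v_box_r, v_box_q, v_box_lg, ev_ri, ev_tt] at h1 ⊢
      have := F_real (q_pos R x) (W_pos R x) (p_pos R x) (r_pos R x) (ev_sq R x) (G0 R hG hm x)
        (m := m) (Q := (Q0 - x.1.1) / 100) (δ := δ) (q1 := ev x (R.d R.q))
        (by linarith [(abs_le.1 h3).2]) (by exact_mod_cast hm)
        (abs_le_of_sq_le_sq' h6 hq.le).2 (by nlinarith [sq_nonneg ((Q0 - x.1.1) / 100)]) hδ.le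
        (by linarith) (by linarith)
      linarith) x hx (by rw [ea]; linarith)

end Barrier

open Barrier in
/-- Good initial data cannot be continued beyond Q0. -/
theorem collapse {m : ℕ} (hm : 2 ≤ m) {r1 : ℝ} (hr1 : r1 ∈ Ioo (0 : ℝ) (1 / 10)) :
    ∃ τ0 > (0 : ℝ), ∀ Q0 ∈ Ioo 0 τ0, ∀ T > Q0, ∀ R : Red m T, ¬ R.Good r1 Q0 := by
  obtain ⟨τ, hτ0, hτ, a, ha, h1⟩ := O1 hm hr1
  obtain ⟨L, hL, h2⟩ := O2 hm hr1 hτ ha
  obtain ⟨σ1, hσ1, hσ1', h3⟩ := O3H hm hr1 hτ0 ha hL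
  obtain ⟨σ2, hσ2, hσ2', h4⟩ := O3W hm hr1 hτ0 ha
  refine ⟨min (min σ1 σ2) (r1 / 2), lt_min (lt_min hσ1 hσ2) (half_pos hr1.1),
    fun Q0 hQ T hT R hG => ?_⟩
  obtain ⟨hQ0, hQ1⟩ := hQ
  rw [lt_min_iff, lt_min_iff] at hQ1
  obtain ⟨⟨q1, q2⟩, q3⟩ := hQ1
  have p1 := h1 T Q0 R hG
  have p3 := h3 T Q0 R hG p1 (h2 T Q0 R hG p1)
  have p4 := h4 T Q0 R hG hQ0.le q3.le p1
  have key : ∀ x : (D1 T).S, x.1.1 < Q0 → ev x R.r ≤ r1 →
      ev x R.q ^ 2 - 4 / 9 * ev x R.r ^ 2 - ((Q0 - x.1.1) / 100) ^ 2 ≤ 0 := fun x hx hr => by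
    have hs : (4 + 2 * (m : ℝ)) * x.1.1 ≤ 1 / 4 := le_trans (by gcongr; linarith) hτ
    have h0 : 0 < ((Q0 - x.1.1) / 100) ^ 2 / 100 := by
      have := sub_pos.2 hx
      positivity
    have hc : Tendsto (fun δ : ℝ => ev x R.q ^ 2 - 4 / 9 * ev x R.r ^ 2 -
        ((Q0 - x.1.1) / 100) ^ 2 + δ * Real.log (ev x R.r)) (𝓝[>] 0) (𝓝 (ev x R.q ^ 2 -
        4 / 9 * ev x R.r ^ 2 - ((Q0 - x.1.1) / 100) ^ 2 + 0 * Real.log (ev x R.r))) :=
      (Continuous.tendsto (by fun_prop) 0).mono_left nhdsWithin_le_nhds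
    rw [zero_mul, add_zero] at hc
    refine le_of_tendsto hc ?_
    filter_upwards [Ioo_mem_nhdsGT h0] with δ hδ
    exact (fall R hG hr1 hm hs hx hδ.1 hδ.2.le
      (lens R hG hr1 hm hs fun u hu => p3 u (by linarith))
      (fun u hu => p4 u (by linarith)) x le_rfl hr).le
  have hQT : Q0 ∈ Ico 0 T := ⟨hQ0.le, hT⟩
  have cE' := slice R.sE.continuousOn hQT
  have cQ' := slice R.sQ.continuousOn hQT
  have e1 : ∀ᶠ y in 𝓝 (0 : ℝ), 0 < R.Q (Q0, y) ^ 2 - 4 / 9 * (y * R.E (Q0, y)) ^ 2 :=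
    Continuous.tendsto (f := fun y => R.Q (Q0, y) ^ 2 - 4 / 9 * (y * R.E (Q0, y)) ^ 2)
      (by fun_prop) 0 |>.eventually (lt_mem_nhds (by
        simpa using pow_pos (R.pos Q0 hQT 0 ⟨le_rfl, zero_le_one⟩).1 2))
  have e2 : ∀ᶠ y in 𝓝 (0 : ℝ), y * R.E (Q0, y) < r1 :=
    Continuous.tendsto (f := fun y => y * R.E (Q0, y)) (by fun_prop) 0
      |>.eventually (gt_mem_nhds (by simpa using hr1.1))
  obtain ⟨y, ⟨hy1, hy2⟩, hy⟩ := (((e1.and e2).filter_mono nhdsWithin_le_nhds).and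
    (Ioo_mem_nhdsGT (zero_lt_one' ℝ))).exists
  set x : (D1 T).S := ⟨(Q0, y), hQT, hy⟩ with hx
  have f1 : ∀ᶠ s in 𝓝 Q0, R.r.fn (s, y) < r1 :=
    (R.r.hasDerivAt_time x hQ0).continuousAt.eventually (gt_mem_nhds (by
      change R.r.fn x < r1
      rwa [← ev_eq, R.eE]))
  have f2 : ∀ᶠ s in 𝓝 Q0, 0 < R.q.fn (s, y) ^ 2 - 4 / 9 * R.r.fn (s, y) ^ 2 -
      ((Q0 - s) / 100) ^ 2 :=
    ((((R.q.hasDerivAt_time x hQ0).continuousAt.pow 2).sub (continuousAt_const.mul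
      ((R.r.hasDerivAt_time x hQ0).continuousAt.pow 2))).sub
      (((continuousAt_const.sub continuousAt_id).div_const 100).pow 2)).eventually (lt_mem_nhds (by
      change 0 < R.q.fn x ^ 2 - 4 / 9 * R.r.fn x ^ 2 - ((Q0 - Q0) / 100) ^ 2
      rw [← ev_eq, ← ev_eq, R.eE, R.eQ]
      simp only [hx]
      linarith))
  obtain ⟨s, ⟨hs1, hs2⟩, hs⟩ := (((f1.and f2).filter_mono nhdsWithin_le_nhds).and
    (Ioo_mem_nhdsLT hQ0)).exists
  have hm : (s, y) ∈ (D1 T).S := ⟨⟨hs.1.le, hs.2.trans hT⟩, hy⟩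
  rw [fn_apply _ hm] at hs1
  rw [fn_apply _ hm, fn_apply _ hm] at hs2
  have := key ⟨_, hm⟩ hs.2 hs1.le
  linarith

end Pool.Agent.P.MP_8fdf05_gt
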