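import Pool.Agent.P.MP_8fdf05_gt.BarrierId
import Pool.Agent.P.MP_8fdf05_gt.CertTab

/-! Inequalities between real numbers used by the barriers. -/

open Set

namespace Pool.Agent.P.MP_8fdf05_gt

namespace Barrier

/-- A continuous function of eight bounded numbers is bounded. -/
lemma bd8 (F : ℝ → ℝ → ℝ → ℝ → ℝ → ℝ → ℝ → ℝ → ℝ)
    (hF : Continuous fun v : ℝ × ℝ × ℝ × ℝ × ℝ × ℝ × ℝ × ℝ =>
      F v.1 v.2.1 v.2.2.1 v.2.2.2.1 v.2.2.2.2.1 v.2.2.2.2.2.1 v.2.2.2.2.2.2.1 v.2.2.2.2.2.2.2)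
    (L : ℝ) : ∃ C > 0, ∀ a b c d e f g h : ℝ, |a| ≤ L → |b| ≤ L → |c| ≤ L → |d| ≤ L → |e| ≤ L →
      |f| ≤ L → |g| ≤ L → |h| ≤ L → F a b c d e f g h < C := by
  obtain ⟨C, hC⟩ := (isCompact_closedBall 0 L).bddAbove_image hF.continuousOn
  refine ⟨|C| + 1, by positivity, fun a b c d e f g h ha hb hc hd he hf hg hh => ?_⟩
  have := hC (mem_image_of_mem _ (x := (a, b, c, d, e, f, g, h)) (by
    simp only [mem_closedBall_zero_iff, Prod.norm_mk, Real.norm_eq_abs, max_le_iff]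
    exact ⟨ha, hb, hc, hd, he, hf, hg, hh⟩))
  have h2 := le_abs_self C
  dsimp only at this
  linarith

lemma Hf_bounds {T X B : ℝ} (hT : |T| ≤ 1) (h : Hf T X B ≤ 0) :
    |X + 9 / 25 * T| ≤ 4 / 5 ∧ |B - 33 / 25| ≤ 3 / 5 ∧ |X| ≤ 29 / 25 := by
  rw [Hf] at h
  have h1 : |X + 9 / 25 * T| ≤ 4 / 5 := abs_le_of_sq_le_sq'
    (by nlinarith [sq_nonneg (B - 33 / 25)]) (by norm_num) |> abs_le.2
  have h2 : |B - 33 / 25| ≤ 3 / 5 := abs_le_of_sq_le_sq'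
    (by nlinarith [sq_nonneg (X + 9 / 25 * T)]) (by norm_num) |> abs_le.2
  refine ⟨h1, h2, ?_⟩
  rw [abs_le] at *
  constructor <;> linarith [h1.1, h1.2, hT.1, hT.2]

/-- The point of the ellipse with parameter z. -/
noncomputable def pX (T z : ℝ) : ℝ := 4 / 5 * (1 - z ^ 2) / (1 + z ^ 2) - 9 / 25 * T
/-- The point of the ellipse with parameter z. -/
noncomputable def pB (z : ℝ) : ℝ := 33 / 25 + 6 / 5 * z / (1 + z ^ 2)

lemma Mf_B (T w : ℝ) : 659706976665600000 * (1 + (w * T) ^ 2) ^ 3 *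
    Mf T (pX T (w * T)) (pB (w * T)) = -(T ^ 2 * Cert.ev2 (16 * T) (16 * w) Cert.tB) := by
  have : 1 + (w * T) ^ 2 ≠ 0 := by positivity
  simp only [Mf, pX, pB, Cert.tB, Cert.ev2, Cert.ev1]
  push_cast
  field_simp
  ring

lemma Mf_C (z w : ℝ) : 157286400000 * (1 + z ^ 2) ^ 3 *
    Mf (w * z) (pX (w * z) z) (pB z) = -(z ^ 2 * Cert.ev2 (8 * z) (8 * w) Cert.tC) := by
  have : 1 + z ^ 2 ≠ 0 := by positivity
  simp only [Mf, pX, pB, Cert.tC, Cert.ev2, Cert.ev1]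
  push_cast
  field_simp
  ring

lemma abs_mul_le {c x : ℝ} (hc : 0 ≤ c) (h : |x| ≤ 1) : |c * x| ≤ c := by
  rw [abs_mul, abs_of_nonneg hc]
  exact mul_le_of_le_one_right hc h

lemma Mf_le {T z : ℝ} (hT : |T| ≤ 1) (hz : |z| ≤ 1) : Mf T (pX T z) (pB z) ≤ 0 := by
  rcases le_total |z| |T| with h | h
  · obtain ⟨w, hw, rfl⟩ : ∃ w : ℝ, |w| ≤ 1 ∧ z = w * T := by
      rcases eq_or_ne T 0 with rfl | h0
      · exact ⟨0, by simp, by simpa using h⟩
      · exact ⟨z / T, by rw [abs_div]; exact div_le_one_of_le₀ h (abs_nonneg _), by field_simp⟩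
    have h1 := Cert.sound 4 Cert.tB Cert.chkB (16 * T) (16 * w)
      ((abs_mul_le (by norm_num) hT).trans (by norm_num))
      ((abs_mul_le (by norm_num) hw).trans (by norm_num))
    refine nonpos_of_mul_nonpos_right ((Mf_B T w).trans_le (neg_nonpos.2 (by positivity))) ?_
    positivity
  · obtain ⟨w, hw, rfl⟩ : ∃ w : ℝ, |w| ≤ 1 ∧ T = w * z := by
      rcases eq_or_ne z 0 with rfl | h0
      · exact ⟨0, by simp, by simpa using h⟩
      · exact ⟨T / z, by rw [abs_div]; exact div_le_one_of_le₀ h (abs_nonneg _), by field_simp⟩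
    have h1 := Cert.sound 3 Cert.tC Cert.chkC (8 * z) (8 * w)
      ((abs_mul_le (by norm_num) hz).trans (by norm_num))
      ((abs_mul_le (by norm_num) hw).trans (by norm_num))
    refine nonpos_of_mul_nonpos_right ((Mf_C z w).trans_le (neg_nonpos.2 (by positivity))) ?_
    positivity

/-- The cube of B times the bound for m = 2. -/
noncomputable def Qp (T X B D : ℝ) : ℝ :=
  2 * B ^ 3 * ((X + 9 / 25 * T * D) * (T * (X ^ 2 - D ^ 2) + 9 / 25 * (T * (1 - T ^ 2)) * D ^ 2) +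
    16 / 9 * (B - 33 / 25 * D) *
      (D ^ 2 - (1 - T ^ 2) * B * D - T ^ 2 * B ^ 2 / 2 + X ^ 2 / 2 + X * T * B)) +
  B ^ 2 * ((X + 9 / 25 * T * D) * (X * D ^ 2 - T * X ^ 2 * D - X * B ^ 2 + T * B ^ 2 * D) +
    9 / 25 * ((X + 9 / 25 * T * D) * (1 - T ^ 2) * (-(T * B ^ 2) + 2 * T * X ^ 2) * D) +
    16 / 9 * (B - 33 / 25 * D) * B * (D ^ 2 - T ^ 2 * B ^ 2 - (1 - T ^ 2) * X ^ 2) -
    9 / 25 * ((T * X - D) * (X + 9 / 25 * T * D) * (1 - T ^ 2) * X * D)) +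
  9 / 64 * ((X + 9 / 25 * T * D) * (X * D - T * B ^ 2) +
    9 / 25 * ((X + 9 / 25 * T * D) * (1 - T ^ 2) * X * D) -
    16 / 9 * (B - 33 / 25 * D) * (T * X - D) * B) ^ 2

lemma Qp_eq (T X : ℝ) {B D : ℝ} (hB : B ≠ 0) :
    (D ^ 6 * B ^ 3) * Phi 2 T X B B⁻¹ 0 = Qp T (X * D) (B * D) D := by
  simp only [Phi, Mf, N0, N1, Qp]
  field_simp
  ring

lemma Qp_A (T w : ℝ) : 990352031428304219919299379200000000000000000000000 *
    Qp T (4 / 5 * (1 - ((7 + 13 * w) / 20) ^ 2) - 9 / 25 * T * (1 + ((7 + 13 * w) / 20) ^ 2))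
      (33 / 25 * (1 + ((7 + 13 * w) / 20) ^ 2) + 6 / 5 * ((7 + 13 * w) / 20))
      (1 + ((7 + 13 * w) / 20) ^ 2) = -Cert.ev2 (32 * T) (32 * w) Cert.tA := by
  simp only [Qp, Cert.tA, Cert.ev2, Cert.ev1]
  push_cast
  ring

lemma lens_half {m T X B : ℝ} (hm : 2 ≤ m) (hT : |T| ≤ 1) (h : Hf T X B = 0) (hB : 1 ≤ B)
    (hx : 0 ≤ X + 9 / 25 * T) : Phi m T X B B⁻¹ 0 < 0 := by
  obtain ⟨-, h2, -⟩ := Hf_bounds hT h.le
  rw [Hf] at h
  obtain ⟨z, hz⟩ : ∃ z, z = 5 / 3 * (B - 33 / 25) / (1 + 5 / 4 * (X + 9 / 25 * T)) := ⟨_, rfl⟩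
  have hc : 0 < 1 + 5 / 4 * (X + 9 / 25 * T) := by positivity
  have hD : 0 < 1 + z ^ 2 := by positivity
  have e1 : z * (1 + 5 / 4 * (X + 9 / 25 * T)) = 5 / 3 * (B - 33 / 25) := by
    rw [hz, div_mul_cancel₀ _ hc.ne']
  have e0 : (1 + z ^ 2) * (1 + 5 / 4 * (X + 9 / 25 * T)) = 2 := by
    apply mul_right_cancel₀ hc.ne'
    linear_combination (z * (1 + 5 / 4 * (X + 9 / 25 * T)) + 5 / 3 * (B - 33 / 25)) * e1 +
      25 / 16 * h
  have eX : X * (1 + z ^ 2) = 4 / 5 * (1 - z ^ 2) - 9 / 25 * T * (1 + z ^ 2) := by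
    linear_combination 4 / 5 * e0
  have eB : B * (1 + z ^ 2) = 33 / 25 * (1 + z ^ 2) + 6 / 5 * z := by
    linear_combination 3 / 5 * z * e0 - 3 / 5 * (1 + z ^ 2) * e1
  have hz1 : |z| ≤ 1 := by
    rw [hz, abs_div, abs_of_pos hc, div_le_one hc, abs_mul, abs_of_pos (by norm_num)]
    linarith
  have hz2 : -(3 / 10) ≤ z := by
    by_contra hc
    have := mul_nonneg (sub_nonneg.2 hB) hD.le
    nlinarith [(abs_le.1 hz1).1]
  have hM : Mf T X B ≤ 0 := by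
    have := Mf_le hT hz1
    rwa [show pX T z = X by rw [pX]; field_simp; linarith,
      show pB z = B by rw [pB]; field_simp; linarith] at this
  obtain ⟨w, rfl⟩ : ∃ w, z = (7 + 13 * w) / 20 := ⟨(20 * z - 7) / 13, by ring⟩
  have hw : |w| ≤ 1 := abs_le.2 ⟨by linarith, by linarith [(abs_le.1 hz1).2]⟩
  have h1 := Cert.sound 5 Cert.tA Cert.chkA (32 * T) (32 * w)
    ((abs_mul_le (by norm_num) hT).trans (by norm_num))
    ((abs_mul_le (by norm_num) hw).trans (by norm_num))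
  have h3 := Qp_A T w
  rw [← eX, ← eB, ← Qp_eq T X (by linarith)] at h3
  have h4 : Phi 2 T X B B⁻¹ 0 < 0 := by
    by_contra hc
    have h5 : 0 < B := by linarith
    have := mul_nonneg (mul_pos (pow_pos hD 6) (pow_pos h5 3)).le (not_lt.1 hc)
    linarith
  have h5 := mul_nonneg (sub_nonneg.2 hm) (neg_nonneg.2 hM)
  rw [Phi] at h4 ⊢
  linarith

/-- The part of the lens with B at least one is preserved when m is at least two. -/
lemma lens_alg {m T X B : ℝ} (hm : 2 ≤ m) (hT : |T| ≤ 1) (h : Hf T X B = 0) (hB : 1 ≤ B) :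
    Phi m T X B B⁻¹ 0 < 0 := by
  rcases le_total 0 (X + 9 / 25 * T) with hx | hx
  · exact lens_half hm hT h hB hx
  · have := lens_half (T := -T) (X := -X) hm (by rwa [abs_neg]) (by rw [← h, Hf, Hf]; ring) hB
      (by linarith)
    refine Eq.trans_lt ?_ this
    simp only [Phi, Mf, N0, N1]
    ring

end Barrier

end Pool.Agent.P.MP_8fdf05_gt
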