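import Pool.Agent.P.MP_8fdf05_gt.Red

/-! The operator box and its values on the basic functions. -/

open Set
open scoped ContDiff

namespace Pool.Agent.P.MP_8fdf05_gt

open Sm

namespace Barrier

variable {m : ℕ} {T : ℝ} (R : Red m T)

lemma d_apply (f : Sm (D1 T)) : R.d f = R.ryi * der (0, 1) f := by
  simp [Red.d]

lemma d_r : R.d R.r = 1 := by
  rw [d_apply, mul_comm]; exact R.hry

/-- The drift coefficient. -/
noncomputable def NN : Sm (D1 T) := m * (R.q + R.W) * R.ri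

/-- Time derivative at fixed r. -/
noncomputable def Dt : Derivation ℝ (Sm (D1 T)) (Sm (D1 T)) :=
  der (1, 0) - (der (1, 0) R.r) • R.d

lemma Dt_apply (f : Sm (D1 T)) : Dt R f = der (1, 0) f - der (1, 0) R.r * R.d f := by
  simp [Dt]

/-- The parabolic operator. -/
noncomputable def box : Sm (D1 T) →ₗ[ℝ] Sm (D1 T) where
  toFun f := Dt R f - R.p * R.d (R.d f) - NN R * R.d f
  map_add' f g := by simp only [map_add]; ring
  map_smul' c f := by
    simp only [Derivation.map_smul, RingHom.id_apply, smul_sub, mul_smul_comm]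

lemma box_apply (f : Sm (D1 T)) : box R f = Dt R f - R.p * R.d (R.d f) - NN R * R.d f := rfl

lemma d_mul (f g : Sm (D1 T)) : R.d (f * g) = f * R.d g + g * R.d f := by
  simp [Derivation.leibniz]

lemma d_one : R.d 1 = 0 := Derivation.map_one_eq_zero _

lemma box_mul (f g : Sm (D1 T)) :
    box R (f * g) = f * box R g + g * box R f - 2 * R.p * R.d f * R.d g := by
  simp only [box_apply, Derivation.leibniz, smul_eq_mul, map_add]
  ring

lemma box_one : box R 1 = 0 := by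
  simp [box_apply]

lemma der_inv (D : Derivation ℝ (Sm (D1 T)) (Sm (D1 T))) {u v : Sm (D1 T)} (h : u * v = 1) :
    D v = -(v ^ 2 * D u) := by
  have h1 : D (u * v) = 0 := by rw [h]; exact D.map_one_eq_zero
  rw [Derivation.leibniz, smul_eq_mul, smul_eq_mul] at h1
  linear_combination v * h1 - D v * h

lemma box_inv {u v : Sm (D1 T)} (h : u * v = 1) :
    box R v = -(v ^ 2 * box R u) - 2 * R.p * v ^ 3 * R.d u ^ 2 := by
  have h1 : box R (u * v) = 0 := by rw [h]; exact box_one R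
  rw [box_mul, der_inv R.d h] at h1
  linear_combination v * h1 - box R v * h

lemma Dt_d (f : Sm (D1 T)) : Dt R (R.d f) = R.d (Dt R f) := by
  have h1 := der_inv (der (1, 0)) R.hry
  simp only [Dt_apply, d_apply, Derivation.leibniz, smul_eq_mul, map_sub, h1]
  rw [der_comm (1, 0) (0, 1) f, der_comm (1, 0) (0, 1) R.r]
  ring

lemma box_d (f : Sm (D1 T)) :
    box R (R.d f) = R.d (box R f) + R.d R.p * R.d (R.d f) + R.d (NN R) * R.d f := by
  simp only [box_apply, map_sub, d_mul, Dt_d]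
  ring

/-- The time coordinate. -/
noncomputable def tt (T : ℝ) : Sm (D1 T) := Sm.mk (fun x => x.1) contDiffOn_fst

@[simp] lemma ev_tt (x : (D1 T).S) : ev x (tt T) = x.1.1 := rfl

lemma der_tt (v : ℝ × ℝ) : der v (tt T) = v.1 • (1 : Sm (D1 T)) := by
  ext x
  rw [ev_der_of v (tt T) x (hasFDerivWithinAt_fst (𝕜 := ℝ) (p := x.1)) (fun _ => rfl)]
  simp

lemma d_tt : R.d (tt T) = 0 := by simp [d_apply, der_tt]

lemma box_tt : box R (tt T) = 1 := by
  simp [box_apply, Dt_apply, d_tt, der_tt]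

/-! Positivity at interior points. -/

lemma hx_pos (x : (D1 T).S) : 0 < R.Q x ∧ 0 < R.A x ∧ 0 < R.B x ∧ 0 < R.E x ∧ 0 < R.K x :=
  R.pos x.1.1 x.2.1 x.1.2 ⟨x.2.2.1.le, x.2.2.2.le⟩

lemma y_pos (x : (D1 T).S) : 0 < x.1.2 := x.2.2.1

lemma y_lt (x : (D1 T).S) : x.1.2 < 1 := x.2.2.2

lemma ysq_pos (x : (D1 T).S) : 0 < 1 - x.1.2 ^ 2 := by
  have := y_pos x
  have := y_lt x
  nlinarith

lemma q_pos (x : (D1 T).S) : 0 < ev x R.q := by rw [R.eQ]; exact (hx_pos R x).1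

lemma p_pos (x : (D1 T).S) : 0 < ev x R.p := by
  rw [R.eA]; exact mul_pos (pow_pos (ysq_pos x) 2) (hx_pos R x).2.1

lemma W_pos (x : (D1 T).S) : 0 < ev x R.W := by
  rw [R.eB]; exact mul_pos (pow_pos (y_pos x) 2) (hx_pos R x).2.2.1

lemma r_pos (x : (D1 T).S) : 0 < ev x R.r := by
  rw [R.eE]; exact mul_pos (y_pos x) (hx_pos R x).2.2.2.1

lemma ry_pos (x : (D1 T).S) : 0 < ev x (der (0, 1) R.r) := by
  rw [R.eK]; exact mul_pos (ysq_pos x) (hx_pos R x).2.2.2.2

lemma ev_of_mul {u v : Sm (D1 T)} (h : u * v = 1) (x : (D1 T).S) : ev x v = (ev x u)⁻¹ := by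
  have h1 := congrArg (ev x) h
  rw [map_mul, map_one] at h1
  exact eq_inv_of_mul_eq_one_right h1

lemma ev_qi (x : (D1 T).S) : ev x R.qi = (ev x R.q)⁻¹ := ev_of_mul R.hq x
lemma ev_Wi (x : (D1 T).S) : ev x R.Wi = (ev x R.W)⁻¹ := ev_of_mul R.hW x
lemma ev_pi (x : (D1 T).S) : ev x R.pi = (ev x R.p)⁻¹ := ev_of_mul R.hp x
lemma ev_ri (x : (D1 T).S) : ev x R.ri = (ev x R.r)⁻¹ := ev_of_mul R.hr x
lemma ev_ryi (x : (D1 T).S) : ev x R.ryi = (ev x (der (0, 1) R.r))⁻¹ := ev_of_mul R.hry x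

lemma ev_sq (x : (D1 T).S) : ev x R.r ^ 2 = ev x R.q * ev x R.W := by
  rw [← map_pow, R.sq, map_mul]

lemma ev_W (x : (D1 T).S) : ev x R.W = ev x R.r ^ 2 / ev x R.q := by
  rw [ev_sq]; field_simp [(q_pos R x).ne']

lemma n_pos (x : (D1 T).S) : 0 < ev x (R.q + R.W) := by
  rw [map_add]; exact add_pos (q_pos R x) (W_pos R x)

/-- The inverse of q + W. -/
noncomputable def ni : Sm (D1 T) := (R.q + R.W).inv fun x => (n_pos R x).ne'

lemma hn : (R.q + R.W) * ni R = 1 := Sm.mul_inv _ _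

lemma ev_ni (x : (D1 T).S) : ev x (ni R) = (ev x R.q + ev x R.W)⁻¹ := by
  rw [ev_of_mul (hn R) x, map_add]

lemma ev_NN (x : (D1 T).S) : ev x (NN R) = m * (ev x R.q + ev x R.W) / ev x R.r := by
  simp [NN, ev_ri, div_eq_mul_inv]

/-- The function xi. -/
noncomputable def xi : Sm (D1 T) := R.d R.q * R.qi - R.ri

lemma d_q : R.d R.q = R.q * (R.ri + xi R) := by
  rw [xi]; linear_combination (-(R.d R.q)) * R.hq

lemma d_sq : 2 * R.r = R.q * R.d R.W + R.W * R.d R.q := by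
  have h := congrArg R.d R.sq
  rw [sq, d_mul, d_mul, d_r] at h
  linear_combination h

lemma d_W : R.d R.W = R.W * (R.ri - xi R) := by
  ext x
  have h := congrArg (ev x) (d_sq R)
  have hq := q_pos R x
  have hr := r_pos R x
  simp only [d_q, map_mul, map_add, map_sub, map_ofNat, ev_ri] at h ⊢
  rw [ev_W] at h ⊢
  field_simp at h ⊢
  linear_combination -h

lemma xi_eq : (1 / 2 : ℝ) • (R.p * (R.d R.q * R.qi - R.d R.W * R.Wi)) = R.p * xi R := by
  ext x
  have hq := q_pos R x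
  have hW := W_pos R x
  simp only [d_q, d_W, map_mul, map_add, map_sub, map_smul, ev_qi, ev_Wi, smul_eq_mul]
  field_simp
  ring

lemma d_ri : R.d R.ri = -R.ri ^ 2 := by rw [der_inv R.d R.hr, d_r, mul_one]

lemma dt_r : der (1, 0) R.r = R.d R.p + m * R.p * R.ri - NN R := by
  have h1 := congrArg (der (1, 0)) R.sq
  rw [sq, Derivation.leibniz, Derivation.leibniz, R.eq_q, R.eq_W] at h1
  have h2 := congrArg R.d (d_sq R)
  rw [map_add, d_mul, d_mul, d_mul, d_r, show (2 : Sm (D1 T)) = 1 + 1 by norm_num, map_add,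
    d_one] at h2
  change _ = R.q • (R.p * R.d (R.d R.W) - R.p * R.d R.W ^ 2 * R.Wi +
    (R.d R.p + m * R.p * R.ri) * R.d R.W + _ - _ + _ - _) + R.W • (R.p * R.d (R.d R.q) -
    R.p * R.d R.q ^ 2 * R.qi + (R.d R.p + m * R.p * R.ri) * R.d R.q + _ - _ + _ - _) at h1
  ext x
  have h1 := congrArg (ev x) h1
  have h2 := congrArg (ev x) h2
  have hq := q_pos R x
  have hr := r_pos R x
  have hp := p_pos R x
  have e1 := congrArg (ev x) (d_q R)
  have e2 := congrArg (ev x) (d_W R)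
  simp only [smul_eq_mul, map_mul, map_add, map_sub, map_pow, map_natCast, map_ofNat, map_one,
    map_zero, ev_qi, ev_Wi, ev_pi, ev_ri, ev_NN] at h1 h2 e1 e2 ⊢
  rw [e1, e2] at h1 h2
  rw [ev_W] at h1 h2 ⊢
  generalize ev x (R.d (R.d R.q)) = q2 at *
  generalize ev x (R.d (R.d R.W)) = W2 at *
  generalize ev x (xi R) = z at *
  generalize ev x (R.d R.p) = p1 at *
  generalize ev x (der (1, 0) R.r) = rt at *
  generalize ev x R.q = q at *
  generalize ev x R.r = r at *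
  generalize ev x R.p = p at *
  have h3 : W2 = (2 - 2 * (q * (r⁻¹ + z)) * (r ^ 2 / q * (r⁻¹ - z)) - r ^ 2 / q * q2) / q := by
    field_simp
    field_simp at h2
    linear_combination -h2
  have h4 : rt = (r * rt + r * rt) / (2 * r) := by field_simp; ring
  rw [h4, h1, h3]
  field_simp
  ring

lemma box_r : box R R.r = -NN R := by
  simp [box_apply, Dt_apply, d_r]

lemma box_q : box R R.q = -(R.p * R.d R.q ^ 2 * R.qi) + R.p * R.q * R.ri ^ 2 -
    R.q ^ 2 * R.pi * R.Wi + R.W * R.pi - 2 * m := by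
  rw [box_apply, Dt_apply, dt_r, R.eq_q]
  change R.p * R.d (R.d R.q) - R.p * R.d R.q ^ 2 * R.qi +
    (R.d R.p + m * R.p * R.ri) * R.d R.q + _ - _ + _ - _ - _ - _ - _ = _
  ring

lemma box_W : box R R.W = -(R.p * R.d R.W ^ 2 * R.Wi) + R.p * R.W * R.ri ^ 2 -
    R.W ^ 2 * R.pi * R.qi + R.q * R.pi - 2 * m := by
  rw [box_apply, Dt_apply, dt_r, R.eq_W]
  change R.p * R.d (R.d R.W) - R.p * R.d R.W ^ 2 * R.Wi +
    (R.d R.p + m * R.p * R.ri) * R.d R.W + _ - _ + _ - _ - _ - _ - _ = _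
  ring

lemma box_p : box R R.p = -R.d R.p ^ 2 + m * ((R.q - R.W) ^ 2 - R.p ^ 2) * R.ri ^ 2 -
    (1 / 2 : ℝ) • (m * (R.p * xi R + (R.q - R.W) * R.ri) ^ 2) := by
  rw [box_apply, Dt_apply, dt_r, R.eq_p, ← xi_eq]
  change R.p * R.d (R.d R.p) + m * R.p * R.d R.p * R.ri + _ - (1 / 2 : ℝ) • (m * ((1 / 2 : ℝ) •
    (R.p * (R.d R.q * R.qi - R.d R.W * R.Wi)) + _) ^ 2) - _ - _ - _ = _
  ring

/-! Values at a point. -/

section values
variable (x : (D1 T).S)

lemma v_dq : ev x (R.d R.q) = ev x R.q * ((ev x R.r)⁻¹ + ev x (xi R)) := by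
  simp [d_q, ev_ri]

lemma v_dW : ev x (R.d R.W) = ev x R.W * ((ev x R.r)⁻¹ - ev x (xi R)) := by
  simp [d_W, ev_ri]

lemma v_box_r : ev x (box R R.r) = -(m * (ev x R.q + ev x R.W) / ev x R.r) := by
  rw [box_r, map_neg, ev_NN]

lemma v_box_q : ev x (box R R.q) = -(ev x R.p * ev x (R.d R.q) ^ 2 / ev x R.q) +
    ev x R.p * ev x R.q / ev x R.r ^ 2 - ev x R.q ^ 2 / (ev x R.p * ev x R.W) +
    ev x R.W / ev x R.p - 2 * m := by
  simp only [box_q, map_mul, map_add, map_sub, map_neg, map_pow, map_natCast, map_ofNat, ev_qi,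
    ev_Wi, ev_pi, ev_ri]
  field_simp

lemma v_box_W : ev x (box R R.W) = -(ev x R.p * ev x (R.d R.W) ^ 2 / ev x R.W) +
    ev x R.p * ev x R.W / ev x R.r ^ 2 - ev x R.W ^ 2 / (ev x R.p * ev x R.q) +
    ev x R.q / ev x R.p - 2 * m := by
  simp only [box_W, map_mul, map_add, map_sub, map_neg, map_pow, map_natCast, map_ofNat, ev_qi,
    ev_Wi, ev_pi, ev_ri]
  field_simp

lemma v_box_p : ev x (box R R.p) = -ev x (R.d R.p) ^ 2 +
    m * ((ev x R.q - ev x R.W) ^ 2 - ev x R.p ^ 2) / ev x R.r ^ 2 -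
    m / 2 * (ev x R.p * ev x (xi R) + (ev x R.q - ev x R.W) / ev x R.r) ^ 2 := by
  simp only [box_p, map_mul, map_add, map_sub, map_neg, map_pow, map_natCast, map_smul, ev_ri,
    smul_eq_mul]
  field_simp

lemma v_box_xi : ev x (box R (xi R)) =
    -2 * (ev x R.q ^ 2 + ev x R.W ^ 2) * ev x (xi R) / (ev x R.p * ev x R.r ^ 2) +
    (ev x R.q ^ 2 - ev x R.W ^ 2) * ev x (R.d R.p) / (ev x R.p ^ 2 * ev x R.r ^ 2) +
    m * (ev x R.q + ev x R.W) * ev x (xi R) / ev x R.r ^ 2 -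
    m * (ev x R.q - ev x R.W) / ev x R.r ^ 3 + ev x (R.d R.p) * ev x (R.d (xi R)) +
    m * (ev x R.q - ev x R.W) * ev x (xi R) ^ 2 / ev x R.r := by
  have e : box R (xi R) = box R (R.d R.q * R.qi) - box R R.ri := by rw [xi, map_sub]
  have hq := q_pos R x
  have hr := r_pos R x
  have hp := p_pos R x
  have h2 : R.d (2 : Sm (D1 T)) = 0 := by
    rw [show (2 : Sm (D1 T)) = 1 + 1 by norm_num, map_add, d_one, add_zero]
  rw [e, box_mul, box_d, box_inv R R.hq, box_inv R R.hr, box_q, box_r, NN]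
  simp only [sq, map_add, map_sub, map_neg, d_mul, der_inv R.d R.hq, der_inv R.d R.hW,
    der_inv R.d R.hp, d_ri, d_r, d_q, d_W, Derivation.map_natCast, h2, map_mul, map_pow,
    map_natCast, map_ofNat, map_one, map_zero, ev_qi, ev_Wi, ev_pi, ev_ri]
  rw [ev_W]
  generalize ev x (R.d (xi R)) = z1 at *
  generalize ev x (xi R) = z at *
  generalize ev x (R.d R.p) = p1 at *
  generalize ev x R.q = q at *
  generalize ev x R.r = r at *
  generalize ev x R.p = p at *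
  field_simp
  ring

end values

end Barrier

end Pool.Agent.P.MP_8fdf05_gt
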