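import Pool.Agent.P.MP_8fdf05_gt.BarrierCalc

/-! The maximum principle and the behaviour at the two ends. -/

open Set Filter Topology
open scoped ContDiff

namespace Pool.Agent.P.MP_8fdf05_gt

open Sm

namespace Barrier

variable {m : ℕ} {T : ℝ} (R : Red m T)

lemma second_nonpos {g g1 : ℝ → ℝ} {y0 g2 : ℝ} (h1 : ∀ᶠ y in 𝓝 y0, HasDerivAt g (g1 y) y)
    (h2 : HasDerivAt g1 g2 y0) (hm : IsLocalMax g y0) : g1 y0 = 0 ∧ g2 ≤ 0 := by
  have h0 : g1 y0 = 0 := hm.hasDerivAt_eq_zero h1.self_of_nhds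
  refine ⟨h0, le_of_not_gt fun hpos => ?_⟩
  have hd : deriv g =ᶠ[𝓝 y0] g1 := h1.mono fun y hy => hy.deriv
  have hdd : deriv (deriv g) y0 = g2 := by rw [hd.deriv_eq, h2.deriv]
  have hmin : IsLocalMin g y0 := isLocalMin_of_deriv_deriv_pos (by rw [hdd]; exact hpos)
    (by rw [hd.self_of_nhds, h0]) h1.self_of_nhds.continuousAt
  have hc : g =ᶠ[𝓝 y0] fun _ => g y0 := by
    filter_upwards [hm, hmin] with y a b using le_antisymm a b
  have : deriv (deriv g) y0 = 0 := by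
    rw [hc.deriv.deriv_eq]; simp
  linarith

lemma deriv_nonneg_left {g : ℝ → ℝ} {t0 g1 : ℝ} (h : HasDerivAt g g1 t0)
    (hm : ∀ᶠ s in 𝓝[<] t0, g s ≤ g t0) : 0 ≤ g1 := by
  have h1 := (hasDerivAt_iff_tendsto_slope.1 h).mono_left (nhdsLT_le_nhdsNE t0)
  refine ge_of_tendsto h1 ?_
  filter_upwards [hm, self_mem_nhdsWithin] with s hs hlt
  rw [slope_def_field]
  exact div_nonneg_of_nonpos (sub_nonpos.2 hs) (sub_nonpos.2 (le_of_lt hlt))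

lemma hasDerivAt_y (f : Sm (D1 T)) (x : (D1 T).S) :
    HasDerivAt (fun y => f.fn (x.1.1, y)) (ev x (der (0, 1) f)) x.1.2 := by
  obtain ⟨L, hL, h⟩ := f.hasFDerivAt_space x
  rw [← h]
  exact hL.hasDerivAt

lemma box_nonneg (H : Sm (D1 T)) (x : (D1 T).S) (h0 : 0 ≤ ev x (der (1, 0) H))
    (h1 : ev x (der (0, 1) H) = 0) (h2 : ev x (der (0, 1) (der (0, 1) H)) ≤ 0) :
    ev x (R.d H) = 0 ∧ 0 ≤ ev x (box R H) := by
  have e : ev x (R.d H) = 0 := by simp [d_apply, h1]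
  refine ⟨e, ?_⟩
  have e2 : ev x (R.d (R.d H)) = ev x R.ryi ^ 2 * ev x (der (0, 1) (der (0, 1) H)) := by
    simp only [d_apply, Derivation.leibniz, smul_eq_mul, map_mul, map_add, h1]
    ring
  have hp := p_pos R x
  simp only [box_apply, Dt_apply, map_sub, map_mul, e, e2]
  have := mul_nonneg (mul_nonneg hp.le (sq_nonneg (ev x R.ryi))) (neg_nonneg.2 h2)
  nlinarith

lemma edge {K : Set (ℝ × ℝ)} (hK : IsCompact K) {F g : ℝ × ℝ → ℝ} (hF : ContinuousOn F K)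
    (hg : Continuous g) (h : ∀ x ∈ K, 0 ≤ F x → 0 < g x) :
    ∃ δ > 0, ∀ x ∈ K, 0 ≤ F x → δ ≤ g x := by
  have hc : IsCompact (K ∩ F ⁻¹' Ici 0) :=
    hK.of_isClosed_subset (hF.preimage_isClosed_of_isClosed hK.isClosed isClosed_Ici)
      inter_subset_left
  obtain ⟨δ, hδ, h'⟩ := hc.exists_forall_le' hg.continuousOn (fun x hx => h x hx.1 hx.2)
  exact ⟨δ, hδ, fun x hx hF => h' x ⟨hx, hF⟩⟩

/-- The maximum principle on the region where a is nonnegative. -/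
theorem mp (a H : Sm (D1 T)) (τ : ℝ) (F0 F1 : ℝ × ℝ → ℝ)
    (c0 : ContinuousOn F0 (Ico 0 T ×ˢ Icc 0 (1 / 2)))
    (c1 : ContinuousOn F1 (Ico 0 T ×ˢ Icc (1 / 2) 1))
    (n0 : ∀ t ∈ Ico 0 T, t ≤ τ → F0 (t, 0) < 0) (n1 : ∀ t ∈ Ico 0 T, t ≤ τ → F1 (t, 1) < 0)
    (i0 : ∀ x : (D1 T).S, x.1.1 ≤ τ → 0 ≤ ev x a → 0 ≤ ev x H → 0 ≤ F0 x)
    (i1 : ∀ x : (D1 T).S, x.1.1 ≤ τ → 0 ≤ ev x a → 0 ≤ ev x H → 0 ≤ F1 x)
    (hinit : ∀ x : (D1 T).S, x.1.1 = 0 → 0 ≤ ev x a → ev x H < 0)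
    (hbd : ∀ x : (D1 T).S, x.1.1 ≤ τ → ev x a = 0 → ev x H < 0)
    (hint : ∀ x : (D1 T).S, x.1.1 ≤ τ → 0 < ev x a → ev x H = 0 → ev x (R.d H) = 0 →
      ev x (box R H) < 0) :
    ∀ x : (D1 T).S, x.1.1 ≤ τ → 0 ≤ ev x a → ev x H < 0 := by
  intro z hzτ hza
  by_contra hzH
  replace hzH := le_of_not_gt hzH
  set σ := z.1.1 with hσ
  have hσT : σ < T := z.2.1.2
  have sub : Icc 0 σ ⊆ Ico 0 T := fun t ht => ⟨ht.1, ht.2.trans_lt hσT⟩
  obtain ⟨δ0, hδ0, h0⟩ := edge (isCompact_Icc.prod isCompact_Icc)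
    (c0.mono (prod_mono sub subset_rfl)) continuous_snd (by
      rintro ⟨t, y⟩ ⟨ht, hy⟩ hF
      refine lt_of_le_of_ne hy.1 ?_
      rintro (rfl : 0 = y)
      exact absurd hF (not_le.2 (n0 t (sub ht) (ht.2.trans hzτ))))
  obtain ⟨δ1, hδ1, h1⟩ := edge (g := fun x => 1 - x.2) (isCompact_Icc.prod isCompact_Icc)
    (c1.mono (prod_mono sub subset_rfl)) (by fun_prop) (by
      rintro ⟨t, y⟩ ⟨ht, hy⟩ hF
      refine sub_pos.2 (lt_of_le_of_ne hy.2 ?_)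
      rintro (rfl : y = 1)
      exact absurd hF (not_le.2 (n1 t (sub ht) (ht.2.trans hzτ))))
  set K : Set (ℝ × ℝ) := Icc 0 σ ×ˢ Icc (min δ0 (1 / 2)) (1 - min δ1 (1 / 2)) with hK
  have hm0 : 0 < min δ0 (1 / 2) := lt_min hδ0 (by norm_num)
  have hm1 : 0 < min δ1 (1 / 2) := lt_min hδ1 (by norm_num)
  have hKS : K ⊆ (D1 T).S := fun x hx =>
    ⟨sub hx.1, hm0.trans_le hx.2.1, hx.2.2.trans_lt (by linarith)⟩
  have hKc : IsCompact K := isCompact_Icc.prod isCompact_Icc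
  have memK : ∀ x : (D1 T).S, x.1.1 ≤ σ → 0 ≤ ev x a → 0 ≤ ev x H → x.1 ∈ K := by
    intro x hx ha hH
    have ht : x.1.1 ∈ Icc 0 σ := ⟨x.2.1.1, hx⟩
    refine ⟨ht, ?_, ?_⟩
    · rcases le_total x.1.2 (1 / 2) with h | h
      · exact (min_le_left _ _).trans
          (h0 x.1 ⟨ht, (y_pos x).le, h⟩ (i0 x (hx.trans hzτ) ha hH))
      · exact (min_le_right _ _).trans h
    · rcases le_total x.1.2 (1 / 2) with h | h
      · have := min_le_right δ1 (1 / 2); linarith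
      · have := h1 x.1 ⟨ht, h, (y_lt x).le⟩ (i1 x (hx.trans hzτ) ha hH)
        have := min_le_left δ1 (1 / 2)
        linarith
  have hZ : IsCompact ((K ∩ a.fn ⁻¹' Ici 0) ∩ (K ∩ H.fn ⁻¹' Ici 0)) :=
    hKc.of_isClosed_subset (((a.continuousOn.mono hKS).preimage_isClosed_of_isClosed hKc.isClosed
      isClosed_Ici).inter ((H.continuousOn.mono hKS).preimage_isClosed_of_isClosed hKc.isClosed
      isClosed_Ici)) (fun x hx => hx.1.1)
  have memZ : ∀ x : (D1 T).S, x.1.1 ≤ σ → 0 ≤ ev x a → 0 ≤ ev x H →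
      x.1 ∈ (K ∩ a.fn ⁻¹' Ici 0) ∩ (K ∩ H.fn ⁻¹' Ici 0) := fun x hx ha hH =>
    ⟨⟨memK x hx ha hH, by rw [ev_eq] at ha; exact ha⟩, memK x hx ha hH,
      by rw [ev_eq] at hH; exact hH⟩
  obtain ⟨w, hw, hmin⟩ := hZ.exists_isMinOn ⟨z.1, memZ z le_rfl hza hzH⟩ continuous_fst.continuousOn
  set x : (D1 T).S := ⟨w, hKS hw.1.1⟩ with hx
  have hxσ : x.1.1 ≤ σ := hw.1.1.1.2
  have hxa : 0 ≤ ev x a := by rw [ev_eq]; exact hw.1.2
  have hxH : 0 ≤ ev x H := by rw [ev_eq]; exact hw.2.2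
  have before : ∀ u : (D1 T).S, u.1.1 < x.1.1 → 0 ≤ ev u a → ev u H < 0 := by
    intro u hu ha
    by_contra hH
    have : x.1.1 ≤ u.1.1 := hmin (memZ u (hu.le.trans hxσ) ha (le_of_not_gt hH))
    linarith
  have ht0 : 0 < x.1.1 := lt_of_le_of_ne x.2.1.1 fun h => absurd hxH (not_le.2 (hinit x h.symm hxa))
  have hapos : 0 < ev x a := lt_of_le_of_ne hxa fun h =>
    absurd hxH (not_le.2 (hbd x (hxσ.trans hzτ) h.symm))
  have left : ∀ u : (D1 T).S, u.1.1 = x.1.1 → 0 < ev u a →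
      ∀ᶠ s in 𝓝[<] u.1.1, H.fn (s, u.1.2) < 0 := by
    intro u hu ha
    have hu0 : 0 < u.1.1 := hu ▸ ht0
    have hc : ∀ᶠ s in 𝓝 u.1.1, 0 < a.fn (s, u.1.2) :=
      (a.hasDerivAt_time u hu0).continuousAt.eventually (lt_mem_nhds (by rwa [ev_eq] at ha))
    filter_upwards [mem_nhdsWithin_of_mem_nhds hc, self_mem_nhdsWithin,
      mem_nhdsWithin_of_mem_nhds (lt_mem_nhds hu0)] with s hs hlt hs0
    have hm : (s, u.1.2) ∈ (D1 T).S := ⟨⟨le_of_lt hs0, lt_trans hlt u.2.1.2⟩, u.2.2⟩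
    rw [fn_apply _ hm] at hs ⊢
    exact before ⟨_, hm⟩ (hu ▸ hlt) hs.le
  have now : ∀ u : (D1 T).S, u.1.1 = x.1.1 → 0 < ev u a → ev u H ≤ 0 := by
    intro u hu ha
    have hu0 : 0 < u.1.1 := hu ▸ ht0
    rw [ev_eq]
    exact le_of_tendsto ((H.hasDerivAt_time u hu0).continuousAt.tendsto.mono_left
      nhdsWithin_le_nhds) ((left u hu ha).mono fun s hs => hs.le)
  have hH0 : ev x H = 0 := le_antisymm (now x rfl hapos) hxH
  have hH0' : H.fn (x.1.1, x.1.2) = 0 := by rw [ev_eq] at hH0; exact hH0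
  have ht : 0 ≤ ev x (der (1, 0) H) := deriv_nonneg_left (H.hasDerivAt_time x ht0)
    ((left x rfl hapos).mono fun s hs => by rw [hH0']; exact hs.le)
  have hI : ∀ᶠ y in 𝓝 x.1.2, (x.1.1, y) ∈ (D1 T).S := by
    filter_upwards [Ioo_mem_nhds (y_pos x) (y_lt x)] with y hy using ⟨x.2.1, hy⟩
  have hy := second_nonpos (g := fun y => H.fn (x.1.1, y))
    (g1 := fun y => (der (0, 1) H).fn (x.1.1, y)) (hI.mono fun y hy => by
      rw [fn_apply _ hy]; exact hasDerivAt_y H ⟨_, hy⟩) (hasDerivAt_y (der (0, 1) H) x) (by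
      have hc : ∀ᶠ y in 𝓝 x.1.2, 0 < a.fn (x.1.1, y) :=
        (hasDerivAt_y a x).continuousAt.eventually (lt_mem_nhds (by rwa [ev_eq] at hapos))
      filter_upwards [hI, hc] with y hy ha
      rw [hH0', fn_apply _ hy]
      rw [fn_apply _ hy] at ha
      exact now ⟨_, hy⟩ rfl ha)
  obtain ⟨e1, e2⟩ := box_nonneg R H x ht (by rw [ev_eq]; exact hy.1) hy.2
  exact absurd (hint x (hxσ.trans hzτ) hapos hH0 e1) (not_lt.2 e2)

end Barrier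

end Pool.Agent.P.MP_8fdf05_gt
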