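import Pool.Agent.P.MP_8fdf05_gt.BarrierId
import Pool.Agent.P.MP_8fdf05_gt.BarrierMP

/-! Behaviour at the two ends, and the global barriers. -/

open Set Filter Topology
open scoped ContDiff

namespace Pool.Agent.P.MP_8fdf05_gt

open Sm

namespace Barrier

variable {m : ℕ} {T : ℝ} (R : Red m T)

/-- The domain [0,T) × ℝ. -/
noncomputable abbrev D2 (T : ℝ) : Dom (ℝ × ℝ) := Dom.cyl T univ isOpen_univ

lemma sub12 : (D1 T).S ⊆ (D2 T).S := fun _ hx => ⟨hx.1, trivial⟩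

lemma der_ext {f : Sm (D1 T)} {g : Sm (D2 T)} (h : ∀ x : (D1 T).S, ev x f = g.fn x) (v : ℝ × ℝ)
    (x : (D1 T).S) : ev x (der v f) = (der v g).fn x := by
  rw [ev_der_of v f x ((g.hasF (sub12 x.2)).mono sub12) h, fn_apply _ (sub12 x.2)]
  rfl

/-- The coordinate y. -/
noncomputable def yy (T : ℝ) : Sm (D2 T) := Sm.mk (fun x => x.2) contDiffOn_snd

lemma ev_yy (x : (D2 T).S) : ev x (yy T) = x.1.2 := rfl

lemma der_yy (v : ℝ × ℝ) : der v (yy T) = v.2 • (1 : Sm (D2 T)) := by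
  ext x
  rw [ev_der_of v (yy T) x (hasFDerivWithinAt_snd (𝕜 := ℝ) (p := x.1)) (fun _ => rfl)]
  simp

/-- The y derivative of Q. -/
noncomputable def Qy : ℝ × ℝ → ℝ := (der (0, 1) (Sm.mk (D := D2 T) R.Q R.sQ)).fn
/-- The y derivative of A. -/
noncomputable def Ay : ℝ × ℝ → ℝ := (der (0, 1) (Sm.mk (D := D2 T) R.A R.sA)).fn
/-- The t derivative of E. -/
noncomputable def Et : ℝ × ℝ → ℝ := (der (1, 0) (Sm.mk (D := D2 T) R.E R.sE)).fn

lemma cQy : ContinuousOn (Qy R) (Ico 0 T ×ˢ univ) := Sm.continuousOn (D := D2 T) _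
lemma cAy : ContinuousOn (Ay R) (Ico 0 T ×ˢ univ) := Sm.continuousOn (D := D2 T) _
lemma cEt : ContinuousOn (Et R) (Ico 0 T ×ˢ univ) := Sm.continuousOn (D := D2 T) _

lemma e_Qy (x : (D1 T).S) : ev x (der (0, 1) R.q) = Qy R x :=
  der_ext (fun u => by rw [R.eQ, fn_mk _ _ (sub12 u.2)]) _ x

lemma e_py (x : (D1 T).S) : ev x (der (0, 1) R.p) =
    (1 - x.1.2 ^ 2) * (-4 * x.1.2 * R.A x + (1 - x.1.2 ^ 2) * Ay R x) := by
  rw [der_ext (g := (1 - yy T * yy T) * (1 - yy T * yy T) * Sm.mk (D := D2 T) R.A R.sA)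
    (fun u => by rw [R.eA, fn_apply _ (sub12 u.2)]; simp [yy]; left; ring) _ x, Ay,
    fn_apply _ (sub12 x.2), fn_apply _ (sub12 x.2)]
  simp only [Derivation.leibniz, map_sub, Derivation.map_one_eq_zero, der_yy, smul_eq_mul, map_mul,
    map_add, map_smul, map_one, map_zero, ev_yy, ev_mk]
  ring

lemma e_rt (x : (D1 T).S) : ev x (der (1, 0) R.r) = x.1.2 * Et R x := by
  rw [der_ext (g := yy T * Sm.mk (D := D2 T) R.E R.sE)
    (fun u => by rw [R.eE, fn_apply _ (sub12 u.2)]; simp [yy]) _ x, Et,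
    fn_apply _ (sub12 x.2), fn_apply _ (sub12 x.2)]
  simp only [Derivation.leibniz, der_yy, smul_eq_mul, map_mul, map_add, map_smul, map_one, ev_yy,
    ev_mk]
  ring

lemma slice {F : ℝ × ℝ → ℝ} (hF : ContinuousOn F (Ico 0 T ×ˢ univ)) {t : ℝ} (ht : t ∈ Ico 0 T) :
    Continuous fun y => F (t, y) :=
  continuousOn_univ.1 (hF.comp (by fun_prop) fun _ _ => ⟨ht, trivial⟩)

lemma end_eq {f g : ℝ → ℝ} (hf : Continuous f) (hg : Continuous g)
    (h : ∀ y ∈ Ioo (0 : ℝ) 1, f y = g y) : f 1 = g 1 := by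
  have := (isClosed_eq hf hg).closure_subset_iff.2 h
  rw [closure_Ioo zero_ne_one] at this
  exact this (right_mem_Icc.2 zero_le_one)

lemma E_one {t : ℝ} (ht : t ∈ Ico 0 T) : R.E (t, 1) = R.Q (t, 1) := by
  have h := end_eq (f := fun y => y ^ 2 * R.E (t, y) ^ 2)
    (g := fun y => R.Q (t, y) * (y ^ 2 * R.B (t, y)))
    ((continuous_pow 2).mul ((slice R.sE.continuousOn ht).pow 2))
    ((slice R.sQ.continuousOn ht).mul ((continuous_pow 2).mul (slice R.sB.continuousOn ht)))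
    (fun y hy => by
      have := ev_sq R ⟨(t, y), ht, hy⟩
      rw [R.eE, R.eQ, R.eB] at this
      simpa [mul_pow] using this)
  obtain ⟨hQ, -, -, hE, -⟩ := R.pos t ht 1 ⟨zero_le_one, le_rfl⟩
  simp only [(R.b1 t ht).1, one_pow, one_mul] at h
  exact (pow_left_inj₀ hE.le hQ.le two_ne_zero).1 (by rw [h]; ring)

lemma Et_one {t : ℝ} (ht : t ∈ Ico 0 T) : Et R (t, 1) = -4 - 2 * m := by
  have cQ := slice R.sQ.continuousOn ht
  have cA := slice R.sA.continuousOn ht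
  have cB := slice R.sB.continuousOn ht
  have cE := slice R.sE.continuousOn ht
  have cK := slice R.sK.continuousOn ht
  have c1 := slice (cAy R) ht
  have c2 := slice (cEt R) ht
  have h := end_eq (f := fun y => y * Et R (t, y) * R.K (t, y) * (y * R.E (t, y)))
    (g := fun y => (-4 * y * R.A (t, y) + (1 - y ^ 2) * Ay R (t, y)) * (y * R.E (t, y)) +
      m * ((1 - y ^ 2) ^ 2 * R.A (t, y) - (R.Q (t, y) + y ^ 2 * R.B (t, y))) * R.K (t, y))
    (by fun_prop) (by fun_prop) (fun y hy => by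
      have h := congrArg (ev (D := D1 T) ⟨(t, y), ht, hy⟩) (dt_r R)
      have h1 := ysq_pos (T := T) ⟨(t, y), ht, hy⟩
      obtain ⟨-, -, -, hE, hK⟩ := hx_pos R ⟨(t, y), ht, hy⟩
      have h2 := hy.1
      simp only [d_apply, map_sub, map_add, map_mul, map_natCast, ev_NN, ev_ri, ev_ryi, e_rt, e_py,
        R.eK, R.eA, R.eQ, R.eB, R.eE] at h h1 hE hK
      rw [h]
      field_simp
      ring)
  obtain ⟨hQ, -, -, -, hK⟩ := R.pos t ht 1 ⟨zero_le_one, le_rfl⟩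
  simp only [(R.b1 t ht).1, (R.b1 t ht).2, E_one R ht] at h
  have : (Et R (t, 1) - (-4 - 2 * m)) * (R.K (t, 1) * R.Q (t, 1)) = 0 := by linear_combination h
  exact sub_eq_zero.1 ((mul_eq_zero.1 this).resolve_right (by positivity))

lemma E_top (h0 : R.E (0, 1) = 1 / 2) {t : ℝ} (ht : t ∈ Ico 0 T) :
    R.E (t, 1) = 1 / 2 - (4 + 2 * m) * t := by
  rcases ht.1.eq_or_lt with rfl | hpos
  · simp [h0]
  obtain ⟨c, -, hc⟩ := exists_hasDerivAt_eq_slope (fun s => R.E (s, 1)) (fun _ => -4 - 2 * (m : ℝ))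
    hpos (R.sE.continuousOn.comp (by fun_prop) fun s hs => ⟨⟨hs.1, hs.2.trans_lt ht.2⟩, trivial⟩)
    (fun s hs => by
      have hs' : s ∈ Ico 0 T := ⟨hs.1.le, hs.2.trans ht.2⟩
      have h := (Sm.mk (D := D2 T) R.E R.sE).hasDerivAt_time ⟨(s, 1), hs', trivial⟩ hs.1
      rw [ev_eq] at h
      change HasDerivAt _ (Et R (s, 1)) s at h
      rw [Et_one R hs'] at h
      refine h.congr_of_eventuallyEq ?_
      filter_upwards [Ioo_mem_nhds hs.1 hs'.2] with u hu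
      exact (fn_mk (D := D2 T) _ _ (x := (u, 1)) ⟨⟨hu.1.le, hu.2⟩, trivial⟩).symm)
  rw [h0, sub_zero, eq_div_iff hpos.ne'] at hc
  linear_combination -hc

end Barrier

end Pool.Agent.P.MP_8fdf05_gt
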