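import Pool.Agent.P.MP_8fdf05_gt.BarrierEnd

/-! The global barriers and the localised maximum principle. -/

open Set Filter Topology
open scoped ContDiff

namespace Pool.Agent.P.MP_8fdf05_gt

open Sm

namespace Barrier

variable {m : ℕ} {T : ℝ} (R : Red m T) {r1 Q0 : ℝ}

lemma cQ (s : Set ℝ) : ContinuousOn R.Q (Ico 0 T ×ˢ s) :=
  R.sQ.continuousOn.mono (prod_mono subset_rfl (subset_univ _))
lemma cA (s : Set ℝ) : ContinuousOn R.A (Ico 0 T ×ˢ s) :=
  R.sA.continuousOn.mono (prod_mono subset_rfl (subset_univ _))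
lemma cB (s : Set ℝ) : ContinuousOn R.B (Ico 0 T ×ˢ s) :=
  R.sB.continuousOn.mono (prod_mono subset_rfl (subset_univ _))
lemma cE (s : Set ℝ) : ContinuousOn R.E (Ico 0 T ×ˢ s) :=
  R.sE.continuousOn.mono (prod_mono subset_rfl (subset_univ _))
lemma cK (s : Set ℝ) : ContinuousOn R.K (Ico 0 T ×ˢ s) :=
  R.sK.continuousOn.mono (prod_mono subset_rfl (subset_univ _))

/-- The maximum principle on the whole domain. -/
theorem mp_all (H : Sm (D1 T)) (F : ℝ × ℝ → ℝ) (c : ContinuousOn F (Ico 0 T ×ˢ univ))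
    (n0 : ∀ t ∈ Ico 0 T, F (t, 0) < 0) (n1 : ∀ t ∈ Ico 0 T, F (t, 1) < 0)
    (i0 : ∀ x : (D1 T).S, 0 ≤ ev x H → 0 ≤ F x)
    (hinit : ∀ x : (D1 T).S, x.1.1 = 0 → ev x H < 0)
    (hint : ∀ x : (D1 T).S, ev x H = 0 → ev x (R.d H) = 0 → ev x (box R H) < 0)
    (x : (D1 T).S) : ev x H < 0 :=
  mp R 1 H T F F (c.mono (prod_mono subset_rfl (subset_univ _)))
    (c.mono (prod_mono subset_rfl (subset_univ _))) (fun t ht _ => n0 t ht) (fun t ht _ => n1 t ht)
    (fun x _ _ => i0 x) (fun x _ _ => i0 x) (fun x h _ => hinit x h)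
    (fun x _ h => by simp at h) (fun x _ _ => hint x) x x.2.1.2.le (by simp)

lemma r_lt (hG : R.Good r1 Q0) (hm : 1 ≤ m) (x : (D1 T).S) : ev x R.r < 1 := by
  have c := cE R univ
  have hm' : (1 : ℝ) ≤ m := by exact_mod_cast hm
  have := mp_all R (R.r - 1) (fun x => x.2 * R.E x - 1) (by fun_prop) (fun t ht => by simp)
    (fun t ht => by
      have := ht.1
      simp only [E_top R hG.top ht]
      nlinarith)
    (fun x h => by simpa [R.eE] using h)
    (fun x h => by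
      obtain ⟨h1, h2⟩ := hG.g2 x h
      have h3 := ev_sq R x
      have hq := q_pos R x
      have hW := W_pos R x
      have hr := r_pos R x
      rw [map_sub, map_one, sub_neg]
      by_contra h4
      replace h4 := le_of_not_gt h4
      have h5 : ev x R.q < 1 := by nlinarith
      have h6 : ev x R.W < 1 := by nlinarith
      nlinarith)
    (fun x _ _ => by
      have hq := q_pos R x
      have hW := W_pos R x
      have hr := r_pos R x
      rw [map_sub, box_one, sub_zero, v_box_r, neg_lt_zero]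
      positivity) x
  simpa [sub_neg] using this

lemma G0 (hG : R.Good r1 Q0) (hm : 2 ≤ m) (x : (D1 T).S) :
    ev x R.p ≤ ev x R.q + ev x R.W := by
  have c1 := cQ R univ
  have c2 := cA R univ
  have c3 := cB R univ
  have hm' : (2 : ℝ) ≤ m := by exact_mod_cast hm
  have key : ∀ (b : ℝ) (x : (D1 T).S), ev x (b • 1 - BB R) < 0 ↔
      b * ev x R.p < ev x R.q + ev x R.W := fun b x => by
    rw [map_sub, map_smul, map_one, v_BB, sub_neg, lt_div_iff₀ (p_pos R x), smul_eq_mul, mul_one]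
  have main : ∀ b ∈ Ioo (0 : ℝ) 1, b * ev x R.p < ev x R.q + ev x R.W := fun b hb => by
    refine (key b x).1 (mp_all R _
      (fun x => b * ((1 - x.2 ^ 2) ^ 2 * R.A x) - (R.Q x + x.2 ^ 2 * R.B x))
      (by fun_prop) (fun t ht => ?_) (fun t ht => ?_) (fun x h => ?_)
      (fun x h => (key b x).2 ?_) (fun x h0 h1 => ?_) x)
    · have := mul_pos (sub_pos.2 hb.2) (R.pos t ht 0 ⟨le_rfl, zero_le_one⟩).1
      simp only [R.b0 t ht]
      linarith
    · obtain ⟨h1, -, h2, -⟩ := R.pos t ht 1 ⟨zero_le_one, le_rfl⟩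
      simp only
      linarith
    · have := (key b x).not.1 (not_lt.2 h)
      rw [R.eA, R.eQ, R.eB] at this
      linarith [not_lt.1 this]
    · have := mul_pos (sub_pos.2 hb.2) (p_pos R x)
      linarith [hG.g1 x h]
    · have hq := q_pos R x
      have hW := W_pos R x
      have hr := r_pos R x
      simp only [map_sub, map_smul, Derivation.map_smul, d_one, box_one, map_one, smul_eq_mul,
        smul_zero, zero_sub, map_neg, neg_eq_zero, neg_lt_zero] at h0 h1 ⊢
      have hB : ev x (BB R) = b := by linarith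
      rw [v_box_B, h1, hB]
      refine mul_pos (by positivity) ?_
      generalize ev x (TT R) = t at *
      generalize ev x (XX R) = X at *
      have b0 := hb.1
      have b1 := sub_pos.2 hb.2
      have h2 : 0 ≤ ((m : ℝ) - 2) * ((X + t * b) ^ 2 / 2 + (1 - b) + t ^ 2 * b * (1 - b)) :=
        mul_nonneg (by linarith) (by positivity)
      have h3 : 0 < (t * X + b) ^ 2 + (1 - b) * (3 + b) + 2 * t ^ 2 * b * (1 - b) := by positivity
      linarith
  by_contra hc
  have hp := p_pos R x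
  have hn := add_pos (q_pos R x) (W_pos R x)
  have := main ((ev x R.q + ev x R.W) / ev x R.p) ⟨by positivity, by
    rw [div_lt_one hp]; exact not_le.1 hc⟩
  rw [div_mul_cancel₀ _ hp.ne'] at this
  exact lt_irrefl _ this

lemma G1 (hG : R.Good r1 Q0) (hm : 2 ≤ m) (x : (D1 T).S) :
    ev x R.p < 2 * (ev x R.q + ev x R.W) := by
  linarith [G0 R hG hm x, q_pos R x, W_pos R x]

lemma one_le_BB (hG : R.Good r1 Q0) (hm : 2 ≤ m) (x : (D1 T).S) : 1 ≤ ev x (BB R) := by
  rw [v_BB, one_le_div (p_pos R x)]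
  exact G0 R hG hm x

lemma G2_real {q W p r q1 m : ℝ} (hq : 0 < q) (hW : 0 < W) (hp : 0 < p) (hr : 0 < r)
    (hs : r ^ 2 = q * W) (hr1 : r < 1) (hG : p ≤ q + W) (hm : 2 ≤ m) (h0 : q * r = 1)
    (h1 : q + r * q1 = 0) :
    q * -(m * (q + W) / r) + r * (-(p * q1 ^ 2 / q) + p * q / r ^ 2 - q ^ 2 / (p * W) + W / p -
      2 * m) - 2 * p * q1 < 0 := by
  have e : q1 = -q / r := by field_simp; linarith
  have h2 : 1 < q := by nlinarith
  have h3 : W < 1 := by nlinarith
  have h4 : 0 < r * (q ^ 2 - W ^ 2) / (p * W) :=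
    div_pos (mul_pos hr (by nlinarith)) (mul_pos hp hW)
  have h5 : 0 ≤ q / r * (m * (q + W) - 2 * p) := mul_nonneg (div_pos hq hr).le (by nlinarith)
  have h6 : 0 < 2 * m * r := by positivity
  have : q * -(m * (q + W) / r) + r * (-(p * q1 ^ 2 / q) + p * q / r ^ 2 - q ^ 2 / (p * W) +
      W / p - 2 * m) - 2 * p * q1 = -(r * (q ^ 2 - W ^ 2) / (p * W)) -
      q / r * (m * (q + W) - 2 * p) - 2 * m * r := by
    rw [e]; field_simp; ring
  linarith

lemma G2 (hG : R.Good r1 Q0) (hm : 2 ≤ m) (x : (D1 T).S) :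
    ev x R.q * ev x R.r < 1 ∧ ev x R.W * ev x R.r < 1 := by
  have c1 := cQ R univ
  have c2 := cE R univ
  have c3 := cB R univ
  have hm' : (2 : ℝ) ≤ m := by exact_mod_cast hm
  have top : ∀ t ∈ Ico 0 T, R.Q (t, 1) * R.E (t, 1) < 1 := fun t ht => by
    have h1 := (R.pos t ht 1 ⟨zero_le_one, le_rfl⟩).2.2.2.1
    have h2 := E_top R hG.top ht
    have h3 := ht.1
    have h4 : R.E (t, 1) ≤ 1 / 2 := by rw [h2]; nlinarith
    rw [← E_one R ht]
    nlinarith
  constructor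
  · have := mp_all R (R.q * R.r - 1) (fun x => R.Q x * (x.2 * R.E x) - 1) (by fun_prop)
      (fun t ht => by simp) (fun t ht => by simpa [sub_neg] using top t ht)
      (fun x h => by simpa [R.eE, R.eQ] using h)
      (fun x h => by simpa [sub_neg] using (hG.g2 x h).1)
      (fun x h0 h1 => by
        simp only [map_sub, box_one, d_one, box_mul, d_mul, d_r, map_add, map_mul, map_one,
          map_ofNat, sub_zero, mul_one, v_box_r, v_box_q] at h0 h1 ⊢
        exact G2_real (q_pos R x) (W_pos R x) (p_pos R x) (r_pos R x) (ev_sq R x)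
          (r_lt R hG (by omega) x) (G0 R hG hm x) hm' (by linarith) h1) x
    simpa [sub_neg] using this
  · have := mp_all R (R.W * R.r - 1) (fun x => x.2 ^ 2 * R.B x * (x.2 * R.E x) - 1) (by fun_prop)
      (fun t ht => by simp) (fun t ht => by simpa [sub_neg, (R.b1 t ht).1] using top t ht)
      (fun x h => by simpa [R.eE, R.eB] using h)
      (fun x h => by simpa [sub_neg] using (hG.g2 x h).2)
      (fun x h0 h1 => by
        simp only [map_sub, box_one, d_one, box_mul, d_mul, d_r, map_add, map_mul, map_one,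
          map_ofNat, sub_zero, mul_one, v_box_r, v_box_W] at h0 h1 ⊢
        rw [add_comm (ev x R.q)]
        exact G2_real (W_pos R x) (q_pos R x) (p_pos R x) (r_pos R x)
          (by rw [ev_sq, mul_comm]) (r_lt R hG (by omega) x)
          (by rw [add_comm]; exact G0 R hG hm x) hm' (by linarith) h1) x
    simpa [sub_neg] using this

/-- The maximum principle in a window around r = r1. -/
theorem mp_win (hG : R.Good r1 Q0) (hr1 : r1 ∈ Ioo (0 : ℝ) (1 / 10)) {ρ τ : ℝ} (hρ : 0 < ρ)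
    (hρ1 : ρ ≤ r1 / 2) (hτ : (4 + 2 * m) * τ ≤ 1 / 4) (H : Sm (D1 T))
    (hinit : ∀ x : (D1 T).S, x.1.1 = 0 → |ev x R.r - r1| ≤ ρ → ev x H < 0)
    (hbd : ∀ x : (D1 T).S, x.1.1 ≤ τ → |ev x R.r - r1| = ρ → ev x H < 0)
    (hint : ∀ x : (D1 T).S, x.1.1 ≤ τ → |ev x R.r - r1| < ρ → ev x H = 0 → ev x (R.d H) = 0 →
      ev x (box R H) < 0) :
    ∀ x : (D1 T).S, x.1.1 ≤ τ → |ev x R.r - r1| ≤ ρ → ev x H < 0 := by
  have ea : ∀ x : (D1 T).S, ev x ((ρ ^ 2) • 1 - (R.r - r1 • 1) ^ 2) =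
      ρ ^ 2 - |ev x R.r - r1| ^ 2 := fun x => by simp
  have e1 : ∀ x : (D1 T).S, 0 ≤ ev x ((ρ ^ 2) • 1 - (R.r - r1 • 1) ^ 2) ↔ |ev x R.r - r1| ≤ ρ :=
    fun x => by rw [ea, sub_nonneg, pow_le_pow_iff_left₀ (abs_nonneg _) hρ.le two_ne_zero]
  have c0 := cE R (Icc 0 (1 / 2))
  have c1 := cE R (Icc (1 / 2) 1)
  intro x hx h
  refine mp R ((ρ ^ 2) • 1 - (R.r - r1 • 1) ^ 2) H τ (fun x => x.2 * R.E x - r1 / 2)
    (fun x => 3 * r1 / 2 - x.2 * R.E x) (by fun_prop) (by fun_prop)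
    (fun t _ _ => by simpa using hr1.1) (fun t ht h => ?_) (fun x _ h _ => ?_) (fun x _ h _ => ?_)
    (fun x h0 h => hinit x h0 ((e1 x).1 h)) (fun x h0 h => hbd x h0 ?_)
    (fun x h0 h => hint x h0 ?_) x hx ((e1 x).2 h)
  · have h1 : (4 + 2 * (m : ℝ)) * t ≤ (4 + 2 * m) * τ := by gcongr
    simp only [E_top R hG.top ht]
    linarith [hr1.2]
  · have := abs_le.1 ((e1 x).1 h)
    rw [R.eE] at this
    linarith [this.1]
  · have := abs_le.1 ((e1 x).1 h)
    rw [R.eE] at this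
    linarith [this.2]
  · rw [ea, sub_eq_zero] at h
    exact ((pow_left_inj₀ hρ.le (abs_nonneg _) two_ne_zero).1 h).symm
  · rwa [ea, sub_pos, pow_lt_pow_iff_left₀ (abs_nonneg _) hρ.le two_ne_zero] at h

/-- Short time control of a function in a window. -/
theorem short (hG : R.Good r1 Q0) (hr1 : r1 ∈ Ioo (0 : ℝ) (1 / 10)) {ρ τ : ℝ} (hρ : 0 < ρ)
    (hρ1 : ρ ≤ r1 / 2) (hτ : (4 + 2 * m) * τ ≤ 1 / 4) (u : Sm (D1 T)) {u0 K C δ : ℝ} (hδ : 0 < δ)
    (hK : 0 ≤ K) (hC : 0 ≤ C)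
    (hinit : ∀ x : (D1 T).S, x.1.1 = 0 → |ev x R.r - r1| ≤ ρ → ev x u ≤ u0)
    (hbd : ∀ x : (D1 T).S, x.1.1 ≤ τ → |ev x R.r - r1| ≤ ρ → ev x u ≤ u0 + K * ρ ^ 2)
    (hint : ∀ x : (D1 T).S, x.1.1 ≤ τ → |ev x R.r - r1| ≤ ρ →
      ev x (R.d u) = 2 * K * (ev x R.r - r1) → ev x (box R u) + 2 * K * ((ev x R.r - r1) *
        (m * (ev x R.q + ev x R.W) * (ev x R.r)⁻¹) + ev x R.p) < C) :
    ∀ x : (D1 T).S, x.1.1 ≤ τ → |ev x R.r - r1| ≤ ρ →
      ev x u < u0 + δ + C * x.1.1 + K * (ev x R.r - r1) ^ 2 := by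
  have e : ∀ x : (D1 T).S, ev x (u - (u0 + δ) • 1 - C • tt T - K • (R.r - r1 • 1) ^ 2) =
      ev x u - (u0 + δ) - C * x.1.1 - K * (ev x R.r - r1) ^ 2 := fun x => by simp
  intro x hx h
  have := mp_win R hG hr1 hρ hρ1 hτ (u - (u0 + δ) • 1 - C • tt T - K • (R.r - r1 • 1) ^ 2)
    (fun x h0 h => by
      have := hinit x h0 h
      have := mul_nonneg hK (sq_nonneg (ev x R.r - r1))
      rw [e, h0]; linarith)
    (fun x h0 h => by
      have h1 := hbd x h0 h.le
      have := mul_nonneg hC x.2.1.1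
      rw [← h, sq_abs] at h1
      rw [e]; linarith)
    (fun x h0 h _ h1 => by
      simp only [map_sub, map_smul, Derivation.map_smul, d_one, box_one, d_tt, box_tt, d_pow2,
        box_pow2, d_r, map_mul, map_one, map_zero, map_ofNat, map_pow, smul_eq_mul, smul_zero,
        v_box_r] at h1 ⊢
      have := hint x h0 h.le (by linarith)
      rw [div_eq_mul_inv]
      linarith) x hx h
  rw [e] at this
  linarith

end Barrier

end Pool.Agent.P.MP_8fdf05_gt
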