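import Pool.Agent.P.MP_8fdf05_gt.BarrierCalc

/-! Evolution of the scale invariant quantities. -/

open Set
open scoped ContDiff

namespace Pool.Agent.P.MP_8fdf05_gt

open Sm

namespace Barrier

variable {m : ℕ} {T : ℝ} (R : Red m T)

/-- (q - W)/(q + W). -/
noncomputable def TT : Sm (D1 T) := (R.q - R.W) * ni R
/-- (q + W)/p. -/
noncomputable def BB : Sm (D1 T) := (R.q + R.W) * R.pi
/-- r xi. -/
noncomputable def XX : Sm (D1 T) := R.r * xi R
/-- The lens function. -/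
noncomputable def Hh : Sm (D1 T) :=
  (XX R + (9 / 25 : ℝ) • TT R) ^ 2 + (16 / 9 : ℝ) • (BB R - (33 / 25 : ℝ) • 1) ^ 2 -
    (16 / 25 : ℝ) • 1
/-- 2r/(q + W). -/
noncomputable def ci : Sm (D1 T) := (2 : ℝ) • (R.r * ni R)

/-- The lens function of three real numbers. -/
noncomputable def Hf (T X B : ℝ) : ℝ := (X + 9 / 25 * T) ^ 2 + 16 / 9 * (B - 33 / 25) ^ 2 - 16 / 25
/-- The coefficient of m. -/
noncomputable def Mf (T X B : ℝ) : ℝ :=
  (X + 9 / 25 * T) * (T * (X ^ 2 - 1) + 9 / 25 * (T * (1 - T ^ 2))) +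
  16 / 9 * (B - 33 / 25) * (1 - (1 - T ^ 2) * B - T ^ 2 * B ^ 2 / 2 + X ^ 2 / 2 + X * T * B)
/-- The free term; Bi is the inverse of B. -/
noncomputable def N0 (T X B Bi : ℝ) : ℝ :=
  (X + 9 / 25 * T) * (X * Bi - T * X ^ 2 * Bi - X * B + T * B) +
  9 / 25 * ((X + 9 / 25 * T) * (1 - T ^ 2) * (-(T * B) + 2 * T * X ^ 2 * Bi)) +
  16 / 9 * (B - 33 / 25) * (1 - T ^ 2 * B ^ 2 - (1 - T ^ 2) * X ^ 2) -
  9 / 25 * ((T * X - 1) * (X + 9 / 25 * T) * (1 - T ^ 2) * X * Bi)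
/-- The coefficient of the derivative of B. -/
noncomputable def N1 (T X B Bi : ℝ) : ℝ :=
  (X + 9 / 25 * T) * (X * Bi ^ 2 - T) + 9 / 25 * ((X + 9 / 25 * T) * (1 - T ^ 2) * X * Bi ^ 2) -
  16 / 9 * (B - 33 / 25) * (T * X - 1) * Bi
/-- The upper bound for the evolution of the lens function. -/
noncomputable def Phi (m T X B Bi h : ℝ) : ℝ :=
  m * Mf T X B + N0 T X B Bi + h * (T * X - 1) * Bi + 9 * B / 64 * (N1 T X B Bi - h * Bi ^ 2) ^ 2

lemma d_pow2 (f : Sm (D1 T)) : R.d (f ^ 2) = 2 * f * R.d f := by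
  rw [sq, d_mul]; ring

lemma box_pow2 (f : Sm (D1 T)) : box R (f ^ 2) = 2 * f * box R f - 2 * R.p * R.d f ^ 2 := by
  rw [sq, box_mul]; ring

section values
variable (x : (D1 T).S)

lemma v_TT : ev x (TT R) = (ev x R.q - ev x R.W) / (ev x R.q + ev x R.W) := by
  simp [TT, ev_ni, div_eq_mul_inv]

lemma v_BB : ev x (BB R) = (ev x R.q + ev x R.W) / ev x R.p := by
  simp [BB, ev_pi, div_eq_mul_inv]

lemma v_XX : ev x (XX R) = ev x R.r * ev x (xi R) := by simp [XX]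

lemma v_ci : ev x (ci R) = 2 * ev x R.r / (ev x R.q + ev x R.W) := by
  simp [ci, ev_ni, div_eq_mul_inv, mul_assoc]

lemma v_Hh : ev x (Hh R) = Hf (ev x (TT R)) (ev x (XX R)) (ev x (BB R)) := by
  simp only [Hh, Hf, map_add, map_sub, map_pow, map_smul, map_one, smul_eq_mul]
  ring

lemma HH_eq : R.HH x = ev x (Hh R) := by
  have hq := q_pos R x
  have hW := W_pos R x
  have hr := r_pos R x
  rw [v_Hh, Hf, Red.HH, v_TT, v_BB, v_XX, v_dq, v_dW]
  congr 3
  field_simp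
  ring

lemma BB_pos : 0 < ev x (BB R) := by
  rw [v_BB]; exact div_pos (add_pos (q_pos R x) (W_pos R x)) (p_pos R x)

lemma TT_abs : |ev x (TT R)| ≤ 1 := by
  have hq := q_pos R x
  have hW := W_pos R x
  rw [v_TT, abs_le, le_div_iff₀ (by positivity), div_le_iff₀ (by positivity)]
  constructor <;> linarith

lemma v_dT : ev x R.r * ev x (R.d (TT R)) = (1 - ev x (TT R) ^ 2) * ev x (XX R) := by
  have hq := q_pos R x
  have hr := r_pos R x
  rw [v_TT, v_XX, TT]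
  simp only [d_mul, der_inv R.d (hn R), map_add, map_sub, map_neg, map_mul, map_pow, v_dq, v_dW,
    ev_ni]
  rw [ev_W]
  field_simp
  ring

lemma v_box_T : ev x (box R (TT R)) = (ev x R.q + ev x R.W) / ev x R.r ^ 2 *
    ((1 - ev x (TT R) ^ 2) * (ev x (TT R) * (m - ev x (BB R)) +
      2 * ev x (TT R) * ev x (XX R) ^ 2 * (ev x (BB R))⁻¹)) := by
  have hq := q_pos R x
  have hr := r_pos R x
  have hp := p_pos R x
  rw [v_TT, v_XX, v_BB, TT]
  simp only [box_mul, box_inv R (hn R), der_inv R.d (hn R), map_add, map_sub, map_neg, map_mul,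
    map_pow, map_ofNat, v_box_q, v_box_W, v_dq, v_dW, ev_ni]
  rw [ev_W]
  generalize ev x (xi R) = z at *
  generalize ev x R.q = q at *
  generalize ev x R.r = r at *
  generalize ev x R.p = p at *
  field_simp
  ring

lemma v_box_B : ev x (box R (BB R)) = (ev x R.q + ev x R.W) / ev x R.r ^ 2 *
    (m * (1 - (1 - ev x (TT R) ^ 2) * ev x (BB R) - ev x (TT R) ^ 2 * ev x (BB R) ^ 2 / 2 +
      ev x (XX R) ^ 2 / 2 + ev x (XX R) * ev x (TT R) * ev x (BB R)) + 1 -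
      ev x (TT R) ^ 2 * ev x (BB R) ^ 2 - (1 - ev x (TT R) ^ 2) * ev x (XX R) ^ 2 -
      (ev x R.r * ev x (R.d (BB R))) ^ 2 * (ev x (BB R))⁻¹ ^ 2) := by
  have hq := q_pos R x
  have hr := r_pos R x
  have hp := p_pos R x
  rw [v_TT, v_XX, v_BB, BB]
  simp only [box_mul, d_mul, box_inv R R.hp, der_inv R.d R.hp, map_add, map_sub, map_neg, map_mul,
    map_pow, map_ofNat, v_box_q, v_box_W, v_box_p, v_dq, v_dW, ev_pi]
  rw [ev_W]
  generalize ev x (xi R) = z at *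
  generalize ev x (R.d R.p) = p1 at *
  generalize ev x R.q = q at *
  generalize ev x R.r = r at *
  generalize ev x R.p = p at *
  field_simp
  ring

lemma v_box_X : ev x (box R (XX R)) = (ev x R.q + ev x R.W) / ev x R.r ^ 2 *
    (m * ev x (TT R) * (ev x (XX R) ^ 2 - 1) - ev x R.r * ev x (R.d (XX R)) * (ev x (BB R))⁻¹ +
      ev x (XX R) * (ev x (BB R))⁻¹ - ev x (TT R) * ev x (XX R) ^ 2 * (ev x (BB R))⁻¹ +
      ev x R.r * ev x (R.d (BB R)) * ev x (XX R) * (ev x (BB R))⁻¹ ^ 2 -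
      ev x (XX R) * ev x (BB R) - ev x (TT R) * (ev x R.r * ev x (R.d (BB R))) +
      ev x (TT R) * ev x (BB R) +
      (ev x (TT R) * ev x (XX R) - ev x R.r * ev x (R.d (BB R)) * (ev x (BB R))⁻¹) *
        (ev x R.r * ev x (R.d (XX R))) * (ev x (BB R))⁻¹) := by
  have hq := q_pos R x
  have hr := r_pos R x
  have hp := p_pos R x
  rw [v_TT, v_XX, v_BB, BB, XX]
  simp only [box_mul, d_mul, d_r, der_inv R.d R.hp, map_add, map_sub, map_neg, map_mul,
    map_pow, map_ofNat, map_one, v_box_r, v_box_xi, v_dq, v_dW, ev_pi]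
  rw [ev_W]
  generalize ev x (R.d (xi R)) = z1 at *
  generalize ev x (xi R) = z at *
  generalize ev x (R.d R.p) = p1 at *
  generalize ev x R.q = q at *
  generalize ev x R.r = r at *
  generalize ev x R.p = p at *
  field_simp
  ring

lemma v_box_H : ev x (box R (Hh R)) ≤ 2 * ((ev x R.q + ev x R.W) / ev x R.r ^ 2) *
    Phi m (ev x (TT R)) (ev x (XX R)) (ev x (BB R)) (ev x (BB R))⁻¹
      (ev x R.r * ev x (R.d (Hh R)) / 2) := by
  have hq := q_pos R x
  have hW := W_pos R x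
  have hr := r_pos R x
  have hp := p_pos R x
  have hB := BB_pos R x
  have e1 : ev x R.p = (ev x R.q + ev x R.W) / ev x R.r ^ 2 * ev x R.r ^ 2 * (ev x (BB R))⁻¹ := by
    rw [v_BB]; field_simp
  have e2 : ev x (R.d (TT R)) = (1 - ev x (TT R) ^ 2) * ev x (XX R) / ev x R.r := by
    rw [← v_dT]; field_simp
  have hk : 0 < (ev x R.q + ev x R.W) / ev x R.r ^ 2 := by positivity
  simp only [Hh, box_pow2, d_pow2, box_one, d_one, map_add, map_sub, map_mul, map_smul, map_pow,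
    Derivation.map_smul, map_ofNat, map_one, map_zero, smul_eq_mul, smul_zero]
  rw [v_box_T, v_box_B, v_box_X, e2, e1]
  generalize (ev x R.q + ev x R.W) / ev x R.r ^ 2 = k at *
  generalize ev x (R.d (XX R)) = X1 at *
  generalize ev x (R.d (BB R)) = B1 at *
  generalize ev x (TT R) = t at *
  generalize ev x (XX R) = X at *
  generalize ev x (BB R) = B at *
  generalize ev x R.r = r at *
  rw [← sub_nonneg]
  have h1 : 0 ≤ 2 * k * ((r * X1 + 9 / 25 * ((1 - t ^ 2) * X)) ^ 2 * B⁻¹ + 9 * B / 64 *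
      (N1 t X B B⁻¹ - ((X + 9 / 25 * t) * (r * X1 + 9 / 25 * ((1 - t ^ 2) * X)) +
        16 / 9 * (B - 33 / 25) * (r * B1)) * B⁻¹ ^ 2 - 32 / 9 * (r * B1) * B⁻¹) ^ 2) := by
    positivity
  refine h1.trans_eq ?_
  simp only [Phi, Mf, N0, N1]
  field_simp
  ring

/-- The logarithmic form of box at a point. -/
noncomputable def Lg (u : Sm (D1 T)) : ℝ :=
  ev x (box R u) / ev x u + ev x R.p * (ev x (R.d u) / ev x u) ^ 2

lemma Lg_mul {u v : Sm (D1 T)} (hu : ev x u ≠ 0) (hv : ev x v ≠ 0) :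
    Lg R x (u * v) = Lg R x u + Lg R x v := by
  simp only [Lg, box_mul, d_mul, map_add, map_sub, map_mul, map_ofNat]
  field_simp
  ring

lemma Lg_pow {u : Sm (D1 T)} (hu : ev x u ≠ 0) (k : ℕ) : Lg R x (u ^ k) = k * Lg R x u := by
  induction k with
  | zero => simp [Lg, box_one]
  | succ k ih =>
    rw [pow_succ, Lg_mul R x (by rw [map_pow]; exact pow_ne_zero _ hu) hu, ih]
    push_cast; ring

lemma Lg_p : -(m * ev x R.p / ev x R.r ^ 2) - m * ev x R.p * ev x (xi R) ^ 2 ≤ Lg R x R.p := by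
  have hr := r_pos R x
  have hp := p_pos R x
  rw [Lg, v_box_p, ← sub_nonneg]
  have h1 : 0 ≤ (m : ℝ) / 2 * (ev x R.p * ev x (xi R) - (ev x R.q - ev x R.W) / ev x R.r) ^ 2 /
    ev x R.p := by positivity
  refine h1.trans_eq ?_
  field_simp
  ring

lemma Lg_ci : ev x R.p * ev x (xi R) ^ 2 * ev x (ci R) ^ 2 -
    m * (ev x R.q + ev x R.W) / ev x R.r ^ 2 ≤ Lg R x (ci R) := by
  have hq := q_pos R x
  have hr := r_pos R x
  have hp := p_pos R x
  have hW := W_pos R x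
  have h1 : 0 ≤ (ev x R.q - ev x R.W) ^ 2 / (ev x R.p * ev x R.r ^ 2) +
    4 * m / (ev x R.q + ev x R.W) := by positivity
  rw [Lg, v_ci, ← sub_nonneg, ci]
  refine h1.trans_eq ?_
  simp only [box_mul, d_mul, d_r, box_inv R (hn R), der_inv R.d (hn R), map_add, map_sub, map_neg,
    map_mul, map_pow, map_ofNat, map_one, map_smul, Derivation.map_smul, smul_eq_mul, v_box_q,
    v_box_W, v_box_r, v_dq, v_dW, ev_ni]
  rw [ev_W]
  generalize ev x (xi R) = z at *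
  generalize ev x R.q = q at *
  generalize ev x R.r = r at *
  generalize ev x R.p = p at *
  field_simp
  ring

/-- The evolution of p xi². -/
lemma v_box_G : ev x (box R (R.p * xi R ^ 2)) ≤ -(m / 4) * (ev x R.p * ev x (xi R) ^ 2) ^ 2 +
    (2 * (ev x R.q ^ 2 - ev x R.W ^ 2) ^ 2 * (ev x R.p)⁻¹ ^ 2 * (ev x R.r)⁻¹ ^ 4 +
      m / 2 * ev x R.p * (ev x R.q - ev x R.W) ^ 2 * (ev x R.r)⁻¹ ^ 6) +
    (ev x R.p * ev x (xi R) ^ 2) *
      (3 / 2 * m * (ev x R.q - ev x R.W) ^ 2 * (ev x R.p)⁻¹ * (ev x R.r)⁻¹ ^ 2 +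
      2 * m * (ev x R.q + ev x R.W) * (ev x R.r)⁻¹ ^ 2 + 2 * m) := by
  have hq := q_pos R x
  have hr := r_pos R x
  have hp := p_pos R x
  have hW := W_pos R x
  simp only [sq (xi R), box_mul, d_mul, map_add, map_sub, map_mul, map_ofNat, v_box_p, v_box_xi]
  generalize ev x (R.d (xi R)) = z1 at *
  generalize ev x (xi R) = z at *
  generalize ev x (R.d R.p) = p1 at *
  generalize ev x R.q = q at *
  generalize ev x R.W = W at *
  generalize ev x R.r = r at *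
  generalize ev x R.p = p at *
  rw [← sub_nonneg]
  have h1 : 0 ≤ 2 * (p * z1 + p1 * z / 2) ^ 2 +
      (p1 * z - 2 * (q ^ 2 - W ^ 2) / (p * r ^ 2)) ^ 2 / 2 +
      4 * (q ^ 2 + W ^ 2) * z ^ 2 / r ^ 2 + m * p ^ 2 * z ^ 2 / r ^ 2 +
      m / 4 * (p * z ^ 2 - 2 * (q - W) * z / r) ^ 2 +
      2 * m * p * (z + (q - W) / (2 * r ^ 3)) ^ 2 := by positivity
  refine h1.trans_eq ?_
  field_simp
  ring

end values

end Barrier

end Pool.Agent.P.MP_8fdf05_gt
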