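import Pool.Agent.P.MP_8fdf05_gt.BarrierGlob
import Pool.Agent.P.MP_8fdf05_gt.BarrierAlg

/-! Uniform short time estimates near r = r1. -/

open Set Filter Topology
open scoped ContDiff

namespace Pool.Agent.P.MP_8fdf05_gt

open Sm

namespace Barrier

variable {m : ℕ} {r1 : ℝ}

lemma two_r_le {T : ℝ} (R : Red m T) (x : (D1 T).S) : 2 * ev x R.r ≤ ev x R.q + ev x R.W := by
  have h := ev_sq R x
  have hq := q_pos R x
  have hW := W_pos R x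
  exact abs_le_of_sq_le_sq' (by nlinarith [sq_nonneg (ev x R.q - ev x R.W)]) (by positivity) |>.2

lemma win_real {r1 q W p r : ℝ} (hr1 : r1 ∈ Ioo (0 : ℝ) (1 / 10)) (hq : 0 < q) (hW : 0 < W)
    (hp : 0 < p) (hs : r ^ 2 = q * W) (g1 : p < 2 * (q + W)) (g2 : q * r < 1) (g3 : W * r < 1)
    (h : |r - r1| ≤ r1 / 2) :
    (q + W) * r1 ≤ 4 ∧ 2 ≤ 8 / r1 ^ 3 ∧ |q| ≤ 8 / r1 ^ 3 ∧ |W| ≤ 8 / r1 ^ 3 ∧ |p| ≤ 8 / r1 ^ 3 ∧
      |r - r1| ≤ 8 / r1 ^ 3 ∧ |r⁻¹| ≤ 8 / r1 ^ 3 ∧ |q⁻¹| ≤ 8 / r1 ^ 3 ∧ |W⁻¹| ≤ 8 / r1 ^ 3 ∧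
      |q + W| ≤ 8 / r1 ^ 3 := by
  obtain ⟨h0, h1⟩ := hr1
  have h2 := abs_le.1 h
  have hr : r1 / 2 ≤ r := by linarith [h2.1]
  have hr0 : 0 < r := by linarith
  have a1 : q * r1 ≤ 2 := by nlinarith
  have a2 : W * r1 ≤ 2 := by nlinarith
  have a3 : r1 ^ 3 ≤ r1 := by nlinarith [mul_pos h0 h0]
  have a4 : 0 < r1 ^ 3 := by positivity
  have a5 : r1 ^ 3 ≤ 8 * r ^ 3 := by
    have := pow_le_pow_left₀ (by positivity) hr 3
    linarith
  have key : ∀ z : ℝ, 0 < z → z * r1 ≤ 8 → |z| ≤ 8 / r1 ^ 3 := fun z hz h => by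
    rw [abs_of_pos hz, le_div_iff₀ a4]; nlinarith
  have key2 : ∀ z : ℝ, 0 < z → r1 ^ 3 ≤ 8 * z → |z⁻¹| ≤ 8 / r1 ^ 3 := fun z hz h => by
    rw [abs_of_pos (inv_pos.2 hz), le_div_iff₀ a4, inv_mul_le_iff₀ hz]; linarith
  have b : 2 ≤ 8 / r1 ^ 3 := by rw [le_div_iff₀ a4]; linarith
  refine ⟨by linarith, b, key q hq (by linarith), key W hW (by linarith), key p hp (by nlinarith),
    by linarith, key2 r hr0 (by linarith), key2 q hq (by nlinarith), key2 W hW (by nlinarith),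
    key _ (by positivity) (by linarith)⟩

lemma win {T Q0 : ℝ} (R : Red m T) (hG : R.Good r1 Q0) (hm : 2 ≤ m)
    (hr1 : r1 ∈ Ioo (0 : ℝ) (1 / 10)) (x : (D1 T).S) (h : |ev x R.r - r1| ≤ r1 / 2) :
    (ev x R.q + ev x R.W) * r1 ≤ 4 ∧ 2 ≤ 8 / r1 ^ 3 ∧ |ev x R.q| ≤ 8 / r1 ^ 3 ∧
      |ev x R.W| ≤ 8 / r1 ^ 3 ∧ |ev x R.p| ≤ 8 / r1 ^ 3 ∧ |ev x R.r - r1| ≤ 8 / r1 ^ 3 ∧
      |(ev x R.r)⁻¹| ≤ 8 / r1 ^ 3 ∧ |(ev x R.q)⁻¹| ≤ 8 / r1 ^ 3 ∧ |(ev x R.W)⁻¹| ≤ 8 / r1 ^ 3 ∧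
      |ev x R.q + ev x R.W| ≤ 8 / r1 ^ 3 :=
  win_real hr1 (q_pos R x) (W_pos R x) (p_pos R x) (ev_sq R x) (G1 R hG hm x) (G2 R hG hm x).1
    (G2 R hG hm x).2 h

lemma small_time (m : ℕ) {C ε : ℝ} (hC : 0 < C) (hε : 0 < ε) {τ : ℝ} (hτ : 0 < τ) :
    ∃ σ > 0, σ ≤ τ ∧ (4 + 2 * (m : ℝ)) * σ ≤ 1 / 4 ∧ C * σ ≤ ε := by
  refine ⟨min τ (min (1 / 4 / (4 + 2 * m)) (ε / C)), by positivity, min_le_left _ _, ?_, ?_⟩
  · rw [mul_comm, ← le_div_iff₀ (by positivity)]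
    exact (min_le_right _ _).trans (min_le_left _ _)
  · rw [mul_comm, ← le_div_iff₀ hC]
    exact (min_le_right _ _).trans (min_le_right _ _)

lemma init_lens {T Q0 : ℝ} (R : Red m T) (hG : R.Good r1 Q0) (hr1 : 0 < r1) (x : (D1 T).S)
    (h0 : x.1.1 = 0) (h : |ev x R.r - r1| ≤ r1 / 2) : ev x (Hh R) ≤ -1 / 30 := by
  rw [← HH_eq]
  exact hG.lens x h0 (by linarith [(abs_le.1 h).2])

/-- A lower bound for p. -/
theorem O1 (hm : 2 ≤ m) (hr1 : r1 ∈ Ioo (0 : ℝ) (1 / 10)) : ∃ τ > 0, (4 + 2 * (m : ℝ)) * τ ≤ 1 / 4 ∧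
    ∃ a > 0, ∀ (T Q0 : ℝ) (R : Red m T), R.Good r1 Q0 → ∀ x : (D1 T).S, x.1.1 ≤ τ →
      |ev x R.r - r1| ≤ r1 / 4 → a ≤ ev x R.p := by
  have h0 := hr1.1
  set γ : ℝ := r1 ^ 2 / 4 with hγ
  have hγ0 : 0 < γ := by positivity
  obtain ⟨k, hk⟩ := exists_nat_ge (m / γ ^ 2)
  rw [div_le_iff₀ (by positivity)] at hk
  set w0 : ℝ := 3 * r1 / 7 * γ ^ k with hw0
  have hw : 0 < w0 := by positivity
  set K : ℝ := 4 * w0 / r1 ^ 2 with hK
  obtain ⟨C, hC0, hC⟩ := bd8 (fun q W p ri s w _ _ => w * (m * p * ri ^ 2 + k * (m * (q + W) * ri ^ 2))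
    + (γ ^ k)⁻¹ * (2 * K * s) ^ 2 + 2 * K * (s * (m * (q + W) * ri) + p)) (by fun_prop) (8 / r1 ^ 3)
  obtain ⟨τ, hτ0, -, hτ1, hτ2⟩ := small_time m hC0 (ε := w0 / 4) (by positivity) one_pos
  refine ⟨τ, hτ0, hτ1, w0 / 4, by positivity, fun T Q0 R hG => ?_⟩
  have c0 : ∀ x : (D1 T).S, 0 < ev x (ci R) := fun x => by
    have := q_pos R x
    have := W_pos R x
    have := r_pos R x
    rw [v_ci]; positivity
  have c1 : ∀ x : (D1 T).S, ev x (ci R) ^ k ≤ 1 := fun x => pow_le_one₀ (c0 x).le (by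
    rw [v_ci, div_le_one (add_pos (q_pos R x) (W_pos R x))]; exact two_r_le R x)
  have c2 : ∀ x : (D1 T).S, |ev x R.r - r1| ≤ r1 / 2 → γ ≤ ev x (ci R) := fun x h => by
    have h1 := (win R hG hm hr1 x h).1
    have h2 := (abs_le.1 h).1
    rw [v_ci, le_div_iff₀ (add_pos (q_pos R x) (W_pos R x)), hγ]
    nlinarith
  intro x hx h
  have := short R hG hr1 (ρ := r1 / 2) (by positivity) le_rfl hτ1 (-(R.p * ci R ^ k)) (u0 := -w0)
    (K := K) (C := C) (δ := w0 / 4) (by positivity) (by positivity) hC0.le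
    (fun x h0 h => by
      have h1 := init_lens R hG hr1.1 x h0 h
      rw [v_Hh] at h1
      have h2 := (abs_le.1 (Hf_bounds (TT_abs R x) (h1.trans (by norm_num))).2.1).2
      have h3 : ev x (BB R) ≤ 7 / 3 := by linarith
      rw [v_BB, div_le_iff₀ (p_pos R x)] at h3
      have h4 := two_r_le R x
      have h5 := (abs_le.1 h).1
      rw [map_neg, map_mul, map_pow, neg_le_neg_iff, hw0]
      exact mul_le_mul (by linarith) (pow_le_pow_left₀ hγ0.le (c2 x h) k) (by positivity)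
        (p_pos R x).le)
    (fun x _ h => by
      have : -w0 + K * (r1 / 2) ^ 2 = 0 := by rw [hK]; field_simp; ring
      rw [this, map_neg, map_mul, map_pow, neg_nonpos]
      exact (mul_pos (p_pos R x) (pow_pos (c0 x) k)).le)
    (fun x _ h hd => by
      obtain ⟨-, b0, b1, b2, b3, b4, b5, -⟩ := win R hG hm hr1 x h
      have hp := p_pos R x
      have hc := pow_pos (c0 x) k
      have hL := Lg_mul R x (u := R.p) (v := ci R ^ k) hp.ne' (by rw [map_pow]; exact hc.ne')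
      rw [Lg_pow R x (c0 x).ne'] at hL
      have l1 := Lg_p R x
      have l2 := mul_le_mul_of_nonneg_left (Lg_ci R x) (Nat.cast_nonneg (α := ℝ) k)
      have l3 : (m : ℝ) ≤ k * ev x (ci R) ^ 2 :=
        hk.trans (mul_le_mul_of_nonneg_left (pow_le_pow_left₀ hγ0.le (c2 x h) 2) (Nat.cast_nonneg k))
      have l4 := mul_le_mul_of_nonneg_right l3 (mul_nonneg hp.le (sq_nonneg (ev x (xi R))))
      have l5 : -(m * ev x R.p * (ev x R.r)⁻¹ ^ 2 +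
          k * (m * (ev x R.q + ev x R.W) * (ev x R.r)⁻¹ ^ 2)) ≤ Lg R x (R.p * ci R ^ k) := by
        rw [hL, inv_pow, ← div_eq_mul_inv, ← div_eq_mul_inv]; linarith
      have hwp : 0 < ev x R.p * ev x (ci R) ^ k := mul_pos hp hc
      have b6 : |ev x R.p * ev x (ci R) ^ k| ≤ 8 / r1 ^ 3 := by
        rw [abs_of_pos hwp]
        exact (mul_le_of_le_one_right hp.le (c1 x)).trans (le_of_abs_le b3)
      have h1 := hC _ _ _ _ _ _ 0 0 b1 b2 b3 b5 b4 b6 (by simp; linarith) (by simp; linarith)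
      rw [map_neg, map_neg, neg_eq_iff_eq_neg] at hd
      have e : ev x (box R (-(R.p * ci R ^ k))) = -(ev x R.p * ev x (ci R) ^ k *
          Lg R x (R.p * ci R ^ k)) + (ev x (ci R) ^ k)⁻¹ * (2 * K * (ev x R.r - r1)) ^ 2 := by
        rw [Lg, hd, map_neg, map_neg, map_mul (ev x), map_pow (ev x)]
        field_simp
        ring
      have l6 := mul_le_mul_of_nonneg_left l5 hwp.le
      have l7 := mul_le_mul_of_nonneg_right (inv_anti₀ (pow_pos hγ0 k)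
        (pow_le_pow_left₀ hγ0.le (c2 x h) k)) (sq_nonneg (2 * K * (ev x R.r - r1)))
      rw [e]
      linarith) x hx (h.trans (by linarith))
  rw [map_neg, map_mul, map_pow] at this
  have h1 : C * x.1.1 ≤ C * τ := by gcongr
  have h2 : K * (ev x R.r - r1) ^ 2 ≤ K * (r1 / 4) ^ 2 := by
    rw [← sq_abs]; gcongr
  have h3 : K * (r1 / 4) ^ 2 = w0 / 4 := by rw [hK]; field_simp
  have h4 := mul_le_of_le_one_right (p_pos R x).le (c1 x)
  linarith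

lemma O2_real {m ρ G G1 bG bρ ρ1 p A0 A1 K : ℝ} (hm : 2 ≤ m) (hρ : 0 < ρ) (hρ1 : ρ ≤ 1)
    (hK : 1 ≤ K) (h0 : ρ ^ 2 * G = K) (h1 : ρ ^ 2 * G1 + G * (2 * ρ * ρ1) = 0)
    (hb : bG ≤ -(m / 4) * G ^ 2 + A0 + G * A1) (hA : 0 ≤ A0)
    (hC : A0 + ρ ^ 2 * A1 + 2 * ρ * bρ + 6 * p * ρ1 ^ 2 < K / 2) :
    ρ ^ 2 * bG + G * (2 * ρ * bρ - 2 * p * ρ1 ^ 2) - 2 * p * (2 * ρ * ρ1) * G1 < 0 := by
  have a1 : ρ ^ 2 ≤ 1 := pow_le_one₀ hρ.le hρ1
  have a0 : 0 < ρ ^ 2 := by positivity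
  have a2 : 0 < G := by
    by_contra h
    have := mul_nonneg a0.le (neg_nonneg.2 (not_lt.1 h))
    linarith
  have a3 : 1 ≤ G := by nlinarith
  have a4 : ρ * G1 = -2 * G * ρ1 := by
    apply mul_left_cancel₀ hρ.ne'; linarith
  have a5 := mul_le_mul_of_nonneg_left hb a0.le
  have a6 := mul_lt_mul_of_pos_left hC a2
  have a7 : ρ ^ 2 * A0 ≤ G * A0 := mul_le_mul_of_nonneg_right (a1.trans a3) hA
  have a8 : 0 ≤ (m - 2) * (K * G) := mul_nonneg (by linarith) (by positivity)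
  have a9 : ρ ^ 2 * (-(m / 4) * G ^ 2) = -(m / 4) * (K * G) := by rw [← h0]; ring
  have a10 : 2 * p * (2 * ρ * ρ1) * G1 = -8 * p * ρ1 ^ 2 * G := by
    linear_combination 4 * p * ρ1 * a4
  rw [a10]
  linarith

/-- A bound for xi. -/
theorem O2 (hm : 2 ≤ m) (hr1 : r1 ∈ Ioo (0 : ℝ) (1 / 10)) {τ a : ℝ}
    (hτ : (4 + 2 * (m : ℝ)) * τ ≤ 1 / 4) (ha : 0 < a) :
    ∃ L > 0, ∀ (T Q0 : ℝ) (R : Red m T), R.Good r1 Q0 → (∀ x : (D1 T).S, x.1.1 ≤ τ →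
      |ev x R.r - r1| ≤ r1 / 4 → a ≤ ev x R.p) → ∀ x : (D1 T).S, x.1.1 ≤ τ →
      |ev x R.r - r1| ≤ r1 / 8 → |ev x (xi R)| ≤ L := by
  have h0 := hr1.1
  have hm' : (2 : ℝ) ≤ m := by exact_mod_cast hm
  obtain ⟨C, hC0, hC⟩ := bd8 (fun q W p pi ri s _ _ =>
    (2 * (q ^ 2 - W ^ 2) ^ 2 * pi ^ 2 * ri ^ 4 + m / 2 * p * (q - W) ^ 2 * ri ^ 6) +
    ((r1 / 4) ^ 2 - s ^ 2) ^ 2 * (3 / 2 * m * (q - W) ^ 2 * pi * ri ^ 2 + 2 * m * (q + W) * ri ^ 2 +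
      2 * m) + 2 * ((r1 / 4) ^ 2 - s ^ 2) * (2 * s * (m * (q + W) * ri) + 2 * p) +
      6 * p * (-(2 * s)) ^ 2) (by fun_prop) (8 / r1 ^ 3 + a⁻¹)
  obtain ⟨C1, hC1, hC'⟩ := bd8 (fun p X ri s _ _ _ _ => ((r1 / 4) ^ 2 - s ^ 2) ^ 2 *
    (p * (X * ri) ^ 2)) (by fun_prop) (8 / r1 ^ 3)
  refine ⟨√((2 * C + C1 + 1) / ((3 * r1 ^ 2 / 64) ^ 2 * a)), by positivity,
    fun T Q0 R hG hp x hx h => ?_⟩
  have e : ∀ x : (D1 T).S, ev x ((((r1 / 4) ^ 2) • 1 - (R.r - r1 • 1) ^ 2) ^ 2 * (R.p * xi R ^ 2) -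
      (2 * C + C1 + 1) • 1) = ((r1 / 4) ^ 2 - (ev x R.r - r1) ^ 2) ^ 2 * (ev x R.p * ev x (xi R) ^ 2) -
      (2 * C + C1 + 1) := fun x => by simp
  have := mp_win R hG hr1 (ρ := r1 / 4) (by positivity) (by linarith) hτ
    ((((r1 / 4) ^ 2) • 1 - (R.r - r1 • 1) ^ 2) ^ 2 * (R.p * xi R ^ 2) - (2 * C + C1 + 1) • 1)
    (fun x h0 h => by
      have h' : |ev x R.r - r1| ≤ r1 / 2 := h.trans (by linarith)
      obtain ⟨-, b0, -, -, b3, b4, b5, -⟩ := win R hG hm hr1 x h'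
      have h1 := init_lens R hG hr1.1 x h0 h'
      rw [v_Hh] at h1
      have h2 := (Hf_bounds (TT_abs R x) (h1.trans (by norm_num))).2.2
      have h3 := hC' _ _ _ _ 0 0 0 0 b3 (h2.trans (by linarith)) b5 b4 (by simp; linarith)
        (by simp; linarith) (by simp; linarith) (by simp; linarith)
      rw [v_XX, mul_comm (ev x R.r), mul_inv_cancel_right₀ (r_pos R x).ne'] at h3
      rw [e]; linarith)
    (fun x _ h => by rw [e, ← h, sq_abs, sub_self]; linarith)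
    (fun x hx h h1 h2 => by
      have h' : |ev x R.r - r1| ≤ r1 / 2 := h.le.trans (by linarith)
      obtain ⟨-, b0, b1, b2, b3, b4, b5, -⟩ := win R hG hm hr1 x h'
      have hq := q_pos R x
      have hW := W_pos R x
      have hp0 := p_pos R x
      have hr := r_pos R x
      have ia : 0 < a⁻¹ := inv_pos.2 ha
      have b6 : |(ev x R.p)⁻¹| ≤ a⁻¹ := by
        rw [abs_of_pos (inv_pos.2 hp0)]; exact inv_anti₀ ha (hp x hx h.le)
      have h3 := hC _ _ _ _ _ _ 0 0 (b1.trans (by linarith)) (b2.trans (by linarith))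
        (b3.trans (by linarith)) (b6.trans (by linarith)) (b5.trans (by linarith))
        (b4.trans (by linarith)) (by simp; linarith) (by simp; linarith)
      have h4 : (ev x R.r - r1) ^ 2 < (r1 / 4) ^ 2 := by
        rw [← sq_abs]; gcongr
      rw [e, sub_eq_zero] at h1
      have hb := v_box_G R x
      have hg : ev x (R.p * xi R ^ 2) = ev x R.p * ev x (xi R) ^ 2 := by simp
      rw [← hg] at hb h1
      generalize R.p * xi R ^ 2 = G at *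
      simp only [map_sub, map_add, map_smul, Derivation.map_smul, d_one, box_one, d_pow2,
        box_pow2, d_mul, box_mul, d_r, map_mul (ev x), map_one, map_zero, map_ofNat, map_pow (ev x),
        smul_eq_mul, smul_zero, v_box_r, mul_one, sub_zero, zero_sub, map_neg] at h2 ⊢
      have := O2_real (bρ := 2 * (ev x R.r - r1) * (m * (ev x R.q + ev x R.W) * (ev x R.r)⁻¹) +
        2 * ev x R.p) (ρ1 := -(2 * (ev x R.r - r1))) (p := ev x R.p) (G1 := ev x (R.d G))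
        hm' (sub_pos.2 h4) (by nlinarith [hr1.2, sq_nonneg (ev x R.r - r1)]) (by linarith) h1
        (by linarith) hb (by positivity) (by linarith)
      rw [div_eq_mul_inv _ (ev x R.r)]
      linarith) x hx (h.trans (by linarith))
  rw [e] at this
  refine Real.abs_le_sqrt ?_
  rw [le_div_iff₀ (by positivity)]
  have h1 : (ev x R.r - r1) ^ 2 ≤ (r1 / 8) ^ 2 := by
    rw [← sq_abs]; gcongr
  have h2 : (3 * r1 ^ 2 / 64) ^ 2 * a ≤ ((r1 / 4) ^ 2 - (ev x R.r - r1) ^ 2) ^ 2 * ev x R.p :=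
    mul_le_mul (pow_le_pow_left₀ (by positivity) (by linarith) 2) (hp x hx (h.trans (by linarith)))
      ha.le (sq_nonneg _)
  have := mul_le_mul_of_nonneg_left h2 (sq_nonneg (ev x (xi R)))
  linarith

end Barrier

end Pool.Agent.P.MP_8fdf05_gt
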