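import Pool.Agent.P.MP_8fdf05_gt.EnergyA

/-! The energy inequality in one chart. -/

open Set MeasureTheory Metric Filter Topology
open scoped ContDiff

namespace Pool.Agent.P.MP_8fdf05_gt.Energy

open Sm

variable {ι : Type} [Fintype ι] {T : ℝ}

/-- The integral of f is small against N and bounded against M. -/
def G (T' : ℝ) (N M f : Sm (Dm ι T)) : Prop :=
  ∀ ε > 0, ∃ C, 0 ≤ C ∧ ∀ t : Ico 0 T, t.1 ≤ T' → IL t f ≤ ε * IL t N + C * IL t M

variable {T' : ℝ} {N M : Sm (Dm ι T)}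

lemma G.add {f g : Sm (Dm ι T)} (hf : G T' N M f) (hg : G T' N M g) : G T' N M (f + g) := by
  intro ε hε
  obtain ⟨C1, h1, H1⟩ := hf (ε / 2) (by positivity)
  obtain ⟨C2, h2, H2⟩ := hg (ε / 2) (by positivity)
  refine ⟨C1 + C2, by positivity, fun t ht => ?_⟩
  have := H1 t ht
  have := H2 t ht
  rw [map_add]
  nlinarith

lemma G.zero (hN : ∀ x, 0 ≤ ev x N) : G T' N M 0 := by
  intro ε hε
  refine ⟨0, le_rfl, fun t _ => ?_⟩
  have := IL_nonneg t hN
  rw [map_zero]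
  nlinarith [mul_nonneg hε.le this]

lemma G.sum {σ : Type} (hN : ∀ x, 0 ≤ ev x N) (s : Finset σ) {f : σ → Sm (Dm ι T)}
    (hf : ∀ i ∈ s, G T' N M (f i)) : G T' N M (∑ i ∈ s, f i) :=
  Finset.sum_induction f (G T' N M) (fun _ _ => G.add) (G.zero hN) hf

lemma G.div {f g : Sm (Dm ι T)} (hg : G T' N M g) (v : ι → ℝ) (h : Sm (Dm ι T))
    (e : f = der ((0 : ℝ), v) (chi * h) + g) : G T' N M f := by
  intro ε hε
  obtain ⟨C, h1, H1⟩ := hg ε hε
  refine ⟨C, h1, fun t ht => ?_⟩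
  rw [e, map_add, IL_div, zero_add]
  exact H1 t ht

lemma G.mulNM (hT : T' < T) (a : Sm (Dm ι T)) {u v : Sm (Dm ι T)}
    (hu : ∀ x, ev x u ^ 2 ≤ ev x N) (hv : ∀ x, ev x v ^ 2 ≤ ev x M) : G T' N M (a * u * v) := by
  intro ε hε
  obtain ⟨A, hA0, hA⟩ := bdd a hT
  refine ⟨A ^ 2 / (4 * ε), by positivity, fun t ht => ?_⟩
  have := IL_mono t (f := a * u * v) (g := ε • N + (A ^ 2 / (4 * ε)) • M) (fun z hz => by
    simp only [map_add, map_mul, map_smul, smul_eq_mul]
    have h1 := hu (pt t z)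
    have h2 := hv (pt t z)
    have h3 := hA t ht z hz
    generalize ev (pt t z) a = a at *
    generalize ev (pt t z) u = u at *
    generalize ev (pt t z) v = v at *
    generalize ev (pt t z) N = N at *
    generalize ev (pt t z) M = M at *
    have h4 : a ^ 2 ≤ A ^ 2 := sq_le_sq' (abs_le.1 h3).1 (abs_le.1 h3).2
    have h5 : a * u * v ≤ ε * u ^ 2 + (a * v) ^ 2 / (4 * ε) := by
      have : 0 ≤ (2 * ε * u - a * v) ^ 2 / (4 * ε) := by positivity
      have e : (2 * ε * u - a * v) ^ 2 / (4 * ε) =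
          ε * u ^ 2 + (a * v) ^ 2 / (4 * ε) - a * u * v := by
        field_simp; ring
      linarith
    have h6 : (a * v) ^ 2 / (4 * ε) ≤ A ^ 2 / (4 * ε) * M := by
      rw [div_mul_eq_mul_div, mul_pow]
      gcongr
    nlinarith)
  simpa only [map_add, map_smul, smul_eq_mul] using this

lemma G.mulMM (hT : T' < T) (hN : ∀ x, 0 ≤ ev x N) (a : Sm (Dm ι T)) {u v : Sm (Dm ι T)}
    (hu : ∀ x, ev x u ^ 2 ≤ ev x M) (hv : ∀ x, ev x v ^ 2 ≤ ev x M) : G T' N M (a * u * v) := by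
  intro ε hε
  obtain ⟨A, hA0, hA⟩ := bdd a hT
  refine ⟨A, hA0.le, fun t ht => ?_⟩
  have := IL_mono t (f := a * u * v) (g := A • M) (fun z hz => by
    simp only [map_mul, map_smul, smul_eq_mul]
    have h1 := hu (pt t z)
    have h2 := hv (pt t z)
    have h3 := hA t ht z hz
    generalize ev (pt t z) a = a at *
    generalize ev (pt t z) u = u at *
    generalize ev (pt t z) v = v at *
    generalize ev (pt t z) M = M at *
    have h4 : |u * v| ≤ M := abs_le.2 ⟨by nlinarith [sq_nonneg (u + v)],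
      by nlinarith [sq_nonneg (u - v)]⟩
    calc a * u * v = a * (u * v) := by ring
      _ ≤ |a * (u * v)| := le_abs_self _
      _ = |a| * |u * v| := abs_mul _ _
      _ ≤ A * M := by gcongr)
  have h2 := IL_nonneg t hN
  simp only [map_smul, smul_eq_mul] at this
  nlinarith [mul_nonneg hε.le h2]

lemma G.span (hN : ∀ x, 0 ≤ ev x N) {S : Set (Sm (Dm ι T))} (u : Sm (Dm ι T))
    (hS : ∀ φ ∈ S, ∀ a, G T' N M (a * u * φ)) {φ : Sm (Dm ι T)}
    (hφ : φ ∈ Submodule.span (Sm (Dm ι T)) S) : G T' N M (u * φ) := by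
  have : ∀ a, G T' N M (a * u * φ) := by
    induction hφ using Submodule.span_induction with
    | mem x hx => exact hS x hx
    | zero => intro a; rw [mul_zero]; exact G.zero hN
    | add x y _ _ hx hy => intro a; rw [mul_add]; exact (hx a).add (hy a)
    | smul c x _ hx =>
      intro a
      have : a * u * c • x = a * c * u * x := by rw [smul_eq_mul]; ring
      rw [this]; exact hx _
  simpa using this 1

variable [DecidableEq ι]

/-- Coordinate derivative. -/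
noncomputable abbrev dd (i : ι) : Derivation ℝ (Sm (Dm ι T)) (Sm (Dm ι T)) :=
  der (0, Pi.single i 1)

lemma ibp (i : ι) (a u v : Sm (Dm ι T)) : a * (chi ^ 2 * u) * dd i v =
    dd i (chi * (a * chi * u * v)) +
      (-(chi * (2 * a * dd i chi + chi * dd i a)) * u * v + -(a * chi) * (chi * dd i u) * v) := by
  simp only [Derivation.leibniz, smul_eq_mul]
  ring

lemma ibp2 (i j : ι) (a u v : Sm (Dm ι T)) : a * (chi ^ 2 * u) * dd i (dd j v) =
    dd i (chi * (a * chi * u * dd j v)) +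
      (-(2 * a * dd i chi + chi * dd i a) * (chi * dd j v) * u +
        -a * (chi * dd i u) * (chi * dd j v)) := by
  simp only [Derivation.leibniz, smul_eq_mul]
  ring

/-- The Dirichlet form. -/
noncomputable def QQ (gi : Matrix ι ι (Sm (Dm ι T))) (f : Sm (Dm ι T)) : Sm (Dm ι T) :=
  ∑ p, ∑ q, gi p q * (chi * dd p f) * (chi * dd q f)

lemma G.lap (hT : T' < T) (hN : ∀ x, 0 ≤ ev x N) (gi : Matrix ι ι (Sm (Dm ι T)))
    {f : Sm (Dm ι T)} (hu : ∀ q x, ev x (chi * dd q f) ^ 2 ≤ ev x N)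
    (hv : ∀ x, ev x f ^ 2 ≤ ev x M) :
    G T' N M (chi ^ 2 * f * (∑ p, ∑ q, gi p q * dd p (dd q f)) + QQ gi f) := by
  rw [QQ, Finset.mul_sum, ← Finset.sum_add_distrib]
  refine G.sum hN _ fun p _ => ?_
  rw [Finset.mul_sum, ← Finset.sum_add_distrib]
  refine G.sum hN _ fun q _ => ?_
  refine (G.mulNM hT (-(2 * gi p q * dd p chi + chi * dd p (gi p q))) (hu q) hv).div
    (Pi.single p 1) (gi p q * chi * f * dd q f) ?_
  have := ibp2 p q (gi p q) f f
  linear_combination this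

lemma coercive (hT : T' < T) (gi : Matrix ι ι (Sm (Dm ι T)))
    (hpos : ∀ x, (gi.map (ev x)).PosDef) :
    ∃ c, 0 < c ∧ ∀ t : Ico 0 T, t.1 ≤ T' → ∀ f : Sm (Dm ι T),
      c * IL t (∑ p, (chi * dd p f) ^ 2) ≤ IL t (QQ gi f) := by
  set S : Set (ι → ℝ) := {ξ | ∑ p, ξ p ^ 2 = 1} with hS
  have hSc : IsCompact S := by
    refine (isCompact_closedBall (0 : ι → ℝ) 1).of_isClosed_subset
      (isClosed_eq (by fun_prop) continuous_const) fun ξ hξ => ?_
    rw [mem_closedBall, dist_zero_right, pi_norm_le_iff_of_nonneg zero_le_one]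
    intro p
    have : ξ p ^ 2 ≤ ∑ p, ξ p ^ 2 :=
      Finset.single_le_sum (f := fun p => ξ p ^ 2) (fun _ _ => sq_nonneg _) (Finset.mem_univ p)
    rw [hξ] at this
    exact abs_le_one_iff_mul_self_le_one.2 (by nlinarith)
  have hc : IsCompact ((Icc 0 T' ×ˢ KK ι) ×ˢ S) := (isCompact_Icc.prod KK_compact).prod hSc
  have hs : Icc 0 T' ×ˢ KK ι ⊆ (Dm ι T).S := fun x hx =>
    ⟨⟨hx.1.1, hx.1.2.trans_lt hT⟩, mem_univ _⟩
  have hcont : ContinuousOn (fun y : (ℝ × (ι → ℝ)) × (ι → ℝ) =>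
      ∑ p, ∑ q, (gi p q).fn y.1 * y.2 p * y.2 q) ((Icc 0 T' ×ˢ KK ι) ×ˢ S) := by
    refine continuousOn_finsetSum _ fun p _ => continuousOn_finsetSum _ fun q _ => ?_
    refine ContinuousOn.mul (ContinuousOn.mul ?_ (by fun_prop)) (by fun_prop)
    exact (gi p q).continuousOn.comp continuousOn_fst fun y hy => hs hy.1
  obtain ⟨c, hc0, hc⟩ := hc.exists_forall_le' hcont (a := 0) (fun y hy => by
    have hne : y.2 ≠ 0 := by
      intro h
      have := hy.2
      simp [hS, h] at this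
    have := (hpos ⟨y.1, hs hy.1⟩).dotProduct_mulVec_pos hne
    simp only [star_trivial, dotProduct, Matrix.mulVec, Matrix.map_apply, Finset.mul_sum] at this
    convert this using 3 with p _ q _
    rw [ev_eq]
    ring)
  refine ⟨c, hc0, fun t ht f => ?_⟩
  have := IL_mono t (f := c • ∑ p, (chi * dd p f) ^ 2) (g := QQ gi f) (fun z hz => by
    simp only [QQ, map_smul, map_sum, map_pow, smul_eq_mul]
    simp only [map_mul (ev (pt t z)) (_ * _) (chi * _), map_mul (ev (pt t z)) (gi _ _)]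
    generalize hξ : (fun p => ev (pt t z) (chi * dd p f)) = ξ
    have hξ' : ∀ p, ev (pt t z) (chi * dd p f) = ξ p := fun p => congrFun hξ p
    simp only [hξ']
    have hnn : 0 ≤ ∑ p, ξ p ^ 2 := Finset.sum_nonneg fun _ _ => sq_nonneg _
    rcases hnn.eq_or_lt with h0 | h0
    · have : ∀ p, ξ p = 0 := fun p => by
        have := (Finset.sum_eq_zero_iff_of_nonneg (fun _ _ => sq_nonneg _)).1 h0.symm p
          (Finset.mem_univ p)
        simpa using this
      simp [this]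
    · set s := Real.sqrt (∑ p, ξ p ^ 2) with hs'
      have hs0 : 0 < s := Real.sqrt_pos.2 h0
      have hs2 : s ^ 2 = ∑ p, ξ p ^ 2 := Real.sq_sqrt hnn
      have h1 := hc ((t.1, z), fun p => ξ p / s) ⟨⟨⟨t.2.1, ht⟩, hz⟩, by
        simp only [hS, mem_ofPred_eq, div_pow]
        rw [← Finset.sum_div, ← hs2, div_self (by positivity)]⟩
      simp only [fn_pt] at h1
      have h2 : ∑ p, ∑ q, ev (pt t z) (gi p q) * ξ p * ξ q =
          s ^ 2 * ∑ p, ∑ q, ev (pt t z) (gi p q) * (ξ p / s) * (ξ q / s) := by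
        simp only [Finset.mul_sum]
        refine Finset.sum_congr rfl fun p _ => Finset.sum_congr rfl fun q _ => ?_
        field_simp
      rw [h2, ← hs2, mul_comm]
      gcongr)
  simpa only [map_smul, smul_eq_mul] using this

omit [DecidableEq ι] in
lemma sq_nonneg_sum {σ : Type} [Fintype σ] (F : σ → Sm (Dm ι T)) (x : (Dm ι T).S) :
    0 ≤ ev x (∑ s, F s ^ 2) := by
  simp only [map_sum, map_pow]
  exact Finset.sum_nonneg fun _ _ => sq_nonneg _

omit [DecidableEq ι] in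
lemma le_sum {σ : Type} [Fintype σ] (F : σ → Sm (Dm ι T)) (s : σ) (x : (Dm ι T).S) :
    ev x (F s) ^ 2 ≤ ev x (∑ s, F s ^ 2) := by
  simp only [map_sum, map_pow]
  exact Finset.single_le_sum (f := fun s => ev x (F s) ^ 2) (fun _ _ => sq_nonneg _)
    (Finset.mem_univ s)

/-- Size of the weighted first derivatives. -/
noncomputable def YY {σ : Type} [Fintype σ] (F : σ → Sm (Dm ι T)) : Sm (Dm ι T) :=
  ∑ s : σ × ι, (chi * dd s.2 (F s.1)) ^ 2

lemma YY_nonneg {σ : Type} [Fintype σ] (F : σ → Sm (Dm ι T)) (x : (Dm ι T).S) :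
    0 ≤ ev x (YY F) := sq_nonneg_sum _ x

lemma le_YY {σ : Type} [Fintype σ] (F : σ → Sm (Dm ι T)) (s : σ) (p : ι) (x : (Dm ι T).S) :
    ev x (chi * dd p (F s)) ^ 2 ≤ ev x (YY F) :=
  le_sum (fun s : σ × ι => chi * dd s.2 (F s.1)) (s, p) x

lemma chart (hT : T' < T) {α β γ : Type} [Fintype α] [Fintype β] [Fintype γ]
    (gi : Matrix ι ι (Sm (Dm ι T))) (δ : α → Sm (Dm ι T)) (w : β → Sm (Dm ι T))
    (n : γ → Sm (Dm ι T)) (hpos : ∀ x, (gi.map (ev x)).PosDef)
    (hδ : ∀ a, der (1, 0) (δ a) - ∑ p, ∑ q, gi p q * dd p (dd q (δ a)) ∈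
      Submodule.span (Sm (Dm ι T)) (range δ ∪ range (fun s : ι × α => dd s.1 (δ s.2)) ∪
        range (fun s : ι × β => dd s.1 (w s.2))))
    (hw : ∀ b, der (1, 0) (w b) ∈
      Submodule.span (Sm (Dm ι T)) (range δ ∪ range (fun s : ι × α => dd s.1 (δ s.2)) ∪
        range (fun s : ι × γ => dd s.1 (n s.2))))
    (hn : ∀ c, der (1, 0) (n c) - ∑ p, ∑ q, gi p q * dd p (dd q (n c)) ∈
      Submodule.span (Sm (Dm ι T)) (range δ ∪ range (fun s : ι × α => dd s.1 (δ s.2)) ∪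
        range (fun s : ι × ι × α => dd s.1 (dd s.2.1 (δ s.2.2))))) :
    ∃ l : ℝ, 0 < l ∧ l ≤ 1 ∧ ∃ C, 0 ≤ C ∧ ∀ t : Ico 0 T, t.1 ≤ T' →
      IL t (der (1, 0) (chi ^ 2 * (∑ a, δ a ^ 2 + ∑ b, w b ^ 2 + l • ∑ c, n c ^ 2))) ≤
        C * IL t (∑ a, δ a ^ 2 + ∑ b, w b ^ 2 + ∑ c, n c ^ 2) := by
  set X := ∑ a, δ a ^ 2 + ∑ b, w b ^ 2 + ∑ c, n c ^ 2 with hX
  have xδ : ∀ a x, ev x (δ a) ^ 2 ≤ ev x X := fun a x => by
    have := le_sum δ a x
    have := sq_nonneg_sum w x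
    have := sq_nonneg_sum n x
    simp only [hX, map_add]; linarith
  have xw : ∀ a x, ev x (w a) ^ 2 ≤ ev x X := fun a x => by
    have := le_sum w a x
    have := sq_nonneg_sum δ x
    have := sq_nonneg_sum n x
    simp only [hX, map_add]; linarith
  have xn : ∀ a x, ev x (n a) ^ 2 ≤ ev x X := fun a x => by
    have := le_sum n a x
    have := sq_nonneg_sum w x
    have := sq_nonneg_sum δ x
    simp only [hX, map_add]; linarith
  have x0 : ∀ x, 0 ≤ ev x X := fun x => by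
    have := sq_nonneg_sum n x
    have := sq_nonneg_sum w x
    have := sq_nonneg_sum δ x
    simp only [hX, map_add]; linarith
  have y0 : ∀ x, 0 ≤ ev x (YY δ + YY n) := fun x => by
    rw [map_add]; exact add_nonneg (YY_nonneg δ x) (YY_nonneg n x)
  have yδ : ∀ a p x, ev x (chi * dd p (δ a)) ^ 2 ≤ ev x (YY δ + YY n) := fun a p x => by
    have := le_YY δ a p x
    have := YY_nonneg n x
    rw [map_add]; linarith
  have yn : ∀ a p x, ev x (chi * dd p (n a)) ^ 2 ≤ ev x (YY δ + YY n) := fun a p x => by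
    have := le_YY n a p x
    have := YY_nonneg δ x
    rw [map_add]; linarith
  have zδ : ∀ a x, ev x (δ a) ^ 2 ≤ ev x (YY δ + X) := fun a x => by
    have := xδ a x
    have := YY_nonneg δ x
    rw [map_add]; linarith
  have zn : ∀ a x, ev x (n a) ^ 2 ≤ ev x (YY δ + X) := fun a x => by
    have := xn a x
    have := YY_nonneg δ x
    rw [map_add]; linarith
  have zd : ∀ a p x, ev x (chi * dd p (δ a)) ^ 2 ≤ ev x (YY δ + X) := fun a p x => by
    have := le_YY δ a p x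
    have := x0 x
    rw [map_add]; linarith
  have A1 : G T' (YY δ + YY n) X (∑ a, (chi ^ 2 * δ a * der (1, 0) (δ a) + QQ gi (δ a))) := by
    refine G.sum y0 _ fun a _ => ?_
    have h1 := G.span (T' := T') (M := X) y0 (chi ^ 2 * δ a) (by
      rintro φ ((⟨b, rfl⟩ | ⟨s, rfl⟩) | ⟨s, rfl⟩) c
      · convert G.mulMM hT y0 (c * chi ^ 2) (xδ a) (xδ b) using 1
        ring
      · convert G.mulNM hT (c * chi) (yδ s.2 s.1) (xδ a) using 1
        ring
      · exact ((G.mulMM hT y0 _ (xδ a) (xw s.2)).add (G.mulNM hT _ (yδ a s.1) (xw s.2))).div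
          _ _ (ibp s.1 c (δ a) (w s.2))) (hδ a)
    convert h1.add (G.lap hT y0 gi (yδ a) (xδ a)) using 1
    ring
  have A2 : G T' (YY δ + YY n) X (∑ b, chi ^ 2 * w b * der (1, 0) (w b)) := by
    refine G.sum y0 _ fun a _ => ?_
    refine G.span (T' := T') (M := X) y0 (chi ^ 2 * w a) ?_ (hw a)
    rintro φ ((⟨b, rfl⟩ | ⟨s, rfl⟩) | ⟨s, rfl⟩) c
    · convert G.mulMM hT y0 (c * chi ^ 2) (xw a) (xδ b) using 1
      ring
    · convert G.mulNM hT (c * chi) (yδ s.2 s.1) (xw a) using 1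
      ring
    · convert G.mulNM hT (c * chi) (yn s.2 s.1) (xw a) using 1
      ring
  have A3 : G T' (YY n) (YY δ + X) (∑ a, (chi ^ 2 * n a * der (1, 0) (n a) + QQ gi (n a))) := by
    refine G.sum (YY_nonneg n) _ fun a _ => ?_
    have h1 := G.span (T' := T') (M := YY δ + X) (YY_nonneg n) (chi ^ 2 * n a) (by
      rintro φ ((⟨b, rfl⟩ | ⟨s, rfl⟩) | ⟨s, rfl⟩) c
      · convert G.mulMM hT (YY_nonneg n) (c * chi ^ 2) (zn a) (zδ b) using 1
        ring
      · convert G.mulMM hT (YY_nonneg n) (c * chi) (zd s.2 s.1) (zn a) using 1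
        ring
      · exact ((G.mulMM hT (YY_nonneg n) _ (zd s.2.2 s.2.1) (zn a)).add
          (G.mulNM hT _ (le_YY n a s.1) (zd s.2.2 s.2.1))).div
          _ _ (ibp2 s.1 s.2.1 c (n a) (δ s.2.2))) (hn a)
    convert h1.add (G.lap hT (YY_nonneg n) gi (le_YY n a) (zn a)) using 1
    ring
  obtain ⟨c, hc0, hc⟩ := coercive hT gi hpos
  have hc' : ∀ {σ : Type} [Fintype σ] (F : σ → Sm (Dm ι T)) (t : Ico 0 T), t.1 ≤ T' →
      c * IL t (YY F) ≤ IL t (∑ a, QQ gi (F a)) := by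
    intro σ _ F t ht
    rw [YY, Fintype.sum_prod_type, map_sum, map_sum, Finset.mul_sum]
    exact Finset.sum_le_sum fun a _ => hc t ht (F a)
  obtain ⟨C3, h3, H3⟩ := A3 (c / 2) (by positivity)
  set l := min 1 (c / (2 * (C3 + 1))) with hl
  have l0 : 0 < l := lt_min one_pos (by positivity)
  have l1 : l ≤ 1 := min_le_left _ _
  have l2 : l * C3 ≤ c / 2 := by
    have : l * (2 * (C3 + 1)) ≤ c := (le_div_iff₀ (by positivity)).1 (min_le_right _ _)
    nlinarith
  obtain ⟨C1, h1, H1⟩ := (A1.add A2) (l * c / 2) (by positivity)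
  refine ⟨l, l0, l1, 2 * (C1 + l * C3), by positivity, fun t ht => ?_⟩
  have e : der ((1 : ℝ), (0 : ι → ℝ))
      (chi ^ 2 * (∑ a, δ a ^ 2 + ∑ b, w b ^ 2 + l • ∑ c, n c ^ 2)) =
      (2 : ℝ) • (∑ a, chi ^ 2 * δ a * der (1, 0) (δ a) + ∑ b, chi ^ 2 * w b * der (1, 0) (w b) +
        l • ∑ a, chi ^ 2 * n a * der (1, 0) (n a)) := by
    have k : ∀ {σ : Type} [Fintype σ] (F : σ → Sm (Dm ι T)),
        chi ^ 2 * der ((1 : ℝ), (0 : ι → ℝ)) (∑ a, F a ^ 2) =
        (2 : ℝ) • ∑ a, chi ^ 2 * F a * der (1, 0) (F a) := by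
      intro σ _ F
      rw [map_sum, Finset.mul_sum, Finset.smul_sum]
      refine Finset.sum_congr rfl fun a _ => ?_
      rw [two_smul, pow_two (F a), Derivation.leibniz, smul_eq_mul]
      ring
    rw [Derivation.leibniz, pow_two chi, Derivation.leibniz, dt_chi, ← pow_two chi]
    simp only [mul_zero, add_zero, map_add, Derivation.map_smul, smul_eq_mul, mul_add,
      mul_smul_comm, k, smul_add, smul_comm l (2 : ℝ)]
  have H1 := H1 t ht
  have H3 := H3 t ht
  have c1 := hc' δ t ht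
  have c3 := hc' n t ht
  have p1 := IL_nonneg t (YY_nonneg δ)
  have p3 := IL_nonneg t (YY_nonneg n)
  rw [e]
  simp only [Finset.sum_add_distrib, map_add, map_smul, smul_eq_mul] at H1 H3 ⊢
  have q1 := mul_le_mul_of_nonneg_left H3 l0.le
  have q2 := mul_le_mul_of_nonneg_left c3 l0.le
  have q3 := mul_le_mul_of_nonneg_right l2 p1
  have q4 : l * c * IL t (YY δ) ≤ c * IL t (YY δ) := by
    have := mul_le_mul_of_nonneg_right l1 (mul_nonneg hc0.le p1)
    nlinarith
  nlinarith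

end Pool.Agent.P.MP_8fdf05_gt.Energy
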