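import Pool.Agent.P.MP_8fdf05_gt.EnergyA

/-! Comparison of the charts on overlaps. -/

open Set MeasureTheory Metric Filter Topology
open scoped ContDiff ENNReal NNReal

namespace Pool.Agent.P.MP_8fdf05_gt.Energy

open Sm

variable {ι : Type} [Fintype ι] {T : ℝ}

lemma local_le (X Y : Sm (Dm ι T)) (hY : ∀ x, 0 ≤ ev x Y) {z0 : ι → ℝ} {U : Set (ι → ℝ)}
    {ψ : (ι → ℝ) → ι → ℝ} {C : ℝ} (hU : IsOpen U) (hz : z0 ∈ U) (hψ : ContDiffOn ℝ ∞ ψ U)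
    (hi : InjOn ψ U) (hd : ∀ z ∈ U, (fderiv ℝ ψ z).det ≠ 0) (h1 : ‖ψ z0‖ ≤ 1)
    (hle : ∀ t : Ico 0 T, ∀ z ∈ U, ev (pt t z) X ≤ C * ev (pt t (ψ z)) Y) :
    ∃ N ∈ 𝓝 z0, ∃ B : ℝ≥0, ∀ t : Ico 0 T, ∫⁻ z in N, ENNReal.ofReal (ev (pt t z) X) ≤
      B * ENNReal.ofReal (IL t (chi ^ 2 * Y)) := by
  have hc : ContinuousAt ψ z0 := hψ.continuousOn.continuousAt (hU.mem_nhds hz)
  have hf : ContinuousAt (fun z => |(fderiv ℝ ψ z).det|) z0 := by
    have := (hψ.continuousOn_fderiv_of_isOpen hU (by simp)).continuousAt (hU.mem_nhds hz)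
    exact (ContinuousLinearMap.continuous_det.continuousAt.comp this).abs
  set c := |(fderiv ℝ ψ z0).det| / 2 with hc'
  have hp : 0 < |(fderiv ℝ ψ z0).det| := abs_pos.2 (hd z0 hz)
  have c0 : 0 < c := by positivity
  have e1 : ∀ᶠ z in 𝓝 z0, c < |(fderiv ℝ ψ z).det| :=
    hf.eventually (lt_mem_nhds (by simp only [hc']; linarith))
  have e2 : ∀ᶠ z in 𝓝 z0, ‖ψ z‖ < 2 := hc.norm.eventually (gt_mem_nhds (by linarith))
  obtain ⟨N, hN, hNo, hzN⟩ := _root_.mem_nhds_iff.1 (e1.and (e2.and (hU.mem_nhds hz)))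
  have hNU : N ⊆ U := fun z h => (hN h).2.2
  refine ⟨N, hNo.mem_nhds hzN, NNReal.mk (|C| / c) (by positivity), fun t => ?_⟩
  have cv := lintegral_image_eq_lintegral_abs_det_fderiv_mul (volume : Measure (ι → ℝ))
    hNo.measurableSet (f := ψ) (f' := fun z => fderiv ℝ ψ z) (fun z h =>
      ((hψ.differentiableOn (by simp)).differentiableAt
        (hU.mem_nhds (hNU h))).hasFDerivAt.hasFDerivWithinAt) (hi.mono hNU)
    (fun y => ENNReal.ofReal (ev (pt t y) (chi ^ 2 * Y)))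
  have hnn : ∀ x, 0 ≤ ev x (chi ^ 2 * Y) := fun x => by
    rw [map_mul, map_pow]
    exact mul_nonneg (sq_nonneg _) (hY x)
  rw [IL_apply, ofReal_integral_eq_lintegral_ofReal (int_slice _ t)
    (Eventually.of_forall fun z => hnn _)]
  have sub : ψ '' N ⊆ KK ι := by
    rintro _ ⟨z, h, rfl⟩
    have := (hN h).2.1
    simp only [KK, mem_closedBall, dist_zero_right]
    linarith
  refine le_trans ?_ (mul_le_mul_right (lintegral_mono_set sub) _)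
  rw [cv, ← lintegral_const_mul' _ _ ENNReal.coe_ne_top]
  refine setLIntegral_mono' hNo.measurableSet fun z h => ?_
  rw [← ENNReal.ofReal_mul (abs_nonneg _), ENNReal.coe_nnreal_eq,
    ← ENNReal.ofReal_mul (NNReal.coe_nonneg _)]
  refine ENNReal.ofReal_le_ofReal ((hle t z (hNU h)).trans ?_)
  rw [map_mul, map_pow, chi_one t (hN h).2.1.le]
  have y0 := hY (pt t (ψ z))
  have d0 := (hN h).1
  change _ ≤ |C| / c * _
  generalize ev (pt t (ψ z)) Y = y at *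
  generalize |(fderiv ℝ ψ z).det| = d at *
  calc C * y ≤ |C| * y := by gcongr; exact le_abs_self C
    _ = |C| / c * (c * y) := by field_simp
    _ ≤ |C| / c * (d * (1 ^ 2 * y)) := by
      rw [one_pow, one_mul]
      gcongr

lemma overlap {κ : Type} [Fintype κ] (X : κ → Sm (Dm ι T)) (hX : ∀ k x, 0 ≤ ev x (X k)) (j : κ)
    (hcov : ∀ z0, ∃ (k : κ) (U : Set (ι → ℝ)) (ψ : (ι → ℝ) → ι → ℝ) (C : ℝ), IsOpen U ∧ z0 ∈ U ∧
      ContDiffOn ℝ ∞ ψ U ∧ InjOn ψ U ∧ (∀ z ∈ U, (fderiv ℝ ψ z).det ≠ 0) ∧ ‖ψ z0‖ ≤ 1 ∧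
      ∀ t : Ico 0 T, ∀ z ∈ U, ev (pt t z) (X j) ≤ C * ev (pt t (ψ z)) (X k)) :
    ∃ B, 0 ≤ B ∧ ∀ t : Ico 0 T, IL t (X j) ≤ B * ∑ k, IL t (chi ^ 2 * X k) := by
  have hnn : ∀ k (t : Ico 0 T), 0 ≤ IL t (chi ^ 2 * X k) := fun k t => IL_nonneg t fun x => by
    rw [map_mul, map_pow]
    exact mul_nonneg (sq_nonneg _) (hX k x)
  have key : ∃ B : ℝ≥0, ∀ t : Ico 0 T, ∫⁻ z in KK ι, ENNReal.ofReal (ev (pt t z) (X j)) ≤
      B * ENNReal.ofReal (∑ k, IL t (chi ^ 2 * X k)) := by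
    refine KK_compact.induction_on (p := fun s => ∃ B : ℝ≥0, ∀ t : Ico 0 T,
      ∫⁻ z in s, ENNReal.ofReal (ev (pt t z) (X j)) ≤
        B * ENNReal.ofReal (∑ k, IL t (chi ^ 2 * X k))) ⟨0, fun t => by simp⟩ ?_ ?_ ?_
    · rintro s u hsu ⟨B, hB⟩
      exact ⟨B, fun t => (lintegral_mono_set hsu).trans (hB t)⟩
    · rintro s u ⟨B, hB⟩ ⟨B', hB'⟩
      refine ⟨B + B', fun t => (lintegral_union_le _ _ _).trans ?_⟩
      rw [ENNReal.coe_add, add_mul]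
      exact add_le_add (hB t) (hB' t)
    · intro z0 _
      obtain ⟨k, U, ψ, C, h1, h2, h3, h4, h5, h6, h7⟩ := hcov z0
      obtain ⟨N, hN, B, hB⟩ := local_le (X j) (X k) (hX k) h1 h2 h3 h4 h5 h6 h7
      refine ⟨N, mem_nhdsWithin_of_mem_nhds hN, B, fun t => (hB t).trans ?_⟩
      gcongr
      exact Finset.single_le_sum (f := fun k => IL t (chi ^ 2 * X k)) (fun k _ => hnn k t)
        (Finset.mem_univ k)
  obtain ⟨B, hB⟩ := key
  refine ⟨B, B.2, fun t => ?_⟩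
  have := hB t
  rw [← ofReal_integral_eq_lintegral_ofReal (int_slice _ t)
    (Eventually.of_forall fun z => hX j _), ENNReal.coe_nnreal_eq,
    ← ENNReal.ofReal_mul (NNReal.coe_nonneg _)] at this
  exact (ENNReal.ofReal_le_ofReal_iff
    (mul_nonneg (NNReal.coe_nonneg B) (Finset.sum_nonneg fun k _ => hnn k t))).1 this

end Pool.Agent.P.MP_8fdf05_gt.Energy
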