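import Pool.Agent.P.MP_8fdf05_gt.Sm
import Pool.Agent.P.MP_8fdf05_gt.EnergyB
import Pool.Agent.P.MP_8fdf05_gt.EnergyC

open Set
open scoped ContDiff

namespace Pool.Agent.P.MP_8fdf05_gt

open Sm

variable {ι : Type} [Fintype ι] [DecidableEq ι]

/-- The domain [0,T) × R^ι. -/
noncomputable abbrev DD (ι : Type) [Fintype ι] (T : ℝ) : Dom (ℝ × (ι → ℝ)) :=
  Dom.cyl T univ isOpen_univ

/-- Coordinate derivative. -/
noncomputable abbrev dx {T : ℝ} {U : Set (ι → ℝ)} {hU : IsOpen U} (i : ι) :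
    Derivation ℝ (Sm (Dom.cyl T U hU)) (Sm (Dom.cyl T U hU)) := der (0, Pi.single i 1)

/-- Time derivative. -/
noncomputable abbrev dt {T : ℝ} {U : Set (ι → ℝ)} {hU : IsOpen U} :
    Derivation ℝ (Sm (Dom.cyl T U hU)) (Sm (Dom.cyl T U hU)) := der (1, 0)

/-- Section 2 of the paper: the energy argument. -/
theorem energy {T : ℝ} {κ α β γ : Type} [Fintype κ] [Fintype α] [Fintype β] [Fintype γ]
    (gi : κ → Matrix ι ι (Sm (DD ι T))) (δ : κ → α → Sm (DD ι T)) (w : κ → β → Sm (DD ι T))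
    (n : κ → γ → Sm (DD ι T))
    (hpos : ∀ j x, ((gi j).map (ev x)).PosDef)
    (hδ : ∀ j a, dt (δ j a) - ∑ p, ∑ q, gi j p q * dx p (dx q (δ j a)) ∈
      Submodule.span (Sm (DD ι T)) (range (δ j) ∪ range (fun s : ι × α => dx s.1 (δ j s.2)) ∪
        range (fun s : ι × β => dx s.1 (w j s.2))))
    (hw : ∀ j b, dt (w j b) ∈
      Submodule.span (Sm (DD ι T)) (range (δ j) ∪ range (fun s : ι × α => dx s.1 (δ j s.2)) ∪
        range (fun s : ι × γ => dx s.1 (n j s.2))))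
    (hn : ∀ j c, dt (n j c) - ∑ p, ∑ q, gi j p q * dx p (dx q (n j c)) ∈
      Submodule.span (Sm (DD ι T)) (range (δ j) ∪ range (fun s : ι × α => dx s.1 (δ j s.2)) ∪
        range (fun s : ι × ι × α => dx s.1 (dx s.2.1 (δ j s.2.2)))))
    (h0 : ∀ j (x : (DD ι T).S), x.1.1 = 0 →
      (∀ a, ev x (δ j a) = 0) ∧ (∀ b, ev x (w j b) = 0) ∧ ∀ c, ev x (n j c) = 0)
    (hcov : ∀ j z0, ∃ (k : κ) (U : Set (ι → ℝ)) (ψ : (ι → ℝ) → ι → ℝ) (C : ℝ), IsOpen U ∧ z0 ∈ U ∧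
      ContDiffOn ℝ ∞ ψ U ∧ InjOn ψ U ∧ (∀ z ∈ U, (fderiv ℝ ψ z).det ≠ 0) ∧ ‖ψ z0‖ ≤ 1 ∧
      ∀ t ∈ Ico 0 T, ∀ z ∈ U,
        ∑ a, (δ j a).fn (t, z) ^ 2 + ∑ b, (w j b).fn (t, z) ^ 2 + ∑ c, (n j c).fn (t, z) ^ 2 ≤
        C * (∑ a, (δ k a).fn (t, ψ z) ^ 2 + ∑ b, (w k b).fn (t, ψ z) ^ 2 +
          ∑ c, (n k c).fn (t, ψ z) ^ 2)) :
    ∀ j a, δ j a = 0 := by
  set X : κ → Sm (DD ι T) := fun j => ∑ a, δ j a ^ 2 + ∑ b, w j b ^ 2 + ∑ c, n j c ^ 2 with hX
  have hX0 : ∀ k x, 0 ≤ ev x (X k) := fun k x => by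
    simp only [hX, map_add]
    exact add_nonneg (add_nonneg (Energy.sq_nonneg_sum _ x) (Energy.sq_nonneg_sum _ x))
      (Energy.sq_nonneg_sum _ x)
  have hc0 : ∀ k x, 0 ≤ ev x (Energy.chi ^ 2 * X k) := fun k x => by
    rw [map_mul, map_pow]
    exact mul_nonneg (sq_nonneg _) (hX0 k x)
  have hcov' : ∀ j z0, ∃ (k : κ) (U : Set (ι → ℝ)) (ψ : (ι → ℝ) → ι → ℝ) (C : ℝ),
      IsOpen U ∧ z0 ∈ U ∧ ContDiffOn ℝ ∞ ψ U ∧ InjOn ψ U ∧
      (∀ z ∈ U, (fderiv ℝ ψ z).det ≠ 0) ∧ ‖ψ z0‖ ≤ 1 ∧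
      ∀ t : Ico 0 T, ∀ z ∈ U, ev (Energy.pt t z) (X j) ≤ C * ev (Energy.pt t (ψ z)) (X k) := by
    intro j z0
    obtain ⟨k, U, ψ, C, h1, h2, h3, h4, h5, h6, h7⟩ := hcov j z0
    refine ⟨k, U, ψ, C, h1, h2, h3, h4, h5, h6, fun t z hz => ?_⟩
    have := h7 t.1 t.2 z hz
    simpa only [Energy.fn_pt, hX, map_add, map_sum, map_pow] using this
  have main : ∀ (t : Ico 0 T) k, Energy.IL t (Energy.chi ^ 2 * X k) = 0 := by
    intro t
    choose l l0 l1 C C0 hC using fun j =>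
      Energy.chart t.2.2 (gi j) (δ j) (w j) (n j) (hpos j) (hδ j) (hw j) (hn j)
    choose B B0 hB using fun j => Energy.overlap X hX0 j (hcov' j)
    set e : κ → Sm (DD ι T) := fun j =>
      Energy.chi ^ 2 * (∑ a, δ j a ^ 2 + ∑ b, w j b ^ 2 + l j • ∑ c, n j c ^ 2) with he
    have hle : ∀ k (s : Ico 0 T), l k * Energy.IL s (Energy.chi ^ 2 * X k) ≤ Energy.IL s (e k) := by
      intro k s
      have := Energy.IL_mono s (f := l k • (Energy.chi ^ 2 * X k)) (g := e k) (fun z _ => by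
        have a1 := Energy.sq_nonneg_sum (δ k) (Energy.pt s z)
        have a2 := Energy.sq_nonneg_sum (w k) (Energy.pt s z)
        simp only [he, hX, map_smul, map_mul, map_add, map_pow, smul_eq_mul]
        have a3 := sq_nonneg (ev (Energy.pt s z) Energy.chi)
        have a4 := mul_nonneg a3 (mul_nonneg (sub_nonneg.2 (l1 k)) (add_nonneg a1 a2))
        nlinarith)
      simpa only [map_smul, smul_eq_mul] using this
    have hnn : ∀ k (s : Ico 0 T), 0 ≤ Energy.IL s (Energy.chi ^ 2 * X k) := fun k s =>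
      Energy.IL_nonneg s (hc0 k)
    have hnn' : ∀ k (s : Ico 0 T), 0 ≤ Energy.IL s (e k) := fun k s =>
      (mul_nonneg (l0 k).le (hnn k s)).trans (hle k s)
    have hmem : ∀ s ∈ Ioo 0 t.1, s ∈ Ico 0 T := fun s h => ⟨h.1.le, h.2.trans t.2.2⟩
    have gr := Energy.gronwall (E := Energy.II (∑ j, e j)) (E' := Energy.II (dt (∑ j, e j)))
      (C := (∑ j, C j * B j) * ∑ k, (l k)⁻¹) t.2.1
      ((Energy.contOn_II _).mono fun s h => ⟨h.1, h.2.trans_lt t.2.2⟩) (fun s hs => by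
        have := Energy.hasDeriv_II (∑ j, e j) ⟨s, hmem s hs⟩ hs.1
        rw [← Energy.II_eq] at this
        exact this) (fun s hs => by
        set s' : Ico 0 T := ⟨s, hmem s hs⟩
        change Energy.II _ s'.1 ≤ _ * Energy.II _ s'.1
        rw [Energy.II_eq, Energy.II_eq, map_sum, map_sum]
        have b1 : ∑ k, Energy.IL s' (Energy.chi ^ 2 * X k) ≤
            (∑ k, (l k)⁻¹) * Energy.IL s' (∑ j, e j) := by
          rw [Finset.sum_mul]
          refine Finset.sum_le_sum fun k _ => ?_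
          rw [le_inv_mul_iff₀ (l0 k), map_sum]
          exact (hle k s').trans (Finset.single_le_sum (f := fun k => Energy.IL s' (e k))
            (fun k _ => hnn' k s') (Finset.mem_univ k))
        rw [mul_assoc, Finset.sum_mul]
        refine Finset.sum_le_sum fun j _ => (hC j s' hs.2.le).trans ?_
        rw [mul_assoc]
        exact mul_le_mul_of_nonneg_left ((hB j s').trans
          (mul_le_mul_of_nonneg_left b1 (B0 j))) (C0 j)) (by
        set s' : Ico 0 T := ⟨0, le_rfl, t.2.1.trans_lt t.2.2⟩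
        change Energy.II _ s'.1 = 0
        rw [Energy.II_eq, Energy.IL_apply]
        refine (MeasureTheory.integral_congr_ae (Filter.Eventually.of_forall fun z => ?_)).trans
          (MeasureTheory.integral_zero _ _)
        simp only [he, map_sum, map_mul, map_add, map_pow, map_smul]
        refine Finset.sum_eq_zero fun j _ => ?_
        obtain ⟨u1, u2, u3⟩ := h0 j (Energy.pt s' z) rfl
        simp [u1, u2, u3])
    rw [Energy.II_eq, map_sum] at gr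
    intro k
    have a1 := Finset.single_le_sum (f := fun k => Energy.IL t (e k))
      (fun k _ => hnn' k t) (Finset.mem_univ k)
    have a2 := hle k t
    have a3 := hnn k t
    have a4 := l0 k
    refine le_antisymm ?_ a3
    by_contra hcon
    have := mul_pos a4 (not_le.1 hcon)
    linarith
  intro j a
  ext x
  obtain ⟨⟨t, z⟩, ht, hz⟩ := x
  obtain ⟨k, U, ψ, C, -, h2, -, -, -, h6, h7⟩ := hcov' j z
  have a1 := Energy.zero_of_IL ⟨t, ht⟩ (hc0 k) (main ⟨t, ht⟩ k) (z := ψ z) (by linarith)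
  rw [map_mul, map_pow, Energy.chi_one _ (by linarith), one_pow, one_mul] at a1
  have a2 := h7 ⟨t, ht⟩ z h2
  rw [a1, mul_zero] at a2
  have a3 := Energy.le_sum (δ j) a (Energy.pt ⟨t, ht⟩ z)
  have a4 := Energy.sq_nonneg_sum (w j) (Energy.pt ⟨t, ht⟩ z)
  have a5 := Energy.sq_nonneg_sum (n j) (Energy.pt ⟨t, ht⟩ z)
  simp only [hX, map_add] at a2
  rw [map_zero]
  exact pow_eq_zero_iff (two_ne_zero) |>.1 (le_antisymm (by
    change ev (Energy.pt ⟨t, ht⟩ z) (δ j a) ^ 2 ≤ 0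
    linarith) (sq_nonneg _))

end Pool.Agent.P.MP_8fdf05_gt
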