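import Pool.Agent.P.MP_8fdf05_gt.Met

/-! Almost Kaehler structures over a differential ring: Weitzenboeck formula, evolution of g. -/

open Matrix Finset

namespace Pool.Agent.P.MP_8fdf05_gt

noncomputable section

variable {ι : Type} [Fintype ι] [DecidableEq ι] {A : Type} [CommRing A] [Algebra ℝ A]

lemma trace_zero_of_anti {J X : Matrix ι ι A} (hJ : J * J = -1) (h : J * X = -(X * J)) :
    trace X = 0 := by
  refine eq_zero_of_add_self ?_
  have h1 : trace (J * X * J) = -trace X := by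
    rw [trace_mul_comm, ← Matrix.mul_assoc, hJ, Matrix.neg_mul, Matrix.one_mul, trace_neg]
  rw [h, Matrix.neg_mul, Matrix.mul_assoc, hJ, Matrix.mul_neg, neg_neg, Matrix.mul_one] at h1
  linear_combination h1

/-- An almost Kaehler structure over a differential ring. -/
structure Geo (ι : Type) [Fintype ι] [DecidableEq ι] (A : Type) [CommRing A] [Algebra ℝ A]
    extends Met ι A where
  J : Matrix ι ι A
  JJ : J * J = -1
  herm : Jᵀ * g * J = g
  closed : ∀ i j k, d i ((Jᵀ * g) j k) + d j ((Jᵀ * g) k i) + d k ((Jᵀ * g) i j) = 0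

namespace Geo

variable (m : Geo ι A)

lemma Jt_g : m.Jᵀ * m.g = -(m.g * m.J) := by
  have h := congrArg (· * m.J) m.herm
  simp only [Matrix.mul_assoc, m.JJ, Matrix.mul_neg, Matrix.mul_one] at h
  rw [← h, neg_neg]

lemma J_sk : m.Sk m.J := by
  unfold Met.Sk; rw [transpose_mul, m.symm, Jt_g]

lemma JJ_mul (X : Matrix ι ι A) : m.J * (m.J * X) = -X := by
  rw [← Matrix.mul_assoc, m.JJ, Matrix.neg_mul, Matrix.one_mul]

lemma gi_Jt : m.gi * m.Jᵀ = -(m.J * m.gi) := by
  calc m.gi * m.Jᵀ = m.gi * (m.Jᵀ * m.g) * m.gi := by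
        rw [Matrix.mul_assoc, Matrix.mul_assoc, m.g_gi, Matrix.mul_one]
    _ = _ := by rw [Jt_g, Matrix.mul_neg, m.gi_g_mul, Matrix.neg_mul]

/-- The fundamental form. -/
def om : Matrix ι ι A := m.Jᵀ * m.g

/-- First derivative of J. -/
def S (i : ι) : Matrix ι ι A := m.cov i m.J

/-- Second derivative of J. -/
def DS (i j : ι) : Matrix ι ι A := m.cov2 i m.S j

lemma S_sk (i : ι) : m.Sk (m.S i) := m.J_sk.cov i

lemma J_S (i : ι) : m.J * m.S i = -(m.S i * m.J) := by
  have h := acov_mul m.d m.Γ i m.J m.J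
  rw [m.JJ, acov_neg, acov_one, neg_zero] at h
  rw [eq_neg_iff_add_eq_zero, add_comm]; exact h.symm

lemma J_S_mul (i : ι) (X : Matrix ι ι A) : m.J * (m.S i * X) = -(m.S i * (m.J * X)) := by
  rw [← Matrix.mul_assoc, J_S, Matrix.neg_mul, Matrix.mul_assoc]

lemma S_cyc (i j k : ι) : (m.g * m.S i) j k + (m.g * m.S j) k i + (m.g * m.S k) i j = 0 := by
  have h := m.closed i j k
  have s := m.J_sk.apply
  simp only [Jt_g, Matrix.neg_apply, map_neg] at h
  simp only [S, ← m.covL_g, Met.covL_apply]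
  simp only [m.Γ_sw j _ i, m.Γ_sw k _ i, m.Γ_sw k _ j, s k, mul_neg, sum_neg_distrib]
  have e : ∑ a, m.Γ i a k * (m.g * m.J) j a = -∑ a, m.Γ i a k * (m.g * m.J) a j := by
    simp only [s j, mul_neg, sum_neg_distrib]
  have e' : ∑ a, m.Γ j a k * (m.g * m.J) i a = -∑ a, m.Γ j a k * (m.g * m.J) a i := by
    simp only [s i, mul_neg, sum_neg_distrib]
  rw [s k i] at h
  linear_combination -h - e - e'

/-- The tensor g (D_x J) as a trilinear form. -/
def phi (x y z : ι → A) : A := y ⬝ᵥ (m.g * ∑ a, x a • m.S a) *ᵥ z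

lemma phi_eq (x y z : ι → A) :
    m.phi x y z = ∑ a, ∑ l, ∑ k, x a * y l * z k * (m.g * m.S a) l k := by
  simp only [phi, Matrix.mul_smul, dotProduct, mulVec, Matrix.sum_apply,
    Matrix.smul_apply, smul_eq_mul, mul_sum, sum_mul]
  rw [sum_comm]
  refine (sum_congr rfl fun k _ => sum_comm).trans ?_
  rw [sum_comm]
  refine sum_congr rfl fun a _ => ?_
  rw [sum_comm]
  exact sum_congr rfl fun l _ => sum_congr rfl fun k _ => by ring

lemma phi_cyc (x y z : ι → A) : m.phi x y z + m.phi y z x + m.phi z x y = 0 := by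
  have h1 : m.phi y z x = ∑ a, ∑ l, ∑ k, x a * y l * z k * (m.g * m.S l) k a := by
    rw [phi_eq]
    refine (sum_congr rfl fun k _ => sum_comm).trans ?_
    rw [sum_comm]
    exact sum_congr rfl fun a _ => sum_congr rfl fun l _ => sum_congr rfl fun k _ => by ring
  have h2 : m.phi z x y = ∑ a, ∑ l, ∑ k, x a * y l * z k * (m.g * m.S k) a l := by
    rw [phi_eq, sum_comm]
    refine sum_congr rfl fun a _ => ?_
    rw [sum_comm]
    exact sum_congr rfl fun l _ => sum_congr rfl fun k _ => by ring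
  rw [h1, h2, phi_eq]
  simp only [← sum_add_distrib, ← mul_add, S_cyc, mul_zero, sum_const_zero]

lemma Sx_anti (x : ι → A) : m.J * ∑ a, x a • m.S a = -((∑ a, x a • m.S a) * m.J) := by
  simp only [Matrix.mul_sum, Matrix.sum_mul, Matrix.mul_smul, Matrix.smul_mul, J_S, smul_neg,
    sum_neg_distrib]

lemma phi_J (x y z : ι → A) : m.phi x (m.J *ᵥ y) z = m.phi x y (m.J *ᵥ z) := by
  rw [phi, phi, mulVec_mulVec, dotProduct_mulVec, vecMul_mulVec, ← dotProduct_mulVec,
    ← Matrix.mul_assoc, Jt_g, Matrix.neg_mul, Matrix.mul_assoc, Sx_anti, Matrix.mul_neg, neg_neg,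
    Matrix.mul_assoc]

lemma phi_JJ (x y z : ι → A) : m.phi x (m.J *ᵥ y) (m.J *ᵥ z) = -m.phi x y z := by
  rw [phi_J, mulVec_mulVec, m.JJ, neg_mulVec, one_mulVec, phi, phi, mulVec_neg, dotProduct_neg]

lemma phi_J1 (x y z : ι → A) : m.phi (m.J *ᵥ x) (m.J *ᵥ y) z = -m.phi x y z := by
  apply eq_of_two
  have c0 := m.phi_cyc x y z
  have c1 := m.phi_cyc x (m.J *ᵥ y) (m.J *ᵥ z)
  have c2 := m.phi_cyc (m.J *ᵥ x) y (m.J *ᵥ z)
  have c3 := m.phi_cyc (m.J *ᵥ x) (m.J *ᵥ y) z
  rw [phi_JJ, ← m.phi_J (m.J *ᵥ z) x y] at c1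
  rw [phi_JJ, ← m.phi_J (m.J *ᵥ x) y z] at c2
  rw [phi_JJ, ← m.phi_J (m.J *ᵥ y) z x] at c3
  linear_combination c2 + c3 - c1 + c0

/-- The derivative of J along J x. -/
lemma S_Jx (x : ι → A) : ∑ a, (m.J *ᵥ x) a • m.S a = -(m.J * ∑ a, x a • m.S a) := by
  refine m.g_cancel ?_
  ext l k
  have h := m.phi_J1 x (m.J *ᵥ Pi.single l 1) (Pi.single k 1)
  rw [mulVec_mulVec, m.JJ, neg_mulVec, one_mulVec, phi_J, phi, phi, neg_dotProduct, neg_inj,
    mulVec_mulVec] at h
  rw [Sx_anti, neg_neg, ← Matrix.mul_assoc]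
  simpa using h

lemma S_J (i : ι) : ∑ a, m.J a i • m.S a = -(m.J * m.S i) := by
  have h := m.S_Jx (Pi.single i 1)
  simpa [Pi.single_apply] using h

lemma S_tr (k : ι) : ∑ p, m.S p p k = 0 := by
  have key : ∀ z : ι → A, ∑ p, ((m.S p) *ᵥ z) p = 0 := by
    intro z
    refine eq_zero_of_add_self ?_
    have h1 : ∑ i, ((m.J * ∑ a, m.J a i • m.S a) *ᵥ z) i = ∑ i, (m.S i *ᵥ z) i := by
      simp only [S_J, Matrix.mul_neg, JJ_mul, neg_neg]
    have h2 : ∑ i, ((m.J * ∑ a, m.J a i • m.S a) *ᵥ z) i = -∑ a, (m.S a *ᵥ z) a := by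
      simp only [Matrix.mul_sum, Matrix.mul_smul, sum_mulVec, smul_mulVec, Finset.sum_apply,
        Pi.smul_apply, smul_eq_mul]
      rw [sum_comm, ← sum_neg_distrib]
      refine sum_congr rfl fun a _ => ?_
      have : (m.J *ᵥ ((m.J * m.S a) *ᵥ z)) a = -(m.S a *ᵥ z) a := by
        rw [mulVec_mulVec, JJ_mul, neg_mulVec]; rfl
      rw [← this]; rfl
    linear_combination h2 - h1
  simpa [mulVec, dotProduct, Pi.single_apply] using key (Pi.single k 1)

lemma DS_tr (l k : ι) : ∑ p, m.DS l p p k = 0 := by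
  have h := congrArg (m.d l) (m.S_tr k)
  simp only [map_sum, map_zero] at h
  simp only [DS, Met.cov2, Met.cov, acov, Matrix.sub_apply, Matrix.add_apply, md_apply,
    Matrix.mul_apply, Matrix.sum_apply, Matrix.smul_apply, smul_eq_mul, sum_sub_distrib,
    sum_add_distrib, h]
  rw [sum_comm (f := fun p a => m.Γ l p a * m.S p a k),
    sum_comm (f := fun p a => m.S p p a * m.Γ l a k)]
  simp only [← sum_mul, S_tr]
  simp

lemma DS_sk (p q : ι) : m.Sk (m.DS p q) := by
  unfold Met.Sk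
  ext l k
  have s := fun a => (m.S_sk a).apply
  rw [transpose_apply, Matrix.neg_apply, DS, m.g_cov2, m.g_cov2]
  simp only [s q k, s q _ l, s _ k l, map_neg, mul_neg, sum_neg_distrib]
  ring

lemma DS_cyc (p q l k : ι) :
    (m.g * m.DS p q) l k + (m.g * m.DS p l) k q + (m.g * m.DS p k) q l = 0 := by
  simp only [DS, m.g_cov2]
  have h := congrArg (m.d p) (m.S_cyc q l k)
  simp only [map_add, map_zero] at h
  have e1 : ∑ a, m.Γ p a l * ((m.g * m.S q) a k + (m.g * m.S a) k q + (m.g * m.S k) q a) = 0 := by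
    simp only [S_cyc, mul_zero, sum_const_zero]
  have e2 : ∑ a, m.Γ p a k * ((m.g * m.S q) l a + (m.g * m.S l) a q + (m.g * m.S a) q l) = 0 := by
    simp only [S_cyc, mul_zero, sum_const_zero]
  have e3 : ∑ a, m.Γ p a q * ((m.g * m.S a) l k + (m.g * m.S l) k a + (m.g * m.S k) a l) = 0 := by
    simp only [S_cyc, mul_zero, sum_const_zero]
  simp only [mul_add, sum_add_distrib] at e1 e2 e3
  linear_combination h - e1 - e2 - e3

/-- Rough Laplacian of J. -/
def Lap : Matrix ι ι A := ∑ p, ∑ q, m.gi p q • m.DS p q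

/-- The contracted square of DJ. -/
def Sig : Matrix ι ι A := ∑ p, ∑ q, m.gi p q • (m.S p * m.S q)

/-- The star Ricci form, times two. -/
def rho : Matrix ι ι A := Matrix.of fun i j => trace (m.J * m.R i j)

/-- A quadratic expression in DJ. -/
def tau : Matrix ι ι A := Matrix.of fun i j => trace (m.J * m.S i * m.S j)

lemma weitz : m.g * m.Lap = m.rho + m.Ric * m.J - m.Jᵀ * m.Ric := by
  ext l k
  have z : ∀ l k, ∑ p, ∑ q, m.gi p q * (m.g * m.DS l p) q k = 0 := by
    intro l k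
    rw [← m.DS_tr l k]
    exact sum_congr rfl fun p _ => by rw [← Matrix.mul_apply, m.gi_g_mul]
  have r : ∀ p l, m.DS p l = m.DS l p + (m.R p l * m.J - m.J * m.R p l) := fun p l => by
    rw [← m.ricci_id p l m.J]; exact (add_sub_cancel _ _).symm
  have j : ∀ l k, ∑ p, ∑ q, m.gi p q * (m.g * m.J * m.R p l) k q = (m.Jᵀ * m.Ric) k l := by
    intro l k
    rw [← m.g_Rc, ← Matrix.mul_assoc, Jt_g, Matrix.neg_mul, Matrix.neg_apply,
      Matrix.mul_apply (M := m.g * m.J), ← sum_neg_distrib]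
    simp only [Matrix.mul_apply (M := m.g * m.J), mul_sum, ← mul_neg, ← m.contr_R]
    rw [sum_comm]
    refine (sum_congr rfl fun a _ => sum_comm).trans ?_
    rw [sum_comm]
    refine sum_congr rfl fun p _ => ?_
    rw [sum_comm]
    exact sum_congr rfl fun q _ => sum_congr rfl fun a _ => by ring
  have e : ∀ p q, (m.g * m.DS p q) l k = (m.g * m.DS l p) q k - (m.g * m.DS k p) q l +
      ((m.g * m.R p k * m.J) l q - (m.g * m.R p l * m.J) k q) +
      ((m.g * m.J * m.R p l) k q - (m.g * m.J * m.R p k) l q) := by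
    intro p q
    have c := m.DS_cyc p q l k
    rw [(m.DS_sk p k).apply q l, r p l, r p k] at c
    simp only [Matrix.mul_add, Matrix.mul_sub, Matrix.add_apply, Matrix.sub_apply,
      ← Matrix.mul_assoc] at c
    rw [(m.DS_sk l p).apply k q, (m.DS_sk k p).apply l q] at c
    linear_combination c
  have t : ∑ p, ∑ q, m.gi p q * ((m.g * m.R p k * m.J) l q - (m.g * m.R p l * m.J) k q) =
      m.rho l k := by
    have h1 : m.rho l k = ∑ a, ∑ p, (m.J * m.gi) a p * m.Rm l k p a := by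
      have : m.J * m.R l k = m.J * m.gi * (m.g * m.R l k) := by rw [Matrix.mul_assoc, m.gi_g_mul]
      rw [rho, of_apply, this]; rfl
    rw [h1, sum_comm (f := fun a p => (m.J * m.gi) a p * m.Rm l k p a)]
    refine sum_congr rfl fun p _ => ?_
    simp only [Matrix.mul_apply (N := m.J), Matrix.mul_apply (M := m.J), ← sum_sub_distrib,
      mul_sum, sum_mul]
    rw [sum_comm]
    refine sum_congr rfl fun a _ => sum_congr rfl fun q _ => ?_
    have b := m.Rm_b p l k a
    rw [m.Rm_s2 p l a k, m.Rm_s2 l k a p, m.Rm_s1 k p a l, m.Rm_s2 p k a l] at b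
    change m.gi p q * (m.Rm p k l a * _ - m.Rm p l k a * _) = _
    rw [m.gi_sw q p]
    linear_combination m.gi p q * m.J a q * b
  have f : (m.g * m.Lap) l k = ∑ p, ∑ q, m.gi p q * (m.g * m.DS p q) l k := by
    simp only [Lap, Matrix.mul_sum, Matrix.mul_smul, Matrix.sum_apply, Matrix.smul_apply,
      smul_eq_mul]
  have u : (m.Ric * m.J) l k = (m.Jᵀ * m.Ric) k l := by
    rw [← transpose_apply (m.Ric * m.J), transpose_mul, m.Ric_symm]
  rw [f, Matrix.sub_apply, Matrix.add_apply, u, ← t, ← j l k, ← j k l]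
  have z1 := z l k; have z2 := z k l
  simp only [e, mul_add, mul_sub, sum_add_distrib, sum_sub_distrib]
  linear_combination z1 - z2

lemma Sig_sw : ∑ p, ∑ q, m.gi p q • (m.S q * m.S p) = m.Sig := by
  rw [Sig, sum_comm]
  exact sum_congr rfl fun p _ => sum_congr rfl fun q _ => by rw [m.gi_sw]

lemma J_Lap : m.J * m.Lap + m.Lap * m.J = -(m.Sig + m.Sig) := by
  have h : ∀ p q, m.J * m.DS p q + m.DS p q * m.J = -(m.S p * m.S q + m.S q * m.S p) := by
    intro p q
    have h1 := congrArg (acov m.d m.Γ p) (m.J_S q)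
    rw [acov_neg, acov_mul, acov_mul] at h1
    have h2 := m.Sx_anti fun k => m.Γ p k q
    change m.S p * m.S q + m.J * m.cov p (m.S q) = -(m.cov p (m.S q) * m.J + m.S q * m.S p) at h1
    rw [DS, Met.cov2, Matrix.mul_sub, Matrix.sub_mul, h2, eq_sub_of_add_eq' h1]
    abel
  conv_rhs => rw [← Sig_sw]; enter [1, 1]; rw [Sig_sw, Sig]
  simp only [Lap, Matrix.mul_sum, Matrix.sum_mul, Matrix.mul_smul, Matrix.smul_mul,
    ← sum_add_distrib, ← smul_add, h, smul_neg, sum_neg_distrib]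

lemma J_Sig : m.J * m.Sig = m.Sig * m.J := by
  simp only [Sig, Matrix.mul_sum, Matrix.sum_mul, Matrix.mul_smul, Matrix.smul_mul, J_S_mul, J_S,
    Matrix.mul_neg, neg_neg, Matrix.mul_assoc]

/-- The canonical connection. -/
def Lam (i : ι) : Matrix ι ι A := m.Γ i - (1 / 2 : ℝ) • (m.J * m.S i)

lemma Lam_J (i : ι) : acov m.d m.Lam i m.J = 0 := by
  have h : acov m.d m.Lam i m.J =
      m.S i - (1 / 2 : ℝ) • (m.J * m.S i * m.J - m.J * (m.J * m.S i)) := by
    simp only [S, Met.cov, acov, Lam, Matrix.sub_mul, Matrix.mul_sub, Matrix.smul_mul,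
      Matrix.mul_smul, smul_sub]
    abel
  rw [h, JJ_mul, J_S, Matrix.neg_mul, Matrix.mul_assoc, m.JJ]
  ext; simp only [Matrix.mul_neg, Matrix.mul_one, neg_neg, sub_neg_eq_add, Matrix.sub_apply,
    Matrix.smul_apply, Matrix.add_apply, half_add, sub_self, Matrix.zero_apply]

/-- The form P. -/
def Pf : Matrix ι ι A := Matrix.of fun i j => trace (m.J * acurv m.d m.Lam i j)

lemma P_eq : m.Pf = m.rho - (1 / 2 : ℝ) • m.tau := by
  ext i j
  have h1 : acurv m.d m.Lam i j = m.R i j -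
      (1 / 2 : ℝ) • (m.cov i (m.J * m.S j) - m.cov j (m.J * m.S i)) +
      (1 / 4 : ℝ) • (m.J * m.S i * (m.J * m.S j) - m.J * m.S j * (m.J * m.S i)) := by
    simp only [Met.R, acurv, Lam, Met.cov, acov, md_sub, md_rsmul, Matrix.mul_sub, Matrix.sub_mul,
      Matrix.smul_mul, Matrix.mul_smul]
    module
  have h2 : ∀ i j, m.J * m.S i * (m.J * m.S j) = m.S i * m.S j := fun i j => by
    rw [J_S, Matrix.neg_mul, Matrix.mul_assoc, JJ_mul, Matrix.mul_neg, neg_neg]
  have h3 : ∀ i j, trace (m.J * m.cov i (m.J * m.S j)) = trace (m.J * m.S i * m.S j) := by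
    intro i j
    rw [Met.cov, acov_mul, Matrix.mul_add, JJ_mul, trace_add, trace_neg, trace_acov,
      (m.S_sk j).tr, map_zero, neg_zero, add_zero, Matrix.mul_assoc]; rfl
  have h4 : trace (m.J * m.S j * m.S i) = -trace (m.J * m.S i * m.S j) := by
    rw [J_S, Matrix.neg_mul, trace_neg, Matrix.mul_assoc, trace_mul_comm]
  simp only [Pf, rho, tau, of_apply, Matrix.sub_apply, Matrix.smul_apply, h1, h2, Matrix.mul_add,
    Matrix.mul_sub, Matrix.mul_smul, trace_add, trace_sub, trace_smul, h3, ← Matrix.mul_assoc, h4]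
  module

/-- The quadratic term in the evolution of J. -/
def NN : Matrix ι ι A := ∑ p, ∑ q, m.gi p q • (m.gi * (m.S q)ᵀ * m.g * m.S p * m.J)

lemma NN_eq : m.NN = -(m.J * m.Sig) := by
  rw [J_Sig, ← Sig_sw, Matrix.sum_mul, ← sum_neg_distrib, NN]
  refine sum_congr rfl fun p _ => ?_
  rw [Matrix.sum_mul, ← sum_neg_distrib]
  refine sum_congr rfl fun q _ => ?_
  rw [Matrix.mul_assoc m.gi, (m.S_sk q).tg, Matrix.mul_neg, m.gi_g_mul, Matrix.smul_mul,
    Matrix.neg_mul, Matrix.neg_mul, smul_neg]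

/-- Right hand side of the evolution of J. -/
def Jrhs : Matrix ι ι A := m.Lap + m.NN + (m.Rc * m.J - m.J * m.Rc)

/-- The quadratic term in the evolution of g. -/
def Q : Matrix ι ι A := m.g * m.Sig + (1 / 2 : ℝ) • (m.tau * m.J)

/-- The flow equations with respect to a derivation D. -/
structure Flow (D : Derivation ℝ A A) : Prop where
  comm : ∀ i x, D (m.d i x) = m.d i (D x)
  om : md D m.om = -m.Pf
  J : md D m.J = m.Jrhs

lemma Flow.g {m : Geo ι A} {D : Derivation ℝ A A} (h : m.Flow D) :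
    md D m.g = m.Q - (m.Ric + m.Ric) := by
  have h0 : m.g = m.om * m.J := m.herm.symm
  have h1 : md D m.g = md D m.om * m.J + m.om * md D m.J := by rw [← md_mul, ← h0]
  have w : m.rho = m.g * m.Lap - m.Ric * m.J + m.Jᵀ * m.Ric := by rw [weitz]; abel
  have h2 : m.g * m.J * m.Lap = -(m.g * m.Sig + m.g * m.Sig) - m.g * m.Lap * m.J := by
    rw [eq_sub_iff_add_eq, Matrix.mul_assoc, Matrix.mul_assoc, ← Matrix.mul_add, J_Lap,
      Matrix.mul_neg, Matrix.mul_add]
  have h3 : m.g * m.J * m.NN = m.g * m.Sig := by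
    rw [NN_eq, Matrix.mul_assoc, Matrix.mul_neg m.J, JJ_mul, neg_neg]
  have h4 : m.g * m.J * (m.Rc * m.J) = -(m.Jᵀ * m.Ric * m.J) := by
    rw [← m.g_Rc, ← Matrix.mul_assoc m.Jᵀ, Jt_g]
    simp only [Matrix.neg_mul, neg_neg, Matrix.mul_assoc]
  have h5 : m.g * m.J * (m.J * m.Rc) = -m.Ric := by
    rw [Matrix.mul_assoc, JJ_mul, Matrix.mul_neg, m.g_Rc]
  have h6 : m.Ric * m.J * m.J = -m.Ric := by
    rw [Matrix.mul_assoc, m.JJ, Matrix.mul_neg, Matrix.mul_one]
  rw [h1, h.om, h.J, P_eq, Geo.om, Jt_g, Jrhs, w, Q]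
  simp only [Matrix.neg_mul, Matrix.sub_mul, Matrix.add_mul, Matrix.mul_add, Matrix.mul_sub,
    Matrix.smul_mul, h2, h3, h4, h5, h6]
  abel

end Geo

end

end Pool.Agent.P.MP_8fdf05_gt
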