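import Pool.Agent.P.MP_8fdf05_gt.Defs2
import Pool.Agent.P.MP_8fdf05_gt.Geo
import Pool.Agent.P.MP_8fdf05_gt.Energy

/-! From fields in a chart to an almost Kaehler structure over the ring of smooth functions. -/

open Matrix Set
open scoped ContDiff

namespace Pool.Agent.P.MP_8fdf05_gt

open Sm

variable {ι : Type} [Fintype ι] [DecidableEq ι] {T : ℝ} {U : Set (ι → ℝ)}

/-- A matrix of smooth functions represents a time dependent field. -/
def Rep {hU : IsOpen U} (a : Matrix ι ι (Sm (Dom.cyl T U hU))) (F : ℝ → Fld ι) : Prop :=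
  ∀ x : (Dom.cyl T U hU).S, a.map (ev x) = F x.1.1 x.1.2

lemma Rep.pd {hU : IsOpen U} {a : Matrix ι ι (Sm (Dom.cyl T U hU))} {F : ℝ → Fld ι}
    (h : Rep a F) (i : ι) : Rep (md (dx i) a) fun t => pd i (F t) := by
  intro x
  ext p q
  obtain ⟨L, hL, hv⟩ := (a p q).hasFDerivAt_space x
  have he : (fun y => F x.1.1 y p q) =ᶠ[nhds x.1.2] fun y => (a p q).fn (x.1.1, y) := by
    filter_upwards [hU.mem_nhds x.2.2] with y hy
    rw [fn_apply _ (show (x.1.1, y) ∈ (Dom.cyl T U hU).S from ⟨x.2.1, hy⟩)]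
    exact (congrFun (congrFun (h ⟨(x.1.1, y), x.2.1, hy⟩) p) q).symm
  simp only [Pool.Agent.P.MP_8fdf05_gt.pd, map_apply, md_apply, of_apply]
  rw [(hL.congr_of_eventuallyEq he).fderiv, hv]

namespace Rep

variable {hU : IsOpen U} {a b : Matrix ι ι (Sm (Dom.cyl T U hU))} {F G : ℝ → Fld ι}

omit [DecidableEq ι] in
lemma ent (h : Rep a F) (x : (Dom.cyl T U hU).S) (p q : ι) : ev x (a p q) = F x.1.1 x.1.2 p q :=
  congrFun (congrFun (h x) p) q

omit [DecidableEq ι] in
lemma of_ent (h : ∀ x p q, ev x (a p q) = F x.1.1 x.1.2 p q) : Rep a F := fun x => by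
  ext p q
  exact h x p q

omit [DecidableEq ι] in
lemma unique (h : Rep a F) (h' : Rep b G)
    (e : ∀ t ∈ Ico 0 T, ∀ z ∈ U, F t z = G t z) : a = b := by
  ext p q x
  rw [h.ent, h'.ent, e _ x.2.1 _ x.2.2]

omit [DecidableEq ι] in
lemma eq (h : Rep a F) (h' : Rep b G) (e : a = b) {t : ℝ} (ht : t ∈ Ico 0 T) {z : ι → ℝ}
    (hz : z ∈ U) : F t z = G t z :=
  (h ⟨(t, z), ht, hz⟩).symm.trans (e ▸ h' ⟨(t, z), ht, hz⟩)

omit [DecidableEq ι] in
lemma add (h : Rep a F) (h' : Rep b G) : Rep (a + b) fun t z => F t z + G t z :=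
  of_ent fun x p q => by simp [h.ent, h'.ent]

omit [DecidableEq ι] in
lemma sub (h : Rep a F) (h' : Rep b G) : Rep (a - b) fun t z => F t z - G t z :=
  of_ent fun x p q => by simp [h.ent, h'.ent]

omit [DecidableEq ι] in
lemma neg (h : Rep a F) : Rep (-a) fun t z => -F t z := of_ent fun x p q => by simp [h.ent]

omit [DecidableEq ι] in
lemma mul (h : Rep a F) (h' : Rep b G) : Rep (a * b) fun t z => F t z * G t z :=
  of_ent fun x p q => by simp [Matrix.mul_apply, h.ent, h'.ent]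

omit [DecidableEq ι] in
lemma transpose (h : Rep a F) : Rep aᵀ fun t z => (F t z)ᵀ := of_ent fun x p q => h.ent x q p

omit [DecidableEq ι] in
lemma rsmul (h : Rep a F) (c : ℝ) : Rep (c • a) fun t z => c • F t z :=
  of_ent fun x p q => by simp [h.ent]

omit [DecidableEq ι] in
lemma smul (h : Rep a F) (k l : ι) (h' : Rep b G) :
    Rep (a k l • b) fun t z => F t z k l • G t z :=
  of_ent fun x p q => by simp [h.ent, h'.ent]

omit [DecidableEq ι] in
lemma sum {a : ι → Matrix ι ι (Sm (Dom.cyl T U hU))} {F : ι → ℝ → Fld ι}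
    (h : ∀ k, Rep (a k) (F k)) : Rep (∑ k, a k) fun t z => ∑ k, F k t z :=
  of_ent fun x p q => by simp [Matrix.sum_apply, (h _).ent]

omit [DecidableEq ι] in
lemma zero : Rep (0 : Matrix ι ι (Sm (Dom.cyl T U hU))) fun _ _ => 0 :=
  of_ent fun x p q => by simp

lemma one : Rep (1 : Matrix ι ι (Sm (Dom.cyl T U hU))) fun _ _ => 1 :=
  of_ent fun x p q => by
    rw [Matrix.one_apply, Matrix.one_apply]
    split_ifs <;> simp

omit [DecidableEq ι] in
lemma trace (h : Rep a F) (x : (Dom.cyl T U hU).S) :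
    ev x (Matrix.trace a) = Matrix.trace (F x.1.1 x.1.2) := by
  simp [Matrix.trace, h.ent]

lemma acov {Γ : ι → Matrix ι ι (Sm (Dom.cyl T U hU))} {Γ' : ℝ → ι → Fld ι}
    (hΓ : ∀ i, Rep (Γ i) fun t => Γ' t i) (i : ι) (h : Rep a F) :
    Rep (acov dx Γ i a) fun t => cov (Γ' t) i (F t) :=
  ((h.pd i).add ((hΓ i).mul h)).sub (h.mul (hΓ i))

lemma acurv {Γ : ι → Matrix ι ι (Sm (Dom.cyl T U hU))} {Γ' : ℝ → ι → Fld ι}
    (hΓ : ∀ i, Rep (Γ i) fun t => Γ' t i) (i j : ι) :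
    Rep (acurv dx Γ i j) fun t => curv (Γ' t) i j :=
  ((((hΓ j).pd i).sub ((hΓ i).pd j)).add ((hΓ i).mul (hΓ j))).sub ((hΓ j).mul (hΓ i))

omit [DecidableEq ι] in
lemma md_dt (h : Rep a F) (h' : Rep b G)
    (e : ∀ t ∈ Ioo 0 T, ∀ z ∈ U, ∀ p q, HasDerivAt (fun s => F s z p q) (G t z p q) t) :
    md dt a = b := by
  refine Matrix.ext fun p q => Sm.ext_pos (hU := hU) fun x hx => ?_
  rw [h'.ent]
  refine (((a p q).hasDerivAt_time x hx).congr_of_eventuallyEq ?_).unique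
    (e _ ⟨hx, x.2.1.2⟩ _ x.2.2 p q)
  filter_upwards [Ioo_mem_nhds hx x.2.1.2] with s hs
  rw [fn_apply _ (show (s, x.1.2) ∈ (Dom.cyl T U hU).S from ⟨⟨hs.1.le, hs.2⟩, x.2.2⟩)]
  exact (h.ent ⟨(s, x.1.2), ⟨hs.1.le, hs.2⟩, x.2.2⟩ p q).symm

end Rep

namespace Bridge

lemma pd_neg (i : ι) (A : Fld ι) : pd i (-A) = -pd i A := by
  funext z
  ext a b
  simp [pd]

lemma cov_neg (Γ : ι → Fld ι) (i : ι) (A : Fld ι) : cov Γ i (-A) = -cov Γ i A := by
  funext z
  simp only [cov, pd_neg, Pi.neg_apply, Matrix.mul_neg, Matrix.neg_mul]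
  abel

lemma DJ_neg (g J : Fld ι) (i : ι) : DJ g (-J) i = -DJ g J i := cov_neg _ _ _

lemma chern_neg (g J : Fld ι) : chern g (-J) = chern g J := by
  funext i z
  simp [chern, DJ_neg]

omit [DecidableEq ι] in
lemma om_neg (g J : Fld ι) : om g (-J) = -om g J := by
  funext z
  simp [om]

lemma Pform_neg (J : Fld ι) (Λ : ι → Fld ι) : Pform (-J) Λ = -Pform J Λ := by
  funext z
  ext i j
  simp [Pform]

lemma Jrhs_neg (g J : Fld ι) : Jrhs g (-J) = -Jrhs g J := by
  funext z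
  have h : ∀ p q, DDJ g (-J) p q z = -DDJ g J p q z := fun p q => by
    simp only [DDJ, DJ_neg, cov_neg, Pi.neg_apply, smul_neg, Finset.sum_neg_distrib]
    abel
  simp only [Jrhs, h, DJ_neg, Pi.neg_apply, transpose_neg, Matrix.mul_neg, Matrix.neg_mul, smul_neg,
    neg_neg, Finset.sum_neg_distrib]
  abel

omit [Fintype ι] [DecidableEq ι] in
lemma neg_one_fld (J : Fld ι) : (fun z => (-1 : ℝ) • J z) = -J := by
  funext z
  simp

end Bridge

open Bridge

/-- A smooth family of almost Kaehler structures in a chart. -/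
structure ChartAK (T : ℝ) (U : Set (ι → ℝ)) (g J : ℝ → Fld ι) : Prop where
  sg : ∀ a b, ContDiffOn ℝ ∞ (fun x : ℝ × (ι → ℝ) => g x.1 x.2 a b) (Ico 0 T ×ˢ U)
  sJ : ∀ a b, ContDiffOn ℝ ∞ (fun x : ℝ × (ι → ℝ) => J x.1 x.2 a b) (Ico 0 T ×ˢ U)
  pos : ∀ t ∈ Ico 0 T, ∀ z ∈ U, (g t z).PosDef
  sq : ∀ t ∈ Ico 0 T, ∀ z ∈ U, J t z * J t z = -1
  herm : ∀ t ∈ Ico 0 T, ∀ z ∈ U, (J t z)ᵀ * g t z * J t z = g t z
  closed : ∀ t ∈ Ico 0 T, ∀ z ∈ U, Closed (om (g t) (J t)) z

/-- The flow equations in a chart. -/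
def ChartFlow (T : ℝ) (U : Set (ι → ℝ)) (g J : ℝ → Fld ι) : Prop :=
  ∀ t ∈ Ioo 0 T, ∀ z ∈ U, ∀ a b,
    HasDerivAt (fun s => om (g s) (J s) z a b) (-Pform (J t) (chern (g t) (J t)) z a b) t ∧
    HasDerivAt (fun s => J s z a b) (Jrhs (g t) (J t) z a b) t

variable {g J : ℝ → Fld ι}

lemma ChartAK.mono (h : ChartAK T U g J) {V : Set (ι → ℝ)} (hV : V ⊆ U) : ChartAK T V g J :=
  ⟨fun a b => (h.sg a b).mono (prod_mono Subset.rfl hV),
    fun a b => (h.sJ a b).mono (prod_mono Subset.rfl hV), fun t ht z hz => h.pos t ht z (hV hz),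
    fun t ht z hz => h.sq t ht z (hV hz), fun t ht z hz => h.herm t ht z (hV hz),
    fun t ht z hz => h.closed t ht z (hV hz)⟩

lemma ChartAK.sign (h : ChartAK T U g J) {s : ℝ} (hs : s * s = 1) :
    ChartAK T U g fun t z => s • J t z := by
  rcases mul_self_eq_one_iff.1 hs with rfl | rfl
  · simpa using h
  · rw [show (fun t z => (-1 : ℝ) • J t z) = fun t => -J t from funext fun t => neg_one_fld _]
    refine ⟨h.sg, fun a b => (h.sJ a b).neg, h.pos, fun t ht z hz => by simpa using h.sq t ht z hz,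
      fun t ht z hz => by simpa using h.herm t ht z hz, fun t ht z hz i j k => ?_⟩
    have := h.closed t ht z hz i j k
    simp only [om_neg, pd_neg, Pi.neg_apply, Matrix.neg_apply]
    linarith

lemma ChartFlow.sign (h : ChartFlow T U g J) {s : ℝ} (hs : s * s = 1) :
    ChartFlow T U g fun t z => s • J t z := by
  rcases mul_self_eq_one_iff.1 hs with rfl | rfl
  · simpa using h
  · rw [show (fun t z => (-1 : ℝ) • J t z) = fun t => -J t from funext fun t => neg_one_fld _]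
    intro t ht z hz a b
    simp only [om_neg, chern_neg, Pform_neg, Jrhs_neg, Pi.neg_apply, Matrix.neg_apply]
    exact ⟨(h t ht z hz a b).1.neg, (h t ht z hz a b).2.neg⟩

/-- P changes sign with J (this holds for arbitrary fields). -/
lemma Pform_sign (g J : Fld ι) {s : ℝ} (hs : s * s = 1) :
    Pform (fun z => s • J z) (chern g fun z => s • J z) = fun z => s • Pform J (chern g J) z := by
  rcases mul_self_eq_one_iff.1 hs with rfl | rfl
  · simp
  · simp only [neg_one_fld, chern_neg, Pform_neg]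

/-- The structure over the ring of smooth functions. -/
theorem ChartAK.geo (h : ChartAK T U g J) (hU : IsOpen U) :
    ∃ m : Geo ι (Sm (Dom.cyl T U hU)), m.d = dx ∧ Rep m.g g ∧ Rep m.J J ∧
      Rep m.gi (fun t z => (g t z)⁻¹) ∧ (∀ i, Rep (m.Γ i) fun t => chr (g t) i) ∧
      (∀ i, Rep (m.S i) fun t => DJ (g t) (J t) i) ∧
      (∀ i, Rep (m.Lam i) fun t => chern (g t) (J t) i) ∧
      Rep m.om (fun t => om (g t) (J t)) ∧
      Rep m.Pf (fun t => Pform (J t) (chern (g t) (J t))) ∧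
      (ChartFlow T U g J → m.Flow dt) := by
  let g0 : Matrix ι ι (Sm (Dom.cyl T U hU)) := Matrix.of fun a b => Sm.mk _ (h.sg a b)
  let J0 : Matrix ι ι (Sm (Dom.cyl T U hU)) := Matrix.of fun a b => Sm.mk _ (h.sJ a b)
  have rg : Rep g0 g := Rep.of_ent fun _ _ _ => rfl
  have rJ : Rep J0 J := Rep.of_ent fun _ _ _ => rfl
  have hu : IsUnit g0.det := Sm.isUnit _ fun x => by
    rw [AlgHom.map_det, AlgHom.mapMatrix_apply, rg x]
    exact (h.pos _ x.2.1 _ x.2.2).det_pos.ne'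
  have ri : Rep g0⁻¹ fun t z => (g t z)⁻¹ := fun x => by
    refine (inv_eq_right_inv ?_).symm
    rw [← rg x, ← Matrix.map_mul, mul_nonsing_inv _ hu]
    exact Rep.one x
  have ro : Rep (J0ᵀ * g0) fun t => om (g t) (J t) := rJ.transpose.mul rg
  let m : Geo ι (Sm (Dom.cyl T U hU)) :=
    { d := dx
      comm := fun _ _ => der_comm _ _
      g := g0
      gi := g0⁻¹
      g_gi := mul_nonsing_inv _ hu
      symm := rg.transpose.unique rg fun t ht z hz => by
        simpa using (h.pos t ht z hz).isHermitian.eq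
      J := J0
      JJ := (rJ.mul rJ).unique Rep.one.neg h.sq
      herm := (ro.mul rJ).unique rg h.herm
      closed := fun i j k => Sm.ext fun x => by
        rw [map_add, map_add, map_zero]
        exact (congrArg₂ _ (congrArg₂ _ ((ro.pd i).ent x j k) ((ro.pd j).ent x k i))
          ((ro.pd k).ent x i j)).trans (h.closed _ x.2.1 _ x.2.2 i j k) }
  have rΓ : ∀ i, Rep (m.Γ i) fun t => chr (g t) i := fun i => ri.mul (Rep.of_ent fun x l j => by
    rw [of_apply, of_apply, map_smul, map_sub, map_add, smul_eq_mul, ← (rg.pd i).ent x l j,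
      ← (rg.pd j).ent x l i, ← (rg.pd l).ent x i j]
    rfl)
  have rS : ∀ i, Rep (m.S i) fun t => DJ (g t) (J t) i := fun i => Rep.acov rΓ i rJ
  have rL : ∀ i, Rep (m.Lam i) fun t => chern (g t) (J t) i := fun i =>
    (rΓ i).sub ((rJ.mul (rS i)).rsmul _)
  have rP : Rep m.Pf fun t => Pform (J t) (chern (g t) (J t)) := Rep.of_ent fun x i j =>
    (rJ.mul (Rep.acurv rL i j)).trace x
  have rR : Rep m.Rc fun t => Rc (g t) := ri.mul (Rep.of_ent fun x j k => by
    rw [Met.Ric, of_apply, of_apply, map_sum]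
    exact Finset.sum_congr rfl fun i _ => (Rep.acurv rΓ i j).ent x i k)
  have rD : ∀ p q, Rep (m.DS p q) fun t => DDJ (g t) (J t) p q := fun p q =>
    (Rep.acov rΓ p (rS q)).sub (Rep.sum fun k => (rΓ p).smul k q (rS k))
  have rF : Rep m.Jrhs fun t => Jrhs (g t) (J t) :=
    ((Rep.sum fun p => Rep.sum fun q => ri.smul p q (rD p q)).add
      (Rep.sum fun p => Rep.sum fun q => ri.smul p q
        ((((ri.mul (rS q).transpose).mul rg).mul (rS p)).mul rJ))).add
      ((rR.mul rJ).sub (rJ.mul rR))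
  exact ⟨m, rfl, rg, rJ, ri, rΓ, rS, rL, ro, rP, fun hf => ⟨fun _ => der_comm _ _,
    ro.md_dt rP.neg fun t ht z hz p q => (hf t ht z hz p q).1,
    rJ.md_dt rF fun t ht z hz p q => (hf t ht z hz p q).2⟩⟩

/-- A smooth family of almost Kaehler structures read in a chart. -/
lemma chartAK_of {M : Type} [TopologicalSpace M] [ChartedSpace (ι → ℝ) M]
    {g J : ℝ → M → Matrix ι ι ℝ} (hak : ∀ t ∈ Ico 0 T, IsAK (g t) (J t))
    {e : OpenPartialHomeomorph M (ι → ℝ)} (hs : ∀ a b,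
      ContDiffOn ℝ ∞ (fun x : ℝ × (ι → ℝ) => form2 (g x.1) e x.2 a b) (Ico 0 T ×ˢ e.target) ∧
      ContDiffOn ℝ ∞ (fun x : ℝ × (ι → ℝ) => endo (J x.1) e x.2 a b) (Ico 0 T ×ˢ e.target))
    (he : e ∈ atlas (ι → ℝ) M) (hj : ∀ z ∈ e.target, (jac e z).det ≠ 0) :
    ChartAK T e.target (fun t => form2 (g t) e) (fun t => endo (J t) e) := by
  refine ⟨fun a b => (hs a b).1, fun a b => (hs a b).2, fun t ht z hz => ?_,
    fun t ht z hz => ?_, fun t ht z hz => ?_, fun t ht => (hak t ht).closed e he⟩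
  · have := ((hak t ht).pos (e.symm z)).conjTranspose_mul_mul_same (B := jac e z)
      (mulVec_injective_of_isUnit ((isUnit_iff_isUnit_det _).2 (hj z hz).isUnit))
    simpa [form2] using this
  · have hu := (hj z hz).isUnit
    simp only [endo, Matrix.mul_assoc]
    rw [mul_nonsing_inv_cancel_left _ _ hu, ← Matrix.mul_assoc (J t _), (hak t ht).sq]
    simp [nonsing_inv_mul _ hu]
  · have hu := (hj z hz).isUnit
    have h1 : ∀ X : Matrix ι ι ℝ, (jac e z)⁻¹ᵀ * ((jac e z)ᵀ * X) = X := fun X => by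
      rw [← Matrix.mul_assoc, ← transpose_mul, mul_nonsing_inv _ hu, transpose_one, Matrix.one_mul]
    simp only [endo, form2, transpose_mul, Matrix.mul_assoc]
    rw [mul_nonsing_inv_cancel_left _ _ hu, h1]
    conv_rhs => rw [← (hak t ht).herm (e.symm z)]
    simp only [Matrix.mul_assoc]

/-- A solution read in a chart. -/
lemma IsSCF.chart {M : Type} [TopologicalSpace M] [ChartedSpace (ι → ℝ) M]
    {g J : ℝ → M → Matrix ι ι ℝ} (h : IsSCF T g J) {e : OpenPartialHomeomorph M (ι → ℝ)}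
    (he : e ∈ atlas (ι → ℝ) M) (hj : ∀ z ∈ e.target, (jac e z).det ≠ 0) :
    ChartAK T e.target (fun t => form2 (g t) e) (fun t => endo (J t) e) ∧
      ChartFlow T e.target (fun t => form2 (g t) e) fun t => endo (J t) e :=
  ⟨chartAK_of h.ak (h.smooth e he) he hj, h.flow e he⟩

end Pool.Agent.P.MP_8fdf05_gt
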