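import Pool.Agent.P.MP_8fdf05_gt.Tau

/-! Complex projective space as a real manifold whose atlas consists of all charts w ↦ [L (1,w)]. -/

open Matrix Set Manifold
open scoped ContDiff ComplexConjugate

namespace Pool.Agent.P.MP_8fdf05_gt

variable {ν : Type} [Fintype ν] [DecidableEq ν]

namespace TauCP

/-- Squared norm. -/
noncomputable def ns (z : Option ν → ℂ) : ℝ := ∑ o, Complex.normSq (z o)

lemma ns_ne {z : Option ν → ℂ} (hz : z ≠ 0) : ns z ≠ 0 := by
  intro h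
  apply hz
  funext o
  have := (Finset.sum_eq_zero_iff_of_nonneg fun o _ => Complex.normSq_nonneg (z o)).1 h o
    (Finset.mem_univ _)
  simpa using this

lemma ns_smul (c : ℂ) (z : Option ν → ℂ) : ns (c • z) = Complex.normSq c * ns z := by
  simp [ns, Finset.mul_sum, -Fintype.sum_option]

lemma continuous_ns : Continuous (ns : (Option ν → ℂ) → ℝ) :=
  continuous_finsetSum _ fun o _ => Complex.continuous_normSq.comp (continuous_apply o)

/-- The projector on the line through z. -/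
noncomputable def pr (z : Option ν → ℂ) : Option ν → Option ν → ℂ :=
  fun i j => z i * conj (z j) / (ns z : ℂ)

lemma pr_smul {c : ℂ} (hc : c ≠ 0) (z : Option ν → ℂ) : pr (c • z) = pr z := by
  funext i j
  have h : (Complex.normSq c : ℂ) ≠ 0 := by simpa using hc
  simp only [pr, ns_smul, Pi.smul_apply, smul_eq_mul, map_mul, Complex.ofReal_mul]
  rw [show c * z i * (conj c * conj (z j)) = (Complex.normSq c : ℂ) * (z i * conj (z j)) by
    rw [← Complex.mul_conj]; ring, mul_div_mul_left _ _ h]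

lemma continuousOn_pr : ContinuousOn (pr : (Option ν → ℂ) → _) {z | z ≠ 0} := by
  refine continuousOn_pi.2 fun i => continuousOn_pi.2 fun j => ?_
  refine ContinuousOn.div (by fun_prop) (Complex.continuous_ofReal.comp continuous_ns).continuousOn
    fun z hz => ?_
  exact_mod_cast ns_ne hz

/-- Projective space. -/
def PS (ν : Type) [Fintype ν] : Type := {P : Option ν → Option ν → ℂ // ∃ z ≠ 0, P = pr z}

noncomputable instance : TopologicalSpace (PS ν) := instTopologicalSpaceSubtype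

instance : T2Space (PS ν) :=
  inferInstanceAs (T2Space {P : Option ν → Option ν → ℂ // ∃ z ≠ 0, P = pr z})

/-- A vector on the line, read in the chart L. -/
noncomputable def col (L : Sy ν) (P : Option ν → Option ν → ℂ) : Option ν → ℂ :=
  L⁻¹.act fun i => ∑ j, P i j * (L.B j none : ℂ)

lemma continuous_col (L : Sy ν) : Continuous (col L) :=
  (contDiff_act L⁻¹).continuous.comp (by fun_prop)

lemma col_pr (L : Sy ν) {z : Option ν → ℂ} (hz : z ≠ 0) :
    ∃ c : ℂ, col L (pr z) = c • L⁻¹.act z ∧ (c = 0 ↔ L⁻¹.act z none = 0) := by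
  refine ⟨tw L⁻¹ ((∑ j, conj (z j) * (L.B j none : ℂ)) / (ns z : ℂ)), ?_, ?_⟩
  · rw [← act_smul, col]
    congr 1
    funext i
    simp only [pr, Pi.smul_apply, smul_eq_mul, Finset.sum_div, Finset.sum_mul]
    exact Finset.sum_congr rfl fun j _ => by ring
  · have h : (ns z : ℂ) ≠ 0 := by exact_mod_cast ns_ne hz
    rw [tw_eq_zero, div_eq_zero_iff, or_iff_left h]
    simp only [Sy.act, Sy.inv_B, Sy.inv_ε, Matrix.transpose_apply]
    by_cases hε : L.ε = true
    · simp only [hε, if_true, mul_comm]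
    · simp only [hε, Bool.false_eq_true, if_false]
      rw [← map_eq_zero (starRingEnd ℂ)]
      simp only [map_sum, map_mul, Complex.conj_conj, Complex.conj_ofReal, mul_comm]

lemma col_pr_ne (L : Sy ν) {z : Option ν → ℂ} (hz : z ≠ 0) :
    col L (pr z) none ≠ 0 ↔ L⁻¹.act z none ≠ 0 := by
  obtain ⟨c, h1, h2⟩ := col_pr L hz
  rw [h1]
  simp only [Pi.smul_apply, smul_eq_mul, ne_eq, mul_eq_zero, h2, or_self]

lemma aff_col_pr (L : Sy ν) {z : Option ν → ℂ} (hz : z ≠ 0) :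
    aff (col L (pr z)) = aff (L⁻¹.act z) := by
  obtain ⟨c, h1, h2⟩ := col_pr L hz
  rw [h1]
  by_cases hc : c = 0
  · rw [aff_of_zero (h2.1 hc), aff_of_zero (by simp [hc])]
  · exact aff_smul hc _

lemma act_inv_act (L : Sy ν) (z : Option ν → ℂ) : L⁻¹.act (L.act z) = z := by
  rw [← Sy.act_mul, inv_mul_cancel, act_one]

lemma act_act_inv (L : Sy ν) (z : Option ν → ℂ) : L.act (L⁻¹.act z) = z := by
  rw [← Sy.act_mul, mul_inv_cancel, act_one]

lemma act_emb_ne (L : Sy ν) (w : ν ⊕ ν → ℝ) : L.act (emb w) ≠ 0 := by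
  intro h
  have h1 := act_inv_act L (emb w)
  rw [h, ← actL_apply, map_zero] at h1
  have := congrFun h1 none
  simp [emb] at this

/-- The chart attached to L. -/
noncomputable def chart (L : Sy ν) : OpenPartialHomeomorph (PS ν) (ν ⊕ ν → ℝ) where
  toFun P := aff (col L P.1)
  invFun w := ⟨pr (L.act (emb w)), _, act_emb_ne L w, rfl⟩
  source := {P | col L P.1 none ≠ 0}
  target := univ
  map_source' := fun _ _ => trivial
  map_target' := fun w _ => by
    show col L (pr (L.act (emb w))) none ≠ 0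
    rw [col_pr_ne L (act_emb_ne L w), act_inv_act]
    simp [emb]
  left_inv' := by
    rintro ⟨P, z, hz, rfl⟩ hP
    have h : L⁻¹.act z none ≠ 0 := (col_pr_ne L hz).1 hP
    refine Subtype.ext ?_
    show pr (L.act (emb (aff (col L (pr z))))) = pr z
    rw [aff_col_pr L hz, emb_aff h, act_smul, act_act_inv, pr_smul (tw_ne L (inv_ne_zero h))]
  right_inv' := fun w _ => by
    show aff (col L (pr (L.act (emb w)))) = w
    rw [aff_col_pr L (act_emb_ne L w), act_inv_act, aff_emb]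
  open_source := isOpen_ne_fun ((continuous_apply none).comp
    ((continuous_col L).comp continuous_subtype_val)) continuous_const
  open_target := isOpen_univ
  continuousOn_toFun := contDiffOn_aff.continuousOn.comp
    ((continuous_col L).comp continuous_subtype_val).continuousOn fun _ hP => hP
  continuousOn_invFun := by
    refine Continuous.continuousOn (Continuous.subtype_mk ?_ _)
    exact continuousOn_pr.comp_continuous
      ((contDiff_act L).continuous.comp contDiff_emb.continuous) fun w => act_emb_ne L w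

lemma chart_src (L L' : Sy ν) (w : ν ⊕ ν → ℝ) :
    (chart L).symm w ∈ (chart L').source ↔ w ∈ (L'⁻¹ * L).dom := by
  show col L' (pr (L.act (emb w))) none ≠ 0 ↔ (L'⁻¹ * L).act (emb w) none ≠ 0
  rw [col_pr_ne L' (act_emb_ne L w), Sy.act_mul]

lemma chart_tr (L L' : Sy ν) (w : ν ⊕ ν → ℝ) :
    chart L' ((chart L).symm w) = (L'⁻¹ * L).tau w := by
  show aff (col L' (pr (L.act (emb w)))) = aff ((L'⁻¹ * L).act (emb w))
  rw [aff_col_pr L' (act_emb_ne L w), Sy.act_mul]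

lemma exists_chart (P : PS ν) :
    ∃ j, P ∈ (chart (Sy.perm j)).source ∧ ‖chart (Sy.perm j) P‖ ≤ 1 := by
  obtain ⟨P, z, hz, rfl⟩ := P
  obtain ⟨j, h1, h2⟩ := exists_perm' hz
  refine ⟨j, (col_pr_ne _ hz).2 h1, ?_⟩
  show ‖aff (col _ (pr z))‖ ≤ 1
  rwa [aff_col_pr _ hz]

/-- The atlas. -/
@[reducible] noncomputable def charted (ν : Type) [Fintype ν] [DecidableEq ν] :
    ChartedSpace (ν ⊕ ν → ℝ) (PS ν) where
  atlas := range chart
  chartAt P := chart (Sy.perm (exists_chart P).choose)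
  mem_chart_source P := (exists_chart P).choose_spec.1
  chart_mem_atlas _ := mem_range_self _

lemma compact_PS : CompactSpace (PS ν) := by
  have hne : ∀ z : Metric.sphere (0 : Option ν → ℂ) 1, z.1 ≠ 0 := fun z h => by
    have := z.2
    rw [h] at this
    simp at this
  let f : Metric.sphere (0 : Option ν → ℂ) 1 → PS ν := fun z => ⟨pr z.1, _, hne z, rfl⟩
  have hf : Continuous f :=
    Continuous.subtype_mk (continuousOn_pr.comp_continuous continuous_subtype_val hne) _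
  have hs : Function.Surjective f := by
    rintro ⟨P, z, hz, rfl⟩
    have h0 : ‖z‖ ≠ 0 := norm_ne_zero_iff.2 hz
    have h1 : ((‖z‖ : ℂ))⁻¹ ≠ 0 := inv_ne_zero (by exact_mod_cast h0)
    refine ⟨⟨((‖z‖ : ℂ))⁻¹ • z, ?_⟩, Subtype.ext (pr_smul h1 z)⟩
    simp [norm_smul, h0]
  exact hs.compactSpace hf

lemma connected_PS : ConnectedSpace (PS ν) := by
  have h1 : (fun _ => 1 : Option ν → ℂ) ≠ 0 := fun h => by simpa using congrFun h none
  let x : PS ν := ⟨pr fun _ => 1, _, h1, rfl⟩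
  refine connectedSpace_iff_univ.2 ⟨⟨x, trivial⟩, isPreconnected_of_forall x fun y _ => ?_⟩
  obtain ⟨j, hj, -⟩ := exists_chart y
  refine ⟨(chart (Sy.perm j)).source, subset_univ _, ?_, hj, ?_⟩
  · refine (col_pr_ne _ h1).2 ?_
    rw [perm_inv, act_perm]
    simp
  · rw [← (chart (Sy.perm j)).symm_image_target_eq_source]
    exact isPreconnected_univ.image _ (chart (Sy.perm j)).continuousOn_symm

end TauCP

open TauCP in
/-- A compact manifold with charts indexed by the group, and transition maps tau. -/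
theorem exists_CP (ν : Type) [Fintype ν] [DecidableEq ν] :
    ∃ (M : Type) (_ : TopologicalSpace M) (_ : ChartedSpace (ν ⊕ ν → ℝ) M)
      (ch : Sy ν → OpenPartialHomeomorph M (ν ⊕ ν → ℝ)),
      IsManifold 𝓘(ℝ, ν ⊕ ν → ℝ) ∞ M ∧ CompactSpace M ∧ T2Space M ∧ ConnectedSpace M ∧
      atlas (ν ⊕ ν → ℝ) M = range ch ∧ (∀ L, (ch L).target = univ) ∧
      (∀ p, ∃ j, chartAt (ν ⊕ ν → ℝ) p = ch (Sy.perm j) ∧ ‖ch (Sy.perm j) p‖ ≤ 1) ∧
      (∀ L L' w, (ch L).symm w ∈ (ch L').source ↔ w ∈ (L'⁻¹ * L).dom) ∧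
      (∀ L L' w, ch L' ((ch L).symm w) = (L'⁻¹ * L).tau w) := by
  let := charted ν
  refine ⟨PS ν, inferInstance, charted ν, chart, ?_, compact_PS, inferInstance, connected_PS, rfl,
    fun _ => rfl, fun p => ⟨_, rfl, (exists_chart p).choose_spec.2⟩, chart_src, chart_tr⟩
  refine isManifold_of_contDiffOn _ _ _ ?_
  rintro _ _ ⟨L, rfl⟩ ⟨L', rfl⟩
  refine ((L'⁻¹ * L).contDiffOn_tau.mono ?_).congr fun w _ => chart_tr L L' w
  intro w hw
  exact (chart_src L L' w).1 hw.1.2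

section Charts

variable {M : Type} [TopologicalSpace M] [ChartedSpace (ν ⊕ ν → ℝ) M]
  {ch : Sy ν → OpenPartialHomeomorph M (ν ⊕ ν → ℝ)}

/-- The properties of the charts that are used. -/
structure IsCP (ch : Sy ν → OpenPartialHomeomorph M (ν ⊕ ν → ℝ)) : Prop where
  atl : atlas (ν ⊕ ν → ℝ) M = range ch
  tgt : ∀ L, (ch L).target = univ
  at_ : ∀ p, ∃ j, chartAt (ν ⊕ ν → ℝ) p = ch (Sy.perm j) ∧ ‖ch (Sy.perm j) p‖ ≤ 1
  src : ∀ L L' w, (ch L).symm w ∈ (ch L').source ↔ w ∈ (L'⁻¹ * L).dom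
  tr : ∀ L L' w, ch L' ((ch L).symm w) = (L'⁻¹ * L).tau w

namespace IsCP

lemma jac_eq (h : IsCP ch) (L : Sy ν) (w : ν ⊕ ν → ℝ) {j : Option ν}
    (hj : chartAt (ν ⊕ ν → ℝ) ((ch L).symm w) = ch (Sy.perm j)) :
    jac (ch L) w = ((Sy.perm j)⁻¹ * L).jc w ∧ w ∈ ((Sy.perm j)⁻¹ * L).dom ∧
      chartAt (ν ⊕ ν → ℝ) ((ch L).symm w) ((ch L).symm w) = ((Sy.perm j)⁻¹ * L).tau w := by
  refine ⟨?_, ?_, ?_⟩
  · have : ch (Sy.perm j) ∘ (ch L).symm = ((Sy.perm j)⁻¹ * L).tau := funext (h.tr L _)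
    simp only [jac, hj, this, Sy.jc]
  · rw [← h.src, ← hj]
    exact mem_chart_source _ _
  · rw [hj, h.tr]

lemma symm_mul (h : IsCP ch) (L N : Sy ν) {w : ν ⊕ ν → ℝ} (hw : w ∈ N.dom) :
    (ch (L * N)).symm w = (ch L).symm (N.tau w) := by
  have h1 : (ch (L * N)).symm w ∈ (ch L).source := by
    rw [h.src, inv_mul_cancel_left]; exact hw
  have h2 := h.tr (L * N) L w
  rw [inv_mul_cancel_left] at h2
  rw [← h2, (ch L).left_inv h1]

lemma jac_mul (h : IsCP ch) (L N : Sy ν) {w : ν ⊕ ν → ℝ} (hw : w ∈ N.dom) :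
    jac (ch (L * N)) w = jac (ch L) (N.tau w) * N.jc w := by
  obtain ⟨j, hj, -⟩ := h.at_ ((ch (L * N)).symm w)
  obtain ⟨h1, h2, -⟩ := h.jac_eq (L * N) w hj
  rw [h.symm_mul L N hw] at hj
  rw [← mul_assoc] at h1 h2
  rw [h1, (h.jac_eq L _ hj).1, Sy.jc_mul _ _ hw h2]

lemma form2_trans (h : IsCP ch) (σ : M → Matrix (ν ⊕ ν) (ν ⊕ ν) ℝ) (L N : Sy ν)
    {w : ν ⊕ ν → ℝ} (hw : w ∈ N.dom) :
    form2 σ (ch (L * N)) w = (N.jc w)ᵀ * form2 σ (ch L) (N.tau w) * N.jc w := by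
  simp only [form2, h.jac_mul L N hw, h.symm_mul L N hw, Matrix.transpose_mul, Matrix.mul_assoc]

lemma endo_trans (h : IsCP ch) (J : M → Matrix (ν ⊕ ν) (ν ⊕ ν) ℝ) (L N : Sy ν)
    {w : ν ⊕ ν → ℝ} (hw : w ∈ N.dom) :
    endo J (ch (L * N)) w = (N.jc w)⁻¹ * endo J (ch L) (N.tau w) * N.jc w := by
  simp only [endo, h.jac_mul L N hw, h.symm_mul L N hw, Matrix.mul_inv_rev, Matrix.mul_assoc]

lemma jac_det (h : IsCP ch) (L : Sy ν) (w : ν ⊕ ν → ℝ) : (jac (ch L) w).det ≠ 0 := by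
  obtain ⟨j, hj, -⟩ := h.at_ ((ch L).symm w)
  obtain ⟨h1, h2, -⟩ := h.jac_eq L w hj
  rw [h1]
  exact Sy.jc_det _ h2

/-- A field in the affine chart that is invariant up to a character s defines a global field. -/
lemma form2_of_inv (h : IsCP ch) (G : Fld (ν ⊕ ν)) (s : Sy ν → ℝ)
    (hs : ∀ j L, s ((Sy.perm j)⁻¹ * L) = s L)
    (hG : ∀ (L : Sy ν), ∀ w ∈ L.dom, (L.jc w)ᵀ * G (L.tau w) * L.jc w = s L • G w) (L : Sy ν) :
    form2 (fun p => G (chartAt (ν ⊕ ν → ℝ) p p)) (ch L) = fun w => s L • G w := by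
  funext w
  obtain ⟨j, hj, -⟩ := h.at_ ((ch L).symm w)
  obtain ⟨h1, h2, h3⟩ := h.jac_eq L w hj
  simp only [form2]
  rw [h1, h3, hG _ w h2, hs]

lemma endo_of_inv (h : IsCP ch) (G : Fld (ν ⊕ ν)) (s : Sy ν → ℝ)
    (hs : ∀ j L, s ((Sy.perm j)⁻¹ * L) = s L)
    (hG : ∀ (L : Sy ν), ∀ w ∈ L.dom, (L.jc w)⁻¹ * G (L.tau w) * L.jc w = s L • G w) (L : Sy ν) :
    endo (fun p => G (chartAt (ν ⊕ ν → ℝ) p p)) (ch L) = fun w => s L • G w := by
  funext w
  obtain ⟨j, hj, -⟩ := h.at_ ((ch L).symm w)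
  obtain ⟨h1, h2, h3⟩ := h.jac_eq L w hj
  simp only [endo]
  rw [h1, h3, hG _ w h2, hs]

lemma form1_of_inv (h : IsCP ch) (G : (ν ⊕ ν → ℝ) → ν ⊕ ν → ℝ) (s : Sy ν → ℝ)
    (hs : ∀ j L, s ((Sy.perm j)⁻¹ * L) = s L)
    (hG : ∀ (L : Sy ν), ∀ w ∈ L.dom, G (L.tau w) ᵥ* L.jc w = s L • G w) (L : Sy ν) :
    form1 (fun p => G (chartAt (ν ⊕ ν → ℝ) p p)) (ch L) = fun w => s L • G w := by
  funext w
  obtain ⟨j, hj, -⟩ := h.at_ ((ch L).symm w)
  obtain ⟨h1, h2, h3⟩ := h.jac_eq L w hj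
  simp only [form1]
  rw [h1, h3, hG _ w h2, hs]

end IsCP

end Charts

end Pool.Agent.P.MP_8fdf05_gt
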