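import Mathlib

/-! A checker for the positivity of an integer polynomial in two variables on a square. -/

namespace Pool.Agent.P.MP_8fdf05_gt

namespace Cert

/-- Value of a list of coefficients. -/
def ev1 (y : ℝ) : List ℤ → ℝ
  | [] => 0
  | c :: l => c + y * ev1 y l

/-- Value of a table of coefficients. -/
def ev2 (x y : ℝ) : List (List ℤ) → ℝ
  | [] => 0
  | c :: l => ev1 y c + x * ev2 x y l

/-- The combination p + a q. -/
def ax1 (a : ℤ) : List ℤ → List ℤ → List ℤ
  | [], q => q.map (a * ·)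
  | p, [] => p
  | c :: p, d :: q => (c + a * d) :: ax1 a p q

/-- The combination p + a q. -/
def ax2 (a : ℤ) : List (List ℤ) → List (List ℤ) → List (List ℤ)
  | [], q => q.map (ax1 a [])
  | p, [] => p
  | c :: p, d :: q => ax1 a c d :: ax2 a p q

/-- Shift of the variable. -/
def sh1 (a : ℤ) : List ℤ → List ℤ
  | [] => []
  | c :: l => let q := sh1 a l; ax1 a (c :: q) q

/-- Shift of the first variable. -/
def sh2 (a : ℤ) : List (List ℤ) → List (List ℤ)
  | [] => []
  | c :: l => let q := sh2 a l; ax2 a (c :: q) q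

/-- Bound for the absolute value. -/
def ab1 (r : ℤ) : List ℤ → ℤ
  | [] => 0
  | c :: l => |c| + r * ab1 r l

/-- Bound for the absolute value. -/
def ab2 (r : ℤ) : List (List ℤ) → ℤ
  | [] => 0
  | c :: l => ab1 r c + r * ab2 r l

/-- The test on one square. -/
def ok (r : ℤ) : List (List ℤ) → Bool
  | (c :: l) :: p => decide (r * ab1 r l + r * ab2 r p < c)
  | _ => false

/-- The test with subdivision. -/
def check : ℕ → List (List ℤ) → Bool
  | 0, p => ok 1 p
  | n + 1, p => ok (2 ^ (n + 1)) p ||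
      (let a := sh2 (2 ^ n) p
       let b := sh2 (-2 ^ n) p
       check n (a.map (sh1 (2 ^ n))) && check n (a.map (sh1 (-2 ^ n))) &&
         check n (b.map (sh1 (2 ^ n))) && check n (b.map (sh1 (-2 ^ n))))

lemma ev_ax1 (a : ℤ) (y : ℝ) : ∀ p q, ev1 y (ax1 a p q) = ev1 y p + a * ev1 y q
  | [], q => by
    induction q with
    | nil => simp [ax1, ev1]
    | cons d q ih =>
      simp only [ax1, List.map_cons, ev1] at ih ⊢
      rw [ih]; push_cast; ring
  | c :: p, [] => by simp [ax1, ev1]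
  | c :: p, d :: q => by
    simp only [ax1, ev1, ev_ax1 a y p q]
    push_cast; ring

lemma ev_ax2 (a : ℤ) (x y : ℝ) : ∀ p q, ev2 x y (ax2 a p q) = ev2 x y p + a * ev2 x y q
  | [], q => by
    induction q with
    | nil => simp [ax2, ev2]
    | cons d q ih =>
      simp only [ax2, List.map_cons, ev2, ev_ax1, ev1] at ih ⊢
      rw [ih]; ring
  | c :: p, [] => by simp [ax2, ev2]
  | c :: p, d :: q => by
    simp only [ax2, ev2, ev_ax2 a x y p q, ev_ax1]
    ring

lemma ev_sh1 (a : ℤ) (y : ℝ) : ∀ p, ev1 y (sh1 a p) = ev1 (a + y) p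
  | [] => rfl
  | c :: l => by
    simp only [sh1, ev_ax1, ev1, ev_sh1 a y l]
    ring

lemma ev_sh2 (a : ℤ) (x y : ℝ) : ∀ p, ev2 x y (sh2 a p) = ev2 (a + x) y p
  | [] => rfl
  | c :: l => by
    simp only [sh2, ev_ax2, ev2, ev_sh2 a x y l]
    ring

lemma ev_map (a : ℤ) (x y : ℝ) : ∀ p : List (List ℤ), ev2 x y (p.map (sh1 a)) = ev2 x (a + y) p
  | [] => rfl
  | c :: l => by simp only [List.map_cons, ev2, ev_sh1, ev_map a x y l]

lemma le_ab1 {r : ℤ} {y : ℝ} (h : |y| ≤ r) : ∀ p, |ev1 y p| ≤ ab1 r p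
  | [] => by simp [ev1, ab1]
  | c :: l => by
    simp only [ev1, ab1]
    push_cast
    refine (abs_add_le _ _).trans (add_le_add le_rfl ?_)
    rw [abs_mul]
    exact mul_le_mul h (le_ab1 h l) (abs_nonneg _) ((abs_nonneg _).trans h)

lemma le_ab2 {r : ℤ} {x y : ℝ} (hx : |x| ≤ r) (h : |y| ≤ r) : ∀ p, |ev2 x y p| ≤ ab2 r p
  | [] => by simp [ev2, ab2]
  | c :: l => by
    simp only [ev2, ab2]
    push_cast
    refine (abs_add_le _ _).trans (add_le_add (le_ab1 h c) ?_)
    rw [abs_mul]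
    exact mul_le_mul hx (le_ab2 hx h l) (abs_nonneg _) ((abs_nonneg _).trans h)

lemma of_ok {r : ℤ} {x y : ℝ} (hx : |x| ≤ r) (hy : |y| ≤ r) : ∀ p, ok r p = true → 0 < ev2 x y p
  | [], h => by simp [ok] at h
  | [] :: _, h => by simp [ok] at h
  | (c :: l) :: p, h => by
    simp only [ok, decide_eq_true_eq] at h
    have h' : (r : ℝ) * ab1 r l + r * ab2 r p < c := by exact_mod_cast h
    have h0 := (abs_nonneg _).trans hx
    have h1 := mul_le_mul hy (le_ab1 hy l) (abs_nonneg _) h0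
    have h2 := mul_le_mul hx (le_ab2 hx hy p) (abs_nonneg _) h0
    rw [← abs_mul] at h1 h2
    simp only [ev2, ev1]
    linarith [neg_abs_le (y * ev1 y l), neg_abs_le (x * ev2 x y p)]

lemma half {r x : ℝ} (h : |x| ≤ 2 * r) : |x - r| ≤ r ∨ |x + r| ≤ r := by
  rw [abs_le] at h
  rcases le_total 0 x with h0 | h0
  · exact Or.inl (abs_le.2 ⟨by linarith, by linarith [h.2]⟩)
  · exact Or.inr (abs_le.2 ⟨by linarith [h.1], by linarith⟩)

theorem sound : ∀ (n : ℕ) (p : List (List ℤ)), check n p = true → ∀ x y : ℝ, |x| ≤ 2 ^ n →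
    |y| ≤ 2 ^ n → 0 < ev2 x y p
  | 0, p, h, x, y, hx, hy => of_ok (r := 1) (by simpa using hx) (by simpa using hy) p h
  | n + 1, p, h, x, y, hx, hy => by
    simp only [check, Bool.or_eq_true, Bool.and_eq_true] at h
    rcases h with h | ⟨⟨⟨h1, h2⟩, h3⟩, h4⟩
    · exact of_ok (by exact_mod_cast hx) (by exact_mod_cast hy) p h
    rw [pow_succ'] at hx hy
    rcases half hx with a | a <;> rcases half hy with b | b
    · simpa [ev_map, ev_sh2] using sound n _ h1 _ _ a b
    · simpa [ev_map, ev_sh2] using sound n _ h2 _ _ a b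
    · simpa [ev_map, ev_sh2] using sound n _ h3 _ _ a b
    · simpa [ev_map, ev_sh2] using sound n _ h4 _ _ a b

end Cert

end Pool.Agent.P.MP_8fdf05_gt
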