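import Pool.Agent.P.MP_8fdf05_gt.Bridge

/-! The canonical connection is characterised by its defining properties. -/

open Matrix Set

namespace Pool.Agent.P.MP_8fdf05_gt

variable {ι : Type} [Fintype ι] [DecidableEq ι]

namespace Chern

lemma lam_om {A : Type} [CommRing A] [Algebra ℝ A] (m : Geo ι A) (i : ι) :
    md (m.d i) m.om = (m.Lam i)ᵀ * m.om + m.om * m.Lam i := by
  have h1 : md (m.d i) m.J = m.J * m.Lam i - m.Lam i * m.J := by
    have := m.Lam_J i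
    rw [acov, sub_eq_zero] at this
    exact eq_sub_of_add_eq this
  have h2 : (m.J * m.S i)ᵀ * m.g = -(m.g * (m.J * m.S i)) := by
    rw [transpose_mul, Matrix.mul_assoc, m.Jt_g, Matrix.mul_neg, ← Matrix.mul_assoc,
      (m.S_sk i).tg, m.J_S, Matrix.neg_mul, Matrix.mul_neg, Matrix.mul_assoc]
  have h3 : md (m.d i) m.g = m.g * m.Lam i + (m.Lam i)ᵀ * m.g := by
    rw [m.dg, Geo.Lam, transpose_sub, transpose_smul, Matrix.mul_sub, Matrix.sub_mul,
      Matrix.smul_mul, Matrix.mul_smul, h2, smul_neg]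
    abel
  rw [Geo.om, md_mul, md_transpose, h1, h3, transpose_sub, transpose_mul, transpose_mul]
  noncomm_ring

lemma tors_zero {Γ S : ι → Matrix ι ι ℝ} {J : Matrix ι ι ℝ} (hΓ : ∀ i k j, Γ i k j = Γ j k i)
    (hJ : J * J = -1) (h1 : ∀ i, J * S i = -(S i * J))
    (h2 : ∀ i, ∑ a, J a i • S a = -(J * S i)) (u v : ι → ℝ) :
    ((∑ i, u i • (Γ i - (1 / 2 : ℝ) • (J * S i))) *ᵥ v -
      (∑ i, v i • (Γ i - (1 / 2 : ℝ) • (J * S i))) *ᵥ u) +
    ((∑ i, (J *ᵥ u) i • (Γ i - (1 / 2 : ℝ) • (J * S i))) *ᵥ (J *ᵥ v) -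
      (∑ i, (J *ᵥ v) i • (Γ i - (1 / 2 : ℝ) • (J * S i))) *ᵥ (J *ᵥ u)) = 0 := by
  have e1 : ∀ u : ι → ℝ, ∑ i, u i • (Γ i - (1 / 2 : ℝ) • (J * S i)) =
      ∑ i, u i • Γ i - (1 / 2 : ℝ) • (J * ∑ i, u i • S i) := fun u => by
    simp only [smul_sub, Finset.sum_sub_distrib, Matrix.mul_sum, Matrix.mul_smul, Finset.smul_sum,
      smul_comm (u _) (1 / 2 : ℝ)]
  have e2 : ∀ u v : ι → ℝ, (∑ i, u i • Γ i) *ᵥ v = (∑ i, v i • Γ i) *ᵥ u := fun u v => by
    ext k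
    simp only [mulVec, dotProduct, Matrix.sum_apply, Matrix.smul_apply, smul_eq_mul, Finset.sum_mul]
    rw [Finset.sum_comm]
    exact Finset.sum_congr rfl fun i _ => Finset.sum_congr rfl fun j _ => by rw [hΓ i k j]; ring
  have e3 : ∀ u : ι → ℝ, (∑ i, (J *ᵥ u) i • S i) * J = -∑ i, u i • S i := fun u => by
    have : ∑ i, (J *ᵥ u) i • S i = ∑ i, u i • ∑ a, J a i • S a := by
      simp only [mulVec, dotProduct, Finset.sum_smul, Finset.smul_sum, smul_smul]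
      rw [Finset.sum_comm]
      exact Finset.sum_congr rfl fun i _ => Finset.sum_congr rfl fun j _ => by rw [mul_comm]
    rw [this, Matrix.sum_mul, ← Finset.sum_neg_distrib]
    refine Finset.sum_congr rfl fun i _ => ?_
    rw [h2, h1, neg_neg, Matrix.smul_mul, Matrix.mul_assoc, hJ, Matrix.mul_neg, Matrix.mul_one,
      smul_neg]
  have e4 : ∀ u v : ι → ℝ, (J * ∑ i, (J *ᵥ u) i • S i) *ᵥ (J *ᵥ v) =
      -((J * ∑ i, u i • S i) *ᵥ v) := fun u v => by
    rw [mulVec_mulVec, Matrix.mul_assoc, e3, Matrix.mul_neg, neg_mulVec]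
  simp only [e1, sub_mulVec, smul_mulVec, e4]
  rw [e2 u v, e2 (J *ᵥ u) (J *ᵥ v)]
  module

lemma theta_zero {θ : ι → Matrix ι ι ℝ} {G J : Matrix ι ι ℝ} (hG : Gᵀ = G) (hd : G.det ≠ 0)
    (hJ : J * J = -1) (hh : Jᵀ * G * J = G) (h1 : ∀ i, (θ i)ᵀ * (Jᵀ * G) + Jᵀ * G * θ i = 0)
    (h2 : ∀ i, θ i * J = J * θ i)
    (h3 : ∀ u v : ι → ℝ, ((∑ i, u i • θ i) *ᵥ v - (∑ i, v i • θ i) *ᵥ u) +
      ((∑ i, (J *ᵥ u) i • θ i) *ᵥ (J *ᵥ v) - (∑ i, (J *ᵥ v) i • θ i) *ᵥ (J *ᵥ u)) = 0) (i : ι) :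
    θ i = 0 := by
  have hJG : Jᵀ * G = -(G * J) := by
    have h := congrArg (· * J) hh
    simp only [Matrix.mul_assoc, hJ, Matrix.mul_neg, Matrix.mul_one] at h
    rw [← h, neg_neg]
  have sk : ∀ i, (G * θ i)ᵀ = -(G * θ i) := fun i => by
    have h := congrArg (· * J) (h1 i)
    simp only [hJG, Matrix.add_mul, Matrix.neg_mul, Matrix.mul_neg, Matrix.mul_assoc, h2, hJ,
      Matrix.zero_mul, Matrix.mul_one, neg_neg] at h
    rw [← Matrix.mul_assoc J, hJ, Matrix.neg_mul, Matrix.one_mul, Matrix.mul_neg, neg_neg] at h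
    rw [transpose_mul, hG]
    exact eq_neg_of_add_eq_zero_left h
  set b : (ι → ℝ) → (ι → ℝ) → (ι → ℝ) → ℝ := fun u v w => w ⬝ᵥ (G * ∑ i, u i • θ i) *ᵥ v with hb
  have JJ : ∀ v : ι → ℝ, J *ᵥ (J *ᵥ v) = -v := fun v => by
    rw [mulVec_mulVec, hJ, neg_mulVec, one_mulVec]
  have b1 : ∀ u v w, b u v w = -b u w v := fun u v w => by
    have : (G * ∑ i, u i • θ i)ᵀ = -(G * ∑ i, u i • θ i) := by
      simp only [Matrix.mul_sum, Matrix.mul_smul, transpose_sum, transpose_smul, sk, smul_neg,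
        Finset.sum_neg_distrib]
    simp only [hb]
    rw [dotProduct_mulVec, ← mulVec_transpose, this, neg_mulVec, neg_dotProduct, dotProduct_comm]
  have b2 : ∀ u v w, b u (J *ᵥ v) w = -b u v (J *ᵥ w) := fun u v w => by
    have : (∑ i, u i • θ i) * J = J * ∑ i, u i • θ i := by
      simp only [Matrix.mul_sum, Matrix.sum_mul, Matrix.mul_smul, Matrix.smul_mul, h2]
    simp only [hb]
    rw [mulVec_mulVec, dotProduct_mulVec (J *ᵥ w), vecMul_mulVec, ← dotProduct_mulVec,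
      ← Matrix.mul_assoc, hJG, Matrix.neg_mul, neg_mulVec, dotProduct_neg, neg_neg,
      Matrix.mul_assoc, this, Matrix.mul_assoc]
  have b3 : ∀ u v w, b (-u) v w = -b u v w := fun u v w => by
    simp only [hb, Pi.neg_apply, neg_smul, Finset.sum_neg_distrib, Matrix.mul_neg, neg_mulVec,
      dotProduct_neg]
  have b4 : ∀ u v w, b u v (-w) = -b u v w := fun u v w => by simp only [hb, neg_dotProduct]
  have b5 : ∀ u v w, b u v w - b v u w + (b (J *ᵥ u) (J *ᵥ v) w - b (J *ᵥ v) (J *ᵥ u) w) = 0 :=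
    fun u v w => by
      have := congrArg (fun y => w ⬝ᵥ G *ᵥ y) (h3 u v)
      simpa only [mulVec_add, mulVec_sub, mulVec_mulVec (M := G), dotProduct_add, dotProduct_sub,
        mulVec_zero, dotProduct_zero] using this
  have c : ∀ x y z, b x y z + b (J *ᵥ x) (J *ᵥ y) z = 0 ∧ b y z x = b (J *ᵥ y) (J *ᵥ z) x := by
    intro x y z
    have t1 := b5 x y z
    have t2 := b5 (J *ᵥ x) y (J *ᵥ z)
    have s1 := b1 y x z
    have s2 := b1 (J *ᵥ y) (J *ᵥ x) z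
    have s3 := b2 (J *ᵥ y) z x
    have s4 := b2 (J *ᵥ x) y z
    have s5 := b2 y x (J *ᵥ z)
    have s6 := b2 x y (J *ᵥ z)
    have s7 := b1 (J *ᵥ y) (-x) (J *ᵥ z)
    rw [JJ, b3] at t2
    rw [JJ, b4] at s5 s6
    rw [b4] at s7
    constructor <;> linarith
  have z : G * θ i = 0 := by
    ext l k
    have := (c (Pi.single i 1) (Pi.single k 1) (Pi.single l 1)).1
    rw [← (c (Pi.single l 1) (Pi.single i 1) (Pi.single k 1)).2, add_self_eq_zero] at this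
    simpa [hb, Pi.single_apply] using this
  rw [← nonsing_inv_mul_cancel_left G (θ i) hd.isUnit, z, Matrix.mul_zero]

end Chern

theorem isChern_iff {T : ℝ} {U : Set (ι → ℝ)} {g J : ℝ → Fld ι} (h : ChartAK T U g J)
    (hU : IsOpen U) {t : ℝ} (ht : t ∈ Ico 0 T) {z : ι → ℝ} (hz : z ∈ U) (Λ : ι → Fld ι) :
    IsChern (g t) (J t) Λ z ↔ ∀ i, Λ i z = chern (g t) (J t) i z := by
  obtain ⟨m, hd, -, rJ, -, rΓ, rS, rL, ro, -, -⟩ := h.geo hU
  have k1 : ∀ i, pd i (om (g t) (J t)) z = (chern (g t) (J t) i z)ᵀ * om (g t) (J t) z +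
      om (g t) (J t) z * chern (g t) (J t) i z := fun i =>
    (ro.pd i).eq (((rL i).transpose.mul ro).add (ro.mul (rL i))) (hd ▸ Chern.lam_om m i) ht hz
  have k2 : ∀ i, cov (chern (g t) (J t)) i (J t) z = 0 := fun i =>
    (Rep.acov rL i rJ).eq Rep.zero (hd ▸ m.Lam_J i) ht hz
  have k3 : ∀ u v, tors (chern (g t) (J t)) z u v +
      tors (chern (g t) (J t)) z (J t z *ᵥ u) (J t z *ᵥ v) = 0 :=
    Chern.tors_zero (Γ := fun i => chr (g t) i z) (S := fun i => DJ (g t) (J t) i z)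
      (fun i k j => ((rΓ i).ent ⟨(t, z), ht, hz⟩ k j).symm.trans
        (m.Γ_sw i k j ▸ (rΓ j).ent ⟨(t, z), ht, hz⟩ k i)) (h.sq t ht z hz)
      (fun i => (rJ.mul (rS i)).eq ((rS i).mul rJ).neg (m.J_S i) ht hz)
      fun i => (Rep.sum fun a => rJ.smul a i (rS a)).eq (rJ.mul (rS i)).neg (m.S_J i) ht hz
  refine ⟨fun ⟨l1, l2, l3⟩ i => sub_eq_zero.1 ?_, fun e => ⟨fun i => by rw [e, k1], fun i => ?_,
    fun u v => ?_⟩⟩
  · refine Chern.theta_zero (θ := fun i => Λ i z - chern (g t) (J t) i z)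
      (by simpa using (h.pos t ht z hz).isHermitian.eq) (h.pos t ht z hz).det_pos.ne'
      (h.sq t ht z hz) (h.herm t ht z hz) (fun i => ?_) (fun i => ?_) (fun u v => ?_) i
    · rw [← sub_eq_zero.2 ((l1 i).symm.trans (k1 i)), om, transpose_sub]
      noncomm_ring
    · rw [← sub_eq_zero, ← sub_eq_zero.2 ((l2 i).trans (k2 i).symm), cov, cov]
      noncomm_ring
    · rw [← sub_eq_zero.2 ((l3 u v).trans (k3 u v).symm)]
      simp only [tors, smul_sub, Finset.sum_sub_distrib, sub_mulVec]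
      abel
  · rw [← k2 i, cov, cov, e]
  · rw [← k3 u v]
    simp only [tors, e]

/-- P only depends on the germ of the connection. -/
theorem Pform_congr {U : Set (ι → ℝ)} (hU : IsOpen U) (J : Fld ι) {Λ Λ' : ι → Fld ι}
    (h : ∀ z ∈ U, ∀ i, Λ i z = Λ' i z) {z : ι → ℝ} (hz : z ∈ U) :
    Pform J Λ z = Pform J Λ' z := by
  have e : ∀ i j, pd i (Λ j) z = pd i (Λ' j) z := fun i j => by
    ext a b
    simp only [pd, of_apply]
    rw [Filter.EventuallyEq.fderiv_eq (f := fun y => Λ' j y a b)]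
    filter_upwards [hU.mem_nhds hz] with y hy
    rw [h y hy]
  simp only [Pform, curv, e, h z hz]

end Pool.Agent.P.MP_8fdf05_gt
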