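import Pool.Agent.P.MP_8fdf05_gt.Tau

/-! The Fubini-Study structure, the invariant form beta and the deformed structures. -/

open Matrix Set
open scoped ContDiff ComplexConjugate

namespace Pool.Agent.P.MP_8fdf05_gt

variable {ν : Type} [Fintype ν] [DecidableEq ν]

/-- Squared norm. -/
noncomputable def nsq (z : Option ν → ℂ) : ℝ := ∑ o, Complex.normSq (z o)

/-- Horizontal projection. -/
noncomputable def hor (z v : Option ν → ℂ) : Option ν → ℂ :=
  v - ((∑ o, v o * conj (z o)) / (nsq z : ℂ)) • z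

/-- The Fubini-Study metric in the chart. -/
noncomputable def G0 : Fld (ν ⊕ ν) := fun w => Matrix.of fun i j =>
  (∑ o, hor (emb w) (hat (Pi.single i 1)) o * conj (hor (emb w) (hat (Pi.single j 1)) o)).re /
    nsq (emb w)

/-- The form beta in the chart. -/
noncomputable def Bm : Fld (ν ⊕ ν) := fun w => Matrix.of fun i j =>
  (conj (∑ o, emb w o * emb w o) *
    ∑ o, hor (emb w) (hat (Pi.single i 1)) o * hor (emb w) (hat (Pi.single j 1)) o).re /
    nsq (emb w) ^ 2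

/-- The invariant one-form zeta. -/
noncomputable def zeta (z v : Option ν → ℂ) : ℂ :=
  conj (∑ o, z o * z o) * (∑ o, z o * hor z v o) / (nsq z : ℂ) ^ 2

/-- The real part of the square of zeta in the chart. -/
noncomputable def Cm : Fld (ν ⊕ ν) := fun w => Matrix.of fun i j =>
  (zeta (emb w) (hat (Pi.single i 1)) * zeta (emb w) (hat (Pi.single j 1))).re

/-- The invariant function rho. -/
noncomputable def rho (w : ν ⊕ ν → ℝ) : ℝ :=
  Complex.normSq (∑ o, emb w o * emb w o) / nsq (emb w) ^ 2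

/-- Multiplication by i. -/
def Ji (ν : Type) [Fintype ν] [DecidableEq ν] : Matrix (ν ⊕ ν) (ν ⊕ ν) ℝ :=
  Matrix.fromBlocks 0 (-1) 1 0

/-- The coefficient of the deformation. -/
noncomputable def lam (η : ℝ) (w : ν ⊕ ν → ℝ) : ℝ := 1 - √(η ^ 2 + 2 / 5 * (1 - rho w))

/-- The second coefficient of the deformation. -/
noncomputable def mu (η : ℝ) (w : ν ⊕ ν → ℝ) : ℝ :=
  11 / 10 / (√(η ^ 2 + 2 / 5 * (1 - rho w)) + √(η ^ 2 + 3 / 2 * (1 - rho w)))

/-- The deformation. -/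
noncomputable def Sf (η : ℝ) : Fld (ν ⊕ ν) := fun w => lam η w • Bm w + mu η w • Cm w

/-- The gauge 1 + S. -/
noncomputable def Gg (η : ℝ) : Fld (ν ⊕ ν) := fun w => 1 + (G0 w)⁻¹ * Sf η w

/-- The initial almost complex structure. -/
noncomputable def J1 (η : ℝ) : Fld (ν ⊕ ν) := fun w => Gg η w * Ji ν * (Gg η w)⁻¹

/-- The initial metric. -/
noncomputable def g1 (η : ℝ) : Fld (ν ⊕ ν) := fun w => (Ji ν)ᵀ * G0 w * J1 η w

/-- The curve transverse to the orbits. -/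
def cur {μ : Type} [DecidableEq μ] (y : ℝ) : Option μ ⊕ Option μ → ℝ :=
  Pi.single (Sum.inr none) y

namespace FS

open TauCP

set_option linter.unusedSectionVars false

/-- Hermitian product. -/
noncomputable def herm (u v : Option ν → ℂ) : ℂ := ∑ o, u o * conj (v o)

/-- Complex bilinear product. -/
noncomputable def bil (u v : Option ν → ℂ) : ℂ := ∑ o, u o * v o

noncomputable def hq (z u v : Option ν → ℂ) : ℝ := (herm (hor z u) (hor z v)).re / nsq z

noncomputable def bq (z u v : Option ν → ℂ) : ℝ :=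
  (conj (bil z z) * bil (hor z u) (hor z v)).re / nsq z ^ 2

lemma herm_add_left (u u' v : Option ν → ℂ) : herm (u + u') v = herm u v + herm u' v := by
  simp only [herm, Pi.add_apply, add_mul, Finset.sum_add_distrib]

lemma herm_add_right (u v v' : Option ν → ℂ) : herm u (v + v') = herm u v + herm u v' := by
  simp only [herm, Pi.add_apply, map_add, mul_add, Finset.sum_add_distrib]

lemma herm_smul_left (c : ℂ) (u v : Option ν → ℂ) : herm (c • u) v = c * herm u v := by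
  simp only [herm, Pi.smul_apply, smul_eq_mul, Finset.mul_sum, mul_assoc]

lemma herm_smul_right (c : ℂ) (u v : Option ν → ℂ) : herm u (c • v) = conj c * herm u v := by
  simp only [herm, Pi.smul_apply, smul_eq_mul, Finset.mul_sum, map_mul]
  exact Finset.sum_congr rfl fun _ _ => by ring

lemma herm_sub_left (u u' v : Option ν → ℂ) : herm (u - u') v = herm u v - herm u' v := by
  simp only [herm, Pi.sub_apply, sub_mul, Finset.sum_sub_distrib]

lemma herm_sub_right (u v v' : Option ν → ℂ) : herm u (v - v') = herm u v - herm u v' := by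
  simp only [herm, Pi.sub_apply, map_sub, mul_sub, Finset.sum_sub_distrib]

lemma herm_conj (u v : Option ν → ℂ) : conj (herm u v) = herm v u := by
  simp only [herm, map_sum, map_mul, Complex.conj_conj]
  exact Finset.sum_congr rfl fun _ _ => by ring

lemma herm_self (z : Option ν → ℂ) : herm z z = nsq z := by
  simp only [herm, nsq, Complex.mul_conj, Complex.ofReal_sum]

lemma bil_add_left (u u' v : Option ν → ℂ) : bil (u + u') v = bil u v + bil u' v := by
  simp only [bil, Pi.add_apply, add_mul, Finset.sum_add_distrib]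

lemma bil_smul_left (c : ℂ) (u v : Option ν → ℂ) : bil (c • u) v = c * bil u v := by
  simp only [bil, Pi.smul_apply, smul_eq_mul, Finset.mul_sum, mul_assoc]

lemma bil_comm (u v : Option ν → ℂ) : bil u v = bil v u :=
  Finset.sum_congr rfl fun _ _ => mul_comm _ _

lemma bil_add_right (u v v' : Option ν → ℂ) : bil u (v + v') = bil u v + bil u v' := by
  rw [bil_comm, bil_add_left, bil_comm v, bil_comm v']

lemma bil_smul_right (c : ℂ) (u v : Option ν → ℂ) : bil u (c • v) = c * bil u v := by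
  rw [bil_comm, bil_smul_left, bil_comm v]

lemma nsq_nonneg (z : Option ν → ℂ) : 0 ≤ nsq z :=
  Finset.sum_nonneg fun _ _ => Complex.normSq_nonneg _

lemma nsq_pos {z : Option ν → ℂ} (hz : z ≠ 0) : 0 < nsq z := by
  obtain ⟨o, ho⟩ := Function.ne_iff.mp hz
  exact Finset.sum_pos' (fun _ _ => Complex.normSq_nonneg _)
    ⟨o, Finset.mem_univ _, Complex.normSq_pos.mpr ho⟩

lemma emb_ne (w : ν ⊕ ν → ℝ) : emb w ≠ 0 := fun h => by
  have := congrFun h none; simp [emb] at this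

lemma nsq_emb (w : ν ⊕ ν → ℝ) : 0 < nsq (emb w) := nsq_pos (emb_ne w)

lemma nsq_smul (c : ℂ) (z : Option ν → ℂ) : nsq (c • z) = Complex.normSq c * nsq z := by
  simp only [nsq, Pi.smul_apply, smul_eq_mul, map_mul, Finset.mul_sum]

lemma norm_bil_le (z : Option ν → ℂ) : ‖bil z z‖ ≤ nsq z := by
  refine (norm_sum_le _ _).trans (le_of_eq (Finset.sum_congr rfl fun o _ => ?_))
  rw [norm_mul, Complex.normSq_eq_norm_sq, sq]

lemma hor_eq (z v : Option ν → ℂ) : hor z v = v - (herm v z / (nsq z : ℂ)) • z := rfl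

lemma hor_add (z u v : Option ν → ℂ) : hor z (u + v) = hor z u + hor z v := by
  simp only [hor_eq, herm_add_left, add_div, add_smul]; abel

lemma hor_smul (z : Option ν → ℂ) (c : ℂ) (v : Option ν → ℂ) : hor z (c • v) = c • hor z v := by
  simp only [hor_eq, herm_smul_left, smul_sub, smul_smul, mul_div_assoc]

lemma hor_self {z : Option ν → ℂ} (hz : z ≠ 0) : hor z z = 0 := by
  have : (nsq z : ℂ) ≠ 0 := by exact_mod_cast (nsq_pos hz).ne'
  rw [hor_eq, herm_self, div_self this, one_smul, sub_self]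

lemma hor_smul_base {c : ℂ} (hc : c ≠ 0) (z v : Option ν → ℂ) : hor (c • z) v = hor z v := by
  rw [hor_eq, hor_eq, herm_smul_right, nsq_smul, smul_smul]
  congr 2
  have : conj c ≠ 0 := by simpa using hc
  rw [Complex.ofReal_mul, ← Complex.mul_conj]
  by_cases h : (nsq z : ℂ) = 0
  · simp [h]
  · field_simp

lemma herm_hor {z : Option ν → ℂ} (hz : z ≠ 0) (u v : Option ν → ℂ) :
    herm (hor z u) (hor z v) = herm u v - herm u z * conj (herm v z) / nsq z := by
  have : (nsq z : ℂ) ≠ 0 := by exact_mod_cast (nsq_pos hz).ne'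
  simp only [hor_eq, herm_sub_left, herm_sub_right, herm_smul_left, herm_smul_right, herm_self,
    map_div₀, Complex.conj_ofReal, herm_conj]
  field_simp
  ring

lemma hat_add (u v : ν ⊕ ν → ℝ) : hat (u + v) = hat u + hat v := map_add hatL u v

lemma hat_smul (c : ℝ) (v : ν ⊕ ν → ℝ) : hat (c • v) = (c : ℂ) • hat v := by
  rw [Complex.coe_smul]; exact map_smul hatL c v

lemma hat_inj {u v : ν ⊕ ν → ℝ} (h : hat u = hat v) : u = v := by
  rw [← frC_toC u, ← frC_toC v]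
  congr 1
  funext a
  exact congrFun h (some a)

lemma hat_Ji (v : ν ⊕ ν → ℝ) : hat (Ji ν *ᵥ v) = Complex.I • hat v := by
  funext o
  cases o with
  | none => simp [hat]
  | some a =>
    simp [hat, toC, Ji, Complex.ext_iff, Matrix.mulVec, dotProduct, Matrix.one_apply]

noncomputable def GB (w : ν ⊕ ν → ℝ) : LinearMap.BilinForm ℝ (ν ⊕ ν → ℝ) :=
  LinearMap.mk₂ ℝ (fun u v => hq (emb w) (hat u) (hat v))
    (fun u u' v => by simp only [hq, hat_add, hor_add, herm_add_left, Complex.add_re, add_div])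
    (fun c u v => by
      simp only [hq, hat_smul, hor_smul, herm_smul_left, Complex.re_ofReal_mul, smul_eq_mul,
        mul_div_assoc])
    (fun u v v' => by simp only [hq, hat_add, hor_add, herm_add_right, Complex.add_re, add_div])
    (fun c u v => by
      simp only [hq, hat_smul, hor_smul, herm_smul_right, Complex.conj_ofReal,
        Complex.re_ofReal_mul, smul_eq_mul, mul_div_assoc])

noncomputable def BB (w : ν ⊕ ν → ℝ) : LinearMap.BilinForm ℝ (ν ⊕ ν → ℝ) :=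
  LinearMap.mk₂ ℝ (fun u v => bq (emb w) (hat u) (hat v))
    (fun u u' v => by
      simp only [bq, hat_add, hor_add, bil_add_left, mul_add, Complex.add_re, add_div])
    (fun c u v => by
      simp only [bq, hat_smul, hor_smul, bil_smul_left, smul_eq_mul]
      rw [mul_left_comm, Complex.re_ofReal_mul, mul_div_assoc])
    (fun u v v' => by
      simp only [bq, hat_add, hor_add, bil_add_right, mul_add, Complex.add_re, add_div])
    (fun c u v => by
      simp only [bq, hat_smul, hor_smul, bil_smul_right, smul_eq_mul]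
      rw [mul_left_comm, Complex.re_ofReal_mul, mul_div_assoc])

lemma zeta_eq (z v : Option ν → ℂ) :
    zeta z v = conj (bil z z) * bil z (hor z v) / (nsq z : ℂ) ^ 2 := rfl

lemma zeta_add (z u v : Option ν → ℂ) : zeta z (u + v) = zeta z u + zeta z v := by
  simp only [zeta_eq, hor_add, bil_add_right, mul_add, add_div]

lemma zeta_smul (z : Option ν → ℂ) (c : ℂ) (v : Option ν → ℂ) : zeta z (c • v) = c * zeta z v := by
  simp only [zeta_eq, hor_smul, bil_smul_right]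
  ring

noncomputable def CB (w : ν ⊕ ν → ℝ) : LinearMap.BilinForm ℝ (ν ⊕ ν → ℝ) :=
  LinearMap.mk₂ ℝ (fun u v => (zeta (emb w) (hat u) * zeta (emb w) (hat v)).re)
    (fun u u' v => by simp only [hat_add, zeta_add, add_mul, Complex.add_re])
    (fun c u v => by
      simp only [hat_smul, zeta_smul, smul_eq_mul]
      rw [mul_assoc, Complex.re_ofReal_mul])
    (fun u v v' => by simp only [hat_add, zeta_add, mul_add, Complex.add_re])
    (fun c u v => by
      simp only [hat_smul, zeta_smul, smul_eq_mul]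
      rw [mul_left_comm, Complex.re_ofReal_mul])

lemma form_Cm (w u v : ν ⊕ ν → ℝ) :
    u ⬝ᵥ Cm w *ᵥ v = (zeta (emb w) (hat u) * zeta (emb w) (hat v)).re := by
  have : Cm w = LinearMap.BilinForm.toMatrix' (CB w) := by
    ext i j; rw [LinearMap.BilinForm.toMatrix'_apply]; rfl
  rw [this, ← Matrix.toBilin'_apply', Matrix.toBilin'_toMatrix']; rfl

lemma form_G0 (w u v : ν ⊕ ν → ℝ) : u ⬝ᵥ G0 w *ᵥ v = hq (emb w) (hat u) (hat v) := by
  have : G0 w = LinearMap.BilinForm.toMatrix' (GB w) := by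
    ext i j; rw [LinearMap.BilinForm.toMatrix'_apply]; rfl
  rw [this, ← Matrix.toBilin'_apply', Matrix.toBilin'_toMatrix']; rfl

lemma form_Bm (w u v : ν ⊕ ν → ℝ) : u ⬝ᵥ Bm w *ᵥ v = bq (emb w) (hat u) (hat v) := by
  have : Bm w = LinearMap.BilinForm.toMatrix' (BB w) := by
    ext i j; rw [LinearMap.BilinForm.toMatrix'_apply]; rfl
  rw [this, ← Matrix.toBilin'_apply', Matrix.toBilin'_toMatrix']; rfl

section mat
variable {ι : Type} [Fintype ι] [DecidableEq ι]

lemma entry (A : Matrix ι ι ℝ) (i j : ι) : A i j = Pi.single i 1 ⬝ᵥ A *ᵥ Pi.single j 1 := by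
  simp

lemma ext_form {A B : Matrix ι ι ℝ} (h : ∀ u v, u ⬝ᵥ A *ᵥ v = u ⬝ᵥ B *ᵥ v) : A = B := by
  ext i j; rw [entry A, entry B, h]

lemma ext_vec {A B : Matrix ι ι ℝ} (h : ∀ v, A *ᵥ v = B *ᵥ v) : A = B :=
  ext_form fun u v => by rw [h]

lemma form_tr (P A : Matrix ι ι ℝ) (u v : ι → ℝ) : u ⬝ᵥ (Pᵀ * A) *ᵥ v = (P *ᵥ u) ⬝ᵥ A *ᵥ v := by
  rw [← mulVec_mulVec, dotProduct_mulVec, vecMul_transpose]

lemma form_conj (P A Q : Matrix ι ι ℝ) (u v : ι → ℝ) :
    u ⬝ᵥ (Pᵀ * A * Q) *ᵥ v = (P *ᵥ u) ⬝ᵥ A *ᵥ (Q *ᵥ v) := by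
  rw [← mulVec_mulVec, form_tr]

variable {E : Type} [NormedAddCommGroup E] [NormedSpace ℝ E]

lemma smooth_mul {A B : E → Matrix ι ι ℝ} (hA : ∀ a b, ContDiff ℝ ∞ fun w => A w a b)
    (hB : ∀ a b, ContDiff ℝ ∞ fun w => B w a b) (a b : ι) :
    ContDiff ℝ ∞ fun w => (A w * B w) a b := by
  simp only [Matrix.mul_apply]
  exact ContDiff.sum fun k _ => (hA a k).mul (hB k b)

lemma smooth_det {A : E → Matrix ι ι ℝ} (hA : ∀ a b, ContDiff ℝ ∞ fun w => A w a b) :
    ContDiff ℝ ∞ fun w => (A w).det := by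
  simp only [Matrix.det_apply']
  exact ContDiff.sum fun σ _ => contDiff_const.mul (contDiff_prod fun k _ => hA _ _)

lemma smooth_inv {A : E → Matrix ι ι ℝ} (hA : ∀ a b, ContDiff ℝ ∞ fun w => A w a b)
    (hd : ∀ w, (A w).det ≠ 0) (a b : ι) : ContDiff ℝ ∞ fun w => (A w)⁻¹ a b := by
  simp only [Matrix.inv_def, Matrix.smul_apply, smul_eq_mul, Ring.inverse_eq_inv',
    Matrix.adjugate_apply]
  refine ((smooth_det hA).inv hd).mul (smooth_det fun c d => ?_)
  simp only [Matrix.updateRow_apply]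
  split_ifs
  · exact contDiff_const
  · exact hA _ _

end mat

lemma hq_symm (z u v : Option ν → ℂ) : hq z u v = hq z v u := by
  rw [hq, hq, ← herm_conj, Complex.conj_re]

lemma bq_symm (z u v : Option ν → ℂ) : bq z u v = bq z v u := by
  rw [bq, bq, bil_comm (hor z u)]

lemma hq_self (z u : Option ν → ℂ) : hq z u u = nsq (hor z u) / nsq z := by
  rw [hq, herm_self, Complex.ofReal_re]

lemma hq_pos (w : ν ⊕ ν → ℝ) {v : ν ⊕ ν → ℝ} (hv : v ≠ 0) : 0 < hq (emb w) (hat v) (hat v) := by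
  rw [hq_self]
  refine div_pos (nsq_pos fun h => hv ?_) (nsq_emb w)
  rw [hor_eq, sub_eq_zero] at h
  have h0 := congrFun h none
  rw [Pi.smul_apply, smul_eq_mul, show emb w none = 1 from rfl, mul_one,
    show hat v none = 0 from rfl] at h0
  apply hat_inj
  rw [h]
  have : hat (0 : ν ⊕ ν → ℝ) = 0 := map_zero hatL
  rw [this, ← h0, zero_smul]

lemma abs_bq_le {z : Option ν → ℂ} (hz : z ≠ 0) (u : Option ν → ℂ) : |bq z u u| ≤ hq z u u := by
  have hp := nsq_pos hz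
  rw [hq_self, bq, abs_div, abs_of_pos (pow_pos hp 2), div_le_div_iff₀ (pow_pos hp 2) hp]
  have h1 := Complex.abs_re_le_norm (conj (bil z z) * bil (hor z u) (hor z u))
  rw [norm_mul, Complex.norm_conj] at h1
  have h2 := mul_le_mul (norm_bil_le z) (norm_bil_le (hor z u)) (norm_nonneg _) hp.le
  nlinarith

lemma G0_symm (w : ν ⊕ ν → ℝ) : (G0 w)ᵀ = G0 w := by
  ext i j; exact hq_symm _ _ _

lemma Bm_symm (w : ν ⊕ ν → ℝ) : (Bm w)ᵀ = Bm w := by
  ext i j; exact bq_symm _ _ _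

lemma Cm_symm (w : ν ⊕ ν → ℝ) : (Cm w)ᵀ = Cm w := by
  ext i j; exact congrArg Complex.re (mul_comm _ _)

lemma nsq_hor {z : Option ν → ℂ} (hz : z ≠ 0) (u : Option ν → ℂ) :
    nsq (hor z u) = nsq u - Complex.normSq (herm u z) / nsq z := by
  have := herm_hor hz u u
  rw [herm_self, herm_self, Complex.mul_conj] at this
  exact_mod_cast this

lemma cs (u v : Option ν → ℂ) : Complex.normSq (herm u v) ≤ nsq u * nsq v := by
  rcases eq_or_ne v 0 with rfl | hv
  · simp [herm, nsq]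
  · have := nsq_nonneg (hor v u)
    rwa [nsq_hor hv, sub_nonneg, div_le_iff₀ (nsq_pos hv)] at this

lemma normSq_zeta {z : Option ν → ℂ} (hz : z ≠ 0) (u : Option ν → ℂ) :
    Complex.normSq (zeta z u) ≤ (1 - Complex.normSq (bil z z) / nsq z ^ 2) * hq z u u := by
  have hp := nsq_pos hz
  have e1 : ∀ v, herm v (star z) = bil z v := fun v =>
    Finset.sum_congr rfl fun o _ => by simp [mul_comm]
  have e2 : herm (star z) z = conj (bil z z) := by rw [← herm_conj, e1]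
  have e3 : nsq (star z) = nsq z := Finset.sum_congr rfl fun o _ => by simp
  have e4 : bil z (hor z u) = herm (hor z u) (hor z (star z)) := by
    rw [herm_hor hz, e1, e2, Complex.conj_conj, hor_eq, sub_eq_add_neg, ← neg_smul, bil_add_right,
      bil_smul_right]
    ring
  have h1 := cs (hor z u) (hor z (star z))
  rw [← e4, nsq_hor hz (star z), e2, e3, Complex.normSq_conj] at h1
  have h2 : Complex.normSq (bil z z) ≤ nsq z ^ 2 := by
    rw [Complex.normSq_eq_norm_sq]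
    exact pow_le_pow_left₀ (norm_nonneg _) (norm_bil_le _) 2
  rw [zeta_eq, map_div₀, map_mul, map_pow, Complex.normSq_conj, Complex.normSq_ofReal, hq_self,
    div_le_iff₀ (by positivity)]
  refine (mul_le_mul h2 h1 (Complex.normSq_nonneg _) (by positivity)).trans_eq ?_
  field_simp

lemma posDef_add (w : ν ⊕ ν → ℝ) {S : Matrix (ν ⊕ ν) (ν ⊕ ν) ℝ} (hS : Sᵀ = S)
    (h : ∀ v ≠ 0, |v ⬝ᵥ S *ᵥ v| < hq (emb w) (hat v) (hat v)) : (G0 w + S).PosDef := by
  refine Matrix.PosDef.of_dotProduct_mulVec_pos ?_ fun v hv => ?_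
  · rw [Matrix.IsHermitian, conjTranspose_eq_transpose_of_trivial, transpose_add, G0_symm, hS]
  · rw [star_trivial, add_mulVec, dotProduct_add, form_G0]
    linarith [h v hv, neg_abs_le (v ⬝ᵥ S *ᵥ v)]

lemma Ji_tr : (Ji ν)ᵀ = -Ji ν := by
  simp [Ji, fromBlocks_transpose, fromBlocks_neg]

lemma G0_Ji (w : ν ⊕ ν → ℝ) : G0 w * Ji ν = Ji ν * G0 w := by
  rw [← neg_neg (Ji ν * G0 w), ← Matrix.neg_mul, ← Ji_tr]
  refine ext_form fun u v => ?_
  rw [← mulVec_mulVec, neg_mulVec, dotProduct_neg, form_tr, form_G0, form_G0, hat_Ji, hat_Ji]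
  simp [hq, hor_smul, herm_smul_left, herm_smul_right, neg_div]

lemma Bm_Ji (w : ν ⊕ ν → ℝ) : Bm w * Ji ν = -(Ji ν * Bm w) := by
  rw [← Matrix.neg_mul, ← Ji_tr]
  refine ext_form fun u v => ?_
  rw [← mulVec_mulVec, form_tr, form_Bm, form_Bm, hat_Ji, hat_Ji]
  simp only [bq, hor_smul, bil_smul_left, bil_smul_right]

lemma Cm_Ji (w : ν ⊕ ν → ℝ) : Cm w * Ji ν = -(Ji ν * Cm w) := by
  rw [← Matrix.neg_mul, ← Ji_tr]
  refine ext_form fun u v => ?_
  rw [← mulVec_mulVec, form_tr, form_Cm, form_Cm, hat_Ji, hat_Ji, zeta_smul, zeta_smul,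
    mul_left_comm, mul_assoc]

lemma sum_B (L : Sy ν) (f g : Option ν → ℂ) :
    ∑ o, (∑ a, (L.B o a : ℂ) * f a) * (∑ b, (L.B o b : ℂ) * g b) = ∑ a, f a * g a := by
  have h : ∀ a b, ∑ o, (L.B o a : ℂ) * (L.B o b : ℂ) = if a = b then 1 else 0 := by
    intro a b
    have := congrFun (congrFun L.orth a) b
    simp only [Matrix.mul_apply, transpose_apply, Matrix.one_apply] at this
    have h2 := congrArg Complex.ofReal this
    push_cast at h2
    rw [h2]; split_ifs <;> simp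
  calc _ = ∑ a, ∑ b, (∑ o, (L.B o a : ℂ) * (L.B o b : ℂ)) * (f a * g b) := by
        simp only [Finset.sum_mul_sum]
        simp only [Finset.sum_mul]
        rw [Finset.sum_comm]
        refine Finset.sum_congr rfl fun a _ => ?_
        rw [Finset.sum_comm]
        exact Finset.sum_congr rfl fun b _ => Finset.sum_congr rfl fun o _ => by ring
    _ = _ := by simp [h]

lemma bil_act (L : Sy ν) (u v : Option ν → ℂ) : bil (L.act u) (L.act v) = tw L (bil u v) := by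
  simp only [bil, Sy.act, tw]
  rw [sum_B]
  split_ifs <;> simp

lemma herm_act (L : Sy ν) (u v : Option ν → ℂ) : herm (L.act u) (L.act v) = tw L (herm u v) := by
  simp only [herm, Sy.act, tw, map_sum, map_mul, Complex.conj_ofReal]
  rw [sum_B]
  split_ifs <;> simp

lemma tw_re (L : Sy ν) (c : ℂ) : (tw L c).re = c.re := by unfold tw; split_ifs <;> simp

lemma tw_normSq (L : Sy ν) (c : ℂ) : Complex.normSq (tw L c) = Complex.normSq c := by
  unfold tw; split_ifs <;> simp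

lemma tw_mul_re (L : Sy ν) (c d : ℂ) : (conj (tw L c) * tw L d).re = (conj c * d).re := by
  unfold tw; split_ifs <;> simp

lemma nsq_act (L : Sy ν) (z : Option ν → ℂ) : nsq (L.act z) = nsq z := by
  have := congrArg Complex.re (herm_act L z z)
  rwa [tw_re, herm_self, herm_self, Complex.ofReal_re, Complex.ofReal_re] at this

lemma hor_act (L : Sy ν) (z v : Option ν → ℂ) : hor (L.act z) (L.act v) = L.act (hor z v) := by
  have : L.act (hor z v) = L.act v - L.act ((herm v z / (nsq z : ℂ)) • z) :=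
    map_sub (actL L) _ _
  rw [this, act_smul, hor_eq, herm_act, nsq_act]
  congr 2
  unfold tw; split_ifs <;> simp

lemma act_ne (L : Sy ν) {w : ν ⊕ ν → ℝ} (hw : w ∈ L.dom) : L.act (emb w) ≠ 0 :=
  fun h => hw (congrFun h none)

lemma hor_tau (L : Sy ν) {w : ν ⊕ ν → ℝ} (hw : w ∈ L.dom) (v : ν ⊕ ν → ℝ) :
    hor (emb (L.tau w)) (hat (L.jc w *ᵥ v)) =
      (L.act (emb w) none)⁻¹ • L.act (hor (emb w) (hat v)) := by
  rw [L.emb_tau hw, L.hat_jc hw, hor_smul_base (inv_ne_zero hw), sub_eq_add_neg, ← neg_smul,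
    hor_add, hor_smul, hor_smul, hor_self (act_ne L hw), smul_zero, add_zero, hor_act]

lemma Bm_inv (L : Sy ν) {w : ν ⊕ ν → ℝ} (hw : w ∈ L.dom) :
    (L.jc w)ᵀ * Bm (L.tau w) * L.jc w = Bm w := by
  refine ext_form fun u v => ?_
  rw [form_conj, form_Bm, form_Bm, bq, bq, hor_tau L hw, hor_tau L hw, L.emb_tau hw]
  have hc : (L.act (emb w) none)⁻¹ ≠ 0 := inv_ne_zero hw
  generalize (L.act (emb w) none)⁻¹ = c at hc
  have hc' : Complex.normSq c ≠ 0 := by simpa using hc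
  simp only [bil_smul_left, bil_smul_right, bil_act, nsq_smul, nsq_act, map_mul]
  rw [show ∀ a b : ℂ, conj c * (conj c * a) * (c * (c * b)) =
      ((Complex.normSq c ^ 2 : ℝ) : ℂ) * (a * b) from fun a b => by
    push_cast; rw [← Complex.mul_conj]; ring, Complex.re_ofReal_mul, tw_mul_re, mul_pow,
    mul_div_mul_left _ _ (pow_ne_zero 2 hc')]

lemma zeta_tau (L : Sy ν) {w : ν ⊕ ν → ℝ} (hw : w ∈ L.dom) (v : ν ⊕ ν → ℝ) :
    zeta (emb (L.tau w)) (hat (L.jc w *ᵥ v)) = tw L (zeta (emb w) (hat v)) := by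
  rw [zeta_eq, zeta_eq, hor_tau L hw, L.emb_tau hw]
  have hc : (L.act (emb w) none)⁻¹ ≠ 0 := inv_ne_zero hw
  generalize (L.act (emb w) none)⁻¹ = c at hc
  have hc' : conj c ≠ 0 := by simpa using hc
  have hn : (nsq (emb w) : ℂ) ≠ 0 := by exact_mod_cast (nsq_emb w).ne'
  simp only [bil_smul_left, bil_smul_right, bil_act, nsq_smul, nsq_act, map_mul,
    Complex.ofReal_mul, ← Complex.mul_conj]
  unfold tw
  split_ifs
  · simp only [map_div₀, map_mul, map_pow, Complex.conj_ofReal]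
    field_simp
  · field_simp

lemma Cm_inv (L : Sy ν) {w : ν ⊕ ν → ℝ} (hw : w ∈ L.dom) :
    (L.jc w)ᵀ * Cm (L.tau w) * L.jc w = Cm w := by
  refine ext_form fun u v => ?_
  rw [form_conj, form_Cm, form_Cm, zeta_tau L hw, zeta_tau L hw]
  unfold tw; split_ifs <;> simp

lemma rho_inv (L : Sy ν) {w : ν ⊕ ν → ℝ} (hw : w ∈ L.dom) : rho (L.tau w) = rho w := by
  show Complex.normSq (bil _ _) / _ = Complex.normSq (bil _ _) / _
  rw [L.emb_tau hw]
  have hc : (L.act (emb w) none)⁻¹ ≠ 0 := inv_ne_zero hw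
  generalize (L.act (emb w) none)⁻¹ = c at hc
  have hc' : Complex.normSq c ≠ 0 := by simpa using hc
  simp only [bil_smul_left, bil_smul_right, bil_act, nsq_smul, nsq_act, map_mul, tw_normSq]
  rw [← mul_assoc, ← sq, mul_pow, mul_div_mul_left _ _ (pow_ne_zero 2 hc')]

lemma rho_nonneg (w : ν ⊕ ν → ℝ) : 0 ≤ rho w :=
  div_nonneg (Complex.normSq_nonneg _) (sq_nonneg _)

lemma rho_le (w : ν ⊕ ν → ℝ) : rho w ≤ 1 := by
  show Complex.normSq (bil _ _) / _ ≤ 1
  rw [div_le_one (pow_pos (nsq_emb w) 2), Complex.normSq_eq_norm_sq]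
  exact pow_le_pow_left₀ (norm_nonneg _) (norm_bil_le _) 2

lemma Sf_symm (η : ℝ) (w : ν ⊕ ν → ℝ) : (Sf η w)ᵀ = Sf η w := by
  rw [Sf, transpose_add, transpose_smul, transpose_smul, Bm_symm, Cm_symm]

lemma Sf_Ji (η : ℝ) (w : ν ⊕ ν → ℝ) : Sf η w * Ji ν = -(Ji ν * Sf η w) := by
  rw [Sf, Matrix.add_mul, Matrix.mul_add, Matrix.smul_mul, Matrix.smul_mul, Matrix.mul_smul,
    Matrix.mul_smul, Bm_Ji, Cm_Ji, smul_neg, smul_neg, neg_add]

lemma Sf_inv (η : ℝ) (L : Sy ν) {w : ν ⊕ ν → ℝ} (hw : w ∈ L.dom) :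
    (L.jc w)ᵀ * Sf η (L.tau w) * L.jc w = Sf η w := by
  rw [Sf, Sf, lam, lam, mu, mu, rho_inv L hw, Matrix.mul_add, Matrix.add_mul, Matrix.mul_smul,
    Matrix.mul_smul, Matrix.smul_mul, Matrix.smul_mul, Bm_inv L hw, Cm_inv L hw]

lemma mu_eq {η x : ℝ} (hη : 0 < η) (hx : 0 ≤ x) :
    11 / 10 / (√(η ^ 2 + 2 / 5 * x) + √(η ^ 2 + 3 / 2 * x)) * x =
      √(η ^ 2 + 3 / 2 * x) - √(η ^ 2 + 2 / 5 * x) := by
  have a : 0 < √(η ^ 2 + 2 / 5 * x) + √(η ^ 2 + 3 / 2 * x) := by positivity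
  have b := Real.sq_sqrt (by positivity : 0 ≤ η ^ 2 + 2 / 5 * x)
  have c := Real.sq_sqrt (by positivity : 0 ≤ η ^ 2 + 3 / 2 * x)
  rw [div_mul_eq_mul_div, div_eq_iff a.ne']
  linarith

lemma abs_Sf {η : ℝ} (hη : η ∈ Ioo (0 : ℝ) (1 / 10)) (w : ν ⊕ ν → ℝ) (v : ν ⊕ ν → ℝ)
    (hv : v ≠ 0) : |v ⬝ᵥ Sf η w *ᵥ v| < hq (emb w) (hat v) (hat v) := by
  have h0 := rho_nonneg w
  have h1 := sub_nonneg.2 (rho_le w)
  have η0 := hη.1
  have b : √(η ^ 2 + 2 / 5 * (1 - rho w)) < 1 := by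
    rw [Real.sqrt_lt' one_pos]; nlinarith [hη.2]
  have c : √(η ^ 2 + 3 / 2 * (1 - rho w)) < 2 * √(η ^ 2 + 2 / 5 * (1 - rho w)) := by
    rw [Real.sqrt_lt' (by positivity), mul_pow, Real.sq_sqrt (by positivity)]
    nlinarith [mul_pos η0 η0]
  have hl : 0 ≤ lam η w := by rw [lam]; linarith
  have hm : 0 ≤ mu η w := by rw [mu]; positivity
  have h2 := hq_pos w hv
  have h3 := mul_le_mul_of_nonneg_left (abs_bq_le (emb_ne w) (hat v)) hl
  have h4 : |(zeta (emb w) (hat v) * zeta (emb w) (hat v)).re| ≤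
      (1 - rho w) * hq (emb w) (hat v) (hat v) := by
    refine (Complex.abs_re_le_norm _).trans ?_
    rw [norm_mul, ← sq, ← Complex.normSq_eq_norm_sq]
    exact normSq_zeta (emb_ne w) _
  have h5 := mul_le_mul_of_nonneg_left h4 hm
  rw [← mul_assoc, mu, mu_eq η0 h1, ← mu] at h5
  rw [Sf, add_mulVec, dotProduct_add, smul_mulVec, smul_mulVec, dotProduct_smul, dotProduct_smul,
    form_Bm, form_Cm, smul_eq_mul, smul_eq_mul]
  refine (abs_add_le _ _).trans_lt ?_
  rw [abs_mul, abs_mul, abs_of_nonneg hl, abs_of_nonneg hm]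
  rw [lam] at h3 ⊢
  nlinarith [mul_pos (sub_pos.2 c) h2]

lemma posDef_Sf {η : ℝ} (hη : η ∈ Ioo (0 : ℝ) (1 / 10)) (w : ν ⊕ ν → ℝ) :
    (G0 w + Sf η w).PosDef := posDef_add w (Sf_symm η w) (abs_Sf hη w)

lemma posDef_Sf' {η : ℝ} (hη : η ∈ Ioo (0 : ℝ) (1 / 10)) (w : ν ⊕ ν → ℝ) :
    (G0 w + -Sf η w).PosDef :=
  posDef_add w (by rw [transpose_neg, Sf_symm]) fun v hv => by
    rw [neg_mulVec, dotProduct_neg, abs_neg]; exact abs_Sf hη w v hv

section smooth
variable {E : Type} [NormedAddCommGroup E] [NormedSpace ℝ E]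

lemma sm_conj {f : E → ℂ} (hf : ContDiff ℝ ∞ f) : ContDiff ℝ ∞ fun w => conj (f w) :=
  Complex.conjCLE.contDiff.comp hf

lemma sm_re {f : E → ℂ} (hf : ContDiff ℝ ∞ f) : ContDiff ℝ ∞ fun w => (f w).re :=
  Complex.reCLM.contDiff.comp hf

lemma sm_herm {f g : E → Option ν → ℂ} (hf : ContDiff ℝ ∞ f) (hg : ContDiff ℝ ∞ g) :
    ContDiff ℝ ∞ fun w => herm (f w) (g w) :=
  ContDiff.sum fun o _ => (contDiff_pi.1 hf o).mul (sm_conj (contDiff_pi.1 hg o))

lemma sm_bil {f g : E → Option ν → ℂ} (hf : ContDiff ℝ ∞ f) (hg : ContDiff ℝ ∞ g) :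
    ContDiff ℝ ∞ fun w => bil (f w) (g w) :=
  ContDiff.sum fun o _ => (contDiff_pi.1 hf o).mul (contDiff_pi.1 hg o)

end smooth

lemma sm_nsq : ContDiff ℝ ∞ fun w : ν ⊕ ν → ℝ => nsq (emb w) := by
  have := sm_re (sm_herm (contDiff_emb (ν := ν)) contDiff_emb)
  simpa only [herm_self, Complex.ofReal_re] using this

lemma sm_hor (v : Option ν → ℂ) : ContDiff ℝ ∞ fun w : ν ⊕ ν → ℝ => hor (emb w) v := by
  simp only [hor_eq, div_eq_mul_inv]
  refine contDiff_const.sub (((sm_herm contDiff_const contDiff_emb).mul ?_).smul contDiff_emb)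
  refine ContDiff.inv (Complex.ofRealCLM.contDiff.comp sm_nsq) fun w => ?_
  exact_mod_cast (nsq_emb w).ne'

lemma Bm_smooth (a b : ν ⊕ ν) : ContDiff ℝ ∞ fun w : ν ⊕ ν → ℝ => Bm w a b :=
  (sm_re ((sm_conj (sm_bil contDiff_emb contDiff_emb)).mul (sm_bil (sm_hor _) (sm_hor _)))).div
    (sm_nsq.pow 2) fun w => pow_ne_zero 2 (nsq_emb w).ne'

lemma rho_smooth : ContDiff ℝ ∞ fun w : ν ⊕ ν → ℝ => rho w := by
  have h := sm_bil (contDiff_emb (ν := ν)) contDiff_emb
  have := (sm_re (h.mul (sm_conj h))).div (sm_nsq.pow 2) fun w => pow_ne_zero 2 (nsq_emb w).ne'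
  simp only [Complex.mul_conj, Complex.ofReal_re] at this
  exact this

lemma sm_zeta (v : Option ν → ℂ) : ContDiff ℝ ∞ fun w : ν ⊕ ν → ℝ => zeta (emb w) v := by
  simp only [zeta_eq, div_eq_mul_inv, ← inv_pow]
  refine ((sm_conj (sm_bil contDiff_emb contDiff_emb)).mul (sm_bil contDiff_emb (sm_hor _))).mul
    (ContDiff.pow (ContDiff.inv (Complex.ofRealCLM.contDiff.comp sm_nsq) fun w => ?_) 2)
  exact Complex.ofReal_ne_zero.2 (nsq_emb w).ne'

lemma Cm_smooth (a b : ν ⊕ ν) : ContDiff ℝ ∞ fun w : ν ⊕ ν → ℝ => Cm w a b :=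
  sm_re ((sm_zeta _).mul (sm_zeta _))

lemma Sf_smooth {η : ℝ} (hη : 0 < η) (a b : ν ⊕ ν) :
    ContDiff ℝ ∞ fun w : ν ⊕ ν → ℝ => Sf η w a b := by
  have h : ∀ c : ℝ, 0 ≤ c → ContDiff ℝ ∞ fun w : ν ⊕ ν → ℝ => √(η ^ 2 + c * (1 - rho w)) :=
    fun c hc => ContDiff.sqrt
      (contDiff_const.add (contDiff_const.mul (contDiff_const.sub rho_smooth))) fun w => by
        have := sub_nonneg.2 (rho_le w)
        positivity
  simp only [Sf, lam, mu, Matrix.add_apply, Matrix.smul_apply, smul_eq_mul]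
  refine ((contDiff_const.sub (h _ (by norm_num))).mul (Bm_smooth a b)).add
    ((contDiff_const.div ((h _ (by norm_num)).add (h _ (by norm_num))) fun w => ?_).mul
      (Cm_smooth a b))
  have := sub_nonneg.2 (rho_le w)
  positivity

end FS

open FS TauCP

lemma G0_posDef (w : ν ⊕ ν → ℝ) : (G0 w).PosDef := by
  simpa using posDef_add w (S := 0) (by simp) fun v hv => by simpa using hq_pos w hv

lemma G0_smooth (a b : ν ⊕ ν) : ContDiff ℝ ∞ fun w : ν ⊕ ν → ℝ => G0 w a b :=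
  (sm_re (sm_herm (sm_hor _) (sm_hor _))).div sm_nsq fun w => (nsq_emb w).ne'

lemma Ji_sq : Ji ν * Ji ν = -1 := by
  rw [← fromBlocks_one, fromBlocks_neg]
  simp [Ji, fromBlocks_multiply]

lemma G0_herm (w : ν ⊕ ν → ℝ) : (Ji ν)ᵀ * G0 w * Ji ν = G0 w := by
  rw [Matrix.mul_assoc, G0_Ji, ← Matrix.mul_assoc, Ji_tr, Matrix.neg_mul, Ji_sq, neg_neg,
    Matrix.one_mul]

namespace FS

lemma om_entry (w : ν ⊕ ν → ℝ) (i j : ν ⊕ ν) : om G0 (fun _ => Ji ν) w i j =
    -(herm (hat (Pi.single i 1)) (hat (Pi.single j 1))).im * (nsq (emb w))⁻¹ +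
    ((herm (hat (Pi.single i 1)) (emb w)).im * (herm (hat (Pi.single j 1)) (emb w)).re -
      (herm (hat (Pi.single i 1)) (emb w)).re * (herm (hat (Pi.single j 1)) (emb w)).im) *
      (nsq (emb w))⁻¹ ^ 2 := by
  rw [om, entry ((Ji ν)ᵀ * G0 w), form_tr, form_G0, hat_Ji, hq, hor_smul, herm_smul_left,
    herm_hor (emb_ne w)]
  have := (nsq_emb w).ne'
  simp only [Complex.mul_re, Complex.I_re, Complex.I_im, Complex.sub_im, Complex.div_ofReal_im,
    Complex.mul_im, Complex.conj_re, Complex.conj_im]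
  field_simp
  ring

lemma emb_line (w v : ν ⊕ ν → ℝ) (t : ℝ) : emb (w + t • v) = emb w + (t : ℂ) • hat v := by
  rw [emb_eq, emb_eq w, hatL_apply, hatL_apply, hat_add, hat_smul, add_assoc]

lemma pd_om (w : ν ⊕ ν → ℝ) (i j k : ν ⊕ ν) :
    pd k (om G0 fun _ => Ji ν) w i j =
      (herm (hat (Pi.single i 1)) (hat (Pi.single j 1))).im *
        (2 * (herm (hat (Pi.single k 1)) (emb w)).re) * (nsq (emb w))⁻¹ ^ 2 +
      ((herm (hat (Pi.single i 1)) (hat (Pi.single k 1))).im *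
          (herm (hat (Pi.single j 1)) (emb w)).re +
        (herm (hat (Pi.single i 1)) (emb w)).im *
          (herm (hat (Pi.single j 1)) (hat (Pi.single k 1))).re -
        ((herm (hat (Pi.single i 1)) (hat (Pi.single k 1))).re *
          (herm (hat (Pi.single j 1)) (emb w)).im +
        (herm (hat (Pi.single i 1)) (emb w)).re *
          (herm (hat (Pi.single j 1)) (hat (Pi.single k 1))).im)) * (nsq (emb w))⁻¹ ^ 2 -
      ((herm (hat (Pi.single i 1)) (emb w)).im * (herm (hat (Pi.single j 1)) (emb w)).re -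
        (herm (hat (Pi.single i 1)) (emb w)).re * (herm (hat (Pi.single j 1)) (emb w)).im) *
        (4 * (herm (hat (Pi.single k 1)) (emb w)).re) * (nsq (emb w))⁻¹ ^ 3 := by
  have hd : DifferentiableAt ℝ (fun y => om G0 (fun _ => Ji ν) y i j) w :=
    ((smooth_mul (A := fun _ => (Ji ν)ᵀ) (fun _ _ => contDiff_const) G0_smooth i j).differentiable
      (by simp)).differentiableAt
  refine (hd.hasFDerivAt.hasLineDerivAt (Pi.single k 1)).unique ?_
  unfold HasLineDerivAt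
  simp only [om_entry, emb_line, herm_add_right, herm_smul_right, Complex.conj_ofReal,
    Complex.add_re, Complex.add_im, Complex.re_ofReal_mul, Complex.im_ofReal_mul]
  have hN : ∀ t : ℝ, nsq (emb w + (t : ℂ) • hat (Pi.single k 1)) = nsq (emb w) +
      t * (2 * (herm (hat (Pi.single k 1)) (emb w)).re) + t * (t * nsq (hat (Pi.single k 1))) := by
    intro t
    have := congrArg Complex.re (herm_self (emb w + (t : ℂ) • hat (Pi.single k (1 : ℝ))))
    rw [Complex.ofReal_re] at this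
    rw [← this, herm_add_left, herm_add_right, herm_add_right, herm_smul_left _ _ (_ • _),
      herm_smul_right _ (hat _) (hat _)]
    simp only [herm_smul_left, herm_smul_right, herm_self,
      Complex.conj_ofReal, Complex.add_re, Complex.re_ofReal_mul, Complex.ofReal_re]
    rw [← herm_conj (hat _) (emb w), Complex.conj_re]
    ring
  simp only [hN]
  have hp := (nsq_emb w).ne'
  have lin : ∀ a b : ℝ, HasDerivAt (fun t : ℝ => a + t * b) b 0 := fun a b => by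
    simpa using ((hasDerivAt_id (0 : ℝ)).mul_const b).const_add a
  have hn : ∀ a b c : ℝ, a ≠ 0 →
      HasDerivAt (fun t : ℝ => (a + t * b + t * (t * c))⁻¹) (-b * a⁻¹ ^ 2) 0 := fun a b c ha => by
    have := ((lin a b).add ((hasDerivAt_id (0 : ℝ)).mul
      ((hasDerivAt_id (0 : ℝ)).mul_const c))).inv (by simpa using ha)
    refine this.congr_deriv ?_
    simp only [Pi.add_apply, Pi.mul_apply, id, zero_mul, mul_zero, add_zero]
    field_simp
  have h1 := hn _ (2 * (herm (hat (Pi.single k 1)) (emb w)).re) (nsq (hat (Pi.single k 1))) hp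
  refine ((h1.const_mul _).add
    ((((lin _ _).mul (lin _ _)).sub ((lin _ _).mul (lin _ _))).mul (h1.pow 2))).congr_deriv ?_
  simp only [Pi.sub_apply, Pi.mul_apply, Pi.pow_apply, zero_mul, add_zero]
  norm_num
  ring

end FS

lemma G0_closed (w : ν ⊕ ν → ℝ) : Closed (om G0 fun _ => Ji ν) w := by
  intro i j k
  rw [pd_om, pd_om, pd_om]
  rw [← herm_conj (hat (Pi.single i 1)) (hat (Pi.single j 1)),
    ← herm_conj (hat (Pi.single j 1)) (hat (Pi.single k 1)),
    ← herm_conj (hat (Pi.single k 1)) (hat (Pi.single i 1))]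
  simp only [Complex.conj_re, Complex.conj_im]
  ring

lemma G0_inv (L : Sy ν) {w : ν ⊕ ν → ℝ} (hw : w ∈ L.dom) :
    (L.jc w)ᵀ * G0 (L.tau w) * L.jc w = G0 w := by
  refine ext_form fun u v => ?_
  rw [form_conj, form_G0, form_G0, hq, hq, hor_tau L hw, hor_tau L hw, L.emb_tau hw]
  have hc : (L.act (emb w) none)⁻¹ ≠ 0 := inv_ne_zero hw
  generalize (L.act (emb w) none)⁻¹ = c at hc
  have hc' : Complex.normSq c ≠ 0 := by simpa using hc
  simp only [herm_smul_left, herm_smul_right, herm_act, nsq_smul, nsq_act]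
  rw [← mul_assoc, mul_comm _ c, Complex.mul_conj, Complex.re_ofReal_mul, tw_re, mul_div_mul_left _ _ hc']

namespace FS

lemma jc_unit (L : Sy ν) {w : ν ⊕ ν → ℝ} (hw : w ∈ L.dom) : IsUnit (L.jc w).det :=
  (L.jc_det hw).isUnit

lemma Ji_jc (L : Sy ν) {w : ν ⊕ ν → ℝ} (hw : w ∈ L.dom) :
    Ji ν * L.jc w = L.jc w * (L.sgn • Ji ν) := by
  refine ext_vec fun v => hat_inj ?_
  rw [← mulVec_mulVec, ← mulVec_mulVec, hat_Ji, L.hat_jc hw, L.hat_jc hw, smul_mulVec, hat_smul,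
    hat_Ji, smul_smul, act_smul]
  have : tw L (L.sgn * Complex.I) = Complex.I := by
    unfold tw Sy.sgn; split_ifs <;> simp
  rw [this]
  funext o
  simp only [Pi.smul_apply, Pi.sub_apply, smul_eq_mul]
  ring

end FS

lemma Ji_inv (L : Sy ν) {w : ν ⊕ ν → ℝ} (hw : w ∈ L.dom) :
    (L.jc w)⁻¹ * Ji ν * L.jc w = L.sgn • Ji ν := by
  rw [Matrix.mul_assoc, Ji_jc L hw, Matrix.nonsing_inv_mul_cancel_left _ _ (jc_unit L hw)]

variable {η : ℝ}

namespace FS

lemma G0_unit (w : ν ⊕ ν → ℝ) : IsUnit (G0 w).det := (G0_posDef w).det_pos.ne'.isUnit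

lemma Gg_eq (w : ν ⊕ ν → ℝ) : Gg η w = (G0 w)⁻¹ * (G0 w + Sf η w) := by
  rw [Gg, Matrix.mul_add, Matrix.nonsing_inv_mul _ (G0_unit w)]

lemma g1_eq (w : ν ⊕ ν → ℝ) :
    g1 η w = (G0 w + -Sf η w) * (G0 w + Sf η w)⁻¹ * G0 w := by
  have h : (G0 w + Sf η w) * Ji ν = Ji ν * (G0 w + -Sf η w) := by
    rw [Matrix.add_mul, Matrix.mul_add, G0_Ji, Sf_Ji, Matrix.mul_neg]
  rw [g1, J1, Gg_eq, Matrix.mul_inv_rev, Matrix.nonsing_inv_nonsing_inv _ (G0_unit w),
    Matrix.mul_assoc (G0 w)⁻¹, h]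
  simp only [Matrix.mul_assoc]
  rw [Matrix.mul_nonsing_inv_cancel_left _ _ (G0_unit w), ← Matrix.mul_assoc, Ji_tr,
    Matrix.neg_mul, Ji_sq, neg_neg, Matrix.one_mul]

end FS

lemma Gg_smooth (hη : η ∈ Ioo (0 : ℝ) (1 / 10)) (a b : ν ⊕ ν) :
    ContDiff ℝ ∞ fun w : ν ⊕ ν → ℝ => Gg η w a b := by
  simp only [Gg, Matrix.add_apply]
  exact contDiff_const.add
    (smooth_mul (smooth_inv G0_smooth fun w => (G0_posDef w).det_pos.ne') (Sf_smooth hη.1) a b)

lemma Gg_det (hη : η ∈ Ioo (0 : ℝ) (1 / 10)) (w : ν ⊕ ν → ℝ) : (Gg η w).det ≠ 0 := by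
  rw [Gg_eq, Matrix.det_mul]
  exact mul_ne_zero (G0_posDef w).inv.det_pos.ne' (posDef_Sf hη w).det_pos.ne'

lemma Gg_inv (L : Sy ν) {w : ν ⊕ ν → ℝ} (hw : w ∈ L.dom) :
    (L.jc w)⁻¹ * Gg η (L.tau w) * L.jc w = Gg η w := by
  have hu := jc_unit L hw
  have hu' : IsUnit (L.jc w)ᵀ.det := by rwa [Matrix.det_transpose]
  rw [Gg, Gg, ← G0_inv L hw, ← Sf_inv η L hw, Matrix.mul_add, Matrix.add_mul,
    Matrix.mul_one, Matrix.nonsing_inv_mul _ hu, Matrix.mul_inv_rev, Matrix.mul_inv_rev]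
  simp only [Matrix.mul_assoc]
  rw [Matrix.nonsing_inv_mul_cancel_left _ _ hu']

lemma J1_smooth (hη : η ∈ Ioo (0 : ℝ) (1 / 10)) (a b : ν ⊕ ν) :
    ContDiff ℝ ∞ fun w : ν ⊕ ν → ℝ => J1 η w a b :=
  smooth_mul (smooth_mul (Gg_smooth hη) (B := fun _ => Ji ν) fun _ _ => contDiff_const)
    (smooth_inv (Gg_smooth hη) (Gg_det hη)) a b

lemma g1_smooth (hη : η ∈ Ioo (0 : ℝ) (1 / 10)) (a b : ν ⊕ ν) :
    ContDiff ℝ ∞ fun w : ν ⊕ ν → ℝ => g1 η w a b :=
  smooth_mul (smooth_mul (A := fun _ => (Ji ν)ᵀ) (fun _ _ => contDiff_const) G0_smooth)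
    (J1_smooth hη) a b

lemma g1_posDef (hη : η ∈ Ioo (0 : ℝ) (1 / 10)) (w : ν ⊕ ν → ℝ) : (g1 η w).PosDef := by
  have hP := posDef_Sf hη w
  have hQ := posDef_Sf' hη w
  rw [g1_eq]
  have hG : G0 w = (1 / 2 : ℝ) • ((G0 w + Sf η w) + (G0 w + -Sf η w)) := by
    rw [add_add_add_comm, add_neg_cancel, add_zero, ← two_smul ℝ, smul_smul]
    norm_num
  generalize G0 w + Sf η w = P at hP hG
  generalize G0 w + -Sf η w = Q at hQ hG
  rw [hG, Matrix.mul_smul, Matrix.mul_add, Matrix.nonsing_inv_mul_cancel_right _ _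
    hP.det_pos.ne'.isUnit]
  refine (hQ.add_posSemidef ?_).smul (by norm_num)
  have := hP.inv.posSemidef.conjTranspose_mul_mul_same Q
  rwa [hQ.1.eq] at this

lemma J1_sq (hη : η ∈ Ioo (0 : ℝ) (1 / 10)) (w : ν ⊕ ν → ℝ) : J1 η w * J1 η w = -1 := by
  have hu := (Gg_det hη w).isUnit
  rw [J1]
  simp only [Matrix.mul_assoc]
  rw [Matrix.nonsing_inv_mul_cancel_left _ _ hu, ← Matrix.mul_assoc (Ji ν), Ji_sq, Matrix.neg_mul,
    Matrix.one_mul, Matrix.mul_neg, Matrix.mul_nonsing_inv _ hu]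

namespace FS

lemma om1' (hη : η ∈ Ioo (0 : ℝ) (1 / 10)) (w : ν ⊕ ν → ℝ) :
    (J1 η w)ᵀ * g1 η w = (Ji ν)ᵀ * G0 w := by
  have hs : (g1 η w)ᵀ = g1 η w := by
    have := (g1_posDef hη w).1.eq
    rwa [conjTranspose_eq_transpose_of_trivial] at this
  rw [← hs, ← transpose_mul, g1, Matrix.mul_assoc, J1_sq hη, Matrix.mul_neg, Matrix.mul_one,
    transpose_neg, transpose_mul, transpose_transpose, G0_symm, G0_Ji, Ji_tr, Matrix.neg_mul]

end FS

lemma g1_herm (hη : η ∈ Ioo (0 : ℝ) (1 / 10)) (w : ν ⊕ ν → ℝ) :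
    (J1 η w)ᵀ * g1 η w * J1 η w = g1 η w := by
  rw [om1' hη]; rfl

lemma om1 (hη : η ∈ Ioo (0 : ℝ) (1 / 10)) :
    om (g1 η) (J1 η) = om (G0 (ν := ν)) fun _ => Ji ν :=
  funext fun w => om1' hη w

lemma J1_inv (hη : η ∈ Ioo (0 : ℝ) (1 / 10)) (L : Sy ν) {w : ν ⊕ ν → ℝ} (hw : w ∈ L.dom) :
    (L.jc w)⁻¹ * J1 η (L.tau w) * L.jc w = L.sgn • J1 η w := by
  have _ := hη
  have hu := jc_unit L hw
  rw [J1, J1, ← Matrix.smul_mul, ← Matrix.mul_smul, ← Ji_inv L hw, ← Gg_inv (η := η) L hw,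
    Matrix.mul_inv_rev, Matrix.mul_inv_rev, Matrix.nonsing_inv_nonsing_inv _ hu]
  simp only [Matrix.mul_assoc, Matrix.mul_nonsing_inv_cancel_left _ _ hu]

lemma g1_inv (hη : η ∈ Ioo (0 : ℝ) (1 / 10)) (L : Sy ν) {w : ν ⊕ ν → ℝ} (hw : w ∈ L.dom) :
    (L.jc w)ᵀ * g1 η (L.tau w) * L.jc w = g1 η w := by
  have hu := jc_unit L hw
  have h : J1 η (L.tau w) * L.jc w = L.jc w * (L.sgn • J1 η w) := by
    rw [← J1_inv hη L hw, Matrix.mul_assoc, Matrix.mul_nonsing_inv_cancel_left _ _ hu]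
  rw [g1, g1, ← G0_inv L hw, ← Matrix.mul_assoc, ← Matrix.mul_assoc, ← transpose_mul, Ji_jc L hw,
    Matrix.mul_assoc _ (J1 η _), h, transpose_mul, transpose_smul]
  simp only [Matrix.mul_assoc, Matrix.smul_mul, Matrix.mul_smul, smul_smul, L.sgn_sq, one_smul]

namespace FS

section eig
variable {ι : Type} [Fintype ι] [DecidableEq ι]

lemma eig_of_form {A : Matrix ι ι ℝ} {i : ι} {α : ℝ}
    (h : ∀ u, u ⬝ᵥ A *ᵥ Pi.single i 1 = α * u i) : A *ᵥ Pi.single i 1 = α • Pi.single i 1 := by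
  funext j
  have := h (Pi.single j 1)
  rw [single_dotProduct, one_mul] at this
  rw [this]
  simp [Pi.single_apply, eq_comm]

lemma eig_entry {G B : Matrix ι ι ℝ} {i : ι} {α σ : ℝ} (hP : (G + B).PosDef)
    (hG : G *ᵥ Pi.single i 1 = α • Pi.single i 1)
    (hB : B *ᵥ Pi.single i 1 = (σ * α) • Pi.single i 1) :
    ((G + -B) * (G + B)⁻¹ * G) i i = (1 - σ) / (1 + σ) * α := by
  have h1 : (G + B) *ᵥ Pi.single i 1 = ((1 + σ) * α) • Pi.single i 1 := by
    rw [add_mulVec, hG, hB, ← add_smul]; congr 1; ring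
  have h2 : (G + -B) *ᵥ Pi.single i 1 = ((1 - σ) * α) • Pi.single i 1 := by
    rw [add_mulVec, neg_mulVec, hG, hB, ← neg_smul, ← add_smul]; congr 1; ring
  have hne : (1 + σ) * α ≠ 0 := by
    have := hP.dotProduct_mulVec_pos (x := Pi.single i 1) (by simp)
    rw [h1] at this
    intro h; simp [h] at this
  have h3 : (G + B)⁻¹ *ᵥ Pi.single i 1 = ((1 + σ) * α)⁻¹ • Pi.single i 1 := by
    have := congrArg ((G + B)⁻¹ *ᵥ ·) h1
    simp only [mulVec_mulVec, Matrix.nonsing_inv_mul _ hP.det_pos.ne'.isUnit, one_mulVec,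
      mulVec_smul] at this
    rw [eq_inv_smul_iff₀ hne]
    exact this.symm
  rw [entry (_ * G), ← mulVec_mulVec, ← mulVec_mulVec, hG, mulVec_smul, mulVec_smul, h3,
    mulVec_smul, h2]
  have := left_ne_zero_of_mul hne
  have := right_ne_zero_of_mul hne
  simp
  field_simp

end eig

variable {μ : Type} [Fintype μ] [DecidableEq μ]

set_option linter.unusedSectionVars false

lemma cur0 (y : ℝ) : emb (cur (μ := μ) y) none = 1 := rfl
lemma cur1 (y : ℝ) : emb (cur (μ := μ) y) (some none) = y * Complex.I := by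
  simp [emb, cur, toC, Complex.ext_iff]
lemma cur2 (y : ℝ) (b : μ) : emb (cur y) (some (some b)) = 0 := by
  simp [emb, cur, toC, Complex.ext_iff]

lemma nsq_cur (y : ℝ) : nsq (emb (cur (μ := μ) y)) = 1 + y ^ 2 := by
  simp [nsq, Fintype.sum_option, cur0, cur1, cur2, sq]

lemma bil_cur (y : ℝ) : bil (emb (cur (μ := μ) y)) (emb (cur y)) = ((1 - y ^ 2 : ℝ) : ℂ) := by
  simp only [bil, Fintype.sum_option, cur0, cur1, cur2]
  simp
  linear_combination (y : ℂ) ^ 2 * Complex.I_sq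

lemma herm_cur (y : ℝ) (u : Option μ ⊕ Option μ → ℝ) :
    herm (hat u) (emb (cur y)) = -(toC u none * (y * Complex.I)) := by
  simp [herm, Fintype.sum_option, cur1, cur2, hat]

lemma hat_single (x : Option μ) :
    hat (Pi.single (Sum.inl x) 1 : Option μ ⊕ Option μ → ℝ) = Pi.single (some x) 1 := by
  funext o
  cases o with
  | none => simp [hat]
  | some b => by_cases h : b = x <;> simp [hat, toC, h, Complex.ext_iff]

lemma rho_cur (y : ℝ) : rho (cur (μ := μ) y) = ((1 - y ^ 2) / (1 + y ^ 2)) ^ 2 := by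
  show Complex.normSq (bil _ _) / _ = _
  rw [bil_cur, nsq_cur, Complex.normSq_ofReal, div_pow, ← sq]

lemma hor_cur0 (y : ℝ) (u : Option μ ⊕ Option μ → ℝ) :
    hor (emb (cur y)) (hat u) none = toC u none * (y * Complex.I) / (1 + y ^ 2) := by
  rw [hor_eq, herm_cur, nsq_cur, Pi.sub_apply, Pi.smul_apply, cur0]
  simp [hat, neg_div]

lemma hor_cur1 (y : ℝ) (u : Option μ ⊕ Option μ → ℝ) :
    hor (emb (cur y)) (hat u) (some none) = toC u none / (1 + y ^ 2) := by
  have h : (1 + (y : ℂ) ^ 2) ≠ 0 := by exact_mod_cast (by positivity : (1 + y ^ 2 : ℝ) ≠ 0)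
  rw [hor_eq, herm_cur, nsq_cur, Pi.sub_apply, Pi.smul_apply, cur1]
  simp only [hat, Option.elim_some, smul_eq_mul]
  push_cast
  field_simp
  linear_combination (toC u none * (y : ℂ) ^ 2) * Complex.I_sq

lemma hor_cur2 (y : ℝ) (u : Option μ ⊕ Option μ → ℝ) (b : μ) :
    hor (emb (cur y)) (hat u) (some (some b)) = toC u (some b) := by
  rw [hor_eq, Pi.sub_apply, Pi.smul_apply, cur2]
  simp [hat]

lemma toC_single (x b : Option μ) :
    toC (Pi.single (Sum.inl x) 1 : Option μ ⊕ Option μ → ℝ) b = if b = x then 1 else 0 := by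
  by_cases h : b = x <;> simp [toC, h, Complex.ext_iff]

lemma eigG1 (y : ℝ) (a : μ) : G0 (cur y) *ᵥ Pi.single (Sum.inl (some a)) 1 =
    (1 / (1 + y ^ 2)) • Pi.single (Sum.inl (some a)) 1 := by
  refine eig_of_form fun u => ?_
  rw [form_G0, hq, nsq_cur, herm]
  simp only [Fintype.sum_option, hor_cur0, hor_cur1, hor_cur2, toC_single]
  simp [apply_ite, toC, div_eq_inv_mul]

lemma eigB1 (y : ℝ) (a : μ) : Bm (cur y) *ᵥ Pi.single (Sum.inl (some a)) 1 =
    ((1 - y ^ 2) / (1 + y ^ 2) * (1 / (1 + y ^ 2))) • Pi.single (Sum.inl (some a)) 1 := by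
  refine eig_of_form fun u => ?_
  rw [form_Bm, bq, nsq_cur, bil_cur, Complex.conj_ofReal, Complex.re_ofReal_mul, bil]
  simp only [Fintype.sum_option, hor_cur0, hor_cur1, hor_cur2, toC_single]
  simp [toC]
  field_simp

lemma eigG0 (y : ℝ) : G0 (cur (μ := μ) y) *ᵥ Pi.single (Sum.inl none) 1 =
    (1 / (1 + y ^ 2) ^ 2) • Pi.single (Sum.inl none) 1 := by
  refine eig_of_form fun u => ?_
  have h : (1 + (y : ℂ) ^ 2) ≠ 0 := by exact_mod_cast (by positivity : (1 + y ^ 2 : ℝ) ≠ 0)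
  have e : herm (hor (emb (cur (μ := μ) y)) (hat u))
      (hor (emb (cur y)) (hat (Pi.single (Sum.inl none) 1))) =
      ((1 / (1 + y ^ 2) : ℝ) : ℂ) * toC u none := by
    rw [herm]
    simp only [Fintype.sum_option, hor_cur0, hor_cur1, hor_cur2, toC_single]
    simp
    field_simp
    linear_combination (-(toC u none * (y : ℂ) ^ 2)) * Complex.I_sq
  rw [form_G0, hq, nsq_cur, e, Complex.re_ofReal_mul]
  simp only [toC]
  field_simp

lemma eigB0 (y : ℝ) : Bm (cur (μ := μ) y) *ᵥ Pi.single (Sum.inl none) 1 =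
    (((1 - y ^ 2) / (1 + y ^ 2)) ^ 2 * (1 / (1 + y ^ 2) ^ 2)) • Pi.single (Sum.inl none) 1 := by
  refine eig_of_form fun u => ?_
  have h : (1 + (y : ℂ) ^ 2) ≠ 0 := by exact_mod_cast (by positivity : (1 + y ^ 2 : ℝ) ≠ 0)
  have e : bil (hor (emb (cur (μ := μ) y)) (hat u))
      (hor (emb (cur y)) (hat (Pi.single (Sum.inl none) 1))) =
      (((1 - y ^ 2) / (1 + y ^ 2) ^ 2 : ℝ) : ℂ) * toC u none := by
    rw [bil]
    simp only [Fintype.sum_option, hor_cur0, hor_cur1, hor_cur2, toC_single]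
    simp
    field_simp
    linear_combination (toC u none * (y : ℂ) ^ 2) * Complex.I_sq
  rw [form_Bm, bq, nsq_cur, bil_cur, Complex.conj_ofReal, Complex.re_ofReal_mul, e,
    Complex.re_ofReal_mul]
  simp only [toC]
  field_simp

lemma zeta_cur (y : ℝ) (u : Option μ ⊕ Option μ → ℝ) : zeta (emb (cur y)) (hat u) =
    ((2 * y * (1 - y ^ 2) / (1 + y ^ 2) ^ 3 : ℝ) : ℂ) * (Complex.I * toC u none) := by
  have h : (1 + (y : ℂ) ^ 2) ≠ 0 := by exact_mod_cast (by positivity : (1 + y ^ 2 : ℝ) ≠ 0)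
  rw [zeta_eq, bil_cur, nsq_cur, Complex.conj_ofReal, bil]
  simp only [Fintype.sum_option, hor_cur0, hor_cur1, cur0, cur1, cur2, zero_mul,
    Finset.sum_const_zero]
  push_cast
  field_simp
  ring

lemma eigC1 (y : ℝ) (a : μ) : Cm (cur y) *ᵥ Pi.single (Sum.inl (some a)) 1 =
    (0 : ℝ) • Pi.single (Sum.inl (some a)) 1 := by
  refine eig_of_form fun u => ?_
  rw [form_Cm, zeta_cur y (Pi.single _ _), toC_single]
  simp

lemma eigC0 (y : ℝ) : Cm (cur (μ := μ) y) *ᵥ Pi.single (Sum.inl none) 1 =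
    (-(2 * y * (1 - y ^ 2) / (1 + y ^ 2) ^ 3) ^ 2) • Pi.single (Sum.inl none) 1 := by
  refine eig_of_form fun u => ?_
  rw [form_Cm, zeta_cur, zeta_cur, toC_single]
  generalize 2 * y * (1 - y ^ 2) / (1 + y ^ 2) ^ 3 = c
  simp [toC]
  ring

lemma om_diag (w : ν ⊕ ν → ℝ) (x : ν) {α : ℝ}
    (h : G0 w *ᵥ Pi.single (Sum.inl x) 1 = α • Pi.single (Sum.inl x) 1) :
    om G0 (fun _ => Ji ν) w (Sum.inl x) (Sum.inr x) = α := by
  have e : (Pi.single (Sum.inr x) 1 : ν ⊕ ν → ℝ) = Ji ν *ᵥ Pi.single (Sum.inl x) 1 := by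
    funext o
    cases o <;> simp [Ji, Matrix.one_apply, Pi.single_apply]
  rw [om, entry (_ * G0 w), e, mulVec_mulVec, G0_herm, h]
  simp

end FS

/-- Values on the curve. -/
lemma init_cur {μ : Type} [Fintype μ] [DecidableEq μ] (hη : η ∈ Ioo (0 : ℝ) (1 / 10)) (a : μ)
    (y s l l' : ℝ) (hs : s = (1 - y ^ 2) / (1 + y ^ 2))
    (hl : l = 1 - √(η ^ 2 + 2 / 5 * (1 - s ^ 2))) (hl' : l' = 1 - √(η ^ 2 + 3 / 2 * (1 - s ^ 2))) :
    g1 η (cur y) (Sum.inl (some a)) (Sum.inl (some a)) = (1 - l * s) / (1 + l * s) / (1 + y ^ 2) ∧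
    g1 η (cur (μ := μ) y) (Sum.inl none) (Sum.inl none) =
      (1 - l' * s ^ 2) / (1 + l' * s ^ 2) / (1 + y ^ 2) ^ 2 ∧
    om (g1 η) (J1 η) (cur y) (Sum.inl (some a)) (Sum.inr (some a)) = 1 / (1 + y ^ 2) ∧
    om (g1 η) (J1 η) (cur (μ := μ) y) (Sum.inl none) (Sum.inr none) = 1 / (1 + y ^ 2) ^ 2 := by
  have hlam : lam η (cur (μ := μ) y) = l := by rw [lam, rho_cur, hl, hs]
  have hmu : mu η (cur (μ := μ) y) * (1 - s ^ 2) = l - l' := by
    have := sub_nonneg.2 (rho_le (cur (μ := μ) y))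
    rw [rho_cur, ← hs] at this
    rw [mu, rho_cur, ← hs, mu_eq hη.1 this, hl, hl']
    ring
  have hP := posDef_Sf hη (cur (μ := μ) y)
  refine ⟨?_, ?_, ?_, ?_⟩
  · rw [g1_eq, eig_entry (σ := l * s) hP (eigG1 y a), mul_one_div]
    rw [Sf, add_mulVec, smul_mulVec, smul_mulVec, eigB1, eigC1, hlam, ← hs, smul_smul, smul_smul,
      ← add_smul]
    congr 1
    ring
  · rw [g1_eq, eig_entry (σ := l' * s ^ 2) hP (eigG0 y), mul_one_div]
    rw [Sf, add_mulVec, smul_mulVec, smul_mulVec, eigB0, eigC0, hlam, ← hs, smul_smul, smul_smul,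
      ← add_smul]
    congr 1
    have e : (2 * y * (1 - y ^ 2) / (1 + y ^ 2) ^ 3) ^ 2 =
        (1 - s ^ 2) * s ^ 2 * (1 / (1 + y ^ 2) ^ 2) := by
      rw [hs]; field_simp; ring
    rw [e]
    linear_combination -(s ^ 2 * (1 / (1 + y ^ 2) ^ 2)) * hmu
  · rw [om1 hη]; exact om_diag _ _ (eigG1 y a)
  · rw [om1 hη]; exact om_diag _ _ (eigG0 y)

end Pool.Agent.P.MP_8fdf05_gt
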