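import Pool.Agent.P.MP_8fdf05_gt.Nat
import Pool.Agent.P.MP_8fdf05_gt.CP
import Pool.Agent.P.MP_8fdf05_gt.FS

/-! The initial data on the manifold; the class stays symplectic for a fixed time. -/

open Matrix Set Filter Topology
open scoped ContDiff

namespace Pool.Agent.P.MP_8fdf05_gt

namespace ClassP

open Sm

section gen

variable {ι : Type} [Fintype ι] [DecidableEq ι]

/-- The point (0,w) of the domain. -/
def pt (w : ι → ℝ) : (DD ι 1).S := ⟨(0, w), ⟨le_rfl, one_pos⟩, mem_univ _⟩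

lemma smooth_of_ev {a : Sm (DD ι 1)} {f : (ι → ℝ) → ℝ} (h : ∀ w, ev (pt w) a = f w) :
    ContDiff ℝ ∞ f := by
  have h1 : ContDiff ℝ ∞ fun w : ι → ℝ => a.fn (0, w) :=
    a.smooth.comp_contDiff (contDiff_const.prodMk contDiff_id) fun w => (pt w).2
  have : f = fun w : ι → ℝ => a.fn (0, w) := funext fun w => by rw [← h, ev_eq]; rfl
  rw [this]
  exact h1

lemma ev_dx {a : Sm (DD ι 1)} {f : (ι → ℝ) → ℝ} (h : ∀ w, ev (pt w) a = f w) (i : ι)
    (w : ι → ℝ) : ev (pt w) (dx i a) = fderiv ℝ f w (Pi.single i 1) := by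
  obtain ⟨L, h1, h2⟩ := a.hasFDerivAt_space (pt w)
  have : f = fun y : ι → ℝ => a.fn ((pt w).1.1, y) := funext fun y => by rw [← h, ev_eq]; rfl
  rw [← h2, this]
  exact congrArg (fun K : (ι → ℝ) →L[ℝ] ℝ => K (Pi.single i 1)) h1.fderiv.symm

lemma rep_apply {a : Matrix ι ι (Sm (DD ι 1))} {F : Fld ι} (h : Rep a fun _ => F) (w : ι → ℝ)
    (i j : ι) : ev (pt w) (a i j) = F w i j := congrFun (congrFun (h (pt w)) i) j

lemma pd_mul {A B : Fld ι} {z : ι → ℝ} (hA : ∀ a b, DifferentiableAt ℝ (fun y => A y a b) z)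
    (hB : ∀ a b, DifferentiableAt ℝ (fun y => B y a b) z) (i : ι) :
    pd i (fun y => A y * B y) z = pd i A z * B z + A z * pd i B z := by
  ext a b
  have h : HasFDerivAt (fun y => (A y * B y) a b)
      (∑ k, (A z a k • fderiv ℝ (fun y => B y k b) z + B z k b • fderiv ℝ (fun y => A y a k) z))
      z := by
    simp only [Matrix.mul_apply]
    exact HasFDerivAt.fun_sum fun k _ => (hA a k).hasFDerivAt.mul (hB k b).hasFDerivAt
  simp only [pd, of_apply, h.fderiv]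
  simp only [of_apply, Matrix.add_apply, Matrix.mul_apply, _root_.sum_apply, _root_.add_apply,
    _root_.smul_apply, smul_eq_mul, ← Finset.sum_add_distrib]
  exact Finset.sum_congr rfl fun k _ => by ring

lemma pd_congr {A B : Fld ι} {z : ι → ℝ} (h : A =ᶠ[𝓝 z] B) (i : ι) : pd i A z = pd i B z := by
  ext a b
  have : (fun y => A y a b) =ᶠ[𝓝 z] fun y => B y a b := h.mono fun y hy => by simp only [hy]
  simp only [pd, of_apply, this.fderiv_eq]

lemma pd_comp {A : Fld ι} {τ : (ι → ℝ) → ι → ℝ} {z : ι → ℝ} (hτ : DifferentiableAt ℝ τ z)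
    (hA : ∀ a b, DifferentiableAt ℝ (fun y => A y a b) (τ z)) (i : ι) :
    pd i (fun y => A (τ y)) z = ∑ k, fderiv ℝ τ z (Pi.single i 1) k • pd k A (τ z) := by
  ext a b
  have h := ((hA a b).hasFDerivAt.comp z hτ.hasFDerivAt).fderiv
  have h' : fderiv ℝ (fun y => A (τ y) a b) z = _ := h
  simp only [pd, of_apply, h', ContinuousLinearMap.comp_apply, Matrix.sum_apply,
    Matrix.smul_apply, smul_eq_mul]
  generalize fderiv ℝ τ z (Pi.single i 1) = v
  conv_lhs => rw [pi_eq_sum_univ' v]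
  simp only [map_sum, map_smul, smul_eq_mul]

lemma closed_comb {A B : Fld ι} {z : ι → ℝ} (hA : ∀ a b, DifferentiableAt ℝ (fun y => A y a b) z)
    (hB : ∀ a b, DifferentiableAt ℝ (fun y => B y a b) z) (h1 : Closed A z) (h2 : Closed B z)
    (s t : ℝ) : Closed (fun y => s • (A y - t • B y)) z := by
  have key : ∀ i a b, pd i (fun y => s • (A y - t • B y)) z a b =
      s * (pd i A z a b - t * pd i B z a b) := by
    intro i a b
    have h : HasFDerivAt (fun y => (s • (A y - t • B y)) a b)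
        (s • (fderiv ℝ (fun y => A y a b) z - t • fderiv ℝ (fun y => B y a b) z)) z :=
      ((hA a b).hasFDerivAt.sub ((hB a b).hasFDerivAt.const_smul t)).const_smul s
    simp only [pd, of_apply, h.fderiv]
    simp
  intro i j k
  rw [key, key, key]
  linear_combination s * h1 i j k - s * t * h2 i j k

lemma dOne_smul {θ : (ι → ℝ) → ι → ℝ} {z : ι → ℝ}
    (h : ∀ a, DifferentiableAt ℝ (fun y => θ y a) z) (s : ℝ) :
    dOne (fun y => s • θ y) z = s • dOne θ z := by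
  have key : ∀ a, fderiv ℝ (fun y => (s • θ y) a) z = s • fderiv ℝ (fun y => θ y a) z :=
    fun a => ((h a).hasFDerivAt.const_smul s).fderiv
  ext i j
  simp only [dOne, of_apply, key, Matrix.smul_apply, _root_.smul_apply, smul_eq_mul]
  ring

lemma alg {N G G' dN dG dG' C1 C0 J : Matrix ι ι ℝ} {s : ℝ} (hN : IsUnit N.det)
    (hG : IsUnit G.det) (h1 : dN * G' + N * dG' = dG * N + G * dN)
    (h2 : N⁻¹ * G * N = G') (h3 : J * N = s • (N * J)) :
    trace (J * (G⁻¹ * C1 * G + G⁻¹ * dG - C0)) =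
      s * trace (J * (G'⁻¹ * (N⁻¹ * (C1 * N + dN)) * G' + G'⁻¹ * dG' - N⁻¹ * (C0 * N + dN))) := by
  have a1 := fun X : Matrix ι ι ℝ => Matrix.mul_nonsing_inv_cancel_left N X hN
  have a2 := fun X : Matrix ι ι ℝ => Matrix.nonsing_inv_mul_cancel_left N X hN
  have a3 := fun X : Matrix ι ι ℝ => Matrix.mul_nonsing_inv_cancel_left G X hG
  have a4 := fun X : Matrix ι ι ℝ => Matrix.nonsing_inv_mul_cancel_left G X hG
  have b1 : G'⁻¹ = N⁻¹ * G⁻¹ * N := by
    refine Matrix.inv_eq_right_inv ?_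
    rw [← h2]
    simp only [Matrix.mul_assoc, a1, a3]
    exact Matrix.nonsing_inv_mul _ hN
  have b2 : dG' = N⁻¹ * (dG * N + G * dN - dN * G') := by
    rw [← h1, add_sub_cancel_left, a2]
  have b3 : G'⁻¹ * (N⁻¹ * (C1 * N + dN)) * G' + G'⁻¹ * dG' - N⁻¹ * (C0 * N + dN) =
      N⁻¹ * ((G⁻¹ * C1 * G + G⁻¹ * dG - C0) * N) := by
    rw [b1, b2, ← h2]
    simp only [Matrix.mul_assoc, Matrix.mul_add, Matrix.add_mul, Matrix.mul_sub, Matrix.sub_mul,
      a1, a4]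
    abel
  have b4 : J = s • (N * (J * N⁻¹)) := by
    rw [← Matrix.mul_assoc, ← Matrix.smul_mul, ← h3, Matrix.mul_nonsing_inv_cancel_right _ _ hN]
  rw [b3]
  generalize G⁻¹ * C1 * G + G⁻¹ * dG - C0 = Y
  rw [← Matrix.mul_assoc, ← Matrix.mul_assoc, trace_mul_comm _ N]
  conv_lhs => rw [b4]
  simp only [Matrix.smul_mul, trace_smul, smul_eq_mul, Matrix.mul_assoc]

end gen

variable {ν : Type} [Fintype ν] [DecidableEq ν] {η : ℝ}

lemma ak0 : ChartAK 1 univ (fun _ => G0 (ν := ν)) fun _ _ => Ji ν :=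
  ⟨fun a b => ((G0_smooth a b).comp contDiff_snd).contDiffOn, fun _ _ => contDiffOn_const,
    fun _ _ z _ => G0_posDef z, fun _ _ _ _ => Ji_sq, fun _ _ z _ => G0_herm z,
    fun _ _ z _ => G0_closed z⟩

lemma ak1 (hη : η ∈ Ioo (0 : ℝ) (1 / 10)) :
    ChartAK 1 univ (fun _ => g1 (ν := ν) η) fun _ => J1 η :=
  ⟨fun a b => ((g1_smooth hη a b).comp contDiff_snd).contDiffOn,
    fun a b => ((J1_smooth hη a b).comp contDiff_snd).contDiffOn,
    fun _ _ z _ => g1_posDef hη z, fun _ _ z _ => J1_sq hη z, fun _ _ z _ => g1_herm hη z,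
    fun _ _ z _ => by rw [om1 hη]; exact G0_closed z⟩

/-- The form P of the Fubini-Study structure. -/
noncomputable def P0 : Fld (ν ⊕ ν) := Pform (fun _ => Ji ν) (chern G0 fun _ => Ji ν)

/-- The Fubini-Study form. -/
noncomputable def om0 : Fld (ν ⊕ ν) := om G0 fun _ => Ji ν

/-- The transgression form. -/
noncomputable def th (η : ℝ) (w : ν ⊕ ν → ℝ) (j : ν ⊕ ν) : ℝ :=
  trace (Ji ν * ((Gg η w)⁻¹ * chern (g1 η) (J1 η) j w * Gg η w + (Gg η w)⁻¹ * pd j (Gg η) w -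
    chern G0 (fun _ => Ji ν) j w))

lemma h01 : (0 : ℝ) ∈ Ico (0 : ℝ) 1 := ⟨le_rfl, one_pos⟩

lemma P0_facts : (∀ a b, ContDiff ℝ ∞ fun w : ν ⊕ ν → ℝ => P0 w a b) ∧
    (∀ w : ν ⊕ ν → ℝ, (P0 w)ᵀ = -P0 w) ∧ ∀ w : ν ⊕ ν → ℝ, Closed P0 w := by
  obtain ⟨m, hd, -, -, -, -, -, -, -, hP, -⟩ := (ak0 (ν := ν)).geo isOpen_univ
  have e : ∀ w a b, ev (pt w) (m.Pf a b) = P0 w a b := rep_apply hP
  refine ⟨fun a b => smooth_of_ev fun w => e w a b, fun w => ?_, fun w i j k => ?_⟩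
  · ext a b
    have := congrArg (ev (pt w)) (congrFun (congrFun m.Pf_skew a) b)
    simpa only [transpose_apply, Matrix.neg_apply, map_neg, e] using this
  · have := congrArg (ev (pt w)) (m.Pf_closed i j k)
    rw [hd, map_add, map_add, map_zero, ev_dx fun w => e w j k, ev_dx fun w => e w k i,
      ev_dx fun w => e w i j] at this
    exact this

lemma smul_smul_sgn (L : Sy ν) (X : Matrix (ν ⊕ ν) (ν ⊕ ν) ℝ) : L.sgn • L.sgn • X = X := by
  rw [smul_smul, L.sgn_sq, one_smul]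

lemma nat0 (L : Sy ν) {w : ν ⊕ ν → ℝ} (hw : w ∈ L.dom) :
    (∀ a, chern G0 (fun _ => Ji ν) a w = (L.jc w)⁻¹ *
      ((∑ i, L.jc w i a • chern G0 (fun _ => Ji ν) i (L.tau w)) * L.jc w + pd a L.jc w)) ∧
    P0 w = L.sgn • ((L.jc w)ᵀ * P0 (L.tau w) * L.jc w) :=
  (nat_fields L ak0 ak0 L.sgn_sq (fun _ _ _ hw => (G0_inv L hw).symm)
    (fun _ _ _ hw => by rw [Ji_inv L hw, smul_smul_sgn]) h01 hw).2.2

lemma nat1 (hη : η ∈ Ioo (0 : ℝ) (1 / 10)) (L : Sy ν) {w : ν ⊕ ν → ℝ} (hw : w ∈ L.dom)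
    (a : ν ⊕ ν) : chern (g1 η) (J1 η) a w = (L.jc w)⁻¹ *
      ((∑ i, L.jc w i a • chern (g1 η) (J1 η) i (L.tau w)) * L.jc w + pd a L.jc w) :=
  (nat_fields L (ak1 hη) (ak1 hη) L.sgn_sq (fun _ _ _ hw => (g1_inv hη L hw).symm)
    (fun _ _ _ hw => by rw [J1_inv hη L hw, smul_smul_sgn]) h01 hw).2.2.1 a

lemma P0_inv (L : Sy ν) {w : ν ⊕ ν → ℝ} (hw : w ∈ L.dom) :
    (L.jc w)ᵀ * P0 (L.tau w) * L.jc w = L.sgn • P0 w := by
  rw [(nat0 L hw).2, smul_smul_sgn]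

lemma jc_unit (L : Sy ν) {w : ν ⊕ ν → ℝ} (hw : w ∈ L.dom) : IsUnit (L.jc w).det :=
  (L.jc_det hw).isUnit

lemma Ji_jc (L : Sy ν) {w : ν ⊕ ν → ℝ} (hw : w ∈ L.dom) :
    Ji ν * L.jc w = L.sgn • (L.jc w * Ji ν) := by
  rw [← Matrix.mul_smul, ← Ji_inv L hw, Matrix.mul_assoc,
    Matrix.mul_nonsing_inv_cancel_left _ _ (jc_unit L hw)]

lemma om0_inv (L : Sy ν) {w : ν ⊕ ν → ℝ} (hw : w ∈ L.dom) :
    (L.jc w)ᵀ * om0 (L.tau w) * L.jc w = L.sgn • om0 w := by
  simp only [om0, om]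
  rw [← G0_inv L hw, ← Matrix.mul_assoc, ← transpose_mul, Ji_jc L hw, transpose_smul,
    transpose_mul]
  simp only [Matrix.smul_mul, Matrix.mul_assoc]

lemma om0_skew (w : ν ⊕ ν → ℝ) : (om0 w)ᵀ = -om0 w := by
  have h1 : (G0 w)ᵀ = G0 w := (G0_posDef w).isHermitian
  have h2 := congrArg (· * Ji ν) (G0_herm w)
  simp only [Matrix.mul_assoc, Ji_sq, Matrix.mul_neg, Matrix.mul_one] at h2
  simp only [om0, om, transpose_mul, transpose_transpose, h1, h2]

lemma om0_det (w : ν ⊕ ν → ℝ) : (om0 w).det ≠ 0 := by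
  have h1 : (Ji ν).det ≠ 0 := fun h => by
    have := congrArg Matrix.det (Ji_sq (ν := ν))
    rw [det_mul, h, det_neg, det_one] at this
    simp at this
  simp only [om0, om, det_mul, det_transpose]
  exact mul_ne_zero h1 (G0_posDef w).det_pos.ne'

lemma om0_smooth (a b : ν ⊕ ν) : ContDiff ℝ ∞ fun w : ν ⊕ ν → ℝ => om0 w a b := by
  simp only [om0, om, Matrix.mul_apply]
  exact ContDiff.sum fun k _ => contDiff_const.mul (G0_smooth k b)

lemma exists_T : ∃ T1 > (0 : ℝ), ∀ t ∈ Icc 0 T1, ∀ w : ν ⊕ ν → ℝ, ‖w‖ ≤ 1 →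
    (om0 w - t • P0 w).det ≠ 0 := by
  have hc : Continuous fun x : ℝ × (ν ⊕ ν → ℝ) => (om0 x.2 - x.1 • P0 x.2).det := by
    refine Continuous.matrix_det (continuous_matrix fun a b => ?_)
    exact ((om0_smooth a b).continuous.comp continuous_snd).sub
      (continuous_fst.mul ((P0_facts.1 a b).continuous.comp continuous_snd))
  have h : ∀ᶠ t in 𝓝 (0 : ℝ), ∀ w ∈ Metric.closedBall (0 : ν ⊕ ν → ℝ) 1,
      (om0 w - t • P0 w).det ≠ 0 :=
    (isCompact_closedBall 0 1).eventually_forall_of_forall_eventually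
      (P := fun t w => (om0 w - t • P0 w).det ≠ 0) fun w _ =>
        hc.continuousAt.eventually_ne (by simpa using om0_det w)
  obtain ⟨ε, hε, h⟩ := Metric.eventually_nhds_iff.1 h
  refine ⟨ε / 2, half_pos hε, fun t ht w hw => h ?_ w (mem_closedBall_zero_iff.2 hw)⟩
  rw [Real.dist_eq, sub_zero, abs_of_nonneg ht.1]
  linarith [ht.2]

lemma th_facts (hη : η ∈ Ioo (0 : ℝ) (1 / 10)) :
    (∀ j, ContDiff ℝ ∞ fun w : ν ⊕ ν → ℝ => th η w j) ∧
      ∀ w : ν ⊕ ν → ℝ, Pform (J1 η) (chern (g1 η) (J1 η)) w - dOne (th η) w = P0 w := by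
  obtain ⟨m0, hd0, -, hJ0, -, -, -, hL0, -, hP0, -⟩ := (ak0 (ν := ν)).geo isOpen_univ
  obtain ⟨m1, hd1, -, hJ1, -, -, -, hL1, -, hP1, -⟩ := (ak1 (ν := ν) hη).geo isOpen_univ
  let G : Matrix (ν ⊕ ν) (ν ⊕ ν) (Sm (DD (ν ⊕ ν) 1)) := Matrix.of fun a b =>
    mk (fun x => Gg η x.2 a b) ((Gg_smooth hη a b).comp contDiff_snd).contDiffOn
  have hG : Rep G fun _ => Gg η := fun x => rfl
  have hu : IsUnit G.det := isUnit _ fun x => by
    rw [AlgHom.map_det, AlgHom.mapMatrix_apply, hG x]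
    exact Gg_det hη _
  have hGi : G * G⁻¹ = 1 := Matrix.mul_nonsing_inv _ hu
  have mm : ∀ (x : (DD (ν ⊕ ν) 1).S) (X Y : Matrix (ν ⊕ ν) (ν ⊕ ν) (Sm (DD (ν ⊕ ν) 1))),
      (X * Y).map (ev x) = X.map (ev x) * Y.map (ev x) := fun x X Y => Matrix.map_mul
  have hi : ∀ x : (DD (ν ⊕ ν) 1).S, (G⁻¹).map (ev x) = (Gg η x.1.2)⁻¹ := fun x => by
    refine (Matrix.inv_eq_right_inv ?_).symm
    have h : G.map (ev x) = Gg η x.1.2 := hG x
    rw [← h, ← mm, hGi, Matrix.map_one _ (map_zero _) (map_one _)]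
  have hJ : m1.J = G * m0.J * G⁻¹ := by
    ext a b x
    have : m1.J.map (ev x) = (G * m0.J * G⁻¹).map (ev x) := by
      rw [mm, mm, hJ1 x, hJ0 x, hG x, hi x]
      rfl
    exact congrFun (congrFun this a) b
  have e : ∀ j w, ev (pt w) (trace (m0.J * (G⁻¹ * m1.Lam j * G + G⁻¹ * md (m0.d j) G -
      m0.Lam j))) = th η w j := by
    intro j w
    rw [AddMonoidHom.map_trace (ev (pt w)), mm, Matrix.map_sub _ (map_sub _),
      Matrix.map_add _ (map_add _), mm, mm, mm, hd0, hG.pd j (pt w), hJ0 (pt w), hi, hG (pt w),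
      hL1 j (pt w), hL0 j (pt w)]
    rfl
  refine ⟨fun j => smooth_of_ev (e j), fun w => ?_⟩
  ext i j
  have := congrArg (ev (pt w)) (m0.transg m1 (hd1.trans hd0.symm) G G⁻¹ hGi hJ i j)
  rw [map_sub, map_sub, rep_apply hP1, rep_apply hP0] at this
  have e1 : ∀ i j, ev (pt w) (m0.d i (trace (m0.J * (G⁻¹ * m1.Lam j * G + G⁻¹ * md (m0.d j) G -
      m0.Lam j)))) = fderiv ℝ (fun y => th η y j) w (Pi.single i 1) := by
    intro i j
    rw [← ev_dx (e j) i w]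
    congr 2
    rw [hd0]
  rw [e1, e1] at this
  simp only [Matrix.sub_apply, dOne, of_apply, P0]
  linarith

lemma th_inv (hη : η ∈ Ioo (0 : ℝ) (1 / 10)) (L : Sy ν) {w : ν ⊕ ν → ℝ} (hw : w ∈ L.dom) :
    th η (L.tau w) ᵥ* L.jc w = L.sgn • th η w := by
  have hN := jc_unit L hw
  have hGu : IsUnit (Gg η (L.tau w)).det := (Gg_det hη _).isUnit
  have hnb := L.isOpen_dom.mem_nhds hw
  have dτ := L.differentiableAt_tau hw
  have dN : ∀ a b, DifferentiableAt ℝ (fun y => L.jc y a b) w := fun a b => by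
    have h1 : ContDiffAt ℝ 1 (fderiv ℝ L.tau) w :=
      (L.contDiffOn_tau.contDiffAt hnb).fderiv_right (by norm_cast)
    have h2 : DifferentiableAt ℝ (fun y => fderiv ℝ L.tau y (Pi.single b 1)) w :=
      (h1.differentiableAt one_ne_zero).clm_apply (differentiableAt_const _)
    exact differentiableAt_pi.1 h2 a
  have dG : ∀ z a b, DifferentiableAt ℝ (fun y : ν ⊕ ν → ℝ => Gg η y a b) z := fun z a b =>
    (Gg_smooth hη a b).differentiable (by simp) z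
  have hev : (fun y => L.jc y * Gg η y) =ᶠ[𝓝 w] fun y => Gg η (L.tau y) * L.jc y := by
    filter_upwards [hnb] with y hy
    rw [← Gg_inv L hy, Matrix.mul_assoc, Matrix.mul_nonsing_inv_cancel_left _ _ (jc_unit L hy)]
  funext a
  have h1 := pd_congr hev a
  rw [pd_mul dN (dG w), pd_mul (A := fun y => Gg η (L.tau y))
    (fun a b => (dG _ a b).comp w dτ) dN, pd_comp dτ (dG _)] at h1
  have h2 : ∀ k, fderiv ℝ L.tau w (Pi.single a 1) k = L.jc w k a := fun k => rfl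
  simp only [h2] at h1
  have h7 : (th η (L.tau w) ᵥ* L.jc w) a = trace (Ji ν * ((Gg η (L.tau w))⁻¹ *
      (∑ i, L.jc w i a • chern (g1 η) (J1 η) i (L.tau w)) * Gg η (L.tau w) +
      (Gg η (L.tau w))⁻¹ * (∑ i, L.jc w i a • pd i (Gg η) (L.tau w)) -
      ∑ i, L.jc w i a • chern G0 (fun _ => Ji ν) i (L.tau w))) := by
    simp only [vecMul, dotProduct, th, Matrix.mul_sum, Matrix.sum_mul, Matrix.mul_smul,
      Matrix.smul_mul, ← Finset.sum_add_distrib, ← Finset.sum_sub_distrib, ← smul_add, ← smul_sub,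
      trace_sum, trace_smul, smul_eq_mul]
    exact Finset.sum_congr rfl fun k _ => mul_comm _ _
  change (th η (L.tau w) ᵥ* L.jc w) a = L.sgn * th η w a
  rw [h7, th, nat1 hη L hw a, (nat0 L hw).1 a]
  exact alg hN hGu h1 (Gg_inv L hw) (Ji_jc L hw)

lemma sgn_perm (j : Option ν) (L : Sy ν) : ((Sy.perm j)⁻¹ * L).sgn = L.sgn := by
  simp [Sy.sgn, Sy.perm]

end ClassP

variable {ν : Type} [Fintype ν] [DecidableEq ν] {M : Type} [TopologicalSpace M]
  [ChartedSpace (ν ⊕ ν → ℝ) M] {ch : Sy ν → OpenPartialHomeomorph M (ν ⊕ ν → ℝ)}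

open ClassP in
theorem class_part (hc : IsCP ch) : ∃ T1 > (0 : ℝ), ∀ η ∈ Ioo (0 : ℝ) (1 / 10),
    ∃ (g0 J0 : M → Matrix (ν ⊕ ν) (ν ⊕ ν) ℝ) (θ : M → ν ⊕ ν → ℝ), IsAK g0 J0 ∧
      (∀ L, form2 g0 (ch L) = g1 η) ∧ (∀ L, endo J0 (ch L) = fun w => L.sgn • J1 η w) ∧
      (∀ e ∈ atlas (ν ⊕ ν → ℝ) M, ∀ a, ContDiffOn ℝ ∞ (fun z => form1 θ e z a) e.target) ∧
      ∀ t ∈ Icc 0 T1, ∃ σ : M → Matrix (ν ⊕ ν) (ν ⊕ ν) ℝ, IsSymp σ ∧
        ∀ e ∈ atlas (ν ⊕ ν → ℝ) M, ∀ z ∈ e.target,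
          form2 σ e z = om (form2 g0 e) (endo J0 e) z -
            t • (Pform (endo J0 e) (chern (form2 g0 e) (endo J0 e)) z - dOne (form1 θ e) z) := by
  obtain ⟨T1, hT, hdet⟩ := exists_T (ν := ν)
  refine ⟨T1, hT, fun η hη => ?_⟩
  have hg : ∀ L, form2 (fun p => g1 η (chartAt (ν ⊕ ν → ℝ) p p)) (ch L) = g1 η := fun L => by
    rw [hc.form2_of_inv (g1 η) (fun _ => 1) (fun _ _ => rfl)
      (fun L w hw => by rw [g1_inv hη L hw, one_smul]) L]
    funext w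
    rw [one_smul]
  have hJ := hc.endo_of_inv (J1 η) Sy.sgn sgn_perm fun L w hw => J1_inv hη L hw
  have hθ := hc.form1_of_inv (th η) Sy.sgn sgn_perm fun L w hw => th_inv hη L hw
  have hat : ∀ e ∈ atlas (ν ⊕ ν → ℝ) M, ∃ L, ch L = e := fun e he => by
    rwa [hc.atl] at he
  refine ⟨_, _, fun p => th η (chartAt (ν ⊕ ν → ℝ) p p), ⟨fun p => g1_posDef hη _, fun p => J1_sq hη _, fun p => g1_herm hη _, ?_, ?_⟩,
    hg, hJ, ?_, fun t ht => ?_⟩
  · intro e he a b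
    obtain ⟨L, rfl⟩ := hat e he
    rw [hg, hJ]
    exact ⟨(g1_smooth hη a b).contDiffOn, (contDiff_const.mul (J1_smooth hη a b)).contDiffOn⟩
  · intro e he z _
    obtain ⟨L, rfl⟩ := hat e he
    rw [hg, hJ]
    exact ((ak1 hη).sign L.sgn_sq).closed 0 h01 z (mem_univ _)
  · intro e he a
    obtain ⟨L, rfl⟩ := hat e he
    rw [hθ]
    exact (contDiff_const.mul ((th_facts hη).1 a)).contDiffOn
  · have hσ := hc.form2_of_inv (fun w => om0 w - t • P0 w) Sy.sgn sgn_perm fun L w hw => by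
      rw [Matrix.mul_sub, Matrix.sub_mul, Matrix.mul_smul, Matrix.smul_mul, om0_inv L hw,
        P0_inv L hw, smul_sub, smul_comm]
    refine ⟨fun p => om0 (chartAt (ν ⊕ ν → ℝ) p p) - t • P0 (chartAt (ν ⊕ ν → ℝ) p p),
      ⟨fun p => ?_, fun p => ?_, ?_, ?_⟩, ?_⟩
    rotate_right
    · intro e he z _
      obtain ⟨L, rfl⟩ := hat e he
      rw [hσ, hg, hJ, hθ, Pform_sign _ _ L.sgn_sq,
        dOne_smul (fun a => ((th_facts hη).1 a).differentiable (by simp) z)]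
      have h1 : om (g1 η) (fun w => L.sgn • J1 η w) z = L.sgn • om0 z := by
        rw [om0, ← om1 hη]
        simp only [om, transpose_smul, Matrix.smul_mul]
      simp only
      rw [h1, ← smul_sub, (th_facts hη).2, smul_sub, smul_comm]
    · simp only [transpose_sub, transpose_smul, om0_skew, P0_facts.2.1, smul_neg]
      abel
    · obtain ⟨j, hj, h1⟩ := hc.at_ p
      exact hdet t ht _ (by rw [hj]; exact h1)
    · intro e he a b
      obtain ⟨L, rfl⟩ := hat e he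
      rw [hσ]
      exact (contDiff_const.mul ((om0_smooth a b).sub
        (contDiff_const.mul (P0_facts.1 a b)))).contDiffOn
    · intro e he z _
      obtain ⟨L, rfl⟩ := hat e he
      rw [hσ]
      exact closed_comb (fun a b => (om0_smooth a b).differentiable (by simp) z)
        (fun a b => (P0_facts.1 a b).differentiable (by simp) z) (G0_closed z) (P0_facts.2.2 z) _ _

end Pool.Agent.P.MP_8fdf05_gt
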