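import Pool.Agent.P.MP_8fdf05_gt.Kill

/-! Killing fields of the cohomogeneity one action. -/

namespace Pool.Agent.P.MP_8fdf05_gt

/-- Real coordinates: inl none = u, inr none = s, inl (some a) = e a, inr (some a) = f a. -/
abbrev II (μ : Type) : Type := Option μ ⊕ Option μ

variable {μ : Type} [Fintype μ] [DecidableEq μ] {A : Type} [CommRing A] [Algebra ℝ A]

/-- Killing fields with the brackets of so(n+1). -/
structure Coh (m : Geo (II μ) A) where
  U : II μ → A
  E : μ → II μ → A
  F : μ → II μ → A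
  C : μ → μ → II μ → A
  kU : m.Kill U
  kE : ∀ a, m.Kill (E a)
  kF : ∀ a, m.Kill (F a)
  bUE : ∀ a, m.br U (E a) = -F a
  bUF : ∀ a, m.br U (F a) = E a
  bEF : ∀ a b, m.br (E a) (F b) = if a = b then -U else 0
  bEE : ∀ a b, m.br (E a) (E b) = C a b
  bFF : ∀ a b, m.br (F a) (F b) = C a b
  bEC : ∀ c a b, m.br (E c) (C a b) = (if b = c then E a else 0) - if a = c then E b else 0
  bFC : ∀ c a b, m.br (F c) (C a b) = (if b = c then F a else 0) - if a = c then F b else 0

end Pool.Agent.P.MP_8fdf05_gt
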