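import Pool.Agent.P.MP_8fdf05_gt.Short

/-! Control: the Fubini-Study structure shrinks homothetically under the flow. -/

open Set Filter Topology Matrix
open scoped ContDiff

namespace Pool.Agent.P.MP_8fdf05_gt

namespace Ein

set_option linter.unusedSectionVars false

section gen

variable {ι : Type} [Fintype ι] [DecidableEq ι] {J : Matrix ι ι ℝ}

lemma Ga_w (hJ : Jᵀ = -J) (j k : ι) (w : ι → ℝ) : ∑ l, w l * Ga J j w l k =
    -2 * nv w * (w j * w k - (J *ᵥ w) j * (J *ᵥ w) k) := by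
  rw [contr, s2 hJ, s2 hJ]
  ring

lemma Ga_symm (i l j : ι) (w : ι → ℝ) : Ga J i w l j = Ga J j w l i := by
  simp only [Ga, of_apply]
  ring

lemma Ga_tr (hJ : Jᵀ = -J) (h2 : J * J = -1) (k : ι) (w : ι → ℝ) :
    ∑ i, Ga J i w i k = -((Fintype.card ι + 2) * nv w * w k) := by
  have e : ∀ i, Ga J i w i k = -1 * nv w * (w i * (1 : Matrix ι ι ℝ) i k + (J *ᵥ w) i * J i k +
      w k + J i i * (J *ᵥ w) k) := fun i => by
    simp only [Ga, of_apply, Matrix.one_apply_eq, one_mul]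
  simp only [e, ← Finset.mul_sum, Finset.sum_add_distrib, ← Finset.sum_mul, s1, s3 hJ h2, tr_J hJ,
    Finset.sum_const, Finset.card_univ, nsmul_eq_mul]
  ring

lemma sJJ (h2 : J * J = -1) (j k : ι) : ∑ i, J j i * J i k = -(1 : Matrix ι ι ℝ) j k := by
  rw [← Matrix.mul_apply, h2, Matrix.neg_apply]

lemma ric1 (hJ : Jᵀ = -J) (h2 : J * J = -1) (j k : ι) (w : ι → ℝ) :
    ∑ i, pd i (Ga J j) w i k = 4 * nv w ^ 2 * (w j * w k - (J *ᵥ w) j * (J *ᵥ w) k) := by
  have e : ∀ i, pd i (Ga J j) w i k = -(2 * nv w) * (w i * Ga J j w i k) - nv w *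
      ((1 : Matrix ι ι ℝ) j i * (1 : Matrix ι ι ℝ) i k + J j i * J i k +
        (1 : Matrix ι ι ℝ) k i * (1 : Matrix ι ι ℝ) i j + J k i * J i j) := fun i => by
    simp only [pd, of_apply, (D.Ga J _ _ _).2]
    ring
  simp only [e, Finset.sum_sub_distrib, ← Finset.mul_sum, Finset.sum_add_distrib, Ga_w hJ,
    sJJ h2, s1 (fun i => (1 : Matrix ι ι ℝ) _ i)]
  ring

lemma ric2 (hJ : Jᵀ = -J) (h2 : J * J = -1) (j k : ι) (w : ι → ℝ) :
    ∑ i, pd j (Ga J i) w i k = (Fintype.card ι + 2) *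
      (2 * nv w ^ 2 * (w j * w k) - nv w * (1 : Matrix ι ι ℝ) j k) := by
  have e : ∀ i, pd j (Ga J i) w i k = -(2 * w j * nv w) * Ga J i w i k - nv w *
      ((1 : Matrix ι ι ℝ) j i * (1 : Matrix ι ι ℝ) i k - J j i * J i k +
        (1 : Matrix ι ι ℝ) j k + J i i * J k j) := fun i => by
    simp only [pd, of_apply, (D.Ga J _ _ _).2, Matrix.one_apply_eq]
    rw [sk hJ j i, one_sw i j, one_sw k j]
    ring
  simp only [e, Finset.sum_sub_distrib, ← Finset.mul_sum, Finset.sum_add_distrib, Ga_tr hJ h2,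
    sJJ h2, s1 (fun i => (1 : Matrix ι ι ℝ) _ i), ← Finset.sum_mul, tr_J hJ, Finset.sum_const,
    Finset.card_univ, nsmul_eq_mul]
  ring

lemma ric3 (hJ : Jᵀ = -J) (h2 : J * J = -1) (j k : ι) (w : ι → ℝ) :
    ∑ i, (Ga J i w * Ga J j w) i k = 2 * (Fintype.card ι + 2) * nv w ^ 2 *
      (w j * w k - (J *ᵥ w) j * (J *ᵥ w) k) := by
  simp only [Matrix.mul_apply]
  rw [Finset.sum_comm]
  simp only [← Finset.sum_mul, Ga_tr hJ h2, neg_mul, mul_assoc, Finset.sum_neg_distrib,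
    ← Finset.mul_sum, Ga_w hJ]
  ring

lemma ric4 (hJ : Jᵀ = -J) (h2 : J * J = -1) (j k : ι) (w : ι → ℝ) :
    ∑ i, (Ga J j w * Ga J i w) i k = (Fintype.card ι + 6) * nv w ^ 2 *
      (w j * w k - (J *ᵥ w) j * (J *ᵥ w) k) := by
  have e : ∀ i, (Ga J j w * Ga J i w) i k = -1 * nv w * (w i * Ga J j w i k +
      (J *ᵥ w) i * (J * Ga J j w) i k + Ga J i w i j * w k + (J * Ga J j w) i i * (J *ᵥ w) k) :=
    fun i => by
      change ∑ m, (fun m => Ga J j w i m) m * Ga J i w m k = _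
      rw [contr, ← Ga_comm hJ h2, Ga_symm j i i]
      rfl
  have e2 : ∑ i, (J *ᵥ w) i * (J * Ga J j w) i k = ∑ l, w l * Ga J j w l k := by
    simp only [Matrix.mul_apply, Finset.mul_sum]
    rw [Finset.sum_comm]
    simp only [← mul_assoc, ← Finset.sum_mul, s3 hJ h2]
  have e3 : ∑ i, (J * Ga J j w) i i = _ := tr_Ga hJ h2 j w
  simp only [e, ← Finset.mul_sum, Finset.sum_add_distrib, ← Finset.sum_mul, e2, e3, Ga_w hJ,
    Ga_tr hJ h2]
  ring

/-- The Fubini-Study metric is Einstein. -/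
lemma Ric_GG (hJ : Jᵀ = -J) (h2 : J * J = -1) (w : ι → ℝ) :
    (Matrix.of fun j k => ∑ i, curv (Ga J) i j w i k) = (Fintype.card ι + 2 : ℝ) • GG J w := by
  ext j k
  simp only [curv, of_apply, Matrix.sub_apply, Matrix.add_apply, Finset.sum_sub_distrib,
    Finset.sum_add_distrib, ric1 hJ h2, ric2 hJ h2, ric3 hJ h2, ric4 hJ h2, Matrix.smul_apply,
    smul_eq_mul, GG]
  ring

lemma chr_smul (hJ : Jᵀ = -J) (h2 : J * J = -1) (hG : ∀ w, IsUnit (GG J w).det) {c : ℝ}
    (hc : c ≠ 0) : chr (fun w => c • GG J w) = Ga J := by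
  funext i w
  have hp : ∀ i a b, pd i (fun w => c • GG J w) w a b = c * pd i (GG J) w a b := fun i a b => by
    have h := ((D.const c).mul (⟨(D.GG (k := i) (w := w) J a b).1, rfl⟩ :
      D i w _ (pd i (GG J) w a b))).2
    rw [mul_zero, add_zero] at h
    exact h
  have hu : IsUnit (c • GG J w).det := by
    rw [det_smul]
    exact (pow_ne_zero _ hc).isUnit.mul (hG w)
  have e : (Matrix.of fun l j => (1 / 2 : ℝ) * (pd i (fun w => c • GG J w) w l j +
      pd j (fun w => c • GG J w) w l i - pd l (fun w => c • GG J w) w i j)) =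
      (c • GG J w) * Ga J i w := by
    rw [Matrix.smul_mul, GG_Ga hJ h2]
    ext l j
    simp only [hp, of_apply, Matrix.smul_apply, smul_eq_mul]
    ring
  rw [chr, e, nonsing_inv_mul_cancel_left _ _ hu]

lemma pd_const (i : ι) (A : Matrix ι ι ℝ) (w : ι → ℝ) : pd i (fun _ => A) w = 0 := by
  ext a b
  simp [pd]

lemma DJ_smul (hJ : Jᵀ = -J) (h2 : J * J = -1) (hG : ∀ w, IsUnit (GG J w).det) {c : ℝ}
    (hc : c ≠ 0) (s : ℝ) (i : ι) : DJ (fun w => c • GG J w) (fun _ => s • J) i = fun _ => 0 := by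
  funext w
  simp only [DJ, cov, chr_smul hJ h2 hG hc, pd_const, Matrix.mul_smul, Matrix.smul_mul,
    Ga_comm hJ h2, zero_add, sub_self]

lemma Jrhs_smul (hJ : Jᵀ = -J) (h2 : J * J = -1) (hG : ∀ w, IsUnit (GG J w).det) {c : ℝ}
    (hc : c ≠ 0) (s : ℝ) (w : ι → ℝ) : Jrhs (fun w => c • GG J w) (fun _ => s • J) w = 0 := by
  have hu : IsUnit (c • GG J w).det := by
    rw [det_smul]
    exact (pow_ne_zero _ hc).isUnit.mul (hG w)
  have hR : Rc (fun w => c • GG J w) w = ((Fintype.card ι + 2) * c⁻¹) • (1 : Matrix ι ι ℝ) := by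
    have e : (Fintype.card ι + 2 : ℝ) • GG J w =
        ((Fintype.card ι + 2) * c⁻¹) • (c • GG J w) := by
      rw [smul_smul, inv_mul_cancel_right₀ hc]
    rw [Rc, chr_smul hJ h2 hG hc, Ric_GG hJ h2, e, Matrix.mul_smul, nonsing_inv_mul _ hu]
  simp only [Jrhs, DDJ, DJ_smul hJ h2 hG hc, cov, pd_const, hR, Matrix.mul_zero, Matrix.zero_mul,
    smul_zero, add_zero, sub_zero, Finset.sum_const_zero, Matrix.smul_mul, Matrix.mul_smul,
    Matrix.one_mul, Matrix.mul_one, zero_add]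
  rw [smul_comm, sub_self]

lemma Pform_smul (hJ : Jᵀ = -J) (h2 : J * J = -1) (hG : ∀ w, IsUnit (GG J w).det) {c : ℝ}
    (hc : c ≠ 0) (s : ℝ) (w : ι → ℝ) :
    Pform (fun _ => s • J) (chern (fun w => c • GG J w) fun _ => s • J) w =
      (2 * (Fintype.card ι + 2) : ℝ) • om (GG J) (fun _ => s • J) w := by
  have e : chern (fun w => c • GG J w) (fun _ => s • J) = Ga J := by
    funext i w
    simp only [chern, DJ_smul hJ h2 hG hc, chr_smul hJ h2 hG hc, Matrix.mul_zero, smul_zero,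
      sub_zero]
  have e1 : Pform (fun _ => s • J) (Ga J) w = s • Pform (fun _ => J) (Ga J) w := by
    ext i j
    simp only [Pform, of_apply, Matrix.smul_mul, trace_smul, Matrix.smul_apply]
  rw [e, e1, P_GG hJ h2, smul_comm]
  simp only [om, transpose_smul, Matrix.smul_mul]

end gen

end Ein

section scale

variable {ι : Type} [Fintype ι] [DecidableEq ι] {N : Type} [TopologicalSpace N]
  [ChartedSpace (ι → ℝ) N]

omit [DecidableEq ι] in
lemma om_smul (c : ℝ) (g J : Fld ι) : om (fun z => c • g z) J = fun z => c • om g J z := by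
  funext z
  simp only [om, Matrix.mul_smul]

/-- A positive multiple of the metric of an almost Kaehler structure. -/
lemma IsAK.smul {g J : N → Matrix ι ι ℝ} (h : IsAK g J) {c : ℝ} (hc : 0 < c) : IsAK (c • g) J := by
  refine ⟨fun p => (h.pos p).smul hc, h.sq, fun p => ?_, fun e he a b => ⟨?_, (h.smooth e he a b).2⟩,
    fun e he z hz => ?_⟩
  · simp only [Pi.smul_apply, Matrix.mul_smul, Matrix.smul_mul, h.herm]
  · rw [form2_smul]
    exact contDiffOn_const.mul (h.smooth e he a b).1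
  · have hd : ∀ a b, DifferentiableAt ℝ (fun y => om (form2 g e) (endo J e) y a b) z := by
      intro a b
      simp only [om, Matrix.mul_apply, transpose_apply]
      exact DifferentiableAt.fun_sum fun k _ =>
        (((h.smooth e he k a).2.contDiffAt (e.open_target.mem_nhds hz)).differentiableAt
          (by simp)).mul
        (((h.smooth e he k b).1.contDiffAt (e.open_target.mem_nhds hz)).differentiableAt (by simp))
    have := ClassP.closed_comb hd hd (h.closed e he z hz) (h.closed e he z hz) c 0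
    rw [form2_smul, om_smul]
    simpa only [zero_smul, sub_zero] using this

end scale

variable {ν : Type} [Fintype ν] [DecidableEq ν] {M : Type} [TopologicalSpace M]
  [ChartedSpace (ν ⊕ ν → ℝ) M] {ch : Sy ν → OpenPartialHomeomorph M (ν ⊕ ν → ℝ)}

open ClassP in
/-- The Fubini-Study structure gives a solution on the whole interval allowed by the class. -/
theorem fs_flow (hc : IsCP ch) : ∃ g0 J0 : M → Matrix (ν ⊕ ν) (ν ⊕ ν) ℝ, IsAK g0 J0 ∧
    (∀ L, form2 g0 (ch L) = G0) ∧ (∀ L, endo J0 (ch L) = fun _ => L.sgn • Ji ν) ∧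
    IsFlow (1 / (4 * (Fintype.card ν + 1)))
      (fun t => (1 - 4 * (Fintype.card ν + 1) * t) • g0) fun _ => J0 := by
  have hat : ∀ e ∈ atlas (ν ⊕ ν → ℝ) M, ∃ L, ch L = e := fun e he => by
    rwa [hc.atl] at he
  have hg : ∀ L, form2 (fun p => G0 (chartAt (ν ⊕ ν → ℝ) p p)) (ch L) = G0 := fun L => by
    rw [hc.form2_of_inv G0 (fun _ => 1) (fun _ _ => rfl)
      (fun L w hw => by rw [G0_inv L hw, one_smul]) L]
    funext w
    rw [one_smul]
  have hJ : ∀ L, endo (fun _ : M => Ji ν) (ch L) = fun _ => L.sgn • Ji ν :=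
    hc.endo_of_inv (fun _ => Ji ν) Sy.sgn sgn_perm fun L w hw => Ji_inv L hw
  have hak : IsAK (fun p : M => G0 (chartAt (ν ⊕ ν → ℝ) p p)) fun _ => Ji ν := by
    refine ⟨fun p => G0_posDef _, fun _ => Ji_sq, fun p => G0_herm _, ?_, ?_⟩
    · intro e he a b
      obtain ⟨L, rfl⟩ := hat e he
      rw [hg, hJ]
      exact ⟨(G0_smooth a b).contDiffOn, contDiffOn_const⟩
    · intro e he z _
      obtain ⟨L, rfl⟩ := hat e he
      rw [hg, hJ]
      exact (ak0.sign L.sgn_sq).closed 0 h01 z (mem_univ _)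
  have hpos : ∀ t : ℝ, t < 1 / (4 * (Fintype.card ν + 1)) →
      0 < 1 - 4 * (Fintype.card ν + 1) * t := fun t ht => by
    rw [lt_div_iff₀ (by positivity)] at ht
    linarith
  have hG : ∀ w, IsUnit (Ein.GG (Ji ν) w).det := fun w => by
    rw [← Ein.G0_eq]
    exact FS.G0_unit w
  refine ⟨_, _, hak, hg, hJ, fun t ht => hak.smul (hpos t ht.2), fun e he a b => ?_,
    fun e he t ht => ⟨_, fun z hz => ⟨((hak.smul (hpos t ht.2)).chern hc he hz).1, fun a b => ?_⟩⟩⟩
  · obtain ⟨L, rfl⟩ := hat e he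
    simp only [form2_smul, hg, hJ]
    exact ⟨((contDiff_const.sub (contDiff_const.mul contDiff_fst)).mul
      ((G0_smooth a b).comp contDiff_snd)).contDiffOn, contDiffOn_const⟩
  · rw [((hak.smul (hpos t ht.2)).chern hc he hz).2]
    obtain ⟨L, rfl⟩ := hat e he
    simp only [form2_smul, hg, hJ, om_smul]
    rw [Ein.G0_eq, Ein.Pform_smul FS.Ji_tr Ji_sq hG (hpos t ht.2).ne',
      Ein.Jrhs_smul FS.Ji_tr Ji_sq hG (hpos t ht.2).ne']
    refine ⟨?_, hasDerivAt_const _ _⟩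
    have h := (((hasDerivAt_id t).const_mul (4 * (Fintype.card ν + 1) : ℝ)).const_sub 1).mul_const
      (om (Ein.GG (Ji ν)) (fun _ => L.sgn • Ji ν) z a b)
    refine HasDerivAt.congr_deriv h ?_
    simp only [Matrix.smul_apply, smul_eq_mul, Fintype.card_sum]
    push_cast
    ring

/-- A field of bilinear forms is determined by its matrices in the charts. -/
lemma IsCP.form2_inj (hc : IsCP ch) {σ σ' : M → Matrix (ν ⊕ ν) (ν ⊕ ν) ℝ}
    (h : ∀ L z, form2 σ (ch L) z = form2 σ' (ch L) z) (p : M) : σ p = σ' p := by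
  obtain ⟨j, hj, -⟩ := hc.at_ p
  have hp : (ch (Sy.perm j)).symm (ch (Sy.perm j) p) = p :=
    (ch (Sy.perm j)).left_inv (hj ▸ mem_chart_source _ p)
  have h1 := h (Sy.perm j) (ch (Sy.perm j) p)
  have hu := (hc.jac_det (Sy.perm j) (ch (Sy.perm j) p)).isUnit
  simp only [form2, hp] at h1
  generalize jac (ch (Sy.perm j)) (ch (Sy.perm j) p) = A at h1 hu
  have hu' : IsUnit Aᵀ.det := by rwa [det_transpose]
  have h2 := congrArg (fun X => (Aᵀ)⁻¹ * X * A⁻¹) h1
  simpa only [Matrix.mul_assoc, nonsing_inv_mul_cancel_left _ _ hu', mul_nonsing_inv _ hu,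
    Matrix.mul_one] using h2

/-- The deformed structures have the fundamental form of the Fubini-Study structure. -/
lemma IsCP.same_form (hc : IsCP ch) {η : ℝ} (hη : η ∈ Ioo (0 : ℝ) (1 / 10))
    {g0 J0 g J : M → Matrix (ν ⊕ ν) (ν ⊕ ν) ℝ} (hg0 : ∀ L, form2 g0 (ch L) = G0)
    (hJ0 : ∀ L, endo J0 (ch L) = fun _ => L.sgn • Ji ν) (hg : ∀ L, form2 g (ch L) = g1 η)
    (hJ : ∀ L, endo J (ch L) = fun w => L.sgn • J1 η w) (p : M) :
    (J p)ᵀ * g p = (J0 p)ᵀ * g0 p := by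
  refine hc.form2_inj (σ := fun p => (J p)ᵀ * g p) (σ' := fun p => (J0 p)ᵀ * g0 p)
    (fun L z => ?_) p
  rw [← om_chart (fun _ => rfl) (hc.jac_det L z), ← om_chart (fun _ => rfl) (hc.jac_det L z),
    hg, hJ, hg0, hJ0]
  have := congrFun (om1 (ν := ν) hη) z
  simp only [om] at this
  simp only [om, transpose_smul, Matrix.smul_mul, this]

open scoped Manifold in
/-- On one compact symplectic manifold: a compatible structure whose flow lives on the whole
interval allowed by the class, and compatible structures whose flows die arbitrarily early. -/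
theorem long_and_short : ∀ n : ℕ, 3 ≤ n →
    ∃ (ι : Type) (_ : Fintype ι) (_ : DecidableEq ι) (M : Type)
      (_ : TopologicalSpace M) (_ : ChartedSpace (ι → ℝ) M), Fintype.card ι = 2 * n ∧
      IsManifold 𝓘(ℝ, ι → ℝ) ∞ M ∧ CompactSpace M ∧ T2Space M ∧ ConnectedSpace M ∧
      ∃ g1 J1 : M → Matrix ι ι ℝ, IsAK g1 J1 ∧
        IsFlow (1 / (4 * (n + 1))) (fun t => (1 - 4 * (n + 1) * t) • g1) (fun _ => J1) ∧
        ∀ ε : ℝ, 0 < ε → ∃ g0 J0 : M → Matrix ι ι ℝ, IsAK g0 J0 ∧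
          (∀ p, (J0 p)ᵀ * g0 p = (J1 p)ᵀ * g1 p) ∧
          ∀ (T : ℝ) (g J : ℝ → M → Matrix ι ι ℝ), IsFlow T g J → g 0 = g0 → J 0 = J0 → T ≤ ε := by
  intro n hn
  obtain ⟨m, rfl⟩ : ∃ m, n = m + 1 := ⟨n - 1, by omega⟩
  have hm : 2 ≤ m := by omega
  obtain ⟨r1, hr1, hini⟩ := init_good
  obtain ⟨τ, hτ, hcol⟩ := collapse hm hr1
  obtain ⟨M, _, _, ch, h1, h2, h3, h4, k1, k2, k3, k4, k5⟩ := exists_CP (Option (Fin m))
  have hc : IsCP ch := ⟨k1, k2, k3, k4, k5⟩
  obtain ⟨ω0, -, hcl⟩ := class_exact hc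
  obtain ⟨g1, J1, a1, a2, a3, a4⟩ := fs_flow hc
  rw [Fintype.card_option, Fintype.card_fin] at a4
  refine ⟨II (Fin m), inferInstance, inferInstance, M, inferInstance, inferInstance,
    by simp [two_mul], h1, h2, h3, h4, g1, J1, a1, a4, fun ε hε => ?_⟩
  have hQ : 0 < min τ ε / 2 := half_pos (lt_min hτ hε)
  have hQ' := half_lt_self (lt_min hτ hε)
  obtain ⟨η, hη, hini⟩ := hini _ hQ
  obtain ⟨g0, J0, θ, hak, hG, hJ, -⟩ := hcl η hη
  refine ⟨g0, J0, hak, hc.same_form hη a2 a3 hG hJ, fun T g J hf e1 e2 => ?_⟩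
  by_contra hT
  rw [not_le] at hT
  have hT' : min τ ε / 2 < T := (hQ'.trans_le (min_le_right _ _)).trans hT
  obtain ⟨R, hR⟩ := red_of_flow (⟨0, by omega⟩ : Fin m) hc hη hf (e1 ▸ hG) (e2 ▸ hJ)
  have := hini _ T (hQ.trans hT') R hR
  revert R
  rw [Fintype.card_fin]
  exact fun R _ => hcol _ ⟨hQ, hQ'.trans_le (min_le_left _ _)⟩ T hT' R

end Pool.Agent.P.MP_8fdf05_gt
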