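import Mathlib

/-! Definitions for the statement. In a chart, a metric or two-form is the matrix of its values on
the coordinate vectors, an endomorphism J has J e_b = sum of (J a b) e_a, and a connection has
the matrices Γ i with entry (k,j) equal to the Christoffel symbol with upper index k and lower
indices i, j. A global tensor field is given at each point p by its matrix in the preferred chart
at p (the tangent space at p is the model space), and is transported to any other chart by the
Jacobian of the change of charts. -/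

open Matrix Set
open scoped ContDiff

namespace Pool.Agent.P.MP_8fdf05_gt

variable {ι : Type} [Fintype ι] [DecidableEq ι]

/-- Matrix valued functions on the model space. -/
abbrev Fld (ι : Type) := (ι → ℝ) → Matrix ι ι ℝ

/-- Entrywise derivative in the coordinate direction i. -/
noncomputable def pd (i : ι) (A : Fld ι) : Fld ι := fun z =>
  Matrix.of fun a b => fderiv ℝ (fun y => A y a b) z (Pi.single i 1)

/-- Christoffel symbols of the Levi-Civita connection: entry (k,j) of `chr g i`. -/
noncomputable def chr (g : Fld ι) (i : ι) : Fld ι := fun z =>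
  (g z)⁻¹ * Matrix.of fun l j => (1 / 2 : ℝ) * (pd i g z l j + pd j g z l i - pd l g z i j)

/-- Covariant derivative of a field of endomorphisms. -/
noncomputable def cov (Γ : ι → Fld ι) (i : ι) (A : Fld ι) : Fld ι := fun z =>
  pd i A z + Γ i z * A z - A z * Γ i z

/-- Curvature endomorphisms of a connection. -/
noncomputable def curv (Γ : ι → Fld ι) (i j : ι) : Fld ι := fun z =>
  pd i (Γ j) z - pd j (Γ i) z + Γ i z * Γ j z - Γ j z * Γ i z

/-- The Ricci endomorphism. -/
noncomputable def Rc (g : Fld ι) : Fld ι := fun z =>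
  (g z)⁻¹ * Matrix.of fun j k => ∑ i, curv (chr g) i j z i k

/-- First covariant derivative of J. -/
noncomputable def DJ (g J : Fld ι) (i : ι) : Fld ι := cov (chr g) i J

/-- Second covariant derivative of J. -/
noncomputable def DDJ (g J : Fld ι) (i j : ι) : Fld ι := fun z =>
  cov (chr g) i (DJ g J j) z - ∑ k, chr g i z k j • DJ g J k z

/-- The fundamental form, with entries g(J e_a, e_b). -/
noncomputable def om (g J : Fld ι) : Fld ι := fun z => (J z)ᵀ * g z

/-- Torsion of the connection with Christoffel symbols Λ, applied to the vectors u, v at z. -/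
noncomputable def tors (Λ : ι → Fld ι) (z u v : ι → ℝ) : ι → ℝ :=
  (∑ i, u i • Λ i z) *ᵥ v - (∑ i, v i • Λ i z) *ᵥ u

/-- The defining properties of the Chern connection at z: it preserves the fundamental form and J,
and its torsion has no (1,1) part. -/
def IsChern (g J : Fld ι) (Λ : ι → Fld ι) (z : ι → ℝ) : Prop :=
  (∀ i, pd i (om g J) z = (Λ i z)ᵀ * om g J z + om g J z * Λ i z) ∧ (∀ i, cov Λ i J z = 0) ∧
    ∀ u v, tors Λ z u v + tors Λ z (J z *ᵥ u) (J z *ᵥ v) = 0

/-- The form P with entries ω^{kl} Ω_{ijkl}, where ω^{kl} is the inverse matrix of the fundamental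
form and Ω_{ijkl} = g(Ω(e_i, e_j) e_k, e_l). In the Kaehler case it is twice the Ricci form. -/
noncomputable def Pc (g J : Fld ι) (Λ : ι → Fld ι) : Fld ι := fun z =>
  Matrix.of fun i j => ∑ k, ∑ l, (om g J z)⁻¹ k l * (g z * curv Λ i j z) l k

/-- Right hand side of the evolution of J: the rough Laplacian of J, plus N, plus R. -/
noncomputable def Jrhs (g J : Fld ι) : Fld ι := fun z =>
  ∑ p, ∑ q, (g z)⁻¹ p q • DDJ g J p q z +
    ∑ p, ∑ q, (g z)⁻¹ p q • ((g z)⁻¹ * (DJ g J q z)ᵀ * g z * DJ g J p z * J z) +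
    (Rc g z * J z - J z * Rc g z)

/-- A two-form is closed at z. -/
def Closed (σ : Fld ι) (z : ι → ℝ) : Prop :=
  ∀ i j k, pd i σ z j k + pd j σ z k i + pd k σ z i j = 0

/-- Exterior derivative of a one-form. -/
noncomputable def dOne (η : (ι → ℝ) → ι → ℝ) : Fld ι := fun z =>
  Matrix.of fun i j =>
    fderiv ℝ (fun y => η y j) z (Pi.single i 1) - fderiv ℝ (fun y => η y i) z (Pi.single j 1)

variable {M : Type} [TopologicalSpace M] [ChartedSpace (ι → ℝ) M]

/-- Jacobian of the change from the chart e to the preferred chart. -/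
noncomputable def jac (e : OpenPartialHomeomorph M (ι → ℝ)) : Fld ι := fun z =>
  Matrix.of fun a b =>
    fderiv ℝ (chartAt (ι → ℝ) (e.symm z) ∘ e.symm) z (Pi.single b 1) a

/-- A one-form read in the chart e. -/
noncomputable def form1 (η : M → ι → ℝ) (e : OpenPartialHomeomorph M (ι → ℝ)) (z : ι → ℝ) :
    ι → ℝ :=
  η (e.symm z) ᵥ* jac e z

/-- A field of bilinear forms read in the chart e. -/
noncomputable def form2 (σ : M → Matrix ι ι ℝ) (e : OpenPartialHomeomorph M (ι → ℝ)) : Fld ι :=
  fun z => (jac e z)ᵀ * σ (e.symm z) * jac e z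

/-- A field of endomorphisms read in the chart e. -/
noncomputable def endo (J : M → Matrix ι ι ℝ) (e : OpenPartialHomeomorph M (ι → ℝ)) : Fld ι :=
  fun z => (jac e z)⁻¹ * J (e.symm z) * jac e z

/-- Symplectic forms: skew, nondegenerate, smooth, closed. -/
structure IsSymp (σ : M → Matrix ι ι ℝ) : Prop where
  skew : ∀ p, (σ p)ᵀ = -σ p
  nondeg : ∀ p, (σ p).det ≠ 0
  smooth : ∀ e ∈ atlas (ι → ℝ) M, ∀ a b, ContDiffOn ℝ ∞ (fun z => form2 σ e z a b) e.target
  closed : ∀ e ∈ atlas (ι → ℝ) M, ∀ z ∈ e.target, Closed (form2 σ e) z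

/-- Almost Kaehler structures. -/
structure IsAK (g J : M → Matrix ι ι ℝ) : Prop where
  pos : ∀ p, (g p).PosDef
  sq : ∀ p, J p * J p = -1
  herm : ∀ p, (J p)ᵀ * g p * J p = g p
  smooth : ∀ e ∈ atlas (ι → ℝ) M, ∀ a b, ContDiffOn ℝ ∞ (fun z => form2 g e z a b) e.target ∧
    ContDiffOn ℝ ∞ (fun z => endo J e z a b) e.target
  closed : ∀ e ∈ atlas (ι → ℝ) M, ∀ z ∈ e.target, Closed (om (form2 g e) (endo J e)) z

/-- Smooth solutions of symplectic curvature flow on the interval [0,T). -/
structure IsFlow (T : ℝ) (g J : ℝ → M → Matrix ι ι ℝ) : Prop where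
  ak : ∀ t ∈ Ico 0 T, IsAK (g t) (J t)
  smooth : ∀ e ∈ atlas (ι → ℝ) M, ∀ a b,
    ContDiffOn ℝ ∞ (fun x : ℝ × (ι → ℝ) => form2 (g x.1) e x.2 a b) (Ico 0 T ×ˢ e.target) ∧
    ContDiffOn ℝ ∞ (fun x : ℝ × (ι → ℝ) => endo (J x.1) e x.2 a b) (Ico 0 T ×ˢ e.target)
  flow : ∀ e ∈ atlas (ι → ℝ) M, ∀ t ∈ Ioo 0 T, ∃ Λ : ι → Fld ι, ∀ z ∈ e.target,
    IsChern (form2 (g t) e) (endo (J t) e) Λ z ∧ ∀ a b,
      HasDerivAt (fun s => om (form2 (g s) e) (endo (J s) e) z a b)
        (-Pc (form2 (g t) e) (endo (J t) e) Λ z a b) t ∧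
      HasDerivAt (fun s => endo (J s) e z a b) (Jrhs (form2 (g t) e) (endo (J t) e) z a b) t

end Pool.Agent.P.MP_8fdf05_gt
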