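import Pool.Agent.P.MP_8fdf05_gt.Defs

/-! The flow written with an explicit formula for the Chern connection. -/

open Matrix Set
open scoped ContDiff

namespace Pool.Agent.P.MP_8fdf05_gt

variable {ι : Type} [Fintype ι] [DecidableEq ι]

/-- The canonical connection of an almost Kaehler structure. -/
noncomputable def chern (g J : Fld ι) (i : ι) : Fld ι := fun z =>
  chr g i z - (1 / 2 : ℝ) • (J z * DJ g J i z)

/-- The form P of a connection. -/
noncomputable def Pform (J : Fld ι) (Λ : ι → Fld ι) : Fld ι := fun z =>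
  Matrix.of fun i j => Matrix.trace (J z * curv Λ i j z)

variable {M : Type} [TopologicalSpace M] [ChartedSpace (ι → ℝ) M]

/-- Smooth solutions of symplectic curvature flow on the interval from 0 to T. -/
structure IsSCF (T : ℝ) (g J : ℝ → M → Matrix ι ι ℝ) : Prop where
  ak : ∀ t ∈ Ico 0 T, IsAK (g t) (J t)
  smooth : ∀ e ∈ atlas (ι → ℝ) M, ∀ a b,
    ContDiffOn ℝ ∞ (fun x : ℝ × (ι → ℝ) => form2 (g x.1) e x.2 a b) (Ico 0 T ×ˢ e.target) ∧
    ContDiffOn ℝ ∞ (fun x : ℝ × (ι → ℝ) => endo (J x.1) e x.2 a b) (Ico 0 T ×ˢ e.target)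
  flow : ∀ e ∈ atlas (ι → ℝ) M, ∀ t ∈ Ioo 0 T, ∀ z ∈ e.target, ∀ a b,
    HasDerivAt (fun s => om (form2 (g s) e) (endo (J s) e) z a b)
      (-Pform (endo (J t) e) (chern (form2 (g t) e) (endo (J t) e)) z a b) t ∧
    HasDerivAt (fun s => endo (J s) e z a b) (Jrhs (form2 (g t) e) (endo (J t) e) z a b) t

end Pool.Agent.P.MP_8fdf05_gt
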