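import Pool.Agent.P.MP_8fdf05_gt.Filt

/-! The difference of two solutions over the same differential ring. -/

open Matrix Finset

set_option synthInstance.maxSize 100000

namespace Pool.Agent.P.MP_8fdf05_gt.Uniq

noncomputable section

variable {ι : Type} [Fintype ι] [DecidableEq ι] {A A' : Type} [CommRing A] [Algebra ℝ A]
  [CommRing A'] [Algebra ℝ A']

/-- A homomorphism of differential rings that respects the structures. -/
structure Hom (m : Geo ι A) (m' : Geo ι A') (f : A →ₐ[ℝ] A') : Prop where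
  d : ∀ i x, f (m.d i x) = m'.d i (f x)
  g : ∀ a b, f (m.g a b) = m'.g a b
  gi : ∀ a b, f (m.gi a b) = m'.gi a b
  J : ∀ a b, f (m.J a b) = m'.J a b

namespace Hom

variable {m : Geo ι A} {m' : Geo ι A'} {f : A →ₐ[ℝ] A'} (h : Hom m m' f)
include h

lemma Γ (i a b : ι) : f (m.Γ i a b) = m'.Γ i a b := by
  simp only [Met.Γ, Matrix.mul_apply, of_apply, map_sum, map_mul, map_smul, map_add, map_sub,
    h.d, h.g, h.gi]

lemma S (i a b : ι) : f (m.S i a b) = m'.S i a b := by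
  simp only [Geo.S, Met.cov, acov, Matrix.mul_apply, Matrix.add_apply, Matrix.sub_apply, md_apply,
    map_sum, map_mul, map_add, map_sub, h.d, h.J, h.Γ]

lemma W (k : ι) : f (m.W k) = m'.W k := by
  simp only [Geo.W, map_sum, map_mul, h.gi, h.Γ]

lemma om (a b : ι) : f (m.om a b) = m'.om a b := by
  simp only [Geo.om, Matrix.mul_apply, transpose_apply, map_sum, map_mul, h.J, h.g]

lemma Lam (i a b : ι) : f (m.Lam i a b) = m'.Lam i a b := by
  simp only [Geo.Lam, Matrix.mul_apply, Matrix.sub_apply, Matrix.smul_apply,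
    map_sum, map_mul, map_smul, map_sub, h.J, h.Γ, h.S]

lemma Pf (a b : ι) : f (m.Pf a b) = m'.Pf a b := by
  simp only [Geo.Pf, acurv, of_apply, trace, diag_apply, Matrix.mul_apply, Matrix.add_apply,
    Matrix.sub_apply, md_apply, map_sum, map_mul, map_add, map_sub, h.d, h.J, h.Lam]

lemma Rc (a b : ι) : f (m.Rc a b) = m'.Rc a b := by
  simp only [Met.Rc, Met.Ric, Met.R, acurv, of_apply, Matrix.mul_apply, Matrix.add_apply,
    Matrix.sub_apply, md_apply, map_sum, map_mul, map_add, map_sub, h.d, h.gi, h.Γ]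

lemma DS (i j a b : ι) : f (m.DS i j a b) = m'.DS i j a b := by
  simp only [Geo.DS, Met.cov2, Met.cov, acov, Matrix.mul_apply, Matrix.add_apply, Matrix.sub_apply,
    Matrix.sum_apply, Matrix.smul_apply, smul_eq_mul, md_apply, map_sum, map_mul, map_add, map_sub,
    h.d, h.S, h.Γ]

lemma Jrhs (a b : ι) : f (m.Jrhs a b) = m'.Jrhs a b := by
  simp only [Geo.Jrhs, Geo.Lap, Geo.NN, Matrix.mul_apply, Matrix.add_apply, Matrix.sub_apply,
    Matrix.sum_apply, Matrix.smul_apply, smul_eq_mul, transpose_apply, map_sum, map_mul, map_add,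
    map_sub, h.S, h.DS, h.gi, h.g, h.J, h.Rc]

end Hom

/-- Componentwise derivation. -/
def pD (D : Derivation ℝ A A) : Derivation ℝ (A × A) (A × A) :=
  Derivation.mk' ((D : A →ₗ[ℝ] A).prodMap D) fun a b => by ext <;> simp

@[simp] lemma pD_fst (D : Derivation ℝ A A) (x : A × A) : (pD D x).1 = D x.1 := rfl
@[simp] lemma pD_snd (D : Derivation ℝ A A) (x : A × A) : (pD D x).2 = D x.2 := rfl

/-- The pair of two structures. -/
def pr (m1 m2 : Geo ι A) (hd : m2.d = m1.d) : Geo ι (A × A) where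
  d i := pD (m1.d i)
  comm i j x := by ext <;> simp [m1.comm i j]
  g := of fun a b => (m1.g a b, m2.g a b)
  gi := of fun a b => (m1.gi a b, m2.gi a b)
  J := of fun a b => (m1.J a b, m2.J a b)
  g_gi := by
    ext a b
    · simpa [Matrix.mul_apply, Prod.fst_sum, one_apply, apply_ite Prod.fst]
        using congrFun₂ m1.g_gi a b
    · simpa [Matrix.mul_apply, Prod.snd_sum, one_apply, apply_ite Prod.snd]
        using congrFun₂ m2.g_gi a b
  symm := by ext a b <;> simp [m1.g_sw a b, m2.g_sw a b]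
  JJ := by
    ext a b
    · simpa [Matrix.mul_apply, Prod.fst_sum, one_apply, apply_ite Prod.fst]
        using congrFun₂ m1.JJ a b
    · simpa [Matrix.mul_apply, Prod.snd_sum, one_apply, apply_ite Prod.snd]
        using congrFun₂ m2.JJ a b
  herm := by
    ext a b
    · simpa [Matrix.mul_apply, Prod.fst_sum] using congrFun₂ m1.herm a b
    · simpa [Matrix.mul_apply, Prod.snd_sum] using congrFun₂ m2.herm a b
  closed i j k := by
    ext
    · simpa [Matrix.mul_apply, Prod.fst_sum] using m1.closed i j k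
    · simpa [Matrix.mul_apply, Prod.snd_sum, hd] using m2.closed i j k

variable (m1 m2 : Geo ι A) (hd : m2.d = m1.d)

lemma hom1 : Hom (pr m1 m2 hd) m1 (AlgHom.fst ℝ A A) :=
  ⟨fun _ _ => rfl, fun _ _ => rfl, fun _ _ => rfl, fun _ _ => rfl⟩

lemma hom2 : Hom (pr m1 m2 hd) m2 (AlgHom.snd ℝ A A) :=
  ⟨fun _ _ => by rw [hd]; rfl, fun _ _ => rfl, fun _ _ => rfl, fun _ _ => rfl⟩

lemma flow {D : Derivation ℝ A A} (h1 : m1.Flow D) (h2 : m2.Flow D) :
    (pr m1 m2 hd).Flow (pD D) := by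
  refine ⟨fun i x => Prod.ext (h1.comm i x.1) (h1.comm i x.2), ?_, ?_⟩
  · ext a b
    · have := congrFun₂ h1.om a b
      rw [md_apply, Matrix.neg_apply, ← (hom1 m1 m2 hd).om, ← (hom1 m1 m2 hd).Pf] at this
      exact this
    · have := congrFun₂ h2.om a b
      rw [md_apply, Matrix.neg_apply, ← (hom2 m1 m2 hd).om, ← (hom2 m1 m2 hd).Pf] at this
      exact this
  · ext a b
    · have := congrFun₂ h1.J a b
      rw [← (hom1 m1 m2 hd).Jrhs] at this
      exact this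
    · have := congrFun₂ h2.J a b
      rw [← (hom2 m1 m2 hd).Jrhs] at this
      exact this

/-- Pairs that agree modulo an ideal. -/
def Sub (P : Submodule A A) : Subalgebra ℝ (A × A) where
  carrier := {x | x.1 - x.2 ∈ P}
  mul_mem' {x y} hx hy := by
    have : (x * y).1 - (x * y).2 = x.1 • (y.1 - y.2) + y.2 • (x.1 - x.2) := by simp; ring
    change (x * y).1 - (x * y).2 ∈ P
    exact this ▸ P.add_mem (P.smul_mem _ hy) (P.smul_mem _ hx)
  add_mem' {x y} hx hy := by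
    have : (x + y).1 - (x + y).2 = (x.1 - x.2) + (y.1 - y.2) := by simp; ring
    change (x + y).1 - (x + y).2 ∈ P
    exact this ▸ P.add_mem hx hy
  algebraMap_mem' r := by simp

lemma der_span {s : Set A} {P : Submodule A A} (D : Derivation ℝ A A) (h1 : s ⊆ P)
    (h2 : ∀ x ∈ s, D x ∈ P) {x : A} (hx : x ∈ Submodule.span A s) : D x ∈ P := by
  induction hx using Submodule.span_induction with
  | mem x hx => exact h2 x hx
  | zero => simp
  | add x y _ _ hx hy => rw [map_add]; exact P.add_mem hx hy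
  | smul a x hx h =>
    rw [smul_eq_mul, Derivation.leibniz]
    exact P.add_mem (P.smul_mem _ h) (by
      rw [smul_eq_mul, mul_comm]; exact P.smul_mem _ (Submodule.span_le.2 h1 hx))

lemma up_le {F : Subalgebra ℝ (A × A)} {s : Set A} {P : Submodule A A}
    (hF : F ≤ Sub (Submodule.span A s)) (h1 : s ⊆ P) (h2 : ∀ i, ∀ x ∈ s, m1.d i x ∈ P) :
    up (pr m1 m2 hd).d F ≤ Sub P := by
  refine Algebra.adjoin_le ?_
  rintro x (hx | hx)
  · exact Submodule.span_le.2 h1 (hF hx)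
  · obtain ⟨i, y, hy, rfl⟩ := Set.mem_iUnion.1 hx
    have := der_span (m1.d i) h1 (h2 i) (hF hy)
    rwa [map_sub] at this

/-- Difference of the structures. -/
def dl : (ι × ι) ⊕ (ι × ι) → A :=
  Sum.elim (fun s => m1.g s.1 s.2 - m2.g s.1 s.2) fun s => m1.J s.1 s.2 - m2.J s.1 s.2

/-- Contracted difference of the connections. -/
def ww (k : ι) : A := ∑ p, ∑ q, m1.gi p q * (m1.Γ p k q - m2.Γ p k q)

/-- Difference of the derivatives of J. -/
def nn (s : ι × ι × ι) : A := m1.S s.1 s.2.1 s.2.2 - m2.S s.1 s.2.1 s.2.2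

open Set Submodule

lemma gi_mem (a b : ι) : m1.gi a b - m2.gi a b ∈ span A (range (dl m1 m2)) := by
  have : m1.gi - m2.gi = -(m1.gi * (m1.g - m2.g) * m2.gi) := by
    rw [Matrix.mul_sub, Matrix.sub_mul, m1.gi_g, Matrix.one_mul, Matrix.mul_assoc, m2.g_gi,
      Matrix.mul_one, neg_sub]
  rw [← Matrix.sub_apply, this]
  simp only [Matrix.neg_apply, Matrix.mul_apply, Matrix.sub_apply]
  refine neg_mem (sum_mem fun c _ => Ideal.mul_mem_right _ _ (sum_mem fun e _ =>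
    Ideal.mul_mem_left _ _ (subset_span ⟨.inl (e, c), rfl⟩)))

lemma F0_le : (pr m1 m2 hd).F0 ≤ Sub (span A (range (dl m1 m2))) := by
  refine Algebra.adjoin_le ?_
  rintro x ((⟨s, rfl⟩ | ⟨s, rfl⟩) | ⟨s, rfl⟩)
  · exact subset_span ⟨.inl s, rfl⟩
  · exact gi_mem m1 m2 _ _
  · exact subset_span ⟨.inr s, rfl⟩

/-- The first jets of the difference. -/
def s1 : Set A :=
  range (dl m1 m2) ∪ range fun s : ι × ((ι × ι) ⊕ (ι × ι)) => m1.d s.1 (dl m1 m2 s.2)

lemma F1_le : (pr m1 m2 hd).F1 ≤ Sub (span A (s1 m1 m2)) :=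
  up_le m1 m2 hd (F0_le m1 m2 hd) (fun _ h => subset_span (.inl h))
    (by rintro i _ ⟨a, rfl⟩; exact subset_span (.inr ⟨(i, a), rfl⟩))

lemma F1_le' (s : Set A) : (pr m1 m2 hd).F1 ≤ Sub (span A (s1 m1 m2 ∪ s)) :=
  fun _ h => span_mono subset_union_left (F1_le m1 m2 hd h)

lemma gi_mem' (s : Set A) (a b : ι) : m1.gi a b - m2.gi a b ∈ span A (s1 m1 m2 ∪ s) :=
  span_mono (subset_union_left.trans subset_union_left) (gi_mem m1 m2 a b)

lemma lap {D : Derivation ℝ A A} {s : Set A} {X : Matrix ι ι (A × A)}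
    (h : MMem (Sub (span A (s1 m1 m2 ∪ s))) (md (pD D) X - (pr m1 m2 hd).Δ X)) (a b : ι) :
    D ((X a b).1 - (X a b).2) - ∑ p, ∑ q, m1.gi p q * m1.d p (m1.d q ((X a b).1 - (X a b).2))
      ∈ span A (s1 m1 m2 ∪ s) := by
  have h1 : _ ∈ span A (s1 m1 m2 ∪ s) := h.mem a b
  have h2 : ∑ p, ∑ q, (m1.gi p q - m2.gi p q) * m1.d p (m1.d q (X a b).2)
      ∈ span A (s1 m1 m2 ∪ s) :=
    sum_mem fun p _ => sum_mem fun q _ => Ideal.mul_mem_right _ _ (gi_mem' m1 m2 s p q)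
  convert add_mem h1 h2 using 1
  simp only [Geo.Δ, pr, Matrix.sub_apply, md_apply, Matrix.sum_apply, Matrix.smul_apply,
    smul_eq_mul, Prod.fst_sub, Prod.snd_sub, Prod.fst_sum, Prod.snd_sum, Prod.fst_mul,
    Prod.snd_mul, pD_fst, pD_snd, of_apply, map_sub, mul_sub, sub_mul, sum_sub_distrib]
  ring

variable {m1 m2} {D : Derivation ℝ A A}
include hd

theorem diff_δ (h1 : m1.Flow D) (h2 : m2.Flow D) (a : (ι × ι) ⊕ (ι × ι)) :
    D (dl m1 m2 a) - ∑ p, ∑ q, m1.gi p q * m1.d p (m1.d q (dl m1 m2 a)) ∈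
      span A (s1 m1 m2 ∪ range fun s : ι × ι => m1.d s.1 (ww m1 m2 s.2)) := by
  set s := range fun s : ι × ι => m1.d s.1 (ww m1 m2 s.2)
  set m := pr m1 m2 hd
  have hF := F1_le' m1 m2 hd s
  have lift : ∀ X : Matrix ι ι (A × A), MMem m.F1 X → MMem (Sub (span A (s1 m1 m2 ∪ s))) X :=
    fun X h => ⟨fun a b => hF (h.mem a b)⟩
  have i1 := lift m.g inferInstance
  have i2 := lift m.J inferInstance
  have i3 : MMem (Sub (span A (s1 m1 m2 ∪ s))) m.dW := ⟨fun k j => by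
    change m1.d j (AlgHom.fst ℝ A A (m.W k)) - m1.d j (AlgHom.snd ℝ A A (m.W k)) ∈
      span A (s1 m1 m2 ∪ s)
    rw [(hom1 m1 m2 hd).W, (hom2 m1 m2 hd).W, ← map_sub]
    have : m1.W k - m2.W k = ww m1 m2 k + ∑ p, ∑ q, (m1.gi p q - m2.gi p q) * m2.Γ p k q := by
      simp only [Geo.W, ww, mul_sub, sub_mul, sum_sub_distrib]; ring
    rw [this, map_add]
    refine add_mem (subset_span (.inr ⟨(j, k), rfl⟩)) (der_span (s := range (dl m1 m2)) _
      (fun _ h => subset_span (.inl (.inl h))) ?_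
      (sum_mem fun p _ => sum_mem fun q _ => Ideal.mul_mem_right _ _ (gi_mem m1 m2 p q)))
    rintro _ ⟨a, rfl⟩
    exact subset_span (.inl (.inr ⟨(j, a), rfl⟩))⟩
  have hf := flow m1 m2 hd h1 h2
  rcases a with a | a
  · have i4 := lift _ hf.D1
    exact lap m1 m2 hd (X := m.g) (MMem.congr
      (N := md (pD D) m.g - (m.Δ m.g - m.g * m.dW - (m.g * m.dW)ᵀ) - m.g * m.dW - (m.g * m.dW)ᵀ)
      (by abel) inferInstance) a.1 a.2
  · have i4 := lift _ hf.D2
    exact lap m1 m2 hd (X := m.J) (MMem.congr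
      (N := md (pD D) m.J - (m.Δ m.J + (m.dW * m.J - m.J * m.dW)) + (m.dW * m.J - m.J * m.dW))
      (by abel) inferInstance) a.1 a.2

theorem diff_n (h1 : m1.Flow D) (h2 : m2.Flow D) (c : ι × ι × ι) :
    D (nn m1 m2 c) - ∑ p, ∑ q, m1.gi p q * m1.d p (m1.d q (nn m1 m2 c)) ∈
      span A (s1 m1 m2 ∪ range fun s : ι × ι × ((ι × ι) ⊕ (ι × ι)) =>
        m1.d s.1 (m1.d s.2.1 (dl m1 m2 s.2.2))) := by
  have hF : (pr m1 m2 hd).F2 ≤ Sub (span A (s1 m1 m2 ∪ range
      fun s : ι × ι × ((ι × ι) ⊕ (ι × ι)) => m1.d s.1 (m1.d s.2.1 (dl m1 m2 s.2.2)))) := by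
    refine up_le m1 m2 hd (F1_le m1 m2 hd) (fun _ h => subset_span (.inl h)) ?_
    rintro i _ (⟨a, rfl⟩ | ⟨a, rfl⟩)
    · exact subset_span (.inl (.inr ⟨(i, a), rfl⟩))
    · exact subset_span (.inr ⟨(i, a), rfl⟩)
  have := lap m1 m2 hd ⟨fun a b => hF (((flow m1 m2 hd h1 h2).D3 c.1).mem a b)⟩ c.2.1 c.2.2
  rw [nn, ← (hom1 m1 m2 hd).S, ← (hom2 m1 m2 hd).S]
  exact this

theorem diff_w (h1 : m1.Flow D) (h2 : m2.Flow D) (k : ι) :
    D (ww m1 m2 k) ∈
      span A (s1 m1 m2 ∪ range fun s : ι × ι × ι × ι => m1.d s.1 (nn m1 m2 s.2)) := by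
  set s := range fun s : ι × ι × ι × ι => m1.d s.1 (nn m1 m2 s.2)
  have hF : (pr m1 m2 hd).FS ≤ Sub (span A (s1 m1 m2 ∪ s)) := by
    refine Algebra.adjoin_le ?_
    rintro _ (h | ⟨c, rfl⟩)
    · exact F1_le' m1 m2 hd s h
    · refine subset_span (.inr ⟨c, ?_⟩)
      simp only [nn, ← (hom1 m1 m2 hd).S, ← (hom2 m1 m2 hd).S, map_sub]
      rfl
  have a1 : _ ∈ span A (s1 m1 m2 ∪ s) := hF ((flow m1 m2 hd h1 h2).D4 k).mem
  have a2 : ∀ p q, m1.Γ p k q - m2.Γ p k q ∈ span A (s1 m1 m2 ∪ s) := fun p q => by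
    rw [← (hom1 m1 m2 hd).Γ, ← (hom2 m1 m2 hd).Γ]
    exact F1_le' m1 m2 hd s (MMem.mem (M := (pr m1 m2 hd).Γ p) k q)
  have a3 : ∑ p, ∑ q, ((m1.gi p q - m2.gi p q) * -D (m2.Γ p k q) +
      D (m1.gi p q) * (m1.Γ p k q - m2.Γ p k q)) ∈ span A (s1 m1 m2 ∪ s) :=
    sum_mem fun p _ => sum_mem fun q _ => add_mem
      (Ideal.mul_mem_right _ _ (gi_mem' m1 m2 s p q)) (Ideal.mul_mem_left _ _ (a2 p q))
  convert add_mem a1 a3 using 1
  have e1 : ∀ p q, ((pr m1 m2 hd).Γ p k q).1 = m1.Γ p k q := fun p q => (hom1 m1 m2 hd).Γ p k q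
  have e2 : ∀ p q, ((pr m1 m2 hd).Γ p k q).2 = m2.Γ p k q := fun p q => (hom2 m1 m2 hd).Γ p k q
  have e3 : ∀ p q, ((pr m1 m2 hd).gi p q).1 = m1.gi p q := fun p q => rfl
  have e4 : ∀ p q, ((pr m1 m2 hd).gi p q).2 = m2.gi p q := fun p q => rfl
  simp only [ww, map_sum, Derivation.leibniz, smul_eq_mul, Prod.fst_sum, Prod.snd_sum,
    Prod.fst_mul, Prod.snd_mul, pD_fst, pD_snd, e1, e2, e3, e4, map_sub, ← sum_sub_distrib,
    ← sum_add_distrib]
  exact sum_congr rfl fun p _ => sum_congr rfl fun q _ => by ring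

end

end Pool.Agent.P.MP_8fdf05_gt.Uniq
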