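import Pool.Agent.P.MP_8fdf05_gt.Class

/-! The form P of the Fubini-Study structure is a multiple of the Fubini-Study form. -/

open Matrix Set
open scoped ContDiff ComplexConjugate

namespace Pool.Agent.P.MP_8fdf05_gt

namespace Ein

set_option linter.unusedSectionVars false

section gen

variable {ι : Type} [Fintype ι] [DecidableEq ι]

/-- The function f has derivative c at w in the direction k. -/
def D (k : ι) (w : ι → ℝ) (f : (ι → ℝ) → ℝ) (c : ℝ) : Prop :=
  DifferentiableAt ℝ f w ∧ fderiv ℝ f w (Pi.single k 1) = c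

variable {k : ι} {w : ι → ℝ} {f g : (ι → ℝ) → ℝ} {c d : ℝ}

lemma D.const (a : ℝ) : D k w (fun _ => a) 0 := ⟨differentiableAt_const _, by simp⟩

lemma D.add (h : D k w f c) (h' : D k w g d) : D k w (fun y => f y + g y) (c + d) :=
  ⟨h.1.add h'.1, by rw [fderiv_fun_add h.1 h'.1, _root_.add_apply, h.2, h'.2]⟩

lemma D.mul (h : D k w f c) (h' : D k w g d) :
    D k w (fun y => f y * g y) (f w * d + g w * c) :=
  ⟨h.1.mul h'.1, by
    rw [fderiv_fun_mul h.1 h'.1, _root_.add_apply, _root_.smul_apply,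
      _root_.smul_apply, h.2, h'.2, smul_eq_mul, smul_eq_mul]⟩

lemma D.inv (h : D k w f c) (h0 : f w ≠ 0) : D k w (fun y => (f y)⁻¹) (-((f w)⁻¹ ^ 2 * c)) := by
  have h1 := (hasDerivAt_inv h0).comp_hasFDerivAt w h.1.hasFDerivAt
  refine ⟨h1.differentiableAt, ?_⟩
  have h2 : fderiv ℝ (fun y => (f y)⁻¹) w = _ := h1.fderiv
  rw [h2, _root_.smul_apply, h.2, smul_eq_mul, inv_pow, neg_mul]

lemma D.congr (h : D k w f c) (e : c = d) : D k w f d := e ▸ h

lemma D.coord (i : ι) : D k w (fun y => y i) ((1 : Matrix ι ι ℝ) i k) := by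
  have h := hasFDerivAt_apply (𝕜 := ℝ) i w
  refine ⟨h.differentiableAt, ?_⟩
  rw [h.fderiv]
  simp [Pi.single_apply, Matrix.one_apply]

lemma D.sum {κ : Type} (s : Finset κ) {F : κ → (ι → ℝ) → ℝ} {C : κ → ℝ}
    (h : ∀ a, D k w (F a) (C a)) : D k w (fun y => ∑ a ∈ s, F a y) (∑ a ∈ s, C a) := by
  classical
  induction s using Finset.induction_on with
  | empty => simpa using D.const 0
  | insert a s ha ih => simpa only [Finset.sum_insert ha] using (h a).add ih

lemma D.mulVec (J : Matrix ι ι ℝ) (i : ι) : D k w (fun y => (J *ᵥ y) i) (J i k) :=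
  (D.sum Finset.univ fun a => (D.const (J i a)).mul (D.coord a)).congr (by
    simp [Matrix.one_apply])

/-- The inverse of 1 + |w|^2. -/
noncomputable def nv (w : ι → ℝ) : ℝ := (1 + w ⬝ᵥ w)⁻¹

lemma N_pos (w : ι → ℝ) : 0 < 1 + w ⬝ᵥ w :=
  add_pos_of_pos_of_nonneg one_pos (Finset.sum_nonneg fun _ _ => mul_self_nonneg _)

lemma D.nv : D k w nv (-(2 * nv w ^ 2 * w k)) :=
  (((D.const 1).add (D.sum Finset.univ fun a => (D.coord a).mul (D.coord a))).inv
    (N_pos w).ne').congr (by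
      simp only [Matrix.one_apply, mul_ite, mul_one, mul_zero, Finset.sum_add_distrib,
        Finset.sum_ite_eq', Finset.mem_univ, if_true, Ein.nv, dotProduct]
      ring)

/-- The Fubini-Study metric in real coordinates. -/
noncomputable def GG (J : Matrix ι ι ℝ) : Fld ι := fun w => Matrix.of fun i j =>
  nv w * (1 : Matrix ι ι ℝ) i j - nv w * nv w * (w i * w j + (J *ᵥ w) i * (J *ᵥ w) j)

/-- Its Christoffel symbols. -/
noncomputable def Ga (J : Matrix ι ι ℝ) (i : ι) : Fld ι := fun w => Matrix.of fun l j =>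
  -1 * nv w * (w i * (1 : Matrix ι ι ℝ) l j + (J *ᵥ w) i * J l j +
    (1 : Matrix ι ι ℝ) l i * w j + J l i * (J *ᵥ w) j)

lemma D.GG (J : Matrix ι ι ℝ) (i j : ι) : D k w (fun y => GG J y i j)
    (-(2 * Ein.nv w ^ 2 * w k) * (1 : Matrix ι ι ℝ) i j +
      4 * Ein.nv w ^ 3 * w k * (w i * w j + (J *ᵥ w) i * (J *ᵥ w) j) -
      Ein.nv w ^ 2 * (w i * (1 : Matrix ι ι ℝ) j k + w j * (1 : Matrix ι ι ℝ) i k +
        (J *ᵥ w) i * J j k + (J *ᵥ w) j * J i k)) := by
  have h := (D.nv.mul (D.const ((1 : Matrix ι ι ℝ) i j))).add ((D.const (-1)).mul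
    ((D.nv.mul D.nv).mul (((D.coord (k := k) (w := w) i).mul (D.coord j)).add
      ((D.mulVec J i).mul (D.mulVec J j)))))
  have e : (fun y => Ein.GG J y i j) = fun y => Ein.nv y * (1 : Matrix ι ι ℝ) i j +
      -1 * (Ein.nv y * Ein.nv y * (y i * y j + (J *ᵥ y) i * (J *ᵥ y) j)) := by
    funext y
    simp only [Ein.GG, of_apply]
    ring
  rw [e]
  exact h.congr (by ring)

variable {J : Matrix ι ι ℝ}

lemma sk (hJ : Jᵀ = -J) (i j : ι) : J j i = -J i j := congrFun (congrFun hJ i) j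

lemma one_sw (i j : ι) : (1 : Matrix ι ι ℝ) i j = (1 : Matrix ι ι ℝ) j i := by
  simp [Matrix.one_apply, eq_comm]

lemma s1 (v : ι → ℝ) (j : ι) : ∑ l, v l * (1 : Matrix ι ι ℝ) l j = v j := by
  simp [Matrix.one_apply]

lemma s2 (hJ : Jᵀ = -J) (v : ι → ℝ) (j : ι) : ∑ l, v l * J l j = -(J *ᵥ v) j := by
  simp only [mulVec, dotProduct, ← Finset.sum_neg_distrib]
  exact Finset.sum_congr rfl fun l _ => by rw [sk hJ j l]; ring

lemma s3 (hJ : Jᵀ = -J) (h2 : J * J = -1) (v : ι → ℝ) (j : ι) :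
    ∑ l, (J *ᵥ v) l * J l j = v j := by
  rw [s2 hJ, mulVec_mulVec, h2]
  simp [neg_mulVec]

lemma contr (v : ι → ℝ) (i j : ι) : ∑ l, v l * Ga J i w l j =
    -1 * nv w * (w i * v j + (J *ᵥ w) i * ∑ l, v l * J l j + v i * w j +
      (∑ l, v l * J l i) * (J *ᵥ w) j) := by
  rw [← s1 v j, ← s1 v i]
  simp only [Ga, of_apply, Finset.mul_sum, Finset.sum_mul, ← Finset.sum_add_distrib]
  exact Finset.sum_congr rfl fun l _ => by ring

lemma GG_Ga (hJ : Jᵀ = -J) (h2 : J * J = -1) (i : ι) (w : ι → ℝ) : GG J w * Ga J i w =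
    Matrix.of fun l j => (1 / 2 : ℝ) *
      (pd i (GG J) w l j + pd j (GG J) w l i - pd l (GG J) w i j) := by
  ext l j
  have e : (GG J w * Ga J i w) l j = nv w * ∑ m, (1 : Matrix ι ι ℝ) l m * Ga J i w m j -
      nv w * nv w * (w l * ∑ m, w m * Ga J i w m j +
        (J *ᵥ w) l * ∑ m, (J *ᵥ w) m * Ga J i w m j) := by
    simp only [Matrix.mul_apply, GG, of_apply, Finset.mul_sum, ← Finset.sum_add_distrib,
      ← Finset.sum_sub_distrib]
    exact Finset.sum_congr rfl fun m _ => by ring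
  have e1 : ∑ m, (1 : Matrix ι ι ℝ) l m * Ga J i w m j = Ga J i w l j := by
    rw [← Matrix.mul_apply, Matrix.one_mul]
  rw [e, e1, contr, contr, s2 hJ, s2 hJ, s3 hJ h2, s3 hJ h2]
  simp only [pd, of_apply, (D.GG J _ _).2, Ga]
  rw [sk hJ l i, sk hJ l j, sk hJ i j, one_sw j l, one_sw i l, one_sw j i]
  ring

lemma chr_GG (hJ : Jᵀ = -J) (h2 : J * J = -1) (hG : ∀ w, IsUnit (GG J w).det) (i : ι) :
    chr (GG J) i = Ga J i := by
  funext w
  rw [chr, ← GG_Ga hJ h2, nonsing_inv_mul_cancel_left _ _ (hG w)]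

lemma Ga_comm (hJ : Jᵀ = -J) (h2 : J * J = -1) (i : ι) (w : ι → ℝ) :
    Ga J i w * J = J * Ga J i w := by
  ext l j
  have e1 : (J * Ga J i w) l j = ∑ m, (fun m => J l m) m * Ga J i w m j := rfl
  have e2 : (Ga J i w * J) l j = -1 * nv w * (w i * ∑ m, (1 : Matrix ι ι ℝ) l m * J m j +
      (J *ᵥ w) i * ∑ m, J l m * J m j + (1 : Matrix ι ι ℝ) l i * ∑ m, w m * J m j +
      J l i * ∑ m, (J *ᵥ w) m * J m j) := by
    simp only [Matrix.mul_apply, Ga, of_apply, Finset.mul_sum, ← Finset.sum_add_distrib]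
    exact Finset.sum_congr rfl fun m _ => by ring
  rw [e1, contr, e2, s2 hJ w, s3 hJ h2]
  simp only [← Matrix.mul_apply, h2, Matrix.one_mul, Matrix.neg_apply]
  ring

lemma chern_GG (hJ : Jᵀ = -J) (h2 : J * J = -1) (hG : ∀ w, IsUnit (GG J w).det) :
    chern (GG J) (fun _ => J) = Ga J := by
  funext i w
  have h0 : pd i (fun _ => J) w = 0 := by
    ext a b
    simp [pd]
  simp only [chern, DJ, cov, chr_GG hJ h2 hG, h0, Ga_comm hJ h2, zero_add, sub_self,
    Matrix.mul_zero, smul_zero, sub_zero]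

lemma D.Ga (J : Matrix ι ι ℝ) (i l j : ι) : D k w (fun y => Ga J i y l j)
    (-(2 * w k * Ein.nv w) * Ein.Ga J i w l j - Ein.nv w *
      ((1 : Matrix ι ι ℝ) i k * (1 : Matrix ι ι ℝ) l j + J i k * J l j +
        (1 : Matrix ι ι ℝ) l i * (1 : Matrix ι ι ℝ) j k + J l i * J j k)) :=
  (((D.const (-1)).mul D.nv).mul (((((D.coord (k := k) (w := w) i).mul
    (D.const ((1 : Matrix ι ι ℝ) l j))).add ((D.mulVec J i).mul (D.const (J l j)))).add
    ((D.const ((1 : Matrix ι ι ℝ) l i)).mul (D.coord j))).add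
    ((D.const (J l i)).mul (D.mulVec J j)))).congr (by
      simp only [Ein.Ga, of_apply]
      ring)

lemma tr_J (hJ : Jᵀ = -J) : ∑ m, J m m = 0 :=
  Finset.sum_eq_zero fun m _ => by linarith [sk hJ m m]

lemma tr_Ga (hJ : Jᵀ = -J) (h2 : J * J = -1) (i : ι) (w : ι → ℝ) :
    trace (J * Ga J i w) = (Fintype.card ι + 2) * nv w * (J *ᵥ w) i := by
  have e1 : ∀ l, (J * Ga J i w) l l = -1 * nv w * (w i * J l l - (J *ᵥ w) i + w l * J l i -
      (J *ᵥ w) l * (1 : Matrix ι ι ℝ) l i) := fun l => by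
    change ∑ m, (fun m => J l m) m * Ga J i w m l = _
    rw [contr]
    simp only [← Matrix.mul_apply, h2, Matrix.neg_apply, Matrix.one_apply_eq]
    ring
  simp only [trace, diag_apply, e1, ← Finset.mul_sum, Finset.sum_add_distrib,
    Finset.sum_sub_distrib, tr_J hJ, s1, s2 hJ, Finset.sum_const, Finset.card_univ, nsmul_eq_mul]
  ring

lemma tr_dGa (hJ : Jᵀ = -J) (h2 : J * J = -1) (k i : ι) (w : ι → ℝ) :
    trace (J * pd k (Ga J i) w) = (Fintype.card ι + 2) *
      (nv w * J i k - 2 * nv w ^ 2 * w k * (J *ᵥ w) i) := by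
  have h1 : D k w (fun y => ∑ a, ∑ b, J a b * Ga J i y b a)
      (∑ a, ∑ b, J a b * pd k (Ga J i) w b a) :=
    D.sum _ fun a => D.sum _ fun b => ((D.const (J a b)).mul
      (⟨(D.Ga (k := k) J i b a).1, rfl⟩ : D k w _ (pd k (Ga J i) w b a))).congr (by ring)
  have h3 : (fun y => ∑ a, ∑ b, J a b * Ga J i y b a) =
      fun y => (Fintype.card ι + 2) * nv y * (J *ᵥ y) i := funext fun y => tr_Ga hJ h2 i y
  rw [h3] at h1
  have h4 := (((D.const ((Fintype.card ι : ℝ) + 2)).mul D.nv).mul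
    (D.mulVec (k := k) (w := w) J i)).2
  rw [h1.2] at h4
  change ∑ a, ∑ b, J a b * pd k (Ga J i) w b a = _
  rw [h4]
  ring

lemma P_GG (hJ : Jᵀ = -J) (h2 : J * J = -1) (w : ι → ℝ) : Pform (fun _ => J) (Ga J) w =
    (2 * (Fintype.card ι + 2) : ℝ) • om (GG J) (fun _ => J) w := by
  ext i j
  have e : trace (J * (Ga J j w * Ga J i w)) = trace (J * (Ga J i w * Ga J j w)) := by
    rw [← Matrix.mul_assoc, trace_mul_comm, ← Matrix.mul_assoc, Ga_comm hJ h2, Matrix.mul_assoc]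
  have e2 : om (GG J) (fun _ => J) w i j = nv w * ∑ m, J m i * (1 : Matrix ι ι ℝ) m j -
      nv w * nv w * ((∑ m, w m * J m i) * w j + (∑ m, (J *ᵥ w) m * J m i) * (J *ᵥ w) j) := by
    simp only [om, Matrix.mul_apply, transpose_apply, GG, of_apply, Finset.mul_sum, Finset.sum_mul,
      ← Finset.sum_add_distrib, ← Finset.sum_sub_distrib]
    exact Finset.sum_congr rfl fun m _ => by ring
  simp only [Pform, curv, of_apply, Matrix.mul_sub, Matrix.mul_add, trace_sub, trace_add, e,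
    tr_dGa hJ h2, Matrix.smul_apply, smul_eq_mul]
  rw [e2, s1 (fun m => J m i), s2 hJ, s3 hJ h2, sk hJ i j]
  ring

end gen

open FS ClassP

variable {ν : Type} [Fintype ν] [DecidableEq ν]

lemma re_hat (u v : ν ⊕ ν → ℝ) : (herm (hat u) (hat v)).re = u ⬝ᵥ v := by
  simp [herm, hat, toC, dotProduct, Fintype.sum_option, Finset.sum_add_distrib]

lemma re_emb (u w : ν ⊕ ν → ℝ) : (herm (hat u) (emb w)).re = u ⬝ᵥ w := by
  simp [herm, hat, emb, toC, dotProduct, Fintype.sum_option, Finset.sum_add_distrib]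

lemma im_emb (u w : ν ⊕ ν → ℝ) : (herm (hat u) (emb w)).im = u ⬝ᵥ Ji ν *ᵥ w := by
  have h := re_emb (Ji ν *ᵥ u) w
  rw [hat_Ji, herm_smul_left, Complex.I_mul_re, dotProduct_comm, dotProduct_mulVec,
    ← mulVec_transpose, Ji_tr, neg_mulVec, neg_dotProduct, neg_inj, dotProduct_comm] at h
  exact h

lemma nsq_emb' (w : ν ⊕ ν → ℝ) : nsq (emb w) = 1 + w ⬝ᵥ w := by
  simp [nsq, emb, toC, dotProduct, Fintype.sum_option, Finset.sum_add_distrib,
    Complex.normSq_apply, add_assoc]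

lemma G0_eq : G0 = GG (Ji ν) := by
  funext w
  ext i j
  rw [entry (G0 w), form_G0, hq, herm_hor (emb_ne w)]
  have := (N_pos w).ne'
  simp only [Complex.sub_re, Complex.div_ofReal_re, Complex.mul_re, Complex.conj_re,
    Complex.conj_im, re_hat, re_emb, im_emb, nsq_emb', single_dotProduct, one_mul, GG, of_apply,
    nv, Pi.single_apply, Matrix.one_apply]
  field_simp
  ring

/-- The Fubini-Study structure is Kaehler-Einstein. -/
theorem P0_eq (w : ν ⊕ ν → ℝ) : P0 w = (4 * (Fintype.card ν + 1) : ℝ) • om0 w := by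
  have hG : ∀ w, IsUnit (GG (Ji ν) w).det := fun w => by rw [← G0_eq]; exact G0_unit w
  rw [P0, om0, G0_eq, chern_GG Ji_tr Ji_sq hG, P_GG Ji_tr Ji_sq, Fintype.card_sum]
  congr 1
  push_cast
  ring

end Ein

end Pool.Agent.P.MP_8fdf05_gt
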