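import Pool.Agent.P.MP_8fdf05_gt.Sm

/-! Integration of smooth functions over a fixed ball, slice by slice. -/

open Set MeasureTheory Metric Filter Topology
open scoped ContDiff

namespace Pool.Agent.P.MP_8fdf05_gt.Energy

open Sm

variable {ι : Type} [Fintype ι] {T : ℝ}

/-- The domain. -/
noncomputable abbrev Dm (ι : Type) [Fintype ι] (T : ℝ) : Dom (ℝ × (ι → ℝ)) :=
  Dom.cyl T univ isOpen_univ

/-- The point (t,z). -/
def pt (t : Ico 0 T) (z : ι → ℝ) : (Dm ι T).S := ⟨(t.1, z), t.2, mem_univ z⟩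

/-- The ball of radius three. -/
def KK (ι : Type) [Fintype ι] : Set (ι → ℝ) := closedBall 0 3

lemma KK_compact : IsCompact (KK ι) := isCompact_closedBall _ _

lemma KK_meas : MeasurableSet (KK ι) := measurableSet_closedBall

lemma fn_pt (f : Sm (Dm ι T)) (t : Ico 0 T) (z : ι → ℝ) : f.fn (t.1, z) = ev (pt t z) f :=
  (ev_eq f (pt t z)).symm

lemma cont_pt (f : Sm (Dm ι T)) :
    Continuous fun p : Ico 0 T × (ι → ℝ) => ev (pt p.1 p.2) f := by
  refine f.continuous_ev.comp (f := fun p : Ico 0 T × (ι → ℝ) => pt p.1 p.2) ?_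
  exact Continuous.subtype_mk (by fun_prop) _

lemma cont_slice (f : Sm (Dm ι T)) (t : Ico 0 T) : Continuous fun z => ev (pt t z) f :=
  (cont_pt f).comp (f := fun z => (t, z)) (by fun_prop)

lemma int_slice (f : Sm (Dm ι T)) (t : Ico 0 T) :
    IntegrableOn (fun z => ev (pt t z) f) (KK ι) :=
  (cont_slice f t).continuousOn.integrableOn_compact KK_compact

/-- The integral over the ball at time t. -/
noncomputable def IL (t : Ico 0 T) : Sm (Dm ι T) →ₗ[ℝ] ℝ where
  toFun f := ∫ z in KK ι, ev (pt t z) f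
  map_add' f g := by
    simp only [map_add]
    exact integral_add (int_slice f t) (int_slice g t)
  map_smul' c f := by
    simp only [map_smul, smul_eq_mul, RingHom.id_apply]
    exact integral_const_mul _ _

lemma IL_apply (t : Ico 0 T) (f : Sm (Dm ι T)) : IL t f = ∫ z in KK ι, ev (pt t z) f := rfl

lemma IL_mono (t : Ico 0 T) {f g : Sm (Dm ι T)}
    (h : ∀ z ∈ KK ι, ev (pt t z) f ≤ ev (pt t z) g) : IL t f ≤ IL t g :=
  setIntegral_mono_on (int_slice f t) (int_slice g t) KK_meas h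

lemma IL_nonneg (t : Ico 0 T) {f : Sm (Dm ι T)} (h : ∀ x, 0 ≤ ev x f) : 0 ≤ IL t f := by
  have := IL_mono t (f := 0) (g := f) (fun z _ => by simpa using h _)
  simpa using this

lemma cont_IL (f : Sm (Dm ι T)) : Continuous fun t : Ico 0 T => IL t f :=
  haveI : LocallyCompactSpace (Ico 0 T) :=
    IsLocallyClosed.locallyCompactSpace (s := Ici 0 ∩ Iio T)
      (isClosed_Ici.isLocallyClosed.inter isOpen_Iio.isLocallyClosed)
  continuous_parametric_integral_of_continuous (f := fun (t : Ico 0 T) z => ev (pt t z) f)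
    (cont_pt f) KK_compact

lemma bdd (f : Sm (Dm ι T)) {T' : ℝ} (hT : T' < T) :
    ∃ A, 0 < A ∧ ∀ t : Ico 0 T, t.1 ≤ T' → ∀ z ∈ KK ι, |ev (pt t z) f| ≤ A := by
  have hc : IsCompact (Icc 0 T' ×ˢ KK ι) := isCompact_Icc.prod KK_compact
  have hs : Icc 0 T' ×ˢ KK ι ⊆ (Dm ι T).S := fun x hx =>
    ⟨⟨hx.1.1, hx.1.2.trans_lt hT⟩, mem_univ _⟩
  obtain ⟨A, hA⟩ := hc.exists_bound_of_continuousOn (f.continuousOn.mono hs)
  refine ⟨max A 1, by positivity, fun t ht z hz => ?_⟩
  rw [← fn_pt]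
  exact (hA (t.1, z) ⟨⟨t.2.1, ht⟩, hz⟩).trans (le_max_left _ _)

/-- The integral as a function of real time. -/
noncomputable def II (f : Sm (Dm ι T)) (s : ℝ) : ℝ := ∫ z in KK ι, f.fn (s, z)

lemma II_eq (f : Sm (Dm ι T)) (t : Ico 0 T) : II f t.1 = IL t f := by
  simp only [II, IL_apply, fn_pt]

lemma contOn_II (f : Sm (Dm ι T)) : ContinuousOn (II f) (Ico 0 T) := by
  rw [continuousOn_iff_continuous_domRestrict]
  refine (cont_IL f).congr fun t => ?_
  exact (II_eq f t).symm

lemma hasDeriv_II (f : Sm (Dm ι T)) (t : Ico 0 T) (ht : 0 < t.1) :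
    HasDerivAt (II f) (IL t (der (1, 0) f)) t.1 := by
  obtain ⟨T', h1, h2⟩ := exists_between t.2.2
  obtain ⟨A, -, hA⟩ := bdd (der ((1 : ℝ), (0 : ι → ℝ)) f) h2
  have hs : Ioo 0 T' ∈ 𝓝 t.1 := Ioo_mem_nhds ht h1
  have hmem : ∀ s ∈ Ioo 0 T', s ∈ Ico 0 T := fun s h => ⟨h.1.le, h.2.trans h2⟩
  have key := hasDerivAt_integral_of_dominated_loc_of_deriv_le
    (μ := (volume : Measure (ι → ℝ)).restrict (KK ι)) (F := fun s z => f.fn (s, z))
    (F' := fun s z => (der ((1 : ℝ), (0 : ι → ℝ)) f).fn (s, z)) (bound := fun _ => A) hs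
    ?_ ?_ ?_ ?_ ?_ ?_
  · rw [← II_eq]
    exact key.2
  · filter_upwards [hs] with s h
    have := cont_slice f ⟨s, hmem s h⟩
    simp only [← fn_pt] at this
    exact this.aestronglyMeasurable
  · have := int_slice f t
    simp only [← fn_pt] at this
    exact this
  · have := cont_slice (der ((1 : ℝ), (0 : ι → ℝ)) f) t
    simp only [← fn_pt] at this
    exact this.aestronglyMeasurable
  · filter_upwards [ae_restrict_mem KK_meas] with z hz s h
    have := hA ⟨s, hmem s h⟩ h.2.le z hz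
    rw [← fn_pt] at this
    exact this
  · exact (continuous_const.continuousOn.integrableOn_compact KK_compact)
  · refine Eventually.of_forall fun z s h => ?_
    have := f.hasDerivAt_time (pt ⟨s, hmem s h⟩ z) h.1
    rw [← fn_pt] at this
    exact this

/-- The cut-off function on the model space. -/
noncomputable def bump (ι : Type) [Fintype ι] : ContDiffBump (0 : ι → ℝ) :=
  ⟨2, 3, by norm_num, by norm_num⟩

/-- The cut-off function. -/
noncomputable def chi : Sm (Dm ι T) :=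
  mk (fun x => bump ι x.2) (((bump ι).contDiff.comp contDiff_snd).contDiffOn)

lemma ev_chi (x : (Dm ι T).S) : ev x chi = bump ι x.1.2 := rfl

lemma dt_chi : der ((1 : ℝ), (0 : ι → ℝ)) (chi : Sm (Dm ι T)) = 0 := by
  ext x
  have h1 : HasFDerivAt (bump ι) (fderiv ℝ (bump ι) x.1.2) x.1.2 :=
    (((bump ι).contDiff (n := 1)).differentiable (by simp) _).hasFDerivAt
  have h2 := (h1.comp x.1 hasFDerivAt_snd).hasFDerivWithinAt (s := (Dm ι T).S)
  rw [ev_der_of _ _ x h2 (fun y => rfl)]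
  simp

lemma chi_one (t : Ico 0 T) {z : ι → ℝ} (hz : ‖z‖ ≤ 2) : ev (pt t z) chi = 1 :=
  (bump ι).one_of_mem_closedBall (by simpa [bump, pt] using hz)

lemma IL_div (t : Ico 0 T) (v : ι → ℝ) (h : Sm (Dm ι T)) :
    IL t (der ((0 : ℝ), v) (chi * h)) = 0 := by
  set g : (ι → ℝ) → ℝ := fun z => ev (pt t z) (chi * h) with hg
  set g' : (ι → ℝ) → ℝ := fun z => ev (pt t z) (der ((0 : ℝ), v) (chi * h)) with hg'
  have hd : ∀ z, ∃ L : (ι → ℝ) →L[ℝ] ℝ, HasFDerivAt g L z ∧ L v = g' z := by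
    intro z
    obtain ⟨L, hL, hv⟩ := (chi * h).hasFDerivAt_space (pt t z)
    refine ⟨L, ?_, hv v⟩
    have : g = fun y => (chi * h).fn (t.1, y) := by
      ext y; rw [fn_pt]
    rw [this]
    exact hL
  have h0 : ∀ z, z ∉ KK ι → g z = 0 := by
    intro z hz
    have : bump ι z = 0 := (bump ι).zero_of_le_dist (by
      simp only [KK, mem_closedBall, not_le] at hz
      exact hz.le)
    simp only [hg, map_mul, ev_chi]
    change bump ι z * _ = 0
    rw [this, zero_mul]
  have h0' : ∀ z, z ∉ KK ι → g' z = 0 := by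
    intro z hz
    obtain ⟨L, hL, hv⟩ := hd z
    have he : g =ᶠ[𝓝 z] fun _ => 0 := by
      filter_upwards [KK_compact.isClosed.isOpen_compl.mem_nhds hz] with y hy
      exact h0 y hy
    have := (hL.congr_of_eventuallyEq he.symm).unique (hasFDerivAt_const 0 z)
    rw [← hv, this]
    simp
  have i1 : Integrable g := (int_slice (chi * h) t).integrable_of_forall_notMem_eq_zero h0
  have i2 : Integrable g' := (int_slice _ t).integrable_of_forall_notMem_eq_zero h0'
  have key := integral_bilinear_hasLineDerivAt_right_eq_neg_left_of_integrable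
    (μ := (volume : Measure (ι → ℝ))) (f := fun _ => (1 : ℝ)) (f' := fun _ => (0 : ℝ)) (g := g)
    (g' := g') (v := v) (B := ContinuousLinearMap.mul ℝ ℝ) (by simp) (by simpa using i2)
    (by simpa using i1) (fun x _ => ((hasFDerivAt_const (1 : ℝ) x).hasLineDerivAt v))
    (fun x _ => by
      obtain ⟨L, hL, hv⟩ := hd x
      rw [← hv]
      exact hL.hasLineDerivAt v)
  rw [IL_apply, setIntegral_eq_integral_of_forall_compl_eq_zero h0']
  simpa using key

lemma zero_of_IL (t : Ico 0 T) {f : Sm (Dm ι T)} (h : ∀ x, 0 ≤ ev x f) (h0 : IL t f = 0)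
    {z : ι → ℝ} (hz : ‖z‖ < 3) : ev (pt t z) f = 0 := by
  rw [IL_apply, setIntegral_eq_zero_iff_of_nonneg_ae (Eventually.of_forall fun z => h _)
    (int_slice f t)] at h0
  have h1 : (fun z => ev (pt t z) f) =ᵐ[volume.restrict (ball (0 : ι → ℝ) 3)] fun _ => 0 :=
    ae_restrict_of_ae_restrict_of_subset ball_subset_closedBall h0
  exact Measure.eqOn_open_of_ae_eq h1 isOpen_ball (cont_slice f t).continuousOn
    continuousOn_const (by simpa using hz)

/-- Gronwall in the only form needed. -/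
lemma gronwall {E : ℝ → ℝ} {E' : ℝ → ℝ} {T' C : ℝ} (hT : 0 ≤ T') (hc : ContinuousOn E (Icc 0 T'))
    (hd : ∀ s ∈ Ioo 0 T', HasDerivAt E (E' s) s) (hb : ∀ s ∈ Ioo 0 T', E' s ≤ C * E s)
    (h0 : E 0 = 0) : E T' ≤ 0 := by
  have hd' : ∀ s ∈ Ioo 0 T', HasDerivAt (fun s => Real.exp (-C * s) * E s)
      (Real.exp (-C * s) * (-C * 1) * E s + Real.exp (-C * s) * E' s) s := fun s hs =>
    (((hasDerivAt_id s).const_mul (-C)).exp).mul (hd s hs)
  have anti : AntitoneOn (fun s => Real.exp (-C * s) * E s) (Icc 0 T') := by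
    refine antitoneOn_of_deriv_nonpos (convex_Icc _ _) (ContinuousOn.mul (by fun_prop) hc) ?_ ?_
    · rw [interior_Icc]
      exact fun s hs => (hd' s hs).differentiableAt.differentiableWithinAt
    · rw [interior_Icc]
      intro s hs
      rw [(hd' s hs).deriv]
      have := hb s hs
      have he := Real.exp_pos (-C * s)
      nlinarith
  have := anti ⟨le_rfl, hT⟩ ⟨hT, le_rfl⟩ hT
  simp only [h0, mul_zero] at this
  have he := Real.exp_pos (-C * T')
  nlinarith

end Pool.Agent.P.MP_8fdf05_gt.Energy
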