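import Pool.Agent.P.MP_8fdf05_gt.Geo

/-! The flow modulo lower order terms. -/

open Matrix Finset

set_option synthInstance.maxSize 100000

namespace Pool.Agent.P.MP_8fdf05_gt

noncomputable section

variable {ι : Type} [Fintype ι] [DecidableEq ι] {A : Type} [CommRing A] [Algebra ℝ A]

/-- Membership in a subalgebra, found by instance search. -/
class Mem (F : Subalgebra ℝ A) (x : A) : Prop where
  mem : x ∈ F

/-- All entries lie in a subalgebra. -/
class MMem (F : Subalgebra ℝ A) (M : Matrix ι ι A) : Prop where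
  mem : ∀ i j, M i j ∈ F

/-- Entries of a matrix. -/
def ent (M : Matrix ι ι A) (i j : ι) : A := M i j

section inst
variable (F : Subalgebra ℝ A) (x y : A) (M N : Matrix ι ι A)

instance (priority := 100) Mem.entry [MMem F M] (i j : ι) : Mem F (M i j) := ⟨MMem.mem i j⟩
instance Mem.ent [h : MMem F M] (i j : ι) : Mem F (ent M i j) := ⟨h.mem i j⟩
instance Mem.add [Mem F x] [Mem F y] : Mem F (x + y) := ⟨F.add_mem Mem.mem Mem.mem⟩
instance Mem.sub [Mem F x] [Mem F y] : Mem F (x - y) := ⟨F.sub_mem Mem.mem Mem.mem⟩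
instance Mem.mul [Mem F x] [Mem F y] : Mem F (x * y) := ⟨F.mul_mem Mem.mem Mem.mem⟩
instance Mem.neg [Mem F x] : Mem F (-x) := ⟨F.neg_mem Mem.mem⟩
instance Mem.smul (c : ℝ) [Mem F x] : Mem F (c • x) := ⟨F.smul_mem Mem.mem c⟩
instance Mem.sum (f : ι → A) [∀ i, Mem F (f i)] : Mem F (∑ i, f i) :=
  ⟨F.sum_mem fun _ _ => Mem.mem⟩
instance Mem.trace [MMem F M] : Mem F (trace M) := ⟨F.sum_mem fun _ _ => MMem.mem _ _⟩
instance MMem.add [MMem F M] [MMem F N] : MMem F (M + N) :=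
  ⟨fun i j => F.add_mem (MMem.mem i j) (MMem.mem i j)⟩
instance MMem.sub [MMem F M] [MMem F N] : MMem F (M - N) :=
  ⟨fun i j => F.sub_mem (MMem.mem i j) (MMem.mem i j)⟩
instance MMem.neg [MMem F M] : MMem F (-M) := ⟨fun i j => F.neg_mem (MMem.mem i j)⟩
instance MMem.mul [MMem F M] [MMem F N] : MMem F (M * N) :=
  ⟨fun _ _ => F.sum_mem fun _ _ => F.mul_mem (MMem.mem _ _) (MMem.mem _ _)⟩
instance MMem.transpose [MMem F M] : MMem F Mᵀ := ⟨fun i j => MMem.mem j i⟩
instance MMem.smul [Mem F x] [MMem F M] : MMem F (x • M) :=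
  ⟨fun i j => F.mul_mem Mem.mem (MMem.mem i j)⟩
instance MMem.rsmul (c : ℝ) [MMem F M] : MMem F (c • M) :=
  ⟨fun i j => F.smul_mem (MMem.mem i j) c⟩
instance MMem.sum (f : ι → Matrix ι ι A) [∀ i, MMem F (f i)] : MMem F (∑ i, f i) :=
  ⟨fun i j => by rw [Matrix.sum_apply]; exact F.sum_mem fun _ _ => MMem.mem i j⟩
instance MMem.of (f : ι → ι → A) [h : ∀ i j, Mem F (f i j)] : MMem F (Matrix.of f) :=
  ⟨fun i j => (h i j).mem⟩

end inst

/-- One more derivative. -/
def up (d : ι → Derivation ℝ A A) (F : Subalgebra ℝ A) : Subalgebra ℝ A :=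
  Algebra.adjoin ℝ ((F : Set A) ∪ ⋃ i, d i '' F)

section up
variable (d : ι → Derivation ℝ A A) (F : Subalgebra ℝ A)

omit [Fintype ι] [DecidableEq ι] in
lemma le_up : F ≤ up d F := fun _ h => Algebra.subset_adjoin (Or.inl h)

instance (priority := 50) Mem.up (x : A) [Mem F x] : Mem (up d F) x := ⟨le_up d F Mem.mem⟩
instance (priority := 50) MMem.up (M : Matrix ι ι A) [MMem F M] : MMem (up d F) M :=
  ⟨fun i j => le_up d F (MMem.mem i j)⟩
instance Mem.der (x : A) (i : ι) [Mem F x] : Mem (MP_8fdf05_gt.up d F) (d i x) :=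
  ⟨Algebra.subset_adjoin (Or.inr (Set.mem_iUnion.2 ⟨i, x, Mem.mem, rfl⟩))⟩
instance MMem.md (M : Matrix ι ι A) (i : ι) [MMem F M] :
    MMem (MP_8fdf05_gt.up d F) (md (d i) M) :=
  ⟨fun a b => (Mem.der d F (M a b) i).mem⟩

end up

namespace Geo

variable (m : Geo ι A)

/-- Jets of order zero. -/
def F0 : Subalgebra ℝ A :=
  Algebra.adjoin ℝ ((Set.range fun s : ι × ι => m.g s.1 s.2) ∪
    (Set.range fun s : ι × ι => m.gi s.1 s.2) ∪ Set.range fun s : ι × ι => m.J s.1 s.2)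

/-- Jets of order one. -/
abbrev F1 : Subalgebra ℝ A := up m.d m.F0

/-- Jets of order two. -/
abbrev F2 : Subalgebra ℝ A := up m.d m.F1

instance : MMem m.F0 m.g := ⟨fun i j => Algebra.subset_adjoin (Or.inl (Or.inl ⟨(i, j), rfl⟩))⟩
instance : MMem m.F0 m.gi := ⟨fun i j => Algebra.subset_adjoin (Or.inl (Or.inr ⟨(i, j), rfl⟩))⟩
instance : MMem m.F0 m.J := ⟨fun i j => Algebra.subset_adjoin (Or.inr ⟨(i, j), rfl⟩)⟩
lemma e_g (i j : ι) : m.g i j = ent m.g i j := rfl
lemma e_gi (i j : ι) : m.gi i j = ent m.gi i j := rfl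
lemma e_cov (H : Matrix ι ι A) (i j k : ι) : m.covL i H j k = ent (m.covL i H) j k := rfl
instance (i : ι) : MMem m.F1 (m.Γ i) := by simp only [Met.Γ, e_g]; infer_instance
instance (i : ι) : MMem m.F1 (m.S i) := by unfold S Met.cov acov; infer_instance
instance : MMem m.F1 m.Sig := by simp only [Sig, e_gi]; infer_instance
instance : MMem m.F1 m.tau := by unfold tau; infer_instance
instance : MMem m.F1 m.Q := by unfold Q; infer_instance
instance : MMem m.F1 m.NN := by simp only [NN, e_gi]; infer_instance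
instance (i j : ι) : MMem m.F2 (m.R i j) := by unfold Met.R acurv; infer_instance
instance : MMem m.F2 m.Ric := by unfold Met.Ric; infer_instance
instance : MMem m.F2 m.Rc := by unfold Met.Rc; infer_instance
instance (i j : ι) : MMem m.F2 (m.DS i j) := by unfold DS Met.cov2 Met.cov acov; infer_instance
instance : MMem m.F2 m.Jrhs := by simp only [Jrhs, Lap, e_gi]; infer_instance

/-- The coordinate Laplacian. -/
def Δ (X : Matrix ι ι A) : Matrix ι ι A := ∑ p, ∑ q, m.gi p q • md (m.d p) (md (m.d q) X)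

/-- The gauge vector field. -/
def W (k : ι) : A := ∑ p, ∑ q, m.gi p q * m.Γ p k q

/-- Its derivative. -/
def dW : Matrix ι ι A := Matrix.of fun k j => m.d j (m.W k)

/-- An auxiliary matrix. -/
def Xm : Matrix ι ι A := ∑ p, ∑ q, m.gi p q • md (m.d p) (m.Γ q)

instance (k : ι) : Mem m.F1 (m.W k) := by simp only [W, e_gi]; infer_instance

lemma dW_eq : MMem m.F1 (m.dW - m.Xm - m.Rc) := by
  have h : m.dW - m.Xm - m.Rc = Matrix.of fun k j => ∑ p, ∑ q, (m.d j (m.gi p q) * m.Γ p k q +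
      m.gi p q * (m.Γ p * m.Γ j - m.Γ j * m.Γ p) k q) := by
    ext k j
    have := m.contr_R k j
    rw [← neg_eq_iff_eq_neg] at this
    simp only [Matrix.sub_apply, ← this, dW, Xm, W, of_apply, map_sum, Derivation.leibniz,
      Matrix.sum_apply, Matrix.smul_apply, smul_eq_mul, md_apply, Met.R, acurv, Matrix.add_apply,
      sub_neg_eq_add, ← sum_add_distrib, ← sum_sub_distrib]
    refine sum_congr rfl fun p _ => sum_congr rfl fun q _ => ?_
    rw [m.Γ_sw q k j]; ring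
  rw [h]; simp only [e_gi]; infer_instance

omit [Fintype ι] [DecidableEq ι] in
lemma _root_.Pool.Agent.P.MP_8fdf05_gt.MMem.congr {F : Subalgebra ℝ A} {M N : Matrix ι ι A} (h : M = N) (hN : MMem F N) :
    MMem F M := h ▸ hN

variable {m} {D : Derivation ℝ A A}

lemma Flow.D1 (h : m.Flow D) : MMem m.F1 (md D m.g - (m.Δ m.g - m.g * m.dW - (m.g * m.dW)ᵀ)) := by
  have e : m.Δ m.g = m.g * m.Xm + (m.g * m.Xm)ᵀ + ∑ p, ∑ q, m.gi p q •
      (md (m.d p) m.g * m.Γ q + (m.Γ q)ᵀ * md (m.d p) m.g) := by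
    simp only [Δ, Xm, transpose_mul, m.symm, transpose_sum, transpose_smul, Matrix.mul_sum,
      Matrix.mul_smul, ← sum_add_distrib, ← smul_add]
    refine sum_congr rfl fun p _ => sum_congr rfl fun q _ => ?_
    rw [m.dg q, md_add, md_mul, md_mul, md_transpose]; congr 1; abel
  have := m.dW_eq
  refine MMem.congr (N := m.Q + m.g * (m.dW - m.Xm - m.Rc) + (m.g * (m.dW - m.Xm - m.Rc))ᵀ -
    ∑ p, ∑ q, m.gi p q • (md (m.d p) m.g * m.Γ q + (m.Γ q)ᵀ * md (m.d p) m.g)) ?_ (by simp only [e_gi]; infer_instance)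
  rw [h.g, e, Matrix.mul_sub, Matrix.mul_sub, transpose_sub, transpose_sub, m.g_Rc, m.Ric_symm]
  abel

lemma Flow.D2 (h : m.Flow D) : MMem m.F1 (md D m.J - (m.Δ m.J + (m.dW * m.J - m.J * m.dW))) := by
  have e : m.Lap = m.Δ m.J + (m.Xm * m.J - m.J * m.Xm) + ∑ p, ∑ q, m.gi p q •
      (m.Γ q * md (m.d p) m.J - md (m.d p) m.J * m.Γ q + m.Γ p * m.S q - m.S q * m.Γ p -
        ∑ k, m.Γ p k q • m.S k) := by
    simp only [Lap, Δ, Xm, Matrix.mul_sum, Matrix.sum_mul, Matrix.mul_smul, Matrix.smul_mul,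
      ← sum_add_distrib, ← sum_sub_distrib, ← smul_add, ← smul_sub]
    refine sum_congr rfl fun p _ => sum_congr rfl fun q _ => ?_
    have : md (m.d p) (m.S q) = md (m.d p) (md (m.d q) m.J + m.Γ q * m.J - m.J * m.Γ q) := rfl
    rw [DS, Met.cov2, Met.cov, acov, this, md_sub, md_add, md_mul, md_mul]; congr 1; abel
  have := m.dW_eq
  refine MMem.congr (N := m.NN - ((m.dW - m.Xm - m.Rc) * m.J - m.J * (m.dW - m.Xm - m.Rc)) +
    ∑ p, ∑ q, m.gi p q •
      (m.Γ q * md (m.d p) m.J - md (m.d p) m.J * m.Γ q + m.Γ p * m.S q - m.S q * m.Γ p -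
        ∑ k, m.Γ p k q • m.S k)) ?_ (by simp only [e_gi]; infer_instance)
  rw [h.J, Jrhs, e]
  noncomm_ring

/-- The variation of the Christoffel symbols caused by a symmetric tensor. -/
def _root_.Pool.Agent.P.MP_8fdf05_gt.Met.kos (m : Met ι A) (H : Matrix ι ι A) (i : ι) :
    Matrix ι ι A :=
  m.gi * Matrix.of fun l j => (1 / 2 : ℝ) • (m.covL i H l j + m.covL j H l i - m.covL l H i j)

lemma Flow.dΓ (h : m.Flow D) (i : ι) : md D (m.Γ i) = m.kos m.Q i -
    m.gi * Matrix.of fun l j => m.covL i m.Ric l j + m.covL j m.Ric l i - m.covL l m.Ric i j := by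
  refine m.g_cancel ?_
  ext l j
  rw [m.g_dΓ D h.comm, Met.kos, Matrix.mul_sub, m.g_gi_mul, m.g_gi_mul, h.g]
  simp only [sub_eq_add_neg, m.covL_add, m.covL_neg, Matrix.add_apply, Matrix.neg_apply, of_apply]
  module

lemma Flow.dΓ' (h : m.Flow D) (i : ι) : md D (m.Γ i) = m.kos m.Q i - m.cov i m.Rc -
    ∑ p, ∑ q, m.gi p q • m.DR p i q := by
  rw [h.dΓ, sub_sub]
  congr 1
  refine m.g_cancel ?_
  ext l j
  rw [m.g_gi_mul, Matrix.mul_add, ← m.covL_g, m.g_Rc, Matrix.add_apply, of_apply, add_sub_assoc]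
  congr 1
  have s : m.covL j m.Ric l i = m.covL j m.Ric i l := by
    rw [← transpose_apply (m.covL j m.Ric), m.covL_transpose, m.Ric_symm]
  rw [s, ← m.bianchi_c1]
  simp only [Matrix.mul_sum, Matrix.mul_smul, Matrix.sum_apply, Matrix.smul_apply, smul_eq_mul,
    Met.DRm]

instance (i : ι) : MMem m.F2 (m.covL i m.Q) := by unfold Met.covL; infer_instance
instance (i : ι) : MMem m.F2 (m.kos m.Q i) := by simp only [Met.kos, e_cov]; infer_instance

lemma Flow.D3 (h : m.Flow D) (i : ι) : MMem m.F2 (md D (m.S i) - m.Δ (m.S i)) := by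
  have e0 : md D (m.S i) = m.cov i m.Jrhs + (md D (m.Γ i) * m.J - m.J * md D (m.Γ i)) := by
    have : md D (md (m.d i) m.J) = md (m.d i) (md D m.J) := by ext; simp [h.comm]
    rw [S, Met.cov, acov, md_sub, md_add, md_mul, md_mul, this, h.J, Met.cov, acov]; abel
  -- third order parts
  have a1 : ∀ p q, MMem m.F2 (md (m.d i) (m.DS p q) - md (m.d p) (md (m.d q) (m.S i)) -
      (md (m.d p) (m.R i q) * m.J - m.J * md (m.d p) (m.R i q))) := by
    intro p q
    have r : md (m.d i) (m.S q) = md (m.d q) (m.S i) + (m.R i q * m.J - m.J * m.R i q) +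
        (m.Γ q * m.S i - m.S i * m.Γ q - (m.Γ i * m.S q - m.S q * m.Γ i)) := by
      rw [← acov_acov m.d m.Γ m.comm]
      change _ = _ + (acov m.d m.Γ i (m.S q) - acov m.d m.Γ q (m.S i)) + _
      simp only [acov]; abel
    refine MMem.congr (N := md (m.d i) (m.Γ p * m.S q - m.S q * m.Γ p - ∑ k, m.Γ p k q • m.S k) +
      md (m.d p) (m.Γ q * m.S i - m.S i * m.Γ q - (m.Γ i * m.S q - m.S q * m.Γ i)) +
      (m.R i q * md (m.d p) m.J - md (m.d p) m.J * m.R i q)) ?_ inferInstance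
    rw [DS, Met.cov2, Met.cov, acov, md_sub, md_sub, md_add, md_comm m.d m.comm i p, r, md_add,
      md_add, md_sub (m.d p) (m.R i q * m.J), md_mul _ (m.R i q), md_mul _ m.J (m.R i q),
      md_sub (m.d i), md_sub (m.d i)]
    abel
  have a2 : ∀ p q, MMem m.F2 (m.DR p i q - md (m.d p) (m.R i q)) := by
    intro p q
    refine MMem.congr (N := m.Γ p * m.R i q - m.R i q * m.Γ p - ∑ a, m.Γ p a i • m.R a q -
      ∑ a, m.Γ p a q • m.R i a) ?_ inferInstance
    rw [Met.DR, Met.cov, acov]; abel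
  refine MMem.congr (N := (m.Γ i * m.Jrhs - m.Jrhs * m.Γ i) + md (m.d i) m.NN +
    (m.kos m.Q i * m.J - m.J * m.kos m.Q i) +
    (m.Rc * md (m.d i) m.J - md (m.d i) m.J * m.Rc) -
    ((m.Γ i * m.Rc - m.Rc * m.Γ i) * m.J - m.J * (m.Γ i * m.Rc - m.Rc * m.Γ i)) +
    ∑ p, ∑ q, (m.d i (m.gi p q) • m.DS p q + m.gi p q •
      ((md (m.d i) (m.DS p q) - md (m.d p) (md (m.d q) (m.S i)) -
        (md (m.d p) (m.R i q) * m.J - m.J * md (m.d p) (m.R i q))) -
      ((m.DR p i q - md (m.d p) (m.R i q)) * m.J - m.J * (m.DR p i q - md (m.d p) (m.R i q))))))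
    ?_ (by simp only [e_gi]; infer_instance)
  have e1 : md (m.d i) m.Jrhs = md (m.d i) m.Lap + md (m.d i) m.NN +
      (md (m.d i) m.Rc * m.J + m.Rc * md (m.d i) m.J -
        (md (m.d i) m.J * m.Rc + m.J * md (m.d i) m.Rc)) := by
    rw [Jrhs, md_add, md_add, md_sub, md_mul, md_mul]
  have e2 : ∑ p, ∑ q, (m.d i (m.gi p q) • m.DS p q + m.gi p q •
      ((md (m.d i) (m.DS p q) - md (m.d p) (md (m.d q) (m.S i)) -
        (md (m.d p) (m.R i q) * m.J - m.J * md (m.d p) (m.R i q))) -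
      ((m.DR p i q - md (m.d p) (m.R i q)) * m.J - m.J * (m.DR p i q - md (m.d p) (m.R i q))))) =
      md (m.d i) m.Lap - m.Δ (m.S i) - ((∑ p, ∑ q, m.gi p q • m.DR p i q) * m.J -
        m.J * ∑ p, ∑ q, m.gi p q • m.DR p i q) := by
    simp only [Lap, Δ, md_sum, md_smul, Matrix.mul_sum, Matrix.sum_mul, Matrix.mul_smul,
      Matrix.smul_mul, ← sum_sub_distrib]
    refine sum_congr rfl fun p _ => sum_congr rfl fun q _ => ?_
    simp only [Matrix.mul_sub, Matrix.sub_mul, smul_sub]; abel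
  rw [e2, e0, h.dΓ', Met.cov, Met.cov, acov, acov, e1]
  noncomm_ring

variable (m) in
/-- Jets of order one together with the derivatives of DJ. -/
def FS : Subalgebra ℝ A :=
  Algebra.adjoin ℝ ((m.F1 : Set A) ∪ Set.range fun s : ι × ι × ι × ι =>
    m.d s.1 (m.S s.2.1 s.2.2.1 s.2.2.2))

instance (priority := 50) (M : Matrix ι ι A) [MMem m.F1 M] : MMem m.FS M :=
  ⟨fun i j => Algebra.subset_adjoin (Or.inl (MMem.mem i j))⟩
instance (priority := 50) (x : A) [Mem m.F1 x] : Mem m.FS x :=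
  ⟨Algebra.subset_adjoin (Or.inl Mem.mem)⟩
instance (i j : ι) : MMem m.FS (md (m.d i) (m.S j)) :=
  ⟨fun a b => Algebra.subset_adjoin (Or.inr ⟨(i, j, a, b), rfl⟩)⟩

instance (i : ι) : MMem m.FS (md (m.d i) m.Q) := by
  have : md (m.d i) m.tau = Matrix.of fun a b => trace (md (m.d i) (m.J * m.S a * m.S b)) := by
    ext; simp [tau, trace_md]
  simp only [Q, Sig, md_add, md_mul, md_rsmul, md_sum, md_smul, this, e_gi]
  infer_instance

lemma Flow.D4 (h : m.Flow D) (k : ι) : Mem m.FS (∑ p, ∑ q, m.gi p q * D (m.Γ p k q)) := by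
  have e : ∑ p, ∑ q, m.gi p q * D (m.Γ p k q) = ∑ p, ∑ q, m.gi p q * m.kos m.Q p k q := by
    have : ∀ p q, D (m.Γ p k q) = md D (m.Γ p) k q := fun _ _ => rfl
    simp only [this, h.dΓ, Matrix.sub_apply, mul_sub, sum_sub_distrib, sub_eq_self]
    simp only [Matrix.mul_apply, of_apply, mul_sum]
    have : ∑ p, ∑ q, ∑ l, m.gi p q * (m.gi k l *
        (m.covL p m.Ric l q + m.covL q m.Ric l p - m.covL l m.Ric p q)) =
        ∑ l, m.gi k l * ∑ p, ∑ q, m.gi p q *
          (m.covL p m.Ric l q + m.covL q m.Ric l p - m.covL l m.Ric p q) := by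
      simp only [mul_sum]
      refine (sum_congr rfl fun k _ => sum_comm).trans ?_
      rw [sum_comm]
      exact sum_congr rfl fun a _ => sum_congr rfl fun l _ => sum_congr rfl fun k _ => by ring
    rw [this]
    simp only [m.bianchi_c2, mul_zero, sum_const_zero]
  have : ∀ i, MMem m.FS (m.covL i m.Q) := fun i => by unfold Met.covL; infer_instance
  rw [e]; simp only [Met.kos, e_cov, e_gi]; infer_instance

end Geo

end

end Pool.Agent.P.MP_8fdf05_gt
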