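import Pool.Agent.P.MP_8fdf05_gt.Main

/-! The right hand sides of the flow are tangent to the space of almost Kaehler structures. -/

open Matrix Set Finset
open scoped ContDiff

namespace Pool.Agent.P.MP_8fdf05_gt

namespace Geo

variable {ι : Type} [Fintype ι] [DecidableEq ι] {A : Type} [CommRing A] [Algebra ℝ A] (m : Geo ι A)

lemma J_Jrhs : m.J * m.Jrhs + m.Jrhs * m.J = 0 := by
  have h1 : m.J * m.NN = m.Sig := by rw [NN_eq, Matrix.mul_neg, JJ_mul, neg_neg]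
  have h2 : m.NN * m.J = m.Sig := by
    rw [NN_eq, Matrix.neg_mul, Matrix.mul_assoc, ← J_Sig, JJ_mul, neg_neg]
  have h3 : m.Lap * m.J = -(m.Sig + m.Sig) - m.J * m.Lap := by rw [← J_Lap]; abel
  simp only [Jrhs, Matrix.mul_add, Matrix.add_mul, Matrix.mul_sub, Matrix.sub_mul, h1, h2, h3,
    JJ_mul, Matrix.mul_assoc, m.JJ, Matrix.mul_neg, Matrix.mul_one]
  abel

lemma vel_g : -m.Pf * m.J + m.om * m.Jrhs = m.Q - (m.Ric + m.Ric) := by
  have w : m.rho = m.g * m.Lap - m.Ric * m.J + m.Jᵀ * m.Ric := by rw [weitz]; abel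
  have h2 : m.g * m.J * m.Lap = -(m.g * m.Sig + m.g * m.Sig) - m.g * m.Lap * m.J := by
    rw [eq_sub_iff_add_eq, Matrix.mul_assoc, Matrix.mul_assoc, ← Matrix.mul_add, J_Lap,
      Matrix.mul_neg, Matrix.mul_add]
  have h3 : m.g * m.J * m.NN = m.g * m.Sig := by
    rw [NN_eq, Matrix.mul_assoc, Matrix.mul_neg m.J, JJ_mul, neg_neg]
  have h4 : m.g * m.J * (m.Rc * m.J) = -(m.Jᵀ * m.Ric * m.J) := by
    rw [← m.g_Rc, ← Matrix.mul_assoc m.Jᵀ, Jt_g]
    simp only [Matrix.neg_mul, neg_neg, Matrix.mul_assoc]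
  have h5 : m.g * m.J * (m.J * m.Rc) = -m.Ric := by
    rw [Matrix.mul_assoc, JJ_mul, Matrix.mul_neg, m.g_Rc]
  have h6 : m.Ric * m.J * m.J = -m.Ric := by
    rw [Matrix.mul_assoc, m.JJ, Matrix.mul_neg, Matrix.mul_one]
  rw [P_eq, Geo.om, Jt_g, Jrhs, w, Q]
  simp only [Matrix.neg_mul, Matrix.sub_mul, Matrix.add_mul, Matrix.mul_add, Matrix.mul_sub,
    Matrix.smul_mul, h2, h3, h4, h5, h6]
  abel

lemma Q_symm : m.Qᵀ = m.Q := by
  have h1 : (m.g * m.Sig)ᵀ = m.g * m.Sig := by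
    conv_rhs => rw [← Sig_sw]
    simp only [Sig, Matrix.mul_sum, Matrix.mul_smul, transpose_sum, transpose_smul]
    refine sum_congr rfl fun p _ => sum_congr rfl fun q _ => ?_
    rw [← Matrix.mul_assoc, transpose_mul, m.S_sk p, Matrix.mul_neg, ← Matrix.mul_assoc,
      (m.S_sk q).tg, Matrix.neg_mul, neg_neg, Matrix.mul_assoc]
  have h2 : ∀ i k, (m.tau * m.J) i k = -trace (m.S i * m.S k) := fun i k => by
    have e : (m.tau * m.J) i k = trace (m.J * m.S i * ∑ a, m.J a k • m.S a) := by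
      simp only [Matrix.mul_apply, tau, of_apply, Matrix.mul_sum, Matrix.mul_smul, trace_sum,
        trace_smul, smul_eq_mul, mul_comm]
    rw [e, S_J, Matrix.mul_neg, trace_neg, J_S, Matrix.neg_mul, Matrix.mul_assoc, JJ_mul,
      Matrix.mul_neg, neg_neg]
  have h3 : (m.tau * m.J)ᵀ = m.tau * m.J := by
    ext i k
    rw [transpose_apply, h2, h2, trace_mul_comm]
  rw [Q, transpose_add, transpose_smul, h1, h3]

end Geo

variable {ι : Type} [Fintype ι] [DecidableEq ι]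

open Sm in
theorem ChartAK.tangent {T : ℝ} {U : Set (ι → ℝ)} {g J : ℝ → Fld ι} (h : ChartAK T U g J)
    (hU : IsOpen U) {t : ℝ} (ht : t ∈ Set.Ico 0 T) {Λ : ι → Fld ι}
    (hΛ : ∀ z ∈ U, IsChern (g t) (J t) Λ z) {z : ι → ℝ} (hz : z ∈ U) :
    (Pc (g t) (J t) Λ z)ᵀ = -Pc (g t) (J t) Λ z ∧ Closed (Pc (g t) (J t) Λ) z ∧
      J t z * Jrhs (g t) (J t) z + Jrhs (g t) (J t) z * J t z = 0 ∧
      (-Pc (g t) (J t) Λ z * J t z + om (g t) (J t) z * Jrhs (g t) (J t) z).IsSymm ∧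
      ((∀ i, DJ (g t) (J t) i z = 0) →
        -Pc (g t) (J t) Λ z * J t z + om (g t) (J t) z * Jrhs (g t) (J t) z =
          (-2 : ℝ) • (g t z * Rc (g t) z)) := by
  have hP : ∀ w ∈ U, Pc (g t) (J t) Λ w = Pform (J t) (chern (g t) (J t)) w := fun w hw => by
    rw [h.Pc_eq ht hw, Pform_congr hU _ (fun y hy => (isChern_iff h hU ht hy Λ).1 (hΛ y hy)) hw]
  obtain ⟨m, hd, rg, rJ, ri, rΓ, rS, -, ro, rP, -⟩ := h.geo hU
  have rR : Rep m.Rc fun t => Rc (g t) := ri.mul (Rep.of_ent fun x j k => by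
    rw [Met.Ric, of_apply, of_apply, map_sum]
    exact Finset.sum_congr rfl fun i _ => by
      rw [Met.R, hd]
      exact (Rep.acurv rΓ i j).ent x i k)
  have rD : ∀ p q, Rep (m.DS p q) fun t => DDJ (g t) (J t) p q := fun p q => by
    rw [Geo.DS, Met.cov2, Met.cov, hd]
    exact (Rep.acov rΓ p (rS q)).sub (Rep.sum fun k => (rΓ p).smul k q (rS k))
  have rF : Rep m.Jrhs fun t => Jrhs (g t) (J t) :=
    ((Rep.sum fun p => Rep.sum fun q => ri.smul p q (rD p q)).add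
      (Rep.sum fun p => Rep.sum fun q => ri.smul p q
        ((((ri.mul (rS q).transpose).mul rg).mul (rS p)).mul rJ))).add
      ((rR.mul rJ).sub (rJ.mul rR))
  have rV := (rP.neg.mul rJ).add (ro.mul rF)
  have rt : Rep m.tau fun t z => Matrix.of fun i j =>
      trace (J t z * DJ (g t) (J t) i z * DJ (g t) (J t) j z) :=
    Rep.of_ent fun x i j => ((rJ.mul (rS i)).mul (rS j)).trace x
  have rQ := (rg.mul (Rep.sum fun p => Rep.sum fun q => ri.smul p q ((rS p).mul (rS q)))).add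
    ((rt.mul rJ).rsmul (1 / 2))
  rw [hP z hz]
  refine ⟨rP.transpose.eq rP.neg m.Pf_skew ht hz, fun i j k => ?_,
    ((rJ.mul rF).add (rF.mul rJ)).eq Rep.zero m.J_Jrhs ht hz, rV.transpose.eq rV ?_ ht hz,
    fun h0 => ?_⟩
  · have e : ∀ i, pd i (Pc (g t) (J t) Λ) z = pd i (Pform (J t) (chern (g t) (J t))) z :=
      ClassP.pd_congr (Filter.eventuallyEq_of_mem (hU.mem_nhds hz) hP)
    have := congrArg (ev (⟨(t, z), ht, hz⟩ : (Dom.cyl T U hU).S)) (m.Pf_closed i j k)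
    rw [hd, map_add, map_add, map_zero] at this
    rw [e, e, e, ← (rP.pd i).ent ⟨(t, z), ht, hz⟩ j k, ← (rP.pd j).ent ⟨(t, z), ht, hz⟩ k i,
      ← (rP.pd k).ent ⟨(t, z), ht, hz⟩ i j]
    exact this
  · rw [m.vel_g, transpose_sub, transpose_add, m.Q_symm, m.Ric_symm]
  · have := rV.eq (rQ.sub ((rg.mul rR).add (rg.mul rR))) (by rw [m.g_Rc]; exact m.vel_g) ht hz
    rw [this]
    have h1 : (Matrix.of fun _ _ => 0 : Matrix ι ι ℝ) = 0 := rfl
    simp only [h0, Matrix.mul_zero, smul_zero, Finset.sum_const_zero, trace_zero, h1,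
      Matrix.zero_mul, add_zero, zero_sub]
    module

end Pool.Agent.P.MP_8fdf05_gt
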