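import Pool.Agent.P.MP_8fdf05_gt.FlowKT2
import Pool.Agent.P.MP_8fdf05_gt.FlowTan

/-! Checks of the definition of the flow on manifolds. -/

open Matrix Set Filter Topology
open scoped ContDiff Manifold

namespace Pool.Agent.P.MP_8fdf05_gt

section

variable {ι : Type} [Fintype ι] [DecidableEq ι] {M : Type} [TopologicalSpace M]
  [ChartedSpace (ι → ℝ) M] [IsManifold 𝓘(ℝ, ι → ℝ) ∞ M]

lemma jac_ne_zero {e : OpenPartialHomeomorph M (ι → ℝ)} (he : e ∈ atlas (ι → ℝ) M) {z : ι → ℝ}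
    (hz : z ∈ e.target) : (jac e z).det ≠ 0 := by
  have hm : e ∈ IsManifold.maximalAtlas 𝓘(ℝ, ι → ℝ) ∞ M := IsManifold.subset_maximalAtlas he
  have hp := e.map_target hz
  have hs := mem_chart_source (ι → ℝ) (e.symm z)
  have hl := (chartAt (ι → ℝ) (e.symm z)).left_inv hs
  have a1 : DifferentiableAt ℝ (chartAt (ι → ℝ) (e.symm z) ∘ e.symm) z :=
    (contMDiffAt_iff_contDiffAt.1 ((contMDiffOn_chart.contMDiffAt
      (chart_source_mem_nhds _ _)).comp z ((contMDiffOn_symm_of_mem_maximalAtlas hm).contMDiffAt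
        (e.open_target.mem_nhds hz)))).differentiableAt (by simp)
  have a2 : DifferentiableAt ℝ (e ∘ (chartAt (ι → ℝ) (e.symm z)).symm)
      ((chartAt (ι → ℝ) (e.symm z) ∘ e.symm) z) :=
    (contMDiffAt_iff_contDiffAt.1 (ContMDiffAt.comp _
      ((contMDiffOn_of_mem_maximalAtlas hm).contMDiffAt (e.open_source.mem_nhds (by
        rw [hl]; exact hp)))
      (contMDiffOn_chart_symm.contMDiffAt (chart_target_mem_nhds _ _)))).differentiableAt (by simp)
  have a3 : (e ∘ (chartAt (ι → ℝ) (e.symm z)).symm) ∘ (chartAt (ι → ℝ) (e.symm z) ∘ e.symm)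
      =ᶠ[𝓝 z] id := by
    filter_upwards [e.open_target.mem_nhds hz, (e.continuousAt_symm hz).preimage_mem_nhds
      (chart_source_mem_nhds (ι → ℝ) (e.symm z))] with y h1 h2
    simp only [Function.comp_apply, (chartAt (ι → ℝ) (e.symm z)).left_inv h2, e.right_inv h1, id]
  have a4 := a3.fderiv_eq (𝕜 := ℝ)
  rw [fderiv_comp z a2 a1, fderiv_id] at a4
  have a5 := congrArg (fun L : (ι → ℝ) →L[ℝ] (ι → ℝ) =>
    (LinearMap.toMatrix' (L : (ι → ℝ) →ₗ[ℝ] (ι → ℝ))).det) a4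
  simp only [ContinuousLinearMap.toLinearMap_comp, LinearMap.toMatrix'_comp, det_mul,
    ContinuousLinearMap.coe_id, LinearMap.toMatrix'_id, det_one] at a5
  have a6 : jac e z = LinearMap.toMatrix' (fderiv ℝ (chartAt (ι → ℝ) (e.symm z) ∘ e.symm) z :
      (ι → ℝ) →ₗ[ℝ] (ι → ℝ)) := by
    ext a b
    simp [jac, LinearMap.toMatrix'_apply, Pi.single_apply]
  rw [a6]
  exact right_ne_zero_of_mul_eq_one a5

lemma IsAK.chartAK {g J : M → Matrix ι ι ℝ} (h : IsAK g J) {e : OpenPartialHomeomorph M (ι → ℝ)}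
    (he : e ∈ atlas (ι → ℝ) M) : ChartAK 1 e.target (fun _ => form2 g e) fun _ => endo J e :=
  chartAK_of (g := fun _ => g) (J := fun _ => J) (fun _ _ => h)
    (fun a b => ⟨(h.smooth e he a b).1.comp contDiffOn_snd fun _ hx => hx.2,
      (h.smooth e he a b).2.comp contDiffOn_snd fun _ hx => hx.2⟩) he fun _ hz => jac_ne_zero he hz

end

end Pool.Agent.P.MP_8fdf05_gt
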