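import Pool.Agent.P.MP_8fdf05_gt.Defs

/-! An explicit solution of symplectic curvature flow that is not Kaehler and not static: the left
invariant structures on the product of the Heisenberg group and the line, in global coordinates.
This part computes the tensors. -/

open Matrix Set
open scoped ContDiff

namespace Pool.Agent.P.MP_8fdf05_gt

namespace KT

set_option linter.unusedSimpArgs false
set_option linter.unusedVariables false

/-- Four by four matrices. -/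
abbrev M4 : Type := Matrix (Fin 4) (Fin 4) ℝ

lemma ext4 {A B : M4} (h00 : A 0 0 = B 0 0) (h01 : A 0 1 = B 0 1) (h02 : A 0 2 = B 0 2)
    (h03 : A 0 3 = B 0 3) (h10 : A 1 0 = B 1 0) (h11 : A 1 1 = B 1 1) (h12 : A 1 2 = B 1 2)
    (h13 : A 1 3 = B 1 3) (h20 : A 2 0 = B 2 0) (h21 : A 2 1 = B 2 1) (h22 : A 2 2 = B 2 2)
    (h23 : A 2 3 = B 2 3) (h30 : A 3 0 = B 3 0) (h31 : A 3 1 = B 3 1) (h32 : A 3 2 = B 3 2)
    (h33 : A 3 3 = B 3 3) : A = B := by
  ext i j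
  fin_cases i <;> fin_cases j <;> assumption

lemma all4 {p : Fin 4 → Prop} (h0 : p 0) (h1 : p 1) (h2 : p 2) (h3 : p 3) : ∀ i, p i := by
  intro i
  fin_cases i <;> assumption

/-- The field that depends on the first coordinate only. -/
def fx (F : ℝ → M4) : Fld (Fin 4) := fun z => F (z 0)

/-- F' is the derivative of F. -/
def Der (F F' : ℝ → M4) : Prop := ∀ x p q, HasDerivAt (fun y => F y p q) (F' x p q) x

lemma Der.of_cubic {F F' : ℝ → M4} (A B C D : M4)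
    (h : ∀ x : ℝ, F x = A + x • B + x ^ 2 • C + x ^ 3 • D)
    (h' : ∀ x : ℝ, F' x = B + (2 * x) • C + (3 * x ^ 2) • D) : Der F F' := fun x p q => by
  simp only [h, h', Matrix.add_apply, Matrix.smul_apply, smul_eq_mul]
  exact ((((hasDerivAt_const x (A p q)).fun_add ((hasDerivAt_id' x).mul_const (B p q))).fun_add
    ((hasDerivAt_pow 2 x).mul_const (C p q))).fun_add
    ((hasDerivAt_pow 3 x).mul_const (D p q))).congr_deriv (by norm_num)

lemma Der.zero : Der (fun _ => 0) fun _ => 0 := fun x _ _ => hasDerivAt_const x _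

lemma Der.pd {F F' : ℝ → M4} (h : Der F F') (i : Fin 4) (z : Fin 4 → ℝ) :
    pd i (fx F) z = if i = 0 then F' (z 0) else 0 := by
  ext p q
  have h1 := ((h (z 0) p q).comp_hasFDerivAt z (hasFDerivAt_apply (𝕜 := ℝ) 0 z)).fderiv
  have h2 : fderiv ℝ (fun y : Fin 4 → ℝ => F (y 0) p q) z = _ := h1
  simp only [Pool.Agent.P.MP_8fdf05_gt.pd, fx, of_apply, h2]
  by_cases hi : i = 0
  · simp [hi]
  · simp [hi, Pi.single_apply, Ne.symm hi]

/-- The metric. -/
noncomputable def Gm (a b x : ℝ) : M4 :=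
  !![a, 0, 0, 0;
    0, b + x ^ 2 / a, -x / a, 0;
    0, -x / a, 1 / a, 0;
    0, 0, 0, 1 / b]

/-- Its derivative in the first coordinate. -/
noncomputable def Gmx (a b x : ℝ) : M4 :=
  !![0, 0, 0, 0;
    0, 2 * x / a, -1 / a, 0;
    0, -1 / a, 0, 0;
    0, 0, 0, 0]

lemma dGm (a b : ℝ) : Der (Gm a b) (Gmx a b) :=
  Der.of_cubic
    !![a, 0, 0, 0;
      0, b, 0, 0;
      0, 0, 1 / a, 0;
      0, 0, 0, 1 / b]
    !![0, 0, 0, 0;
      0, 0, -1 / a, 0;
      0, -1 / a, 0, 0;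
      0, 0, 0, 0]
    !![0, 0, 0, 0;
      0, 1 / a, 0, 0;
      0, 0, 0, 0;
      0, 0, 0, 0]
    !![0, 0, 0, 0;
      0, 0, 0, 0;
      0, 0, 0, 0;
      0, 0, 0, 0]
    (fun x => by apply ext4 <;> simp [Gm] <;> ring)
    (fun x => by apply ext4 <;> simp [Gmx] <;> ring)

/-- The inverse metric. -/
noncomputable def Gi (a b x : ℝ) : M4 :=
  !![1 / a, 0, 0, 0;
    0, 1 / b, x / b, 0;
    0, x / b, a + x ^ 2 / b, 0;
    0, 0, 0, b]

/-- The almost complex structure. -/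
noncomputable def Jm (a b x : ℝ) : M4 :=
  !![0, x / a, -1 / a, 0;
    0, 0, 0, -1 / b;
    a, 0, 0, -x / b;
    0, b, 0, 0]

/-- Its derivative in the first coordinate. -/
noncomputable def Jmx (a b x : ℝ) : M4 :=
  !![0, 1 / a, 0, 0;
    0, 0, 0, 0;
    0, 0, 0, -1 / b;
    0, 0, 0, 0]

lemma dJm (a b : ℝ) : Der (Jm a b) (Jmx a b) :=
  Der.of_cubic
    !![0, 0, -1 / a, 0;
      0, 0, 0, -1 / b;
      a, 0, 0, 0;
      0, b, 0, 0]
    !![0, 1 / a, 0, 0;
      0, 0, 0, 0;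
      0, 0, 0, -1 / b;
      0, 0, 0, 0]
    !![0, 0, 0, 0;
      0, 0, 0, 0;
      0, 0, 0, 0;
      0, 0, 0, 0]
    !![0, 0, 0, 0;
      0, 0, 0, 0;
      0, 0, 0, 0;
      0, 0, 0, 0]
    (fun x => by apply ext4 <;> simp [Jm] <;> ring)
    (fun x => by apply ext4 <;> simp [Jmx] <;> ring)

/-- The symplectic form. -/
noncomputable def Om (a b x : ℝ) : M4 :=
  !![0, -x, 1, 0;
    x, 0, 0, 1;
    -1, 0, 0, 0;
    0, -1, 0, 0]

/-- Its derivative in the first coordinate. -/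
noncomputable def Omx (a b x : ℝ) : M4 :=
  !![0, -1, 0, 0;
    1, 0, 0, 0;
    0, 0, 0, 0;
    0, 0, 0, 0]

lemma dOm (a b : ℝ) : Der (Om a b) (Omx a b) :=
  Der.of_cubic
    !![0, 0, 1, 0;
      0, 0, 0, 1;
      -1, 0, 0, 0;
      0, -1, 0, 0]
    !![0, -1, 0, 0;
      1, 0, 0, 0;
      0, 0, 0, 0;
      0, 0, 0, 0]
    !![0, 0, 0, 0;
      0, 0, 0, 0;
      0, 0, 0, 0;
      0, 0, 0, 0]
    !![0, 0, 0, 0;
      0, 0, 0, 0;
      0, 0, 0, 0;
      0, 0, 0, 0]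
    (fun x => by apply ext4 <;> simp [Om] <;> ring)
    (fun x => by apply ext4 <;> simp [Omx] <;> ring)

/-- Christoffel symbols. -/
noncomputable def Ga0 (a b x : ℝ) : M4 :=
  !![0, 0, 0, 0;
    0, x / (2 * a * b), -1 / (2 * a * b), 0;
    0, -1 / 2 + x ^ 2 / (2 * a * b), -x / (2 * a * b), 0;
    0, 0, 0, 0]

/-- Its derivative in the first coordinate. -/
noncomputable def Ga0x (a b x : ℝ) : M4 :=
  !![0, 0, 0, 0;
    0, 1 / (2 * a * b), 0, 0;
    0, x / (a * b), -1 / (2 * a * b), 0;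
    0, 0, 0, 0]

lemma dGa0 (a b : ℝ) : Der (Ga0 a b) (Ga0x a b) :=
  Der.of_cubic
    !![0, 0, 0, 0;
      0, 0, -1 / (2 * a * b), 0;
      0, -1 / 2, 0, 0;
      0, 0, 0, 0]
    !![0, 0, 0, 0;
      0, 1 / (2 * a * b), 0, 0;
      0, 0, -1 / (2 * a * b), 0;
      0, 0, 0, 0]
    !![0, 0, 0, 0;
      0, 0, 0, 0;
      0, 1 / (2 * a * b), 0, 0;
      0, 0, 0, 0]
    !![0, 0, 0, 0;
      0, 0, 0, 0;
      0, 0, 0, 0;
      0, 0, 0, 0]
    (fun x => by apply ext4 <;> simp [Ga0] <;> ring)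
    (fun x => by apply ext4 <;> simp [Ga0x] <;> ring)

/-- Christoffel symbols. -/
noncomputable def Ga1 (a b x : ℝ) : M4 :=
  !![0, -x / a ^ 2, 1 / (2 * a ^ 2), 0;
    x / (2 * a * b), 0, 0, 0;
    -1 / 2 + x ^ 2 / (2 * a * b), 0, 0, 0;
    0, 0, 0, 0]

/-- Its derivative in the first coordinate. -/
noncomputable def Ga1x (a b x : ℝ) : M4 :=
  !![0, -1 / a ^ 2, 0, 0;
    1 / (2 * a * b), 0, 0, 0;
    x / (a * b), 0, 0, 0;
    0, 0, 0, 0]

lemma dGa1 (a b : ℝ) : Der (Ga1 a b) (Ga1x a b) :=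
  Der.of_cubic
    !![0, 0, 1 / (2 * a ^ 2), 0;
      0, 0, 0, 0;
      -1 / 2, 0, 0, 0;
      0, 0, 0, 0]
    !![0, -1 / a ^ 2, 0, 0;
      1 / (2 * a * b), 0, 0, 0;
      0, 0, 0, 0;
      0, 0, 0, 0]
    !![0, 0, 0, 0;
      0, 0, 0, 0;
      1 / (2 * a * b), 0, 0, 0;
      0, 0, 0, 0]
    !![0, 0, 0, 0;
      0, 0, 0, 0;
      0, 0, 0, 0;
      0, 0, 0, 0]
    (fun x => by apply ext4 <;> simp [Ga1] <;> ring)
    (fun x => by apply ext4 <;> simp [Ga1x] <;> ring)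

/-- Christoffel symbols. -/
noncomputable def Ga2 (a b x : ℝ) : M4 :=
  !![0, 1 / (2 * a ^ 2), 0, 0;
    -1 / (2 * a * b), 0, 0, 0;
    -x / (2 * a * b), 0, 0, 0;
    0, 0, 0, 0]

/-- Its derivative in the first coordinate. -/
noncomputable def Ga2x (a b x : ℝ) : M4 :=
  !![0, 0, 0, 0;
    0, 0, 0, 0;
    -1 / (2 * a * b), 0, 0, 0;
    0, 0, 0, 0]

lemma dGa2 (a b : ℝ) : Der (Ga2 a b) (Ga2x a b) :=
  Der.of_cubic
    !![0, 1 / (2 * a ^ 2), 0, 0;
      -1 / (2 * a * b), 0, 0, 0;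
      0, 0, 0, 0;
      0, 0, 0, 0]
    !![0, 0, 0, 0;
      0, 0, 0, 0;
      -1 / (2 * a * b), 0, 0, 0;
      0, 0, 0, 0]
    !![0, 0, 0, 0;
      0, 0, 0, 0;
      0, 0, 0, 0;
      0, 0, 0, 0]
    !![0, 0, 0, 0;
      0, 0, 0, 0;
      0, 0, 0, 0;
      0, 0, 0, 0]
    (fun x => by apply ext4 <;> simp [Ga2] <;> ring)
    (fun x => by apply ext4 <;> simp [Ga2x] <;> ring)

/-- Covariant derivative of J. -/
noncomputable def Sj0 (a b x : ℝ) : M4 :=
  !![0, 1 / (2 * a), 0, 0;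
    -1 / (2 * b), 0, 0, 0;
    -x / (2 * b), 0, 0, -1 / (2 * b);
    0, -x / (2 * a), 1 / (2 * a), 0]

/-- Its derivative in the first coordinate. -/
noncomputable def Sj0x (a b x : ℝ) : M4 :=
  !![0, 0, 0, 0;
    0, 0, 0, 0;
    -1 / (2 * b), 0, 0, 0;
    0, -1 / (2 * a), 0, 0]

lemma dSj0 (a b : ℝ) : Der (Sj0 a b) (Sj0x a b) :=
  Der.of_cubic
    !![0, 1 / (2 * a), 0, 0;
      -1 / (2 * b), 0, 0, 0;
      0, 0, 0, -1 / (2 * b);
      0, 0, 1 / (2 * a), 0]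
    !![0, 0, 0, 0;
      0, 0, 0, 0;
      -1 / (2 * b), 0, 0, 0;
      0, -1 / (2 * a), 0, 0]
    !![0, 0, 0, 0;
      0, 0, 0, 0;
      0, 0, 0, 0;
      0, 0, 0, 0]
    !![0, 0, 0, 0;
      0, 0, 0, 0;
      0, 0, 0, 0;
      0, 0, 0, 0]
    (fun x => by apply ext4 <;> simp [Sj0] <;> ring)
    (fun x => by apply ext4 <;> simp [Sj0x] <;> ring)

/-- Covariant derivative of J. -/
noncomputable def Sj1 (a b x : ℝ) : M4 :=
  !![0, 0, 0, x / (2 * a ^ 2 * b);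
    0, x ^ 2 / (2 * a ^ 2 * b), -x / (2 * a ^ 2 * b), 0;
    0, x / (2 * a) + x ^ 3 / (2 * a ^ 2 * b), -x ^ 2 / (2 * a ^ 2 * b), 0;
    -x / (2 * a), 0, 0, 0]

/-- Its derivative in the first coordinate. -/
noncomputable def Sj1x (a b x : ℝ) : M4 :=
  !![0, 0, 0, 1 / (2 * a ^ 2 * b);
    0, x / (a ^ 2 * b), -1 / (2 * a ^ 2 * b), 0;
    0, 1 / (2 * a) + 3 * x ^ 2 / (2 * a ^ 2 * b), -x / (a ^ 2 * b), 0;
    -1 / (2 * a), 0, 0, 0]

lemma dSj1 (a b : ℝ) : Der (Sj1 a b) (Sj1x a b) :=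
  Der.of_cubic
    !![0, 0, 0, 0;
      0, 0, 0, 0;
      0, 0, 0, 0;
      0, 0, 0, 0]
    !![0, 0, 0, 1 / (2 * a ^ 2 * b);
      0, 0, -1 / (2 * a ^ 2 * b), 0;
      0, 1 / (2 * a), 0, 0;
      -1 / (2 * a), 0, 0, 0]
    !![0, 0, 0, 0;
      0, 1 / (2 * a ^ 2 * b), 0, 0;
      0, 0, -1 / (2 * a ^ 2 * b), 0;
      0, 0, 0, 0]
    !![0, 0, 0, 0;
      0, 0, 0, 0;
      0, 1 / (2 * a ^ 2 * b), 0, 0;
      0, 0, 0, 0]
    (fun x => by apply ext4 <;> simp [Sj1] <;> ring)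
    (fun x => by apply ext4 <;> simp [Sj1x] <;> ring)

/-- Covariant derivative of J. -/
noncomputable def Sj2 (a b x : ℝ) : M4 :=
  !![0, 0, 0, -1 / (2 * a ^ 2 * b);
    0, -x / (2 * a ^ 2 * b), 1 / (2 * a ^ 2 * b), 0;
    0, -1 / (2 * a) - x ^ 2 / (2 * a ^ 2 * b), x / (2 * a ^ 2 * b), 0;
    1 / (2 * a), 0, 0, 0]

/-- Its derivative in the first coordinate. -/
noncomputable def Sj2x (a b x : ℝ) : M4 :=
  !![0, 0, 0, 0;
    0, -1 / (2 * a ^ 2 * b), 0, 0;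
    0, -x / (a ^ 2 * b), 1 / (2 * a ^ 2 * b), 0;
    0, 0, 0, 0]

lemma dSj2 (a b : ℝ) : Der (Sj2 a b) (Sj2x a b) :=
  Der.of_cubic
    !![0, 0, 0, -1 / (2 * a ^ 2 * b);
      0, 0, 1 / (2 * a ^ 2 * b), 0;
      0, -1 / (2 * a), 0, 0;
      1 / (2 * a), 0, 0, 0]
    !![0, 0, 0, 0;
      0, -1 / (2 * a ^ 2 * b), 0, 0;
      0, 0, 1 / (2 * a ^ 2 * b), 0;
      0, 0, 0, 0]
    !![0, 0, 0, 0;
      0, 0, 0, 0;
      0, -1 / (2 * a ^ 2 * b), 0, 0;
      0, 0, 0, 0]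
    !![0, 0, 0, 0;
      0, 0, 0, 0;
      0, 0, 0, 0;
      0, 0, 0, 0]
    (fun x => by apply ext4 <;> simp [Sj2] <;> ring)
    (fun x => by apply ext4 <;> simp [Sj2x] <;> ring)

/-- The Chern connection. -/
noncomputable def La0 (a b x : ℝ) : M4 :=
  !![0, 0, 0, -1 / (4 * a * b);
    0, x / (4 * a * b), -1 / (4 * a * b), 0;
    0, -3 / 4 + x ^ 2 / (4 * a * b), -x / (4 * a * b), 0;
    1 / 4, 0, 0, 0]

/-- Its derivative in the first coordinate. -/
noncomputable def La0x (a b x : ℝ) : M4 :=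
  !![0, 0, 0, 0;
    0, 1 / (4 * a * b), 0, 0;
    0, x / (2 * a * b), -1 / (4 * a * b), 0;
    0, 0, 0, 0]

lemma dLa0 (a b : ℝ) : Der (La0 a b) (La0x a b) :=
  Der.of_cubic
    !![0, 0, 0, -1 / (4 * a * b);
      0, 0, -1 / (4 * a * b), 0;
      0, -3 / 4, 0, 0;
      1 / 4, 0, 0, 0]
    !![0, 0, 0, 0;
      0, 1 / (4 * a * b), 0, 0;
      0, 0, -1 / (4 * a * b), 0;
      0, 0, 0, 0]
    !![0, 0, 0, 0;
      0, 0, 0, 0;
      0, 1 / (4 * a * b), 0, 0;
      0, 0, 0, 0]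
    !![0, 0, 0, 0;
      0, 0, 0, 0;
      0, 0, 0, 0;
      0, 0, 0, 0]
    (fun x => by apply ext4 <;> simp [La0] <;> ring)
    (fun x => by apply ext4 <;> simp [La0x] <;> ring)

/-- The Chern connection. -/
noncomputable def La1 (a b x : ℝ) : M4 :=
  !![0, -3 * x / (4 * a ^ 2), 1 / (2 * a ^ 2), 0;
    x / (4 * a * b), 0, 0, 0;
    -1 / 2 + x ^ 2 / (4 * a * b), 0, 0, -x / (4 * a * b);
    0, -x ^ 2 / (4 * a ^ 2), x / (4 * a ^ 2), 0]

/-- Its derivative in the first coordinate. -/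
noncomputable def La1x (a b x : ℝ) : M4 :=
  !![0, -3 / (4 * a ^ 2), 0, 0;
    1 / (4 * a * b), 0, 0, 0;
    x / (2 * a * b), 0, 0, -1 / (4 * a * b);
    0, -x / (2 * a ^ 2), 1 / (4 * a ^ 2), 0]

lemma dLa1 (a b : ℝ) : Der (La1 a b) (La1x a b) :=
  Der.of_cubic
    !![0, 0, 1 / (2 * a ^ 2), 0;
      0, 0, 0, 0;
      -1 / 2, 0, 0, 0;
      0, 0, 0, 0]
    !![0, -3 / (4 * a ^ 2), 0, 0;
      1 / (4 * a * b), 0, 0, 0;
      0, 0, 0, -1 / (4 * a * b);
      0, 0, 1 / (4 * a ^ 2), 0]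
    !![0, 0, 0, 0;
      0, 0, 0, 0;
      1 / (4 * a * b), 0, 0, 0;
      0, -1 / (4 * a ^ 2), 0, 0]
    !![0, 0, 0, 0;
      0, 0, 0, 0;
      0, 0, 0, 0;
      0, 0, 0, 0]
    (fun x => by apply ext4 <;> simp [La1] <;> ring)
    (fun x => by apply ext4 <;> simp [La1x] <;> ring)

/-- The Chern connection. -/
noncomputable def La2 (a b x : ℝ) : M4 :=
  !![0, 1 / (4 * a ^ 2), 0, 0;
    -1 / (4 * a * b), 0, 0, 0;
    -x / (4 * a * b), 0, 0, 1 / (4 * a * b);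
    0, x / (4 * a ^ 2), -1 / (4 * a ^ 2), 0]

/-- Its derivative in the first coordinate. -/
noncomputable def La2x (a b x : ℝ) : M4 :=
  !![0, 0, 0, 0;
    0, 0, 0, 0;
    -1 / (4 * a * b), 0, 0, 0;
    0, 1 / (4 * a ^ 2), 0, 0]

lemma dLa2 (a b : ℝ) : Der (La2 a b) (La2x a b) :=
  Der.of_cubic
    !![0, 1 / (4 * a ^ 2), 0, 0;
      -1 / (4 * a * b), 0, 0, 0;
      0, 0, 0, 1 / (4 * a * b);
      0, 0, -1 / (4 * a ^ 2), 0]
    !![0, 0, 0, 0;
      0, 0, 0, 0;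
      -1 / (4 * a * b), 0, 0, 0;
      0, 1 / (4 * a ^ 2), 0, 0]
    !![0, 0, 0, 0;
      0, 0, 0, 0;
      0, 0, 0, 0;
      0, 0, 0, 0]
    !![0, 0, 0, 0;
      0, 0, 0, 0;
      0, 0, 0, 0;
      0, 0, 0, 0]
    (fun x => by apply ext4 <;> simp [La2] <;> ring)
    (fun x => by apply ext4 <;> simp [La2x] <;> ring)

/-- The Ricci tensor. -/
noncomputable def Ri (a b x : ℝ) : M4 :=
  !![-1 / (2 * a * b), 0, 0, 0;
    0, -1 / (2 * a ^ 2) + x ^ 2 / (2 * a ^ 3 * b), -x / (2 * a ^ 3 * b), 0;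
    0, -x / (2 * a ^ 3 * b), 1 / (2 * a ^ 3 * b), 0;
    0, 0, 0, 0]

/-- The Ricci endomorphism. -/
noncomputable def Rn (a b x : ℝ) : M4 :=
  !![-1 / (2 * a ^ 2 * b), 0, 0, 0;
    0, -1 / (2 * a ^ 2 * b), 0, 0;
    0, -x / (a ^ 2 * b), 1 / (2 * a ^ 2 * b), 0;
    0, 0, 0, 0]

/-- The rough Laplacian of J. -/
noncomputable def Lp (a b x : ℝ) : M4 :=
  !![0, -x / (2 * a ^ 3 * b), 1 / (2 * a ^ 3 * b), 0;
    0, 0, 0, 1 / (2 * a ^ 2 * b ^ 2);
    -1 / (2 * a * b), 0, 0, x / (2 * a ^ 2 * b ^ 2);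
    0, -1 / (2 * a ^ 2), 0, 0]

/-- The velocity of J. -/
noncomputable def Jr (a b x : ℝ) : M4 :=
  !![0, -x / (a ^ 3 * b), 1 / (a ^ 3 * b), 0;
    0, 0, 0, 1 / (2 * a ^ 2 * b ^ 2);
    1 / (a * b), 0, 0, x / (2 * a ^ 2 * b ^ 2);
    0, 1 / (2 * a ^ 2), 0, 0]

/-- The inverse of the symplectic form. -/
noncomputable def Oi (a b x : ℝ) : M4 :=
  !![0, 0, -1, 0;
    0, 0, 0, -1;
    1, 0, 0, -x;
    0, 1, x, 0]

/-- All Christoffel symbols. -/
noncomputable def Ga (a b : ℝ) (i : Fin 4) : ℝ → M4 := ![Ga0 a b, Ga1 a b, Ga2 a b, fun _ => 0] i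

/-- Their derivatives. -/
noncomputable def Gax (a b : ℝ) (i : Fin 4) : ℝ → M4 :=
  ![Ga0x a b, Ga1x a b, Ga2x a b, fun _ => 0] i

lemma dGa (a b : ℝ) : ∀ i, Der (Ga a b i) (Gax a b i) :=
  all4 (dGa0 a b) (dGa1 a b) (dGa2 a b) Der.zero

/-- All covariant derivatives of J. -/
noncomputable def Sj (a b : ℝ) (i : Fin 4) : ℝ → M4 := ![Sj0 a b, Sj1 a b, Sj2 a b, fun _ => 0] i

/-- Their derivatives. -/
noncomputable def Sjx (a b : ℝ) (i : Fin 4) : ℝ → M4 :=
  ![Sj0x a b, Sj1x a b, Sj2x a b, fun _ => 0] i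

lemma dSj (a b : ℝ) : ∀ i, Der (Sj a b i) (Sjx a b i) :=
  all4 (dSj0 a b) (dSj1 a b) (dSj2 a b) Der.zero

/-- The Chern connection. -/
noncomputable def La (a b : ℝ) (i : Fin 4) : ℝ → M4 := ![La0 a b, La1 a b, La2 a b, fun _ => 0] i

/-- Their derivatives. -/
noncomputable def Lax (a b : ℝ) (i : Fin 4) : ℝ → M4 :=
  ![La0x a b, La1x a b, La2x a b, fun _ => 0] i

lemma dLa (a b : ℝ) : ∀ i, Der (La a b i) (Lax a b i) :=
  all4 (dLa0 a b) (dLa1 a b) (dLa2 a b) Der.zero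

variable {a b : ℝ}

lemma Gm_Gi (ha : a ≠ 0) (hb : b ≠ 0) (x : ℝ) : Gm a b x * Gi a b x = 1 := by
  apply ext4 <;> simp only [Gm, Gi, Matrix.one_apply,
      Matrix.mul_apply, Fin.sum_univ_four, Matrix.add_apply, Matrix.sub_apply,
      Matrix.smul_apply, Matrix.neg_apply, Matrix.transpose_apply, Matrix.of_apply, Matrix.cons_val,
      Matrix.cons_val_zero, Matrix.cons_val_one, Matrix.zero_apply, smul_eq_mul, zero_mul, mul_zero,
      add_zero, zero_add, sub_zero, Fin.isValue, Fin.reduceEq, if_true, if_false, ↓reduceIte] <;>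
    first | ring1 | (field_simp; ring1) | field_simp

lemma Gm_inv (ha : a ≠ 0) (hb : b ≠ 0) (x : ℝ) : (Gm a b x)⁻¹ = Gi a b x :=
  Matrix.inv_eq_right_inv (Gm_Gi ha hb x)

lemma Jm_sq (ha : a ≠ 0) (hb : b ≠ 0) (x : ℝ) : Jm a b x * Jm a b x = -1 := by
  apply ext4 <;> simp only [Jm, Matrix.one_apply,
      Matrix.mul_apply, Fin.sum_univ_four, Matrix.add_apply, Matrix.sub_apply,
      Matrix.smul_apply, Matrix.neg_apply, Matrix.transpose_apply, Matrix.of_apply, Matrix.cons_val,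
      Matrix.cons_val_zero, Matrix.cons_val_one, Matrix.zero_apply, smul_eq_mul, zero_mul, mul_zero,
      add_zero, zero_add, sub_zero, Fin.isValue, Fin.reduceEq, if_true, if_false, ↓reduceIte] <;>
    first | ring1 | (field_simp; ring1) | field_simp

lemma Jm_Gm (ha : a ≠ 0) (hb : b ≠ 0) (x : ℝ) : (Jm a b x)ᵀ * Gm a b x = Om 1 1 x := by
  apply ext4 <;> simp only [Jm, Gm, Om,
      Matrix.mul_apply, Fin.sum_univ_four, Matrix.add_apply, Matrix.sub_apply,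
      Matrix.smul_apply, Matrix.neg_apply, Matrix.transpose_apply, Matrix.of_apply, Matrix.cons_val,
      Matrix.cons_val_zero, Matrix.cons_val_one, Matrix.zero_apply, smul_eq_mul, zero_mul, mul_zero,
      add_zero, zero_add, sub_zero, Fin.isValue, Fin.reduceEq, if_true, if_false, ↓reduceIte] <;>
    first | ring1 | (field_simp; ring1) | field_simp

lemma Jm_herm (ha : a ≠ 0) (hb : b ≠ 0) (x : ℝ) :
    (Jm a b x)ᵀ * Gm a b x * Jm a b x = Gm a b x := by
  rw [Jm_Gm ha hb]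
  apply ext4 <;> simp only [Jm, Gm, Om,
      Matrix.mul_apply, Fin.sum_univ_four, Matrix.add_apply, Matrix.sub_apply,
      Matrix.smul_apply, Matrix.neg_apply, Matrix.transpose_apply, Matrix.of_apply, Matrix.cons_val,
      Matrix.cons_val_zero, Matrix.cons_val_one, Matrix.zero_apply, smul_eq_mul, zero_mul, mul_zero,
      add_zero, zero_add, sub_zero, Fin.isValue, Fin.reduceEq, if_true, if_false, ↓reduceIte] <;>
    first | ring1 | (field_simp; ring1) | field_simp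

lemma om_eq (ha : a ≠ 0) (hb : b ≠ 0) : om (fx (Gm a b)) (fx (Jm a b)) = fx (Om 1 1) :=
  funext fun _ => Jm_Gm ha hb _

lemma Om_inv (x : ℝ) : (Om 1 1 x)⁻¹ = Oi 1 1 x :=
  Matrix.inv_eq_right_inv (by
    apply ext4 <;> simp only [Om, Oi, Matrix.one_apply,
      Matrix.mul_apply, Fin.sum_univ_four, Matrix.add_apply, Matrix.sub_apply,
      Matrix.smul_apply, Matrix.neg_apply, Matrix.transpose_apply, Matrix.of_apply, Matrix.cons_val,
      Matrix.cons_val_zero, Matrix.cons_val_one, Matrix.zero_apply, smul_eq_mul, zero_mul, mul_zero,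
      add_zero, zero_add, sub_zero, Fin.isValue, Fin.reduceEq, if_true, if_false, ↓reduceIte] <;>
    first | ring1 | (field_simp; ring1) | field_simp)

lemma Om_closed (z : Fin 4 → ℝ) : Closed (fx (Om 1 1)) z := by
  unfold Closed
  simp only [(dOm 1 1).pd]
  refine all4 ?_ ?_ ?_ ?_ <;> refine all4 ?_ ?_ ?_ ?_ <;> refine all4 ?_ ?_ ?_ ?_ <;> simp [Omx]

lemma chr_eq (ha : a ≠ 0) (hb : b ≠ 0) : chr (fx (Gm a b)) = fun i => fx (Ga a b i) := by
  funext i z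
  simp only [chr, (dGm a b).pd, fx, Gm_inv ha hb]
  revert i
  refine all4 ?_ ?_ ?_ ?_ <;> apply ext4 <;> simp only [Gi, Gmx, Ga, Ga0, Ga1, Ga2,
      Matrix.mul_apply, Fin.sum_univ_four, Matrix.add_apply, Matrix.sub_apply,
      Matrix.smul_apply, Matrix.neg_apply, Matrix.transpose_apply, Matrix.of_apply, Matrix.cons_val,
      Matrix.cons_val_zero, Matrix.cons_val_one, Matrix.zero_apply, smul_eq_mul, zero_mul, mul_zero,
      add_zero, zero_add, sub_zero, Fin.isValue, Fin.reduceEq, if_true, if_false, ↓reduceIte] <;>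
    first | ring1 | (field_simp; ring1) | field_simp

lemma DJ_eq (ha : a ≠ 0) (hb : b ≠ 0) :
    DJ (fx (Gm a b)) (fx (Jm a b)) = fun i => fx (Sj a b i) := by
  funext i z
  simp only [DJ, cov, chr_eq ha hb, (dJm a b).pd]
  simp only [fx]
  revert i
  refine all4 ?_ ?_ ?_ ?_ <;> apply ext4 <;> simp only [Jm, Jmx, Ga, Ga0, Ga1, Ga2, Sj, Sj0, Sj1, Sj2,
      Matrix.mul_apply, Fin.sum_univ_four, Matrix.add_apply, Matrix.sub_apply,
      Matrix.smul_apply, Matrix.neg_apply, Matrix.transpose_apply, Matrix.of_apply, Matrix.cons_val,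
      Matrix.cons_val_zero, Matrix.cons_val_one, Matrix.zero_apply, smul_eq_mul, zero_mul, mul_zero,
      add_zero, zero_add, sub_zero, Fin.isValue, Fin.reduceEq, if_true, if_false, ↓reduceIte] <;>
    first | ring1 | (field_simp; ring1) | field_simp

lemma Ric_eq (ha : a ≠ 0) (hb : b ≠ 0) (z : Fin 4 → ℝ) :
    (Matrix.of fun j k => ∑ i, curv (fun i => fx (Ga a b i)) i j z i k) = Ri a b (z 0) := by
  simp only [curv, fun j => (dGa a b j).pd]
  simp only [fx]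
  apply ext4 <;> simp only [Ri, Ga, Ga0, Ga1, Ga2, Gax, Ga0x, Ga1x, Ga2x,
      Matrix.mul_apply, Fin.sum_univ_four, Matrix.add_apply, Matrix.sub_apply,
      Matrix.smul_apply, Matrix.neg_apply, Matrix.transpose_apply, Matrix.of_apply, Matrix.cons_val,
      Matrix.cons_val_zero, Matrix.cons_val_one, Matrix.zero_apply, smul_eq_mul, zero_mul, mul_zero,
      add_zero, zero_add, sub_zero, Fin.isValue, Fin.reduceEq, if_true, if_false, ↓reduceIte] <;>
    first | ring1 | (field_simp; ring1) | field_simp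

lemma Rc_eq (ha : a ≠ 0) (hb : b ≠ 0) (z : Fin 4 → ℝ) : Rc (fx (Gm a b)) z = Rn a b (z 0) := by
  rw [Rc, chr_eq ha hb, Ric_eq ha hb, fx, Gm_inv ha hb]
  apply ext4 <;> simp only [Ri, Rn, Gi,
      Matrix.mul_apply, Fin.sum_univ_four, Matrix.add_apply, Matrix.sub_apply,
      Matrix.smul_apply, Matrix.neg_apply, Matrix.transpose_apply, Matrix.of_apply, Matrix.cons_val,
      Matrix.cons_val_zero, Matrix.cons_val_one, Matrix.zero_apply, smul_eq_mul, zero_mul, mul_zero,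
      add_zero, zero_add, sub_zero, Fin.isValue, Fin.reduceEq, if_true, if_false, ↓reduceIte] <;>
    first | ring1 | (field_simp; ring1) | field_simp

lemma Lap_eq (ha : a ≠ 0) (hb : b ≠ 0) (z : Fin 4 → ℝ) :
    ∑ p, ∑ q, Gi a b (z 0) p q • DDJ (fx (Gm a b)) (fx (Jm a b)) p q z = Lp a b (z 0) := by
  simp only [DDJ, cov, chr_eq ha hb, DJ_eq ha hb, fun j => (dSj a b j).pd]
  simp only [fx, Fin.sum_univ_four, Gi, Matrix.of_apply, Matrix.cons_val, Matrix.cons_val_zero,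
    Matrix.cons_val_one, zero_smul, add_zero, zero_add]
  apply ext4 <;> simp only [Lp, Ga, Ga0, Ga1, Ga2, Sj, Sj0, Sj1, Sj2, Sjx, Sj0x, Sj1x, Sj2x,
      Matrix.mul_apply, Fin.sum_univ_four, Matrix.add_apply, Matrix.sub_apply,
      Matrix.smul_apply, Matrix.neg_apply, Matrix.transpose_apply, Matrix.of_apply, Matrix.cons_val,
      Matrix.cons_val_zero, Matrix.cons_val_one, Matrix.zero_apply, smul_eq_mul, zero_mul, mul_zero,
      add_zero, zero_add, sub_zero, Fin.isValue, Fin.reduceEq, if_true, if_false, ↓reduceIte] <;>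
    first | ring1 | (field_simp; ring1) | field_simp

lemma N_eq (ha : a ≠ 0) (hb : b ≠ 0) (x : ℝ) :
    ∑ p, ∑ q, Gi a b x p q • (Gi a b x * (Sj a b q x)ᵀ * Gm a b x * Sj a b p x * Jm a b x) =
      -Lp a b x := by
  have h : ∀ q, Gi a b x * (Sj a b q x)ᵀ * Gm a b x = -Sj a b q x := by
    refine all4 ?_ ?_ ?_ ?_ <;> apply ext4 <;> simp only [Gi, Gm, Sj, Sj0, Sj1, Sj2,
      Matrix.mul_apply, Fin.sum_univ_four, Matrix.add_apply, Matrix.sub_apply,
      Matrix.smul_apply, Matrix.neg_apply, Matrix.transpose_apply, Matrix.of_apply, Matrix.cons_val,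
      Matrix.cons_val_zero, Matrix.cons_val_one, Matrix.zero_apply, smul_eq_mul, zero_mul, mul_zero,
      add_zero, zero_add, sub_zero, Fin.isValue, Fin.reduceEq, if_true, if_false, ↓reduceIte] <;>
    first | ring1 | (field_simp; ring1) | field_simp
  simp only [h]
  simp only [Fin.sum_univ_four, Gi, Matrix.of_apply, Matrix.cons_val, Matrix.cons_val_zero,
    Matrix.cons_val_one, zero_smul, add_zero, zero_add]
  apply ext4 <;> simp only [Lp, Jm, Sj, Sj0, Sj1, Sj2,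
      Matrix.mul_apply, Fin.sum_univ_four, Matrix.add_apply, Matrix.sub_apply,
      Matrix.smul_apply, Matrix.neg_apply, Matrix.transpose_apply, Matrix.of_apply, Matrix.cons_val,
      Matrix.cons_val_zero, Matrix.cons_val_one, Matrix.zero_apply, smul_eq_mul, zero_mul, mul_zero,
      add_zero, zero_add, sub_zero, Fin.isValue, Fin.reduceEq, if_true, if_false, ↓reduceIte] <;>
    first | ring1 | (field_simp; ring1) | field_simp

lemma Jrhs_eq (ha : a ≠ 0) (hb : b ≠ 0) (z : Fin 4 → ℝ) :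
    Jrhs (fx (Gm a b)) (fx (Jm a b)) z = Jr a b (z 0) := by
  have h : (fx (Gm a b) z)⁻¹ = Gi a b (z 0) := Gm_inv ha hb _
  rw [Jrhs, h, Lap_eq ha hb, Rc_eq ha hb, DJ_eq ha hb]
  simp only [fx]
  rw [N_eq ha hb, add_neg_cancel, zero_add]
  apply ext4 <;> simp only [Rn, Jm, Jr,
      Matrix.mul_apply, Fin.sum_univ_four, Matrix.add_apply, Matrix.sub_apply,
      Matrix.smul_apply, Matrix.neg_apply, Matrix.transpose_apply, Matrix.of_apply, Matrix.cons_val,
      Matrix.cons_val_zero, Matrix.cons_val_one, Matrix.zero_apply, smul_eq_mul, zero_mul, mul_zero,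
      add_zero, zero_add, sub_zero, Fin.isValue, Fin.reduceEq, if_true, if_false, ↓reduceIte] <;>
    first | ring1 | (field_simp; ring1) | field_simp

lemma isChern (ha : a ≠ 0) (hb : b ≠ 0) (z : Fin 4 → ℝ) :
    IsChern (fx (Gm a b)) (fx (Jm a b)) (fun i => fx (La a b i)) z := by
  refine ⟨?_, ?_, fun u v => ?_⟩
  · simp only [om_eq ha hb, (dOm 1 1).pd]
    simp only [fx]
    refine all4 ?_ ?_ ?_ ?_ <;> apply ext4 <;> simp only [Om, Omx, La, La0, La1, La2,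
      Matrix.mul_apply, Fin.sum_univ_four, Matrix.add_apply, Matrix.sub_apply,
      Matrix.smul_apply, Matrix.neg_apply, Matrix.transpose_apply, Matrix.of_apply, Matrix.cons_val,
      Matrix.cons_val_zero, Matrix.cons_val_one, Matrix.zero_apply, smul_eq_mul, zero_mul, mul_zero,
      add_zero, zero_add, sub_zero, Fin.isValue, Fin.reduceEq, if_true, if_false, ↓reduceIte] <;>
    first | ring1 | (field_simp; ring1) | field_simp
  · simp only [cov, (dJm a b).pd]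
    simp only [fx]
    refine all4 ?_ ?_ ?_ ?_ <;> apply ext4 <;> simp only [Jm, Jmx, La, La0, La1, La2,
      Matrix.mul_apply, Fin.sum_univ_four, Matrix.add_apply, Matrix.sub_apply,
      Matrix.smul_apply, Matrix.neg_apply, Matrix.transpose_apply, Matrix.of_apply, Matrix.cons_val,
      Matrix.cons_val_zero, Matrix.cons_val_one, Matrix.zero_apply, smul_eq_mul, zero_mul, mul_zero,
      add_zero, zero_add, sub_zero, Fin.isValue, Fin.reduceEq, if_true, if_false, ↓reduceIte] <;>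
    first | ring1 | (field_simp; ring1) | field_simp
  · funext k
    revert k
    refine all4 ?_ ?_ ?_ ?_ <;> simp only [tors, fx, Pi.add_apply, Pi.sub_apply, Pi.zero_apply, Matrix.mulVec, dotProduct, Jm, La, La0, La1, La2,
      Matrix.mul_apply, Fin.sum_univ_four, Matrix.add_apply, Matrix.sub_apply,
      Matrix.smul_apply, Matrix.neg_apply, Matrix.transpose_apply, Matrix.of_apply, Matrix.cons_val,
      Matrix.cons_val_zero, Matrix.cons_val_one, Matrix.zero_apply, smul_eq_mul, zero_mul, mul_zero,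
      add_zero, zero_add, sub_zero, Fin.isValue, Fin.reduceEq, if_true, if_false, ↓reduceIte] <;>
    first | ring1 | (field_simp; ring1) | field_simp

lemma Pc_eq (ha : a ≠ 0) (hb : b ≠ 0) (z : Fin 4 → ℝ) :
    Pc (fx (Gm a b)) (fx (Jm a b)) (fun i => fx (La a b i)) z = 0 := by
  have h : ∀ C : M4, ∑ k, ∑ l, Oi 1 1 (z 0) k l * (Gm a b (z 0) * C) l k =
      ∑ k, ∑ l, Jm a b (z 0) k l * C l k := fun C => by
    simp only [Oi, Gm, Jm,
      Matrix.mul_apply, Fin.sum_univ_four, Matrix.add_apply, Matrix.sub_apply,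
      Matrix.smul_apply, Matrix.neg_apply, Matrix.transpose_apply, Matrix.of_apply, Matrix.cons_val,
      Matrix.cons_val_zero, Matrix.cons_val_one, Matrix.zero_apply, smul_eq_mul, zero_mul, mul_zero,
      add_zero, zero_add, sub_zero, Fin.isValue, Fin.reduceEq, if_true, if_false, ↓reduceIte] <;>
    first | ring1 | (field_simp; ring1) | field_simp
  have h' : (fx (Om 1 1) z)⁻¹ = Oi 1 1 (z 0) := Om_inv _
  simp only [Pc, om_eq ha hb, h']
  simp only [fx, h]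
  simp only [curv, fun j => (dLa a b j).pd]
  simp only [fx]
  apply ext4 <;> simp only [Jm, La, La0, La1, La2, Lax, La0x, La1x, La2x,
      Matrix.mul_apply, Fin.sum_univ_four, Matrix.add_apply, Matrix.sub_apply,
      Matrix.smul_apply, Matrix.neg_apply, Matrix.transpose_apply, Matrix.of_apply, Matrix.cons_val,
      Matrix.cons_val_zero, Matrix.cons_val_one, Matrix.zero_apply, smul_eq_mul, zero_mul, mul_zero,
      add_zero, zero_add, sub_zero, Fin.isValue, Fin.reduceEq, if_true, if_false, ↓reduceIte] <;>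
    first | ring1 | (field_simp; ring1) | field_simp

end KT

end Pool.Agent.P.MP_8fdf05_gt
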