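import Pool.Agent.P.MP_8fdf05_gt.FlowKT

/-! The explicit solution on four-space: the flow equations. -/

open Matrix Set
open scoped ContDiff

namespace Pool.Agent.P.MP_8fdf05_gt

namespace KT

lemma jac_refl (z : Fin 4 → ℝ) : jac (OpenPartialHomeomorph.refl (Fin 4 → ℝ)) z = 1 := by
  ext p q
  have h : (chartAt (Fin 4 → ℝ) ((OpenPartialHomeomorph.refl (Fin 4 → ℝ)).symm z) ∘
      (OpenPartialHomeomorph.refl (Fin 4 → ℝ)).symm) = id := rfl
  simp only [jac, of_apply, h, fderiv_id, ContinuousLinearMap.id_apply, Pi.single_apply,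
    Matrix.one_apply]

lemma form2_refl (σ : Fld (Fin 4)) : form2 σ (OpenPartialHomeomorph.refl (Fin 4 → ℝ)) = σ := by
  funext z
  simp [form2, jac_refl]

lemma endo_refl (σ : Fld (Fin 4)) : endo σ (OpenPartialHomeomorph.refl (Fin 4 → ℝ)) = σ := by
  funext z
  simp [endo, jac_refl]

lemma Gm_pos {a b : ℝ} (ha : 0 < a) (hb : 0 < b) (x : ℝ) : (Gm a b x).PosDef := by
  refine Matrix.PosDef.of_dotProduct_mulVec_pos ?_ fun u hu => ?_
  · apply ext4 <;> simp [Gm]
  · have e : star u ⬝ᵥ Gm a b x *ᵥ u =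
        a * u 0 ^ 2 + b * u 1 ^ 2 + (u 2 - x * u 1) ^ 2 / a + u 3 ^ 2 / b := by
      simp [Gm, dotProduct, Matrix.mulVec, Fin.sum_univ_four]
      ring
    rw [e]
    by_contra h
    have h0 : 0 ≤ a * u 0 ^ 2 := by positivity
    have h1 : 0 ≤ b * u 1 ^ 2 := by positivity
    have h2 : 0 ≤ (u 2 - x * u 1) ^ 2 / a := by positivity
    have h3 : 0 ≤ u 3 ^ 2 / b := by positivity
    have k0 : a * u 0 ^ 2 = 0 := by linarith
    have k1 : b * u 1 ^ 2 = 0 := by linarith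
    have k2 : (u 2 - x * u 1) ^ 2 / a = 0 := by linarith
    have k3 : u 3 ^ 2 / b = 0 := by linarith
    simp only [mul_eq_zero, div_eq_zero_iff, ha.ne', hb.ne', false_or, or_false, ne_eq,
      OfNat.ofNat_ne_zero, not_false_eq_true, pow_eq_zero_iff] at k0 k1 k2 k3
    rw [k1, mul_zero, sub_zero] at k2
    exact hu (funext (all4 k0 k1 k2 k3))

lemma smooth_ent {E : Type} [NormedAddCommGroup E] [NormedSpace ℝ E] {S : Set E} {a b x : E → ℝ}
    (ha : ContDiffOn ℝ ∞ a S) (hb : ContDiffOn ℝ ∞ b S) (hx : ContDiffOn ℝ ∞ x S)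
    (ha0 : ∀ y ∈ S, a y ≠ 0) (hb0 : ∀ y ∈ S, b y ≠ 0) :
    ∀ p q, ContDiffOn ℝ ∞ (fun y => Gm (a y) (b y) (x y) p q) S ∧
      ContDiffOn ℝ ∞ (fun y => Jm (a y) (b y) (x y) p q) S := by
  refine all4 ?_ ?_ ?_ ?_ <;> refine all4 ?_ ?_ ?_ ?_ <;>
    simp only [Gm, Jm, Matrix.of_apply, Matrix.cons_val, Matrix.cons_val_zero,
      Matrix.cons_val_one] <;>
    constructor <;> fun_prop (disch := assumption)

lemma isAK {a b : ℝ} (ha : 0 < a) (hb : 0 < b) : IsAK (fx (Gm a b)) (fx (Jm a b)) := by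
  refine ⟨fun p => Gm_pos ha hb _, fun p => Jm_sq ha.ne' hb.ne' _,
    fun p => Jm_herm ha.ne' hb.ne' _, fun e he p q => ?_, fun e he z _ => ?_⟩
  · obtain rfl := chartedSpaceSelf_atlas.1 he
    rw [form2_refl, endo_refl]
    exact smooth_ent (x := fun z : Fin 4 → ℝ => z 0) contDiffOn_const contDiffOn_const
      (contDiff_apply ℝ ℝ 0).contDiffOn (fun _ _ => ha.ne') (fun _ _ => hb.ne') p q
  · obtain rfl := chartedSpaceSelf_atlas.1 he
    rw [form2_refl, endo_refl, om_eq ha.ne' hb.ne']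
    exact Om_closed z

/-- The fifth root of 1 + 5t/2. -/
noncomputable def sc (t : ℝ) : ℝ := Real.exp (Real.log (1 + 5 / 2 * t) / 5)

lemma sc_pos (t : ℝ) : 0 < sc t := Real.exp_pos _

lemma sc_deriv {t : ℝ} (ht : 0 < t) : HasDerivAt sc (1 / (2 * sc t ^ 4)) t := by
  have h0 : 0 < 1 + 5 / 2 * t := by positivity
  have h5 : sc t ^ 5 = 1 + 5 / 2 * t := by
    rw [sc, ← Real.exp_nat_mul, Nat.cast_ofNat, mul_div_cancel₀ _ (by norm_num), Real.exp_log h0]
  have h := (((((hasDerivAt_id' t).const_mul (5 / 2 : ℝ)).const_add 1).log h0.ne').div_const 5).exp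
  refine h.congr_deriv ?_
  change sc t * _ = _
  have := (sc_pos t).ne'
  rw [← h5]
  field_simp

lemma Jm_deriv {a b : ℝ → ℝ} {t : ℝ} (ha : HasDerivAt a (1 / (a t * b t)) t)
    (hb : HasDerivAt b (1 / (2 * a t ^ 2)) t) (ha0 : a t ≠ 0) (hb0 : b t ≠ 0) (x : ℝ) :
    ∀ p q, HasDerivAt (fun s => Jm (a s) (b s) x p q) (Jr (a t) (b t) x p q) t := by
  refine all4 ?_ ?_ ?_ ?_ <;> refine all4 ?_ ?_ ?_ ?_ <;>
    simp only [Jm, Jr, Matrix.of_apply, Matrix.cons_val, Matrix.cons_val_zero,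
      Matrix.cons_val_one] <;>
    first
    | exact hasDerivAt_const _ _
    | exact ha
    | exact hb
    | exact ((hasDerivAt_const t _).fun_div ha ha0).congr_deriv (by field_simp; ring)
    | exact ((hasDerivAt_const t _).fun_div hb hb0).congr_deriv (by field_simp; ring)

/-- The solution exists for all positive times. -/
theorem isFlow (T : ℝ) : IsFlow T (fun t => fx (Gm (sc t ^ 2) (sc t)))
    fun t => fx (Jm (sc t ^ 2) (sc t)) := by
  have h2 : ∀ t, 0 < sc t ^ 2 := fun t => pow_pos (sc_pos t) 2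
  refine ⟨fun t _ => isAK (h2 t) (sc_pos t), fun e he p q => ?_, fun e he t ht => ?_⟩
  · obtain rfl := chartedSpaceSelf_atlas.1 he
    simp only [form2_refl, endo_refl]
    have hs : ContDiffOn ℝ ∞ (fun y : ℝ × (Fin 4 → ℝ) => sc y.1)
        (Ico 0 T ×ˢ (OpenPartialHomeomorph.refl (Fin 4 → ℝ)).target) :=
      (((contDiff_const.add (contDiff_const.mul contDiff_fst)).contDiffOn.log fun y hy => by
        have := hy.1.1
        positivity).div_const 5).exp
    exact smooth_ent (x := fun y : ℝ × (Fin 4 → ℝ) => y.2 0) (hs.pow 2) hs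
      ((contDiff_apply ℝ ℝ 0).comp contDiff_snd).contDiffOn (fun _ _ => (h2 _).ne')
      (fun _ _ => (sc_pos _).ne') p q
  · obtain rfl := chartedSpaceSelf_atlas.1 he
    have h0 := (sc_pos t).ne'
    simp only [form2_refl, endo_refl]
    refine ⟨_, fun z _ => ⟨isChern (h2 t).ne' h0 z, fun p q => ⟨?_, ?_⟩⟩⟩
    · simp only [fun s => om_eq (h2 s).ne' (sc_pos s).ne', Pc_eq (h2 t).ne' h0, Matrix.zero_apply,
        neg_zero]
      exact hasDerivAt_const t _
    · rw [Jrhs_eq (h2 t).ne' h0]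
      exact Jm_deriv (a := fun s => sc s ^ 2) (b := sc)
        (((sc_deriv ht.1).fun_pow 2).congr_deriv (by field_simp; ring))
        ((sc_deriv ht.1).congr_deriv (by field_simp)) (h2 t).ne' h0 _ p q

lemma DJ_ne {a b : ℝ} (ha : a ≠ 0) (hb : b ≠ 0) (z : Fin 4 → ℝ) :
    DJ (fx (Gm a b)) (fx (Jm a b)) 0 z ≠ 0 := fun h => by
  have := congrFun (congrFun h 0) 1
  rw [DJ_eq ha hb] at this
  simp [fx, Sj, Sj0, ha] at this

lemma Jrhs_ne {a b : ℝ} (ha : a ≠ 0) (hb : b ≠ 0) (z : Fin 4 → ℝ) :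
    Jrhs (fx (Gm a b)) (fx (Jm a b)) z ≠ 0 := fun h => by
  have := congrFun (congrFun h 2) 0
  rw [Jrhs_eq ha hb] at this
  simp [Jr, ha, hb] at this

end KT

end Pool.Agent.P.MP_8fdf05_gt
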