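import Pool.Agent.P.MP_8fdf05_gt.Kill

/-! Evaluation at a point in an orthogonal frame of vector fields. -/

open Matrix Finset

namespace Pool.Agent.P.MP_8fdf05_gt

noncomputable section

variable {ι : Type} [Fintype ι] [DecidableEq ι] {A : Type} [CommRing A] [Algebra ℝ A]

/-- A point with a frame of vector fields that is orthogonal at the point. -/
structure Frame (m : Geo ι A) where
  e : A →ₐ[ℝ] ℝ
  Fr : ι → ι → A
  cc : ι → ℝ
  nn : ι → ℝ
  hc : ∀ z, cc z ≠ 0
  hn : ∀ z, nn z ≠ 0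
  hF : ∀ z, (fun i => e (Fr z i)) = Pi.single z (cc z)
  hg : m.g.map e = diagonal fun z => nn z / cc z ^ 2

namespace Frame

variable {m : Geo ι A} (f : Frame m)

lemma eF (z i : ι) : f.e (f.Fr z i) = if i = z then f.cc z else 0 := by
  have := congrFun (f.hF z) i
  rwa [Pi.single_apply] at this

lemma eg (i j : ι) : f.e (m.g i j) = if i = j then f.nn i / f.cc i ^ 2 else 0 := by
  have := congrFun (congrFun f.hg i) j
  rwa [diagonal_apply] at this

lemma egi (i j : ι) : f.e (m.gi i j) = if i = j then f.cc i ^ 2 / f.nn i else 0 := by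
  have h := congrArg f.e (congrFun (congrFun m.g_gi i) j)
  simp only [Matrix.mul_apply, map_sum, map_mul, eg, ite_mul, zero_mul, sum_ite_eq, mem_univ,
    if_true, Matrix.one_apply, apply_ite f.e, map_one, map_zero] at h
  have h1 := f.hc i; have h2 := f.hn i
  split_ifs at h ⊢ with hij
  · field_simp at h ⊢; linarith
  · simpa [h1, h2] using h

/-- The matrix of an endomorphism in the frame. -/
def fr (B : Matrix ι ι A) : Matrix ι ι ℝ := Matrix.of fun z y => f.e (B z y) * f.cc y / f.cc z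

lemma fr_mul (B B' : Matrix ι ι A) : f.fr (B * B') = f.fr B * f.fr B' := by
  ext z y
  simp only [fr, of_apply, Matrix.mul_apply, map_sum, map_mul, sum_mul, sum_div]
  refine sum_congr rfl fun k _ => ?_
  have := f.hc k; have := f.hc z
  field_simp

lemma fr_sub (B B' : Matrix ι ι A) : f.fr (B - B') = f.fr B - f.fr B' := by
  ext z y; simp only [fr, of_apply, Matrix.sub_apply, map_sub]; ring

lemma fr_neg (B : Matrix ι ι A) : f.fr (-B) = -f.fr B := by
  ext z y; simp only [fr, of_apply, Matrix.neg_apply, map_neg]; ring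

lemma fr_sum (X : ι → A) (B : ι → Matrix ι ι A) :
    f.fr (∑ i, X i • B i) = ∑ i, f.e (X i) • f.fr (B i) := by
  ext z y
  simp only [fr, of_apply, Matrix.sum_apply, Matrix.smul_apply, smul_eq_mul, map_sum, map_mul,
    sum_mul, sum_div]
  exact sum_congr rfl fun k _ => by ring

lemma fr_Fr (z : ι) (B : ι → Matrix ι ι A) :
    f.fr (∑ i, f.Fr z i • B i) = f.cc z • f.fr (B z) := by
  simp [fr_sum, eF]

lemma e_trace (B : Matrix ι ι A) : f.e (trace B) = trace (f.fr B) := by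
  simp only [trace, Matrix.diag, map_sum, fr, of_apply]
  exact sum_congr rfl fun k _ => by have := f.hc k; field_simp

lemma e_mulVec (B : Matrix ι ι A) (y z : ι) : f.e ((B *ᵥ f.Fr y) z) = f.fr B z y * f.cc z := by
  have := f.hc z
  simp only [mulVec, dotProduct, map_sum, map_mul, eF, mul_ite, mul_zero, sum_ite_eq', mem_univ,
    if_true, fr, of_apply]
  field_simp

lemma e_gg (X Y : ι → A) :
    f.e (m.gg X Y) = ∑ z, f.nn z / f.cc z ^ 2 * f.e (X z) * f.e (Y z) := by
  simp only [Met.gg, mulVec, dotProduct, map_sum, map_mul, eg, ite_mul, zero_mul, sum_ite_eq,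
    mem_univ, if_true]
  exact sum_congr rfl fun k _ => by ring

lemma gg_FF (z y : ι) : f.e (m.gg (f.Fr z) (f.Fr y)) = if z = y then f.nn z else 0 := by
  have := f.hc z
  simp only [e_gg, eF, mul_ite, mul_zero, sum_ite_eq', mem_univ, if_true, ite_mul, zero_mul]
  by_cases h : z = y
  · subst h; simp only [if_true]; field_simp
  · simp [h, Ne.symm h]

lemma gg_FB (B : Matrix ι ι A) (z y : ι) :
    f.e (m.gg (f.Fr z) (B *ᵥ f.Fr y)) = f.nn z * f.fr B z y := by
  have := f.hc z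
  simp only [e_gg, eF, e_mulVec, mul_ite, mul_zero, ite_mul, zero_mul, sum_ite_eq', mem_univ,
    if_true]
  field_simp

lemma gg_BB (B B' : Matrix ι ι A) (y y' : ι) :
    f.e (m.gg (B *ᵥ f.Fr y) (B' *ᵥ f.Fr y')) = ∑ z, f.nn z * f.fr B z y * f.fr B' z y' := by
  simp only [e_gg, e_mulVec]
  exact sum_congr rfl fun z _ => by have := f.hc z; field_simp

lemma fr_J (z y : ι) : f.nn z * f.fr m.J z y = -(f.cc z * f.cc y * f.e (m.om z y)) := by
  rw [← gg_FB, Met.gg, mulVec_mulVec, Geo.om, m.Jt_g]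
  simp only [mulVec, dotProduct, map_sum, map_mul, eF, mul_ite, mul_zero, ite_mul, zero_mul,
    sum_ite_eq', mem_univ, if_true, Matrix.neg_apply, map_neg]
  ring

/-- The Ricci curvature in the direction of a Killing field of the frame. -/
lemma ric (k : ι) (hk : m.Kg (f.Fr k)) : 2 * f.e (f.Fr k ⬝ᵥ m.Ric *ᵥ f.Fr k) = ∑ x,
    (-f.e (m.vd (f.Fr x) (m.vd (f.Fr x) (m.gg (f.Fr k) (f.Fr k)))) +
      2 * ∑ z, f.nn z * f.fr (m.Am (f.Fr k)) z x * f.fr (m.Am (f.Fr k)) z x -
      2 * ∑ z, f.nn z * f.fr (m.Am (f.Fr x)) z x * f.fr (m.Am (f.Fr k)) z k) / f.nn x := by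
  rw [m.Ric_KK, map_sum, mul_sum]
  refine sum_congr rfl fun x _ => ?_
  have h := congrArg f.e (hk.sec (f.Fr x))
  simp only [map_mul, map_sub, map_add, map_neg, map_ofNat, gg_BB] at h
  rw [← h, gg_FB, fr_Fr, e_mulVec, Matrix.smul_apply, smul_eq_mul]
  have := f.hn x
  field_simp

/-- The quadratic term in the direction of a field of the frame. -/
lemma qq (k : ι) (SS : ι → Matrix ι ι ℝ) (hS : ∀ x, f.fr (∑ i, f.Fr x i • m.S i) = SS x) :
    f.e (f.Fr k ⬝ᵥ m.Q *ᵥ f.Fr k) = -(∑ x, (∑ z, f.nn z * SS x z k * SS x z k) / f.nn x) -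
      1 / 2 * trace (SS k * SS k) := by
  rw [m.Q_KK, map_sub, map_neg, map_smul, e_trace, fr_mul, hS, smul_eq_mul]
  congr 2
  simp only [map_sum, map_mul, egi, ite_mul, zero_mul, sum_ite_eq, mem_univ, if_true, gg_BB]
  refine sum_congr rfl fun x _ => ?_
  rw [← hS, fr_Fr, mul_sum, sum_div]
  refine sum_congr rfl fun z _ => ?_
  have := f.hn x
  simp only [Matrix.smul_apply, smul_eq_mul]
  field_simp

lemma fr_S (k : ι) (hk : m.Kill (f.Fr k)) : f.fr (∑ i, f.Fr k i • m.S i) =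
    f.fr (m.Am (f.Fr k)) * f.fr m.J - f.fr m.J * f.fr (m.Am (f.Fr k)) := by
  rw [hk.S, fr_sub, fr_mul, fr_mul]

lemma fr_SJ (k : ι) : ∑ x, f.fr m.J x k • f.fr (∑ i, f.Fr x i • m.S i) =
    -(f.fr m.J * f.fr (∑ i, f.Fr k i • m.S i)) := by
  rw [← fr_mul, ← fr_neg, ← m.S_Jx, fr_sum]
  simp only [fr_Fr, e_mulVec, smul_smul]

end Frame

end

end Pool.Agent.P.MP_8fdf05_gt
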