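import Pool.Agent.P.MP_8fdf05_gt.Red
import Pool.Agent.P.MP_8fdf05_gt.Cert

open Set Filter Topology

namespace Pool.Agent.P.MP_8fdf05_gt

namespace Init1

/-! The rescaled initial data as functions of (eps, theta). -/

noncomputable def sf (z : ℝ × ℝ) : ℝ := √(1 - 5 / 2 * z.2 * z.1 ^ 2)
noncomputable def gf (t : ℝ) : ℝ := √(1 + 11 / 4 * t)
noncomputable def Nf (z : ℝ × ℝ) : ℝ := sf z + 5 / 2 * z.2 * z.1 / (1 + sf z)
noncomputable def Df (z : ℝ × ℝ) : ℝ := 2 - z.1 * Nf z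
noncomputable def N2 (z : ℝ × ℝ) : ℝ := gf z.2 * sf z ^ 2 + 5 / 2 * z.2 * z.1
noncomputable def D2 (z : ℝ × ℝ) : ℝ := 2 - z.1 * N2 z
noncomputable def qf (z : ℝ × ℝ) : ℝ := (1 + sf z) * Nf z / (2 * Df z)
noncomputable def Wf (z : ℝ × ℝ) : ℝ := 5 / 2 * z.2 * Df z / (2 * (1 + sf z) * Nf z)
noncomputable def pf (z : ℝ × ℝ) : ℝ := sf z ^ 2 * N2 z / D2 z
noncomputable def Xf (z : ℝ × ℝ) : ℝ :=
  -1 / sf z + 2 * (z.2 * sf z + 5 / 2 * (1 - z.1) * z.2 * z.1 / sf z) / (Nf z * Df z)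
noncomputable def Hf (z : ℝ × ℝ) : ℝ :=
  (Xf z + 9 / 25 * ((qf z - Wf z) / (qf z + Wf z))) ^ 2 +
    16 / 9 * ((qf z + Wf z) / pf z - 33 / 25) ^ 2 - 16 / 25

lemma sf0 (t : ℝ) : sf (0, t) = 1 := by simp [sf]
lemma Nf0 (t : ℝ) : Nf (0, t) = 1 := by simp [Nf, sf0]
lemma Df0 (t : ℝ) : Df (0, t) = 2 := by simp [Df]
lemma N20 (t : ℝ) : N2 (0, t) = gf t := by simp [N2, sf0]
lemma D20 (t : ℝ) : D2 (0, t) = 2 := by simp [D2]
lemma qf0 (t : ℝ) : qf (0, t) = 1 / 2 := by rw [qf, sf0, Nf0, Df0]; norm_num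
lemma Wf0 (t : ℝ) : Wf (0, t) = 5 / 4 * t := by rw [Wf, sf0, Nf0, Df0]; ring
lemma pf0 (t : ℝ) : pf (0, t) = gf t / 2 := by rw [pf, sf0, N20, D20]; norm_num
lemma Xf0 (t : ℝ) : Xf (0, t) = t - 1 := by rw [Xf, sf0, Nf0, Df0]; ring

lemma c_sf : Continuous sf := by unfold sf; fun_prop

lemma c_Nf (t : ℝ) : ContinuousAt Nf (0, t) :=
  c_sf.continuousAt.add (ContinuousAt.div (by fun_prop) (continuousAt_const.add c_sf.continuousAt)
    (by rw [sf0]; norm_num))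

lemma c_Df (t : ℝ) : ContinuousAt Df (0, t) :=
  continuousAt_const.sub (continuousAt_fst.mul (c_Nf t))

lemma c_N2 (t : ℝ) : ContinuousAt N2 (0, t) :=
  (ContinuousAt.mul (by unfold gf; fun_prop) (c_sf.continuousAt.pow 2)).add (by fun_prop)

lemma c_D2 (t : ℝ) : ContinuousAt D2 (0, t) :=
  continuousAt_const.sub (continuousAt_fst.mul (c_N2 t))

lemma c_qf (t : ℝ) : ContinuousAt qf (0, t) :=
  ContinuousAt.div ((continuousAt_const.add c_sf.continuousAt).mul (c_Nf t))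
    (continuousAt_const.mul (c_Df t)) (by rw [Df0]; norm_num)

lemma c_Wf (t : ℝ) : ContinuousAt Wf (0, t) :=
  ContinuousAt.div (ContinuousAt.mul (by fun_prop) (c_Df t))
    ((continuousAt_const.mul (continuousAt_const.add c_sf.continuousAt)).mul (c_Nf t))
    (by rw [sf0, Nf0]; norm_num)

lemma c_pf (t : ℝ) : ContinuousAt pf (0, t) :=
  ContinuousAt.div ((c_sf.continuousAt.pow 2).mul (c_N2 t)) (c_D2 t) (by rw [D20]; norm_num)

lemma c_Xf (t : ℝ) : ContinuousAt Xf (0, t) := by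
  have h1 : sf (0, t) ≠ 0 := by rw [sf0]; norm_num
  refine (continuousAt_const.div c_sf.continuousAt h1).add (ContinuousAt.div
    (continuousAt_const.mul ((continuousAt_snd.mul c_sf.continuousAt).add
      (ContinuousAt.div (by fun_prop) c_sf.continuousAt h1))) ((c_Nf t).mul (c_Df t)) ?_)
  rw [Nf0, Df0]; norm_num

lemma gf_pos {t : ℝ} (ht : 0 ≤ t) : 0 < gf t := by unfold gf; positivity

lemma c_Hf {t : ℝ} (ht : 0 ≤ t) : ContinuousAt Hf (0, t) := by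
  have h1 : qf (0, t) + Wf (0, t) ≠ 0 := by rw [qf0, Wf0]; positivity
  have h2 : pf (0, t) ≠ 0 := by rw [pf0]; exact (half_pos (gf_pos ht)).ne'
  exact ((((c_Xf t).add (continuousAt_const.mul
    (((c_qf t).sub (c_Wf t)).div ((c_qf t).add (c_Wf t)) h1))).pow
    2).add (continuousAt_const.mul (((((c_qf t).add (c_Wf t)).div (c_pf t) h2).sub
      continuousAt_const).pow 2))).sub continuousAt_const

/-- Table of coefficients. -/
def tD : List (List ℤ) :=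
  [[3617185512883426454622308308877312], [624396171668900366754787287367680],
    [34565399770980422810703023308800], [27501780243193188581376000000],
    [-77500087656190566727680000000], [-3760395779823982018560000000],
    [-88538310268475443200000000], [-1191458007979200000000000], [-9344509580812500000000],
    [-40653852539062500000], [-81091461181640625]]

lemma chkD : Cert.check 4 tD = true := by decide +kernel

lemma Hf0 {t : ℝ} (ht : t ∈ Icc (0 : ℝ) 1) : Hf (0, t) < -1 / 30 := by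
  obtain ⟨h0, h1⟩ := ht
  have g0 := gf_pos h0
  have g2 : gf t ^ 2 = 1 + 11 / 4 * t := Real.sq_sqrt (by positivity)
  rw [Hf, Xf0, qf0, Wf0, pf0]
  generalize gf t = g at g0 g2
  have g1 : 1 ≤ g := by nlinarith
  have g3 : g ≤ 31 / 16 := by nlinarith
  obtain ⟨w, hw⟩ : ∃ w, g = 47 / 32 + 15 / 32 * w := ⟨(32 * g - 47) / 15, by ring⟩
  have h2 := Cert.sound 4 tD chkD (16 * w) 0 (abs_le.2 ⟨by linarith, by linarith⟩) (by norm_num)
  have ha : 0 < 2 + 5 * t := by positivity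
  have e : 398247365812000179304645263360000 * ((2 + 5 * t) ^ 2 * g ^ 2) *
      (-1 / 30 - ((t - 1 + 9 / 25 * ((1 / 2 - 5 / 4 * t) / (1 / 2 + 5 / 4 * t))) ^ 2 +
        16 / 9 * ((1 / 2 + 5 / 4 * t) / (g / 2) - 33 / 25) ^ 2 - 16 / 25)) =
      Cert.ev2 (16 * w) 0 tD := by
    have e1 : (1 / 2 - 5 / 4 * t) / (1 / 2 + 5 / 4 * t) = (2 - 5 * t) / (2 + 5 * t) := by
      rw [div_eq_div_iff (by positivity) ha.ne']; ring
    have e2 : (2 + 5 * t) ^ 2 * g ^ 2 * (-1 / 30 - ((t - 1 + 9 / 25 * ((2 - 5 * t) / (2 + 5 * t))) ^ 2 +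
        16 / 9 * ((1 / 2 + 5 / 4 * t) / (g / 2) - 33 / 25) ^ 2 - 16 / 25)) =
        -(((t - 1) * (2 + 5 * t) + 9 / 25 * (2 - 5 * t)) ^ 2 * g ^ 2 +
          16 / 9 * (1 + 5 / 2 * t - 33 / 25 * g) ^ 2 * (2 + 5 * t) ^ 2 -
          (16 / 25 - 1 / 30) * (2 + 5 * t) ^ 2 * g ^ 2) := by
      field_simp
      ring
    rw [e1, mul_assoc, e2, show t = 4 / 11 * (g ^ 2 - 1) by linarith, hw]
    simp only [tD, Cert.ev2, Cert.ev1]
    push_cast
    ring
  rw [← e] at h2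
  exact sub_pos.1 ((mul_pos_iff_of_pos_left (by positivity)).1 h2)

lemma exists_delta : ∃ δ > (0 : ℝ), δ ≤ 1 / 100 ∧ ∀ e ∈ Icc (0 : ℝ) δ, ∀ t ∈ Icc (0 : ℝ) 1,
    Hf (e, t) < -1 / 30 ∧ qf (e, t) ^ 2 < 21 / 80 := by
  have h1 : ∀ᶠ e in 𝓝 (0 : ℝ), ∀ t ∈ Icc (0 : ℝ) 1,
      Hf (e, t) < -1 / 30 ∧ qf (e, t) ^ 2 < 21 / 80 :=
    isCompact_Icc.eventually_forall_of_forall_eventually
      (P := fun e t => Hf (e, t) < -1 / 30 ∧ qf (e, t) ^ 2 < 21 / 80) fun t ht =>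
        ((c_Hf ht.1).eventually (gt_mem_nhds (Hf0 ht))).and
          (((c_qf t).pow 2).eventually (gt_mem_nhds (by rw [Pi.pow_apply, qf0]; norm_num)))
  obtain ⟨a, ha, h1⟩ := Metric.eventually_nhds_iff.1 h1
  refine ⟨min (1 / 100) (a / 2), by positivity, min_le_left _ _, fun e he t ht => h1 ?_ t ht⟩
  have := he.2.trans (min_le_right _ _)
  rw [Real.dist_eq, sub_zero, abs_of_nonneg he.1]
  linarith

/-- The rescaled quantities in closed form. -/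
lemma closed {s e e' t : ℝ} (hs : 0 < s) (hs1 : s < 1) (he : 0 < e) (he1 : e < 1)
    (h : 5 / 2 * t * e ^ 2 = 1 - s ^ 2) (h' : e * gf t = e') (a3 : 0 < 1 + (1 - e') * s ^ 2) :
    e * qf (e, t) = (1 - (1 - e) * s) / (1 + (1 - e) * s) * ((1 + s) / 2) ∧
    e * Wf (e, t) = (1 - s) * (1 + (1 - e) * s) / (2 * (1 - (1 - e) * s)) ∧
    e * pf (e, t) = s ^ 2 * ((1 - (1 - e') * s ^ 2) / (1 + (1 - e') * s ^ 2)) ∧
    Xf (e, t) = 2 * (1 - s ^ 2) * (1 - e + 2 / 5 * s ^ 2 / e) /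
      (s * ((1 - (1 - e) * s) * (1 + (1 - e) * s))) - 1 / s := by
  have hsf : sf (e, t) = s := by
    rw [sf]
    simp only
    rw [h, sub_sub_cancel, Real.sqrt_sq hs.le]
  have ht : t = 2 / 5 * (1 - s ^ 2) / e ^ 2 := by field_simp; linarith
  have hl : 0 < 1 - e := by linarith
  have a1 : 0 < 1 - (1 - e) * s := by nlinarith
  have a2 : 0 < 1 + (1 - e) * s := by positivity
  have a4 : 0 < 1 + s := by positivity
  have hN : Nf (e, t) = (1 - (1 - e) * s) / e := by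
    rw [Nf, hsf]; simp only; rw [ht]; field_simp; ring
  have hD : Df (e, t) = 1 + (1 - e) * s := by
    rw [Df, hN]; simp only; field_simp; ring
  have hN2 : N2 (e, t) = (1 - (1 - e') * s ^ 2) / e := by
    rw [N2, hsf, eq_div_iff he.ne', ← h']
    linear_combination h
  have hD2 : D2 (e, t) = 1 + (1 - e') * s ^ 2 := by
    rw [D2, hN2]; simp only; field_simp; ring
  refine ⟨?_, ?_, ?_, ?_⟩
  · rw [qf, hsf, hN, hD]; field_simp
  · rw [Wf, hsf, hN, hD]; simp only; rw [ht]; field_simp; ring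
  · rw [pf, hsf, hN2, hD2]; field_simp
  · rw [Xf, hsf, hN, hD]; simp only; rw [ht]; field_simp; ring

/-- The profile of q as a function of s. -/
noncomputable def gq (η s : ℝ) : ℝ :=
  (1 - (1 - √(η ^ 2 + 2 / 5 * (1 - s ^ 2))) * s) / (1 + (1 - √(η ^ 2 + 2 / 5 * (1 - s ^ 2))) * s) *
    ((1 + s) / 2)

lemma hasDerivAt_gq {η s e : ℝ} (hs : 0 < s) (hs1 : s < 1) (he : 0 < e) (he1 : e < 1)
    (hd : e = √(η ^ 2 + 2 / 5 * (1 - s ^ 2))) :
    HasDerivAt (gq η) (gq η s * (1 / (1 + s) - 2 * (1 - e + 2 / 5 * s ^ 2 / e) /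
      ((1 - (1 - e) * s) * (1 + (1 - e) * s)))) s := by
  have hpos : η ^ 2 + 2 / 5 * (1 - s ^ 2) ≠ 0 := (Real.sqrt_pos.1 (hd ▸ he)).ne'
  have h1 : HasDerivAt (fun s : ℝ => η ^ 2 + 2 / 5 * (1 - s ^ 2)) (2 / 5 * (-(2 * s))) s := by
    simpa using (((hasDerivAt_pow 2 s).const_sub 1).const_mul (2 / 5)).const_add (η ^ 2)
  have h2 := ((h1.sqrt hpos).const_sub 1).mul (hasDerivAt_id' s)
  have hl : 0 < 1 - e := by linarith
  have a1 : 0 < 1 - (1 - e) * s := by nlinarith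
  have a2 : 0 < 1 + (1 - e) * s := by positivity
  have a4 : 0 < 1 + s := by positivity
  have h3 := ((h2.const_sub 1).div (h2.const_add 1) (by
    simp only [Pi.mul_apply]; rw [← hd]; exact a2.ne')).mul
      (((hasDerivAt_id' s).const_add 1).div_const 2)
  refine HasDerivAt.congr_deriv h3 ?_
  simp only [gq, Pi.mul_apply, Pi.div_apply]
  rw [← hd]
  have e1 : -(2 / 5 * -(2 * s) / (2 * e)) * s + (1 - e) * 1 = 1 - e + 2 / 5 * s ^ 2 / e := by
    field_simp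
    ring
  rw [e1]
  generalize 1 - e + 2 / 5 * s ^ 2 / e = v
  generalize (1 - e) * s = u at a1 a2
  field_simp
  ring

variable {m : ℕ} {T : ℝ}

lemma ev_der_y (a : Sm (D1 T)) (x : (D1 T).S) {f : ℝ → ℝ} {f' : ℝ} (hf : HasDerivAt f f' x.1.2)
    (h : ∀ y (hy : y ∈ Ioo (0 : ℝ) 1), Sm.ev (⟨(x.1.1, y), x.2.1, hy⟩ : (D1 T).S) a = f y) :
    Sm.ev x (Sm.der (0, 1) a) = f' := by
  obtain ⟨L, h1, h2⟩ := a.hasFDerivAt_space x
  rw [← h2]
  refine h1.hasDerivAt.unique (hf.congr_of_eventuallyEq ?_)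
  filter_upwards [isOpen_Ioo.mem_nhds x.2.2] with y hy
  rw [← h y hy, Sm.ev_eq]

/-- The initial values at a point. -/
lemma values (R : Red m T) {η : ℝ} (hη : η ∈ Ioo (0 : ℝ) (1 / 10)) (hI : R.Init η) (x : (D1 T).S)
    (hx : x.1.1 = 0) : ∃ s e e' : ℝ, 0 < s ∧ s < 1 ∧ 0 < e ∧ e < 1 ∧ 0 < Sm.ev x R.r ∧
      4 * Sm.ev x R.r ^ 2 = 1 - s ^ 2 ∧ e ^ 2 = η ^ 2 + 2 / 5 * (1 - s ^ 2) ∧
      (0 ≤ e' ∧ e' ^ 2 = η ^ 2 + 3 / 2 * (1 - s ^ 2)) ∧
      Sm.ev x R.q = (1 - (1 - e) * s) / (1 + (1 - e) * s) * ((1 + s) / 2) ∧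
      Sm.ev x R.W = (1 - s) * (1 + (1 - e) * s) / (2 * (1 - (1 - e) * s)) ∧
      Sm.ev x R.p = s ^ 2 * ((1 - (1 - e') * s ^ 2) / (1 + (1 - e') * s ^ 2)) ∧
      Sm.ev x R.r * (Sm.ev x (R.d R.q) / Sm.ev x R.q - Sm.ev x (R.d R.W) / Sm.ev x R.W) / 2 =
        2 * (1 - s ^ 2) * (1 - e + 2 / 5 * s ^ 2 / e) /
          (s * ((1 - (1 - e) * s) * (1 + (1 - e) * s))) - 1 / s := by
  obtain ⟨⟨t, y⟩, ht, hy⟩ := x
  obtain rfl : t = 0 := hx
  have hq : ∀ y (hy : y ∈ Ioo (0 : ℝ) 1), Sm.ev (⟨((0 : ℝ), y), ht, hy⟩ : (D1 T).S) R.q =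
      gq η ((1 - y ^ 2) / (1 + y ^ 2)) := fun y hy => by
    rw [R.eQ, (hI y (Ioo_subset_Icc_self hy) _ _ _ rfl rfl rfl).1, gq, div_eq_mul_one_div _ (1 + y ^ 2)]
    congr 1
    field_simp
    ring
  have hr : ∀ y (hy : y ∈ Ioo (0 : ℝ) 1), 
      Sm.ev (⟨((0 : ℝ), y), ht, hy⟩ : (D1 T).S) R.r = y / (1 + y ^ 2) := fun y hy => by
      rw [R.eE, (hI y (Ioo_subset_Icc_self hy) _ _ _ rfl rfl rfl).2.2]
      simp only
      ring
  obtain ⟨y0, y1⟩ : 0 < y ∧ y < 1 := hy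
  have hy : y ∈ Ioo (0 : ℝ) 1 := ⟨y0, y1⟩
  have b1 : 0 < 1 + y ^ 2 := by positivity
  have b2 : 0 < 1 - y ^ 2 := by nlinarith
  set s := (1 - y ^ 2) / (1 + y ^ 2) with hsd
  set e := √(η ^ 2 + 2 / 5 * (1 - s ^ 2)) with hed
  set e' := √(η ^ 2 + 3 / 2 * (1 - s ^ 2)) with hed'
  have hs : 0 < s := by positivity
  have hs1 : s < 1 := by rw [hsd, div_lt_one b1]; nlinarith
  have b3 : 0 < η ^ 2 + 2 / 5 * (1 - s ^ 2) := by nlinarith [hη.1]
  have he : 0 < e := Real.sqrt_pos.2 b3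
  have he2 : e ^ 2 = η ^ 2 + 2 / 5 * (1 - s ^ 2) := Real.sq_sqrt b3.le
  have he1 : e < 1 := by
    by_contra hc
    nlinarith [hη.1, hη.2]
  have hl : 0 < 1 - e := by linarith
  have a1 : 0 < 1 - (1 - e) * s := by nlinarith
  have a2 : 0 < 1 + (1 - e) * s := by positivity
  have a4 : 0 < 1 + s := by positivity
  have a5 : 0 < 1 - s := by linarith
  set x : (D1 T).S := ⟨((0 : ℝ), y), ht, hy⟩ with hxd
  have r0 : Sm.ev x R.r = y / (1 + y ^ 2) := hr y hy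
  have r1 : 4 * Sm.ev x R.r ^ 2 = 1 - s ^ 2 := by rw [r0, hsd]; field_simp; ring
  have r2 : 0 < Sm.ev x R.r := by rw [r0]; positivity
  have q0 : Sm.ev x R.q = (1 - (1 - e) * s) / (1 + (1 - e) * s) * ((1 + s) / 2) := hq y hy
  have q1 : 0 < Sm.ev x R.q := by rw [q0]; positivity
  have sq : Sm.ev x R.r ^ 2 = Sm.ev x R.q * Sm.ev x R.W := by
    rw [← map_pow, R.sq, map_mul]
  have W0 : Sm.ev x R.W = (1 - s) * (1 + (1 - e) * s) / (2 * (1 - (1 - e) * s)) := by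
    have : Sm.ev x R.W = (1 - s ^ 2) / 4 / Sm.ev x R.q := by
      rw [← r1, eq_div_iff q1.ne']; linarith
    rw [this, q0]; field_simp; ring
  have W1 : 0 < Sm.ev x R.W := by rw [W0]; positivity
  have p0 : Sm.ev x R.p = s ^ 2 * ((1 - (1 - e') * s ^ 2) / (1 + (1 - e') * s ^ 2)) := by
    rw [R.eA, (hI y (Ioo_subset_Icc_self hy) s (1 - e) (1 - e') rfl rfl rfl).2.1]
    generalize (1 - (1 - e') * s ^ 2) / (1 + (1 - e') * s ^ 2) = u
    simp only [hxd, hsd]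
    field_simp
  have d1 : HasDerivAt (fun y : ℝ => 1 + y ^ 2) (2 * y) y := by
    simpa using (hasDerivAt_pow 2 y).const_add 1
  have d2 : HasDerivAt (fun y : ℝ => 1 - y ^ 2) (-(2 * y)) y := by
    simpa using (hasDerivAt_pow 2 y).const_sub 1
  have ry : Sm.ev x (Sm.der (0, 1) R.r) = s / (1 + y ^ 2) := by
    refine ev_der_y R.r x (f := fun y => y / (1 + y ^ 2)) ?_ hr
    refine ((hasDerivAt_id' y).div d1 b1.ne').congr_deriv ?_
    rw [hsd]; field_simp; ring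
  have ryi : Sm.ev x R.ryi = (1 + y ^ 2) / s := by
    have := congrArg (Sm.ev x) R.hry
    rw [map_mul, map_one, ry] at this
    field_simp at this ⊢
    linarith
  have qy := ev_der_y R.q x (f := fun y => gq η ((1 - y ^ 2) / (1 + y ^ 2)))
    (HasDerivAt.comp (h₂ := gq η) (h := fun y : ℝ => (1 - y ^ 2) / (1 + y ^ 2)) y
      (hasDerivAt_gq hs hs1 he he1 hed) (d2.div d1 b1.ne')) hq
  have dq : Sm.ev x (R.d R.q) = Sm.ev x R.q * (1 / (1 + s) - 2 * (1 - e + 2 / 5 * s ^ 2 / e) /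
      ((1 - (1 - e) * s) * (1 + (1 - e) * s))) * (-4 * Sm.ev x R.r / s) := by
    have : R.d R.q = R.ryi * Sm.der (0, 1) R.q := rfl
    rw [this, map_mul, qy, ryi, hq y hy, r0]
    generalize gq η s * (1 / (1 + s) - 2 * (1 - e + 2 / 5 * s ^ 2 / e) /
      ((1 - (1 - e) * s) * (1 + (1 - e) * s))) = u
    field_simp
    ring
  have dr : R.d R.r = 1 := by
    have : R.d R.r = R.ryi * Sm.der (0, 1) R.r := rfl
    rw [this, mul_comm, R.hry]
  have dW : 2 * Sm.ev x R.r = Sm.ev x R.q * Sm.ev x (R.d R.W) + Sm.ev x R.W * Sm.ev x (R.d R.q) := by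
    have h := congrArg R.d R.sq
    rw [pow_two, Derivation.leibniz, Derivation.leibniz, dr] at h
    have := congrArg (Sm.ev x) h
    simp only [smul_eq_mul, map_add, map_mul, mul_one] at this
    linarith
  refine ⟨s, e, e', hs, hs1, he, he1, r2, r1, he2,
    ⟨Real.sqrt_nonneg _, Real.sq_sqrt (by nlinarith [sq_nonneg η])⟩, q0, W0, p0, ?_⟩
  have e1 : Sm.ev x R.r * (Sm.ev x (R.d R.q) / Sm.ev x R.q - Sm.ev x (R.d R.W) / Sm.ev x R.W) / 2 =
      Sm.ev x R.r * (Sm.ev x (R.d R.q) / Sm.ev x R.q) - 1 := by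
    have : Sm.ev x (R.d R.W) = (2 * Sm.ev x R.r - Sm.ev x R.W * Sm.ev x (R.d R.q)) / Sm.ev x R.q := by
      rw [eq_div_iff q1.ne']; linarith
    rw [this]
    field_simp
    linear_combination (-2 : ℝ) * sq
  rw [e1, dq, mul_assoc, mul_div_cancel_left₀ _ q1.ne']
  have e2 : ∀ u : ℝ, Sm.ev x R.r * (u * (-4 * Sm.ev x R.r / s)) = -(1 - s ^ 2) / s * u := by
    intro u; rw [← r1]; ring
  rw [e2]
  field_simp
  ring

lemma den_pos {s e' η : ℝ} (hs : 0 < s) (hs1 : s < 1) (hη : η ^ 2 ≤ 1 / 100)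
    (h2 : e' ^ 2 = η ^ 2 + 3 / 2 * (1 - s ^ 2)) : 0 < 1 + (1 - e') * s ^ 2 := by
  have h1 : e' < 2 := by nlinarith
  have h3 : s ^ 2 < 1 := by nlinarith
  nlinarith [mul_pos (sub_pos.2 h1) (pow_pos hs 2)]

lemma p_le {s e e' η r : ℝ} (hs : 0 < s) (hs1 : s < 1) (he : 0 < e) (he1 : e < 1) (he' : 0 ≤ e')
    (hr : 0 < r) (r1 : 4 * r ^ 2 = 1 - s ^ 2) (hη : η ^ 2 ≤ 1 / 10000)
    (h1 : e ^ 2 = η ^ 2 + 2 / 5 * (1 - s ^ 2)) (h2 : e' ^ 2 = η ^ 2 + 3 / 2 * (1 - s ^ 2)) :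
    s ^ 2 * ((1 - (1 - e') * s ^ 2) / (1 + (1 - e') * s ^ 2)) ≤
      (1 - (1 - e) * s) / (1 + (1 - e) * s) * ((1 + s) / 2) +
        (1 - s) * (1 + (1 - e) * s) / (2 * (1 - (1 - e) * s)) := by
  have a3 := den_pos hs hs1 (by linarith) h2
  have hl : 0 < 1 - e := by linarith
  have a1 : 0 < 1 - (1 - e) * s := by nlinarith
  have a2 : 0 < 1 + (1 - e) * s := by positivity
  have a5 : 0 < 1 - s := by linarith
  rcases le_total (1 / 100) r with h | h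
  · refine le_trans (b := 2 * r) ?_ ?_
    · have b1 : e' ≤ 8 / 3 * r := abs_le_of_sq_le_sq' (by nlinarith) (by positivity) |>.2
      have b2 : 1 - (1 - e') * s ^ 2 ≤ 16 / 5 * r := by
        have := mul_le_mul_of_nonneg_right b1 (sq_nonneg s)
        nlinarith [mul_nonneg hr.le (sq_nonneg (r - 3 / 16))]
      have b3 : s ^ 2 + 2 * r ≤ 5 / 4 := by nlinarith [sq_nonneg (r - 1 / 4)]
      have b4 := mul_le_mul b2 b3 (by positivity) (by positivity)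
      rw [mul_div_assoc', div_le_iff₀ a3]
      linarith
    · refine abs_le_of_sq_le_sq' ?_ (by positivity) |>.2
      have e1 : 4 * ((1 - (1 - e) * s) / (1 + (1 - e) * s) * ((1 + s) / 2)) *
          ((1 - s) * (1 + (1 - e) * s) / (2 * (1 - (1 - e) * s))) = 1 - s ^ 2 := by
        field_simp
        ring
      nlinarith [sq_nonneg ((1 - (1 - e) * s) / (1 + (1 - e) * s) * ((1 + s) / 2) -
        (1 - s) * (1 + (1 - e) * s) / (2 * (1 - (1 - e) * s)))]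
  · have b0 : 1 - s ^ 2 ≤ 1 / 2500 := by nlinarith
    have b1 : e ≤ 1 / 50 := abs_le_of_sq_le_sq' (by linarith) (by positivity) |>.2
    have b2 : e' ≤ 1 / 25 := abs_le_of_sq_le_sq' (by linarith) (by positivity) |>.2
    have b3 : e ≤ e' := abs_le_of_sq_le_sq' (by nlinarith) he' |>.2
    have b4 : 1 - s ≤ e / 20 := by nlinarith [sq_nonneg η]
    have b5 : e * (e' - e) ≤ 11 / 10 * (1 - s) := by nlinarith [sq_nonneg (e' - e)]
    have b6 : s ^ 2 ≤ s := by nlinarith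
    obtain ⟨a, ha⟩ : ∃ a, a = 1 - (1 - e) * s := ⟨_, rfl⟩
    obtain ⟨b, hb⟩ : ∃ b, b = 1 - (1 - e') * s ^ 2 := ⟨_, rfl⟩
    have c1 : a ≤ 21 / 20 * e := by nlinarith
    have c2 : b ≤ 1 / 10 := by nlinarith
    have c3 : b - a ≤ (1 - s) + (e' - e) := by
      have : b - a = s * (1 - s) * (1 - e) + s ^ 2 * (e' - e) := by rw [ha, hb]; ring
      rw [this]
      exact add_le_add (by nlinarith [mul_pos a5 he, mul_pos (mul_pos hs a5) he])
        (mul_le_of_le_one_left (by linarith) (by linarith))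
    rw [show 1 + (1 - e) * s = 2 - a by linarith, show 1 + (1 - e') * s ^ 2 = 2 - b by linarith,
      ← ha, ← hb]
    rw [← ha] at a1
    have c4 : a * (b - a) ≤ 6 / 5 * (1 - s) := by
      have := mul_le_mul c1 (le_refl ((1 - s) + (e' - e))) (by linarith) (by positivity)
      nlinarith [mul_le_mul_of_nonneg_left c3 a1.le]
    have d1 : 0 < 2 - a := by linarith
    have d2 : 0 < 2 - b := by linarith
    have c5 : s ^ 2 * (a / (2 - a)) ≤ a / (2 - a) * ((1 + s) / 2) := by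
      rw [mul_comm]
      exact mul_le_mul_of_nonneg_left (by linarith) (by positivity)
    have c6 : s ^ 2 * (b / (2 - b)) - s ^ 2 * (a / (2 - a)) ≤ (1 - s) * (2 - a) / (2 * a) := by
      have e1 : s ^ 2 * (b / (2 - b)) - s ^ 2 * (a / (2 - a)) =
          s ^ 2 * (2 * (b - a)) / ((2 - a) * (2 - b)) := by
        field_simp
        ring
      rw [e1, div_le_div_iff₀ (by positivity) (by positivity)]
      have f1 : 19 / 10 * (19 / 10 * (19 / 10)) ≤ (2 - a) * ((2 - a) * (2 - b)) :=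
        mul_le_mul (by linarith) (mul_le_mul (by linarith) (by linarith) (by norm_num) d1.le)
          (by norm_num) d1.le
      have f2 := mul_le_mul_of_nonneg_left f1 a5.le
      have f3 := mul_le_mul_of_nonneg_left c4 (sq_nonneg s)
      have f4 : s ^ 2 * (1 - s) ≤ 1 - s := mul_le_of_le_one_left a5.le (by linarith)
      linarith
    linarith

end Init1

open Init1 in
/-- The explicit initial data are good. -/
theorem init_good : ∃ r1 ∈ Ioo (0 : ℝ) (1 / 10), ∀ Q0 > (0 : ℝ), ∃ η ∈ Ioo (0 : ℝ) (1 / 10),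
    ∀ (m : ℕ) (T : ℝ), 0 < T → ∀ R : Red m T, R.Init η → R.Good r1 Q0 := by
  obtain ⟨δ, hδ, hδ1, hH⟩ := exists_delta
  refine ⟨δ / 8, ⟨by positivity, by linarith⟩, fun Q0 hQ => ?_⟩
  have hη : min (δ / 2) (Q0 / 200) ∈ Ioo (0 : ℝ) (1 / 10) :=
    ⟨by positivity, (min_le_left _ _).trans_lt (by linarith)⟩
  refine ⟨_, hη, fun m T _ R hI => ?_⟩
  have η1 := min_le_left (δ / 2) (Q0 / 200)
  have η2 := min_le_right (δ / 2) (Q0 / 200)
  generalize min (δ / 2) (Q0 / 200) = η at hη hI η1 η2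
  have η3 : η ^ 2 ≤ 1 / 10000 := by nlinarith [hη.1]
  have key : ∀ x : (D1 T).S, x.1.1 = 0 → Sm.ev x R.r ≤ 2 * (δ / 8) → ∃ e t : ℝ,
      e ∈ Icc (0 : ℝ) δ ∧ t ∈ Icc (0 : ℝ) 1 ∧ e ^ 2 = η ^ 2 + 8 / 5 * Sm.ev x R.r ^ 2 ∧
      Sm.ev x R.q = e * qf (e, t) ∧ R.HH x = Hf (e, t) := by
    intro x hx hr
    obtain ⟨s, e, e', hs, hs1, he, he1, r0, r1, e2, ⟨e3, e4⟩, q0, W0, p0, X0⟩ :=
      values R hη hI x hx
    have h : 5 / 2 * (2 / 5 * (1 - s ^ 2) / e ^ 2) * e ^ 2 = 1 - s ^ 2 := by field_simp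
    have s2 : 0 < 1 - s ^ 2 := by nlinarith
    have h' : e * gf (2 / 5 * (1 - s ^ 2) / e ^ 2) = e' := by
      refine (pow_left_inj₀ (mul_pos he (gf_pos (by positivity))).le e3 two_ne_zero).1 ?_
      rw [mul_pow, gf, Real.sq_sqrt (by positivity)]
      linear_combination 11 / 10 * h + e2 - e4
    obtain ⟨c1, c2, c3, c4⟩ := closed hs hs1 he he1 h h' (den_pos hs hs1 (by linarith) e4)
    refine ⟨e, _, ⟨he.le, ?_⟩, ⟨by positivity, ?_⟩, by linarith, q0.trans c1.symm, ?_⟩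
    · by_contra hc
      nlinarith [hη.1]
    · rw [div_le_one (by positivity)]
      nlinarith
    · rw [Red.HH, X0, q0, W0, p0, ← c1, ← c2, ← c3, ← c4, Hf, ← mul_add, ← mul_sub,
        mul_div_mul_left _ _ he.ne', mul_div_mul_left _ _ he.ne']
  refine ⟨?_, fun x hx => ?_, fun x hx => ?_, fun x hx hr => ?_, fun x hx hr => ?_⟩
  · rw [(hI 1 ⟨zero_le_one, le_rfl⟩ _ _ _ rfl rfl rfl).2.2]; norm_num
  · obtain ⟨s, e, e', hs, hs1, he, he1, r0, r1, e2, ⟨e3, e4⟩, q0, W0, p0, -⟩ := values R hη hI x hx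
    rw [q0, W0, p0]
    exact p_le hs hs1 he he1 e3 r0 r1 η3 e2 e4
  · obtain ⟨s, e, e', hs, hs1, he, he1, r0, r1, e2, -, q0, W0, p0, -⟩ := values R hη hI x hx
    have hl : 0 < 1 - e := by linarith
    have a1 : 0 < 1 - (1 - e) * s := by nlinarith
    have a2 : 0 < 1 + (1 - e) * s := by positivity
    have a5 : 0 < (1 - e) * s := by positivity
    have r3 : Sm.ev x R.r < 1 := by nlinarith
    have r4 : Sm.ev x R.r ≤ e := by
      by_contra hc
      nlinarith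
    constructor
    · have h1 : Sm.ev x R.q ≤ 1 := by
        rw [q0, div_mul_div_comm, div_le_one (by positivity)]
        nlinarith
      nlinarith
    · rw [W0, div_mul_eq_mul_div, div_lt_one (by positivity)]
      have h1 : e ≤ 1 - (1 - e) * s := by nlinarith
      have h2 : (1 - s) * (1 + (1 - e) * s) ≤ 1 := by nlinarith [mul_pos he hs]
      nlinarith
  · obtain ⟨e, t, he, ht, -, -, h⟩ := key x hx hr
    rw [h]
    exact (hH e he t ht).1.le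
  · obtain ⟨e, t, he, ht, h1, q0, -⟩ := key x hx hr
    have h2 := mul_le_mul_of_nonneg_left (hH e he t ht).2.le (sq_nonneg e)
    have h3 := pow_le_pow_left₀ hη.1.le η2 2
    rw [q0, mul_pow]
    nlinarith [sq_nonneg η]

end Pool.Agent.P.MP_8fdf05_gt
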