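import Pool.Agent.P.MP_8fdf05_gt.Geo

/-! Killing fields over a differential ring. -/

open Matrix Finset

namespace Pool.Agent.P.MP_8fdf05_gt

noncomputable section

variable {ι : Type} [Fintype ι] [DecidableEq ι] {A : Type} [CommRing A] [Algebra ℝ A]

namespace Met

variable (m : Met ι A)

/-- Derivative along a vector field. -/
def vd (X : ι → A) : Derivation ℝ A A := ∑ i, X i • m.d i

lemma vd_apply (X : ι → A) (f : A) : m.vd X f = ∑ i, X i * m.d i f := by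
  have : ∀ s : Finset ι, (∑ i ∈ s, X i • m.d i) f = ∑ i ∈ s, X i * m.d i f := by
    intro s
    induction s using Finset.induction_on with
    | empty => simp
    | insert a s ha ih => rw [sum_insert ha, sum_insert ha, Derivation.add_apply, ih]; rfl
  exact this _

lemma md_vd (X : ι → A) (M : Matrix ι ι A) : md (m.vd X) M = ∑ i, X i • md (m.d i) M := by
  ext; simp [vd_apply, Matrix.sum_apply]

lemma vd_single (i : ι) (f : A) : m.vd (Pi.single i 1) f = m.d i f := by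
  simp [vd_apply, Pi.single_apply]

/-- The metric applied to two vector fields. -/
def gg (X Y : ι → A) : A := X ⬝ᵥ m.g *ᵥ Y

lemma gg_comm (X Y : ι → A) : m.gg X Y = m.gg Y X := by
  rw [gg, gg, dotProduct_mulVec, ← mulVec_transpose, m.symm, dotProduct_comm]

lemma gg_add (X Y Z : ι → A) : m.gg X (Y + Z) = m.gg X Y + m.gg X Z := by
  simp [gg, mulVec_add]
lemma gg_sub (X Y Z : ι → A) : m.gg X (Y - Z) = m.gg X Y - m.gg X Z := by
  simp [gg, mulVec_sub]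
lemma gg_neg (X Y : ι → A) : m.gg X (-Y) = -m.gg X Y := by simp [gg, mulVec_neg]

lemma Sk.gg {m : Met ι A} {B : Matrix ι ι A} (h : m.Sk B) (X Y : ι → A) :
    m.gg X (B *ᵥ Y) = -m.gg Y (B *ᵥ X) := by
  rw [Met.gg, Met.gg, mulVec_mulVec, mulVec_mulVec, dotProduct_mulVec, ← mulVec_transpose, h,
    neg_mulVec, neg_dotProduct, dotProduct_comm]

/-- Jacobian matrix of a vector field. -/
def dK (K : ι → A) : Matrix ι ι A := Matrix.of fun a b => m.d b (K a)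

lemma dK_mulVec (K X : ι → A) (a : ι) : (m.dK K *ᵥ X) a = m.vd X (K a) := by
  simp [dK, mulVec, dotProduct, vd_apply, mul_comm]

/-- Covariant derivative of a vector field. -/
def Am (K : ι → A) : Matrix ι ι A := m.dK K + ∑ k, K k • m.Γ k

/-- Lie bracket. -/
def br (X Y : ι → A) : ι → A := fun a => m.vd X (Y a) - m.vd Y (X a)

lemma Γ_mulVec (X Y : ι → A) : (∑ k, X k • m.Γ k) *ᵥ Y = (∑ k, Y k • m.Γ k) *ᵥ X := by
  ext a
  simp only [mulVec, dotProduct, Matrix.sum_apply, Matrix.smul_apply, smul_eq_mul, sum_mul]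
  rw [sum_comm]
  exact sum_congr rfl fun i _ => sum_congr rfl fun j _ => by rw [m.Γ_sw]; ring

lemma Am_sub (X Y : ι → A) : m.Am Y *ᵥ X - m.Am X *ᵥ Y = m.br X Y := by
  ext a
  simp only [Am, add_mulVec, m.Γ_mulVec Y X, Pi.sub_apply, Pi.add_apply, dK_mulVec, br]; ring

lemma br_skew (X Y : ι → A) : m.br X Y = -m.br Y X := by ext; simp [br]

lemma br_neg (X Y : ι → A) : m.br X (-Y) = -m.br X Y := by
  ext; simp [br, vd_apply]; ring

lemma dK_mul (B : Matrix ι ι A) (Y X : ι → A) :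
    m.dK (B *ᵥ Y) *ᵥ X = md (m.vd X) B *ᵥ Y + B *ᵥ (m.dK Y *ᵥ X) := by
  ext a
  rw [dK_mulVec]
  simp only [mulVec, dotProduct, map_sum, Derivation.leibniz, smul_eq_mul, Pi.add_apply, md_apply,
    ← sum_add_distrib]
  refine sum_congr rfl fun k _ => ?_
  have := m.dK_mulVec Y X k
  simp only [mulVec, dotProduct] at this
  rw [this]; ring

lemma vd_dot (Z X Y : ι → A) : m.vd Z (X ⬝ᵥ Y) = (m.dK X *ᵥ Z) ⬝ᵥ Y + X ⬝ᵥ (m.dK Y *ᵥ Z) := by
  simp only [dotProduct, dK_mulVec, map_sum, Derivation.leibniz, smul_eq_mul, ← sum_add_distrib]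
  exact sum_congr rfl fun k _ => by ring

lemma vd_g (Z : ι → A) :
    md (m.vd Z) m.g = m.g * (∑ k, Z k • m.Γ k) + (∑ k, Z k • m.Γ k)ᵀ * m.g := by
  simp only [md_vd, dg, Matrix.mul_sum, Matrix.sum_mul, transpose_sum, transpose_smul,
    Matrix.mul_smul, Matrix.smul_mul, smul_add, sum_add_distrib]

lemma vd_gg (Z X Y : ι → A) :
    m.vd Z (m.gg X Y) = m.gg (m.Am X *ᵥ Z) Y + m.gg X (m.Am Y *ᵥ Z) := by
  rw [gg, vd_dot, dK_mul, vd_g, gg, gg, Am, Am, add_mulVec, add_mulVec, add_mulVec,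
    m.Γ_mulVec X Z, m.Γ_mulVec Y Z, ← mulVec_mulVec, ← mulVec_mulVec, mulVec_add, dotProduct_add,
    dotProduct_add, dotProduct_add, add_dotProduct, dotProduct_mulVec X (_ᵀ), vecMul_transpose]
  ring

lemma Am_mul (B : Matrix ι ι A) (Y X : ι → A) :
    m.Am (B *ᵥ Y) *ᵥ X = (∑ i, X i • m.cov i B) *ᵥ Y + B *ᵥ (m.Am Y *ᵥ X) := by
  have : ∑ i, X i • m.cov i B =
      md (m.vd X) B + (∑ k, X k • m.Γ k) * B - B * ∑ k, X k • m.Γ k := by
    simp only [cov, acov, md_vd, Matrix.mul_sum, Matrix.sum_mul, Matrix.mul_smul, Matrix.smul_mul,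
      smul_add, smul_sub, sum_add_distrib, sum_sub_distrib]
  rw [this, Am, Am, add_mulVec, add_mulVec, dK_mul, m.Γ_mulVec _ X, m.Γ_mulVec Y X, sub_mulVec,
    add_mulVec, mulVec_add, mulVec_mulVec, mulVec_mulVec Y, mulVec_mulVec Y]
  abel

/-- The Lie derivative of the metric vanishes. -/
def Kg (K : ι → A) : Prop := md (m.vd K) m.g + (m.dK K)ᵀ * m.g + m.g * m.dK K = 0

variable {m} {K : ι → A}

lemma Kg.sk (h : m.Kg K) : m.Sk (m.Am K) := by
  unfold Kg at h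
  unfold Sk
  rw [transpose_mul, m.symm, eq_neg_iff_add_eq_zero, ← h, vd_g, Am, transpose_add, Matrix.add_mul,
    Matrix.mul_add]
  abel

lemma Kg.cov (h : m.Kg K) (i : ι) : m.cov i (m.Am K) = ∑ j, K j • m.R i j := by
  rw [← sub_eq_zero]
  refine m.braid (fun i => m.cov i (m.Am K) - ∑ j, K j • m.R i j) ?_ ?_ i
  · have e : ∀ i a b, m.cov i (m.Am K) a b = m.d i (m.d b (K a)) +
        ∑ k, (m.d i (K k) * m.Γ k a b + K k * m.d i (m.Γ b a k)) +
        ∑ c, m.Γ i a c * m.d b (K c) + ∑ k, K k * (m.Γ i * m.Γ b) a k -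
        ∑ c, m.Am K a c * m.Γ i c b := by
      intro i a b
      have : ∑ c, m.Γ i a c * m.Am K c b =
          ∑ c, m.Γ i a c * m.d b (K c) + ∑ k, K k * (m.Γ i * m.Γ b) a k := by
        simp only [Am, dK, Matrix.add_apply, of_apply, Matrix.sum_apply, Matrix.smul_apply,
          smul_eq_mul, mul_add, sum_add_distrib, Matrix.mul_apply, mul_sum]
        rw [sum_comm (f := fun c k => m.Γ i a c * (K k * m.Γ k c b))]
        congr 1
        exact sum_congr rfl fun k _ => sum_congr rfl fun c _ => by rw [m.Γ_sw k c b]; ring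
      simp only [Met.cov, acov, Matrix.sub_apply, Matrix.add_apply, md_apply,
        Matrix.mul_apply (M := m.Γ i) (N := m.Am K), Matrix.mul_apply (M := m.Am K), this]
      simp only [Am, dK, Matrix.add_apply, of_apply, Matrix.sum_apply, Matrix.smul_apply,
        smul_eq_mul, map_add, map_sum, Derivation.leibniz, m.Γ_sw _ a b, sum_add_distrib]
      simp only [mul_comm (m.Γ b a _)]
      ring
    intro i a b
    have h1 : ∑ k, K k * m.R i b a k = ∑ k, K k * m.R i k a b - ∑ k, K k * m.R b k a i := by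
      rw [← sum_sub_distrib]
      refine sum_congr rfl fun k _ => ?_
      have := m.bianchi1 i b k a
      rw [R, R, R, acurv_skew _ _ k i, Matrix.neg_apply] at this
      linear_combination K k * this
    have h2 : ∑ k, K k * m.R i b a k = ∑ k, K k * m.d i (m.Γ b a k) -
        ∑ k, K k * m.d b (m.Γ i a k) + ∑ k, K k * (m.Γ i * m.Γ b) a k -
        ∑ k, K k * (m.Γ b * m.Γ i) a k := by
      simp only [R, acurv, Matrix.sub_apply, Matrix.add_apply, md_apply, mul_add, mul_sub,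
        sum_add_distrib, sum_sub_distrib]
    simp only [Matrix.sub_apply, e, Matrix.sum_apply, Matrix.smul_apply, smul_eq_mul,
      sum_add_distrib, m.comm i b, m.Γ_sw b _ i, m.Γ_sw _ a b, m.Γ_sw _ a i,
      mul_comm (m.Γ _ a _)]
    linear_combination h1 - h2
  · intro i
    have h1 := h.sk.cov i
    have h2 := m.R_sk i
    unfold Sk at h1 h2
    simp only [Matrix.mul_sub, Matrix.mul_sum, Matrix.mul_smul, transpose_sub, transpose_sum,
      transpose_smul, h1, h2, smul_neg, sum_neg_distrib]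
    abel

lemma Kg.vd_gg (h : m.Kg K) (Y Z : ι → A) :
    m.vd K (m.gg Y Z) = m.gg (m.br K Y) Z + m.gg Y (m.br K Z) := by
  rw [m.vd_gg, ← Am_sub, ← Am_sub, m.gg_comm (_ - _), gg_sub, gg_sub, h.sk.gg Z Y,
    m.gg_comm Z]
  ring

lemma Kg.kos (h : m.Kg K) {Y : ι → A} (hY : m.Kg Y) (X : ι → A) :
    2 * m.gg Y (m.Am K *ᵥ X) = m.vd X (m.gg K Y) - m.gg X (m.br Y K) := by
  rw [m.vd_gg, ← Am_sub, gg_sub, h.sk.gg X Y, hY.sk.gg X K, m.gg_comm _ Y]
  ring

lemma Kg.kos3 (h : m.Kg K) {X Y : ι → A} (hX : m.Kg X) (hY : m.Kg Y) :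
    2 * m.gg Y (m.Am K *ᵥ X) = m.gg (m.br X K) Y + m.gg K (m.br X Y) - m.gg X (m.br Y K) := by
  rw [h.kos hY, hX.vd_gg]

lemma Kg.AK (h : m.Kg K) (X : ι → A) : 2 * m.gg X (m.Am K *ᵥ K) = -m.vd X (m.gg K K) := by
  rw [m.vd_gg, h.sk.gg X K, m.gg_comm _ K]; ring

lemma Kg.sec (h : m.Kg K) (X : ι → A) :
    2 * m.gg X ((∑ i, X i • ∑ j, K j • m.R i j) *ᵥ K) = -m.vd X (m.vd X (m.gg K K)) +
      2 * m.gg (m.Am K *ᵥ X) (m.Am K *ᵥ X) - 2 * m.gg (m.Am X *ᵥ X) (m.Am K *ᵥ K) := by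
  have h1 := m.vd_gg X X (m.Am K *ᵥ K)
  rw [Am_mul, gg_add, h.sk.gg X (m.Am K *ᵥ X)] at h1
  simp only [h.cov] at h1
  have h2 := congrArg (m.vd X) (h.AK X)
  rw [two_mul, map_add, map_neg, h1] at h2
  linear_combination h2

lemma Kg.vd2 (X : ι → A) (h : m.Kg X) (K : ι → A) : m.vd X (m.vd X (m.gg K K)) =
    2 * m.gg (m.br X (m.br X K)) K + 2 * m.gg (m.br X K) (m.br X K) := by
  rw [h.vd_gg, m.gg_comm K, map_add, h.vd_gg]; ring

lemma Ric_KK (m : Met ι A) (K : ι → A) :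
    K ⬝ᵥ m.Ric *ᵥ K = ∑ i, ((∑ j, K j • m.R i j) *ᵥ K) i := by
  simp only [Ric, dotProduct, mulVec, of_apply, Matrix.sum_apply, Matrix.smul_apply, smul_eq_mul,
    sum_mul, mul_sum]
  rw [sum_comm]
  refine (sum_congr rfl fun k _ => sum_comm).trans ?_
  rw [sum_comm]
  exact sum_congr rfl fun a _ => sum_congr rfl fun l _ => sum_congr rfl fun k _ => by ring

end Met

namespace Geo

variable (m : Geo ι A)

/-- The Lie derivatives of g and J vanish. -/
structure Kill (K : ι → A) : Prop where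
  g : m.Kg K
  J : md (m.vd K) m.J = m.dK K * m.J - m.J * m.dK K

variable {m} {K : ι → A}

lemma Kill.S (h : m.Kill K) : ∑ k, K k • m.S k = m.Am K * m.J - m.J * m.Am K := by
  have : ∑ k, K k • m.S k =
      md (m.vd K) m.J + (∑ k, K k • m.Γ k) * m.J - m.J * ∑ k, K k • m.Γ k := by
    simp only [Geo.S, Met.cov, acov, Met.md_vd, Matrix.mul_sum, Matrix.sum_mul, Matrix.mul_smul,
      Matrix.smul_mul, smul_add, smul_sub, sum_add_distrib, sum_sub_distrib]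
  rw [this, h.J, Met.Am]; noncomm_ring

lemma phi_gg (m : Geo ι A) (x y z : ι → A) :
    m.phi x y z = m.gg y ((∑ a, x a • m.S a) *ᵥ z) := by
  rw [phi, Met.gg, mulVec_mulVec]

lemma Kill.phi (h : m.Kill K) (y z : ι → A) :
    m.phi K y z = m.gg y (m.Am K *ᵥ (m.J *ᵥ z)) + m.gg (m.J *ᵥ y) (m.Am K *ᵥ z) := by
  rw [phi_gg, h.S, sub_mulVec, m.gg_sub, ← mulVec_mulVec, ← mulVec_mulVec, m.J_sk.gg y,
    m.gg_comm (m.J *ᵥ y)]
  ring

/-- The derivative of the moment map. -/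
lemma Kill.moment {X Y : ι → A} (hX : m.Kill X) (hY : m.Kill Y) (Z : ι → A) :
    m.vd Z (m.gg (m.J *ᵥ X) Y) = m.gg (m.J *ᵥ m.br Y X) Z := by
  have c := m.phi_cyc Z Y X
  have s : m.phi Y X Z = m.gg X (m.Am Y *ᵥ (m.J *ᵥ Z)) + m.gg (m.J *ᵥ X) (m.Am Y *ᵥ Z) :=
    hY.phi X Z
  rw [s, hX.phi, phi_gg] at c
  rw [m.vd_gg, m.Am_mul, m.gg_comm (_ + _), m.gg_add, ← m.Am_sub, mulVec_sub, m.gg_comm (_ - _),
    m.gg_sub, m.J_sk.gg Y, m.J_sk.gg Z, m.J_sk.gg Z]
  rw [hX.g.sk.gg Z, hY.g.sk.gg X, m.gg_comm (m.J *ᵥ Z) (m.Am X *ᵥ Y)] at c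
  rw [m.gg_comm (m.Am X *ᵥ Z), m.gg_comm (m.Am Y *ᵥ X)]
  change m.gg Y ((∑ i, Z i • m.S i) *ᵥ X) + _ + _ = _
  linear_combination c

lemma Flow.gg {D : Derivation ℝ A A} (h : m.Flow D) (hK : ∀ i, D (K i) = 0) :
    D (m.gg K K) = K ⬝ᵥ m.Q *ᵥ K - 2 * K ⬝ᵥ m.Ric *ᵥ K := by
  have : D (m.gg K K) = K ⬝ᵥ md D m.g *ᵥ K := by
    simp [Met.gg, dotProduct, mulVec, hK, mul_comm]
  rw [this, h.g, sub_mulVec, add_mulVec, dotProduct_sub, dotProduct_add]; ring

lemma Q_KK (m : Geo ι A) (K : ι → A) : K ⬝ᵥ m.Q *ᵥ K =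
    -(∑ p, ∑ q, m.gi p q * m.gg (m.S p *ᵥ K) (m.S q *ᵥ K)) -
      (1 / 2 : ℝ) • trace ((∑ a, K a • m.S a) * ∑ a, K a • m.S a) := by
  have h1 : K ⬝ᵥ (m.g * m.Sig) *ᵥ K = -(∑ p, ∑ q, m.gi p q * m.gg (m.S p *ᵥ K) (m.S q *ᵥ K)) := by
    rw [← mulVec_mulVec, ← Met.gg, Sig]
    simp only [sum_mulVec, smul_mulVec, Met.gg, mulVec_sum, mulVec_smul, dotProduct_sum,
      dotProduct_smul, smul_eq_mul, ← sum_neg_distrib, ← mul_neg]
    refine sum_congr rfl fun p _ => sum_congr rfl fun q _ => ?_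
    rw [← mulVec_mulVec, ← Met.gg, ← Met.gg, (m.S_sk p).gg, m.gg_comm]
  have h2 : K ⬝ᵥ (m.tau * m.J) *ᵥ K = -trace ((∑ a, K a • m.S a) * ∑ a, K a • m.S a) := by
    have : ∀ X Y : ι → A, X ⬝ᵥ m.tau *ᵥ Y =
        trace (m.J * (∑ a, X a • m.S a) * ∑ a, Y a • m.S a) := by
      intro X Y
      simp only [tau, dotProduct, mulVec, of_apply, Matrix.sum_mul,
        Matrix.mul_smul, Matrix.smul_mul, trace_sum, trace_smul, smul_eq_mul, mul_sum]
      rw [sum_comm]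
      exact sum_congr rfl fun a _ => sum_congr rfl fun l _ => by ring
    have e : m.J * (∑ a, K a • m.S a) * (m.J * ∑ a, K a • m.S a) =
        (∑ a, K a • m.S a) * ∑ a, K a • m.S a := by
      rw [← Matrix.mul_assoc, Sx_anti, Matrix.neg_mul, Matrix.mul_assoc _ m.J, m.JJ,
        Matrix.mul_neg, neg_neg, Matrix.mul_one]
    rw [← mulVec_mulVec, this, S_Jx, Matrix.mul_neg, trace_neg, e]
  rw [Q, add_mulVec, dotProduct_add, h1, smul_mulVec, dotProduct_smul, h2, smul_neg]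
  ring

end Geo

end

end Pool.Agent.P.MP_8fdf05_gt
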