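import Pool.Agent.P.MP_8fdf05_gt.Coh
import Pool.Agent.P.MP_8fdf05_gt.Bridge
import Pool.Agent.P.MP_8fdf05_gt.FS

/-! The Killing fields of the orthogonal group in the affine chart. -/

open Matrix Set Filter Topology
open scoped ContDiff

namespace Pool.Agent.P.MP_8fdf05_gt

open Sm TauCP

namespace KillA

variable {ν : Type} [Fintype ν] [DecidableEq ν]

/-- A real matrix applied to a complex vector. -/
noncomputable def mv (X : Matrix (Option ν) (Option ν) ℝ) (z : Option ν → ℂ) : Option ν → ℂ :=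
  X.map Complex.ofReal *ᵥ z

lemma mv_apply (X : Matrix (Option ν) (Option ν) ℝ) (z : Option ν → ℂ) (o : Option ν) :
    mv X z o = ∑ o', (X o o' : ℂ) * z o' := rfl

lemma mv_one (z : Option ν → ℂ) : mv (1 : Matrix (Option ν) (Option ν) ℝ) z = z := by
  rw [mv, Matrix.map_one _ Complex.ofReal_zero Complex.ofReal_one, one_mulVec]

lemma mv_mul (X Y : Matrix (Option ν) (Option ν) ℝ) (z : Option ν → ℂ) :
    mv (X * Y) z = mv X (mv Y z) := by
  rw [mv, mv, mv, mulVec_mulVec]
  exact congrArg (· *ᵥ z) (Matrix.map_mul (f := Complex.ofRealHom))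

lemma mv_add (X Y : Matrix (Option ν) (Option ν) ℝ) (z : Option ν → ℂ) (o : Option ν) :
    mv (X + Y) z o = mv X z o + mv Y z o := by
  simp [mv_apply, add_mul, Finset.sum_add_distrib, -Fintype.sum_option]

lemma mv_sub (X Y : Matrix (Option ν) (Option ν) ℝ) (z : Option ν → ℂ) (o : Option ν) :
    mv (X - Y) z o = mv X z o - mv Y z o := by
  simp [mv_apply, sub_mul, Finset.sum_sub_distrib, -Fintype.sum_option]

lemma mv_smul (c : ℝ) (X : Matrix (Option ν) (Option ν) ℝ) (z : Option ν → ℂ) (o : Option ν) :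
    mv (c • X) z o = c * mv X z o := by
  simp [mv_apply, Finset.mul_sum, mul_assoc, -Fintype.sum_option]

lemma mv_single (i j : Option ν) (z : Option ν → ℂ) (o : Option ν) :
    mv (single i j (1 : ℝ)) z o = if i = o then z j else 0 := by
  rw [mv_apply, Finset.sum_eq_single j (fun b _ hb => by simp [hb.symm]) (by simp)]
  split_ifs with h
  · simp [h]
  · simp [h]

/-- The vector field of a matrix. -/
noncomputable def Kf (X : Matrix (Option ν) (Option ν) ℝ) (w : ν ⊕ ν → ℝ) : ν ⊕ ν → ℝ :=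
  frC fun a => mv X (emb w) (some a) - mv X (emb w) none * emb w (some a)

/-- Its derivative. -/
noncomputable def dKf (X : Matrix (Option ν) (Option ν) ℝ) (w v : ν ⊕ ν → ℝ) : ν ⊕ ν → ℝ :=
  frC fun a => mv X (hat v) (some a) -
    (mv X (emb w) none * hat v (some a) + emb w (some a) * mv X (hat v) none)

lemma contDiff_Kf (X : Matrix (Option ν) (Option ν) ℝ) : ContDiff ℝ ∞ (Kf X) := by
  have h : ∀ o, ContDiff ℝ ∞ fun w : ν ⊕ ν → ℝ => emb w o := fun o => contDiff_pi.1 contDiff_emb o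
  have h2 : ∀ o, ContDiff ℝ ∞ fun w : ν ⊕ ν → ℝ => mv X (emb w) o := fun o =>
    ContDiff.sum fun o' _ => contDiff_const.mul (h o')
  exact (frCL (ν := ν)).contDiff.comp (contDiff_pi.2 fun a => (h2 _).sub ((h2 _).mul (h _)))

lemma hasDerivAt_mv {B : ℝ → Matrix (Option ν) (Option ν) ℝ} {X : Matrix (Option ν) (Option ν) ℝ}
    (hB : ∀ o o', HasDerivAt (fun s => B s o o') (X o o') 0) (z : Option ν → ℂ) (o : Option ν) :
    HasDerivAt (fun s => mv (B s) z o) (mv X z o) 0 :=
  HasDerivAt.fun_sum fun o' _ => (hB o o').ofReal_comp.mul_const (z o')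

lemma hasDerivAt_frC {f : ℝ → ν → ℂ} {f' : ν → ℂ} (h : ∀ a, HasDerivAt (fun s => f s a) (f' a) 0) :
    HasDerivAt (fun s => frC (f s)) (frC f') 0 :=
  (frCL (ν := ν)).hasFDerivAt.comp_hasDerivAt 0 (hasDerivAt_pi.2 h)

lemma fderiv_Kf (X : Matrix (Option ν) (Option ν) ℝ) (w v : ν ⊕ ν → ℝ) :
    fderiv ℝ (Kf X) w v = dKf X w v := by
  have h0 : HasDerivAt (fun s : ℝ => w + s • v) v 0 := by
    simpa using ((hasDerivAt_id (0 : ℝ)).smul_const v).const_add w
  have h1 : HasDerivAt (fun s : ℝ => Kf X (w + s • v)) (fderiv ℝ (Kf X) w v) 0 :=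
    HasFDerivAt.comp_hasDerivAt_of_eq 0
      ((contDiff_Kf X).differentiable (by simp) w).hasFDerivAt h0 (by simp)
  have h2 : ∀ o, HasDerivAt (fun s : ℝ => emb (w + s • v) o) (hat v o) 0 :=
    hasDerivAt_pi.1 (HasFDerivAt.comp_hasDerivAt_of_eq 0 (hasFDerivAt_emb w) h0 (by simp))
  have h3 : ∀ o, HasDerivAt (fun s : ℝ => mv X (emb (w + s • v)) o) (mv X (hat v) o) 0 := fun o =>
    HasDerivAt.fun_sum fun o' _ => (h2 o').const_mul _
  refine h1.unique (hasDerivAt_frC fun a => ?_)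
  refine ((h3 (some a)).fun_sub ((h3 none).fun_mul (h2 (some a)))).congr_deriv ?_
  simp only [zero_smul, add_zero]
  ring

lemma hat_Kf (X : Matrix (Option ν) (Option ν) ℝ) (w : ν ⊕ ν → ℝ) :
    hat (Kf X w) = mv X (emb w) - mv X (emb w) none • emb w := by
  funext o
  cases o <;> simp [hat, Kf, toC_frC, emb]

lemma dKf_Kf (X Y : Matrix (Option ν) (Option ν) ℝ) (w : ν ⊕ ν → ℝ) :
    dKf Y w (Kf X w) - dKf X w (Kf Y w) = Kf (Y * X - X * Y) w := by
  have e : ∀ (X : Matrix (Option ν) (Option ν) ℝ) (u z : Option ν → ℂ) (c : ℂ) (o : Option ν),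
      mv X (u - c • z) o = mv X u o - c * mv X z o := fun X u z c o => by
    simp [mv, mulVec_sub, mulVec_smul]
  rw [dKf, dKf, Kf.eq_1 (Y * X - X * Y), ← frCL_apply, ← frCL_apply, ← frCL_apply, ← map_sub]
  congr 1
  funext a
  simp only [hat_Kf, e, mv_sub, mv_mul, Pi.sub_apply, Pi.smul_apply, smul_eq_mul]
  ring

variable {T : ℝ}

/-- The field as a vector of smooth functions. -/
noncomputable def KL (T : ℝ) :
    Matrix (Option ν) (Option ν) ℝ →ₗ[ℝ] (ν ⊕ ν → Sm (DD (ν ⊕ ν) T)) where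
  toFun X i := Sm.mk (fun x => Kf X x.2 i)
    ((contDiff_pi.1 (contDiff_Kf X) i).comp contDiff_snd).contDiffOn
  map_add' X Y := by
    ext i x
    cases i <;> simp [Kf, frC, mv_add, add_mul] <;> ring
  map_smul' c X := by
    ext i x
    cases i <;> simp [Kf, frC, mv_smul, mul_assoc] <;> ring

lemma ev_KL (X : Matrix (Option ν) (Option ν) ℝ) (i : ν ⊕ ν) (x : (DD (ν ⊕ ν) T).S) :
    ev x (KL T X i) = Kf X x.1.2 i := rfl

lemma ev_der_KL (X : Matrix (Option ν) (Option ν) ℝ) (i : ν ⊕ ν) (x : (DD (ν ⊕ ν) T).S)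
    (v : ℝ × (ν ⊕ ν → ℝ)) : ev x (der v (KL T X i)) = dKf X x.1.2 v.2 i := by
  have h := (hasFDerivAt_pi'.1 ((contDiff_Kf X).differentiable (by simp) x.1.2).hasFDerivAt i).comp
    x.1 (hasFDerivAt_snd (𝕜 := ℝ) (p := x.1))
  rw [ev_der_of v _ x h.hasFDerivWithinAt (fun _ => rfl), ← fderiv_Kf]
  rfl

lemma dt_KL (X : Matrix (Option ν) (Option ν) ℝ) (i : ν ⊕ ν) : dt (KL T X i) = 0 := by
  ext x
  rw [ev_der_KL, ← fderiv_Kf]
  simp

lemma ev_vd (m : Geo (ν ⊕ ν) (Sm (DD (ν ⊕ ν) T))) (hd : m.d = dx)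
    (K : ν ⊕ ν → Sm (DD (ν ⊕ ν) T)) (f : Sm (DD (ν ⊕ ν) T)) (x : (DD (ν ⊕ ν) T).S) :
    ev x (m.vd K f) = ev x (der (0, fun i => ev x (K i)) f) := by
  have e : ((0, fun i => ev x (K i)) : ℝ × (ν ⊕ ν → ℝ)) =
      ∑ i, ev x (K i) • ((0, Pi.single i 1) : ℝ × (ν ⊕ ν → ℝ)) := by
    refine Prod.ext ?_ ?_
    · simp [Prod.fst_sum]
    · funext j
      simp [Prod.snd_sum, Finset.sum_apply, Pi.single_apply, -Fintype.sum_sum_type]
  rw [Met.vd_apply, hd, map_sum, ev_der, e, map_sum]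
  exact Finset.sum_congr rfl fun i _ => by rw [map_mul, map_smul, ev_der, smul_eq_mul]

lemma br_KL (m : Geo (ν ⊕ ν) (Sm (DD (ν ⊕ ν) T))) (hd : m.d = dx)
    (X Y : Matrix (Option ν) (Option ν) ℝ) :
    m.br (KL T X) (KL T Y) = KL T (Y * X - X * Y) := by
  ext i x
  rw [Met.br, map_sub, ev_vd m hd, ev_vd m hd, ev_der_KL, ev_der_KL, ev_KL, ← dKf_Kf]
  rfl

/-- Entrywise derivative at 0 of a curve of matrices. -/
def MD {ι : Type} (f : ℝ → Matrix ι ι ℝ) (f' : Matrix ι ι ℝ) : Prop :=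
  ∀ a b, HasDerivAt (fun s => f s a b) (f' a b) 0

lemma MD.mul {ι : Type} [Fintype ι] {f h : ℝ → Matrix ι ι ℝ} {f' h' : Matrix ι ι ℝ} (hf : MD f f')
    (hh : MD h h') : MD (fun s => f s * h s) (f' * h 0 + f 0 * h') := fun a b => by
  refine (HasDerivAt.fun_sum (u := Finset.univ) fun k _ => (hf a k).fun_mul (hh k b)).congr_deriv ?_
  simp [Matrix.mul_apply, Finset.sum_add_distrib]

lemma MD.unique {ι : Type} {f h : ℝ → Matrix ι ι ℝ} {f' h' : Matrix ι ι ℝ} (hf : MD f f')
    (hh : MD h h') (e : ∀ᶠ s in 𝓝 (0 : ℝ), f s = h s) : f' = h' := by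
  ext a b
  exact (hf a b).unique ((hh a b).congr_of_eventuallyEq (e.mono fun s hs => by simp only [hs]))

lemma MD.const {ι : Type} (f : Matrix ι ι ℝ) : MD (fun _ => f) 0 := fun _ _ => hasDerivAt_const _ _

/-- The generator of a curve of symmetries is a Killing field. -/
lemma kill_of_curve {g J : ℝ → Fld (ν ⊕ ν)}
    (hi : ∀ (L : Sy ν), ∀ t ∈ Ico 0 T, ∀ w ∈ L.dom,
      g t w = (L.jc w)ᵀ * g t (L.tau w) * L.jc w ∧
      J t w = L.sgn • ((L.jc w)⁻¹ * J t (L.tau w) * L.jc w))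
    (m : Geo (ν ⊕ ν) (Sm (DD (ν ⊕ ν) T))) (hd : m.d = dx) (hg : Rep m.g g) (hJ : Rep m.J J)
    (L : ℝ → Sy ν) (hε : ∀ s, (L s).ε = false) (h0 : L 0 = 1) {X : Matrix (Option ν) (Option ν) ℝ}
    (hB : MD (fun s => (L s).B) X) : m.Kill (KL T X) := by
  have act : ∀ s z, (L s).act z = mv (L s).B z := fun s z => by
    funext o; simp [Sy.act, hε, mv_apply, -Fintype.sum_option]
  have B0 : ∀ z, mv (L 0).B z = z := fun z => by rw [h0, Sy.one_B, mv_one]
  have key : ∀ x : (DD (ν ⊕ ν) T).S, (∀ᶠ s in 𝓝 (0 : ℝ), x.1.2 ∈ (L s).dom) ∧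
      MD (fun s => (L s).jc x.1.2) ((m.dK (KL T X)).map (ev x)) ∧
      ∀ (a : Matrix (ν ⊕ ν) (ν ⊕ ν) (Sm (DD (ν ⊕ ν) T))) (F : ℝ → Fld (ν ⊕ ν)), Rep a F →
        MD (fun s => F x.1.1 ((L s).tau x.1.2)) ((md (m.vd (KL T X)) a).map (ev x)) := by
    intro x
    have hz := hasDerivAt_mv hB (emb x.1.2)
    have hn : mv (L 0).B (emb x.1.2) none ≠ 0 := by rw [B0]; exact one_ne_zero
    have hdom : ∀ᶠ s in 𝓝 (0 : ℝ), x.1.2 ∈ (L s).dom := by
      filter_upwards [(hz none).continuousAt.eventually_ne hn] with s hs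
      rwa [← act] at hs
    refine ⟨hdom, fun a b => ?_, fun a F hF i j => ?_⟩
    · have hv := hasDerivAt_mv hB (hat (Pi.single b 1))
      have h1 := hasDerivAt_frC (f' := fun c => mv X (hat (Pi.single b 1)) (some c) -
          (mv X (emb x.1.2) none * hat (Pi.single b 1) (some c) +
            emb x.1.2 (some c) * mv X (hat (Pi.single b 1)) none)) fun c =>
        ((((hz none).fun_inv hn).fun_mul (hv (some c))).fun_sub (((hv none).fun_div
          ((hz none).fun_pow 2) (pow_ne_zero 2 hn)).fun_mul (hz (some c)))).congr_deriv (by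
          have e1 : emb x.1.2 none = 1 := rfl
          have e2 : hat (Pi.single b (1 : ℝ)) none = 0 := rfl
          simp only [B0, e1, e2]
          ring)
      have h2 : (m.dK (KL T X)).map (ev x) a b = dKf X x.1.2 (Pi.single b 1) a := by
        rw [Matrix.map_apply, Met.dK, of_apply, hd, ev_der_KL]
      rw [h2]
      refine (hasDerivAt_pi.1 h1 a).congr_of_eventuallyEq (hdom.mono fun s hs => ?_)
      have h3 := (L s).hat_jc hs (Pi.single b 1)
      have h4 : (L s).jc x.1.2 a b = frC (toC ((L s).jc x.1.2 *ᵥ Pi.single b 1)) a := by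
        rw [frC_toC]; simp
      change (L s).jc x.1.2 a b = _
      rw [h4]
      congr 1
      funext c
      have h5 := congrFun h3 (some c)
      simpa only [hat, Option.elim_some, act, Pi.sub_apply, Pi.smul_apply, smul_eq_mul] using h5
    · have h1 : HasDerivAt (fun s => (L s).tau x.1.2) (Kf X x.1.2) 0 := by
        simp only [Sy.tau, aff, act]
        refine hasDerivAt_frC fun c => ((hz (some c)).fun_div (hz none) hn).congr_deriv ?_
        have e1 : emb x.1.2 none = 1 := rfl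
        simp only [B0, e1]
        ring
      have hS : ∀ s, (x.1.1, (L s).tau x.1.2) ∈ (DD (ν ⊕ ν) T).S := fun s => ⟨x.2.1, trivial⟩
      have h2 := (a i j).hasDerivAt_comp ((hasDerivAt_const (0 : ℝ) x.1.1).prodMk h1)
        (Eventually.of_forall hS)
      have h3 : (⟨(x.1.1, (L 0).tau x.1.2), hS 0⟩ : (DD (ν ⊕ ν) T).S) = x :=
        Subtype.ext (by rw [h0, Sy.tau_one])
      rw [h3] at h2
      have h4 : (md (m.vd (KL T X)) a).map (ev x) i j = ev x (der (0, Kf X x.1.2) (a i j)) :=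
        ev_vd m hd _ _ x
      rw [h4]
      refine h2.congr_of_eventuallyEq (Eventually.of_forall fun s => ?_)
      change _ = (a i j).fn _
      rw [fn_apply _ (hS s)]
      exact (congrFun (congrFun (hF ⟨_, hS s⟩) i) j).symm
  have ext' : ∀ {a b : Matrix (ν ⊕ ν) (ν ⊕ ν) (Sm (DD (ν ⊕ ν) T))},
      (∀ x, (ev x).mapMatrix a = (ev x).mapMatrix b) → a = b := fun h => by
    ext i j x
    exact congrFun (congrFun (h x) i) j
  have mm : ∀ (x : (DD (ν ⊕ ν) T).S) (a : Matrix (ν ⊕ ν) (ν ⊕ ν) (Sm (DD (ν ⊕ ν) T))),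
      (ev x).mapMatrix a = a.map (ev x) := fun _ _ => rfl
  constructor
  · refine ext' fun x => ?_
    obtain ⟨h1, h2, h3⟩ := key x
    have h4 : MD (fun s => ((L s).jc x.1.2)ᵀ) ((m.dK (KL T X)).map (ev x))ᵀ := fun a b => h2 b a
    have h5 := (MD.const (g x.1.1 x.1.2)).unique ((h4.mul (h3 _ _ hg)).mul h2)
      (h1.mono fun s hs => (hi (L s) _ x.2.1 _ hs).1)
    simp only [h0, Sy.jc_one, Sy.tau_one, transpose_one, Matrix.one_mul, Matrix.mul_one] at h5
    simp only [map_add, map_mul, map_zero]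
    rw [mm, mm, mm, mm, hg x, transpose_map]
    rw [h5]; abel
  · refine ext' fun x => ?_
    obtain ⟨h1, h2, h3⟩ := key x
    have h5 := (h2.mul (MD.const (J x.1.1 x.1.2))).unique ((h3 _ _ hJ).mul h2)
      (h1.mono fun s hs => by
        have hu : IsUnit ((L s).jc x.1.2).det := ((L s).jc_det hs).isUnit
        conv_lhs => rw [(hi (L s) _ x.2.1 _ hs).2]
        rw [Sy.sgn, hε, if_neg (by simp), one_smul, Matrix.mul_assoc,
          mul_nonsing_inv_cancel_left _ _ hu])
    simp only [h0, Sy.jc_one, Sy.tau_one, Matrix.mul_one, Matrix.mul_zero, add_zero] at h5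
    simp only [map_sub, map_mul]
    rw [mm, mm, mm, hJ x]
    rw [h5]; abel

/-- The elementary skew matrices. -/
def rot (i j : Option ν) : Matrix (Option ν) (Option ν) ℝ := single i j 1 - single j i 1

lemma e_mul (a b c d : Option ν) : single a b (1 : ℝ) * single c d (1 : ℝ) =
    (if b = c then 1 else 0 : ℝ) • single a d (1 : ℝ) := by
  split_ifs with h
  · subst h; simp
  · simp [single_mul_single_of_ne, h]

lemma rot_comm (a b c d : Option ν) : rot a b * rot c d - rot c d * rot a b =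
    (if b = c then 1 else 0 : ℝ) • rot a d - (if b = d then 1 else 0 : ℝ) • rot a c -
    (if a = c then 1 else 0 : ℝ) • rot b d + (if a = d then 1 else 0 : ℝ) • rot b c := by
  simp only [rot, Matrix.sub_mul, Matrix.mul_sub, e_mul, eq_comm (a := c), eq_comm (a := d)]
  module

lemma rot_swap (a b : Option ν) : rot a b = -rot b a := by simp [rot]

lemma rot_cube (i j : Option ν) : rot i j * (rot i j * rot i j) = -rot i j := by
  by_cases h : i = j
  · simp [rot, h]
  · simp [rot, Matrix.sub_mul, Matrix.mul_sub, h, Ne.symm h, neg_add_eq_sub]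

lemma kill_rot {g J : ℝ → Fld (ν ⊕ ν)}
    (hi : ∀ (L : Sy ν), ∀ t ∈ Ico 0 T, ∀ w ∈ L.dom,
      g t w = (L.jc w)ᵀ * g t (L.tau w) * L.jc w ∧
      J t w = L.sgn • ((L.jc w)⁻¹ * J t (L.tau w) * L.jc w))
    (m : Geo (ν ⊕ ν) (Sm (DD (ν ⊕ ν) T))) (hd : m.d = dx) (hg : Rep m.g g) (hJ : Rep m.J J)
    (i j : Option ν) : m.Kill (KL T (rot i j)) := by
  have h1 := rot_cube i j
  have h2 : (rot i j)ᵀ = -rot i j := by simp [rot, transpose_single]
  generalize rot i j = X at *
  refine kill_of_curve hi m hd hg hJ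
    (fun s => ⟨1 + Real.sin s • X + (1 - Real.cos s) • (X * X), ?_, false⟩) (fun _ => rfl)
    (Sy.ext (by simp) rfl) fun a b => ?_
  · simp only [transpose_add, transpose_one, transpose_smul, transpose_mul, h2, Matrix.add_mul,
      Matrix.mul_add, Matrix.smul_mul, Matrix.mul_smul, Matrix.one_mul, Matrix.mul_one,
      Matrix.neg_mul, Matrix.mul_neg, neg_neg, Matrix.mul_assoc, h1]
    match_scalars
    · ring
    · ring
    · linear_combination -Real.sin_sq_add_cos_sq s
  · have := (((Real.hasDerivAt_sin 0).mul_const (X a b)).const_add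
      ((1 : Matrix (Option ν) (Option ν) ℝ) a b)).fun_add
      (((Real.hasDerivAt_cos 0).const_sub 1).mul_const ((X * X) a b))
    simpa using this

variable {μ : Type} [Fintype μ] [DecidableEq μ]

/-- The statement exists_coh with the invariance written out. -/
theorem coh {g J : ℝ → Fld (II μ)}
    (hi : ∀ (L : Sy (Option μ)), ∀ t ∈ Ico 0 T, ∀ w ∈ L.dom,
      g t w = (L.jc w)ᵀ * g t (L.tau w) * L.jc w ∧
      J t w = L.sgn • ((L.jc w)⁻¹ * J t (L.tau w) * L.jc w))
    (m : Geo (II μ) (Sm (DD (II μ) T))) (hd : m.d = dx) (hg : Rep m.g g) (hJ : Rep m.J J) :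
    ∃ c : Coh m, (∀ i, dt (c.U i) = 0) ∧ (∀ a i, dt (c.E a i) = 0) ∧ (∀ a i, dt (c.F a i) = 0) ∧
      ∀ (x : (DD (II μ) T).S) (y : ℝ), x.1.2 = cur y →
        (fun i => ev x (c.U i)) = Pi.single (Sum.inl none) (1 - y ^ 2) ∧
        (∀ a, (fun i => ev x (c.E a i)) = Pi.single (Sum.inl (some a)) 1) ∧
        (∀ a, (fun i => ev x (c.F a i)) = Pi.single (Sum.inr (some a)) y) ∧
        ∀ a b i, ev x (c.C a b i) = 0 := by
  refine ⟨{ U := KL T (rot (some none) none)
            E := fun a => KL T (rot (some (some a)) none)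
            F := fun a => KL T (rot (some (some a)) (some none))
            C := fun a b => KL T (rot (some (some a)) (some (some b)))
            kU := kill_rot hi m hd hg hJ _ _
            kE := fun _ => kill_rot hi m hd hg hJ _ _
            kF := fun _ => kill_rot hi m hd hg hJ _ _
            bUE := fun a => ?_
            bUF := fun a => ?_
            bEF := fun a b => ?_
            bEE := fun a b => ?_
            bFF := fun a b => ?_
            bEC := fun c a b => ?_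
            bFC := fun c a b => ?_ },
    fun _ => dt_KL _ _, fun _ _ => dt_KL _ _, fun _ _ => dt_KL _ _, fun x y hx => ?_⟩
  · rw [br_KL m hd, rot_comm]; simp
  · rw [br_KL m hd, rot_comm]; simp
  · rw [br_KL m hd, rot_comm]
    by_cases h : a = b
    · simp [h]
    · simp [h, Ne.symm h]
  · rw [br_KL m hd, rot_comm, rot_swap (some (some a))]
    by_cases h : a = b
    · simp [h, rot]
    · simp [Ne.symm h]
  · rw [br_KL m hd, rot_comm, rot_swap (some (some a))]
    by_cases h : a = b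
    · simp [h, rot]
    · simp [Ne.symm h]
  · rw [br_KL m hd, rot_comm]
    by_cases h : a = c <;> by_cases h' : b = c <;> simp [h, h']
  · rw [br_KL m hd, rot_comm]
    by_cases h : a = c <;> by_cases h' : b = c <;> simp [h, h']
  · simp only [ev_KL, hx]
    refine ⟨funext fun i => ?_, fun a => funext fun i => ?_, fun a => funext fun i => ?_,
      fun a b i => ?_⟩ <;>
    rcases i with (_ | i) | (_ | i) <;>
    simp [Kf, frC, rot, mv_sub, mv_single, FS.cur0, FS.cur1, FS.cur2, Pi.single_apply, sq,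
      apply_ite Complex.re, apply_ite Complex.im, eq_comm, ← sub_eq_add_neg]

end KillA

end Pool.Agent.P.MP_8fdf05_gt
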