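import Pool.Agent.P.MP_8fdf05_gt.Bridge
import Pool.Agent.P.MP_8fdf05_gt.FS

/-! The shape of invariant tensors along the curve. -/

open Matrix Set

namespace Pool.Agent.P.MP_8fdf05_gt

namespace KB

set_option linter.unusedSectionVars false

variable {ν : Type} [Fintype ν] [DecidableEq ν]

lemma hat_inj {u v : ν ⊕ ν → ℝ} (h : hat u = hat v) : u = v := by
  rw [← TauCP.frC_toC u, ← TauCP.frC_toC v]
  congr 1
  funext a
  exact congrFun h (some a)

lemma fixed (L : Sy ν) {w : ν ⊕ ν → ℝ} {c : ℂ} (hc : c ≠ 0) (h : L.act (emb w) = c • emb w) :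
    w ∈ L.dom ∧ L.tau w = w ∧ ∀ v, hat (L.jc w *ᵥ v) =
      c⁻¹ • L.act (hat v) - (L.act (hat v) none / c) • emb w := by
  have h0 : L.act (emb w) none = c := by rw [h]; simp [emb]
  have hw : w ∈ L.dom := by
    change L.act (emb w) none ≠ 0
    rwa [h0]
  refine ⟨hw, by rw [Sy.tau, h, TauCP.aff_smul hc, TauCP.aff_emb], fun v => ?_⟩
  rw [L.hat_jc hw, h0, h, smul_smul]
  congr 2
  field_simp

lemma entry {ι : Type} [Fintype ι] [DecidableEq ι] {X A : Matrix ι ι ℝ} {s : ℝ}
    (h : X = s • (Aᵀ * X * A)) {i j i' j' : ι} {α β : ℝ}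
    (hi : A *ᵥ Pi.single i 1 = Pi.single i' α) (hj : A *ᵥ Pi.single j 1 = Pi.single j' β) :
    X i j = s * α * β * X i' j' := by
  have h1 : ∀ k, A k i = (Pi.single i' α : ι → ℝ) k := fun k => by
    rw [← hi, mulVec_single_one]; rfl
  have h2 : ∀ k, A k j = (Pi.single j' β : ι → ℝ) k := fun k => by
    rw [← hj, mulVec_single_one]; rfl
  conv_lhs => rw [h]
  simp only [Matrix.smul_apply, Matrix.mul_apply, transpose_apply, h1, h2, Pi.single_apply,
    ite_mul, zero_mul, mul_ite, mul_zero, Finset.sum_ite_eq', Finset.mem_univ, if_true,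
    smul_eq_mul]
  ring

lemma om_inv {ι : Type} [Fintype ι] [DecidableEq ι] {G J A : Matrix ι ι ℝ} {s : ℝ}
    (hA : A.det ≠ 0) (hG : G = Aᵀ * G * A) (hJ : J = s • (A⁻¹ * J * A)) :
    Jᵀ * G = s • (Aᵀ * (Jᵀ * G) * A) := by
  have h1 : A⁻¹ᵀ * Aᵀ = 1 := by
    rw [← transpose_mul, mul_nonsing_inv _ (Ne.isUnit hA), transpose_one]
  conv_lhs => rw [hG, hJ]
  simp only [transpose_smul, transpose_mul, Matrix.smul_mul, Matrix.mul_assoc]
  rw [← Matrix.mul_assoc A⁻¹ᵀ, h1, Matrix.one_mul]

/-- A diagonal matrix of signs. -/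
def dg (d : Option ν → ℝ) (hd : ∀ o, d o * d o = 1) (ε : Bool) : Sy ν :=
  ⟨diagonal d, by simp [hd], ε⟩

lemma act_dg (d : Option ν → ℝ) (hd : ∀ o, d o * d o = 1) (ε : Bool) (z : Option ν → ℂ) :
    (dg d hd ε).act z = fun o => (d o : ℂ) * TauCP.tw (dg d hd ε) (z o) := by
  funext o
  simp only [Sy.act, dg, TauCP.tw]
  rw [Finset.sum_eq_single o]
  · simp
  · intro o' _ h
    simp [diagonal_apply_ne' _ h]
  · simp

/-- A permutation of the affine coordinates. -/
def pm (σ : Equiv.Perm ν) : Sy ν :=
  ⟨Equiv.Perm.permMatrix ℝ (Equiv.optionCongr σ), by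
    rw [Matrix.transpose_permMatrix, ← Matrix.permMatrix_mul]; simp, false⟩

lemma act_pm (σ : Equiv.Perm ν) (z : Option ν → ℂ) :
    (pm σ).act z = fun o => z (o.map σ) := by
  funext o
  simp [Sy.act, pm, Equiv.Perm.permMatrix, PEquiv.toMatrix_apply, apply_ite Complex.ofReal]

variable {μ : Type} [Fintype μ] [DecidableEq μ]

/-- A rotation of the first two homogeneous coordinates. -/
def rt (c s : ℝ) (h : c * c + s * s = 1) : Sy (Option μ) :=
  ⟨Matrix.of fun o o' => match o, o' with
    | none, none => c
    | none, some none => -s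
    | some none, none => s
    | some none, some none => c
    | some (some a), some (some b) => if a = b then 1 else 0
    | _, _ => 0, by
    ext o o'
    rcases o with _ | _ | a <;> rcases o' with _ | _ | b <;>
      simp [Matrix.mul_apply, Fintype.sum_option, Matrix.one_apply, eq_comm] <;> linarith, false⟩

lemma act_rt (c s : ℝ) (h : c * c + s * s = 1) (z : Option (Option μ) → ℂ) :
    (rt c s h).act z = fun o => match o with
      | none => c * z none - s * z (some none)
      | some none => s * z none + c * z (some none)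
      | some (some a) => z (some (some a)) := by
  funext o
  rcases o with _ | _ | a <;>
    simp [Sy.act, rt, Fintype.sum_option, apply_ite Complex.ofReal, sub_eq_add_neg]

lemma emb_cur (y : ℝ) : emb (cur (μ := μ) y) = fun o => match o with
    | none => 1
    | some none => y * Complex.I
    | some (some _) => 0 := by
  funext o
  rcases o with _ | _ | a <;> simp [emb, toC, cur, Complex.ext_iff]

variable {T : ℝ} {g J : ℝ → Fld (Option μ ⊕ Option μ)}

/-- Invariance under all maps tau. -/
def Iv (T : ℝ) (g J : ℝ → Fld (Option μ ⊕ Option μ)) : Prop :=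
  ∀ (L : Sy (Option μ)), ∀ t ∈ Ico 0 T, ∀ w ∈ L.dom,
    g t w = (L.jc w)ᵀ * g t (L.tau w) * L.jc w ∧
    J t w = L.sgn • ((L.jc w)⁻¹ * J t (L.tau w) * L.jc w)

lemma Iv.ent (hi : Iv T g J) {t : ℝ} (ht : t ∈ Ico 0 T) (L : Sy (Option μ))
    {w : Option μ ⊕ Option μ → ℝ} {c : ℂ} (hc : c ≠ 0) (h : L.act (emb w) = c • emb w)
    {i j i' j' : Option μ ⊕ Option μ} {α β : ℝ}
    (h1 : c⁻¹ • L.act (hat (Pi.single i 1)) - (L.act (hat (Pi.single i 1)) none / c) • emb w =
      hat (Pi.single i' α))
    (h2 : c⁻¹ • L.act (hat (Pi.single j 1)) - (L.act (hat (Pi.single j 1)) none / c) • emb w =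
      hat (Pi.single j' β)) :
    g t w i j = α * β * g t w i' j' ∧
      om (g t) (J t) w i j = L.sgn * α * β * om (g t) (J t) w i' j' := by
  obtain ⟨hw, e, hj⟩ := fixed L hc h
  obtain ⟨a, b⟩ := hi L t ht w hw
  rw [e] at a b
  have e1 := hat_inj ((hj _).trans h1)
  have e2 := hat_inj ((hj _).trans h2)
  exact ⟨by simpa using entry (s := 1) (by rwa [one_smul]) e1 e2,
    entry (om_inv (L.jc_det hw) a b) e1 e2⟩

/-- The signs on the real coordinates. -/
def sD (d : Option (Option μ) → ℝ) (s : ℝ) : Option μ ⊕ Option μ → ℝ :=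
  Sum.elim (fun a => d (some a)) fun a => s * d (some a)

lemma Iv.sign (hi : Iv T g J) {t : ℝ} (ht : t ∈ Ico 0 T) (y : ℝ) (d : Option (Option μ) → ℝ)
    (hd : ∀ o, d o * d o = 1) (ε : Bool) (h0 : d none = 1)
    (h1 : d (some none) = if ε then -1 else 1) (i j : Option μ ⊕ Option μ) :
    g t (cur y) i j = sD d (d (some none)) i * sD d (d (some none)) j * g t (cur y) i j ∧
    om (g t) (J t) (cur y) i j = d (some none) * sD d (d (some none)) i *
      sD d (d (some none)) j * om (g t) (J t) (cur y) i j := by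
  have key : ∀ i : Option μ ⊕ Option μ, (1 : ℂ)⁻¹ • (dg d hd ε).act (hat (Pi.single i 1)) -
      ((dg d hd ε).act (hat (Pi.single i 1)) none / 1) • emb (cur y) =
      hat (Pi.single i (sD d (d (some none)) i)) := by
    intro i
    rw [act_dg]
    funext o
    rcases o with _ | o <;> rcases i with i | i <;> cases ε <;>
      simp [hat, toC, TauCP.tw, dg, sD, h1, Complex.ext_iff, Pi.single_apply] <;>
      split_ifs with h <;> simp [h]
  have := hi.ent ht (dg d hd ε) one_ne_zero (w := cur y) (by
    rw [act_dg, emb_cur]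
    funext o
    rcases o with _ | _ | a <;> cases ε <;> simp [TauCP.tw, dg, h0, h1]) (key i) (key j)
  rwa [show (dg d hd ε).sgn = d (some none) from h1.symm] at this

lemma Iv.swap (hi : Iv T g J) {t : ℝ} (ht : t ∈ Ico 0 T) {w : Option μ ⊕ Option μ → ℝ}
    (a b : Option μ) (hw : toC w a = toC w b) (i j : Option μ ⊕ Option μ) :
    g t w i j = g t w (i.map (Equiv.swap a b) (Equiv.swap a b))
      (j.map (Equiv.swap a b) (Equiv.swap a b)) ∧
    om (g t) (J t) w i j = om (g t) (J t) w (i.map (Equiv.swap a b) (Equiv.swap a b))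
      (j.map (Equiv.swap a b) (Equiv.swap a b)) := by
  have key : ∀ i : Option μ ⊕ Option μ,
      (1 : ℂ)⁻¹ • (pm (Equiv.swap a b)).act (hat (Pi.single i 1)) -
      ((pm (Equiv.swap a b)).act (hat (Pi.single i 1)) none / 1) • emb w =
      hat (Pi.single (i.map (Equiv.swap a b) (Equiv.swap a b)) 1) := by
    intro i
    rw [act_pm]
    funext o
    rcases o with _ | o <;> rcases i with i | i <;>
      simp [hat, toC, Pi.single_apply, Equiv.swap_apply_eq_iff]
  have := hi.ent ht (pm (Equiv.swap a b)) one_ne_zero (w := w) (by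
    rw [act_pm]
    funext o
    rcases o with _ | o
    · simp
    · simpa [emb] using Equiv.apply_swap_eq_self hw o) (key i) (key j)
  simpa [Sy.sgn, pm] using this

theorem shape (h : ChartAK T univ g J) (hi : Iv T g J) (a0 : μ) {t : ℝ} (ht : t ∈ Ico 0 T)
    (y : ℝ) :
    g t (cur y) = diagonal (Sum.elim
      (fun o => o.elim (g t (cur y) (Sum.inl none) (Sum.inl none))
        fun _ => g t (cur y) (Sum.inl (some a0)) (Sum.inl (some a0)))
      (fun o => o.elim (g t (cur y) (Sum.inr none) (Sum.inr none))
        fun _ => g t (cur y) (Sum.inr (some a0)) (Sum.inr (some a0)))) ∧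
    om (g t) (J t) (cur y) = fromBlocks 0
      (diagonal fun o => o.elim (om (g t) (J t) (cur y) (Sum.inl none) (Sum.inr none))
        fun _ => om (g t) (J t) (cur y) (Sum.inl (some a0)) (Sum.inr (some a0)))
      (-diagonal fun o => o.elim (om (g t) (J t) (cur y) (Sum.inl none) (Sum.inr none))
        fun _ => om (g t) (J t) (cur y) (Sum.inl (some a0)) (Sum.inr (some a0))) 0 := by
  have f1 := fun a : μ => hi.sign ht y (fun o => if o = some (some a) then -1 else 1)
    (fun o => by split_ifs <;> norm_num) false (by simp) (by simp)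
  have f2 := hi.sign ht y (fun o => if o = some none then -1 else 1)
    (fun o => by split_ifs <;> norm_num) true (by simp) (by simp)
  have f3 := fun a : μ => hi.swap ht (w := cur y) (some a) (some a0) (by simp [toC, cur])
  have sk : ∀ i j, om (g t) (J t) (cur y) j i = -om (g t) (J t) (cur y) i j := by
    have a := h.sq t ht (cur y) trivial
    have b := h.herm t ht (cur y) trivial
    have c : (g t (cur y))ᵀ = g t (cur y) := (h.pos t ht (cur y) trivial).isHermitian
    have e : (om (g t) (J t) (cur y))ᵀ = -om (g t) (J t) (cur y) := by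
      simp only [om, transpose_mul, transpose_transpose, c]
      conv_lhs => rw [← b, Matrix.mul_assoc, a]
      simp
    exact fun i j => congrFun (congrFun e i) j
  have ne : ∀ (X : Matrix (Option μ ⊕ Option μ) (Option μ ⊕ Option μ) ℝ),
      (∀ (a : μ) i j, X i j = sD (fun o => if o = some (some a) then -1 else 1) 1 i *
        sD (fun o => if o = some (some a) then -1 else 1) 1 j * X i j) →
      ∀ i j : Option μ ⊕ Option μ, i.elim id id ≠ j.elim id id → X i j = 0 := by
    intro X hX i j hij
    have e : ∀ (a : μ) (k : Option μ ⊕ Option μ),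
        sD (fun o => if o = some (some a) then -1 else 1) 1 k =
          if k.elim id id = some a then -1 else 1 := by
      intro a k
      cases k <;> simp [sD]
    simp only [e] at hX
    rcases hi' : i.elim id id with _ | a
    · rcases hj' : j.elim id id with _ | b
      · exact absurd (hi'.trans hj'.symm) hij
      · have := hX b i j
        simp only [hi', hj', reduceCtorEq, if_false, if_true] at this
        linarith
    · have := hX a i j
      rw [if_pos hi', if_neg fun e => hij (hi'.trans e.symm)] at this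
      linarith
  have s1 := fun a : μ => (f3 a (Sum.inl (some a)) (Sum.inl (some a))).1
  have s2 := fun a : μ => (f3 a (Sum.inr (some a)) (Sum.inr (some a))).1
  have s3 := fun a : μ => (f3 a (Sum.inl (some a)) (Sum.inr (some a))).2
  simp only [Sum.map_inl, Sum.map_inr, Equiv.swap_apply_left] at s1 s2 s3
  have g1 := ne _ fun a i j => by simpa using (f1 a i j).1
  have o1 := ne _ fun a i j => by simpa using (f1 a i j).2
  constructor
  · ext i j
    by_cases hij : i.elim id id = j.elim id id
    · have := (f2 i j).1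
      rcases i with i | i <;> rcases j with j | j <;> obtain rfl : i = j := hij <;>
        rcases i with _ | a <;> simp [sD] at this ⊢ <;>
        first | linarith | exact s1 _ | exact s2 _
    · rw [g1 i j hij, diagonal_apply_ne]
      rintro rfl
      exact hij rfl
  · ext i j
    by_cases hij : i.elim id id = j.elim id id
    · have := (f2 i j).2
      rcases i with i | i <;> rcases j with j | j <;> obtain rfl : i = j := hij <;>
        rcases i with _ | a <;> simp [sD] at this ⊢ <;>
        first | linarith | exact sk _ _ | exact s3 _ | exact (sk _ _).trans (congrArg _ (s3 _))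
    · rw [o1 i j hij]
      rcases i with i | i <;> rcases j with j | j <;>
        simp [diagonal_apply_ne _ (show i ≠ j from hij)]

theorem ends (hi : Iv T g J) (a0 : μ) {t : ℝ} (ht : t ∈ Ico 0 T) :
    g t (cur 0) (Sum.inl none) (Sum.inl none) =
      g t (cur 0) (Sum.inl (some a0)) (Sum.inl (some a0)) ∧
    g t (cur 1) (Sum.inr (some a0)) (Sum.inr (some a0)) =
      g t (cur 1) (Sum.inl (some a0)) (Sum.inl (some a0)) ∧
    g t (cur 1) (Sum.inr none) (Sum.inr none) = g t (cur 1) (Sum.inl none) (Sum.inl none) := by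
  have fx : ∀ (c s : ℝ) (h : c * c + s * s = 1), (rt c s h).act (emb (cur (μ := μ) 1)) =
      ((c : ℂ) - s * Complex.I) • emb (cur 1) := by
    intro c s h
    rw [act_rt, emb_cur]
    funext o
    rcases o with _ | _ | a <;> simp [Complex.ext_iff]
  refine ⟨?_, ?_, ?_⟩
  · simpa using (hi.swap ht (w := cur 0) none (some a0) (by simp [toC, cur])
      (Sum.inl none) (Sum.inl none)).1
  · have key : (((0 : ℝ) : ℂ) - (1 : ℝ) * Complex.I)⁻¹ • (rt 0 1 (by norm_num)).act
        (hat (Pi.single (Sum.inl (some a0)) 1)) - ((rt 0 1 (by norm_num)).act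
        (hat (Pi.single (Sum.inl (some a0)) 1)) none / (((0 : ℝ) : ℂ) - (1 : ℝ) * Complex.I)) •
        emb (cur (μ := μ) 1) = hat (Pi.single (Sum.inr (some a0)) 1) := by
      rw [act_rt, emb_cur]
      funext o
      rcases o with _ | _ | a <;> simp [hat, toC, Complex.ext_iff, Pi.single_apply]
    simpa using (hi.ent ht _ (by simp) (fx 0 1 (by norm_num)) key key).1.symm
  · obtain ⟨k, k0, hk⟩ : ∃ k : ℝ, k ≠ 0 ∧ k * k + k * k = 1 :=
      ⟨√2 / 2, by positivity, by nlinarith [Real.mul_self_sqrt (zero_le_two (α := ℝ))]⟩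
    have hc : (k : ℂ) - k * Complex.I ≠ 0 := fun e => k0 (by simpa using congrArg Complex.re e)
    have key : ((k : ℂ) - k * Complex.I)⁻¹ • (rt (μ := μ) k k hk).act
        (hat (Pi.single (Sum.inl none) 1)) - ((rt (μ := μ) k k hk).act
        (hat (Pi.single (Sum.inl none) 1)) none / ((k : ℂ) - k * Complex.I)) •
        emb (cur (μ := μ) 1) = hat (Pi.single (Sum.inr none) 1) := by
      have e1 : hat (Pi.single (Sum.inl none) 1 : Option μ ⊕ Option μ → ℝ) =
          Pi.single (some none) 1 := by
        funext o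
        rcases o with _ | _ | a <;> simp [hat, toC, Complex.ext_iff]
      have e2 : hat (Pi.single (Sum.inr none) 1 : Option μ ⊕ Option μ → ℝ) =
          Pi.single (some none) Complex.I := by
        funext o
        rcases o with _ | _ | a <;> simp [hat, toC, Complex.ext_iff]
      rw [act_rt, emb_cur, e1, e2]
      funext o
      rcases o with _ | _ | a
      · simp
        field_simp
        ring
      · simp
        linear_combination Complex.I * mul_inv_cancel₀ hc +
          (k : ℂ) * ((k : ℂ) - k * Complex.I)⁻¹ * Complex.I_mul_I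
      · simp
    simpa using (hi.ent ht _ hc (fx k k hk) key key).1.symm

end KB

end Pool.Agent.P.MP_8fdf05_gt
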