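import Pool.Agent.P.MP_8fdf05_gt.Coh
import Pool.Agent.P.MP_8fdf05_gt.Bridge
import Pool.Agent.P.MP_8fdf05_gt.FS
import Pool.Agent.P.MP_8fdf05_gt.KillA
import Pool.Agent.P.MP_8fdf05_gt.KillB

/-! Consequences of invariance in the affine chart. -/

open Matrix Set

namespace Pool.Agent.P.MP_8fdf05_gt

open Sm

variable {μ : Type} [Fintype μ] [DecidableEq μ] {T : ℝ} {g J : ℝ → Fld (II μ)}

/-- Invariance under all maps tau. -/
def Inv (T : ℝ) (g J : ℝ → Fld (II μ)) : Prop :=
  ∀ (L : Sy (Option μ)), ∀ t ∈ Ico 0 T, ∀ w ∈ L.dom,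
    g t w = (L.jc w)ᵀ * g t (L.tau w) * L.jc w ∧
    J t w = L.sgn • ((L.jc w)⁻¹ * J t (L.tau w) * L.jc w)

/-- The Killing fields, their independence of time and their values on the curve. -/
theorem exists_coh (hi : Inv T g J) (m : Geo (II μ) (Sm (DD (II μ) T))) (hd : m.d = dx)
    (hg : Rep m.g g) (hJ : Rep m.J J) :
    ∃ c : Coh m, (∀ i, dt (c.U i) = 0) ∧ (∀ a i, dt (c.E a i) = 0) ∧ (∀ a i, dt (c.F a i) = 0) ∧
      ∀ (x : (DD (II μ) T).S) (y : ℝ), x.1.2 = cur y →
        (fun i => ev x (c.U i)) = Pi.single (Sum.inl none) (1 - y ^ 2) ∧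
        (∀ a, (fun i => ev x (c.E a i)) = Pi.single (Sum.inl (some a)) 1) ∧
        (∀ a, (fun i => ev x (c.F a i)) = Pi.single (Sum.inr (some a)) y) ∧
        ∀ a b i, ev x (c.C a b i) = 0 :=
  KillA.coh hi m hd hg hJ

/-- The shape of g and of the fundamental form along the curve. -/
theorem shape (h : ChartAK T univ g J) (hi : Inv T g J) (a0 : μ) {t : ℝ} (ht : t ∈ Ico 0 T)
    (y : ℝ) :
    g t (cur y) = diagonal (Sum.elim
      (fun o => o.elim (g t (cur y) (Sum.inl none) (Sum.inl none))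
        fun _ => g t (cur y) (Sum.inl (some a0)) (Sum.inl (some a0)))
      (fun o => o.elim (g t (cur y) (Sum.inr none) (Sum.inr none))
        fun _ => g t (cur y) (Sum.inr (some a0)) (Sum.inr (some a0)))) ∧
    om (g t) (J t) (cur y) = fromBlocks 0
      (diagonal fun o => o.elim (om (g t) (J t) (cur y) (Sum.inl none) (Sum.inr none))
        fun _ => om (g t) (J t) (cur y) (Sum.inl (some a0)) (Sum.inr (some a0)))
      (-diagonal fun o => o.elim (om (g t) (J t) (cur y) (Sum.inl none) (Sum.inr none))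
        fun _ => om (g t) (J t) (cur y) (Sum.inl (some a0)) (Sum.inr (some a0))) 0 :=
  KB.shape h hi a0 ht y

/-- The extra symmetry at the two ends of the curve. -/
theorem ends (hi : Inv T g J) (a0 : μ) {t : ℝ} (ht : t ∈ Ico 0 T) :
    g t (cur 0) (Sum.inl none) (Sum.inl none) =
      g t (cur 0) (Sum.inl (some a0)) (Sum.inl (some a0)) ∧
    g t (cur 1) (Sum.inr (some a0)) (Sum.inr (some a0)) =
      g t (cur 1) (Sum.inl (some a0)) (Sum.inl (some a0)) ∧
    g t (cur 1) (Sum.inr none) (Sum.inr none) = g t (cur 1) (Sum.inl none) (Sum.inl none) :=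
  KB.ends hi a0 ht

end Pool.Agent.P.MP_8fdf05_gt
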