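import Pool.Agent.P.MP_8fdf05_gt.Nat
import Pool.Agent.P.MP_8fdf05_gt.Diff
import Pool.Agent.P.MP_8fdf05_gt.CP

/-! Uniqueness: a solution with invariant initial data is invariant. -/

open Matrix Set Filter Topology

namespace Pool.Agent.P.MP_8fdf05_gt

namespace Uniq

open Sm

lemma bound {E I I' : Type} [TopologicalSpace E] [Fintype I] [Fintype I'] {z0 : E}
    (c : E → I' → I → ℝ) (hc : ∀ a b, ContinuousAt (fun z => c z a b) z0) :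
    ∃ C, 0 ≤ C ∧ ∀ᶠ z in 𝓝 z0, ∀ (v : I → ℝ) (u : I' → ℝ), (∀ a, u a = ∑ b, c z a b * v b) →
      ∑ a, u a ^ 2 ≤ C * ∑ b, v b ^ 2 := by
  refine ⟨∑ a, ∑ b, c z0 a b ^ 2 + 1, by positivity, ?_⟩
  have h : ContinuousAt (fun z => ∑ a, ∑ b, c z a b ^ 2) z0 :=
    tendsto_finsetSum _ fun a _ => tendsto_finsetSum _ fun b _ => (hc a b).pow 2
  filter_upwards [h.eventually_lt continuousAt_const (lt_add_one _)] with z hz v u hu
  calc ∑ a, u a ^ 2 ≤ ∑ a, (∑ b, c z a b ^ 2) * ∑ b, v b ^ 2 :=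
        Finset.sum_le_sum fun a _ => by rw [hu]; exact Finset.sum_mul_sq_le_sq_mul_sq _ _ _
    _ ≤ _ := by
        rw [← Finset.sum_mul]
        exact mul_le_mul_of_nonneg_right hz.le (by positivity)

variable {ι : Type} [Fintype ι] [DecidableEq ι] {T : ℝ}

/-- The structure m over the ring of smooth functions represents the fields g and J. -/
structure IsGeo (m : Geo ι (Sm (DD ι T))) (g J : ℝ → Fld ι) : Prop where
  ak : ChartAK T univ g J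
  d : m.d = dx
  g' : Rep m.g g
  J' : Rep m.J J
  gi : Rep m.gi fun t z => (g t z)⁻¹
  Γ : ∀ i, Rep (m.Γ i) fun t => chr (g t) i
  S : ∀ i, Rep (m.S i) fun t => DJ (g t) (J t) i
  flow : m.Flow dt

lemma exists_geo {g J : ℝ → Fld ι} (h : ChartAK T univ g J) (hf : ChartFlow T univ g J) :
    ∃ m : Geo ι (Sm (DD ι T)), IsGeo m g J := by
  obtain ⟨m, h1, h2, h3, h4, h5, h6, -, -, -, h7⟩ := h.geo isOpen_univ
  exact ⟨m, h, h1, h2, h3, h4, h5, h6, h7 hf⟩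

omit [DecidableEq ι] in
lemma rep_ev {a : Matrix ι ι (Sm (DD ι T))} {F : ℝ → Fld ι} (h : Rep a F) (x : (DD ι T).S)
    (i j : ι) : ev x (a i j) = F x.1.1 x.1.2 i j := congrFun₂ (h x) i j

variable {m1 m2 : Geo ι (Sm (DD ι T))} {g1 J1 g2 J2 : ℝ → Fld ι}

lemma ev_dl (h1 : IsGeo m1 g1 J1) (h2 : IsGeo m2 g2 J2) (x : (DD ι T).S)
    (a : (ι × ι) ⊕ (ι × ι)) :
    ev x (dl m1 m2 a) = Sum.elim (fun s => (g1 x.1.1 x.1.2 - g2 x.1.1 x.1.2) s.1 s.2)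
      (fun s => (J1 x.1.1 x.1.2 - J2 x.1.1 x.1.2) s.1 s.2) a := by
  rcases a with a | a
  · simp [dl, rep_ev h1.g', rep_ev h2.g']
  · simp [dl, rep_ev h1.J', rep_ev h2.J']

lemma ev_ww (h1 : IsGeo m1 g1 J1) (h2 : IsGeo m2 g2 J2) (x : (DD ι T).S) (k : ι) :
    ev x (ww m1 m2 k) = ∑ p, ((chr (g1 x.1.1) p x.1.2 - chr (g2 x.1.1) p x.1.2) *
      ((g1 x.1.1 x.1.2)⁻¹)ᵀ) k p := by
  simp [ww, rep_ev h1.gi, rep_ev (h1.Γ _), rep_ev (h2.Γ _), Matrix.mul_apply, mul_comm]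

lemma ev_nn (h1 : IsGeo m1 g1 J1) (h2 : IsGeo m2 g2 J2) (x : (DD ι T).S) (s : ι × ι × ι) :
    ev x (nn m1 m2 s) = (DJ (g1 x.1.1) (J1 x.1.1) s.1 x.1.2 -
      DJ (g2 x.1.1) (J2 x.1.1) s.1 x.1.2) s.2.1 s.2.2 := by
  simp [nn, rep_ev (h1.S _), rep_ev (h2.S _)]

omit [DecidableEq ι] in
lemma sandwich (P X Q : Matrix ι ι ℝ) (a b : ι) :
    (P * X * Q) a b = ∑ s : ι × ι, P a s.1 * Q s.2 b * X s.1 s.2 := by
  simp only [Matrix.mul_apply, Finset.sum_mul, Fintype.sum_prod_type]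
  rw [Finset.sum_comm]
  exact Finset.sum_congr rfl fun _ _ => Finset.sum_congr rfl fun _ _ => by ring

lemma contract {N : Matrix ι ι ℝ} (hN : N.det ≠ 0) (Y : ι → Matrix ι ι ℝ) (g : Matrix ι ι ℝ)
    (k : ι) : ∑ p, (N⁻¹ * ((∑ i, N i p • Y i) * N) * ((Nᵀ * g * N)⁻¹)ᵀ) k p =
      ∑ l, N⁻¹ k l * ∑ i, (Y i * (g⁻¹)ᵀ) l i := by
  have hu : IsUnit N.det := isUnit_iff_ne_zero.2 hN
  have e : N * ((Nᵀ * g * N)⁻¹)ᵀ = (g⁻¹)ᵀ * (N⁻¹)ᵀ := by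
    rw [Matrix.mul_inv_rev, Matrix.mul_inv_rev, ← transpose_nonsing_inv, transpose_mul,
      transpose_mul, transpose_transpose, ← Matrix.mul_assoc, ← Matrix.mul_assoc,
      mul_nonsing_inv _ hu, Matrix.one_mul]
  have e2 : ∀ p, (N⁻¹ * ((∑ i, N i p • Y i) * N) * ((Nᵀ * g * N)⁻¹)ᵀ) k p =
      ∑ i, ∑ q, N i p * N⁻¹ p q * (N⁻¹ * (Y i * (g⁻¹)ᵀ)) k q := fun p => by
    rw [Matrix.mul_assoc, Matrix.mul_assoc, e, ← Matrix.mul_assoc, ← Matrix.mul_assoc,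
      Matrix.mul_apply, Finset.sum_comm]
    refine Finset.sum_congr rfl fun q _ => ?_
    simp only [Matrix.mul_sum, Matrix.mul_smul, Matrix.smul_mul, Matrix.sum_apply,
      Matrix.smul_apply, smul_eq_mul, Finset.sum_mul, transpose_apply, Matrix.mul_assoc]
    exact Finset.sum_congr rfl fun i _ => by ring
  simp only [e2]
  rw [Finset.sum_comm]
  simp only [Finset.mul_sum]
  rw [Finset.sum_comm (γ := ι) (f := fun l i => N⁻¹ k l * (Y i * (g⁻¹)ᵀ) l i)]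
  refine Finset.sum_congr rfl fun i _ => ?_
  rw [Finset.sum_comm, ← Matrix.mul_apply]
  simp only [← Finset.sum_mul, ← Matrix.mul_apply, mul_nonsing_inv _ hu]
  simp [one_apply]

variable {ν : Type} [Fintype ν] [DecidableEq ν]

lemma cont_jc (N : Sy ν) {z : ν ⊕ ν → ℝ} (hz : z ∈ N.dom) (a b : ν ⊕ ν) :
    ContinuousAt (fun w => N.jc w a b) z ∧ ContinuousAt (fun w => (N.jc w)⁻¹ a b) z := by
  have h0 : ContinuousAt (fderiv ℝ N.tau) z :=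
    (N.contDiffOn_tau.continuousOn_fderiv_of_isOpen N.isOpen_dom (by simp)).continuousAt
      (N.isOpen_dom.mem_nhds hz)
  have h1 : ContinuousAt N.jc z := continuousAt_pi.2 fun a => continuousAt_pi.2 fun b =>
    (continuous_apply a).continuousAt.comp (h0.clm_apply continuousAt_const)
  have h2 : ContinuousAt (fun w => (N.jc w)⁻¹) z := by
    refine (continuousAt_matrix_inv _ ?_).comp h1
    rw [Ring.inverse_eq_inv']
    exact continuousAt_inv₀ (N.jc_det hz)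
  exact ⟨continuousAt_pi.1 (continuousAt_pi.1 h1 a) b, continuousAt_pi.1 (continuousAt_pi.1 h2 a) b⟩

/-- The fields g' and J' are the pull backs of g and J. -/
def Rel (T : ℝ) (N : Sy ν) (g J g' J' : ℝ → Fld (ν ⊕ ν)) : Prop :=
  (∀ t ∈ Ico 0 T, ∀ w ∈ N.dom, g' t w = (N.jc w)ᵀ * g t (N.tau w) * N.jc w) ∧
  ∀ t ∈ Ico 0 T, ∀ w ∈ N.dom, J' t w = (1 : ℝ) • ((N.jc w)⁻¹ * J t (N.tau w) * N.jc w)

lemma cover (N : Sy ν) {m1 m2 m1' m2' : Geo (ν ⊕ ν) (Sm (DD (ν ⊕ ν) T))}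
    {g1 J1 g2 J2 g1' J1' g2' J2' : ℝ → Fld (ν ⊕ ν)} (h1 : IsGeo m1 g1 J1) (h2 : IsGeo m2 g2 J2)
    (h1' : IsGeo m1' g1' J1') (h2' : IsGeo m2' g2' J2') (r1 : Rel T N g1 J1 g1' J1')
    (r2 : Rel T N g2 J2 g2' J2') {z0 : ν ⊕ ν → ℝ} (hz : z0 ∈ N.dom) :
    ∃ C, ∀ᶠ z in 𝓝 z0, z ∈ N.dom ∧ ∀ t ∈ Ico 0 T,
      ∑ a, (dl m1' m2' a).fn (t, z) ^ 2 + ∑ b, (ww m1' m2' b).fn (t, z) ^ 2 +
          ∑ c, (nn m1' m2' c).fn (t, z) ^ 2 ≤
        C * (∑ a, (dl m1 m2 a).fn (t, N.tau z) ^ 2 + ∑ b, (ww m1 m2 b).fn (t, N.tau z) ^ 2 +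
          ∑ c, (nn m1 m2 c).fn (t, N.tau z) ^ 2) := by
  have c1 := fun a b => (cont_jc N hz a b).1
  have c2 := fun a b => (cont_jc N hz a b).2
  obtain ⟨C1, p1, b1⟩ := bound (fun z (a s : (ν ⊕ ν) × (ν ⊕ ν)) =>
    (N.jc z)ᵀ a.1 s.1 * N.jc z s.2 a.2) fun a s => (c1 _ _).mul (c1 _ _)
  obtain ⟨C2, p2, b2⟩ := bound (fun z (a s : (ν ⊕ ν) × (ν ⊕ ν)) =>
    (N.jc z)⁻¹ a.1 s.1 * N.jc z s.2 a.2) fun a s => (c2 _ _).mul (c1 _ _)
  obtain ⟨C3, p3, b3⟩ := bound (fun z (a s : ν ⊕ ν) => (N.jc z)⁻¹ a s) c2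
  obtain ⟨C4, p4, b4⟩ := bound (fun z (a s : (ν ⊕ ν) × (ν ⊕ ν) × (ν ⊕ ν)) =>
    N.jc z s.1 a.1 * ((N.jc z)⁻¹ a.2.1 s.2.1 * N.jc z s.2.2 a.2.2))
    fun a s => (c1 _ _).mul ((c2 _ _).mul (c1 _ _))
  refine ⟨C1 + C2 + C3 + C4, ?_⟩
  filter_upwards [N.isOpen_dom.mem_nhds hz, b1, b2, b3, b4] with z hz b1 b2 b3 b4
  refine ⟨hz, fun t ht => ?_⟩
  have m : ∀ w, (t, w) ∈ (DD (ν ⊕ ν) T).S := fun w => ⟨ht, trivial⟩
  obtain ⟨n1, n2, -, -⟩ := nat_fields N h1.ak h1'.ak (mul_one 1) r1.1 r1.2 ht hz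
  obtain ⟨n3, n4, -, -⟩ := nat_fields N h2.ak h2'.ak (mul_one 1) r2.1 r2.2 ht hz
  simp only [fn_apply _ (m _), Fintype.sum_sum_type (α₁ := (ν ⊕ ν) × (ν ⊕ ν))]
  have a1 := b1 (fun s => ev ⟨_, m (N.tau z)⟩ (dl m1 m2 (.inl s)))
    (fun s => ev ⟨_, m z⟩ (dl m1' m2' (.inl s))) fun a => by
      simp only [ev_dl h1 h2, ev_dl h1' h2', Sum.elim_inl, r1.1 t ht z hz, r2.1 t ht z hz,
        ← Matrix.sub_mul, ← Matrix.mul_sub, sandwich]
  have a2 := b2 (fun s => ev ⟨_, m (N.tau z)⟩ (dl m1 m2 (.inr s)))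
    (fun s => ev ⟨_, m z⟩ (dl m1' m2' (.inr s))) fun a => by
      simp only [ev_dl h1 h2, ev_dl h1' h2', Sum.elim_inr, r1.2 t ht z hz, r2.2 t ht z hz,
        one_smul, ← Matrix.sub_mul, ← Matrix.mul_sub, sandwich]
  have a3 := b3 (fun s => ev ⟨_, m (N.tau z)⟩ (ww m1 m2 s))
    (fun s => ev ⟨_, m z⟩ (ww m1' m2' s)) fun a => by
      simp only [ev_ww h1 h2, ev_ww h1' h2', n1, n3, r1.1 t ht z hz, ← Matrix.mul_sub,
        add_sub_add_right_eq_sub, ← Matrix.sub_mul, ← Finset.sum_sub_distrib, ← smul_sub]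
      exact contract (N.jc_det hz) _ _ a
  have a4 := b4 (fun s => ev ⟨_, m (N.tau z)⟩ (nn m1 m2 s))
    (fun s => ev ⟨_, m z⟩ (nn m1' m2' s)) fun a => by
      simp only [ev_nn h1 h2, ev_nn h1' h2', n2, n4, one_smul, ← Matrix.mul_sub,
        ← Matrix.sub_mul, ← Finset.sum_sub_distrib, ← smul_sub]
      rw [Fintype.sum_prod_type]
      simp only [Matrix.mul_sum, Matrix.sum_mul, Matrix.mul_smul, Matrix.smul_mul,
        Matrix.sum_apply, Matrix.smul_apply, smul_eq_mul, sandwich]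
      simp only [Finset.mul_sum, mul_assoc]
  set x1 := ∑ s, ev ⟨_, m (N.tau z)⟩ (dl m1 m2 (.inl s)) ^ 2
  set x2 := ∑ s, ev ⟨_, m (N.tau z)⟩ (dl m1 m2 (.inr s)) ^ 2
  set x3 := ∑ s, ev ⟨_, m (N.tau z)⟩ (ww m1 m2 s) ^ 2
  set x4 := ∑ s, ev ⟨_, m (N.tau z)⟩ (nn m1 m2 s) ^ 2
  have q1 : 0 ≤ x1 := by positivity
  have q2 : 0 ≤ x2 := by positivity
  have q3 : 0 ≤ x3 := by positivity
  have q4 : 0 ≤ x4 := by positivity
  have : C1 * x1 + C2 * x2 + C3 * x3 + C4 * x4 ≤ (C1 + C2 + C3 + C4) * (x1 + x2 + x3 + x4) := by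
    rw [add_mul, add_mul, add_mul]
    gcongr <;> linarith
  linarith

end Uniq

variable {ν : Type} [Fintype ν] [DecidableEq ν] {M : Type} [TopologicalSpace M]
  [ChartedSpace (ν ⊕ ν → ℝ) M] {ch : Sy ν → OpenPartialHomeomorph M (ν ⊕ ν → ℝ)}

theorem invariance (hc : IsCP ch) {T : ℝ} {g J : ℝ → M → Matrix (ν ⊕ ν) (ν ⊕ ν) ℝ}
    (h : IsSCF T g J) (G Jf : Fld (ν ⊕ ν)) (hG : ∀ L, form2 (g 0) (ch L) = G)
    (hJ : ∀ L, endo (J 0) (ch L) = fun w => L.sgn • Jf w) (L : Sy ν) {t : ℝ} (ht : t ∈ Ico 0 T) :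
    form2 (g t) (ch L) = form2 (g t) (ch 1) ∧
      endo (J t) (ch L) = fun w => L.sgn • endo (J t) (ch 1) w := by
  have ex : ∀ (L : Sy ν) (s : ℝ), s * s = 1 → ∃ m : Geo (ν ⊕ ν) (Sm (DD (ν ⊕ ν) T)),
      Uniq.IsGeo m (fun t => form2 (g t) (ch L)) fun t z => s • endo (J t) (ch L) z := by
    intro L s hs
    obtain ⟨h1, h2⟩ := h.chart (e := ch L) (by rw [hc.atl]; exact mem_range_self L)
      fun z _ => hc.jac_det L z
    rw [hc.tgt] at h1 h2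
    exact Uniq.exists_geo (h1.sign hs) (h2.sign hs)
  have rel : ∀ (L N : Sy ν) (s : ℝ), Uniq.Rel T N (fun t => form2 (g t) (ch L))
      (fun t z => s • endo (J t) (ch L) z) (fun t => form2 (g t) (ch (L * N)))
      fun t z => s • endo (J t) (ch (L * N)) z := fun L N s =>
    ⟨fun t _ w hw => hc.form2_trans _ L N hw, fun t _ w hw => by
      simp only [hc.endo_trans _ L N hw, one_smul, Matrix.mul_smul, Matrix.smul_mul]⟩
  choose m1 h1 using fun j => ex (Sy.perm j) 1 (mul_one 1)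
  choose m2 h2 using fun j => ex (L * Sy.perm j) L.sgn L.sgn_sq
  have hd : ∀ j, (m2 j).d = (m1 j).d := fun j => (h2 j).d.trans (h1 j).d.symm
  have key := energy (fun j => (m1 j).gi) (fun j => Uniq.dl (m1 j) (m2 j))
    (fun j => Uniq.ww (m1 j) (m2 j)) (fun j => Uniq.nn (m1 j) (m2 j))
    (fun j x => by rw [(h1 j).gi x]; exact ((h1 j).ak.pos _ x.2.1 _ trivial).inv)
    (fun j a => by
      simpa only [Uniq.s1, (h1 j).d] using Uniq.diff_δ (hd j) (h1 j).flow (h2 j).flow a)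
    (fun j a => by
      simpa only [Uniq.s1, (h1 j).d] using Uniq.diff_w (hd j) (h1 j).flow (h2 j).flow a)
    (fun j a => by
      simpa only [Uniq.s1, (h1 j).d] using Uniq.diff_n (hd j) (h1 j).flow (h2 j).flow a)
    (fun j x hx => by
      have e : (Sy.perm j).sgn = 1 := rfl
      simp only [Uniq.ev_dl (h1 j) (h2 j), Uniq.ev_ww (h1 j) (h2 j), Uniq.ev_nn (h1 j) (h2 j), hx,
        hG, hJ, Sy.sgn_mul, e, smul_smul, mul_one, L.sgn_sq, sub_self]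
      exact ⟨fun a => by cases a <;> rfl, fun b => by simp, fun c => rfl⟩)
    (fun j z0 => by
      obtain ⟨k, hk1, hk2⟩ := Sy.exists_perm (Sy.perm j) z0
      have r1 := rel (Sy.perm k) ((Sy.perm k)⁻¹ * Sy.perm j) 1
      have r2 := rel (L * Sy.perm k) ((Sy.perm k)⁻¹ * Sy.perm j) L.sgn
      rw [mul_inv_cancel_left] at r1
      rw [mul_assoc, mul_inv_cancel_left] at r2
      obtain ⟨C, hC⟩ := Uniq.cover _ (h1 k) (h2 k) (h1 j) (h2 j) r1 r2 hk1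
      obtain ⟨U, hU, hU1, hU2⟩ := eventually_nhds_iff.1 hC
      exact ⟨k, U, _, C, hU1, hU2, (Sy.contDiffOn_tau _).mono fun z hz => (hU z hz).1,
        (Sy.injOn_tau _).mono fun z hz => (hU z hz).1,
        fun z hz => Sy.fderiv_det _ (hU z hz).1, hk2, fun t ht z hz => (hU z hz).2 t ht⟩)
  have e1 : (Sy.perm none : Sy ν) = 1 := Sy.ext (by simp [Sy.perm]) rfl
  have e2 := fun w a => Uniq.ev_dl (h1 none) (h2 none) ⟨(t, w), ht, trivial⟩ a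
  simp only [key, map_zero, e1, mul_one, one_smul] at e2
  constructor
  · funext w; ext a b
    exact (sub_eq_zero.1 (e2 w (.inl (a, b))).symm).symm
  · funext w
    have : endo (J t) (ch 1) w = L.sgn • endo (J t) (ch L) w := by
      ext a b; exact sub_eq_zero.1 (e2 w (.inr (a, b))).symm
    rw [this, smul_smul, L.sgn_sq, one_smul]

end Pool.Agent.P.MP_8fdf05_gt
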