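import Pool.Agent.P.MP_8fdf05_gt.RedC
import Pool.Agent.P.MP_8fdf05_gt.Barrier
import Pool.Agent.P.MP_8fdf05_gt.Init1
import Pool.Agent.P.MP_8fdf05_gt.Uniq
import Pool.Agent.P.MP_8fdf05_gt.Class
import Pool.Agent.P.MP_8fdf05_gt.Chern

/-! Assembly. -/

open Matrix Set
open scoped ContDiff

namespace Pool.Agent.P.MP_8fdf05_gt

variable {ι : Type} [Fintype ι] [DecidableEq ι]

lemma ChartAK.Pc_eq {T : ℝ} {U : Set (ι → ℝ)} {g J : ℝ → Fld ι} (h : ChartAK T U g J) {t : ℝ}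
    (ht : t ∈ Ico 0 T) {z : ι → ℝ} (hz : z ∈ U) (Λ : ι → Fld ι) :
    Pc (g t) (J t) Λ z = Pform (J t) Λ z := by
  have hu : IsUnit (g t z).det := (h.pos t ht z hz).det_pos.ne'.isUnit
  have h1 : (om (g t) (J t) z)⁻¹ = J t z * (g t z)⁻¹ := by
    apply inv_eq_right_inv
    rw [om, ← Matrix.mul_assoc, h.herm t ht z hz, mul_nonsing_inv _ hu]
  ext i j
  have h2 : J t z * curv Λ i j z = J t z * (g t z)⁻¹ * (g t z * curv Λ i j z) := by
    rw [Matrix.mul_assoc, nonsing_inv_mul_cancel_left _ _ hu]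
  simp only [Pc, Pform, of_apply]
  rw [h1, h2]
  rfl

variable {ν : Type} [Fintype ν] [DecidableEq ν] {M : Type} [TopologicalSpace M]
  [ChartedSpace (ν ⊕ ν → ℝ) M] {ch : Sy ν → OpenPartialHomeomorph M (ν ⊕ ν → ℝ)}

lemma IsCP.jac_ne (hc : IsCP ch) {e : OpenPartialHomeomorph M (ν ⊕ ν → ℝ)}
    (he : e ∈ atlas (ν ⊕ ν → ℝ) M) (z : ν ⊕ ν → ℝ) : (jac e z).det ≠ 0 := by
  rw [hc.atl] at he
  obtain ⟨L, rfl⟩ := he
  exact hc.jac_det L z

lemma IsFlow.scf (hc : IsCP ch) {T : ℝ} {g J : ℝ → M → Matrix (ν ⊕ ν) (ν ⊕ ν) ℝ}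
    (h : IsFlow T g J) : IsSCF T g J := by
  refine ⟨h.ak, h.smooth, fun e he t ht z hz a b => ?_⟩
  obtain ⟨Λ, hΛ⟩ := h.flow e he t ht
  have hk := chartAK_of h.ak (h.smooth e he) he fun z _ => hc.jac_ne he z
  have ht' : t ∈ Ico 0 T := ⟨ht.1.le, ht.2⟩
  have h1 := (hΛ z hz).2 a b
  rwa [hk.Pc_eq ht' hz, Pform_congr e.open_target _
    (fun w hw => (isChern_iff hk e.open_target ht' hw Λ).1 (hΛ w hw).1) hz] at h1

lemma IsAK.chern (hc : IsCP ch) {g J : M → Matrix (ν ⊕ ν) (ν ⊕ ν) ℝ} (h : IsAK g J)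
    {e : OpenPartialHomeomorph M (ν ⊕ ν → ℝ)} (he : e ∈ atlas (ν ⊕ ν → ℝ) M) {z : ν ⊕ ν → ℝ}
    (hz : z ∈ e.target) : IsChern (form2 g e) (endo J e) (chern (form2 g e) (endo J e)) z ∧
      Pc (form2 g e) (endo J e) (chern (form2 g e) (endo J e)) z =
        Pform (endo J e) (chern (form2 g e) (endo J e)) z := by
  have hk : ChartAK 1 e.target (fun _ => form2 g e) fun _ => endo J e :=
    chartAK_of (g := fun _ => g) (J := fun _ => J) (fun _ _ => h)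
      (fun a b => ⟨(h.smooth e he a b).1.comp contDiffOn_snd fun _ hx => hx.2,
        (h.smooth e he a b).2.comp contDiffOn_snd fun _ hx => hx.2⟩) he fun z _ => hc.jac_ne he z
  have h0 : (0 : ℝ) ∈ Ico (0 : ℝ) 1 := ⟨le_rfl, one_pos⟩
  exact ⟨(isChern_iff hk e.open_target h0 hz _).2 fun _ => rfl, hk.Pc_eq h0 hz _⟩

theorem red_of_flow {μ : Type} [Fintype μ] [DecidableEq μ] (a0 : μ) {M : Type}
    [TopologicalSpace M] [ChartedSpace (II μ → ℝ) M]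
    {ch : Sy (Option μ) → OpenPartialHomeomorph M (II μ → ℝ)} (hc : IsCP ch) {T η : ℝ}
    (hη : η ∈ Ioo (0 : ℝ) (1 / 10)) {g J : ℝ → M → Matrix (II μ) (II μ) ℝ} (h : IsFlow T g J)
    (hG : ∀ L, form2 (g 0) (ch L) = g1 η)
    (hJ : ∀ L, endo (J 0) (ch L) = fun w => L.sgn • J1 η w) :
    ∃ R : Red (Fintype.card μ) T, R.Init η := by
  have hs := h.scf hc
  obtain ⟨h1, h2⟩ := hs.chart (e := ch 1) (by rw [hc.atl]; exact mem_range_self _)
    fun z _ => hc.jac_det 1 z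
  rw [hc.tgt] at h1 h2
  refine exists_red a0 h1 h2 (fun L t ht w hw => ?_) hη (hG 1) ?_
  · obtain ⟨k1, k2⟩ := invariance hc hs _ _ hG hJ L ht
    have k3 := hc.form2_trans (g t) 1 L hw
    have k4 := hc.endo_trans (J t) 1 L hw
    rw [one_mul] at k3 k4
    refine ⟨k1 ▸ k3, ?_⟩
    rw [← k4, k2, smul_smul, L.sgn_sq, one_smul]
  · show endo (J 0) (ch 1) = _
    rw [hJ]
    funext w
    rw [show (1 : Sy (Option μ)).sgn = 1 from rfl, one_smul]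

end Pool.Agent.P.MP_8fdf05_gt
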