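import Mathlib

/-! Riemannian tensor calculus over a commutative ring with commuting derivations. -/

open Matrix Finset

namespace Pool.Agent.P.MP_8fdf05_gt

noncomputable section

variable {ι : Type} [Fintype ι] [DecidableEq ι] {A : Type} [CommRing A] [Algebra ℝ A]

/-- Entrywise derivative of a matrix. -/
def md (D : Derivation ℝ A A) (M : Matrix ι ι A) : Matrix ι ι A := M.map D

section md
variable (D : Derivation ℝ A A) (M N : Matrix ι ι A)

omit [Fintype ι] [DecidableEq ι] in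
@[simp] lemma md_apply (i j : ι) : md D M i j = D (M i j) := rfl
omit [Fintype ι] [DecidableEq ι] in
lemma md_add : md D (M + N) = md D M + md D N := by ext; simp
omit [Fintype ι] [DecidableEq ι] in
lemma md_sub : md D (M - N) = md D M - md D N := by ext; simp
omit [Fintype ι] [DecidableEq ι] in
lemma md_neg : md D (-M) = -md D M := by ext; simp
omit [Fintype ι] [DecidableEq ι] in
lemma md_zero : md D (0 : Matrix ι ι A) = 0 := by ext; simp
omit [Fintype ι] [DecidableEq ι] in
lemma md_transpose : md D Mᵀ = (md D M)ᵀ := rfl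
omit [Fintype ι] [DecidableEq ι] in
lemma md_smul (a : A) : md D (a • M) = D a • M + a • md D M := by
  ext; simp; ring
omit [Fintype ι] [DecidableEq ι] in
lemma md_rsmul (c : ℝ) : md D (c • M) = c • md D M := by ext; simp
omit [DecidableEq ι] in
lemma md_mul : md D (M * N) = md D M * N + M * md D N := by
  ext i j
  simp only [md_apply, Matrix.mul_apply, map_sum, Derivation.leibniz, smul_eq_mul,
    Matrix.add_apply, ← sum_add_distrib]
  exact sum_congr rfl fun k _ => by ring
omit [Fintype ι] in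
lemma md_one : md D (1 : Matrix ι ι A) = 0 := by
  ext i j; by_cases h : i = j <;> simp [h]
omit [Fintype ι] [DecidableEq ι] in
lemma md_sum {κ : Type} (s : Finset κ) (f : κ → Matrix ι ι A) :
    md D (∑ k ∈ s, f k) = ∑ k ∈ s, md D (f k) := by
  ext; simp [Matrix.sum_apply]
omit [DecidableEq ι] in
lemma trace_md : trace (md D M) = D (trace M) := by simp [trace]

end md

lemma half_add (x : A) : (1 / 2 : ℝ) • (x + x) = x := by
  rw [← two_smul ℝ x, smul_smul]; norm_num

lemma eq_zero_of_add_self {x : A} (h : x + x = 0) : x = 0 := by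
  rw [← half_add x, h, smul_zero]

lemma eq_of_two {x y : A} (h : 2 * x = 2 * y) : x = y := by
  have : x - y = 0 := eq_zero_of_add_self (by linear_combination h)
  linear_combination this

omit [DecidableEq ι] in
lemma sum4_comm {B : Type} [AddCommMonoid B] (f : ι → ι → ι → ι → B) :
    ∑ i, ∑ j, ∑ p, ∑ q, f i j p q = ∑ p, ∑ q, ∑ i, ∑ j, f i j p q := by
  calc ∑ i, ∑ j, ∑ p, ∑ q, f i j p q = ∑ x : ι × ι, ∑ y : ι × ι, f x.1 x.2 y.1 y.2 := by
        simp only [Fintype.sum_prod_type]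
    _ = ∑ y : ι × ι, ∑ x : ι × ι, f x.1 x.2 y.1 y.2 := sum_comm
    _ = _ := by simp only [Fintype.sum_prod_type]

/-- Covariant derivative of an endomorphism. -/
def acov (d : ι → Derivation ℝ A A) (Γ : ι → Matrix ι ι A) (i : ι) (X : Matrix ι ι A) :
    Matrix ι ι A := md (d i) X + Γ i * X - X * Γ i

/-- Curvature of a connection. -/
def acurv (d : ι → Derivation ℝ A A) (Γ : ι → Matrix ι ι A) (i j : ι) : Matrix ι ι A :=
  md (d i) (Γ j) - md (d j) (Γ i) + Γ i * Γ j - Γ j * Γ i

section conn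
variable (d : ι → Derivation ℝ A A) (Γ : ι → Matrix ι ι A)

lemma acov_mul (i : ι) (X Y : Matrix ι ι A) :
    acov d Γ i (X * Y) = acov d Γ i X * Y + X * acov d Γ i Y := by
  simp only [acov, md_mul]; noncomm_ring

omit [DecidableEq ι] in
lemma acov_add (i : ι) (X Y : Matrix ι ι A) :
    acov d Γ i (X + Y) = acov d Γ i X + acov d Γ i Y := by
  simp only [acov, md_add, Matrix.mul_add, Matrix.add_mul]; abel

omit [DecidableEq ι] in
lemma acov_neg (i : ι) (X : Matrix ι ι A) : acov d Γ i (-X) = -acov d Γ i X := by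
  simp only [acov, md_neg, Matrix.mul_neg, Matrix.neg_mul]; abel

lemma acov_one (i : ι) : acov d Γ i 1 = 0 := by simp [acov, md_one]

omit [DecidableEq ι] in
lemma trace_acov (i : ι) (X : Matrix ι ι A) : trace (acov d Γ i X) = d i (trace X) := by
  simp [acov, trace_md, trace_mul_comm X]

omit [DecidableEq ι] in
lemma acurv_skew (i j : ι) : acurv d Γ i j = -acurv d Γ j i := by
  simp only [acurv]; abel

variable (hd : ∀ i j x, d i (d j x) = d j (d i x))
include hd

omit [Fintype ι] [DecidableEq ι] in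
lemma md_comm (i j : ι) (X : Matrix ι ι A) : md (d i) (md (d j) X) = md (d j) (md (d i) X) := by
  ext; simp [hd i j]

lemma acov_acov (i j : ι) (X : Matrix ι ι A) :
    acov d Γ i (acov d Γ j X) - acov d Γ j (acov d Γ i X) =
      acurv d Γ i j * X - X * acurv d Γ i j := by
  simp only [acov, acurv, md_add, md_sub, md_mul, md_comm d hd i j X]; noncomm_ring

lemma bianchi2 (i j k : ι) :
    acov d Γ i (acurv d Γ j k) + acov d Γ j (acurv d Γ k i) + acov d Γ k (acurv d Γ i j) = 0 := by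
  simp only [acov, acurv, md_add, md_sub, md_mul, md_comm d hd j i, md_comm d hd k j,
    md_comm d hd k i]
  noncomm_ring

end conn

/-- A metric over a differential ring. -/
structure Met (ι : Type) [Fintype ι] [DecidableEq ι] (A : Type) [CommRing A] [Algebra ℝ A] where
  d : ι → Derivation ℝ A A
  comm : ∀ i j x, d i (d j x) = d j (d i x)
  g : Matrix ι ι A
  gi : Matrix ι ι A
  g_gi : g * gi = 1
  symm : gᵀ = g

namespace Met

variable (m : Met ι A)

lemma gi_g : m.gi * m.g = 1 := mul_eq_one_comm.1 m.g_gi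

lemma gi_symm : m.giᵀ = m.gi := by
  have h : m.giᵀ * m.g = 1 := by rw [← m.symm, ← transpose_mul, m.g_gi, transpose_one]
  calc m.giᵀ = m.giᵀ * (m.g * m.gi) := by rw [m.g_gi, Matrix.mul_one]
    _ = m.gi := by rw [← Matrix.mul_assoc, h, Matrix.one_mul]

lemma g_sw (i j : ι) : m.g i j = m.g j i := by rw [← transpose_apply m.g, m.symm]
lemma gi_sw (i j : ι) : m.gi i j = m.gi j i := by rw [← transpose_apply m.gi, m.gi_symm]

lemma g_gi_mul (X : Matrix ι ι A) : m.g * (m.gi * X) = X := by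
  rw [← Matrix.mul_assoc, m.g_gi, Matrix.one_mul]
lemma gi_g_mul (X : Matrix ι ι A) : m.gi * (m.g * X) = X := by
  rw [← Matrix.mul_assoc, m.gi_g, Matrix.one_mul]

lemma g_cancel {X Y : Matrix ι ι A} (h : m.g * X = m.g * Y) : X = Y := by
  rw [← m.gi_g_mul X, h, m.gi_g_mul]

/-- Christoffel symbols. -/
def Γ (i : ι) : Matrix ι ι A :=
  m.gi * Matrix.of fun l j => (1 / 2 : ℝ) • (m.d i (m.g l j) + m.d j (m.g l i) - m.d l (m.g i j))

lemma Γ_sw (i k j : ι) : m.Γ i k j = m.Γ j k i := by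
  simp only [Γ, Matrix.mul_apply, of_apply]
  refine sum_congr rfl fun l _ => ?_
  rw [m.g_sw i j, add_comm (m.d i _)]

lemma dg (i : ι) : md (m.d i) m.g = m.g * m.Γ i + (m.Γ i)ᵀ * m.g := by
  have h : (m.Γ i)ᵀ * m.g = (m.g * m.Γ i)ᵀ := by rw [transpose_mul, m.symm]
  rw [h, Γ, m.g_gi_mul]
  ext l j
  simp only [md_apply, Matrix.add_apply, transpose_apply, of_apply, ← smul_add]
  rw [m.g_sw j l, m.g_sw j i, m.g_sw l i]
  refine (half_add _).symm.trans ?_
  congr 1; ring

lemma md_gi (D : Derivation ℝ A A) : md D m.gi = -(m.gi * md D m.g * m.gi) := by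
  have h := md_mul D m.g m.gi
  rw [m.g_gi, md_one] at h
  have h2 : m.g * md D m.gi = -(md D m.g * m.gi) := by rw [eq_neg_iff_add_eq_zero, add_comm, ← h]
  rw [← m.gi_g_mul (md D m.gi), h2, Matrix.mul_neg, Matrix.mul_assoc]

lemma dgi (i : ι) : md (m.d i) m.gi = -(m.Γ i * m.gi + m.gi * (m.Γ i)ᵀ) := by
  rw [md_gi, dg, Matrix.mul_add, Matrix.add_mul, m.gi_g_mul, Matrix.mul_assoc, Matrix.mul_assoc,
    m.g_gi, Matrix.mul_one]

/-- A tensor symmetric in one pair and skew in another vanishes. -/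
lemma braid (B : ι → Matrix ι ι A) (h1 : ∀ i k j, B i k j = B j k i)
    (h2 : ∀ i, (m.g * B i)ᵀ = -(m.g * B i)) (i : ι) : B i = 0 := by
  have s : ∀ i l j, (m.g * B i) l j = (m.g * B j) l i := fun i l j => by
    simp only [Matrix.mul_apply, h1 i _ j]
  have k : ∀ i l j, (m.g * B i) l j = -(m.g * B i) j l := fun i l j => by
    rw [← transpose_apply (m.g * B i), h2]; rfl
  refine m.g_cancel ?_
  ext l j
  rw [Matrix.mul_zero]
  refine eq_zero_of_add_self ?_
  have e1 := s i l j; have e2 := k j l i; have e3 := s j i l; have e4 := k l i j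
  have e5 := s l j i; have e6 := k i j l
  linear_combination e1 + e2 - e3 - e4 + e5 + e6

/-- Covariant derivative of an endomorphism. -/
abbrev cov (i : ι) (X : Matrix ι ι A) : Matrix ι ι A := acov m.d m.Γ i X

/-- Riemann curvature. -/
abbrev R (i j : ι) : Matrix ι ι A := acurv m.d m.Γ i j

/-- Covariant derivative of a bilinear form. -/
def covL (i : ι) (H : Matrix ι ι A) : Matrix ι ι A := md (m.d i) H - (m.Γ i)ᵀ * H - H * m.Γ i

lemma covL_g (i : ι) (X : Matrix ι ι A) : m.covL i (m.g * X) = m.g * m.cov i X := by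
  simp only [covL, cov, acov, md_mul, dg]; noncomm_ring

lemma covL_transpose (i : ι) (H : Matrix ι ι A) : (m.covL i H)ᵀ = m.covL i Hᵀ := by
  simp only [covL, transpose_sub, transpose_mul, transpose_transpose, md_transpose]; abel

lemma covL_neg (i : ι) (H : Matrix ι ι A) : m.covL i (-H) = -m.covL i H := by
  simp only [covL, md_neg, Matrix.mul_neg, Matrix.neg_mul]; abel

lemma covL_add (i : ι) (H K : Matrix ι ι A) : m.covL i (H + K) = m.covL i H + m.covL i K := by
  simp only [covL, md_add, Matrix.mul_add, Matrix.add_mul]; abel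

lemma covL_apply (i : ι) (H : Matrix ι ι A) (l k : ι) : m.covL i H l k =
    m.d i (H l k) - ∑ a, m.Γ i a l * H a k - ∑ a, m.Γ i a k * H l a := by
  simp [covL, Matrix.mul_apply, mul_comm]

/-- Skew endomorphisms. -/
def Sk (X : Matrix ι ι A) : Prop := (m.g * X)ᵀ = -(m.g * X)

lemma Sk.apply {m : Met ι A} {X : Matrix ι ι A} (h : m.Sk X) (l k : ι) :
    (m.g * X) l k = -(m.g * X) k l := by
  rw [← transpose_apply (m.g * X), h]; rfl

lemma Sk.cov {m : Met ι A} {X : Matrix ι ι A} (h : m.Sk X) (i : ι) : m.Sk (m.cov i X) := by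
  unfold Sk; rw [← covL_g, covL_transpose, h, covL_neg]

lemma Sk.tg {m : Met ι A} {X : Matrix ι ι A} (h : m.Sk X) : Xᵀ * m.g = -(m.g * X) := by
  rw [← h, transpose_mul, m.symm]

lemma Sk.comm {m : Met ι A} {X Y : Matrix ι ι A} (h : m.Sk X) (h' : m.Sk Y) :
    m.Sk (X * Y - Y * X) := by
  unfold Sk
  rw [Matrix.mul_sub, transpose_sub, transpose_mul, transpose_mul, transpose_mul, transpose_mul,
    m.symm, Matrix.mul_assoc, Matrix.mul_assoc, h.tg, h'.tg, Matrix.mul_neg, Matrix.mul_neg,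
    ← Matrix.mul_assoc, ← Matrix.mul_assoc, h.tg, h'.tg]
  noncomm_ring

lemma Sk.tr {m : Met ι A} {X : Matrix ι ι A} (h : m.Sk X) : trace X = 0 := by
  refine eq_zero_of_add_self ?_
  have h1 : trace (m.gi * (m.g * X)) = trace (m.gi * (m.g * X)ᵀ) := by
    rw [← trace_transpose, transpose_mul, m.gi_symm, trace_mul_comm]
  rw [h, Matrix.mul_neg, trace_neg, m.gi_g_mul] at h1
  linear_combination h1

lemma R_sk (i j : ι) : m.Sk (m.R i j) := by
  have h := md_comm m.d m.comm i j m.g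
  rw [dg, dg, md_add, md_add, md_mul, md_mul, md_mul, md_mul, dg, dg] at h
  unfold Sk
  simp only [R, acurv, transpose_mul, transpose_sub, transpose_add, m.symm, ← md_transpose]
  rw [eq_neg_iff_add_eq_zero, ← sub_eq_zero.2 h]
  noncomm_ring

lemma bianchi1 (i j k a : ι) : m.R i j a k + m.R j k a i + m.R k i a j = 0 := by
  simp only [R, acurv, Matrix.sub_apply, Matrix.add_apply, md_apply, Matrix.mul_apply]
  rw [m.Γ_sw j a k, m.Γ_sw i a k, m.Γ_sw i a j]
  simp only [m.Γ_sw j _ k, m.Γ_sw i _ k, m.Γ_sw i _ j]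
  ring

/-- The curvature with all indices down. -/
def Rm (i j l k : ι) : A := (m.g * m.R i j) l k

lemma Rm_s1 (i j l k : ι) : m.Rm i j l k = -m.Rm j i l k := by
  simp only [Rm, R]; rw [acurv_skew, Matrix.mul_neg]; rfl

lemma Rm_s2 (i j l k : ι) : m.Rm i j l k = -m.Rm i j k l := (m.R_sk i j).apply l k

lemma Rm_b (i j k l : ι) : m.Rm i j l k + m.Rm j k l i + m.Rm k i l j = 0 := by
  simp only [Rm, Matrix.mul_apply, ← sum_add_distrib, ← mul_add, bianchi1, mul_zero,
    sum_const_zero]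

lemma Rm_pair (i j l k : ι) : m.Rm i j l k = m.Rm l k i j := by
  apply eq_of_two
  have b1 := m.Rm_b i j k l; have b2 := m.Rm_b j k l i; have b3 := m.Rm_b k l i j
  have b4 := m.Rm_b l i j k
  rw [m.Rm_s2 j k i l, m.Rm_s1 k l i j] at b2
  rw [m.Rm_s1 k l j i, m.Rm_s2 l k j i, m.Rm_s1 i k j l, m.Rm_s2 k i j l] at b3
  rw [m.Rm_s2 l i k j, m.Rm_s2 i j k l, m.Rm_s1 j l k i, m.Rm_s2 l j k i] at b4
  linear_combination b1 + b2 - b3 - b4

/-- Ricci tensor. -/
def Ric : Matrix ι ι A := Matrix.of fun j k => ∑ i, m.R i j i k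

lemma Ric_eq (j k : ι) : m.Ric j k = ∑ i, ∑ l, m.gi i l * m.Rm i j l k := by
  simp only [Ric, of_apply, Rm]
  refine sum_congr rfl fun i _ => ?_
  rw [← Matrix.mul_apply, m.gi_g_mul]

lemma Ric_sw (j k : ι) : m.Ric j k = m.Ric k j := by
  rw [Ric_eq, Ric_eq, sum_comm]
  refine sum_congr rfl fun i _ => sum_congr rfl fun l _ => ?_
  rw [m.Rm_pair, m.gi_sw]

lemma Ric_symm : m.Ricᵀ = m.Ric := by ext j k; exact m.Ric_sw k j

/-- Ricci endomorphism. -/
def Rc : Matrix ι ι A := m.gi * m.Ric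

lemma g_Rc : m.g * m.Rc = m.Ric := m.g_gi_mul _

lemma contr_R (k j : ι) : ∑ p, ∑ q, m.gi p q * m.R p j k q = -m.Rc k j := by
  have : (Matrix.of fun k j => ∑ p, ∑ q, m.gi p q * m.R p j k q) = -m.Rc := by
    refine m.g_cancel ?_
    ext l j
    rw [Matrix.mul_neg, g_Rc, Matrix.neg_apply, Ric_sw, Ric_eq, ← sum_neg_distrib]
    simp only [Matrix.mul_apply, of_apply, mul_sum, ← sum_neg_distrib]
    rw [sum_comm]
    refine sum_congr rfl fun p _ => ?_
    rw [sum_comm]
    refine sum_congr rfl fun q _ => ?_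
    rw [m.Rm_s2, mul_neg, neg_neg, Rm, Matrix.mul_apply, mul_sum]
    exact sum_congr rfl fun a _ => by ring
  exact congrFun (congrFun this k) j

/-- Covariant derivative of a family of endomorphisms. -/
def cov2 (i : ι) (X : ι → Matrix ι ι A) (j : ι) : Matrix ι ι A :=
  m.cov i (X j) - ∑ k, m.Γ i k j • X k

lemma ricci_id (i j : ι) (Y : Matrix ι ι A) :
    m.cov2 i (fun k => m.cov k Y) j - m.cov2 j (fun k => m.cov k Y) i =
      m.R i j * Y - Y * m.R i j := by
  rw [← acov_acov m.d m.Γ m.comm]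
  simp only [cov2, m.Γ_sw i _ j]; abel

lemma g_cov2 (p : ι) (X : ι → Matrix ι ι A) (q l k : ι) : (m.g * m.cov2 p X q) l k =
    m.d p ((m.g * X q) l k) - ∑ a, m.Γ p a l * (m.g * X q) a k -
      ∑ a, m.Γ p a k * (m.g * X q) l a - ∑ a, m.Γ p a q * (m.g * X a) l k := by
  rw [cov2, Matrix.mul_sub, ← covL_g, Matrix.sub_apply, covL_apply, Matrix.mul_sum,
    Matrix.sum_apply]
  simp only [Matrix.mul_smul, Matrix.smul_apply, smul_eq_mul]

/-- Covariant derivative of the curvature endomorphisms. -/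
def DR (p i j : ι) : Matrix ι ι A :=
  m.cov p (m.R i j) - ∑ a, m.Γ p a i • m.R a j - ∑ a, m.Γ p a j • m.R i a

/-- The same with all indices down. -/
def DRm (p i j l k : ι) : A := (m.g * m.DR p i j) l k

lemma DRm_eq (p i j l k : ι) : m.DRm p i j l k = m.d p (m.Rm i j l k) -
    ∑ a, m.Γ p a l * m.Rm i j a k - ∑ a, m.Γ p a k * m.Rm i j l a -
    ∑ a, m.Γ p a i * m.Rm a j l k - ∑ a, m.Γ p a j * m.Rm i a l k := by
  rw [DRm, DR, Matrix.mul_sub, Matrix.mul_sub, ← covL_g, Matrix.sub_apply, Matrix.sub_apply,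
    covL_apply, Matrix.mul_sum, Matrix.mul_sum, Matrix.sum_apply, Matrix.sum_apply]
  simp only [Matrix.mul_smul, Matrix.smul_apply, smul_eq_mul, Rm]

lemma DRm_pair (p i j l k : ι) : m.DRm p i j l k = m.DRm p l k i j := by
  rw [DRm_eq, DRm_eq]
  simp only [m.Rm_pair i j, m.Rm_pair _ j l k, m.Rm_pair i _ l k]; ring

lemma DRm_s1 (p i j l k : ι) : m.DRm p i j l k = -m.DRm p j i l k := by
  rw [DRm_eq, DRm_eq]
  simp only [m.Rm_s1 i j, m.Rm_s1 _ j l k, m.Rm_s1 i _ l k, map_neg, mul_neg, sum_neg_distrib]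
  ring

lemma DRm_s2 (p i j l k : ι) : m.DRm p i j l k = -m.DRm p i j k l := by
  rw [DRm_pair, DRm_s1, DRm_pair]

lemma DRm_b (p i j l k : ι) : m.DRm p i j l k + m.DRm i j p l k + m.DRm j p i l k = 0 := by
  have h : m.DR p i j + m.DR i j p + m.DR j p i = 0 := by
    rw [← bianchi2 m.d m.Γ m.comm p i j]
    have e : ∀ x y z : ι, ∑ a, m.Γ x a y • m.R a z = -∑ a, m.Γ y a x • m.R z a := by
      intro x y z
      rw [← sum_neg_distrib]
      exact sum_congr rfl fun a _ => by rw [m.Γ_sw x a y, R, acurv_skew, smul_neg]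
    simp only [DR]
    rw [e p i j, e i j p, e j p i]
    simp only [m.Γ_sw i _ p, m.Γ_sw j _ i, m.Γ_sw p _ j]
    abel
  simp only [DRm, ← Matrix.add_apply, ← Matrix.mul_add, h, Matrix.mul_zero, Matrix.zero_apply]

lemma DRic (p j k : ι) : m.covL p m.Ric j k = ∑ i, ∑ l, m.gi i l * m.DRm p i j l k := by
  have h : ∀ i, ∑ l, m.gi i l * m.DRm p i j l k = m.DR p i j i k := fun i => by
    simp only [DRm]; rw [← Matrix.mul_apply, m.gi_g_mul]
  simp only [h, DR, covL_apply, Ric, of_apply, cov, acov, Matrix.sub_apply, Matrix.add_apply,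
    md_apply, Matrix.mul_apply, Matrix.sum_apply, Matrix.smul_apply, smul_eq_mul, map_sum,
    sum_sub_distrib, sum_add_distrib, mul_sum]
  rw [sum_comm (f := fun i a => m.Γ p i a * m.R i j a k),
    sum_comm (f := fun a i => m.Γ p a j * m.R i a i k),
    sum_comm (f := fun a i => m.Γ p a k * m.R i j i a)]
  simp only [mul_comm (m.Γ p _ k)]
  ring

/-- Once contracted second Bianchi identity. -/
lemma bianchi_c1 (i l j : ι) : ∑ p, ∑ q, m.gi p q * m.DRm p i q l j =
    m.covL j m.Ric i l - m.covL l m.Ric i j := by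
  have s : ∀ a b c, m.covL a m.Ric b c = m.covL a m.Ric c b := fun a b c => by
    rw [← transpose_apply (m.covL a m.Ric), covL_transpose, Ric_symm]
  rw [s j, s l, DRic, DRic, ← sum_sub_distrib]
  refine sum_congr rfl fun p _ => ?_
  rw [← sum_sub_distrib]
  refine sum_congr rfl fun q _ => ?_
  have b := m.DRm_b p l j i q
  rw [m.DRm_s1 l j p, m.DRm_s2 l p j, m.DRm_s2 j p l] at b
  rw [m.DRm_pair p i q]
  linear_combination m.gi p q * b

/-- Twice contracted second Bianchi identity. -/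
lemma bianchi_c2 (l : ι) : ∑ i, ∑ j, m.gi i j *
    (m.covL i m.Ric l j + m.covL j m.Ric l i - m.covL l m.Ric i j) = 0 := by
  have s : ∀ a b c, m.covL a m.Ric b c = m.covL a m.Ric c b := fun a b c => by
    rw [← transpose_apply (m.covL a m.Ric), covL_transpose, Ric_symm]
  have h1 : ∑ i, ∑ j, m.gi i j * (m.covL j m.Ric l i - m.covL l m.Ric i j) =
      ∑ i, ∑ j, ∑ p, ∑ q, m.gi i j * (m.gi p q * m.DRm p i q l j) := by
    refine sum_congr rfl fun i _ => sum_congr rfl fun j _ => ?_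
    rw [s j l, ← bianchi_c1, mul_sum]
    simp only [mul_sum]
  have h2 : ∑ i, ∑ j, m.gi i j * m.covL i m.Ric l j =
      -∑ p, ∑ q, ∑ i, ∑ j, m.gi i j * (m.gi p q * m.DRm p i q l j) := by
    rw [← sum_neg_distrib]
    refine sum_congr rfl fun p _ => ?_
    rw [← sum_neg_distrib]
    refine sum_congr rfl fun q _ => ?_
    rw [s p l, DRic, mul_sum, ← sum_neg_distrib]
    refine sum_congr rfl fun i _ => ?_
    rw [mul_sum, ← sum_neg_distrib]
    refine sum_congr rfl fun j _ => ?_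
    rw [m.DRm_s2 p i q l j]; ring
  have h3 : ∑ i, ∑ j, ∑ p, ∑ q, m.gi i j * (m.gi p q * m.DRm p i q l j) =
      ∑ p, ∑ q, ∑ i, ∑ j, m.gi i j * (m.gi p q * m.DRm p i q l j) := by
    exact sum4_comm _
  have h4 : ∑ i, ∑ j, m.gi i j *
      (m.covL i m.Ric l j + m.covL j m.Ric l i - m.covL l m.Ric i j) =
      ∑ i, ∑ j, m.gi i j * m.covL i m.Ric l j +
      ∑ i, ∑ j, m.gi i j * (m.covL j m.Ric l i - m.covL l m.Ric i j) := by
    simp only [← sum_add_distrib]
    exact sum_congr rfl fun i _ => sum_congr rfl fun j _ => by ring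
  rw [h4, h1, h2, h3]; ring

/-- Variation of the Christoffel symbols. -/
lemma g_dΓ (D : Derivation ℝ A A) (hD : ∀ i x, D (m.d i x) = m.d i (D x)) (i l j : ι) :
    (m.g * md D (m.Γ i)) l j = (1 / 2 : ℝ) • (m.covL i (md D m.g) l j + m.covL j (md D m.g) l i -
      m.covL l (md D m.g) i j) := by
  have h : ∀ i l j, m.covL i (md D m.g) l j =
      (m.g * md D (m.Γ i)) l j + (m.g * md D (m.Γ i)) j l := by
    intro i l j
    have h1 := congrArg (md D) (m.dg i)
    have h2 : md D (md (m.d i) m.g) = md (m.d i) (md D m.g) := by ext; simp [hD]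
    rw [h2, md_add, md_mul, md_mul, md_transpose] at h1
    have h3 : m.covL i (md D m.g) = m.g * md D (m.Γ i) + (m.g * md D (m.Γ i))ᵀ := by
      rw [covL, h1, transpose_mul, m.symm]; abel
    rw [h3]; rfl
  have s : ∀ i l j, (m.g * md D (m.Γ i)) l j = (m.g * md D (m.Γ j)) l i := fun i l j => by
    simp only [Matrix.mul_apply, md_apply, m.Γ_sw i _ j]
  rw [h, h, h, s j l i, s j i l, s l j i]
  refine (half_add _).symm.trans ?_
  congr 1
  rw [s l i j]; ring

end Met

end

end Pool.Agent.P.MP_8fdf05_gt
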