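import Pool.Agent.P.MP_8fdf05_gt.Defs

/-! Affine charts of complex projective space and the maps between them. -/

open Matrix Set
open scoped ContDiff ComplexConjugate

namespace Pool.Agent.P.MP_8fdf05_gt

variable {ν : Type} [Fintype ν] [DecidableEq ν]

/-- Real coordinates to complex coordinates. -/
def toC (w : ν ⊕ ν → ℝ) : ν → ℂ := fun a => ⟨w (Sum.inl a), w (Sum.inr a)⟩

/-- Complex coordinates to real coordinates. -/
def frC (c : ν → ℂ) : ν ⊕ ν → ℝ := Sum.elim (fun a => (c a).re) fun a => (c a).im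

/-- The lift (1, w) of a point. -/
def emb (w : ν ⊕ ν → ℝ) : Option ν → ℂ := fun o => o.elim 1 (toC w)

/-- The lift (0, v) of a vector. -/
def hat (v : ν ⊕ ν → ℝ) : Option ν → ℂ := fun o => o.elim 0 (toC v)

/-- Affine coordinates of a homogeneous vector. -/
noncomputable def aff (z : Option ν → ℂ) : ν ⊕ ν → ℝ := frC fun a => z (some a) / z none

/-- A real orthogonal matrix, possibly composed with complex conjugation. -/
@[ext] structure Sy (ν : Type) [Fintype ν] [DecidableEq ν] where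
  B : Matrix (Option ν) (Option ν) ℝ
  orth : Bᵀ * B = 1
  ε : Bool

namespace Sy

/-- Action on homogeneous coordinates. -/
noncomputable def act (L : Sy ν) (z : Option ν → ℂ) : Option ν → ℂ :=
  fun o => ∑ o', (L.B o o' : ℂ) * (if L.ε then conj (z o') else z o')

instance : Mul (Sy ν) := ⟨fun L L' => ⟨L.B * L'.B, by
  rw [transpose_mul, Matrix.mul_assoc, ← Matrix.mul_assoc L.Bᵀ, L.orth, Matrix.one_mul, L'.orth],
  xor L.ε L'.ε⟩⟩

instance : One (Sy ν) := ⟨⟨1, by simp, false⟩⟩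

instance : Inv (Sy ν) := ⟨fun L => ⟨L.Bᵀ, by
  rw [transpose_transpose]; exact mul_eq_one_comm.1 L.orth, L.ε⟩⟩

@[simp] lemma mul_B (L L' : Sy ν) : (L * L').B = L.B * L'.B := rfl
@[simp] lemma mul_ε (L L' : Sy ν) : (L * L').ε = xor L.ε L'.ε := rfl
@[simp] lemma one_B : (1 : Sy ν).B = 1 := rfl
@[simp] lemma one_ε : (1 : Sy ν).ε = false := rfl
@[simp] lemma inv_B (L : Sy ν) : L⁻¹.B = L.Bᵀ := rfl
@[simp] lemma inv_ε (L : Sy ν) : L⁻¹.ε = L.ε := rfl

instance : Group (Sy ν) := Group.ofLeftAxioms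
  (fun a b c => Sy.ext (Matrix.mul_assoc _ _ _) (by simp))
  (fun a => Sy.ext (Matrix.one_mul _) (by simp))
  (fun a => Sy.ext a.orth (by simp))

/-- The sign by which J changes. -/
def sgn (L : Sy ν) : ℝ := if L.ε then -1 else 1

/-- The permutation exchanging the coordinate 0 and the coordinate j. -/
def perm (j : Option ν) : Sy ν :=
  ⟨(Equiv.swap none j).permMatrix ℝ, by
    rw [Matrix.transpose_permMatrix, ← Matrix.permMatrix_mul]; simp, false⟩

/-- The map induced by L in the affine chart. -/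
noncomputable def tau (L : Sy ν) (w : ν ⊕ ν → ℝ) : ν ⊕ ν → ℝ := aff (L.act (emb w))

/-- Its domain. -/
def dom (L : Sy ν) : Set (ν ⊕ ν → ℝ) := {w | L.act (emb w) none ≠ 0}

/-- Its Jacobian matrix. -/
noncomputable def jc (L : Sy ν) : Fld (ν ⊕ ν) := fun w =>
  Matrix.of fun a b => fderiv ℝ L.tau w (Pi.single b 1) a

end Sy

namespace TauCP

lemma toC_frC (c : ν → ℂ) : toC (frC c) = c := by
  funext a; simp [toC, frC]

lemma frC_toC (w : ν ⊕ ν → ℝ) : frC (toC w) = w := by
  funext a; cases a <;> simp [toC, frC]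

lemma aff_emb (w : ν ⊕ ν → ℝ) : aff (emb w) = w := by
  simp only [aff, emb, Option.elim_some, Option.elim_none, div_one]
  exact frC_toC w

lemma aff_smul {c : ℂ} (hc : c ≠ 0) (z : Option ν → ℂ) : aff (c • z) = aff z := by
  simp only [aff, Pi.smul_apply, smul_eq_mul, mul_div_mul_left _ _ hc]

lemma emb_aff {z : Option ν → ℂ} (hz : z none ≠ 0) : emb (aff z) = (z none)⁻¹ • z := by
  funext o
  cases o with
  | none => simp [emb, hz]
  | some a => simp [emb, aff, toC_frC, div_eq_inv_mul]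

lemma aff_of_zero {z : Option ν → ℂ} (hz : z none = 0) : aff z = 0 := by
  funext a; cases a <;> simp [aff, frC, hz]

/-- The scalar twisted by the conjugation of L. -/
noncomputable def tw (L : Sy ν) (c : ℂ) : ℂ := if L.ε then conj c else c

lemma tw_ne (L : Sy ν) {c : ℂ} (hc : c ≠ 0) : tw L c ≠ 0 := by
  unfold tw; split_ifs <;> simp [hc]

lemma tw_eq_zero (L : Sy ν) {c : ℂ} : tw L c = 0 ↔ c = 0 := by
  unfold tw; split_ifs <;> simp

lemma act_smul (L : Sy ν) (c : ℂ) (z : Option ν → ℂ) : L.act (c • z) = tw L c • L.act z := by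
  funext o
  simp only [Sy.act, tw, Pi.smul_apply, smul_eq_mul, Finset.mul_sum]
  refine Finset.sum_congr rfl fun o' _ => ?_
  split_ifs
  · rw [map_mul]; ring
  · ring

lemma act_add (L : Sy ν) (z z' : Option ν → ℂ) : L.act (z + z') = L.act z + L.act z' := by
  funext o
  simp only [Sy.act, Pi.add_apply, ← Finset.sum_add_distrib]
  refine Finset.sum_congr rfl fun o' _ => ?_
  split_ifs
  · rw [map_add]; ring
  · ring

lemma act_one (z : Option ν → ℂ) : (1 : Sy ν).act z = z := by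
  funext o
  simp [Sy.act, Matrix.one_apply, apply_ite Complex.ofReal]

/-- The action as a real linear map. -/
noncomputable def actL (L : Sy ν) : (Option ν → ℂ) →L[ℝ] (Option ν → ℂ) :=
  LinearMap.toContinuousLinearMap
    { toFun := L.act
      map_add' := act_add L
      map_smul' := fun c z => by
        have h := act_smul L (c : ℂ) z
        have h2 : tw L (c : ℂ) = c := by unfold tw; split_ifs <;> simp
        rw [h2] at h
        simpa only [Complex.coe_smul, RingHom.id_apply] using h }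

lemma actL_apply (L : Sy ν) (z : Option ν → ℂ) : actL L z = L.act z := rfl

/-- The lift of vectors as a real linear map. -/
noncomputable def hatL : (ν ⊕ ν → ℝ) →L[ℝ] (Option ν → ℂ) :=
  LinearMap.toContinuousLinearMap
    { toFun := hat
      map_add' := fun v v' => by
        funext o; cases o <;> simp [hat, toC, Complex.ext_iff]
      map_smul' := fun c v => by
        funext o; cases o <;> simp [hat, toC, Complex.ext_iff] }

lemma hatL_apply (v : ν ⊕ ν → ℝ) : hatL v = hat v := rfl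

/-- Passage to real coordinates as a real linear map. -/
noncomputable def frCL : (ν → ℂ) →L[ℝ] (ν ⊕ ν → ℝ) :=
  LinearMap.toContinuousLinearMap
    { toFun := frC
      map_add' := fun v v' => by
        funext o; cases o <;> simp [frC]
      map_smul' := fun c v => by
        funext o; cases o <;> simp [frC] }

lemma frCL_apply (c : ν → ℂ) : frCL c = frC c := rfl

lemma emb_eq (w : ν ⊕ ν → ℝ) : emb w = emb 0 + hatL w := by
  funext o; cases o <;> simp [emb, hatL_apply, hat, toC, Complex.ext_iff]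

lemma hasFDerivAt_emb (w : ν ⊕ ν → ℝ) : HasFDerivAt emb (hatL (ν := ν)) w := by
  have : (emb : (ν ⊕ ν → ℝ) → _) = fun w => emb 0 + hatL w := funext emb_eq
  rw [this]
  exact (hatL (ν := ν)).hasFDerivAt.const_add _

lemma contDiff_emb : ContDiff ℝ ∞ (emb : (ν ⊕ ν → ℝ) → _) := by
  have : (emb : (ν ⊕ ν → ℝ) → _) = fun w => emb 0 + hatL w := funext emb_eq
  rw [this]
  exact contDiff_const.add (hatL (ν := ν)).contDiff

lemma contDiff_act (L : Sy ν) : ContDiff ℝ ∞ L.act := (actL L).contDiff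

lemma contDiffOn_aff : ContDiffOn ℝ ∞ (aff : (Option ν → ℂ) → _) {z | z none ≠ 0} := by
  have : (aff : (Option ν → ℂ) → _) = fun z => frCL fun a => z (some a) * (z none)⁻¹ := by
    funext z; simp only [aff, frCL_apply, div_eq_mul_inv]
  rw [this]
  refine (frCL (ν := ν)).contDiff.comp_contDiffOn (contDiffOn_pi.2 fun a => ?_)
  refine (contDiff_apply ℝ ℂ (some a)).contDiffOn.mul ?_
  intro z hz
  exact (((contDiffAt_inv ℝ hz).comp z (contDiff_apply ℝ ℂ none).contDiffAt)).contDiffWithinAt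

lemma perm_inv (j : Option ν) : (Sy.perm j)⁻¹ = Sy.perm j := by
  refine Sy.ext ?_ rfl
  simp [Sy.perm, Matrix.transpose_permMatrix]

lemma act_perm (j : Option ν) (z : Option ν → ℂ) :
    (Sy.perm j).act z = fun o => z (Equiv.swap none j o) := by
  funext o
  simp [Sy.act, Sy.perm, Equiv.Perm.permMatrix, PEquiv.toMatrix_apply, apply_ite Complex.ofReal]

lemma norm_frC_le {c : ν → ℂ} (h : ∀ a, ‖c a‖ ≤ 1) : ‖frC c‖ ≤ 1 := by
  refine (pi_norm_le_iff_of_nonneg zero_le_one).2 fun a => ?_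
  cases a with
  | inl a => exact (Complex.abs_re_le_norm _).trans (h a)
  | inr a => exact (Complex.abs_im_le_norm _).trans (h a)

lemma exists_perm' {z : Option ν → ℂ} (hz : z ≠ 0) :
    ∃ j, (Sy.perm j)⁻¹.act z none ≠ 0 ∧ ‖aff ((Sy.perm j)⁻¹.act z)‖ ≤ 1 := by
  obtain ⟨j, -, hj⟩ := Finset.exists_max_image Finset.univ (fun o => ‖z o‖) Finset.univ_nonempty
  have h0 : z j ≠ 0 := by
    intro h
    apply hz
    funext o
    have := hj o (Finset.mem_univ _)
    rw [h, norm_zero] at this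
    exact norm_le_zero_iff.1 this
  refine ⟨j, ?_, ?_⟩
  · rw [perm_inv, act_perm]; simpa using h0
  · rw [perm_inv, act_perm]
    refine norm_frC_le fun a => ?_
    simp only [Equiv.swap_apply_left, norm_div]
    exact div_le_one_of_le₀ (hj _ (Finset.mem_univ _)) (norm_nonneg _)

end TauCP

namespace Sy

open TauCP

lemma sgn_mul (L L' : Sy ν) : (L * L').sgn = L.sgn * L'.sgn := by
  rcases L with ⟨B, hB, _ | _⟩ <;> rcases L' with ⟨B', hB', _ | _⟩ <;> simp [sgn]

lemma sgn_sq (L : Sy ν) : L.sgn * L.sgn = 1 := by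
  simp only [sgn]
  cases L.ε <;> simp

lemma act_mul (L L' : Sy ν) (z : Option ν → ℂ) : (L * L').act z = L.act (L'.act z) := by
  funext o
  rcases L with ⟨B, hB, _ | _⟩ <;> rcases L' with ⟨B', hB', _ | _⟩ <;>
    simp [act, Matrix.mul_apply, Finset.mul_sum, Finset.sum_mul, mul_assoc,
      -Fintype.sum_option] <;>
    exact Finset.sum_comm

lemma isOpen_dom (L : Sy ν) : IsOpen L.dom :=
  isOpen_ne_fun ((continuous_apply none).comp
    ((contDiff_act L).continuous.comp contDiff_emb.continuous)) continuous_const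

lemma contDiffOn_tau (L : Sy ν) : ContDiffOn ℝ ∞ L.tau L.dom :=
  contDiffOn_aff.comp ((contDiff_act L).comp contDiff_emb).contDiffOn fun _ hw => hw

lemma dom_one : (1 : Sy ν).dom = univ := by
  ext w; simp [dom, act_one, emb]

lemma tau_one (w : ν ⊕ ν → ℝ) : (1 : Sy ν).tau w = w := by
  rw [tau, act_one, aff_emb]

lemma jc_one (w : ν ⊕ ν → ℝ) : (1 : Sy ν).jc w = 1 := by
  have : (1 : Sy ν).tau = id := funext tau_one
  ext a b
  simp [jc, this, Matrix.one_apply, Pi.single_apply]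

lemma mem_dom_mul (L L' : Sy ν) {w : ν ⊕ ν → ℝ} (hw : w ∈ L'.dom) :
    w ∈ (L * L').dom ↔ L'.tau w ∈ L.dom := by
  simp only [dom, mem_ofPred_eq, tau] at hw ⊢
  rw [emb_aff hw, act_smul, act_mul]
  simp [tw_ne L (inv_ne_zero hw)]

lemma tau_mul (L L' : Sy ν) {w : ν ⊕ ν → ℝ} (hw : w ∈ L'.dom) :
    (L * L').tau w = L.tau (L'.tau w) := by
  simp only [dom, mem_ofPred_eq] at hw
  simp only [tau]
  rw [emb_aff hw, act_smul, act_mul, aff_smul (tw_ne L (inv_ne_zero hw))]

lemma differentiableAt_tau (L : Sy ν) {w : ν ⊕ ν → ℝ} (hw : w ∈ L.dom) :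
    DifferentiableAt ℝ L.tau w :=
  (L.contDiffOn_tau.contDiffAt (L.isOpen_dom.mem_nhds hw)).differentiableAt (by simp)

lemma jc_eq (L : Sy ν) (w : ν ⊕ ν → ℝ) :
    L.jc w = LinearMap.toMatrix' (fderiv ℝ L.tau w : (ν ⊕ ν → ℝ) →ₗ[ℝ] (ν ⊕ ν → ℝ)) := by
  ext a b
  simp [jc, LinearMap.toMatrix'_apply]

lemma jc_mul (L L' : Sy ν) {w : ν ⊕ ν → ℝ} (hw : w ∈ L'.dom) (hw' : w ∈ (L * L').dom) :
    (L * L').jc w = L.jc (L'.tau w) * L'.jc w := by
  have h1 : (L * L').tau =ᶠ[nhds w] L.tau ∘ L'.tau :=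
    Filter.eventually_of_mem (L'.isOpen_dom.mem_nhds hw) fun u hu => tau_mul L L' hu
  rw [jc_eq, jc_eq, jc_eq, h1.fderiv_eq, fderiv_comp w
    (L.differentiableAt_tau ((mem_dom_mul L L' hw).1 hw')) (L'.differentiableAt_tau hw),
    ← LinearMap.toMatrix'_comp]
  rfl

lemma jc_mulVec (L : Sy ν) (w v : ν ⊕ ν → ℝ) : L.jc w *ᵥ v = fderiv ℝ L.tau w v := by
  rw [jc_eq, LinearMap.toMatrix'_mulVec]
  rfl

lemma jc_det (L : Sy ν) {w : ν ⊕ ν → ℝ} (hw : w ∈ L.dom) : (L.jc w).det ≠ 0 := by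
  have h := jc_mul L⁻¹ L hw (by rw [inv_mul_cancel, dom_one]; trivial)
  rw [inv_mul_cancel, jc_one] at h
  intro h0
  have := congrArg Matrix.det h
  rw [Matrix.det_mul, h0] at this
  simp at this

lemma fderiv_det (L : Sy ν) {w : ν ⊕ ν → ℝ} (hw : w ∈ L.dom) : (fderiv ℝ L.tau w).det ≠ 0 := by
  have h := jc_det L hw
  rwa [jc_eq, LinearMap.det_toMatrix'] at h

lemma injOn_tau (L : Sy ν) : InjOn L.tau L.dom := by
  intro w hw w' hw' h
  have h1 := tau_mul L⁻¹ L hw
  have h2 := tau_mul L⁻¹ L hw'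
  rw [inv_mul_cancel, tau_one] at h1 h2
  rw [h1, h2, h]

lemma emb_tau (L : Sy ν) {w : ν ⊕ ν → ℝ} (hw : w ∈ L.dom) :
    emb (L.tau w) = (L.act (emb w) none)⁻¹ • L.act (emb w) :=
  emb_aff hw

/-- The derivative of tau, lifted. -/
lemma hat_jc (L : Sy ν) {w : ν ⊕ ν → ℝ} (hw : w ∈ L.dom) (v : ν ⊕ ν → ℝ) :
    hat (L.jc w *ᵥ v) = (L.act (emb w) none)⁻¹ • L.act (hat v) -
      (L.act (hat v) none / L.act (emb w) none ^ 2) • L.act (emb w) := by
  have hw0 : L.act (emb w) none ≠ 0 := hw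
  have hz : HasFDerivAt (fun u => L.act (emb u)) ((actL L).comp hatL) w :=
    (actL L).hasFDerivAt.comp w (hasFDerivAt_emb w)
  have hz0 : HasFDerivAt (fun u => L.act (emb u) none)
      ((ContinuousLinearMap.proj none).comp ((actL L).comp hatL)) w :=
    (hasFDerivAt_pi'.1 hz) none
  have hi := (hasFDerivAt_inv' (𝕜 := ℝ) hw0).comp w hz0
  have h1 := hi.smul hz
  have h2 : HasFDerivAt (fun u => emb (L.tau u)) (hatL.comp (fderiv ℝ L.tau w)) w :=
    HasFDerivAt.comp (g := emb) (f := L.tau) w (hasFDerivAt_emb (L.tau w))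
      (L.differentiableAt_tau hw).hasFDerivAt
  have h3 : (fun u => emb (L.tau u)) =ᶠ[nhds w]
      fun u => (L.act (emb u) none)⁻¹ • L.act (emb u) :=
    Filter.eventually_of_mem (L.isOpen_dom.mem_nhds hw) fun u hu => emb_tau L hu
  have h4 := (h2.congr_of_eventuallyEq h3.symm).unique h1
  have h5 := congrArg (fun A => A v) h4
  simp only [ContinuousLinearMap.comp_apply, hatL_apply] at h5
  rw [jc_mulVec, h5]
  funext o
  simp [actL_apply, hatL_apply]
  field_simp
  ring

/-- Every point lies in the unit polydisc of one of the standard charts. -/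
lemma exists_perm (L : Sy ν) (w : ν ⊕ ν → ℝ) :
    ∃ j, w ∈ ((perm j)⁻¹ * L).dom ∧ ‖((perm j)⁻¹ * L).tau w‖ ≤ 1 := by
  have hz : L.act (emb w) ≠ 0 := by
    intro h
    have h1 := act_mul L⁻¹ L (emb w)
    rw [inv_mul_cancel, act_one, h, ← actL_apply, map_zero] at h1
    have := congrFun h1 none
    simp [emb] at this
  obtain ⟨j, h1, h2⟩ := exists_perm' hz
  exact ⟨j, by simpa only [dom, mem_ofPred_eq, act_mul] using h1,
    by simpa only [tau, act_mul] using h2⟩

end Sy

end Pool.Agent.P.MP_8fdf05_gt
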