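import Pool.Agent.P.MP_8fdf05_gt.Bridge
import Pool.Agent.P.MP_8fdf05_gt.Tau

/-! Naturality under changes of coordinates and of gauge; transgression. -/

open Matrix

namespace Pool.Agent.P.MP_8fdf05_gt

section abstr

variable {ι : Type} [Fintype ι] [DecidableEq ι] {A A' : Type} [CommRing A] [Algebra ℝ A]
  [CommRing A'] [Algebra ℝ A']

/-- m' is obtained from m by a change of coordinates with Jacobian N and a sign s. -/
structure Chg (m : Geo ι A) (m' : Geo ι A') (f : A →ₐ[ℝ] A') (N Ni : Matrix ι ι A') (s : ℝ) :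
    Prop where
  inv : N * Ni = 1
  ss : s * s = 1
  chain : ∀ a x, m'.d a (f x) = ∑ i, N i a * f (m.d i x)
  sym : ∀ a b i, m'.d a (N i b) = m'.d b (N i a)
  g : m'.g = Nᵀ * m.g.map f * N
  J : m'.J = s • (Ni * m.J.map f * N)

namespace NatX

omit [Fintype ι] [DecidableEq ι] in
lemma mp_smul (f : A →ₐ[ℝ] A') (c : A) (X : Matrix ι ι A) :
    (c • X).map f = f c • X.map f := by
  ext; simp

omit [Fintype ι] [DecidableEq ι] in
lemma mp_rsmul (f : A →ₐ[ℝ] A') (c : ℝ) (X : Matrix ι ι A) : (c • X).map f = c • X.map f := by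
  ext; simp

omit [Fintype ι] [DecidableEq ι] in
lemma mp_add (f : A →ₐ[ℝ] A') (X Y : Matrix ι ι A) : (X + Y).map f = X.map f + Y.map f := by
  ext; simp

omit [Fintype ι] [DecidableEq ι] in
lemma mp_sub (f : A →ₐ[ℝ] A') (X Y : Matrix ι ι A) : (X - Y).map f = X.map f - Y.map f := by
  ext; simp

omit [DecidableEq ι] in
lemma mp_mul (f : A →ₐ[ℝ] A') (X Y : Matrix ι ι A) : (X * Y).map f = X.map f * Y.map f :=
  Matrix.map_mul

omit [DecidableEq ι] in
lemma mp_sum (f : A →ₐ[ℝ] A') (X : ι → Matrix ι ι A) :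
    (∑ i, X i).map f = ∑ i, (X i).map f := by
  ext; simp [Matrix.sum_apply]

omit [Fintype ι] [DecidableEq ι] in
lemma mp_tr (f : A →ₐ[ℝ] A') (X : Matrix ι ι A) : Xᵀ.map f = (X.map f)ᵀ := rfl

omit [DecidableEq ι] in
lemma mp_trace (f : A →ₐ[ℝ] A') (X : Matrix ι ι A) : trace (X.map f) = f (trace X) := by
  simp [trace]

omit [DecidableEq ι] in
lemma acov_rsmul (d : ι → Derivation ℝ A A) (Γ : ι → Matrix ι ι A) (i : ι) (c : ℝ)
    (X : Matrix ι ι A) : acov d Γ i (c • X) = c • acov d Γ i X := by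
  simp only [acov, md_rsmul, Matrix.mul_smul, Matrix.smul_mul, smul_add, smul_sub]

lemma md_inv (D : Derivation ℝ A A) {G Gi : Matrix ι ι A} (hG : G * Gi = 1) :
    md D Gi = -(Gi * (md D G * Gi)) := by
  have h := md_mul D G Gi
  rw [hG, md_one] at h
  have h2 : G * md D Gi = -(md D G * Gi) := by rw [eq_neg_iff_add_eq_zero, add_comm, ← h]
  rw [← Matrix.mul_neg, ← h2, ← Matrix.mul_assoc, mul_eq_one_comm.1 hG, Matrix.one_mul]

/-- Gauge change of a covariant derivative. -/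
lemma acov_gauge (d : ι → Derivation ℝ A A) (Γ : ι → Matrix ι ι A) {G Gi : Matrix ι ι A}
    (hG : G * Gi = 1) (i : ι) (X : Matrix ι ι A) :
    acov d (fun a => Gi * (Γ a * G + md (d a) G)) i (Gi * X * G) = Gi * acov d Γ i X * G := by
  have hc : ∀ Y : Matrix ι ι A, G * (Gi * Y) = Y := fun Y => by
    rw [← Matrix.mul_assoc, hG, Matrix.one_mul]
  simp only [acov, md_mul, md_inv _ hG, Matrix.mul_add, Matrix.add_mul, Matrix.mul_sub,
    Matrix.sub_mul, Matrix.neg_mul, Matrix.mul_assoc, hc]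
  abel

/-- Gauge change of the curvature. -/
lemma acurv_gauge (d : ι → Derivation ℝ A A) (hd : ∀ i j x, d i (d j x) = d j (d i x))
    (Γ : ι → Matrix ι ι A) {G Gi : Matrix ι ι A} (hG : G * Gi = 1) (i j : ι) :
    acurv d (fun a => Gi * (Γ a * G + md (d a) G)) i j = Gi * acurv d Γ i j * G := by
  have hc : ∀ Y : Matrix ι ι A, G * (Gi * Y) = Y := fun Y => by
    rw [← Matrix.mul_assoc, hG, Matrix.one_mul]
  simp only [acurv, md_mul, md_add, md_inv _ hG, Matrix.mul_add, Matrix.add_mul, Matrix.mul_sub,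
    Matrix.sub_mul, Matrix.neg_mul, Matrix.mul_assoc, hc, md_comm d hd i j G]
  abel

section pull

variable {d : ι → Derivation ℝ A A} {d' : ι → Derivation ℝ A' A'} {f : A →ₐ[ℝ] A'}
  {N : Matrix ι ι A'} (hc : ∀ a x, d' a (f x) = ∑ i, N i a * f (d i x))
include hc

omit [DecidableEq ι] in
lemma md_map (a : ι) (X : Matrix ι ι A) :
    md (d' a) (X.map f) = ∑ i, N i a • (md (d i) X).map f := by
  ext k l
  simp [hc, Matrix.sum_apply]

omit [DecidableEq ι] in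
lemma acov_pull (Γ : ι → Matrix ι ι A) (a : ι) (X : Matrix ι ι A) :
    acov d' (fun a => ∑ i, N i a • (Γ i).map f) a (X.map f) =
      ∑ i, N i a • (acov d Γ i X).map f := by
  simp only [acov, md_map hc, mp_add, mp_sub, mp_mul, Matrix.mul_sum, Matrix.sum_mul,
    Matrix.mul_smul, Matrix.smul_mul, smul_add, smul_sub, Finset.sum_add_distrib,
    Finset.sum_sub_distrib]

omit [DecidableEq ι] in
lemma acurv_pull (hs : ∀ a b i, d' a (N i b) = d' b (N i a)) (Γ : ι → Matrix ι ι A) (a b : ι) :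
    acurv d' (fun a => ∑ i, N i a • (Γ i).map f) a b =
      ∑ i, ∑ j, (N i a * N j b) • (acurv d Γ i j).map f := by
  have e1 : ∀ (X : ι → ι → Matrix ι ι A') (a b : ι),
      ∑ j, N j b • ∑ i, N i a • X i j = ∑ i, ∑ j, (N i a * N j b) • X i j := by
    intro X a b
    rw [Finset.sum_comm]
    simp only [Finset.smul_sum, smul_smul, mul_comm]
  have e2 : ∀ (X : ι → ι → Matrix ι ι A') (a b : ι),
      ∑ j, N j a • ∑ i, N i b • X i j = ∑ i, ∑ j, (N i a * N j b) • X j i := by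
    intro X a b
    simp only [Finset.smul_sum, smul_smul]
  have e3 : ∀ a b : ι, (∑ i, N i a • (Γ i).map f) * (∑ i, N i b • (Γ i).map f) =
      ∑ j, N j b • ∑ i, N i a • ((Γ i).map f * (Γ j).map f) := by
    intro a b
    simp only [Matrix.mul_sum, Matrix.sum_mul, Matrix.mul_smul, Matrix.smul_mul]
  simp only [acurv, md_sum, md_smul, md_map hc, e3, Finset.sum_add_distrib, hs a b]
  rw [e1 (fun i j => (md (d i) (Γ j)).map f), e2 (fun i j => (md (d i) (Γ j)).map f),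
    e1 (fun i j => (Γ i).map f * (Γ j).map f), e2 (fun i j => (Γ i).map f * (Γ j).map f)]
  simp only [mp_add, mp_sub, mp_mul, smul_add, smul_sub, Finset.sum_add_distrib,
    Finset.sum_sub_distrib]
  abel

end pull

end NatX

open NatX

variable {m : Geo ι A} {m' : Geo ι A'} {f : A →ₐ[ℝ] A'} {N Ni : Matrix ι ι A'} {s : ℝ}

lemma Chg.Γ (h : Chg m m' f N Ni s) (a : ι) :
    m'.Γ a = Ni * ((∑ i, N i a • (m.Γ i).map f) * N + md (m'.d a) N) := by
  have hc : ∀ Y : Matrix ι ι A', N * (Ni * Y) = Y := fun Y => by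
    rw [← Matrix.mul_assoc, h.inv, Matrix.one_mul]
  refine sub_eq_zero.1 (m'.braid
    (fun a => m'.Γ a - Ni * ((∑ i, N i a • (m.Γ i).map f) * N + md (m'.d a) N)) ?_ ?_ a)
  · intro a k b
    have e : ∀ l, ((∑ i, N i a • (m.Γ i).map f) * N) l b =
        ((∑ i, N i b • (m.Γ i).map f) * N) l a := by
      intro l
      simp only [Matrix.mul_apply, Matrix.sum_apply, Matrix.smul_apply, Matrix.map_apply,
        smul_eq_mul, Finset.sum_mul]
      rw [Finset.sum_comm]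
      refine Finset.sum_congr rfl fun i _ => Finset.sum_congr rfl fun j _ => ?_
      rw [m.Γ_sw i l j]; ring
    simp only [Matrix.sub_apply, Matrix.mul_apply (M := Ni), Matrix.add_apply, md_apply, e,
      m'.Γ_sw a k b, h.sym a b]
  · intro a
    have e1 := m'.dg a
    have e2 : md (m'.d a) (m.g.map f) = m.g.map f * (∑ i, N i a • (m.Γ i).map f) +
        (∑ i, N i a • (m.Γ i).map f)ᵀ * m.g.map f := by
      simp only [md_map h.chain, m.dg, mp_add, mp_mul, mp_tr, transpose_sum, transpose_smul,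
        Matrix.mul_sum, Matrix.sum_mul, Matrix.mul_smul, Matrix.smul_mul, smul_add,
        Finset.sum_add_distrib]
    have e3 : (m.g.map f)ᵀ = m.g.map f := by rw [← mp_tr, m.symm]
    have e4 : ∀ Y : Matrix ι ι A', m'.g * (Ni * Y) = Nᵀ * (m.g.map f * Y) := fun Y => by
      rw [h.g, Matrix.mul_assoc, hc, Matrix.mul_assoc]
    have e5 : md (m'.d a) m'.g = md (m'.d a) (Nᵀ * m.g.map f * N) := by rw [← h.g]
    rw [e1, md_mul, md_mul, e2, md_transpose] at e5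
    rw [Matrix.mul_sub, e4, transpose_sub, transpose_mul, m'.symm, eq_neg_iff_add_eq_zero,
      ← sub_eq_zero.2 e5]
    simp only [transpose_mul, transpose_add, transpose_transpose, e3, Matrix.mul_add,
      Matrix.add_mul, Matrix.mul_assoc]
    abel

lemma Chg.S (h : Chg m m' f N Ni s) (a : ι) :
    m'.S a = s • (Ni * (∑ i, N i a • (m.S i).map f) * N) := by
  rw [Geo.S, Met.cov, h.J, acov_rsmul, funext h.Γ, acov_gauge _ _ h.inv, acov_pull h.chain]
  rfl

lemma Chg.Lam (h : Chg m m' f N Ni s) (a : ι) :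
    m'.Lam a = Ni * ((∑ i, N i a • (m.Lam i).map f) * N + md (m'.d a) N) := by
  have hc : ∀ Y : Matrix ι ι A', N * (Ni * Y) = Y := fun Y => by
    rw [← Matrix.mul_assoc, h.inv, Matrix.one_mul]
  have e : ∑ i, N i a • (m.Lam i).map f = ∑ i, N i a • (m.Γ i).map f -
      (1 / 2 : ℝ) • (m.J.map f * ∑ i, N i a • (m.S i).map f) := by
    simp only [Geo.Lam, mp_sub, mp_rsmul, mp_mul, smul_sub, Finset.sum_sub_distrib,
      Matrix.mul_sum, Matrix.mul_smul, Finset.smul_sum, smul_comm (1 / 2 : ℝ) (N _ a)]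
  rw [e, Geo.Lam, h.Γ, h.S, h.J, Matrix.smul_mul, Matrix.mul_smul, smul_smul s s, h.ss, one_smul]
  simp only [Matrix.mul_add, Matrix.sub_mul, Matrix.mul_sub, Matrix.smul_mul, Matrix.mul_smul,
    Matrix.mul_assoc, hc]
  abel

lemma Chg.Pf (h : Chg m m' f N Ni s) : m'.Pf = s • (Nᵀ * m.Pf.map f * N) := by
  ext a b
  have e : ∀ X Y : Matrix ι ι A', trace (Ni * X * N * (Ni * Y * N)) = trace (X * Y) := by
    intro X Y
    rw [← Matrix.mul_assoc, trace_mul_comm]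
    simp only [← Matrix.mul_assoc, h.inv, Matrix.one_mul]
    rw [Matrix.mul_assoc X, h.inv, Matrix.mul_one]
  rw [Geo.Pf, of_apply, funext h.Lam, acurv_gauge _ m'.comm _ h.inv, acurv_pull h.chain h.sym,
    h.J, Matrix.smul_mul, trace_smul, e, Matrix.smul_apply]
  congr 1
  simp only [Matrix.mul_sum, Matrix.mul_smul, trace_sum, trace_smul, ← mp_mul, mp_trace,
    Matrix.mul_apply, transpose_apply, Matrix.map_apply, Geo.Pf, of_apply, smul_eq_mul,
    Finset.sum_mul]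
  rw [Finset.sum_comm]
  exact Finset.sum_congr rfl fun j _ => Finset.sum_congr rfl fun i _ => by ring

lemma Geo.Pf_skew (m : Geo ι A) : m.Pfᵀ = -m.Pf := by
  ext i j
  simp only [transpose_apply, Matrix.neg_apply, Geo.Pf, of_apply]
  rw [acurv_skew, Matrix.mul_neg, trace_neg]

lemma Geo.Pf_closed (m : Geo ι A) (i j k : ι) :
    m.d i (m.Pf j k) + m.d j (m.Pf k i) + m.d k (m.Pf i j) = 0 := by
  have e : ∀ i j k, m.d i (m.Pf j k) = trace (m.J * acov m.d m.Lam i (acurv m.d m.Lam j k)) := by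
    intro i j k
    rw [Geo.Pf, of_apply, ← trace_acov m.d m.Lam, acov_mul, m.Lam_J, Matrix.zero_mul, zero_add]
  rw [e, e, e, ← trace_add, ← trace_add, ← Matrix.mul_add, ← Matrix.mul_add,
    bianchi2 m.d m.Lam m.comm, Matrix.mul_zero, trace_zero]

/-- Transgression. -/
lemma Geo.transg (m0 m1 : Geo ι A) (hd : m1.d = m0.d) (G Gi : Matrix ι ι A) (hG : G * Gi = 1)
    (hJ : m1.J = G * m0.J * Gi) (i j : ι) :
    m1.Pf i j - m0.Pf i j =
      m0.d i (trace (m0.J * (Gi * m1.Lam j * G + Gi * md (m0.d j) G - m0.Lam j))) -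
      m0.d j (trace (m0.J * (Gi * m1.Lam i * G + Gi * md (m0.d i) G - m0.Lam i))) := by
  have hG' : Gi * G = 1 := mul_eq_one_comm.1 hG
  obtain ⟨θ, hθ⟩ : ∃ θ : ι → Matrix ι ι A,
      θ = fun a => Gi * m1.Lam a * G + Gi * md (m0.d a) G - m0.Lam a := ⟨_, rfl⟩
  have hθ' : ∀ a, Gi * m1.Lam a * G + Gi * md (m0.d a) G - m0.Lam a = θ a := fun a => by rw [hθ]
  have hΛ : (fun a => Gi * (m1.Lam a * G + md (m0.d a) G)) = fun a => m0.Lam a + θ a := by
    funext a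
    rw [← hθ', Matrix.mul_add, Matrix.mul_assoc]; abel
  have hJ0 : Gi * m1.J * G = m0.J := by
    rw [hJ, ← Matrix.mul_assoc, ← Matrix.mul_assoc, hG', Matrix.one_mul, Matrix.mul_assoc, hG',
      Matrix.mul_one]
  have hcm : ∀ a, θ a * m0.J = m0.J * θ a := by
    intro a
    have h1 := acov_gauge m0.d m1.Lam hG a m1.J
    have h2 := m1.Lam_J a
    have h3 := m0.Lam_J a
    rw [hd] at h2
    rw [h2, hJ0, hΛ, Matrix.mul_zero, Matrix.zero_mul] at h1
    simp only [acov, Matrix.add_mul, Matrix.mul_add] at h1 h3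
    rw [← sub_eq_zero, ← sub_eq_zero.2 (h1.trans h3.symm)]
    abel
  have h1 : m1.Pf i j = trace (m0.J * acurv m0.d (fun a => m0.Lam a + θ a) i j) := by
    rw [← hΛ, acurv_gauge _ m0.comm _ hG, Geo.Pf, of_apply, hd, hJ, ← Matrix.mul_assoc,
      trace_mul_comm _ G]
    simp only [Matrix.mul_assoc]
  have h2 : acurv m0.d (fun a => m0.Lam a + θ a) i j = acurv m0.d m0.Lam i j +
      (acov m0.d m0.Lam i (θ j) - acov m0.d m0.Lam j (θ i)) + (θ i * θ j - θ j * θ i) := by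
    simp only [acurv, acov, md_add, Matrix.add_mul, Matrix.mul_add]
    abel
  have h3 : ∀ i j, trace (m0.J * acov m0.d m0.Lam i (θ j)) = m0.d i (trace (m0.J * θ j)) := by
    intro i j
    rw [← trace_acov m0.d m0.Lam, acov_mul, m0.Lam_J, Matrix.zero_mul, zero_add]
  have h4 : trace (m0.J * (θ i * θ j)) = trace (m0.J * (θ j * θ i)) := by
    rw [← Matrix.mul_assoc, trace_mul_comm, ← Matrix.mul_assoc, hcm, Matrix.mul_assoc]
  rw [hθ', hθ', h1, h2, Geo.Pf, of_apply]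
  simp only [Matrix.mul_add, Matrix.mul_sub, trace_add, trace_sub, h3, h4]
  ring

end abstr

open Set NatX
open scoped ContDiff

variable {ν : Type} [Fintype ν] [DecidableEq ν] {T : ℝ}

/-- Naturality for fields related by one of the maps tau. -/
theorem nat_fields (L : Sy ν) {g J g' J' : ℝ → Fld (ν ⊕ ν)} (h : ChartAK T univ g J)
    (h' : ChartAK T univ g' J') {s : ℝ} (hs : s * s = 1)
    (hg : ∀ t ∈ Ico 0 T, ∀ w ∈ L.dom, g' t w = (L.jc w)ᵀ * g t (L.tau w) * L.jc w)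
    (hJ : ∀ t ∈ Ico 0 T, ∀ w ∈ L.dom, J' t w = s • ((L.jc w)⁻¹ * J t (L.tau w) * L.jc w))
    {t : ℝ} (ht : t ∈ Ico 0 T) {w : ν ⊕ ν → ℝ} (hw : w ∈ L.dom) :
    (∀ a, chr (g' t) a w =
      (L.jc w)⁻¹ * ((∑ i, L.jc w i a • chr (g t) i (L.tau w)) * L.jc w + pd a L.jc w)) ∧
    (∀ a, DJ (g' t) (J' t) a w =
      s • ((L.jc w)⁻¹ * (∑ i, L.jc w i a • DJ (g t) (J t) i (L.tau w)) * L.jc w)) ∧
    (∀ a, chern (g' t) (J' t) a w =
      (L.jc w)⁻¹ * ((∑ i, L.jc w i a • chern (g t) (J t) i (L.tau w)) * L.jc w + pd a L.jc w)) ∧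
    Pform (J' t) (chern (g' t) (J' t)) w =
      s • ((L.jc w)ᵀ * Pform (J t) (chern (g t) (J t)) (L.tau w) * L.jc w) := by
  obtain ⟨m, md0, rg, rJ, -, rΓ, rS, rL, -, rP, -⟩ := h.geo isOpen_univ
  obtain ⟨m', md', rg', rJ', -, rΓ', rS', rL', -, rP', -⟩ :=
    (h'.mono (subset_univ L.dom)).geo L.isOpen_dom
  have hτ : ContDiffOn ℝ ∞ (fun x : ℝ × (ν ⊕ ν → ℝ) => L.tau x.2)
      (Dom.cyl T L.dom L.isOpen_dom).S :=
    L.contDiffOn_tau.comp contDiff_snd.contDiffOn fun x hx => hx.2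
  have hψ : ContDiffOn ℝ ∞ (fun x : ℝ × (ν ⊕ ν → ℝ) => (x.1, L.tau x.2))
      (Dom.cyl T L.dom L.isOpen_dom).S := contDiff_fst.contDiffOn.prodMk hτ
  have hm : MapsTo (fun x : ℝ × (ν ⊕ ν → ℝ) => (x.1, L.tau x.2))
      (Dom.cyl T L.dom L.isOpen_dom).S (Dom.cyl T univ isOpen_univ).S :=
    fun x hx => ⟨hx.1, mem_univ _⟩
  have hD : ∀ x : (Dom.cyl T L.dom L.isOpen_dom).S,
      HasFDerivAt (fun x : ℝ × (ν ⊕ ν → ℝ) => L.tau x.2)
        ((fderiv ℝ L.tau x.1.2).comp (ContinuousLinearMap.snd ℝ ℝ _)) x.1 := fun x =>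
    (L.differentiableAt_tau x.2.2).hasFDerivAt.comp x.1 hasFDerivAt_snd
  obtain ⟨f, hf⟩ : ∃ f, f = Sm.pull _ hψ hm := ⟨_, rfl⟩
  obtain ⟨N, hN⟩ : ∃ N : Matrix (ν ⊕ ν) (ν ⊕ ν) (Sm (Dom.cyl T L.dom L.isOpen_dom)),
      N = Matrix.of fun i a => dx a (Sm.mk (fun x => L.tau x.2 i) (contDiffOn_pi.1 hτ i)) :=
    ⟨_, rfl⟩
  have evN : ∀ x i a, Sm.ev x (N i a) = L.jc x.1.2 i a := by
    intro x i a
    rw [hN, of_apply, Sm.ev_der_of _ _ x (hasFDerivAt_pi'.1 (hD x) i).hasFDerivWithinAt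
      fun y => rfl]
    rfl
  have rN : Rep N fun _ => L.jc := fun x => by ext i a; exact evN x i a
  have hNi : N * N⁻¹ = 1 := by
    refine Matrix.mul_nonsing_inv N (Sm.isUnit _ fun x => ?_)
    rw [AlgHom.map_det, AlgHom.mapMatrix_apply, rN x]
    exact L.jc_det x.2.2
  have rNi : ∀ x : (Dom.cyl T L.dom L.isOpen_dom).S, N⁻¹.map (Sm.ev x) = (L.jc x.1.2)⁻¹ := by
    intro x
    refine (Matrix.inv_eq_right_inv ?_).symm
    rw [← show N.map (Sm.ev x) = L.jc x.1.2 from rN x, ← mp_mul, hNi]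
    exact Matrix.map_one _ (map_zero _) (map_one _)
  have rf : ∀ {a : Matrix (ν ⊕ ν) (ν ⊕ ν) (Sm (Dom.cyl T univ isOpen_univ))}
      {F : ℝ → Fld (ν ⊕ ν)}, Rep a F → ∀ x : (Dom.cyl T L.dom L.isOpen_dom).S,
      (a.map f).map (Sm.ev x) = F x.1.1 (L.tau x.1.2) := by
    intro a F ha x
    rw [← ha ⟨_, hm x.2⟩, hf]
    ext i j
    exact Sm.ev_pull _ hψ hm _ x
  have mext : ∀ {a b : Matrix (ν ⊕ ν) (ν ⊕ ν) (Sm (Dom.cyl T L.dom L.isOpen_dom))},
      (∀ x, a.map (Sm.ev x) = b.map (Sm.ev x)) → a = b := by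
    intro a b hab
    ext i j x
    exact congrFun (congrFun (hab x) i) j
  have hC : Chg m m' f N N⁻¹ s := by
    refine ⟨hNi, hs, fun a y => ?_, fun a b i => ?_, mext fun x => ?_, mext fun x => ?_⟩
    · ext x
      rw [md', md0, map_sum, hf, Sm.ev_der_pull _ hψ hm y x _
        (hasFDerivAt_fst.prodMk (hD x)).hasFDerivWithinAt]
      have e : ((ContinuousLinearMap.fst ℝ ℝ (ν ⊕ ν → ℝ)).prod
          ((fderiv ℝ L.tau x.1.2).comp (ContinuousLinearMap.snd ℝ ℝ _))) (0, Pi.single a 1) =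
          ∑ i, L.jc x.1.2 i a • ((0 : ℝ), (Pi.single i 1 : ν ⊕ ν → ℝ)) := by
        refine Prod.ext ?_ ?_
        · simp [Prod.fst_sum]
        · funext k
          simp [Prod.snd_sum, Finset.sum_apply, Pi.single_apply, Sy.jc, -Fintype.sum_sum_type]
      rw [e, Sm.ev_der, map_sum]
      refine Finset.sum_congr rfl fun i _ => ?_
      rw [map_mul, evN, Sm.ev_pull, Sm.ev_der, map_smul, smul_eq_mul]
    · rw [md', hN, of_apply, of_apply]
      exact Sm.der_comm _ _ _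
    · rw [rg' x, hg _ x.2.1 _ x.2.2, mp_mul, mp_mul, mp_tr, rN x, rf rg]
    · rw [rJ' x, hJ _ x.2.1 _ x.2.2, mp_rsmul, mp_mul, mp_mul, rN x, rNi, rf rJ]
  obtain ⟨x, rfl, rfl⟩ : ∃ x : (Dom.cyl T L.dom L.isOpen_dom).S, x.1.1 = t ∧ x.1.2 = w :=
    ⟨⟨(t, w), ht, hw⟩, rfl, rfl⟩
  have rdN : ∀ a, (md (m'.d a) N).map (Sm.ev x) = pd a L.jc x.1.2 := fun a => by
    rw [md']; exact rN.pd a x
  refine ⟨fun a => ?_, fun a => ?_, fun a => ?_, ?_⟩
  · rw [← show _ = chr (g' x.1.1) a x.1.2 from rΓ' a x, hC.Γ]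
    simp only [mp_mul, mp_add, mp_sum, mp_smul, rNi, rdN, evN, fun i => rf (rΓ i), rN x]
  · rw [← show _ = DJ (g' x.1.1) (J' x.1.1) a x.1.2 from rS' a x, hC.S]
    simp only [mp_mul, mp_rsmul, mp_sum, mp_smul, rNi, evN, fun i => rf (rS i), rN x]
  · rw [← show _ = chern (g' x.1.1) (J' x.1.1) a x.1.2 from rL' a x, hC.Lam]
    simp only [mp_mul, mp_add, mp_sum, mp_smul, rNi, rdN, evN, fun i => rf (rL i), rN x]
  · rw [← show _ = Pform (J' x.1.1) (chern (g' x.1.1) (J' x.1.1)) x.1.2 from rP' x, hC.Pf]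
    simp only [mp_mul, mp_rsmul, mp_tr, rf rP, rN x]

end Pool.Agent.P.MP_8fdf05_gt
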