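import Pool.Agent.P.MP_8fdf05_gt.Frame
import Pool.Agent.P.MP_8fdf05_gt.Coh

/-! The evolution of the lengths of the Killing fields at a point of the curve. -/

open Matrix Finset

namespace Pool.Agent.P.MP_8fdf05_gt

noncomputable section

variable {μ : Type} [Fintype μ] [DecidableEq μ] {A : Type} [CommRing A] [Algebra ℝ A]
  {m : Geo (II μ) A}

/-- A function on the frame indices that does not depend on a. -/
def q4 (u s e f : ℝ) : II μ → ℝ :=
  Sum.elim (fun o => o.elim u fun _ => e) fun o => o.elim s fun _ => f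

/-- The frame. -/
def Coh.Fr (c : Coh m) : II μ → II μ → A :=
  Sum.elim (fun o => o.elim c.U c.E) fun o => o.elim (Pi.single (Sum.inr none) 1) c.F

/-- The data at a point of the curve. -/
structure Pt (c : Coh m) where
  e : A →ₐ[ℝ] ℝ
  (y p q W σ r ry p1 q1 W1 σ1 ry1 p2 q2 W2 : ℝ)
  hy : y ≠ 0
  hy1 : 1 - y ^ 2 ≠ 0
  hp : p ≠ 0
  hq : q ≠ 0
  hW : W ≠ 0
  hσ : σ ≠ 0
  hsq : r ^ 2 = q * W
  hps : p * σ = ry ^ 2
  hr1 : 2 * r * ry = q1 * W + q * W1
  hs1 : p1 * σ + p * σ1 = 2 * ry * ry1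
  hF : ∀ z, (fun i => e (c.Fr z i)) = Pi.single z (q4 (1 - y ^ 2) 1 1 y z)
  hC : ∀ a b i, e (c.C a b i) = 0
  hg : m.g.map e = diagonal fun z => q4 p σ q W z / q4 (1 - y ^ 2) 1 1 y z ^ 2
  hom : m.om.map e = fromBlocks 0 (diagonal fun o => o.elim (ry / (1 - y ^ 2)) fun _ => r / y)
    (-diagonal fun o => o.elim (ry / (1 - y ^ 2)) fun _ => r / y) 0
  d1 : ∀ z z', e (m.d (Sum.inr none) (m.gg (c.Fr z) (c.Fr z'))) =
    if z = z' then q4 p1 σ1 q1 W1 z else 0
  d2U : e (m.d (Sum.inr none) (m.d (Sum.inr none) (m.gg c.U c.U))) = p2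
  d2E : ∀ a, e (m.d (Sum.inr none) (m.d (Sum.inr none) (m.gg (c.E a) (c.E a)))) = q2
  d2F : ∀ a, e (m.d (Sum.inr none) (m.d (Sum.inr none) (m.gg (c.F a) (c.F a)))) = W2

namespace Pt

variable {c : Coh m} (P : Pt c)

/-- The associated frame. -/
def f : Frame m where
  e := P.e
  Fr := c.Fr
  cc := q4 (1 - P.y ^ 2) 1 1 P.y
  nn := q4 P.p P.σ P.q P.W
  hc := by rintro ((_ | a) | (_ | a)) <;> simp [q4, P.hy, P.hy1]
  hn := by rintro ((_ | a) | (_ | a)) <;> simp [q4, P.hp, P.hq, P.hW, P.hσ]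
  hF := P.hF
  hg := P.hg

lemma gC (X : II μ → A) (a b : μ) : P.e (m.gg X (c.C a b)) = 0 := by
  have := P.f.e_gg X (c.C a b)
  simp only [f, P.hC, mul_zero, sum_const_zero] at this
  exact this

lemma Cg (X : II μ → A) (a b : μ) : P.e (m.gg (c.C a b) X) = 0 := by rw [m.gg_comm, gC]

lemma gg_F (z y : II μ) :
    P.e (m.gg (c.Fr z) (c.Fr y)) = if z = y then q4 P.p P.σ P.q P.W z else 0 := P.f.gg_FF z y

lemma neg_gg (X Y : II μ → A) : m.gg (-X) Y = -m.gg X Y := by rw [m.gg_comm, m.gg_neg, m.gg_comm]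
lemma sub_gg (X Y Z : II μ → A) : m.gg (X - Y) Z = m.gg X Z - m.gg Y Z := by
  rw [m.gg_comm, m.gg_sub, m.gg_comm, m.gg_comm Z]
lemma gg_zero (X : II μ → A) : m.gg X 0 = 0 := by simp [Met.gg]
lemma zero_gg (X : II μ → A) : m.gg 0 X = 0 := by simp [Met.gg]
lemma ite_gg (h : Prop) [Decidable h] (X Y Z : II μ → A) :
    m.gg (if h then X else Y) Z = if h then m.gg X Z else m.gg Y Z := by split_ifs <;> rfl
lemma br_self (X : II μ → A) : m.br X X = 0 := by ext; simp [Met.br]
lemma br_zero (X : II μ → A) : m.br X 0 = 0 := by ext; simp [Met.br, Met.vd_apply]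

lemma bEU (a : μ) : m.br (c.E a) c.U = c.F a := by rw [m.br_skew, c.bUE, neg_neg]
lemma bFU (a : μ) : m.br (c.F a) c.U = -c.E a := by rw [m.br_skew, c.bUF]
lemma bFE (a b : μ) : m.br (c.F a) (c.E b) = if a = b then c.U else 0 := by
  rw [m.br_skew, c.bEF]; by_cases h : a = b <;> simp [h, eq_comm]

/-- The table of brackets. -/
def brF (c : Coh m) : II μ → II μ → II μ → A
  | .inl none, .inl (some a) => -c.F a
  | .inl none, .inr (some a) => c.E a
  | .inl (some a), .inl none => c.F a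
  | .inr (some a), .inl none => -c.E a
  | .inl (some a), .inr (some b) => if a = b then -c.U else 0
  | .inr (some a), .inl (some b) => if a = b then c.U else 0
  | .inl (some a), .inl (some b) => c.C a b
  | .inr (some a), .inr (some b) => c.C a b
  | _, _ => 0

lemma kF : ∀ z : II μ, z ≠ Sum.inr none → m.Kill (c.Fr z)
  | .inl none, _ => c.kU
  | .inl (some a), _ => c.kE a
  | .inr (some a), _ => c.kF a
  | .inr none, h => absurd rfl h

lemma br_F : ∀ z y : II μ, z ≠ Sum.inr none → y ≠ Sum.inr none →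
    m.br (c.Fr z) (c.Fr y) = brF c z y
  | .inl none, .inl none, _, _ => br_self _
  | .inl none, .inl (some a), _, _ => c.bUE a
  | .inl none, .inr (some a), _, _ => c.bUF a
  | .inl (some a), .inl none, _, _ => bEU a
  | .inr (some a), .inl none, _, _ => bFU a
  | .inl (some a), .inr (some b), _, _ => c.bEF a b
  | .inr (some a), .inl (some b), _, _ => bFE a b
  | .inl (some a), .inl (some b), _, _ => c.bEE a b
  | .inr (some a), .inr (some b), _, _ => c.bFF a b
  | .inr none, _, h, _ => absurd rfl h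
  | _, .inr none, _, h => absurd rfl h

lemma U_eq : c.U = c.Fr (Sum.inl none) := rfl
lemma E_eq (a : μ) : c.E a = c.Fr (Sum.inl (some a)) := rfl
lemma F_eq (a : μ) : c.F a = c.Fr (Sum.inr (some a)) := rfl

/-- Twice the lowered covariant derivative of a Killing field of the frame. -/
def al (k z y : II μ) : ℝ := 2 * (q4 P.p P.σ P.q P.W z * P.f.fr (m.Am (c.Fr k)) z y)

lemma al_eq (k z y : II μ) : P.al k z y = P.e (2 * m.gg (c.Fr z) (m.Am (c.Fr k) *ᵥ c.Fr y)) := by
  rw [map_mul, map_ofNat]; exact congrArg _ (P.f.gg_FB _ z y).symm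

lemma al_skew (k : II μ) (hk : k ≠ Sum.inr none) (z y : II μ) : P.al k z y = -P.al k y z := by
  rw [al_eq, al_eq, (kF k hk).g.sk.gg]; simp

lemma al_S (k z : II μ) (hk : k ≠ Sum.inr none) (hz : z ≠ Sum.inr none) :
    P.al k z (Sum.inr none) = if k = z then q4 P.p1 P.σ1 P.q1 P.W1 k else 0 := by
  rw [al_eq, (kF k hk).g.kos (kF z hz).g, map_sub, br_F z k hz hk, ← P.d1, sub_eq_iff_eq_add]
  have h1 : m.vd (c.Fr (Sum.inr none)) (m.gg (c.Fr k) (c.Fr z)) =
    m.d (Sum.inr none) (m.gg (c.Fr k) (c.Fr z)) := m.vd_single _ _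
  rw [h1, left_eq_add]
  rcases z with (_ | a) | (_ | a) <;> rcases k with (_ | b) | (_ | b) <;>
    simp [brF, m.gg_neg, gg_zero, gC, apply_ite (m.gg _), apply_ite P.e, U_eq, E_eq, F_eq, gg_F]

lemma al_K (k z y : II μ) (hk : k ≠ Sum.inr none) (hz : z ≠ Sum.inr none)
    (hy : y ≠ Sum.inr none) : P.al k z y = P.e (m.gg (brF c y k) (c.Fr z)) +
      P.e (m.gg (c.Fr k) (brF c y z)) - P.e (m.gg (c.Fr y) (brF c z k)) := by
  rw [al_eq, (kF k hk).g.kos3 (kF y hy).g (kF z hz).g, br_F y k hy hk, br_F y z hy hz,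
    br_F z k hz hk, map_sub, map_add]

/-- The table for U. -/
def tU : II μ → II μ → ℝ
  | .inl none, .inr none => P.p1
  | .inr none, .inl none => -P.p1
  | .inr (some b), .inl (some a) => if b = a then P.W - P.p + P.q else 0
  | .inl (some b), .inr (some a) => if b = a then -(P.W - P.p + P.q) else 0
  | _, _ => 0

/-- The table for E. -/
def tE (a : μ) : II μ → II μ → ℝ
  | .inr (some b), .inl none => if a = b then P.q - P.W - P.p else 0
  | .inl none, .inr (some b) => if a = b then -(P.q - P.W - P.p) else 0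
  | .inl (some b), .inr none => if a = b then P.q1 else 0
  | .inr none, .inl (some b) => if a = b then -P.q1 else 0
  | _, _ => 0

/-- The table for F. -/
def tF (a : μ) : II μ → II μ → ℝ
  | .inl (some b), .inl none => if a = b then P.q - P.W + P.p else 0
  | .inl none, .inl (some b) => if a = b then -(P.q - P.W + P.p) else 0
  | .inr (some b), .inr none => if a = b then P.W1 else 0
  | .inr none, .inr (some b) => if a = b then -P.W1 else 0
  | _, _ => 0

lemma al_SS (k : II μ) (hk : k ≠ Sum.inr none) : P.al k (Sum.inr none) (Sum.inr none) = 0 := by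
  have := P.al_skew k hk (Sum.inr none) (Sum.inr none); linarith

lemma al_S' (k z : II μ) (hk : k ≠ Sum.inr none) (hz : z ≠ Sum.inr none) :
    P.al k (Sum.inr none) z = -if k = z then q4 P.p1 P.σ1 P.q1 P.W1 k else 0 := by
  rw [al_skew _ _ hk, al_S _ _ _ hk hz]

lemma al_U (z y : II μ) : P.al (Sum.inl none) z y = P.tU z y := by
  rcases z with (_ | a) | (_ | a) <;> rcases y with (_ | b) | (_ | b) <;>
    first
    | (rw [al_SS _ _ (by simp)]; rfl)
    | (rw [al_S _ _ _ (by simp) (by simp)]; simp [tU, q4])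
    | (rw [al_S' _ _ _ (by simp) (by simp)]; simp [tU, q4]; try (split_ifs <;> simp))
    | (rw [al_K _ _ _ _ (by simp) (by simp) (by simp)]
       simp [brF, tU, m.gg_neg, neg_gg, gg_zero, zero_gg, gC, Cg, apply_ite (m.gg _), ite_gg,
         apply_ite P.e, U_eq, E_eq, F_eq, gg_F, q4]
       try (split_ifs <;> first | ring1 | simp_all))

lemma al_E (k : μ) (z y : II μ) : P.al (Sum.inl (some k)) z y = P.tE k z y := by
  rcases z with (_ | a) | (_ | a) <;> rcases y with (_ | b) | (_ | b) <;>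
    first
    | (rw [al_SS _ _ (by simp)]; rfl)
    | (rw [al_S _ _ _ (by simp) (by simp)]; simp [tE, q4])
    | (rw [al_S' _ _ _ (by simp) (by simp)]; simp [tE, q4]; try (split_ifs <;> simp))
    | (rw [al_K _ _ _ _ (by simp) (by simp) (by simp)]
       simp [brF, tE, m.gg_neg, neg_gg, gg_zero, zero_gg, gC, Cg, apply_ite (m.gg _), ite_gg,
         apply_ite P.e, U_eq, E_eq, F_eq, gg_F, q4]
       try (split_ifs <;> first | ring1 | simp_all))

lemma al_F (k : μ) (z y : II μ) : P.al (Sum.inr (some k)) z y = P.tF k z y := by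
  rcases z with (_ | a) | (_ | a) <;> rcases y with (_ | b) | (_ | b) <;>
    first
    | (rw [al_SS _ _ (by simp)]; rfl)
    | (rw [al_S _ _ _ (by simp) (by simp)]; simp [tF, q4])
    | (rw [al_S' _ _ _ (by simp) (by simp)]; simp [tF, q4]; try (split_ifs <;> simp))
    | (rw [al_K _ _ _ _ (by simp) (by simp) (by simp)]
       simp [brF, tF, m.gg_neg, neg_gg, gg_zero, zero_gg, gC, Cg, apply_ite (m.gg _), ite_gg,
         apply_ite P.e, U_eq, E_eq, F_eq, gg_F, q4]
       try (split_ifs <;> first | ring1 | simp_all))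

end Pt

end

end Pool.Agent.P.MP_8fdf05_gt
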