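import Pool.Agent.P.MP_8fdf05_gt.Pt

/-! The reduced equations at a point of the curve. -/

open Matrix Finset

namespace Pool.Agent.P.MP_8fdf05_gt

noncomputable section

variable {μ : Type} [Fintype μ] [DecidableEq μ] {A : Type} [CommRing A] [Algebra ℝ A]
  {m : Geo (II μ) A}

namespace Pt

variable {c : Coh m} (P : Pt c)

lemma hr : P.r ≠ 0 := fun h => mul_ne_zero P.hq P.hW (by rw [← P.hsq, h]; simp)
lemma hry : P.ry ≠ 0 := fun h => mul_ne_zero P.hp P.hσ (by rw [P.hps, h]; simp)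

lemma frA (k z y : II μ) :
    P.f.fr (m.Am (c.Fr k)) z y = P.al k z y / (2 * q4 P.p P.σ P.q P.W z) := by
  have : q4 P.p P.σ P.q P.W z ≠ 0 := P.f.hn z
  rw [al]; field_simp

/-- The almost complex structure in the frame. -/
def jm : Matrix (II μ) (II μ) ℝ
  | .inl none, .inr none => -P.ry / P.p
  | .inr none, .inl none => P.ry / P.σ
  | .inl (some a), .inr (some b) => if a = b then -P.r / P.q else 0
  | .inr (some a), .inl (some b) => if a = b then P.r / P.W else 0
  | _, _ => 0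

lemma frJ : P.f.fr m.J = P.jm := by
  ext z y
  have h := P.f.fr_J z y
  have h2 : P.f.e (m.om z y) = _ := congrFun (congrFun P.hom z) y
  have h3 := P.f.hn z
  rw [h2] at h
  rw [eq_div_of_mul_eq h3 ((mul_comm _ _).trans h)]
  have := P.hy; have := P.hy1; have := P.hp; have := P.hq; have := P.hW; have := P.hσ
  rcases z with (_ | a) | (_ | a) <;> rcases y with (_ | b) | (_ | b) <;>
    simp [f, q4, jm, diagonal_apply] <;> (try split_ifs) <;> (try simp) <;> field_simp

/-- The size of the covariant derivative of J. -/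
def nu : ℝ := (P.q - P.W - P.p) / 2 + P.r * P.q1 * P.p / (2 * P.q * P.ry)

/-- The covariant derivative of J in the frame. -/
def sm : II μ → Matrix (II μ) (II μ) ℝ
  | .inl (some k), .inl (some a), .inl none => if k = a then P.nu / P.r else 0
  | .inl (some k), .inl none, .inl (some a) => if k = a then -(P.q * P.nu / (P.r * P.p)) else 0
  | .inl (some k), .inr (some a), .inr none => if k = a then -(P.ry * P.nu / (P.p * P.W)) else 0
  | .inl (some k), .inr none, .inr (some a) => if k = a then P.nu / P.ry else 0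
  | .inr (some k), .inr (some a), .inl none => if k = a then -(P.nu / P.r) else 0
  | .inr (some k), .inl none, .inr (some a) => if k = a then P.W * P.nu / (P.r * P.p) else 0
  | .inr (some k), .inl (some a), .inr none => if k = a then -(P.ry * P.nu / (P.p * P.q)) else 0
  | .inr (some k), .inr none, .inl (some a) => if k = a then P.nu / P.ry else 0
  | _, _, _ => 0

lemma eW : P.W = P.r ^ 2 / P.q := by have := P.hq; rw [P.hsq]; field_simp
lemma eσ : P.σ = P.ry ^ 2 / P.p := by have := P.hp; rw [← P.hps]; field_simp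
lemma eW1 : P.W1 = (2 * P.r * P.ry - P.q1 * P.W) / P.q := by
  have := P.hq; rw [P.hr1]; field_simp; ring
lemma eσ1 : P.σ1 = (2 * P.ry * P.ry1 - P.p1 * P.σ) / P.p := by
  have := P.hp; rw [← P.hs1]; field_simp; ring

lemma frS_0 (k : II μ) (hk : k ≠ Sum.inr none) (z y : II μ) :
    P.f.fr (∑ i, c.Fr k i • m.S i) z y =
      ∑ j, P.al k z j / (2 * q4 P.p P.σ P.q P.W z) * P.jm j y -
        ∑ j, P.jm z j * (P.al k j y / (2 * q4 P.p P.σ P.q P.W j)) := by
  have h := P.f.fr_S k (kF k hk)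
  rw [frJ] at h
  refine (congrFun (congrFun h z) y).trans ?_
  simp only [Matrix.sub_apply, Matrix.mul_apply, ← frA]
  rfl

lemma frS_U : P.f.fr (∑ i, c.Fr (Sum.inl none) i • m.S i) = P.sm (Sum.inl none) := by
  have := P.hr; have := P.hry; have := P.hp; have := P.hq
  ext z y
  rw [frS_0 _ _ (by simp)]
  simp only [al_U, Fintype.sum_sum_type, Fintype.sum_option]
  rcases z with (_ | a) | (_ | a) <;> rcases y with (_ | b) | (_ | b) <;>
    simp [q4, jm, sm, tU] <;> (try split_ifs) <;> (try rfl) <;>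
    (simp only [eW, eσ]; field_simp; ring)

lemma frS_E (k : μ) :
    P.f.fr (∑ i, c.Fr (Sum.inl (some k)) i • m.S i) = P.sm (Sum.inl (some k)) := by
  have := P.hr; have := P.hry; have := P.hp; have := P.hq
  ext z y
  rw [frS_0 _ _ (by simp)]
  simp only [al_E, Fintype.sum_sum_type, Fintype.sum_option]
  rcases z with (_ | a) | (_ | a) <;> rcases y with (_ | b) | (_ | b) <;>
    simp [q4, jm, sm, tE] <;> (try split_ifs) <;> (try rfl) <;>
    (simp only [nu, eW, eσ]; field_simp; ring)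

lemma frS_F (k : μ) :
    P.f.fr (∑ i, c.Fr (Sum.inr (some k)) i • m.S i) = P.sm (Sum.inr (some k)) := by
  have := P.hr; have := P.hry; have := P.hp; have := P.hq
  ext z y
  rw [frS_0 _ _ (by simp)]
  simp only [al_F, Fintype.sum_sum_type, Fintype.sum_option]
  rcases z with (_ | a) | (_ | a) <;> rcases y with (_ | b) | (_ | b) <;>
    simp [q4, jm, sm, tF] <;> (try split_ifs) <;> (try rfl) <;>
    (simp only [nu, eW1, eW, eσ]; field_simp; ring)

lemma sm_U : P.sm (Sum.inl none) = 0 := by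
  ext z y; rcases z with (_ | a) | (_ | a) <;> rcases y with (_ | b) | (_ | b) <;> rfl

lemma sm_S : P.sm (Sum.inr none) = 0 := by
  ext z y; rcases z with (_ | a) | (_ | a) <;> rcases y with (_ | b) | (_ | b) <;> rfl

lemma frS (k : II μ) : P.f.fr (∑ i, P.f.Fr k i • m.S i) = P.sm k := by
  rcases k with (_ | a) | (_ | a)
  · exact P.frS_U
  · exact P.frS_E a
  · have h := P.f.fr_SJ (Sum.inl none)
    rw [show P.f.fr (∑ i, P.f.Fr (Sum.inl none) i • m.S i) = _ from P.frS_U, sm_U, frJ,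
      Fintype.sum_sum_type, Fintype.sum_option, Fintype.sum_option] at h
    simpa [jm, P.hry, P.hσ, sm_S] using h
  · exact P.frS_F a

lemma qq (k : II μ) : P.e (c.Fr k ⬝ᵥ m.Q *ᵥ c.Fr k) =
    q4 (-(2 * Fintype.card μ * P.nu ^ 2 / P.r ^ 2))
      (-(2 * Fintype.card μ * P.ry ^ 2 * P.nu ^ 2 / (P.p * P.r) ^ 2)) 0 0 k := by
  have := P.hr; have := P.hry; have := P.hp; have := P.hq
  refine (P.f.qq k P.sm P.frS).trans ?_
  simp only [trace, Matrix.diag, Matrix.mul_apply, Fintype.sum_sum_type, Fintype.sum_option]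
  rcases k with (_ | a) | (_ | a) <;> simp [f, q4, sm, ite_div] <;>
    (simp only [eW, eσ]; field_simp; ring)

lemma AXX (x z : II μ) (hx : x ≠ Sum.inr none) : P.f.fr (m.Am (c.Fr x)) z x =
    if z = Sum.inr none then -q4 P.p1 P.σ1 P.q1 P.W1 x / (2 * P.σ) else 0 := by
  rw [frA]
  rcases x with (_ | a) | (_ | a)
  · rw [al_U]; rcases z with (_ | b) | (_ | b) <;> simp [tU, q4]
  · rw [al_E]; rcases z with (_ | b) | (_ | b) <;> simp [tE, q4]
  · exact absurd rfl hx
  · rw [al_F]; rcases z with (_ | b) | (_ | b) <;> simp [tF, q4]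

lemma ASS : P.f.fr (m.Am (c.Fr (Sum.inr none))) (Sum.inr none) (Sum.inr none) =
    P.σ1 / (2 * P.σ) := by
  have h := P.d1 (Sum.inr none) (Sum.inr none)
  rw [← m.vd_single, m.vd_gg, m.gg_comm, map_add] at h
  have h2 := P.f.gg_FB (m.Am (c.Fr (Sum.inr none))) (Sum.inr none) (Sum.inr none)
  have := P.hσ
  change P.e _ = P.σ * _ at h2
  change P.e _ + P.e _ = _ at h
  simp only [q4, if_true, Sum.elim_inr, Option.elim_none] at h
  rw [← h]
  erw [h2]
  field_simp; ring

/-- Second derivatives of the lengths in the direction of a Killing field. -/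
def d2 : II μ → II μ → ℝ
  | .inl none, .inl (some _) => 2 * P.W - 2 * P.p
  | .inl none, .inr (some _) => 2 * P.q - 2 * P.p
  | .inl (some _), .inl none => 2 * P.W - 2 * P.q
  | .inr (some _), .inl none => 2 * P.q - 2 * P.W
  | .inl (some k), .inl (some a) => if k = a then 0 else -2 * P.q
  | .inr (some k), .inr (some a) => if k = a then 0 else -2 * P.W
  | .inl (some k), .inr (some a) => if k = a then 2 * P.p - 2 * P.q else 0
  | .inr (some k), .inl (some a) => if k = a then 2 * P.p - 2 * P.W else 0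
  | .inl none, .inr none => P.p2
  | .inl (some _), .inr none => P.q2
  | .inr (some _), .inr none => P.W2
  | _, _ => 0

lemma br_ite (X : II μ → A) (h : Prop) [Decidable h] (Y Z : II μ → A) :
    m.br X (if h then Y else Z) = if h then m.br X Y else m.br X Z := by split_ifs <;> rfl

lemma vd2 (k x : II μ) (hk : k ≠ Sum.inr none) :
    P.e (m.vd (c.Fr x) (m.vd (c.Fr x) (m.gg (c.Fr k) (c.Fr k)))) = P.d2 k x := by
  by_cases hx : x = Sum.inr none
  · subst hx
    have h : ∀ u, m.vd (c.Fr (Sum.inr none)) u = m.d (Sum.inr none) u := m.vd_single _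
    rw [h, h]
    rcases k with (_ | a) | (_ | a)
    exacts [P.d2U, P.d2E a, absurd rfl hk, P.d2F a]
  rw [Met.Kg.vd2 _ (kF x hx).g, br_F x k hx hk, map_add, map_mul, map_mul, map_ofNat]
  have hU := P.gg_F (Sum.inl none) (Sum.inl none)
  have hE := fun a b => P.gg_F (Sum.inl (some a)) (Sum.inl (some b))
  have hF := fun a b => P.gg_F (Sum.inr (some a)) (Sum.inr (some b))
  simp only [← U_eq, ← E_eq, ← F_eq] at hU hE hF
  rcases x with (_ | a) | (_ | a) <;> rcases k with (_ | b) | (_ | b) <;>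
    first
    | exact absurd rfl hx
    | exact absurd rfl hk
    | (simp [brF, d2, ← U_eq, ← E_eq, ← F_eq, m.br_neg, br_ite, br_zero, c.bUE, c.bUF, c.bEF,
        bEU, bFU, bFE, c.bEC, c.bFC, m.gg_neg, neg_gg, sub_gg, gg_zero, zero_gg, gC,
        apply_ite (m.gg _), ite_gg, apply_ite P.e, hU, hE, hF, q4]
       try first | ring1 | (split_ifs <;> first | ring1 | (subst_vars; contradiction)))

lemma ric (k : II μ) (hk : k ≠ Sum.inr none) : 2 * P.e (c.Fr k ⬝ᵥ m.Ric *ᵥ c.Fr k) = ∑ x,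
    (-P.d2 k x + 2 * ∑ z, P.al k z x ^ 2 / (4 * q4 P.p P.σ P.q P.W z) +
      q4 P.p1 P.σ1 P.q1 P.W1 k * q4 (-P.p1) P.σ1 (-P.q1) (-P.W1) x / (2 * P.σ)) /
        q4 P.p P.σ P.q P.W x := by
  refine (P.f.ric k (kF k hk).g).trans (sum_congr rfl fun x _ => ?_)
  have h1 : P.f.e (m.vd (P.f.Fr x) (m.vd (P.f.Fr x) (m.gg (P.f.Fr k) (P.f.Fr k)))) = _ :=
    P.vd2 k x hk
  have h2 : ∀ z, P.f.nn z * P.f.fr (m.Am (P.f.Fr k)) z x * P.f.fr (m.Am (P.f.Fr k)) z x =
      P.al k z x ^ 2 / (4 * q4 P.p P.σ P.q P.W z) := fun z => by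
    have : q4 P.p P.σ P.q P.W z ≠ 0 := P.f.hn z
    change q4 P.p P.σ P.q P.W z * P.f.fr (m.Am (c.Fr k)) z x * P.f.fr (m.Am (c.Fr k)) z x = _
    rw [frA]; field_simp; ring
  have h3 : P.f.fr (m.Am (c.Fr x)) (Sum.inr none) x =
      q4 (-P.p1) P.σ1 (-P.q1) (-P.W1) x / (2 * P.σ) := by
    rcases x with (_ | a) | (_ | a)
    · rw [AXX _ _ _ (by simp)]; simp [q4]
    · rw [AXX _ _ _ (by simp)]; simp [q4]
    · rw [ASS]; simp [q4]
    · rw [AXX _ _ _ (by simp)]; simp [q4]
  have h4 : ∑ z, P.f.nn z * P.f.fr (m.Am (P.f.Fr x)) z x * P.f.fr (m.Am (P.f.Fr k)) z k =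
      -(q4 P.p1 P.σ1 P.q1 P.W1 k * q4 (-P.p1) P.σ1 (-P.q1) (-P.W1) x / (4 * P.σ)) := by
    change ∑ z, P.f.nn z * P.f.fr (m.Am (c.Fr x)) z x * P.f.fr (m.Am (c.Fr k)) z k = _
    simp only [P.AXX k _ hk, mul_ite, mul_zero, sum_ite_eq', mem_univ, if_true, h3]
    have := P.hσ
    change P.σ * _ * _ = _
    field_simp; ring
  rw [h4, h1]
  simp only [h2]
  congr 1
  have := P.hσ
  field_simp; ring

lemma sum_ite2 (a : μ) (u v : ℝ) :
    ∑ x, (if a = x then u else v) = u + (Fintype.card μ - 1) * v := by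
  have : ∀ x, (if a = x then u else v) = (if a = x then u - v else 0) + v := fun x => by
    split_ifs <;> ring
  simp only [this, sum_add_distrib, sum_ite_eq, mem_univ, if_true, sum_const, card_univ,
    nsmul_eq_mul]
  ring

theorem eq_q (a : μ) : P.e (c.E a ⬝ᵥ m.Q *ᵥ c.E a - 2 * c.E a ⬝ᵥ m.Ric *ᵥ c.E a) =
    P.p * ((P.q2 * P.ry - P.q1 * P.ry1) / P.ry ^ 3) - P.p * (P.q1 / P.ry) ^ 2 / P.q +
      (P.p1 / P.ry + Fintype.card μ * P.p / P.r) * (P.q1 / P.ry) + P.p * P.q / P.r ^ 2 -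
      P.q ^ 2 / (P.p * P.W) + P.W / P.p - 2 * Fintype.card μ := by
  have := P.hr; have := P.hry; have := P.hp; have := P.hq
  rw [map_sub, map_mul, map_ofNat, E_eq, qq, ric _ _ (by simp)]
  simp only [al_E, Fintype.sum_sum_type, Fintype.sum_option]
  simp [q4, d2, tE, ite_div, add_div, neg_div, sum_add_distrib, sum_ite2]
  simp only [eσ1, eW1, eW, eσ]; field_simp; ring

theorem eq_W (a : μ) : P.e (c.F a ⬝ᵥ m.Q *ᵥ c.F a - 2 * c.F a ⬝ᵥ m.Ric *ᵥ c.F a) =
    P.p * ((P.W2 * P.ry - P.W1 * P.ry1) / P.ry ^ 3) - P.p * (P.W1 / P.ry) ^ 2 / P.W +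
      (P.p1 / P.ry + Fintype.card μ * P.p / P.r) * (P.W1 / P.ry) + P.p * P.W / P.r ^ 2 -
      P.W ^ 2 / (P.p * P.q) + P.q / P.p - 2 * Fintype.card μ := by
  have := P.hr; have := P.hry; have := P.hp; have := P.hq
  rw [map_sub, map_mul, map_ofNat, F_eq, qq, ric _ _ (by simp)]
  simp only [al_F, Fintype.sum_sum_type, Fintype.sum_option]
  simp [q4, d2, tF, ite_div, add_div, neg_div, sum_add_distrib, sum_ite2]
  simp only [eσ1, eW1, eW, eσ]; field_simp; ring

theorem eq_p : P.e (c.U ⬝ᵥ m.Q *ᵥ c.U - 2 * c.U ⬝ᵥ m.Ric *ᵥ c.U) =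
    P.p * ((P.p2 * P.ry - P.p1 * P.ry1) / P.ry ^ 3) +
      Fintype.card μ * P.p * (P.p1 / P.ry) / P.r +
      Fintype.card μ * ((P.q - P.W) ^ 2 - P.p ^ 2) / P.r ^ 2 -
      1 / 2 * (Fintype.card μ * (1 / 2 * (P.p * (P.q1 / P.ry / P.q - P.W1 / P.ry / P.W)) +
        (P.q - P.W) / P.r) ^ 2) := by
  have := P.hr; have := P.hry; have := P.hp; have := P.hq
  rw [map_sub, map_mul, map_ofNat, U_eq, qq, ric _ _ (by simp)]
  simp only [al_U, Fintype.sum_sum_type, Fintype.sum_option]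
  simp [q4, d2, tU, ite_div, add_div, neg_div]
  simp only [nu, eσ1, eW1, eW, eσ]; field_simp; ring

end Pt

end

end Pool.Agent.P.MP_8fdf05_gt
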