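import Pool.Agent.P.MP_8fdf05_gt.Sm

/-! The one dimensional system satisfied by an invariant solution. Points are (t, y). -/

open Set
open scoped ContDiff

namespace Pool.Agent.P.MP_8fdf05_gt

open Sm

/-- The domain [0,T) × (0,1). -/
noncomputable abbrev D1 (T : ℝ) : Dom (ℝ × ℝ) := Dom.cyl T (Ioo 0 1) isOpen_Ioo

/-- The reduced system; `ryi • der (0,1)` is the derivative with respect to r. -/
structure Red (m : ℕ) (T : ℝ) where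
  (q W p r qi Wi pi ri ryi : Sm (D1 T))
  hq : q * qi = 1
  hW : W * Wi = 1
  hp : p * pi = 1
  hr : r * ri = 1
  hry : der (0, 1) r * ryi = 1
  sq : r ^ 2 = q * W
  eq_q : der (1, 0) q = p * (ryi • der (0, 1)) ((ryi • der (0, 1)) q) -
    p * (ryi • der (0, 1)) q ^ 2 * qi + ((ryi • der (0, 1)) p + m * p * ri) * (ryi • der (0, 1)) q +
    p * q * ri ^ 2 - q ^ 2 * pi * Wi + W * pi - 2 * m
  eq_W : der (1, 0) W = p * (ryi • der (0, 1)) ((ryi • der (0, 1)) W) -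
    p * (ryi • der (0, 1)) W ^ 2 * Wi + ((ryi • der (0, 1)) p + m * p * ri) * (ryi • der (0, 1)) W +
    p * W * ri ^ 2 - W ^ 2 * pi * qi + q * pi - 2 * m
  eq_p : der (1, 0) p = p * (ryi • der (0, 1)) ((ryi • der (0, 1)) p) +
    m * p * (ryi • der (0, 1)) p * ri + m * ((q - W) ^ 2 - p ^ 2) * ri ^ 2 -
    (1 / 2 : ℝ) • (m * ((1 / 2 : ℝ) • (p * ((ryi • der (0, 1)) q * qi - (ryi • der (0, 1)) W * Wi)) +
      (q - W) * ri) ^ 2)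
  (Q A B E K : ℝ × ℝ → ℝ)
  sQ : ContDiffOn ℝ ∞ Q (Ico 0 T ×ˢ univ)
  sA : ContDiffOn ℝ ∞ A (Ico 0 T ×ˢ univ)
  sB : ContDiffOn ℝ ∞ B (Ico 0 T ×ˢ univ)
  sE : ContDiffOn ℝ ∞ E (Ico 0 T ×ˢ univ)
  sK : ContDiffOn ℝ ∞ K (Ico 0 T ×ˢ univ)
  pos : ∀ t ∈ Ico 0 T, ∀ y ∈ Icc (0 : ℝ) 1,
    0 < Q (t, y) ∧ 0 < A (t, y) ∧ 0 < B (t, y) ∧ 0 < E (t, y) ∧ 0 < K (t, y)
  eQ : ∀ x, ev x q = Q x
  eA : ∀ x, ev x p = (1 - x.1.2 ^ 2) ^ 2 * A x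
  eB : ∀ x, ev x W = x.1.2 ^ 2 * B x
  eE : ∀ x, ev x r = x.1.2 * E x
  eK : ∀ x, ev x (der (0, 1) r) = (1 - x.1.2 ^ 2) * K x
  b0 : ∀ t ∈ Ico 0 T, A (t, 0) = Q (t, 0)
  b1 : ∀ t ∈ Ico 0 T, B (t, 1) = Q (t, 1) ∧ A (t, 1) = K (t, 1)

namespace Red

variable {m : ℕ} {T : ℝ} (R : Red m T)

/-- Derivative with respect to r. -/
noncomputable def d : Derivation ℝ (Sm (D1 T)) (Sm (D1 T)) := R.ryi • der (0, 1)

/-- The lens function at a point. -/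
noncomputable def HH (x : (D1 T).S) : ℝ :=
  (ev x R.r * (ev x (R.d R.q) / ev x R.q - ev x (R.d R.W) / ev x R.W) / 2 +
      9 / 25 * ((ev x R.q - ev x R.W) / (ev x R.q + ev x R.W))) ^ 2 +
    16 / 9 * ((ev x R.q + ev x R.W) / ev x R.p - 33 / 25) ^ 2 - 16 / 25

/-- What the barrier arguments use about the initial data. -/
structure Good (r1 Q0 : ℝ) : Prop where
  top : R.E (0, 1) = 1 / 2
  g1 : ∀ x : (D1 T).S, x.1.1 = 0 → ev x R.p ≤ ev x R.q + ev x R.W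
  g2 : ∀ x : (D1 T).S, x.1.1 = 0 → ev x R.q * ev x R.r < 1 ∧ ev x R.W * ev x R.r < 1
  lens : ∀ x : (D1 T).S, x.1.1 = 0 → ev x R.r ≤ 2 * r1 → R.HH x ≤ -1 / 30
  cone : ∀ x : (D1 T).S, x.1.1 = 0 → ev x R.r ≤ 2 * r1 →
    ev x R.q ^ 2 ≤ (Q0 / 200) ^ 2 + 21 / 50 * ev x R.r ^ 2

/-- The explicit initial data with parameter η. -/
def Init (η : ℝ) : Prop :=
  ∀ y ∈ Icc (0 : ℝ) 1, ∀ s l l' : ℝ, s = (1 - y ^ 2) / (1 + y ^ 2) →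
    l = 1 - √(η ^ 2 + 2 / 5 * (1 - s ^ 2)) → l' = 1 - √(η ^ 2 + 3 / 2 * (1 - s ^ 2)) →
    R.Q (0, y) = (1 - l * s) / (1 + l * s) / (1 + y ^ 2) ∧
    R.A (0, y) = (1 - l' * s ^ 2) / (1 + l' * s ^ 2) / (1 + y ^ 2) ^ 2 ∧
    R.E (0, y) = 1 / (1 + y ^ 2)

end Red

end Pool.Agent.P.MP_8fdf05_gt
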