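import Pool.Agent.P.MP_8fdf05_gt.Pt2
import Pool.Agent.P.MP_8fdf05_gt.KillC
import Pool.Agent.P.MP_8fdf05_gt.Red

/-! An invariant solution gives a solution of the reduced system. -/

open Matrix Set
open scoped ContDiff

namespace Pool.Agent.P.MP_8fdf05_gt

open Sm

variable {μ : Type} [Fintype μ] [DecidableEq μ] {T : ℝ} {g J : ℝ → Fld (II μ)}

namespace RedC

/-- The curve as a linear map. -/
noncomputable def cL (μ : Type) [Fintype μ] [DecidableEq μ] : ℝ × ℝ →L[ℝ] ℝ × (II μ → ℝ) :=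
  (ContinuousLinearMap.id ℝ ℝ).prodMap (ContinuousLinearMap.single ℝ (fun _ => ℝ) (Sum.inr none))

lemma cL_apply (x : ℝ × ℝ) : cL μ x = (x.1, cur x.2) := rfl

lemma cL_maps : MapsTo (cL μ) (D1 T).S (DD (II μ) T).S := fun _ hx => ⟨hx.1, trivial⟩

/-- Restriction to the curve. -/
noncomputable def pl : Sm (DD (II μ) T) →ₐ[ℝ] Sm (D1 T) :=
  pull (cL μ) (cL μ).contDiff.contDiffOn cL_maps

/-- The point of the curve. -/
noncomputable def pt (μ : Type) [Fintype μ] [DecidableEq μ] (x : (D1 T).S) : (DD (II μ) T).S :=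
  ⟨cL μ x, cL_maps x.2⟩

lemma ev_pl (a : Sm (DD (II μ) T)) (x : (D1 T).S) : ev x (pl a) = ev (pt μ x) a :=
  ev_pull _ _ _ _ _

lemma der_pl (a : Sm (DD (II μ) T)) (v : ℝ × ℝ) : der v (pl a) = pl (der (cL μ v) a) := by
  ext x
  rw [ev_pl]
  exact ev_der_pull _ _ _ a x v (cL μ).hasFDerivWithinAt

lemma dy_pl (a : Sm (DD (II μ) T)) : der (0, 1) (pl a) = pl (dx (Sum.inr none) a) := der_pl a _

lemma dt_pl (a : Sm (DD (II μ) T)) : der (1, 0) (pl a) = pl (dt a) := by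
  rw [der_pl, cL_apply, cur, Pi.single_zero]

lemma sq_entry {ν : Type} [Fintype ν] [DecidableEq ν] {G K : Matrix (ν ⊕ ν) (ν ⊕ ν) ℝ}
    {a b k : ν → ℝ} (hs : K * K = -1) (hh : Kᵀ * G * K = G) (hG : G = diagonal (Sum.elim a b))
    (ho : Kᵀ * G = fromBlocks 0 (diagonal k) (-diagonal k) 0) (o : ν) : k o ^ 2 = a o * b o := by
  have h1 : G * K = -(Kᵀ * G) := by
    rw [← hh, Matrix.mul_assoc, hs, hh]; simp
  rw [ho] at h1 hh
  have e1 := congrFun (congrFun h1 (Sum.inr o)) (Sum.inl o)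
  have e2 := congrFun (congrFun hh (Sum.inl o)) (Sum.inl o)
  rw [hG, diagonal_mul] at e1
  rw [hG] at e2
  simp [Matrix.mul_apply, diagonal_apply] at e1 e2
  rw [← e2, sq]
  nth_rewrite 2 [← e1]
  ring

lemma pos_of {f : ℝ → ℝ} (hc : ContinuousOn f (Ico 0 T)) (hn : ∀ t ∈ Ico 0 T, f t ≠ 0)
    (h0 : 0 < f 0) {t : ℝ} (ht : t ∈ Ico 0 T) : 0 < f t := by
  by_contra h
  have hs : Icc 0 t ⊆ Ico 0 T := fun s hs => ⟨hs.1, hs.2.trans_lt ht.2⟩
  obtain ⟨s, hs', e⟩ := intermediate_value_Icc' ht.1 (hc.mono hs) ⟨not_lt.1 h, h0.le⟩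
  exact hn s (hs hs') e

lemma ev_d {r ryi : Sm (D1 T)} (u : Sm (D1 T)) (h : der (0, 1) r * ryi = 1) (x : (D1 T).S) :
    ev x ((ryi • der (0, 1)) u) = ev x (der (0, 1) u) / ev x (der (0, 1) r) ∧
    ev x ((ryi • der (0, 1)) ((ryi • der (0, 1)) u)) =
      (ev x (der (0, 1) (der (0, 1) u)) * ev x (der (0, 1) r) -
        ev x (der (0, 1) u) * ev x (der (0, 1) (der (0, 1) r))) / ev x (der (0, 1) r) ^ 3 := by
  have h1 := congrArg (ev x) h
  have h2 := congrArg (fun a => ev x (der (0, 1) a)) h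
  simp only [map_mul, map_one, Derivation.leibniz, smul_eq_mul, map_add,
    Derivation.map_one_eq_zero, map_zero] at h1 h2
  have h3 : ev x (der (0, 1) r) ≠ 0 := left_ne_zero_of_mul_eq_one h1
  have h4 : ev x ryi = (ev x (der (0, 1) r))⁻¹ := eq_inv_of_mul_eq_one_right h1
  have h5 : ev x (der (0, 1) ryi) =
      -(ev x ryi * ev x (der (0, 1) (der (0, 1) r))) / ev x (der (0, 1) r) := by
    field_simp; linarith
  simp only [Derivation.smul_apply, smul_eq_mul, Derivation.leibniz, map_mul, map_add, h5, h4]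
  constructor <;> field_simp
  ring

lemma ev_gg {m : Geo (II μ) (Sm (DD (II μ) T))} (x : (DD (II μ) T).S)
    {X Y : II μ → Sm (DD (II μ) T)} {i j : II μ} {a b : ℝ}
    (hX : (fun k => ev x (X k)) = Pi.single i a) (hY : (fun k => ev x (Y k)) = Pi.single j b) :
    ev x (m.gg X Y) = a * b * ev x (m.g i j) ∧
      ev x (m.gg (m.J *ᵥ X) Y) = a * b * ev x (m.om i j) := by
  have hX' := fun k => congrFun hX k
  have hY' := fun k => congrFun hY k
  have e : m.gg (m.J *ᵥ X) Y = X ⬝ᵥ m.om *ᵥ Y := by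
    rw [Met.gg, Geo.om, ← mulVec_mulVec, dotProduct_mulVec X, vecMul_transpose]
  rw [e]
  simp only [Met.gg, dotProduct, mulVec, map_sum, map_mul, hX', hY', Pi.single_apply, mul_ite,
    ite_mul, mul_zero, zero_mul, Finset.sum_ite_eq', Finset.mem_univ, if_true]
  constructor <;> ring

end RedC

open RedC in
theorem exists_red (a0 : μ) {η : ℝ} (h : ChartAK T univ g J) (hf : ChartFlow T univ g J)
    (hi : Inv T g J) (hη : η ∈ Ioo (0 : ℝ) (1 / 10)) (h0 : g 0 = g1 η) (h0' : J 0 = J1 η) :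
    ∃ R : Red (Fintype.card μ) T, R.Init η := by
  obtain ⟨m, hd, rg, rJ, -, -, -, -, ro, -, hfl⟩ := h.geo isOpen_univ
  obtain ⟨c, tU, tE, tF, hc⟩ := exists_coh hi m hd rg rJ
  have fl := hfl hf
  set Q : ℝ × ℝ → ℝ := fun x => g x.1 (cur x.2) (Sum.inl (some a0)) (Sum.inl (some a0)) with hQ
  set A : ℝ × ℝ → ℝ := fun x => g x.1 (cur x.2) (Sum.inl none) (Sum.inl none) with hA
  set B : ℝ × ℝ → ℝ := fun x => g x.1 (cur x.2) (Sum.inr (some a0)) (Sum.inr (some a0)) with hB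
  set C : ℝ × ℝ → ℝ := fun x => g x.1 (cur x.2) (Sum.inr none) (Sum.inr none) with hC
  set E : ℝ × ℝ → ℝ := fun x =>
    om (g x.1) (J x.1) (cur x.2) (Sum.inl (some a0)) (Sum.inr (some a0)) with hE
  set K : ℝ × ℝ → ℝ := fun x => om (g x.1) (J x.1) (cur x.2) (Sum.inl none) (Sum.inr none) with hK
  have hm : MapsTo (cL μ) (Ico 0 T ×ˢ univ) (Ico 0 T ×ˢ univ) := fun _ hx => ⟨hx.1, trivial⟩
  have sg : ∀ i j, ContDiffOn ℝ ∞ (fun x : ℝ × ℝ => g x.1 (cur x.2) i j) (Ico 0 T ×ˢ univ) :=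
    fun i j => (h.sg i j).comp (cL μ).contDiff.contDiffOn hm
  have so : ∀ i j, ContDiffOn ℝ ∞ (fun x : ℝ × ℝ => om (g x.1) (J x.1) (cur x.2) i j)
      (Ico 0 T ×ˢ univ) := fun i j => by
    simp only [om, Matrix.mul_apply, transpose_apply]
    exact ContDiffOn.sum fun k _ =>
      ((h.sJ k i).comp (cL μ).contDiff.contDiffOn hm).mul (sg k j)
  have pg : ∀ t ∈ Ico 0 T, ∀ y i, 0 < g t (cur y) i i := fun t ht y i =>
    (h.pos t ht _ trivial).diag_pos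
  have sqe : ∀ t ∈ Ico 0 T, ∀ y, E (t, y) ^ 2 = Q (t, y) * B (t, y) ∧
      K (t, y) ^ 2 = A (t, y) * C (t, y) := fun t ht y =>
    have k := sq_entry (h.sq t ht _ trivial) (h.herm t ht _ trivial) (shape h hi a0 ht y).1
      (shape h hi a0 ht y).2
    ⟨k (some a0), k none⟩
  have ct : ∀ {f : ℝ × ℝ → ℝ}, ContDiffOn ℝ ∞ f (Ico 0 T ×ˢ univ) → ∀ y,
      ContinuousOn (fun t => f (t, y)) (Ico 0 T) := fun hf y =>
    hf.continuousOn.comp (by fun_prop) fun _ ht => ⟨ht, trivial⟩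
  have ini := fun y => init_cur hη a0 y _ _ _ rfl rfl rfl
  have pE : ∀ t ∈ Ico 0 T, ∀ y, 0 < E (t, y) := fun t ht y =>
    pos_of (ct (so _ _) y) (fun s hs e => by
      have := (sqe s hs y).1
      rw [show E (s, y) = 0 from e] at this
      exact (mul_pos (pg s hs y _) (pg s hs y _)).ne (by simpa using this))
      (by simp only [h0, h0', (ini y).2.2.1]; positivity) ht
  have pK : ∀ t ∈ Ico 0 T, ∀ y, 0 < K (t, y) := fun t ht y =>
    pos_of (ct (so _ _) y) (fun s hs e => by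
      have := (sqe s hs y).2
      rw [show K (s, y) = 0 from e] at this
      exact (mul_pos (pg s hs y _) (pg s hs y _)).ne (by simpa using this))
      (by simp only [h0, h0', (ini y).2.2.2]; positivity) ht
  have hF : ∀ (x : (D1 T).S) z, (fun i => ev (pt μ x) (c.Fr z i)) =
      Pi.single z (q4 (1 - x.1.2 ^ 2) 1 1 x.1.2 z) := fun x z => by
    obtain ⟨k1, k2, k3, -⟩ := hc (pt μ x) x.1.2 rfl
    rcases z with (_ | a) | (_ | a)
    exacts [k1, k2 a, funext fun i => by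
      simp only [Coh.Fr, q4, Sum.elim_inr, Option.elim_none, Pi.single_apply, apply_ite (ev _),
        map_one, map_zero], k3 a]
  have eg : ∀ (x : (D1 T).S) i j, ev (pt μ x) (m.g i j) = g x.1.1 (cur x.1.2) i j :=
    fun x => rg.ent (pt μ x)
  have eo : ∀ (x : (D1 T).S) i j, ev (pt μ x) (m.om i j) =
      om (g x.1.1) (J x.1.1) (cur x.1.2) i j := fun x => ro.ent (pt μ x)
  obtain ⟨p, hp⟩ : ∃ p, p = pl (m.gg c.U c.U) := ⟨_, rfl⟩
  obtain ⟨q, hq⟩ : ∃ q, q = pl (m.gg (c.E a0) (c.E a0)) := ⟨_, rfl⟩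
  obtain ⟨W, hW⟩ : ∃ W, W = pl (m.gg (c.F a0) (c.F a0)) := ⟨_, rfl⟩
  obtain ⟨σ, hσ⟩ : ∃ σ, σ = pl (m.gg (c.Fr (Sum.inr none)) (c.Fr (Sum.inr none))) := ⟨_, rfl⟩
  obtain ⟨r, hr⟩ : ∃ r, r = pl (m.gg (m.J *ᵥ c.E a0) (c.F a0)) := ⟨_, rfl⟩
  have ep : ∀ x, ev x p = (1 - x.1.2 ^ 2) ^ 2 * A x := fun x => by
    rw [hp, ev_pl, Pt.U_eq, (ev_gg _ (hF x _) (hF x _)).1, eg, ← sq]; rfl
  have eq : ∀ x, ev x q = Q x := fun x => by
    rw [hq, ev_pl, Pt.E_eq, (ev_gg _ (hF x _) (hF x _)).1, eg]; simp [q4, hQ]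
  have eW : ∀ x, ev x W = x.1.2 ^ 2 * B x := fun x => by
    rw [hW, ev_pl, Pt.F_eq, (ev_gg _ (hF x _) (hF x _)).1, eg, sq]; rfl
  have eσ : ∀ x, ev x σ = C x := fun x => by
    rw [hσ, ev_pl, (ev_gg _ (hF x _) (hF x _)).1, eg]; simp [q4, hC]
  have er : ∀ x, ev x r = x.1.2 * E x := fun x => by
    rw [hr, ev_pl, Pt.E_eq, Pt.F_eq, (ev_gg _ (hF x _) (hF x _)).2, eo]; simp [q4, hE]
  have ery : ∀ x, ev x (der (0, 1) r) = (1 - x.1.2 ^ 2) * K x := fun x => by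
    rw [hr, dy_pl, ← hd, ← m.vd_single, (c.kE a0).moment (c.kF a0), Pt.bFE, if_pos rfl, ev_pl,
      Pt.U_eq]
    refine (ev_gg _ (hF x _) (hF x (Sum.inr none))).2.trans ?_
    rw [eo]
    simp [q4, hK]
  have y0 : ∀ x : (D1 T).S, x.1.2 ≠ 0 := fun x => x.2.2.1.ne'
  have y1 : ∀ x : (D1 T).S, 1 - x.1.2 ^ 2 ≠ 0 := fun x => by
    have := x.2.2.1; have := x.2.2.2; nlinarith
  have np : ∀ x, ev x p ≠ 0 := fun x => by
    rw [ep]; exact mul_ne_zero (pow_ne_zero _ (y1 x)) (pg _ x.2.1 _ _).ne'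
  have nq : ∀ x, ev x q ≠ 0 := fun x => by rw [eq]; exact (pg _ x.2.1 _ _).ne'
  have nW : ∀ x, ev x W ≠ 0 := fun x => by
    rw [eW]; exact mul_ne_zero (pow_ne_zero _ (y0 x)) (pg _ x.2.1 _ _).ne'
  have nσ : ∀ x, ev x σ ≠ 0 := fun x => by rw [eσ]; exact (pg _ x.2.1 _ _).ne'
  have nr : ∀ x, ev x r ≠ 0 := fun x => by rw [er]; exact mul_ne_zero (y0 x) (pE _ x.2.1 _).ne'
  have nry : ∀ x, ev x (der (0, 1) r) ≠ 0 := fun x => by
    rw [ery]; exact mul_ne_zero (y1 x) (pK _ x.2.1 _).ne'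
  have hsq : r ^ 2 = q * W := by
    ext x
    rw [map_pow, map_mul, er, eq, eW, mul_pow, (sqe _ x.2.1 _).1]; ring
  have hps : p * σ = der (0, 1) r ^ 2 := by
    ext x
    rw [map_pow, map_mul, ery, ep, eσ, mul_pow, (sqe _ x.2.1 _).2]; ring
  have hN : ∀ z z', pl (m.gg (c.Fr z) (c.Fr z')) = if z = z' then
      Sum.elim (fun o => o.elim p fun _ => q) (fun o => o.elim σ fun _ => W) z else 0 := by
    intro z z'
    ext x
    rw [ev_pl, (ev_gg _ (hF x _) (hF x _)).1, eg, (shape h hi a0 x.2.1 x.1.2).1, diagonal_apply]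
    split_ifs with hz
    · subst hz
      rcases z with (_ | a) | (_ | a) <;> simp [q4, ep, eq, eW, eσ, hA, hB, hC, hQ, sq]
    · simp
  have hP : ∀ x : (D1 T).S, ∃ P : Pt c, P.e = ev (pt μ x) ∧ P.p = ev x p ∧ P.q = ev x q ∧
      P.W = ev x W ∧ P.r = ev x r ∧ P.ry = ev x (der (0, 1) r) ∧ P.p1 = ev x (der (0, 1) p) ∧
      P.q1 = ev x (der (0, 1) q) ∧ P.W1 = ev x (der (0, 1) W) ∧
      P.ry1 = ev x (der (0, 1) (der (0, 1) r)) ∧ P.p2 = ev x (der (0, 1) (der (0, 1) p)) ∧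
      P.q2 = ev x (der (0, 1) (der (0, 1) q)) ∧ P.W2 = ev x (der (0, 1) (der (0, 1) W)) := by
    intro x
    have d2 : ∀ z, ev (pt μ x) (m.d (Sum.inr none) (m.d (Sum.inr none)
        (m.gg (c.Fr z) (c.Fr z)))) = ev x (der (0, 1) (der (0, 1)
          (Sum.elim (fun o => o.elim p fun _ => q) (fun o => o.elim σ fun _ => W) z))) := by
      intro z
      rw [hd, ← ev_pl, ← dy_pl, ← dy_pl, hN, if_pos rfl]
    refine ⟨⟨ev (pt μ x), x.1.2, _, _, _, ev x σ, _, _, _, _, _, ev x (der (0, 1) σ), _, _,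
      ev x (der (0, 1) (der (0, 1) q)), ev x (der (0, 1) (der (0, 1) W)), y0 x, y1 x, np x, nq x, nW x, nσ x, ?_, ?_, ?_, ?_, hF x, (hc _ _ rfl).2.2.2, ?_, ?_, ?_,
      d2 (Sum.inl none), fun a => d2 (Sum.inl (some a)), fun a => d2 (Sum.inr (some a))⟩,
      rfl, rfl, rfl, rfl, rfl, rfl, rfl, rfl, rfl, rfl, rfl, rfl, rfl⟩
    · rw [← map_pow, hsq, map_mul]
    · rw [← map_pow, ← hps, map_mul]
    · have := congrArg (fun a => ev x (der (0, 1) a)) hsq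
      simp only [sq, Derivation.leibniz, smul_eq_mul, map_add, map_mul] at this
      linarith
    · have := congrArg (fun a => ev x (der (0, 1) a)) hps
      simp only [sq, Derivation.leibniz, smul_eq_mul, map_add, map_mul] at this
      linarith
    · refine (rg (pt μ x)).trans ((shape h hi a0 x.2.1 x.1.2).1.trans ?_)
      congr 1
      funext z
      rcases z with (_ | a) | (_ | a) <;> simp [q4, ep, eq, eW, eσ, hA, hB, hC, hQ, y0 x, y1 x]
    · refine (ro (pt μ x)).trans ((shape h hi a0 x.2.1 x.1.2).2.trans ?_)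
      simp [er, ery, hE, hK, y0 x, y1 x]
    · intro z z'
      rw [hd, ← ev_pl, ← dy_pl, hN]
      split_ifs
      · rcases z with (_ | a) | (_ | a) <;> rfl
      · simp
  have hry := mul_inv _ nry
  refine ⟨⟨q, W, p, r, q.inv nq, W.inv nW, p.inv np, r.inv nr, _, mul_inv _ _, mul_inv _ _,
    mul_inv _ _, mul_inv _ _, hry, hsq, ?_, ?_, ?_, Q, A, B, E, K, sg _ _, sg _ _, sg _ _, so _ _,
    so _ _, fun t ht y _ => ⟨pg t ht y _, pg t ht y _, pg t ht y _, pE t ht y, pK t ht y⟩, eq, ep,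
    eW, er, ery, fun t ht => (ends hi a0 ht).1, fun t ht => ⟨(ends hi a0 ht).2.1, ?_⟩⟩, ?_⟩
  · ext x
    obtain ⟨P, e0, e1, e2, e3, e4, e5, e6, e7, e8, e9, e10, e11, e12⟩ := hP x
    have := P.eq_q a0
    rw [← fl.gg (tE a0), e0, ← ev_pl, ← dt_pl, ← hq, e1, e2, e3, e4, e5, e6, e7, e9, e11] at this
    simp only [this, map_sub, map_add, map_mul, map_pow, (ev_d _ hry x).2, ev_inv, map_natCast,
      map_ofNat]
    simp only [(ev_d _ hry x).1]
    ring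
  · ext x
    obtain ⟨P, e0, e1, e2, e3, e4, e5, e6, e7, e8, e9, e10, e11, e12⟩ := hP x
    have := P.eq_W a0
    rw [← fl.gg (tF a0), e0, ← ev_pl, ← dt_pl, ← hW, e1, e2, e3, e4, e5, e6, e8, e9, e12] at this
    simp only [this, map_sub, map_add, map_mul, map_pow, (ev_d _ hry x).2, ev_inv, map_natCast,
      map_ofNat]
    simp only [(ev_d _ hry x).1]
    ring
  · ext x
    obtain ⟨P, e0, e1, e2, e3, e4, e5, e6, e7, e8, e9, e10, e11, e12⟩ := hP x
    have := P.eq_p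
    rw [← fl.gg tU, e0, ← ev_pl, ← dt_pl, ← hp, e1, e2, e3, e4, e5, e6, e7, e8, e9, e10] at this
    simp only [this, map_sub, map_add, map_mul, map_pow, (ev_d _ hry x).2, ev_inv, map_natCast,
      map_smul, smul_eq_mul]
    simp only [(ev_d _ hry x).1]
    ring
  · have k := (sqe t ht 1).2
    rw [show C (t, 1) = A (t, 1) from (ends hi a0 ht).2.2, ← sq] at k
    exact ((pow_left_inj₀ (pK t ht 1).le (pg t ht 1 _).le two_ne_zero).1 k).symm
  · intro y _ s l l' hs hl hl'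
    obtain ⟨k1, k2, k3, -⟩ := init_cur hη a0 y s l l' hs hl hl'
    simp only [hQ, hA, hE, h0, h0']
    exact ⟨k1, k2, k3⟩

end Pool.Agent.P.MP_8fdf05_gt
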