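import Pool.Agent.P.MP_8fdf05_gt.Main
import Pool.Agent.P.MP_8fdf05_gt.Einstein

/-! One symplectic form, the exact class. -/

open Set Filter Topology Matrix
open scoped ContDiff

namespace Pool.Agent.P.MP_8fdf05_gt

variable {ν : Type} [Fintype ν] [DecidableEq ν] {M : Type} [TopologicalSpace M]
  [ChartedSpace (ν ⊕ ν → ℝ) M] {ch : Sy ν → OpenPartialHomeomorph M (ν ⊕ ν → ℝ)}

open ClassP in
/-- One symplectic form; all the deformed structures are compatible with it, and their form P is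
cohomologous to 4(n+1) times it. -/
theorem class_exact (hc : IsCP ch) : ∃ ω0 : M → Matrix (ν ⊕ ν) (ν ⊕ ν) ℝ, IsSymp ω0 ∧
    ∀ η ∈ Ioo (0 : ℝ) (1 / 10),
    ∃ (g0 J0 : M → Matrix (ν ⊕ ν) (ν ⊕ ν) ℝ) (θ : M → ν ⊕ ν → ℝ), IsAK g0 J0 ∧
      (∀ L, form2 g0 (ch L) = g1 η) ∧ (∀ L, endo J0 (ch L) = fun w => L.sgn • J1 η w) ∧
      (∀ p, (J0 p)ᵀ * g0 p = ω0 p) ∧
      (∀ e ∈ atlas (ν ⊕ ν → ℝ) M, ∀ a, ContDiffOn ℝ ∞ (fun z => form1 θ e z a) e.target) ∧
      ∀ e ∈ atlas (ν ⊕ ν → ℝ) M, ∀ z ∈ e.target,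
        Pform (endo J0 e) (chern (form2 g0 e) (endo J0 e)) z - dOne (form1 θ e) z =
          (4 * (Fintype.card ν + 1) : ℝ) • form2 ω0 e z := by
  have hat : ∀ e ∈ atlas (ν ⊕ ν → ℝ) M, ∃ L, ch L = e := fun e he => by
    rwa [hc.atl] at he
  have hσ := hc.form2_of_inv om0 Sy.sgn sgn_perm fun L w hw => om0_inv L hw
  refine ⟨fun p => om0 (chartAt (ν ⊕ ν → ℝ) p p), ⟨fun p => om0_skew _, fun p => om0_det _,
    fun e he a b => ?_, fun e he z _ => ?_⟩, fun η hη => ?_⟩
  · obtain ⟨L, rfl⟩ := hat e he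
    rw [hσ]
    exact (contDiff_const.mul (om0_smooth a b)).contDiffOn
  · obtain ⟨L, rfl⟩ := hat e he
    rw [hσ]
    have := closed_comb (fun a b => (om0_smooth a b).differentiable (by simp) z)
      (fun a b => (om0_smooth a b).differentiable (by simp) z) (G0_closed z) (G0_closed z) L.sgn 0
    simpa only [zero_smul, sub_zero] using this
  have hg : ∀ L, form2 (fun p => g1 η (chartAt (ν ⊕ ν → ℝ) p p)) (ch L) = g1 η := fun L => by
    rw [hc.form2_of_inv (g1 η) (fun _ => 1) (fun _ _ => rfl)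
      (fun L w hw => by rw [g1_inv hη L hw, one_smul]) L]
    funext w
    rw [one_smul]
  have hJ := hc.endo_of_inv (J1 η) Sy.sgn sgn_perm fun L w hw => J1_inv hη L hw
  have hθ := hc.form1_of_inv (th η) Sy.sgn sgn_perm fun L w hw => th_inv hη L hw
  refine ⟨_, _, fun p => th η (chartAt (ν ⊕ ν → ℝ) p p), ⟨fun p => g1_posDef hη _,
    fun p => J1_sq hη _, fun p => g1_herm hη _, ?_, ?_⟩, hg, hJ, fun p => ?_, ?_, ?_⟩
  · intro e he a b
    obtain ⟨L, rfl⟩ := hat e he
    rw [hg, hJ]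
    exact ⟨(g1_smooth hη a b).contDiffOn, (contDiff_const.mul (J1_smooth hη a b)).contDiffOn⟩
  · intro e he z _
    obtain ⟨L, rfl⟩ := hat e he
    rw [hg, hJ]
    exact ((ak1 hη).sign L.sgn_sq).closed 0 h01 z (mem_univ _)
  · exact congrFun (om1 hη) _
  · intro e he a
    obtain ⟨L, rfl⟩ := hat e he
    rw [hθ]
    exact (contDiff_const.mul ((th_facts hη).1 a)).contDiffOn
  · intro e he z _
    obtain ⟨L, rfl⟩ := hat e he
    rw [hσ, hg, hJ, hθ, Pform_sign _ _ L.sgn_sq,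
      dOne_smul (fun a => ((th_facts hη).1 a).differentiable (by simp) z)]
    simp only
    rw [← smul_sub, (th_facts hη).2, Ein.P0_eq, smul_comm]

section scale

variable {ι : Type} [Fintype ι] [DecidableEq ι] {N : Type} [TopologicalSpace N]
  [ChartedSpace (ι → ℝ) N]

lemma form2_smul (c : ℝ) (σ : N → Matrix ι ι ℝ) (e : OpenPartialHomeomorph N (ι → ℝ)) :
    form2 (c • σ) e = fun z => c • form2 σ e z := by
  funext z
  simp only [form2, Pi.smul_apply, Matrix.mul_smul, Matrix.smul_mul]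

/-- A nonzero multiple of a symplectic form is symplectic. -/
lemma IsSymp.smul {σ : N → Matrix ι ι ℝ} (h : IsSymp σ) {c : ℝ} (hc : c ≠ 0) : IsSymp (c • σ) := by
  refine ⟨fun p => ?_, fun p => ?_, fun e he a b => ?_, fun e he z hz => ?_⟩
  · simp only [Pi.smul_apply, transpose_smul, h.skew, smul_neg]
  · simp only [Pi.smul_apply, det_smul]
    exact mul_ne_zero (pow_ne_zero _ hc) (h.nondeg p)
  · rw [form2_smul]
    exact contDiffOn_const.mul (h.smooth e he a b)
  · have hd : ∀ a b, DifferentiableAt ℝ (fun y => form2 σ e y a b) z := fun a b =>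
      ((h.smooth e he a b).contDiffAt (e.open_target.mem_nhds hz)).differentiableAt (by simp)
    have := ClassP.closed_comb hd hd (h.closed e he z hz) (h.closed e he z hz) c 0
    rw [form2_smul]
    simpa only [zero_smul, sub_zero] using this

lemma om_chart {g J σ : N → Matrix ι ι ℝ} (h : ∀ p, (J p)ᵀ * g p = σ p)
    {e : OpenPartialHomeomorph N (ι → ℝ)} {z : ι → ℝ} (hj : (jac e z).det ≠ 0) :
    om (form2 g e) (endo J e) z = form2 σ e z := by
  have hu : IsUnit (jac e z)ᵀ.det := by rw [det_transpose]; exact hj.isUnit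
  simp only [om, form2, endo, transpose_mul, transpose_nonsing_inv, Matrix.mul_assoc, ← h]
  rw [nonsing_inv_mul_cancel_left _ _ hu]

end scale

end Pool.Agent.P.MP_8fdf05_gt
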