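import Mathlib

/-! The ring of smooth real functions on a nice set, with its commuting derivations. -/

open Set Filter Topology
open scoped ContDiff

namespace Pool.Agent.P.MP_8fdf05_gt

/-- A set on which within-derivatives behave well. -/
structure Dom (F : Type) [NormedAddCommGroup F] [NormedSpace ℝ F] where
  S : Set F
  ud : UniqueDiffOn ℝ S
  cl : S ⊆ closure (interior S)

variable {F F' : Type} [NormedAddCommGroup F] [NormedSpace ℝ F] [NormedAddCommGroup F']
  [NormedSpace ℝ F']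

/-- Extension by zero. -/
noncomputable def Dom.ext (D : Dom F) (f : D.S → ℝ) : F → ℝ := Function.extend Subtype.val f 0

lemma Dom.ext_apply (D : Dom F) (f : D.S → ℝ) {x : F} (hx : x ∈ D.S) : D.ext f x = f ⟨x, hx⟩ :=
  Subtype.val_injective.extend_apply f 0 ⟨x, hx⟩

/-- Smooth functions on D. -/
def SmAlg (D : Dom F) : Subalgebra ℝ (D.S → ℝ) where
  carrier := {f | ContDiffOn ℝ ∞ (D.ext f) D.S}
  mul_mem' := fun {a b} ha hb => (ContDiffOn.mul ha hb).congr fun x hx => by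
    simp [D.ext_apply _ hx]
  add_mem' := fun {a b} ha hb => (ContDiffOn.add ha hb).congr fun x hx => by
    simp [D.ext_apply _ hx]
  algebraMap_mem' := fun r => (contDiffOn_const (c := r)).congr fun x hx => by
    simp [D.ext_apply _ hx]

/-- The type of smooth functions on D. -/
def Sm (D : Dom F) : Type := SmAlg D

namespace Sm

variable {D : Dom F} {D' : Dom F'}

noncomputable instance : CommRing (Sm D) := inferInstanceAs (CommRing (SmAlg D))
noncomputable instance : Algebra ℝ (Sm D) := inferInstanceAs (Algebra ℝ (SmAlg D))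

/-- The total function attached to a smooth function. -/
noncomputable def fn (a : Sm D) : F → ℝ := D.ext (a : SmAlg D).1

lemma smooth (a : Sm D) : ContDiffOn ℝ ∞ a.fn D.S := (a : SmAlg D).2

lemma continuousOn (a : Sm D) : ContinuousOn a.fn D.S := a.smooth.continuousOn

/-- Evaluation at a point. -/
noncomputable def ev (x : D.S) : Sm D →ₐ[ℝ] ℝ :=
  (Pi.evalAlgHom ℝ (fun _ : D.S => ℝ) x).comp (SmAlg D).val

lemma fn_apply (a : Sm D) {x : F} (hx : x ∈ D.S) : a.fn x = ev ⟨x, hx⟩ a := D.ext_apply _ hx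

lemma ev_eq (a : Sm D) (x : D.S) : ev x a = a.fn x := (a.fn_apply x.2).symm

lemma continuous_ev (a : Sm D) : Continuous fun x : D.S => ev x a := by
  have := continuousOn_iff_continuous_domRestrict.1 a.continuousOn
  refine this.congr fun x => ?_
  simp [ev_eq]

@[ext] lemma ext {a b : Sm D} (h : ∀ x, ev x a = ev x b) : a = b :=
  Subtype.ext (funext h)

/-- The element given by a smooth function. -/
noncomputable def mk (f : F → ℝ) (hf : ContDiffOn ℝ ∞ f D.S) : Sm D :=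
  (⟨fun x => f x, hf.congr fun _ hx => D.ext_apply _ hx⟩ : SmAlg D)

@[simp] lemma ev_mk (f : F → ℝ) (hf : ContDiffOn ℝ ∞ f D.S) (x : D.S) : ev x (mk f hf) = f x := rfl

lemma fn_mk (f : F → ℝ) (hf : ContDiffOn ℝ ∞ f D.S) {x : F} (hx : x ∈ D.S) :
    (mk f hf).fn x = f x := by rw [fn_apply _ hx, ev_mk]

lemma ext_interior {a b : Sm D} (h : ∀ x : D.S, x.1 ∈ interior D.S → ev x a = ev x b) : a = b := by
  ext x
  have h1 : ContinuousWithinAt a.fn (interior D.S) x :=
    (a.continuousOn x x.2).mono interior_subset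
  have h2 : ContinuousWithinAt b.fn (interior D.S) x :=
    (b.continuousOn x x.2).mono interior_subset
  have hne : (𝓝[interior D.S] x.1).NeBot := mem_closure_iff_nhdsWithin_neBot.1 (D.cl x.2)
  rw [ev_eq, ev_eq]
  refine tendsto_nhds_unique_of_eventuallyEq h1 h2 ?_
  filter_upwards [self_mem_nhdsWithin] with y hy
  rw [fn_apply _ (interior_subset hy), fn_apply _ (interior_subset hy)]
  exact h ⟨y, interior_subset hy⟩ hy

lemma diffOn (a : Sm D) : DifferentiableOn ℝ a.fn D.S := a.smooth.differentiableOn (by simp)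

lemma hasF (a : Sm D) {x : F} (hx : x ∈ D.S) :
    HasFDerivWithinAt a.fn (fderivWithin ℝ a.fn D.S x) D.S x := (a.diffOn x hx).hasFDerivWithinAt

lemma smooth_fderiv (a : Sm D) : ContDiffOn ℝ ∞ (fderivWithin ℝ a.fn D.S) D.S :=
  a.smooth.fderivWithin D.ud (by simp)

lemma fderiv_eq (a : Sm D) {x : F} (hx : x ∈ D.S) {f : F → ℝ} {L : F →L[ℝ] ℝ}
    (hf : HasFDerivWithinAt f L D.S x) (h : ∀ y : D.S, ev y a = f y) :
    fderivWithin ℝ a.fn D.S x = L :=
  (hf.congr (fun y hy => by rw [fn_apply _ hy, h]) (by rw [fn_apply _ hx, h])).fderivWithin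
    (D.ud x hx)

/-- Directional derivative as a function. -/
noncomputable def der0 (v : F) (a : Sm D) : Sm D :=
  mk (fun x => fderivWithin ℝ a.fn D.S x v) (a.smooth_fderiv.clm_apply contDiffOn_const)

lemma der0_add (v : F) (a b : Sm D) : der0 v (a + b) = der0 v a + der0 v b := by
  ext x
  have := (a + b).fderiv_eq x.2 ((a.hasF x.2).add (b.hasF x.2)) (fun y => by simp [← ev_eq])
  simp [der0, this]

lemma der0_smul (v : F) (c : ℝ) (a : Sm D) : der0 v (c • a) = c • der0 v a := by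
  ext x
  have := (c • a).fderiv_eq x.2 ((a.hasF x.2).const_smul c) (fun y => by simp [← ev_eq])
  simp [der0, this]

lemma der0_mul (v : F) (a b : Sm D) : der0 v (a * b) = a * der0 v b + b * der0 v a := by
  ext x
  have := (a * b).fderiv_eq x.2 ((a.hasF x.2).mul (b.hasF x.2)) (fun y => by simp [← ev_eq])
  simp [der0, this, ← ev_eq]

/-- Directional derivative as a derivation. -/
noncomputable def der (v : F) : Derivation ℝ (Sm D) (Sm D) :=
  Derivation.mk'
    { toFun := der0 v, map_add' := der0_add v, map_smul' := der0_smul v }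
    (fun a b => der0_mul v a b)

lemma ev_der (v : F) (a : Sm D) (x : D.S) : ev x (der v a) = fderivWithin ℝ a.fn D.S x v := rfl

lemma ev_der_of (v : F) (a : Sm D) (x : D.S) {f : F → ℝ} {L : F →L[ℝ] ℝ}
    (hf : HasFDerivWithinAt f L D.S x) (h : ∀ y : D.S, ev y a = f y) : ev x (der v a) = L v := by
  rw [ev_der, a.fderiv_eq x.2 hf h]

lemma der_comm (v w : F) (a : Sm D) : der v (der w a) = der w (der v a) := by
  ext x
  have key : ∀ v w : F, ev x (der v (der w a)) =
      fderivWithin ℝ (fderivWithin ℝ a.fn D.S) D.S x v w := by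
    intro v w
    have h1 := (a.smooth_fderiv.differentiableOn (by simp) x x.2).hasFDerivWithinAt
    have h2 := h1.clm_apply (hasFDerivWithinAt_const w x.1 D.S)
    rw [ev_der_of v _ x h2 (fun y => rfl)]
    simp
  rw [key, key]
  exact ((a.smooth x x.2).isSymmSndFDerivWithinAt (by
    rw [minSmoothness_of_isRCLikeNormedField]; exact WithTop.coe_le_coe.2 le_top) D.ud
      (D.cl x.2) x.2).eq v w

lemma der_add (v w : F) (a : Sm D) : der (v + w) a = der v a + der w a := by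
  ext x; simp [ev_der]

lemma der_smul (c : ℝ) (v : F) (a : Sm D) : der (c • v) a = c • der v a := by
  ext x; simp [ev_der]

/-- Chain rule along a map that stays in the domain. -/
lemma hasFDerivAt_comp (a : Sm D) {γ : F' → F} {L : F' →L[ℝ] F} {y : F'} (hγ : HasFDerivAt γ L y)
    (hS : ∀ᶠ u in 𝓝 y, γ u ∈ D.S) :
    HasFDerivAt (fun u => a.fn (γ u)) ((fderivWithin ℝ a.fn D.S (γ y)).comp L) y := by
  have h := (a.hasF hS.self_of_nhds).comp y (hγ.hasFDerivWithinAt (s := {u | γ u ∈ D.S}))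
    (fun u hu => hu)
  exact h.hasFDerivAt hS

lemma hasDerivAt_comp (a : Sm D) {γ : ℝ → F} {v : F} {y : ℝ} (hγ : HasDerivAt γ v y)
    (hS : ∀ᶠ u in 𝓝 y, γ u ∈ D.S) :
    HasDerivAt (fun u => a.fn (γ u)) (ev ⟨γ y, hS.self_of_nhds⟩ (der v a)) y := by
  have := (a.hasFDerivAt_comp hγ.hasFDerivAt hS).hasDerivAt
  simpa [ev_der] using this

/-- Inverse of a nowhere vanishing function. -/
noncomputable def inv (a : Sm D) (h : ∀ x, ev x a ≠ 0) : Sm D :=
  mk (fun x => (a.fn x)⁻¹) (a.smooth.inv fun x hx => by rw [fn_apply _ hx]; exact h _)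

@[simp] lemma ev_inv (a : Sm D) (h : ∀ x, ev x a ≠ 0) (x : D.S) : ev x (a.inv h) = (ev x a)⁻¹ := by
  simp [inv, ev_eq a]

lemma mul_inv (a : Sm D) (h : ∀ x, ev x a ≠ 0) : a * a.inv h = 1 := by
  ext x; simp [h x]

lemma isUnit (a : Sm D) (h : ∀ x, ev x a ≠ 0) : IsUnit a := IsUnit.of_mul_eq_one _ (a.mul_inv h)

/-- Pull back along a smooth map. -/
noncomputable def pull (ψ : F' → F) (hψ : ContDiffOn ℝ ∞ ψ D'.S) (hm : MapsTo ψ D'.S D.S) :
    Sm D →ₐ[ℝ] Sm D' where
  toFun a := mk (fun x => a.fn (ψ x)) (a.smooth.comp hψ hm)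
  map_one' := by ext x; simp [fn_apply _ (hm x.2)]
  map_mul' a b := by ext x; simp [fn_apply _ (hm x.2)]
  map_zero' := by ext x; simp [fn_apply _ (hm x.2)]
  map_add' a b := by ext x; simp [fn_apply _ (hm x.2)]
  commutes' r := by ext x; simp [fn_apply _ (hm x.2)]

lemma ev_pull (ψ : F' → F) (hψ : ContDiffOn ℝ ∞ ψ D'.S) (hm : MapsTo ψ D'.S D.S) (a : Sm D)
    (x : D'.S) : ev x (pull ψ hψ hm a) = ev ⟨ψ x, hm x.2⟩ a := by
  rw [← a.fn_apply (hm x.2)]; rfl

lemma ev_der_pull (ψ : F' → F) (hψ : ContDiffOn ℝ ∞ ψ D'.S) (hm : MapsTo ψ D'.S D.S) (a : Sm D)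
    (x : D'.S) (v : F') {L : F' →L[ℝ] F} (hL : HasFDerivWithinAt ψ L D'.S x) :
    ev x (der v (pull ψ hψ hm a)) = ev ⟨ψ x, hm x.2⟩ (der (L v) a) := by
  rw [ev_der_of v _ x ((a.hasF (hm x.2)).comp x.1 hL hm) (fun y => rfl)]
  rfl

end Sm

/-- The domain [0,T) × U. -/
def Dom.cyl {E : Type} [NormedAddCommGroup E] [NormedSpace ℝ E] (T : ℝ) (U : Set E)
    (hU : IsOpen U) : Dom (ℝ × E) where
  S := Ico 0 T ×ˢ U
  ud := (uniqueDiffOn_Ico 0 T).prod hU.uniqueDiffOn
  cl := by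
    rintro ⟨t, z⟩ ⟨ht, hz⟩
    rw [interior_prod_eq, closure_prod_eq, interior_Ico, hU.interior_eq,
      closure_Ioo (ht.1.trans_lt ht.2).ne]
    exact ⟨⟨ht.1, ht.2.le⟩, subset_closure hz⟩

/-- An open set as a domain. -/
def Dom.opn (U : Set F) (hU : IsOpen U) : Dom F where
  S := U
  ud := hU.uniqueDiffOn
  cl := by rw [hU.interior_eq]; exact subset_closure

section Cyl
variable {E : Type} [NormedAddCommGroup E] [NormedSpace ℝ E] {T : ℝ} {U : Set E} {hU : IsOpen U}

lemma Dom.mem_cyl {x : ℝ × E} : x ∈ (Dom.cyl T U hU).S ↔ x.1 ∈ Ico 0 T ∧ x.2 ∈ U := Iff.rfl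

lemma Sm.ext_pos {a b : Sm (Dom.cyl T U hU)}
    (h : ∀ x : (Dom.cyl T U hU).S, 0 < x.1.1 → Sm.ev x a = Sm.ev x b) : a = b := by
  refine Sm.ext_interior fun x hx => h x ?_
  change x.1 ∈ interior (Ico 0 T ×ˢ U) at hx
  rw [interior_prod_eq, interior_Ico] at hx
  exact hx.1.1

/-- Time derivative at a positive time. -/
lemma Sm.hasDerivAt_time (a : Sm (Dom.cyl T U hU)) (x : (Dom.cyl T U hU).S) (hx : 0 < x.1.1) :
    HasDerivAt (fun s => a.fn (s, x.1.2)) (Sm.ev x (Sm.der (1, 0) a)) x.1.1 := by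
  have h1 : HasDerivAt (fun s : ℝ => (s, x.1.2)) ((1, 0) : ℝ × E) x.1.1 :=
    (hasDerivAt_id _).prodMk (hasDerivAt_const _ _)
  refine a.hasDerivAt_comp h1 ?_
  filter_upwards [Ioo_mem_nhds hx x.2.1.2] with s hs
  exact ⟨⟨hs.1.le, hs.2⟩, x.2.2⟩

/-- Space derivative. -/
lemma Sm.hasFDerivAt_space (a : Sm (Dom.cyl T U hU)) (x : (Dom.cyl T U hU).S) :
    ∃ L : E →L[ℝ] ℝ, HasFDerivAt (fun y => a.fn (x.1.1, y)) L x.1.2 ∧
      ∀ v, L v = Sm.ev x (Sm.der (0, v) a) := by
  have h1 : HasFDerivAt (fun y : E => (x.1.1, y)) (ContinuousLinearMap.inr ℝ ℝ E) x.1.2 :=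
    hasFDerivAt_prodMk_right _ _
  refine ⟨_, a.hasFDerivAt_comp h1 ?_, fun v => rfl⟩
  filter_upwards [hU.mem_nhds x.2.2] with y hy
  exact ⟨x.2.1, hy⟩

end Cyl

end Pool.Agent.P.MP_8fdf05_gt
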