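import Pool.Agent.P.MP_8fdf05_gt.Main

open Set Pool.Agent.P.MP_8fdf05_gt
open scoped ContDiff Manifold

namespace Pool.Agent.P.MP_8fdf05_gt.VariantDisproof

/-- A compact almost Kaehler manifold on which the class stays symplectic up to time T1, while
symplectic curvature flow cannot exist beyond a time T0 smaller than T1. -/
theorem result : ∃ (ι : Type) (_ : Fintype ι) (_ : DecidableEq ι) (M : Type)
    (_ : TopologicalSpace M) (_ : ChartedSpace (ι → ℝ) M),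
    IsManifold 𝓘(ℝ, ι → ℝ) ∞ M ∧ CompactSpace M ∧ T2Space M ∧ ConnectedSpace M ∧
    ∃ (g0 J0 : M → Matrix ι ι ℝ) (θ : M → ι → ℝ) (T0 T1 : ℝ), IsAK g0 J0 ∧ 0 < T0 ∧ T0 < T1 ∧
      (∀ e ∈ atlas (ι → ℝ) M, ∀ a, ContDiffOn ℝ ∞ (fun z => form1 θ e z a) e.target) ∧
      (∀ t ∈ Icc 0 T1, ∃ σ : M → Matrix ι ι ℝ, IsSymp σ ∧ ∀ e ∈ atlas (ι → ℝ) M,
        ∃ Λ : ι → Fld ι, ∀ z ∈ e.target, IsChern (form2 g0 e) (endo J0 e) Λ z ∧
          form2 σ e z = om (form2 g0 e) (endo J0 e) z -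
            t • (Pc (form2 g0 e) (endo J0 e) Λ z - dOne (form1 θ e) z)) ∧
      ∀ (T : ℝ) (g J : ℝ → M → Matrix ι ι ℝ), IsFlow T g J → g 0 = g0 → J 0 = J0 → T ≤ T0 := by
  obtain ⟨m, hm⟩ : ∃ m : ℕ, 2 ≤ m := ⟨2, le_rfl⟩
  obtain ⟨r1, hr1, hini⟩ := init_good
  obtain ⟨τ, hτ, hcol⟩ := collapse hm hr1
  obtain ⟨M, _, _, ch, h1, h2, h3, h4, k1, k2, k3, k4, k5⟩ := exists_CP (Option (Fin m))
  have hc : IsCP ch := ⟨k1, k2, k3, k4, k5⟩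
  obtain ⟨T1, hT1, hcl⟩ := class_part hc
  have hQ : 0 < min τ T1 / 2 := half_pos (lt_min hτ hT1)
  have hQ' := half_lt_self (lt_min hτ hT1)
  obtain ⟨η, hη, hini⟩ := hini _ hQ
  obtain ⟨g0, J0, θ, hak, hG, hJ, hθ, hσ⟩ := hcl η hη
  refine ⟨II (Fin m), inferInstance, inferInstance, M, inferInstance, inferInstance, h1, h2, h3, h4,
    g0, J0, θ, min τ T1 / 2, T1, hak, hQ, hQ'.trans_le (min_le_right _ _), hθ, fun t ht => ?_,
    fun T g J hf e1 e2 => ?_⟩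
  · obtain ⟨σ, s1, s2⟩ := hσ t ht
    refine ⟨σ, s1, fun e he => ⟨_, fun z hz => ⟨(hak.chern hc he hz).1, ?_⟩⟩⟩
    rw [(hak.chern hc he hz).2, s2 e he z hz]
  · by_contra hT
    rw [not_le] at hT
    obtain ⟨R, hR⟩ := red_of_flow (⟨0, by omega⟩ : Fin m) hc hη hf (e1 ▸ hG) (e2 ▸ hJ)
    have := hini _ T (hQ.trans hT) R hR
    revert R
    rw [Fintype.card_fin]
    exact fun R _ => hcol _ ⟨hQ, hQ'.trans_le (min_le_left _ _)⟩ T hT R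

end Pool.Agent.P.MP_8fdf05_gt.VariantDisproof
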